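import Pool.Agent.MP_31805c_co.H47.SpecA

/-!
Row BIRK: short cycles in a minimal counterexample (Birkhoff).
-/

namespace Pool.Agent.MP_31805c_co.H47

open Pool.Agent.MP_31805c_co.H93 (Conn)

namespace Birk

variable {V : Type} {G : SimpleGraph V}

/-- The edges of `G` inside `S`. -/
def ins (G : SimpleGraph V) (S : Set V) : SimpleGraph V where
  Adj u v := G.Adj u v ∧ u ∈ S ∧ v ∈ S
  symm := ⟨fun _ _ h => ⟨h.1.symm, h.2.2, h.2.1⟩⟩
  loopless := ⟨fun _ h => h.1.ne rfl⟩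

theorem contract (hs : Small G) (D S : Set V)
    (h : D ≠ Set.univ ∨ ∃ u ∈ S, ∃ v ∈ S, G.Adj u v) :
    ∃ c : V → K4, (∀ u v, Conn G S u v → c u = c v) ∧
      ∀ u v, u ∈ D → v ∈ D → G.Adj u v → ¬ (u ∈ S ∧ v ∈ S) → c u ≠ c v := by
  obtain ⟨c, h1, h2⟩ := hs D (ins G S) (fun _ _ h => h.1) (h.imp_right fun ⟨u, hu, v, hv, ha⟩ h0 => by
    have : (ins G S).Adj u v := ⟨ha, hu, hv⟩
    rw [h0] at this
    exact this)
  refine ⟨c, fun u v h => ?_, fun u v hu hv ha hn => h2 u v hu hv ha fun hr => hn ?_⟩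
  · induction h with
    | refl => rfl
    | tail _ h ih => exact ih.trans (h1 _ _ h)
  · obtain ⟨p⟩ := hr
    obtain ⟨q⟩ : (ins G S).Reachable v u := ⟨p.reverse⟩
    refine ⟨?_, ?_⟩
    · cases p with
      | nil => exact absurd rfl ha.ne
      | cons h _ => exact h.2.1
    · cases q with
      | nil => exact absurd rfl ha.ne
      | cons h _ => exact h.2.1

theorem k1 : ∀ a b c : K4, a + b = b + c ↔ a = c := by decide

theorem k2 : ∀ a b c d k : K4, a + b = c + d → c + k = a → d + k = b := by decide +kernel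

theorem k3 : ∀ a c : K4, c + (c + a) = a := by decide

theorem k4' : ∀ k a b c d : K4,
    ([a, b, c, d].contains k || a == b || a == c || b == c || [a, b, c].contains d) = true := by
  decide +kernel

theorem k4 (k a b c d : K4) (h : k ∉ [a, b, c, d]) (h1 : a ≠ b) (h2 : a ≠ c) (h3 : b ≠ c) :
    d = a ∨ d = b ∨ d = c := by
  have h4 := k4' k a b c d
  simp only [Bool.or_eq_true, List.contains_iff_mem, beq_iff_eq, h, h1, h2, h3, false_or] at h4
  simpa using h4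

theorem k5 (k a b c d e : K4) (ha : a ≠ k) (hb : b ≠ k) (hc : c ≠ k) (hd : d ≠ k) (he : e ≠ k)
    (h1 : a ≠ b) (h2 : b ≠ c) (h3 : c ≠ d) (h4 : d ≠ e) (h5 : e ≠ a) :
    (a = c ∧ b = d) ∨ (b = d ∧ c = e) ∨ (c = e ∧ d = a) ∨ (d = a ∧ e = b) ∨
      (e = b ∧ a = c) := by
  have n : ∀ x y z w : K4, x ≠ k → y ≠ k → z ≠ k → w ≠ k → k ∉ [x, y, z, w] := by
    intro x y z w hx hy hz hw
    simp [hx.symm, hy.symm, hz.symm, hw.symm]
  by_cases hac : a = c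
  · by_cases hbd : b = d
    · exact Or.inl ⟨hac, hbd⟩
    · rcases k4 k a b d e (n _ _ _ _ ha hb hd he) h1 (hac ▸ h3) hbd with h | h | h
      · exact absurd h h5
      · exact Or.inr (Or.inr (Or.inr (Or.inr ⟨h, hac⟩)))
      · exact absurd h.symm h4
  · rcases k4 k a b c d (n _ _ _ _ ha hb hc hd) h1 hac h2 with h | h | h <;>
      rcases k4 k a b c e (n _ _ _ _ ha hb hc he) h1 hac h2 with h' | h' | h'
    · exact absurd h' h5
    · exact Or.inr (Or.inr (Or.inr (Or.inl ⟨h, h'⟩)))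
    · exact Or.inr (Or.inr (Or.inl ⟨h'.symm, h⟩))
    · exact absurd h' h5
    · exact absurd (h.trans h'.symm) h4
    · exact Or.inr (Or.inl ⟨h.symm, h'.symm⟩)
    · exact absurd h.symm h3
    · exact absurd h.symm h3
    · exact absurd h.symm h3

/-- The trace of a colouring. -/
def tr (c : V → K4) (r : ℕ) (ρ : ℕ → V) (t : ℕ) : K4 := c (ρ t) + c (ρ ((t + 1) % r))

theorem tr_mem {K : Set V} {c : V → K4} (h : Col G Kᶜ c) (r : ℕ) (ρ : ℕ → V) :
    tr c r ρ ∈ Tr G K r ρ := ⟨c, h, fun _ _ => rfl⟩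

theorem glue {r : ℕ} {ρ : ℕ → V} {A B : Set V} (hn : ∀ c, ¬ Col G Set.univ c) (hd : Disjoint A B)
    (hc : ∀ v, v ∈ A ∨ v ∈ B ∨ ∃ t < r, ρ t = v) (hab : ∀ u ∈ A, ∀ v ∈ B, ¬ G.Adj u v)
    (h : (Tr G A r ρ ∩ Tr G B r ρ).Nonempty) : False := by
  classical
  obtain ⟨x, ⟨c, hc1, e1⟩, c', hc2, e2⟩ := h
  have key : ∀ t < r, c' (ρ t) + (c' (ρ 0) + c (ρ 0)) = c (ρ t) := by
    intro t
    induction t with
    | zero => exact fun _ => k3 _ _
    | succ t ih =>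
      intro ht
      have h1 := (e1 t (by omega)).symm.trans (e2 t (by omega))
      rw [Nat.mod_eq_of_lt ht] at h1
      exact k2 _ _ _ _ _ h1 (ih (by omega))
  have mix : ∀ u v, u ∈ A → v ∉ A → G.Adj u v → c' u + (c' (ρ 0) + c (ρ 0)) ≠ c v := by
    intro u v hu hv ha
    have hvB : v ∉ B := fun h => hab u hu v h ha
    rcases hc v with h | h | ⟨t, ht, rfl⟩
    · exact absurd h hv
    · exact absurd h hvB
    · rw [← key t ht]
      exact fun h => hc2 u _ (Set.disjoint_left.mp hd hu) hvB ha (add_right_cancel h)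
  refine hn (fun v => if v ∈ A then c' v + (c' (ρ 0) + c (ρ 0)) else c v) fun u v _ _ ha => ?_
  by_cases hu : u ∈ A <;> by_cases hv : v ∈ A <;> simp only [hu, hv, if_true, if_false]
  · exact fun h => hc2 u v (Set.disjoint_left.mp hd hu) (Set.disjoint_left.mp hd hv) ha
      (add_right_cancel h)
  · exact mix u v hu hv ha
  · exact (mix v u hv hu ha.symm).symm
  · exact hc1 u v hu hv ha

theorem pp {r : ℕ} {ρ : ℕ → V} {A : Set V} (hs : Small G) (hr : r = 4 ∨ r = 5) (hc : Cyc G r ρ)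
    (hA : Side G r ρ A) : PP r (Tr G A r ρ) := by
  obtain ⟨⟨lab, hD⟩, U, hU, hcon, hadj⟩ := hA
  refine ⟨fun i hi => ?_, fun i hi => ?_⟩
  · have hj : ((i + 1) % r + 1) % r < r := Nat.mod_lt _ (by omega)
    obtain ⟨x, hx, ax⟩ := hadj i hi
    obtain ⟨y, hy, ay⟩ := hadj _ hj
    obtain ⟨c, h1, h2⟩ := contract hs Set.univ (U ∪ {ρ i, ρ (((i + 1) % r + 1) % r)})
      (Or.inr ⟨x, Or.inl hx, ρ i, by simp, ax⟩)
    have na : ¬ G.Adj (ρ i) (ρ (((i + 1) % r + 1) % r)) := by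
      rw [hc.adj i hi _ hj]
      rcases hr with rfl | rfl <;> omega
    refine ⟨tr c r ρ, tr_mem (fun u v hu hv ha => h2 u v trivial trivial ha ?_) r ρ, ?_⟩
    · rintro ⟨h3 | h3, h4 | h4⟩
      · exact hu (hU h3)
      · exact hu (hU h3)
      · exact hv (hU h4)
      · rcases h3 with rfl | rfl <;> rcases h4 with rfl | rfl
        · exact ha.ne rfl
        · exact na ha
        · exact na ha.symm
        · exact ha.ne rfl
    · rw [tr, tr, k1]
      exact h1 _ _ ((Conn.adj ax.symm (by simp) (Or.inl hx)).trans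
        (((hcon x hx y hy).mono Set.subset_union_left).trans (Conn.adj ay (Or.inl hy) (by simp))))
  · obtain ⟨x, hx, ax⟩ := hadj i hi
    obtain ⟨c, h1, h2⟩ := contract hs Set.univ (U ∪ {ρ i})
      (Or.inr ⟨x, Or.inl hx, ρ i, by simp, ax⟩)
    have key : ∀ j < r, j ≠ i → c (ρ i) ≠ c (ρ j) := by
      intro j hj hij
      obtain ⟨y, hy, ay⟩ := hadj j hj
      rw [h1 _ _ ((Conn.adj ax.symm (by simp) (Or.inl hx)).trans
        ((hcon x hx y hy).mono Set.subset_union_left))]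
      refine h2 _ _ trivial trivial ay ?_
      rintro ⟨-, h | h⟩
      · exact hD.out j hj (hU h)
      · exact hij (hc.inj j hj i hi h)
    refine ⟨tr c r ρ, tr_mem (fun u v hu hv ha => h2 u v trivial trivial ha ?_) r ρ, ?_, ?_⟩
    · rintro ⟨h3 | h3, h4 | h4⟩
      · exact hu (hU h3)
      · exact hu (hU h3)
      · exact hv (hU h4)
      · exact ha.ne (Eq.trans h3 (Eq.symm h4))
    · rw [tr, tr, Ne, k1]
      exact key _ (Nat.mod_lt _ (by omega)) (by rcases hr with rfl | rfl <;> omega)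
    · have e1 : ((i + r - 1) % r + 1) % r = i := by rcases hr with rfl | rfl <;> omega
      have e2 : ((i + r - 2) % r + 1) % r = (i + r - 1) % r := by
        rcases hr with rfl | rfl <;> omega
      rw [tr, tr, e1, e2, ne_comm, Ne, k1]
      exact (key _ (Nat.mod_lt _ (by omega)) (by rcases hr with rfl | rfl <;> omega)).symm

theorem p3 {ρ : ℕ → V} {A : Set V} (hs : Small G) (hA : Side G 5 ρ A)
    (hn : ∀ z, A ≠ {z}) : P3 (Tr G A 5 ρ) := by
  obtain ⟨⟨lab, hD⟩, U, hU, hcon, hadj⟩ := hA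
  obtain ⟨x, hx, -⟩ := hadj 0 (by omega)
  obtain ⟨c, h1, h2⟩ := contract hs (A \ U)ᶜ U (by
    by_contra h
    rw [not_or, not_not, Set.compl_univ_iff, Set.sdiff_eq_empty] at h
    refine hn x (Set.eq_singleton_iff_unique_mem.mpr ⟨hU hx, fun y hy => ?_⟩)
    rcases Relation.ReflTransGen.cases_tail (hcon x hx y (h.1 hy)) with h3 | ⟨t, -, h3⟩
    · exact h3
    · exact absurd ⟨t, h3.2.1, y, h3.2.2, h3.1⟩ h.2)
  have hcol : Col G Aᶜ c := fun u v hu hv ha =>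
    h2 u v (fun h => hu h.1) (fun h => hv h.1) ha fun h => hu (hU h.1)
  have miss : ∀ t < 5, c (ρ t) ≠ c x := by
    intro t ht
    obtain ⟨y, hy, ay⟩ := hadj t ht
    rw [h1 x y (hcon x hx y hy)]
    exact h2 _ _ (fun h => hD.out t ht h.1) (fun h => h.2 hy) ay.symm
      fun h => hD.out t ht (hU h.1)
  have ne : ∀ t < 5, c (ρ t) ≠ c (ρ ((t + 1) % 5)) := fun t ht =>
    hcol _ _ (hD.out t ht) (hD.out _ (Nat.mod_lt _ (by omega))) (hD.adj t ht)
  refine ⟨tr c 5 ρ, tr_mem hcol 5 ρ, ?_⟩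
  have fin : ∀ i : ℕ, c (ρ i) = c (ρ (((i + 1) % 5 + 1) % 5)) →
      c (ρ ((i + 1) % 5)) = c (ρ (((i + 2) % 5 + 1) % 5)) →
      tr c 5 ρ i = tr c 5 ρ ((i + 1) % 5) ∧ tr c 5 ρ i = tr c 5 ρ ((i + 2) % 5) := by
    intro i e1 e2
    have e3 : ((i + 1) % 5 + 1) % 5 = (i + 2) % 5 := by omega
    refine ⟨by rw [tr, tr, k1]; exact e1, ?_⟩
    rw [tr, tr, e1, e2, e3]
  rcases k5 _ _ _ _ _ _ (miss 0 (by omega)) (miss 1 (by omega)) (miss 2 (by omega))
    (miss 3 (by omega)) (miss 4 (by omega)) (ne 0 (by omega)) (ne 1 (by omega)) (ne 2 (by omega))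
    (ne 3 (by omega)) (ne 4 (by omega)) with h | h | h | h | h
  · exact ⟨0, by omega, fin 0 h.1 h.2⟩
  · exact ⟨1, by omega, fin 1 h.1 h.2⟩
  · exact ⟨2, by omega, fin 2 h.1 h.2⟩
  · exact ⟨3, by omega, fin 3 h.1 h.2⟩
  · exact ⟨4, by omega, fin 4 h.1 h.2⟩

theorem wheel {r : ℕ} {ρ : ℕ → V} {B : Set V} {z : V}
    (hc : ∀ v, v ∈ ({z} : Set V) ∨ v ∈ B ∨ ∃ t < r, ρ t = v) (hab : ∀ v ∈ B, ¬ G.Adj z v)
    (hA : Side G r ρ {z}) (w : V) : G.Adj z w ↔ ∃ t < r, ρ t = w := by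
  obtain ⟨-, U, hU, -, hadj⟩ := hA
  refine ⟨fun h => ?_, ?_⟩
  · rcases hc w with h1 | h1 | h1
    · exact absurd (Eq.symm h1) h.ne
    · exact absurd h (hab w h1)
    · exact h1
  · rintro ⟨t, ht, rfl⟩
    obtain ⟨x, hx, ax⟩ := hadj t ht
    have e : x = z := hU hx
    exact e ▸ ax

/-- The cycle through the given vertices. -/
def cy (a b c d e : V) : ℕ → V
  | 0 => a
  | 1 => b
  | 2 => c
  | 3 => d
  | _ => e

theorem cyc4 {a b c d : V} (h1 : G.Adj a b) (h2 : G.Adj b c) (h3 : G.Adj c d) (h4 : G.Adj d a)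
    (n1 : a ≠ c) (n2 : b ≠ d) (m1 : ¬ G.Adj a c) (m2 : ¬ G.Adj b d) : Cyc G 4 (cy a b c d d) := by
  have m1' : ¬ G.Adj c a := fun h => m1 h.symm
  have m2' : ¬ G.Adj d b := fun h => m2 h.symm
  refine ⟨fun t ht u hu => ?_, fun t ht u hu => ?_⟩
  · interval_cases t <;> interval_cases u <;>
      simp [cy, n1, n2, n1.symm, n2.symm, h1.ne, h2.ne, h3.ne, h4.ne, h1.ne', h2.ne', h3.ne', h4.ne']
  · interval_cases t <;> interval_cases u <;>
      simp [cy, h1, h2, h3, h4, h1.symm, h2.symm, h3.symm, h4.symm, m1, m2, m1', m2']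

theorem cyc5 {a b c d e : V} (h1 : G.Adj a b) (h2 : G.Adj b c) (h3 : G.Adj c d) (h4 : G.Adj d e)
    (h5 : G.Adj e a) (n1 : a ≠ c) (n2 : a ≠ d) (n3 : b ≠ d) (n4 : b ≠ e) (n5 : c ≠ e)
    (m1 : ¬ G.Adj a c) (m2 : ¬ G.Adj a d) (m3 : ¬ G.Adj b d) (m4 : ¬ G.Adj b e)
    (m5 : ¬ G.Adj c e) : Cyc G 5 (cy a b c d e) := by
  have m1' : ¬ G.Adj c a := fun h => m1 h.symm
  have m2' : ¬ G.Adj d a := fun h => m2 h.symm
  have m3' : ¬ G.Adj d b := fun h => m3 h.symm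
  have m4' : ¬ G.Adj e b := fun h => m4 h.symm
  have m5' : ¬ G.Adj e c := fun h => m5 h.symm
  refine ⟨fun t ht u hu => ?_, fun t ht u hu => ?_⟩
  · interval_cases t <;> interval_cases u <;>
      simp [cy, n1, n2, n3, n4, n5, n1.symm, n2.symm, n3.symm, n4.symm, n5.symm, h1.ne, h2.ne,
        h3.ne, h4.ne, h5.ne, h1.ne', h2.ne', h3.ne', h4.ne', h5.ne']
  · interval_cases t <;> interval_cases u <;>
      simp [cy, h1, h2, h3, h4, h5, h1.symm, h2.symm, h3.symm, h4.symm, h5.symm, m1, m2, m3, m4,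
        m5, m1', m2', m3', m4', m5']

theorem cy_set {a b c d e z : V} (h : ∀ w, G.Adj z w ↔ ∃ t < 5, cy a b c d e t = w) :
    G.neighborSet z = {a, b, c, d, e} := by
  ext w
  rw [SimpleGraph.mem_neighborSet, h]
  constructor
  · rintro ⟨t, ht, rfl⟩
    interval_cases t <;> simp [cy]
  · rintro (rfl | rfl | rfl | rfl | rfl)
    exacts [⟨0, by omega, rfl⟩, ⟨1, by omega, rfl⟩, ⟨2, by omega, rfl⟩, ⟨3, by omega, rfl⟩,
      ⟨4, by omega, rfl⟩]

theorem deg5 (hl : Lnk G) (h4 : B4 G) {v : V} (hv : dg G v = 4) : False := by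
  obtain ⟨a, b, hab⟩ := hl.ex v
  have hφ : IsFl G (v, a, b) := hab
  have t0 := hl.t3 hφ 0
  have t1 := hl.t3 hφ 1
  have t2 := hl.t3 hφ 2
  have e : nb G (v, a, b) (2 + 2) = nb G (v, a, b) 0 := (hl.eq hφ _ _).mpr (by rw [hv]; rfl)
  rw [e] at t2
  rcases h4 _ _ _ _ t0.1.2.2.symm t0.2.1.2.2 t1.2.1.2.2 t2.2.1.2.2 t0.2.2 t1.2.2 with h | h
  · exact t2.2.1.2.2.ne (hl.uniq t1 ⟨t1.1, ⟨t1.1.1, t0.1.2.1, h.symm⟩, t0.1.2.2.ne⟩)
  · exact t1.2.1.2.2.ne (hl.uniq t0 ⟨t0.1, ⟨t0.1.1, t1.2.1.2.1, h⟩, t2.2.1.2.2.ne'⟩)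

end Birk

open Birk

theorem birk : StmtBIRK := by
  intro hK hS h4 h5 V _ _ G ht hl
  have b4 : B4 G := by
    intro a b c d h1 h2 h3 h4' n1 n2
    by_contra h
    rw [not_or] at h
    have hc := cyc4 h1 h2 h3 h4' n1 n2 h.1 h.2
    obtain ⟨A, B, hd, hcov, hab, hA, hB⟩ := hS V G 4 _ ht hl le_rfl hc
    obtain ⟨la, hla⟩ := hA.1
    obtain ⟨lb, hlb⟩ := hB.1
    exact glue ht.ncol hd hcov hab (h4 _ _ (hK V G A 4 _ la ht hla) (hK V G B 4 _ lb ht hlb)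
      (pp ht.small (Or.inl rfl) hc hA) (pp ht.small (Or.inl rfl) hc hB))
  refine { ht, hl with b4 := b4, b5 := ?_, d5 := fun v => ?_ }
  · intro a b c d e h1 h2 h3 h4' h5' n1 n2 n3 n4 n5
    by_contra h
    simp only [not_or] at h
    obtain ⟨⟨m1, m2, m3, m4, m5⟩, hz⟩ := h
    have hc := cyc5 h1 h2 h3 h4' h5' n1 n2 n3 n4 n5 m1 m2 m3 m4 m5
    obtain ⟨A, B, hd, hcov, hab, hA, hB⟩ := hS V G 5 _ ht hl (by omega) hc
    obtain ⟨la, hla⟩ := hA.1
    obtain ⟨lb, hlb⟩ := hB.1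
    refine glue ht.ncol hd hcov hab (h5 _ _ (hK V G A 5 _ la ht hla) (hK V G B 5 _ lb ht hlb)
      (pp ht.small (Or.inr rfl) hc hA) (pp ht.small (Or.inr rfl) hc hB)
      (p3 ht.small hA ?_) (p3 ht.small hB ?_))
    · rintro z rfl
      exact hz ⟨z, cy_set (wheel hcov (hab z rfl) hA)⟩
    · rintro z rfl
      exact hz ⟨z, cy_set (wheel (fun v => or_left_comm.mp (hcov v))
        (fun v hv h => hab v hv z rfl h.symm) hB)⟩
  · by_contra h
    exact deg5 hl b4 (v := v) (by have := ht.d4 v; omega)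

end Pool.Agent.MP_31805c_co.H47
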