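import Pool.Agent.MP_31805c_co.H47.SpecB

/-!
The four colour theorem: soundness of the check of reducibility, assembly.
-/

namespace Pool.Agent.MP_31805c_co.H47

open Finset

namespace Chk

theorem add_self (x : K4) : x + x = 0 := by revert x; decide

theorem tele (c : ℕ → K4) (n : ℕ) : ∑ t ∈ range n, (c t + c (t + 1)) = c n + c 0 := by
  induction n with
  | zero => simp [add_self]
  | succ n ih =>
    rw [sum_range_succ, ih]
    have := add_self (c n)
    linear_combination this

theorem last_eq {n : ℕ} {x y : ℕ → K4} (hx : ∑ t ∈ range (n + 1), x t = 0)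
    (hy : ∑ t ∈ range (n + 1), y t = 0) (h : ∀ t < n, x t = y t) : ∀ t < n + 1, x t = y t := by
  intro t ht
  rcases Nat.lt_succ_iff_lt_or_eq.1 ht with ht | rfl
  · exact h t ht
  · rw [sum_range_succ] at hx hy
    rw [sum_congr rfl fun s hs => h s (mem_range.1 hs)] at hx
    exact add_left_cancel (hx.trans hy.symm)

theorem ext_of {C : Cfg} {x : ℕ → K4} (hs : ∑ t ∈ range C.r, x t = 0)
    (h : C.Ext' x) : C.Ext x := by
  obtain ⟨c, h1, h2⟩ := h
  refine ⟨c, fun t ht => ?_, h2⟩
  rcases Nat.lt_or_ge (t + 1) C.r with a | a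
  · rw [Nat.mod_eq_of_lt a]
    exact h1 t a
  · have e : C.r = t + 1 := by omega
    rw [e] at hs h1
    rw [e, Nat.mod_self]
    rw [sum_range_succ, sum_congr rfl fun s hs => h1 s (by have := mem_range.1 hs; omega),
      tele] at hs
    have := add_self (c t + c 0)
    linear_combination hs - this

/-- A shear of the four colours. -/
def shear : K4 ≃+ K4 where
  toFun p := (p.1, p.1 + p.2)
  invFun p := (p.1, p.1 + p.2)
  left_inv := by decide
  right_inv := by decide
  map_add' := by decide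

theorem exists_g (a : K4) (ha : a ≠ 0) : ∃ g : K4 ≃+ K4, g a = col 0 := by
  have : a = (1, 0) ∨ a = (0, 1) ∨ a = (1, 1) := by revert a; decide
  rcases this with rfl | rfl | rfl
  · exact ⟨AddEquiv.refl _, rfl⟩
  · exact ⟨AddEquiv.prodComm, rfl⟩
  · exact ⟨shear, by decide⟩

theorem extX_map {C : Cfg} {x : ℕ → K4} (g : K4 ≃+ K4) (h : C.ExtX x) :
    C.ExtX fun t => g (x t) := by
  obtain ⟨c, h1, h2⟩ := h
  refine ⟨fun t => g (c t), fun t ht => ?_, fun k hk a ha => ?_⟩
  · simp only [h1 t ht, map_add]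
  · rw [h2 k hk a ha]
    exact g.injective.eq_iff.symm

variable {A B : List ℕ} {X : Set (ℕ → K4)}

theorem good_lor {S T : ℕ} (h1 : Good A B X S) (h2 : Good A B X T) :
    Good A B X (Nat.lor S T) := by
  intro j hj
  rw [testBit_lor, Bool.or_eq_true] at hj
  exact hj.elim (h1 j) (h2 j)

theorem good_closAll {secs : List Sec} {sch T : ℕ} (hT : Good A B X T)
    (h : ∀ s ∈ secs, Good A B X (clos s T)) : Good A B X (closAll secs sch T) := by
  induction secs with
  | nil => exact hT
  | cons s l ih =>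
    have ih' := ih fun s' hs' => h s' (List.mem_cons_of_mem _ hs')
    show Good A B X (cond (tb sch s.k) (Nat.lor (clos s T) (closAll l sch T)) (closAll l sch T))
    cases tb sch s.k
    · exact ih'
    · exact good_lor (h s List.mem_cons_self) ih'

theorem good_symm {pi : List (ℕ × ℕ)} {one : Bool} {T : ℕ}
    (h : ∀ S, Good A B X S → Good A B X (net pi S)) (hT : Good A B X T) :
    Good A B X (symm pi one T) := by
  unfold symm
  cases one
  · exact good_lor hT (h _ (good_lor hT (h _ hT)))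
  · exact good_lor hT (h _ hT)

theorem good_rounds {L : Lay} {Y : ℕ} (h1 : ∀ S, Good A B X S → Good A B X (net L.pi S))
    (h2 : ∀ S, Good A B X S → ∀ s ∈ L.secs, Good A B X (clos s S)) (schs : List ℕ) :
    ∀ T, Good A B X T → rounds L Y schs T = true →
      ∃ S, Good A B X S ∧ sub Y (Nat.land S L.a0) = true := by
  induction schs with
  | nil => exact fun T hT h => ⟨T, hT, h⟩
  | cons sch l ih =>
    intro T hT h
    have h' : frc (rounds L Y l) (symm L.pi (tb sch 0) (closAll L.secs sch T)) = true := h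
    refine ih _ (good_symm (one := tb sch 0) h1 (good_closAll (sch := sch) hT (h2 T hT))) ?_
    unfold frc at h'
    revert h'
    cases Nat.ble 1 (symm L.pi (tb sch 0) (closAll L.secs sch T))
    · exact fun h' => absurd h' (by simp)
    · exact id

end Chk

open Chk in
theorem chkP : StmtCHK := by
  intro hSUM hPI hSTP hSG hTAB hWF hS hC hKEM hSEC L c pS pC schs
    ⟨A, B, a0, k1, k2, k3, k4, k5, k6⟩ h
  unfold chk at h
  generalize mkCfg c = C at h ⊢
  generalize decP 16 pS = qS at h
  generalize decP 26 pC = qC at h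
  generalize decP 8 schs = qR at h
  rw [Bool.and_eq_true] at h
  obtain ⟨w1, w2⟩ := hWF hTAB C h.1
  refine ⟨w1, fun X hX hn x hx he => ?_⟩
  have h2 := h.2
  unfold redB at h2
  rw [Bool.and_eq_true, beq_true] at h2
  obtain ⟨hr, h3⟩ := h2
  rw [← hr] at k1 k3 k5 k6
  obtain ⟨lA, lB, hs⟩ := hSUM A B _ k1
  obtain ⟨e, e1, e2⟩ := hSG hSTP A B _ _ k4 k5
  have r3 := w1.three
  obtain ⟨S, s1, s2⟩ := good_rounds (A := A) (B := B) (X := X)
    (fun S => hPI A B _ _ X S k2 lA lB k3 hX)
    (fun S hS s hs => hSEC hKEM A B _ s X S hX (k6 s hs).1 (k6 s hs).2 hS) qR _ (by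
      intro j hj hm
      rw [testBit_land, Bool.and_eq_true, e1, a0] at hj
      obtain ⟨b1, d, d1, d2⟩ := hS hSTP hTAB C qS w1 w2 _ hj.1
      exact hn _ hm (ext_of (hs j)
        ⟨d, fun t ht => (e2 j hj.2 b1 t ht).trans (d1 t ht), d2⟩)) h3
  obtain ⟨g, hg⟩ := exists_g (x 0) (hX.ne x hx 0 (by omega))
  have hy := hX.perm x hx g
  obtain ⟨i, i1, i2, i3⟩ := hC hSTP hTAB C qC w1 w2 _ (hX.ne _ hy) hg (extX_map g he)
  have j1 := sub_bit s2 (e.symm i) (by rw [e1, e.apply_symm_apply, i2])
  rw [testBit_land, Bool.and_eq_true, a0] at j1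
  have j2 := e2 _ j1.2 (by rwa [e.apply_symm_apply])
  rw [e.apply_symm_apply] at j2
  refine s1 _ j1.1 (hX.loc _ hy _ ?_)
  have j3 := hs (e.symm i)
  have j4 := hX.sum _ hy
  obtain ⟨n, hn'⟩ : ∃ n, C.r = n + 1 := ⟨C.r - 1, by omega⟩
  rw [hn'] at j2 j3 j4 i3 ⊢
  exact last_eq j3 j4 fun t ht => (j2 t (by omega)).trans (i3 t (by omega)).symm

end Pool.Agent.MP_31805c_co.H47
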