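import Pool.Agent.MP_31805c_co.H47.SpecB

/-!
The four colour theorem: the engine for colourings modulo the contract misses no colouring.
-/

namespace Pool.Agent.MP_31805c_co.H47

namespace EngC

/-- The digit of a colour. -/
def dgt (v : K4) : ℕ := if v = (1, 1) then 1 else if v = (0, 1) then 2 else 0

theorem dgt_lt : ∀ v : K4, dgt v < 3 := by decide

theorem col_dgt : ∀ v : K4, v ≠ 0 → col (dgt v) = v := by decide

theorem dgt_self : ∀ v : K4, dgt (v + v) = 0 := by decide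

theorem add_self' : ∀ v : K4, v + v = 0 := by decide

theorem mSpl : ∀ u w z : K4, u ≠ w → u ≠ z → z ≠ w →
    (dgt (u + w), 0, dgt (u + z), dgt (z + w)) ∈ relSpl := by decide

theorem mMrg : ∀ u m w : K4, u ≠ m → m ≠ w → u ≠ w →
    (dgt (u + m), dgt (m + w), dgt (u + w), 0) ∈ relMrg := by decide

theorem mSp1 : ∀ u w z : K4, u ≠ w → u ≠ z → z ≠ w →
    (dgt (u + w), 0, dgt (u + z), 0) ∈ relSp1 := by decide

theorem mNew : ∀ y z : K4, (0, 0, dgt (y + z), dgt (z + y)) ∈ relNew := by decide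

theorem mEqf : ∀ u m : K4, (dgt (u + m), dgt (m + u), 0, 0) ∈ relEqf := by decide

set_option synthInstance.maxSize 1000 in
theorem mFus' : ∀ u m w z : K4, u ≠ m ∧ m ≠ w ∧ u ≠ z ∧ z ≠ m ∧ z ≠ w →
    (dgt (u + m), dgt (m + w), dgt (u + z), dgt (z + w)) ∈ relFus := by decide +kernel

theorem mFus (u m w z : K4) (h1 : u ≠ m) (h2 : m ≠ w) (h3 : u ≠ z) (h4 : z ≠ m) (h5 : z ≠ w) :
    (dgt (u + m), dgt (m + w), dgt (u + z), dgt (z + w)) ∈ relFus :=
  mFus' u m w z ⟨h1, h2, h3, h4, h5⟩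

theorem relOK {n q : ℕ} (hq : q < n) (rel : List (ℕ × ℕ × ℕ × ℕ))
    (h : ∀ e ∈ rel, e.1 < 3 ∧ e.2.1 < 3 ∧ e.2.2.1 < 3 ∧ e.2.2.2 < 3) : RelOK n q rel :=
  fun e he => ⟨(h e he).1, (h e he).2.1, (h e he).2.2.1, (h e he).2.2.2, fun hn => by omega⟩

theorem relOK1 (n : ℕ) : RelOK n n relSp1 := by
  have h : ∀ e ∈ relSp1, e.1 < 3 ∧ e.2.1 < 3 ∧ e.2.2.1 < 3 ∧ e.2.2.2 < 3 ∧
      e.2.1 = 0 ∧ e.2.2.2 = 0 := by decide
  exact fun e he => ⟨(h e he).1, (h e he).2.1, (h e he).2.2.1, (h e he).2.2.2.1,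
    fun _ => (h e he).2.2.2.2⟩

theorem upd_same (f : Lab) (p : ℕ) (v : ℕ × ℕ) : upd f p v p = v := by
  simp [upd]

theorem upd_ne (f : Lab) {p s : ℕ} (v : ℕ × ℕ) (h : s ≠ p) : upd f p v s = f s := by
  have : Nat.beq s p = false := by
    cases hb : Nat.beq s p
    · rfl
    · exact absurd (beq_true.1 hb) h
  simp [upd, this]

/-- The invariant: the cell given by the colouring is a bit of `T`. -/
def Inv (c : ℕ → K4) (n T : ℕ) (f : Lab) : Prop :=
  ∃ i < 3 ^ n, T.testBit i = true ∧ ∀ p < n, dig p i = dgt (c (f p).1 + c (f p).2)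

theorem step2 (hS : StmtSTP) {c : ℕ → K4} {n T p q : ℕ} {f : Lab}
    {rel : List (ℕ × ℕ × ℕ × ℕ)} (A B : ℕ × ℕ) (hp : p < n) (hq : q < n) (hpq : p ≠ q)
    (hr : ∀ e ∈ rel, e.1 < 3 ∧ e.2.1 < 3 ∧ e.2.2.1 < 3 ∧ e.2.2.2 < 3) (hI : Inv c n T f)
    (hm : (dgt (c (f p).1 + c (f p).2), dgt (c (f q).1 + c (f q).2), dgt (c A.1 + c A.2),
      dgt (c B.1 + c B.2)) ∈ rel) :
    Inv c n (stp n p q rel T) (upd (upd f p A) q B) := by
  obtain ⟨i, hi, hT, hd⟩ := hI
  obtain ⟨j, hj, hb, h1, h2, h3⟩ :=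
    hS.compl n p q rel T hp hpq (relOK hq rel hr) _ hm i hi hT (hd p hp) (hd q hq)
  refine ⟨j, hj, hb, fun s hs => ?_⟩
  by_cases hsq : s = q
  · subst hsq
    rw [upd_same]
    exact h2
  · rw [upd_ne _ _ hsq]
    by_cases hsp : s = p
    · subst hsp
      rw [upd_same]
      exact h1
    · rw [upd_ne _ _ hsp, h3 s hsp hsq]
      exact hd s hs

theorem step1 (hS : StmtSTP) {c : ℕ → K4} {n T p : ℕ} {f : Lab} (A : ℕ × ℕ) (hp : p < n)
    (hI : Inv c n T f)
    (hm : (dgt (c (f p).1 + c (f p).2), 0, dgt (c A.1 + c A.2), 0) ∈ relSp1) :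
    Inv c n (stp n p n relSp1 T) (upd f p A) := by
  obtain ⟨i, hi, hT, hd⟩ := hI
  have h0 : dig n i = 0 := by
    unfold dig
    rw [Nat.div_eq_of_lt hi]
  obtain ⟨j, hj, hb, h1, -, h3⟩ :=
    hS.compl n p n relSp1 T hp hp.ne (relOK1 n) _ hm i hi hT (hd p hp) h0
  refine ⟨j, hj, hb, fun s hs => ?_⟩
  by_cases hsp : s = p
  · subst hsp
    rw [upd_same]
    exact h1
  · rw [upd_ne _ _ hsp, h3 s hsp hs.ne]
    exact hd s hs

theorem step0 {c : ℕ → K4} {n T p : ℕ} {f : Lab} (A : ℕ × ℕ) (hI : Inv c n T f)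
    (h1 : c (f p).1 = c A.1) (h2 : c (f p).2 = c A.2) : Inv c n T (upd f p A) := by
  obtain ⟨i, hi, hT, hd⟩ := hI
  refine ⟨i, hi, hT, fun s hs => ?_⟩
  by_cases hsp : s = p
  · subst hsp
    rw [upd_same, ← h1, ← h2]
    exact hd s hs
  · rw [upd_ne _ _ hsp]
    exact hd s hs

theorem cond_elim {α : Type} (G : α → Prop) (b : Bool) (x y : α) (hx : b = true → G x)
    (hy : G y) : G (cond b x y) := by
  cases b
  · exact hy
  · exact hx rfl

theorem op_ok (hS : StmtSTP) {c : ℕ → K4} (C : Cfg) (G : ℕ → Prop) (n F kd p q z y w : ℕ)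
    (k : ℕ → Lab → ℕ) (hnz : ∀ u v, nz C u v = true → c u ≠ c v)
    (heq : ∀ u v, eqv C u v = true → c u = c v) (hF : G F)
    (hk : ∀ T f, Inv c n T f → G (k T f)) (T : ℕ) (f : Lab) (hI : Inv c n T f) :
    G (opC C n F kd p q z y w k T f) := by
  have hfre : ∀ s, fre f s = true → dgt (c (f s).1 + c (f s).2) = 0 := fun s hs => by
    have : (f s).1 = (f s).2 := beq_true.1 hs
    rw [this]
    exact dgt_self _
  unfold opC
  refine cond_elim G _ _ _ (fun h0 => ?_) hF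
  simp only [Bool.and_eq_true, Nat.blt_eq, Bool.not_eq_true'] at h0
  obtain ⟨⟨hp, hq⟩, hpq'⟩ := h0
  have hpq : p ≠ q := fun h => by
    rw [beq_true.2 h] at hpq'
    exact Bool.noConfusion hpq'
  refine cond_elim G _ _ _ (fun _ => cond_elim G _ _ _ (fun h => hk _ _ ?_) hF) ?_
  · simp only [Bool.and_eq_true] at h
    obtain ⟨⟨⟨h1, h2⟩, h3⟩, h4⟩ := h
    refine step2 hS _ _ hp hq hpq (by decide) hI ?_
    rw [hfre q h1]
    exact mSpl _ _ _ (hnz _ _ h2) (hnz _ _ h3) (hnz _ _ h4)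
  refine cond_elim G _ _ _ (fun _ => cond_elim G _ _ _ (fun h => hk _ _ ?_) hF) ?_
  · simp only [Bool.and_eq_true] at h
    obtain ⟨⟨⟨h1, h2⟩, h3⟩, h4⟩ := h
    refine step2 hS _ _ hp hq hpq (by decide) hI ?_
    have h5 : (f p).2 = (f q).1 := beq_true.1 h1
    rw [dgt_self]
    rw [h5] at h2 ⊢
    exact mMrg _ _ _ (hnz _ _ h2) (hnz _ _ h3) (hnz _ _ h4)
  refine cond_elim G _ _ _ (fun _ => cond_elim G _ _ _ (fun h => hk _ _ ?_) hF) ?_
  · simp only [Bool.and_eq_true] at h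
    obtain ⟨⟨h2, h3⟩, h4⟩ := h
    exact step1 hS _ hp hI (mSp1 _ _ _ (hnz _ _ h2) (hnz _ _ h3) (hnz _ _ h4))
  refine cond_elim G _ _ _ (fun _ => cond_elim G _ _ _ (fun h => hk _ _ ?_) hF) ?_
  · simp only [Bool.and_eq_true] at h
    exact step0 _ hI (heq _ _ h.1) (heq _ _ h.2)
  refine cond_elim G _ _ _ (fun _ => cond_elim G _ _ _ (fun h => hk _ _ ?_) hF) ?_
  · simp only [Bool.and_eq_true] at h
    obtain ⟨⟨h1, h2⟩, h3⟩ := h
    refine step2 hS _ _ hp hq hpq (by decide) hI ?_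
    rw [hfre p h1, hfre q h2]
    have h5 := heq _ _ h3
    dsimp only
    rw [← h5]
    exact mNew _ _
  refine cond_elim G _ _ _ (fun _ => cond_elim G _ _ _ (fun h => hk _ _ ?_) hF) ?_
  · simp only [Bool.and_eq_true] at h
    obtain ⟨h1, h2⟩ := h
    refine step2 hS _ _ hp hq hpq (by decide) hI ?_
    have h5 : (f p).2 = (f q).1 := beq_true.1 h1
    rw [dgt_self, h5, ← heq _ _ h2]
    exact mEqf _ _
  · refine cond_elim G _ _ _ (fun h => hk _ _ ?_) hF
    simp only [Bool.and_eq_true] at h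
    obtain ⟨⟨⟨⟨⟨h1, h2⟩, h3⟩, h4⟩, h6⟩, h7⟩ := h
    refine step2 hS _ _ hp hq hpq (by decide) hI ?_
    have h5 : (f p).2 = (f q).1 := beq_true.1 h1
    rw [h5] at h2 h6 ⊢
    exact mFus _ _ _ _ (hnz _ _ h2) (hnz _ _ h3) (hnz _ _ h4) (hnz _ _ h6) (hnz _ _ h7)

end EngC

open EngC in
theorem engC : StmtENGC := by
  intro hS hT C prog hW h32 x hx hx0 ⟨c, hc, hcX⟩
  obtain ⟨hlk, hX⟩ := hT.lk C hW h32
  have h3 := hW.three
  have hnz : ∀ u v, nz C u v = true → c u ≠ c v := by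
    intro u v h
    unfold nz at h
    simp only [Bool.and_eq_true, Nat.blt_eq] at h
    obtain ⟨⟨hu, hv⟩, h⟩ := h
    cases hb : (ad C u v || ad C v u)
    · rw [hb] at h
      simp only [cond_false, Bool.and_eq_true, Nat.blt_eq, Bool.or_eq_true, beq_true] at h
      obtain ⟨⟨hur, hvr⟩, h⟩ := h
      intro he
      rcases h with h | h
      · have h1 := hc u hur
        have h2 : v = (u + 1) % C.r := h
        rw [← h2, he, add_self'] at h1
        exact hx u hur h1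
      · have h1 := hc v hvr
        have h2 : u = (v + 1) % C.r := h
        rw [← h2, he, add_self'] at h1
        exact hx v hvr h1
    · rw [hb] at h
      simp only [cond_true, Bool.not_eq_true'] at h
      have hn : ¬ C.XA u v := fun hxa => by
        rw [(hT.xa C u v hX hv).2 hxa] at h
        exact Bool.noConfusion h
      intro he
      rcases Bool.or_eq_true _ _ ▸ hb with h1 | h1
      · obtain ⟨h2, h4⟩ := (hT.ad C u v hlk hv).1 h1
        exact hn ((hcX u h2 v h4).2 he)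
      · obtain ⟨h2, h4⟩ := (hT.ad C v u hlk hu).1 h1
        exact hn (Or.symm ((hcX v h2 u h4).2 he.symm))
  have heq : ∀ u v, eqv C u v = true → c u = c v := by
    intro u v h
    unfold eqv at h
    simp only [Bool.and_eq_true, Nat.blt_eq, Bool.or_eq_true, beq_true] at h
    rcases h with h | ⟨⟨_, hv⟩, h⟩
    · rw [h]
    · rcases (hT.xa C u v hX hv).1 h with h1 | h1
      · exact (hcX u (hW.xin _ h1).1 v (hW.xin _ h1).2).1 (Or.inl h1)
      · exact ((hcX v (hW.xin _ h1).1 u (hW.xin _ h1).2).1 (Or.inl h1)).symm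
  set G : ℕ → Prop := fun R =>
    ∃ i < 3 ^ (C.r - 2), R.testBit i = true ∧ ∀ t, t + 1 < C.r → x t = ctr i t with hG
  have hctr : ∀ i, (∀ p < C.r - 2, dig p i = dgt (x (p + 1))) →
      ∀ t, t + 1 < C.r → x t = ctr i t := by
    intro i hi t ht
    unfold ctr
    rcases t with _ | t
    · simpa using hx0
    · rw [if_neg (Nat.succ_ne_zero t), Nat.add_sub_cancel, hi t (by omega),
        col_dgt _ (hx _ (by omega))]
  have hF : G (ones (Nat.pow 3 (C.r - 2))) := by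
    obtain ⟨i, hi, hd⟩ := hS.ex (C.r - 2) (fun p => dgt (x (p + 1))) fun p => dgt_lt _
    refine ⟨i, hi, ?_, hctr i hd⟩
    rw [testBit_ones]
    exact decide_eq_true hi
  have key : ∀ (prog : List ℕ) T f, Inv c (C.r - 2) T f →
      G ((List.rec (fun T f => cond (labEnd (C.r - 2) f) T (ones (Nat.pow 3 (C.r - 2))))
        (fun op _ ih => opC C (C.r - 2) (ones (Nat.pow 3 (C.r - 2))) (fld op 0 8) (fld op 3 16)
          (fld op 7 16) (fld op 11 32) (fld op 16 32) (fld op 21 32) ih)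
        prog : ℕ → Lab → ℕ) T f) := by
    intro prog
    induction prog with
    | nil =>
      intro T f hI
      refine cond_elim G _ _ _ (fun h => ?_) hF
      obtain ⟨i, hi, hb, hd⟩ := hI
      refine ⟨i, hi, hb, hctr i fun p hp => ?_⟩
      unfold labEnd at h
      rw [List.all_eq_true] at h
      have h1 := h p (List.mem_range.2 hp)
      simp only [Bool.and_eq_true, beq_true] at h1
      rw [hd p hp, h1.1, h1.2, hc (p + 1) (by omega), Nat.mod_eq_of_lt (by omega)]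
    | cons op l ih =>
      intro T f hI
      exact op_ok hS C G _ _ _ _ _ _ _ _ _ hnz heq hF ih T f hI
  refine key prog 1 _ ⟨0, by positivity, rfl, fun p _ => ?_⟩
  have hd : dig p 0 = 0 := by simp [dig]
  rw [hd]
  by_cases hp : p = 0
  · subst hp
    rw [upd_same]
    have h1 := hc 0 (by omega)
    rw [Nat.mod_eq_of_lt (by omega), hx0] at h1
    dsimp only
    rw [add_comm, ← h1]
    decide
  · rw [upd_ne _ _ hp]
    exact (dgt_self _).symm

end Pool.Agent.MP_31805c_co.H47
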