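import Pool.Agent.MP_31805c_co.H47.SpecB

namespace Pool.Agent.MP_31805c_co.H47

namespace EngS

theorem upd_apply (f : Lab) (p : ℕ) (v : ℕ × ℕ) (s : ℕ) :
    upd f p v s = if s = p then v else f s := by
  unfold upd
  by_cases h : s = p
  · rw [if_pos h, beq_true.2 h]; rfl
  · rw [if_neg h]
    cases hb : Nat.beq s p
    · rfl
    · exact absurd (beq_true.1 hb) h

/-- the colouring fits the cell -/
def Fit (n : ℕ) (f : Lab) (E i : ℕ) (c : ℕ → K4) : Prop :=
  c 0 + c 1 = col 0 ∧ (∀ p < n, (f p).1 ≠ (f p).2 → c (f p).1 + c (f p).2 = col (dig p i)) ∧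
    ∀ u w, w < 32 → E.testBit (ix u w) = true → c u ≠ c w

/-- the invariant -/
structure Inv (n T : ℕ) (f : Lab) (E U : ℕ) : Prop where
  u0 : U.testBit 0 = true
  u1 : U.testBit 1 = true
  sl : ∀ p < n, (f p).1 ≠ (f p).2 → (f p).1 < 32 ∧ (f p).2 < 32 ∧
    U.testBit (f p).1 = true ∧ U.testBit (f p).2 = true
  ed : ∀ u w, w < 32 → E.testBit (ix u w) = true → U.testBit u = true ∧ U.testBit w = true
  dy : ∀ i, T.testBit i = true → i < 3 ^ n ∧ ∃ c, Fit n f E i c

theorem lor_iff {a b j : ℕ} :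
    (Nat.lor a b).testBit j = true ↔ a.testBit j = true ∨ b.testBit j = true := by
  rw [testBit_lor, Bool.or_eq_true]

theorem bit_new (U z : ℕ) : (Nat.lor U (bt z)).testBit z = true := by
  rw [lor_iff, testBit_bt]; simp

theorem bit_old {U u : ℕ} (z : ℕ) (h : U.testBit u = true) :
    (Nat.lor U (bt z)).testBit u = true := lor_iff.2 (Or.inl h)

theorem Inv.fresh {n T : ℕ} {f : Lab} {E U : ℕ} (h : Inv n T f E U) {z i : ℕ}
    (hz : U.testBit z = false) {c : ℕ → K4} (hc : Fit n f E i c) (x : K4) :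
    Fit n f E i (Function.update c z x) ∧
      ∀ u, U.testBit u = true → Function.update c z x u = c u := by
  have key : ∀ u, U.testBit u = true → Function.update c z x u = c u := fun u hu =>
    Function.update_of_ne (fun e => by rw [e, hz] at hu; exact absurd hu (by simp)) _ _
  refine ⟨⟨by rw [key 0 h.u0, key 1 h.u1]; exact hc.1, fun p hp hne => ?_, fun u w hw hb => ?_⟩,
    key⟩
  · obtain ⟨-, -, h1, h2⟩ := h.sl p hp hne
    rw [key _ h1, key _ h2]; exact hc.2.1 p hp hne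
  · obtain ⟨h1, h2⟩ := h.ed u w hw hb
    rw [key _ h1, key _ h2]; exact hc.2.2 u w hw hb

theorem ne_of_add {x y : K4} {d : ℕ} (h : x + y = col d) : x ≠ y := by
  rintro rfl
  have h0 : ∀ x : K4, x + x = 0 := by decide
  rw [h0] at h
  unfold col at h
  split_ifs at h <;> exact absurd h (by decide)

theorem k1 : ∀ x y : K4, x + (x + y) = y := by decide

theorem k2 : ∀ x y z : K4, x + y + z = x + z + y := by decide

theorem k3 : ∀ x y z : K4, x + z = (x + y) + (y + z) := by decide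

theorem k4 : ∀ x y z : K4, x + z = y → x + y = z := by decide

theorem okSpl {n q : ℕ} (h : q < n) : RelOK n q relSpl := by
  intro e he
  have : ∀ e ∈ relSpl, e.1 < 3 ∧ e.2.1 < 3 ∧ e.2.2.1 < 3 ∧ e.2.2.2 < 3 := by decide
  obtain ⟨a, b, c, d⟩ := this e he
  exact ⟨a, b, c, d, fun h' => absurd h' (by omega)⟩

theorem okMrg {n q : ℕ} (h : q < n) : RelOK n q relMrg := by
  intro e he
  have : ∀ e ∈ relMrg, e.1 < 3 ∧ e.2.1 < 3 ∧ e.2.2.1 < 3 ∧ e.2.2.2 < 3 := by decide
  obtain ⟨a, b, c, d⟩ := this e he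
  exact ⟨a, b, c, d, fun h' => absurd h' (by omega)⟩

theorem okFus {n q : ℕ} (h : q < n) : RelOK n q relFus := by
  intro e he
  have : ∀ e ∈ relFus, e.1 < 3 ∧ e.2.1 < 3 ∧ e.2.2.1 < 3 ∧ e.2.2.2 < 3 := by decide
  obtain ⟨a, b, c, d⟩ := this e he
  exact ⟨a, b, c, d, fun h' => absurd h' (by omega)⟩

theorem okSp1 (n : ℕ) : RelOK n n relSp1 := by
  intro e he
  have : ∀ e ∈ relSp1, e.1 < 3 ∧ e.2.1 < 3 ∧ e.2.2.1 < 3 ∧ e.2.2.2 < 3 ∧
    e.2.1 = 0 ∧ e.2.2.2 = 0 := by decide
  obtain ⟨a, b, c, d, g⟩ := this e he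
  exact ⟨a, b, c, d, fun _ => g⟩

theorem fSpl : ∀ e ∈ relSpl, col e.1 + col e.2.2.1 = col e.2.2.2 := by decide

theorem fMrg : ∀ e ∈ relMrg, col e.1 + col e.2.1 = col e.2.2.1 := by decide

theorem fFus : ∀ e ∈ relFus, col e.1 + col e.2.1 + col e.2.2.1 = col e.2.2.2 ∧
    col e.1 ≠ col e.2.2.1 := by decide

section steps

variable (hS : StmtSTP) (hT : StmtTAB) {n T : ℕ} {f : Lab} {E U p q z : ℕ} (h : Inv n T f E U)
include hT

theorem eb_bit {P : ℕ → ℕ → Prop} {a b u w : ℕ} (ha : a < 32) (hb : b < 32) (hw : w < 32)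
    (h1 : P a b) (h2 : P b a) (he : (eb a b).testBit (ix u w) = true) : P u w := by
  rcases (hT.eb a b u w ha hb hw).1 he with ⟨rfl, rfl⟩ | ⟨rfl, rfl⟩
  · exact h1
  · exact h2

include hS h

theorem spl (hp : p < n) (hne : (f p).1 ≠ (f p).2) (hpq : p ≠ q) (hq : q < n) (hz : z < 32)
    (hU : U.testBit z = false) :
    Inv n (stp n p q relSpl T) (upd (upd f p ((f p).1, z)) q (z, (f p).2))
      (Nat.lor E (Nat.lor (eb (f p).1 z) (eb z (f p).2))) (Nat.lor U (bt z)) := by
  obtain ⟨a1, a2, a3, a4⟩ := h.sl p hp hne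
  have b3 := bit_old z a3
  have b4 := bit_old z a4
  have bz := bit_new U z
  refine ⟨bit_old z h.u0, bit_old z h.u1, fun s hs => ?_, fun u w hw hb => ?_, fun j hj => ?_⟩
  · simp only [upd_apply]
    split_ifs
    · exact fun _ => ⟨hz, a2, bz, b4⟩
    · exact fun _ => ⟨a1, hz, b3, bz⟩
    · intro h1
      obtain ⟨c1, c2, c3, c4⟩ := h.sl s hs h1
      exact ⟨c1, c2, bit_old z c3, bit_old z c4⟩
  · rcases lor_iff.1 hb with hb | hb
    · exact ⟨bit_old z (h.ed u w hw hb).1, bit_old z (h.ed u w hw hb).2⟩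
    rcases lor_iff.1 hb with hb | hb
    · exact eb_bit hT (P := fun u w => (Nat.lor U (bt z)).testBit u = true ∧
        (Nat.lor U (bt z)).testBit w = true) a1 hz hw ⟨b3, bz⟩ ⟨bz, b3⟩ hb
    · exact eb_bit hT (P := fun u w => (Nat.lor U (bt z)).testBit u = true ∧
        (Nat.lor U (bt z)).testBit w = true) hz a2 hw ⟨bz, b4⟩ ⟨b4, bz⟩ hb
  · obtain ⟨hj3, e, he, i, -, hi, d1, -, d3, d4, d5⟩ :=
      hS.sound n p q _ T j hp hpq (okSpl hq) hj
    obtain ⟨-, c, hc⟩ := h.dy i hi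
    obtain ⟨⟨g1, g2, g3⟩, -⟩ := h.fresh hU hc (c (f p).1 + col e.2.2.1)
    have key := (h.fresh hU hc (c (f p).1 + col e.2.2.1)).2
    set c' := Function.update c z (c (f p).1 + col e.2.2.1) with hc'
    have e1 : c' (f p).1 + c' z = col (dig p j) := by
      rw [key _ a3, hc', Function.update_self, k1, d3]
    have e2 : c' z + c' (f p).2 = col (dig q j) := by
      rw [key _ a4, hc', Function.update_self, k2, hc.2.1 p hp hne, d1, fSpl e he, d4]
    refine ⟨hj3, c', g1, fun s hs => ?_, fun u w hw hb => ?_⟩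
    · simp only [upd_apply]
      split_ifs with h1 h2
      · exact fun _ => h1 ▸ e2
      · exact fun _ => h2 ▸ e1
      · intro h3
        rw [d5 s h2 h1]; exact g2 s hs h3
    · rcases lor_iff.1 hb with hb | hb
      · exact g3 u w hw hb
      rcases lor_iff.1 hb with hb | hb
      · exact eb_bit hT (P := fun u w => c' u ≠ c' w) a1 hz hw (ne_of_add e1) (ne_of_add e1).symm hb
      · exact eb_bit hT (P := fun u w => c' u ≠ c' w) hz a2 hw (ne_of_add e2) (ne_of_add e2).symm hb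

theorem mrg (hp : p < n) (hne : (f p).1 ≠ (f p).2) (hpq : p ≠ q) (hq : q < n)
    (hne' : (f q).1 ≠ (f q).2) (hpq' : (f p).2 = (f q).1) :
    Inv n (stp n p q relMrg T) (upd (upd f p ((f p).1, (f q).2)) q (0, 0))
      (Nat.lor E (eb (f p).1 (f q).2)) U := by
  obtain ⟨a1, -, a3, -⟩ := h.sl p hp hne
  obtain ⟨-, a2, -, a4⟩ := h.sl q hq hne'
  refine ⟨h.u0, h.u1, fun s hs => ?_, fun u w hw hb => ?_, fun j hj => ?_⟩
  · simp only [upd_apply]
    split_ifs
    · exact fun h1 => absurd rfl h1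
    · exact fun _ => ⟨a1, a2, a3, a4⟩
    · exact h.sl s hs
  · rcases lor_iff.1 hb with hb | hb
    · exact h.ed u w hw hb
    · exact eb_bit hT (P := fun u w => U.testBit u = true ∧ U.testBit w = true) a1 a2 hw
        ⟨a3, a4⟩ ⟨a4, a3⟩ hb
  · obtain ⟨hj3, e, he, i, -, hi, d1, d2, d3, -, d5⟩ :=
      hS.sound n p q _ T j hp hpq (okMrg hq) hj
    obtain ⟨-, c, g1, g2, g3⟩ := h.dy i hi
    have e1 : c (f p).1 + c (f q).2 = col (dig p j) := by
      rw [k3 _ (c (f p).2), g2 p hp hne, hpq', g2 q hq hne', d1, d2, fMrg e he, d3]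
    refine ⟨hj3, c, g1, fun s hs => ?_, fun u w hw hb => ?_⟩
    · simp only [upd_apply]
      split_ifs with h1 h2
      · exact fun h3 => absurd rfl h3
      · exact fun _ => h2 ▸ e1
      · intro h3
        rw [d5 s h2 h1]; exact g2 s hs h3
    · rcases lor_iff.1 hb with hb | hb
      · exact g3 u w hw hb
      · exact eb_bit hT (P := fun u w => c u ≠ c w) a1 a2 hw (ne_of_add e1) (ne_of_add e1).symm hb

theorem sp1 (hp : p < n) (hne : (f p).1 ≠ (f p).2) (hz : z < 32) (hU : U.testBit z = false) :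
    Inv n (stp n p n relSp1 T) (upd f p ((f p).1, z))
      (Nat.lor E (eb (f p).1 z)) (Nat.lor U (bt z)) := by
  obtain ⟨a1, -, a3, -⟩ := h.sl p hp hne
  have b3 := bit_old z a3
  have bz := bit_new U z
  refine ⟨bit_old z h.u0, bit_old z h.u1, fun s hs => ?_, fun u w hw hb => ?_, fun j hj => ?_⟩
  · simp only [upd_apply]
    split_ifs
    · exact fun _ => ⟨a1, hz, b3, bz⟩
    · intro h1
      obtain ⟨c1, c2, c3, c4⟩ := h.sl s hs h1
      exact ⟨c1, c2, bit_old z c3, bit_old z c4⟩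
  · rcases lor_iff.1 hb with hb | hb
    · exact ⟨bit_old z (h.ed u w hw hb).1, bit_old z (h.ed u w hw hb).2⟩
    · exact eb_bit hT (P := fun u w => (Nat.lor U (bt z)).testBit u = true ∧
        (Nat.lor U (bt z)).testBit w = true) a1 hz hw ⟨b3, bz⟩ ⟨bz, b3⟩ hb
  · obtain ⟨hj3, e, -, i, -, hi, -, -, d3, -, d5⟩ :=
      hS.sound n p n _ T j hp hp.ne (okSp1 n) hj
    obtain ⟨-, c, hc⟩ := h.dy i hi
    obtain ⟨⟨g1, g2, g3⟩, -⟩ := h.fresh hU hc (c (f p).1 + col e.2.2.1)
    have key := (h.fresh hU hc (c (f p).1 + col e.2.2.1)).2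
    set c' := Function.update c z (c (f p).1 + col e.2.2.1) with hc'
    have e1 : c' (f p).1 + c' z = col (dig p j) := by
      rw [key _ a3, hc', Function.update_self, k1, d3]
    refine ⟨hj3, c', g1, fun s hs => ?_, fun u w hw hb => ?_⟩
    · simp only [upd_apply]
      split_ifs with h2
      · exact fun _ => h2 ▸ e1
      · intro h3
        rw [d5 s h2 hs.ne]; exact g2 s hs h3
    · rcases lor_iff.1 hb with hb | hb
      · exact g3 u w hw hb
      · exact eb_bit hT (P := fun u w => c' u ≠ c' w) a1 hz hw (ne_of_add e1) (ne_of_add e1).symm hb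

theorem fus (hp : p < n) (hne : (f p).1 ≠ (f p).2) (hpq : p ≠ q) (hq : q < n)
    (hne' : (f q).1 ≠ (f q).2) (hpq' : (f p).2 = (f q).1) (hz : z < 32)
    (hU : U.testBit z = false) :
    Inv n (stp n p q relFus T) (upd (upd f p ((f p).1, z)) q (z, (f q).2))
      (Nat.lor E (Nat.lor (eb (f p).1 z) (Nat.lor (eb z (f p).2) (eb z (f q).2))))
      (Nat.lor U (bt z)) := by
  obtain ⟨a1, a5, a3, a6⟩ := h.sl p hp hne
  obtain ⟨-, a2, -, a4⟩ := h.sl q hq hne'
  have b3 := bit_old z a3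
  have b4 := bit_old z a4
  have b6 := bit_old z a6
  have bz := bit_new U z
  refine ⟨bit_old z h.u0, bit_old z h.u1, fun s hs => ?_, fun u w hw hb => ?_, fun j hj => ?_⟩
  · simp only [upd_apply]
    split_ifs
    · exact fun _ => ⟨hz, a2, bz, b4⟩
    · exact fun _ => ⟨a1, hz, b3, bz⟩
    · intro h1
      obtain ⟨c1, c2, c3, c4⟩ := h.sl s hs h1
      exact ⟨c1, c2, bit_old z c3, bit_old z c4⟩
  · rcases lor_iff.1 hb with hb | hb
    · exact ⟨bit_old z (h.ed u w hw hb).1, bit_old z (h.ed u w hw hb).2⟩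
    rcases lor_iff.1 hb with hb | hb
    · exact eb_bit hT (P := fun u w => (Nat.lor U (bt z)).testBit u = true ∧
        (Nat.lor U (bt z)).testBit w = true) a1 hz hw ⟨b3, bz⟩ ⟨bz, b3⟩ hb
    rcases lor_iff.1 hb with hb | hb
    · exact eb_bit hT (P := fun u w => (Nat.lor U (bt z)).testBit u = true ∧
        (Nat.lor U (bt z)).testBit w = true) hz a5 hw ⟨bz, b6⟩ ⟨b6, bz⟩ hb
    · exact eb_bit hT (P := fun u w => (Nat.lor U (bt z)).testBit u = true ∧
        (Nat.lor U (bt z)).testBit w = true) hz a2 hw ⟨bz, b4⟩ ⟨b4, bz⟩ hb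
  · obtain ⟨hj3, e, he, i, -, hi, d1, d2, d3, d4, d5⟩ :=
      hS.sound n p q _ T j hp hpq (okFus hq) hj
    obtain ⟨-, c, hc⟩ := h.dy i hi
    obtain ⟨⟨g1, g2, g3⟩, -⟩ := h.fresh hU hc (c (f p).1 + col e.2.2.1)
    have key := (h.fresh hU hc (c (f p).1 + col e.2.2.1)).2
    set c' := Function.update c z (c (f p).1 + col e.2.2.1) with hc'
    have e1 : c' (f p).1 + c' z = col (dig p j) := by
      rw [key _ a3, hc', Function.update_self, k1, d3]
    have e2 : c' z + c' (f q).2 = col (dig q j) := by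
      rw [key _ a4, hc', Function.update_self, k2, k3 (c (f p).1) (c (f p).2) (c (f q).2),
        hc.2.1 p hp hne, hpq',
        hc.2.1 q hq hne', d1, d2, (fFus e he).1, d4]
    have e3 : c' z ≠ c' (f p).2 := by
      rw [key _ a6, hc', Function.update_self]
      intro h4
      have h5 := k4 _ _ _ h4
      rw [hc.2.1 p hp hne, d1] at h5
      exact (fFus e he).2 h5
    refine ⟨hj3, c', g1, fun s hs => ?_, fun u w hw hb => ?_⟩
    · simp only [upd_apply]
      split_ifs with h1 h2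
      · exact fun _ => h1 ▸ e2
      · exact fun _ => h2 ▸ e1
      · intro h3
        rw [d5 s h2 h1]; exact g2 s hs h3
    · rcases lor_iff.1 hb with hb | hb
      · exact g3 u w hw hb
      rcases lor_iff.1 hb with hb | hb
      · exact eb_bit hT (P := fun u w => c' u ≠ c' w) a1 hz hw (ne_of_add e1) (ne_of_add e1).symm hb
      rcases lor_iff.1 hb with hb | hb
      · exact eb_bit hT (P := fun u w => c' u ≠ c' w) hz a5 hw e3 e3.symm hb
      · exact eb_bit hT (P := fun u w => c' u ≠ c' w) hz a2 hw (ne_of_add e2) (ne_of_add e2).symm hb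

end steps

theorem cond_ind {P : ℕ → Prop} {b : Bool} {x y : ℕ} (h1 : b = true → P x) (h2 : P y) :
    P (cond b x y) := by
  cases b
  · exact h2
  · exact h1 rfl

theorem nbeq {a b : ℕ} : (!Nat.beq a b) = true ↔ a ≠ b := by
  rw [Bool.not_eq_true', ← Bool.not_eq_true, beq_true]

theorem ntb {U z : ℕ} : (!tb U z) = true ↔ U.testBit z = false := by
  rw [Bool.not_eq_true', tb_eq]

theorem opS_ind (hS : StmtSTP) (hT : StmtTAB) {P : ℕ → Prop} (h0 : P 0) {n : ℕ} (kd p q z : ℕ)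
    {k : ℕ → Lab → ℕ → ℕ → ℕ} (hk : ∀ T f E U, Inv n T f E U → P (k T f E U))
    {T : ℕ} {f : Lab} {E U : ℕ} (h : Inv n T f E U) : P (opS n kd p q z k T f E U) := by
  unfold opS
  refine cond_ind (fun h1 => ?_) h0
  simp only [Bool.and_eq_true, nbeq, Nat.blt_eq] at h1
  obtain ⟨⟨hp, hne⟩, hpq⟩ := h1
  refine cond_ind (fun _ => cond_ind (fun h2 => ?_) h0) (cond_ind (fun _ => cond_ind
    (fun h2 => ?_) h0) (cond_ind (fun _ => cond_ind (fun h2 => ?_) h0) (cond_ind (fun h2 => ?_) h0)))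
  all_goals simp only [Bool.and_eq_true, nbeq, ntb, Nat.blt_eq, beq_true] at h2
  · exact hk _ _ _ _ (spl hS hT h hp hne hpq h2.1.1 h2.1.2 h2.2)
  · exact hk _ _ _ _ (mrg hS hT h hp hne hpq h2.1.1 h2.1.2 h2.2)
  · exact hk _ _ _ _ (sp1 hS hT h hp hne h2.1 h2.2)
  · exact hk _ _ _ _ (fus hS hT h hp hne hpq h2.1.1.1.1 h2.1.1.1.2 h2.1.1.2 h2.1.2 h2.2)

theorem inv_start (n : ℕ) : Inv n 1 (upd (fun _ => (0, 0)) 0 (1, 0)) 0 3 := by
  refine ⟨by decide, by decide, fun p _ => ?_, fun u w _ hb => by simp at hb, fun i hi => ?_⟩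
  · simp only [upd_apply]
    split_ifs
    · exact fun _ => ⟨by norm_num, by norm_num, by decide, by decide⟩
    · exact fun h => absurd rfl h
  · have hi0 : i = 0 := by
      have := Nat.testBit_two_pow (n := 0) (m := i)
      rw [pow_zero, hi] at this
      exact (of_decide_eq_true this.symm).symm
    subst hi0
    refine ⟨by positivity, fun t => if t = 0 then 0 else col 0, by simp, fun p _ => ?_,
      fun u w _ hb => by simp at hb⟩
    simp only [upd_apply]
    split_ifs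
    all_goals simp_all [dig]

end EngS

open EngS in
theorem engS : StmtENGS := by
  intro hS hT C prog hW h32
  have key : ∀ (prog : List ℕ) T f E U, Inv (C.r - 2) T f E U →
      ∀ i, ((List.rec (fun T f E _ => cond (labEnd (C.r - 2) f && sub (adjM C) E) T 0)
        (fun op _ ih => opS (C.r - 2) (fld op 0 8) (fld op 3 16) (fld op 7 16) (fld op 11 32) ih)
        prog : ℕ → Lab → ℕ → ℕ → ℕ) T f E U).testBit i = true →
        i < 3 ^ (C.r - 2) ∧ C.Ext' (ctr i) := by
    intro prog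
    induction prog with
    | nil =>
      intro T f E U h
      refine cond_ind (P := fun R => ∀ i, R.testBit i = true → i < 3 ^ (C.r - 2) ∧ C.Ext' (ctr i))
        (fun h1 i hi => ?_) (fun i hi => by simp at hi)
      rw [Bool.and_eq_true] at h1
      obtain ⟨hl, hs⟩ := h1
      obtain ⟨hi3, c, g1, g2, g3⟩ := h.dy i hi
      refine ⟨hi3, c, fun t ht => ?_, fun k hk a ha => ?_⟩
      · rcases t with _ | t
        · exact g1.symm
        · have hp : t < C.r - 2 := by omega
          have h2 := List.all_eq_true.1 hl t (List.mem_range.2 hp)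
          rw [Bool.and_eq_true, beq_true, beq_true] at h2
          have h3 := g2 t hp (by rw [h2.1, h2.2]; omega)
          rw [h2.1, h2.2] at h3
          rw [h3]
          simp [ctr]
      · have ha32 : a < 32 := lt_of_lt_of_le (hW.lt k hk a ha) h32
        have h2 := (hT.ad C k a (hT.lk C hW h32).1 ha32).2 ⟨hk, ha⟩
        rw [ad, tb_eq] at h2
        exact g3 k a ha32 (sub_bit hs _ h2)
    | cons op prog ih =>
      intro T f E U h
      exact opS_ind hS hT
        (P := fun R => ∀ i, R.testBit i = true → i < 3 ^ (C.r - 2) ∧ C.Ext' (ctr i))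
        (fun i hi => by simp at hi) _ _ _ _ ih h
  exact key prog _ _ _ _ (inv_start _)

end Pool.Agent.MP_31805c_co.H47
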