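import Pool.Agent.MP_31805c_co.H47.SpecB

/-!
The matchings without crossings are enumerated by `ms`.
-/

namespace Pool.Agent.MP_31805c_co.H47

open Finset

namespace KEM

theorem ms_succ (f a b : ℕ) : ms (f + 1) a b = cond (Nat.beq a b) [[]]
    ((List.range' (a + 1) (b - (a + 1))).flatMap fun c =>
      (ms f (a + 1) c).flatMap fun m => (ms f (c + 1) b).map fun m' => (a, c) :: (m ++ m')) := rfl

theorem compat_cons (a c : ℕ) (m m' : List (ℕ × ℕ)) (J : ℕ)
    (h : compat ((a, c) :: (m ++ m')) J = true) :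
    J.testBit a = J.testBit c ∧ compat m J = true ∧ compat m' J = true := by
  unfold compat at h ⊢
  rw [List.all_cons, List.all_append, Bool.and_eq_true, Bool.and_eq_true, tb_eq, tb_eq,
    beq_iff_eq] at h
  exact h

theorem exists_ms (μ : ℕ → ℕ) (f : ℕ) : ∀ a b, a ≤ b → b - a < 2 * f → NC (Set.Ico a b) μ →
    ∃ m ∈ ms f a b, ∀ J, compat m J = true → ∀ t, a ≤ t → t < b →
      J.testBit (μ t) = J.testBit t := by
  induction f with
  | zero =>
    intro a b _ h _
    omega
  | succ f ih =>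
    intro a b hab hf h
    rw [ms_succ]
    rcases Nat.eq_or_lt_of_le hab with rfl | hlt
    · rw [beq_true.2 rfl]
      exact ⟨[], List.mem_singleton.2 rfl, fun J _ t h1 h2 => by omega⟩
    have hne : Nat.beq a b = false := by
      cases hb : Nat.beq a b
      · rfl
      · have := beq_true.1 hb
        omega
    rw [hne]
    have ha : a ∈ Set.Ico a b := ⟨le_rfl, hlt⟩
    have hc := h.mem a ha
    have hca := h.ne a ha
    have hci := h.inv a ha
    obtain ⟨hc1, hc2⟩ := hc
    have hin : ∀ u, a < u → u < μ a → a < μ u ∧ μ u < μ a := by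
      intro u h1 h2
      have hu : u ∈ Set.Ico a b := ⟨h1.le, h2.trans hc2⟩
      have e1 := (h.mem u hu).1
      have e2 := h.inv u hu
      have e3 := h.nc a ha u hu h1 h2
      have e4 : μ u ≠ a := fun e => by
        rw [e] at e2
        omega
      have e5 : μ u ≠ μ a := fun e => by
        rw [e, hci] at e2
        omega
      omega
    have hout : ∀ u, μ a < u → u < b → μ a < μ u ∧ μ u < b := by
      intro u h1 h2
      have hu : u ∈ Set.Ico a b := ⟨by omega, h2⟩
      obtain ⟨e1, e1'⟩ := h.mem u hu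
      have e2 := h.inv u hu
      have e4 : μ u ≠ a := fun e => by
        rw [e] at e2
        omega
      have e5 : μ u ≠ μ a := fun e => by
        rw [e, hci] at e2
        omega
      refine ⟨?_, e1'⟩
      by_contra hn
      have := hin (μ u) (by omega) (by omega)
      omega
    have n1 : NC (Set.Ico (a + 1) (μ a)) μ := by
      have sub : ∀ t ∈ Set.Ico (a + 1) (μ a), t ∈ Set.Ico a b :=
        fun t ht => ⟨by have := ht.1; omega, ht.2.trans hc2⟩
      exact ⟨fun t ht => hin t ht.1 ht.2, fun t ht => h.ne t (sub t ht),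
        fun t ht => h.inv t (sub t ht), fun t ht u hu => h.nc t (sub t ht) u (sub u hu)⟩
    have n2 : NC (Set.Ico (μ a + 1) b) μ := by
      have sub : ∀ t ∈ Set.Ico (μ a + 1) b, t ∈ Set.Ico a b :=
        fun t ht => ⟨by have := ht.1; omega, ht.2⟩
      exact ⟨fun t ht => hout t ht.1 ht.2, fun t ht => h.ne t (sub t ht),
        fun t ht => h.inv t (sub t ht), fun t ht u hu => h.nc t (sub t ht) u (sub u hu)⟩
    obtain ⟨m, hm, hm'⟩ := ih (a + 1) (μ a) (by omega) (by omega) n1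
    obtain ⟨m2, hm2, hm2'⟩ := ih (μ a + 1) b (by omega) (by omega) n2
    refine ⟨(a, μ a) :: (m ++ m2), ?_, fun J hJ t h1 h2 => ?_⟩
    · refine List.mem_flatMap.2 ⟨μ a, List.mem_range'_1.2 ⟨by omega, by omega⟩, ?_⟩
      exact List.mem_flatMap.2 ⟨m, hm, List.mem_map.2 ⟨m2, hm2, rfl⟩⟩
    · obtain ⟨j1, j2, j3⟩ := compat_cons _ _ _ _ _ hJ
      rcases Nat.eq_or_lt_of_le h1 with rfl | h3
      · exact j1.symm
      rcases lt_trichotomy t (μ a) with h4 | rfl | h4
      · exact hm' J j2 t h3 h4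
      · rw [hci]
        exact j1
      · exact hm2' J j3 t h4 h2

theorem cnt_succ (x : ℕ → K4) (t : ℕ) :
    cnt x (t + 1) = cnt x t + if (x t).1 ≠ 0 then 1 else 0 := by
  unfold cnt
  rw [range_add_one, filter_insert]
  split_ifs with h
  · rw [card_insert_of_notMem (fun hm => by simpa using (mem_filter.1 hm).1)]
  · rfl

theorem cnt_mono (x : ℕ → K4) {t u : ℕ} (h : t ≤ u) : cnt x t ≤ cnt x u :=
  card_le_card (filter_subset_filter _ (range_subset_range.2 h))

theorem cnt_lt (x : ℕ → K4) {t u : ℕ} (ht : (x t).1 ≠ 0) (h : t < u) : cnt x t < cnt x u := by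
  have h1 := cnt_succ x t
  rw [if_pos ht] at h1
  have h2 := cnt_mono x (Nat.succ_le_of_lt h)
  rw [Nat.succ_eq_add_one] at h2
  omega

theorem lt_of_cnt (x : ℕ → K4) {t u : ℕ} (h : cnt x t < cnt x u) : t < u := by
  by_contra hn
  have := cnt_mono x (not_lt.1 hn)
  omega

theorem cnt_inj (x : ℕ → K4) {t u : ℕ} (ht : (x t).1 ≠ 0) (hu : (x u).1 ≠ 0)
    (h : cnt x t = cnt x u) : t = u := by
  rcases lt_trichotomy t u with h1 | h1 | h1
  · have := cnt_lt x ht h1
    omega
  · exact h1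
  · have := cnt_lt x hu h1
    omega

theorem exists_cnt (x : ℕ → K4) (r : ℕ) :
    ∀ i, ∃ t, i < cnt x r → t ∈ supp r x ∧ cnt x t = i := by
  induction r with
  | zero =>
    intro i
    exact ⟨0, fun h => by simp [cnt] at h⟩
  | succ r ih =>
    intro i
    obtain ⟨t, ht⟩ := ih i
    by_cases h : i < cnt x r
    · exact ⟨t, fun _ => ⟨⟨(ht h).1.1.trans (Nat.lt_succ_self r), (ht h).1.2⟩, (ht h).2⟩⟩
    · refine ⟨r, fun h2 => ?_⟩
      rw [cnt_succ] at h2
      split_ifs at h2 with h3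
      · exact ⟨⟨Nat.lt_succ_self r, h3⟩, by omega⟩
      · omega

end KEM

open KEM in
theorem kemP : StmtKEM := by
  intro r X x k hX hx hk
  obtain ⟨μ, hμ, hsw⟩ := hX.kem x hx
  choose σ hσ using exists_cnt x r
  rw [hk] at hσ
  have hlt : ∀ t ∈ supp r x, cnt x t < 2 * k := fun t ht => hk ▸ cnt_lt x ht.2 ht.1
  have hσc : ∀ t ∈ supp r x, σ (cnt x t) = t := fun t ht =>
    cnt_inj x (hσ _ (hlt t ht)).1.2 ht.2 (hσ _ (hlt t ht)).2
  have hN : NC (Set.Ico 0 (2 * k)) (fun i => cnt x (μ (σ i))) := by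
    refine ⟨fun i hi => ⟨Nat.zero_le _, hlt _ (hμ.mem _ (hσ i hi.2).1)⟩, fun i hi e => ?_,
      fun i hi => ?_, fun i hi j hj h1 h2 h3 => ?_⟩
    · have h1 := hσ i hi.2
      exact hμ.ne _ h1.1 (cnt_inj x (hμ.mem _ h1.1).2 h1.1.2 (e.trans h1.2.symm))
    · have h1 := hσ i hi.2
      show cnt x (μ (σ (cnt x (μ (σ i))))) = i
      rw [hσc _ (hμ.mem _ h1.1), hμ.inv _ h1.1, h1.2]
    · have e1 := hσ i hi.2
      have e2 := hσ j hj.2
      refine hμ.nc _ e1.1 _ e2.1 (lt_of_cnt x ?_) (lt_of_cnt x ?_) (lt_of_cnt x h3)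
      · rw [e1.2, e2.2]
        exact h1
      · rw [e2.2]
        exact h2
  obtain ⟨m, hm, hm'⟩ := exists_ms _ (k + 1) 0 (2 * k) (Nat.zero_le _) (by omega) hN
  refine ⟨m, hm, fun J hJ => ?_⟩
  have h1 := hsw (fun t => if t < r ∧ (x t).1 ≠ 0 ∧ J.testBit (cnt x t) = true then 1 else 0)
    (fun t ht => if_neg (fun h => ht ⟨h.1, h.2.1⟩)) (fun t ht => by
      have e1 := hμ.mem t ht
      have e2 := hm' J hJ (cnt x t) (Nat.zero_le _) (hlt t ht)
      rw [hσc t ht] at e2
      simp only [e1.1, e1.2, ht.1, ht.2, e2, ne_eq, not_false_eq_true, true_and])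
  refine hX.loc _ h1 _ (fun t ht => ?_)
  simp only [flipJ, ht, true_and]

end Pool.Agent.MP_31805c_co.H47
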