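import Pool.Agent.MP_31805c_co.H47.L6

namespace Pool.Agent.MP_31805c_co.H47

set_option maxRecDepth 10000

noncomputable def pb6_0 : ℕ :=
 (nat_lit 0x6910d221a4434887bb4)

noncomputable def pa6_1 : ℕ :=
 (nat_lit 0x7fffab7756eeaddd5bb8895)

noncomputable def pb6_1 : ℕ :=
 (nat_lit 0x555556efa9115bbea44776a)

noncomputable def pa6_2 : ℕ :=
 (nat_lit 0x7fffcdbb9b7736ee6dd9126)

noncomputable def pb6_2 : ℕ :=
 (nat_lit 0x33333fdc64cefffd9226ed9)

noncomputable def pa6_3 : ℕ :=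
 (nat_lit 0x7ffff1dde3bbc7778eea238)

noncomputable def pb6_3 : ℕ :=
 (nat_lit 0x1e1e7e231ffffff87115dc7)

noncomputable def pa6_4 : ℕ :=
 (nat_lit 0x7ffffe1efc3df87bf0f43c0)

noncomputable def pb6_4 : ℕ :=
 (nat_lit 0x7f801ffffffff840f0bc3f)

noncomputable def pa6_5 : ℕ :=
 (nat_lit 0x7fffffe0ffc1ff83ff07c00)

noncomputable def pb6_5 : ℕ :=
 (nat_lit 0x7f807ffffffe007c00f83ff)

noncomputable def plA6 : List ℕ := [pa6_0, pa6_1, pa6_2, pa6_3, pa6_4, pa6_5]

noncomputable def plB6 : List ℕ := [pb6_0, pb6_1, pb6_2, pb6_3, pb6_4, pb6_5]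

theorem sum6 : sumChk plA6 plB6 6 = true := by decide +kernel

theorem npi6 : netOK pi6 = true := by decide +kernel

theorem nsg6 : netOK sg6 = true := by decide +kernel

theorem csg6 : sgChk plA6 plB6 sg6 6 = true := by decide +kernel

theorem cpi6_0 : piChk plA6 plB6 pi6 6 0 = true := by decide +kernel

theorem cpi6_1 : piChk plA6 plB6 pi6 6 1 = true := by decide +kernel

theorem cpi6_2 : piChk plA6 plB6 pi6 6 2 = true := by decide +kernel

theorem cpi6_3 : piChk plA6 plB6 pi6 6 3 = true := by decide +kernel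

theorem cpi6_4 : piChk plA6 plB6 pi6 6 4 = true := by decide +kernel

theorem cpi6_5 : piChk plA6 plB6 pi6 6 5 = true := by decide +kernel

theorem csec6_2 : secChk plA6 plB6 6 sec6_2 = true := by decide +kernel

theorem csec6_3 : secChk plA6 plB6 6 sec6_3 = true := by decide +kernel

theorem cpi6 (t : ℕ) (h : t < 6) : piChk plA6 plB6 pi6 6 t = true := by
  interval_cases t
  · exact cpi6_0
  · exact cpi6_1
  · exact cpi6_2
  · exact cpi6_3
  · exact cpi6_4
  · exact cpi6_5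

theorem lay6_ok : LayOK lay6 := by
  refine ⟨plA6, plB6, rfl, sum6, npi6, cpi6, nsg6, csg6, ?_⟩
  show ∀ s ∈ [sec6_2, sec6_3], _
  simp only [List.forall_mem_cons]
  exact ⟨⟨csec6_2, cov2⟩, ⟨csec6_3, cov3⟩, List.forall_mem_nil _⟩

end Pool.Agent.MP_31805c_co.H47
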