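import Pool.Agent.MP_31805c_co.H47.L7

namespace Pool.Agent.MP_31805c_co.H47

set_option maxRecDepth 10000

noncomputable def pb7_0 : ℕ :=
 (nat_lit 0x10204081020408102040810204081da691a443b4d23488769a46910ed348d221f7bb4)

noncomputable def pa7_1 : ℕ :=
 (nat_lit 0x17efdfbf7efdfbf7efdfbf7efdfbe4aab6addc9556d5bb92aadab772555b56ee10895)

noncomputable def pb7_1 : ℕ :=
 (nat_lit 0xfd03f40fd03f40fd03f40fd03f41b5d6f5bbf6aa92a446d75bd6efdaaa4a911ef76b)

noncomputable def pa7_2 : ℕ :=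
 (nat_lit 0x1bf7efdfbf7efdfbf7efdfbf7efde934db36ed269b66dda4d36cdbb49a6d9b7621126)

noncomputable def pb7_2 : ℕ :=
 (nat_lit 0x1c0fff21c0fff21c0fff21c0fff216fbfcff72d964d933dbeffbfffb65926489deedf)

noncomputable def pa7_3 : ℕ :=
 (nat_lit 0x1dfbf7efdfbf7efdfbf7efdfbf7ef1c71dc77638e3b8eec71c771dd8e38ee3ba42238)

noncomputable def pb7_3 : ℕ :=
 (nat_lit 0x23c7f1e3fff81023c7f1e3fff810fffe3f889c71fc7ff3ffffffff71c711c47bddff)

noncomputable def pa7_4 : ℕ :=
 (nat_lit 0x1efdfbf7efdfbf7efdfbf7efdfbf7e07e1f87bc0fc3f0f781f87e1ef03f0fc3c843c0)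

noncomputable def pb7_4 : ℕ :=
 (nat_lit 0x1027cf9fff870e1c3fffff3e0409ff81e07843ffffff0fffffffff0fc0f03ff7bfff)

noncomputable def pa7_5 : ℕ :=
 (nat_lit 0x1f7efdfbf7efdfbf7efdfbf7efdfbff801ff83ff003ff07fe007fe0ffc00ffc107c00)

noncomputable def pb7_5 : ℕ :=
 (nat_lit 0x810205fbf7efdffffffe0c18306007fe007fffffc00ffffffffff003fffffefffff)

noncomputable def pa7_6 : ℕ :=
 (nat_lit 0x1fbf7efdfbf7efdfbf7efdfbf7efdffffe0003ffffc0007ffff8000fffff0001f8000)

noncomputable def pb7_6 : ℕ :=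
 (nat_lit 0x4081020408103fffffffffffffe00001fffc00003ffffffffffffffffffffffffff)

noncomputable def plA7 : List ℕ := [pa7_0, pa7_1, pa7_2, pa7_3, pa7_4, pa7_5, pa7_6]

noncomputable def plB7 : List ℕ := [pb7_0, pb7_1, pb7_2, pb7_3, pb7_4, pb7_5, pb7_6]

theorem sum7 : sumChk plA7 plB7 7 = true := by decide +kernel

theorem npi7 : netOK pi7 = true := by decide +kernel

theorem nsg7 : netOK sg7 = true := by decide +kernel

theorem csg7 : sgChk plA7 plB7 sg7 7 = true := by decide +kernel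

theorem cpi7_0 : piChk plA7 plB7 pi7 7 0 = true := by decide +kernel

theorem cpi7_1 : piChk plA7 plB7 pi7 7 1 = true := by decide +kernel

theorem cpi7_2 : piChk plA7 plB7 pi7 7 2 = true := by decide +kernel

theorem cpi7_3 : piChk plA7 plB7 pi7 7 3 = true := by decide +kernel

theorem cpi7_4 : piChk plA7 plB7 pi7 7 4 = true := by decide +kernel

theorem cpi7_5 : piChk plA7 plB7 pi7 7 5 = true := by decide +kernel

theorem cpi7_6 : piChk plA7 plB7 pi7 7 6 = true := by decide +kernel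

theorem csec7_2 : secChk plA7 plB7 7 sec7_2 = true := by decide +kernel

theorem csec7_3 : secChk plA7 plB7 7 sec7_3 = true := by decide +kernel

theorem cpi7 (t : ℕ) (h : t < 7) : piChk plA7 plB7 pi7 7 t = true := by
  interval_cases t
  · exact cpi7_0
  · exact cpi7_1
  · exact cpi7_2
  · exact cpi7_3
  · exact cpi7_4
  · exact cpi7_5
  · exact cpi7_6

theorem lay7_ok : LayOK lay7 := by
  refine ⟨plA7, plB7, rfl, sum7, npi7, cpi7, nsg7, csg7, ?_⟩
  show ∀ s ∈ [sec7_2, sec7_3], _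
  simp only [List.forall_mem_cons]
  exact ⟨⟨csec7_2, cov2⟩, ⟨csec7_3, cov3⟩, List.forall_mem_nil _⟩

end Pool.Agent.MP_31805c_co.H47
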