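import Pool.Agent.MP_31805c_co.H47.SpecB

/-!
Permutation networks on bit sets: every stage exchanges disjoint pairs of bits, so a network
permutes the addresses.
-/

namespace Pool.Agent.MP_31805c_co.H47

open Finset

namespace Net

/-- The permutation of the addresses of one stage. -/
def sw (d m j : ℕ) : ℕ :=
  if m.testBit j = true then j + d else if d ≤ j ∧ m.testBit (j - d) = true then j - d else j

theorem disj {d m : ℕ} (h : Nat.land m (Nat.shiftLeft m d) = 0) (j : ℕ)
    (h1 : m.testBit j = true) (h2 : d ≤ j) : m.testBit (j - d) = false := by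
  have h3 := testBit_land m (Nat.shiftLeft m d) j
  rw [h, testBit_shl, h1] at h3
  simpa [h2] using h3

theorem sw_invol {d m : ℕ} (h : Nat.land m (Nat.shiftLeft m d) = 0) :
    Function.Involutive (sw d m) := by
  intro j
  by_cases h1 : m.testBit j = true
  · have e1 : sw d m j = j + d := by simp [sw, h1]
    have h2 : ¬ m.testBit (j + d) = true := by
      intro h2
      have h3 := disj h (j + d) h2 (by omega)
      rw [Nat.add_sub_cancel, h1] at h3
      exact absurd h3 (by simp)
    rw [e1]
    simp [sw, h1, h2]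
  · by_cases h2 : d ≤ j ∧ m.testBit (j - d) = true
    · have e1 : sw d m j = j - d := by simp [sw, h1, h2]
      rw [e1]
      have e2 : sw d m (j - d) = j - d + d := by simp [sw, h2.2]
      rw [e2]
      omega
    · have e1 : sw d m j = j := by
        unfold sw
        rw [if_neg h1, if_neg h2]
      rw [e1, e1]

theorem dsw_bit {d m : ℕ} (h : Nat.land m (Nat.shiftLeft m d) = 0) (x j : ℕ) :
    (dsw d m x).testBit j = x.testBit (sw d m j) := by
  unfold dsw dsw2
  simp only [testBit_xor, testBit_shl, testBit_land, testBit_shr]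
  by_cases h1 : m.testBit j = true
  · have e1 : sw d m j = d + j := by simp [sw, h1, Nat.add_comm]
    rw [e1, h1]
    by_cases h2 : d ≤ j
    · rw [disj h j h1 h2]
      cases x.testBit j <;> cases x.testBit (d + j) <;> simp
    · cases x.testBit j <;> cases x.testBit (d + j) <;> simp [h2]
  · have h1' : m.testBit j = false := by simpa using h1
    by_cases h2 : d ≤ j ∧ m.testBit (j - d) = true
    · have e1 : sw d m j = j - d := by simp [sw, h1, h2]
      have e2 : d + (j - d) = j := by omega
      rw [e1, e2, h1', h2.2]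
      cases x.testBit j <;> cases x.testBit (j - d) <;> simp [h2.1]
    · have e1 : sw d m j = j := by
        unfold sw
        rw [if_neg h1, if_neg h2]
      rw [e1, h1']
      by_cases h3 : d ≤ j
      · have h4 : m.testBit (j - d) = false := by
          have : ¬ m.testBit (j - d) = true := fun h4 => h2 ⟨h3, h4⟩
          simpa using this
        rw [h4]
        simp
      · simp [h3]

theorem net_cons (p : ℕ × ℕ) (l : List (ℕ × ℕ)) (x : ℕ) :
    net (p :: l) x = net l (dsw p.1 p.2 x) := rfl

theorem b2_xor (a b : Bool) : b2 (a ^^ b) = b2 a + b2 b := by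
  cases a <;> cases b <;> decide

theorem b2_inj {a b : Bool} : b2 a = b2 b ↔ a = b := by
  cases a <;> cases b <;> decide

theorem xorAll_cons (a : ℕ) (l : List ℕ) : xorAll (a :: l) = Nat.xor a (xorAll l) := rfl

theorem sum_xorAll (j : ℕ) (l : List ℕ) :
    ∑ t ∈ range l.length, b2 ((l.getD t 0).testBit j) = b2 ((xorAll l).testBit j) := by
  induction l with
  | nil =>
    show (0 : Z2) = b2 ((0 : ℕ).testBit j)
    rw [Nat.zero_testBit]
    rfl
  | cons a l ih =>
    rw [List.length_cons, sum_range_succ', xorAll_cons, testBit_xor, b2_xor, ← ih, add_comm]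
    simp only [List.getD_cons_succ, List.getD_cons_zero]

theorem nePl_bit (A B : List ℕ) (t u j : ℕ) :
    (nePl A B t u).testBit j = false ↔ tr A B j t = tr A B j u := by
  unfold nePl tr
  rw [testBit_lor, testBit_xor, testBit_xor, Prod.mk.injEq, b2_inj, b2_inj]
  cases (A.getD t 0).testBit j <;> cases (A.getD u 0).testBit j <;>
    cases (B.getD t 0).testBit j <;> cases (B.getD u 0).testBit j <;> simp

theorem third : ∀ a b c : K4, a ≠ 0 → b ≠ 0 → c ≠ 0 → a ≠ b → a ≠ c → b ≠ c → c = a + b := by
  decide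

theorem self_add : ∀ a : K4, a + a = 0 := by decide

theorem sum_ne : ∀ a b : K4, a ≠ 0 → b ≠ 0 → a ≠ b → a + b ≠ 0 ∧ a ≠ a + b ∧ b ≠ a + b := by
  decide

theorem perm_add (σ : Equiv.Perm K4) (h0 : σ 0 = 0) (a b : K4) : σ (a + b) = σ a + σ b := by
  by_cases ha : a = 0
  · rw [ha, h0, zero_add, zero_add]
  by_cases hb : b = 0
  · rw [hb, h0, add_zero, add_zero]
  by_cases hab : a = b
  · rw [hab, self_add, self_add, h0]
  obtain ⟨h1, h2, h3⟩ := sum_ne a b ha hb hab
  have nz (c : K4) (hc : c ≠ 0) : σ c ≠ 0 := by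
    rw [← h0]
    exact σ.injective.ne hc
  exact third _ _ _ (nz a ha) (nz b hb) (nz _ h1) (σ.injective.ne hab) (σ.injective.ne h2)
    (σ.injective.ne h3)

theorem exists_aut (r : ℕ) (x y : ℕ → K4)
    (h : ∀ t ≤ r, ∀ u ≤ r, x t = x u ↔ y t = y u) (hx : x r = 0) (hy : y r = 0) :
    ∃ g : K4 ≃+ K4, ∀ t ≤ r, y t = g (x t) := by
  let S : Type := {a : K4 // ∃ t, t ≤ r ∧ x t = a}
  have hg : Function.Injective fun s : S => y s.2.choose := by
    intro s s' hs
    have h1 := s.2.choose_spec
    have h2 := s'.2.choose_spec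
    have h3 := (h _ h1.1 _ h2.1).2 hs
    exact Subtype.ext (h1.2.symm.trans (h3.trans h2.2))
  obtain ⟨σ, hσ⟩ := Equiv.Perm.exists_extending_pair (fun s : S => s.1) _
    Subtype.val_injective hg
  have key (t : ℕ) (ht : t ≤ r) : σ (x t) = y t := by
    let s : S := ⟨x t, t, ht, rfl⟩
    have h1 := s.2.choose_spec
    exact (hσ s).trans ((h _ h1.1 _ ht).1 h1.2)
  have h0 : σ 0 = 0 := by
    have h1 := key r le_rfl
    rwa [hx, hy] at h1
  exact ⟨{ σ with map_add' := perm_add σ h0 }, fun t ht => (key t ht).symm⟩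

theorem tr_len {A B : List ℕ} {r : ℕ} (hA : A.length = r) (hB : B.length = r) (j : ℕ) :
    tr A B j r = 0 := by
  unfold tr
  rw [List.getD_eq_default _ _ hA.le, List.getD_eq_default _ _ hB.le, Nat.zero_testBit]
  rfl

theorem xor_land_zero {a b c j : ℕ} (h : Nat.land (Nat.xor a b) c = 0)
    (hc : c.testBit j = true) : b.testBit j = a.testBit j := by
  have h1 := testBit_land (Nat.xor a b) c j
  rw [h, hc, testBit_xor, Nat.zero_testBit] at h1
  revert h1
  cases a.testBit j <;> cases b.testBit j <;> simp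

end Net

theorem netE : StmtNET := by
  intro l
  induction l with
  | nil => exact fun _ => ⟨Equiv.refl ℕ, fun _ _ => rfl⟩
  | cons p l ih =>
    intro h
    unfold netOK at h
    rw [List.all_cons, Bool.and_eq_true] at h
    obtain ⟨e, he⟩ := ih h.2
    have h1 := beq_true.1 h.1
    refine ⟨e.trans (Net.sw_invol h1).toPerm, fun T j => ?_⟩
    rw [Net.net_cons, he, Net.dsw_bit h1]
    rfl

theorem sumP : StmtSUM := by
  intro A B r h
  unfold sumChk at h
  simp only [Bool.and_eq_true, beq_true] at h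
  obtain ⟨⟨⟨hA, hB⟩, h1⟩, h2⟩ := h
  refine ⟨hA, hB, fun j => ?_⟩
  have e1 := Net.sum_xorAll j A
  have e2 := Net.sum_xorAll j B
  rw [hA, h1, Nat.zero_testBit] at e1
  rw [hB, h2, Nat.zero_testBit] at e2
  refine Prod.ext ?_ ?_
  · rw [Prod.fst_sum]
    exact e1
  · rw [Prod.snd_sum]
    exact e2

theorem piP : StmtPI := by
  intro A B l r X T hl hA hB hchk hX hT j hj hmem
  obtain ⟨e, he⟩ := netE l hl
  rw [he] at hj
  refine hT _ hj ?_
  have h1 (t u : ℕ) (htu : t < u) (hu : u ≤ r) :
      tr A B j t = tr A B j u ↔ tr A B (e j) t = tr A B (e j) u := by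
    have h2 := hchk t (by omega)
    unfold piChk at h2
    rw [List.all_eq_true] at h2
    have h3 := beq_true.1 (h2 u (by rw [List.mem_range'_1]; omega))
    rw [← Net.nePl_bit, ← Net.nePl_bit, ← he, h3]
  have h2 : ∀ t ≤ r, ∀ u ≤ r,
      tr A B j t = tr A B j u ↔ tr A B (e j) t = tr A B (e j) u := by
    intro t ht u hu
    rcases lt_trichotomy t u with h | h | h
    · exact h1 t u h hu
    · rw [h]
      simp
    · rw [eq_comm, h1 u t h ht, eq_comm]
  obtain ⟨g, hg⟩ := Net.exists_aut r _ _ h2 (Net.tr_len hA hB j) (Net.tr_len hA hB (e j))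
  exact hX.loc _ (hX.perm _ hmem g) _ fun t ht => hg t ht.le

theorem sgP : StmtSG := by
  intro hS A B l r hl hchk
  obtain ⟨e, he⟩ := netE l hl
  refine ⟨e, he, fun j hj hlt t ht => ?_⟩
  unfold sgChk at hchk
  rw [Bool.and_eq_true, List.all_eq_true] at hchk
  obtain ⟨h0, h1⟩ := hchk
  rcases t with _ | p
  · have h2 := testBit_land (B.getD 0 0) (A.getD 0 0) j
    rw [beq_true.1 h0, hj, Nat.zero_testBit, Bool.and_true] at h2
    unfold tr
    rw [hj, ← h2]
    rfl
  · have hp : p < r - 2 := by omega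
    have h2 := h1 p (List.mem_range.2 hp)
    rw [Bool.and_eq_true, beq_true, beq_true] at h2
    have h3 := Net.xor_land_zero h2.1 hj
    have h4 := Net.xor_land_zero h2.2 hj
    rw [he] at h3 h4
    unfold tr
    rw [h3, h4, hS.cellA _ _ _ hp hlt, hS.cellB _ _ _ hp hlt]
    rfl

end Pool.Agent.MP_31805c_co.H47
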