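import Pool.Agent.MP_31805c_co.H47.SpecB

/-! Soundness of the bit-parallel Kempe closure. -/

namespace Pool.Agent.MP_31805c_co.H47

open Finset

namespace SecA

/-- The switch at the position `t`. -/
def ind (x : ℕ → K4) (J t : ℕ) : Z2 :=
  if (x t).1 ≠ 0 ∧ J.testBit (cnt x t) = true then 1 else 0

/-- Below `r` the colouring `x'` is `x` switched by `J`. -/
def Rel (r J : ℕ) (x x' : ℕ → K4) : Prop :=
  ∀ t < r, (x' t).1 = (x t).1 ∧ (x' t).2 = (x t).2 + ind x J t

theorem z2_two (a : Z2) : a + a = 0 := by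
  revert a
  decide

theorem ind_xor (x : ℕ → K4) (J J' t : ℕ) : ind x (Nat.xor J J') t = ind x J t + ind x J' t := by
  unfold ind
  rw [testBit_xor]
  by_cases h : (x t).1 ≠ 0
  · cases J.testBit (cnt x t) <;> cases J'.testBit (cnt x t) <;> simp [h, z2_two]
  · simp [h]

theorem ind_zero (x : ℕ → K4) (t : ℕ) : ind x 0 t = 0 := by simp [ind]

variable {r J J' : ℕ} {x x' x'' : ℕ → K4}

theorem Rel.ind_eq (h : Rel r J x x') (J' : ℕ) {t : ℕ} (ht : t < r) :
    ind x' J' t = ind x J' t := by
  have : cnt x' t = cnt x t := by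
    unfold cnt
    congr 1
    exact filter_congr fun u hu => by rw [(h u ((mem_range.1 hu).trans ht)).1]
  unfold ind
  rw [this, (h t ht).1]

theorem Rel.refl (r : ℕ) (x : ℕ → K4) : Rel r 0 x x := fun t _ =>
  ⟨rfl, by rw [ind_zero, add_zero]⟩

theorem Rel.symm (h : Rel r J x x') : Rel r J x' x := fun t ht =>
  ⟨(h t ht).1.symm, by rw [h.ind_eq J ht, (h t ht).2, add_assoc, z2_two, add_zero]⟩

theorem Rel.trans (h : Rel r J x x') (h' : Rel r J' x' x'') : Rel r (Nat.xor J J') x x'' :=
  fun t ht => ⟨(h' t ht).1.trans (h t ht).1, by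
    rw [(h' t ht).2, (h t ht).2, h.ind_eq J' ht, ind_xor, add_assoc]⟩

theorem rel_flip (r J : ℕ) (x : ℕ → K4) : Rel r J x (flipJ x J) := fun _ _ =>
  ⟨add_zero _, rfl⟩

theorem Rel.uniq (h : Rel r J x x') (h' : Rel r J x x'') {t : ℕ} (ht : t < r) : x' t = x'' t :=
  Prod.ext ((h t ht).1.trans (h' t ht).1.symm) ((h t ht).2.trans (h' t ht).2.symm)

theorem compat_xor {m : List (ℕ × ℕ)} (h : compat m J = true) (h' : compat m J' = true) :
    compat m (Nat.xor J J') = true := by
  unfold compat at *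
  rw [List.all_eq_true] at *
  intro p hp
  have h1 := h p hp
  have h2 := h' p hp
  simp only [tb_eq, beq_iff_eq, testBit_xor] at h1 h2 ⊢
  rw [h1, h2]

theorem compat_zero (m : List (ℕ × ℕ)) : compat m 0 = true := by
  unfold compat
  rw [List.all_eq_true]
  intro p _
  simp [tb_eq]

/-- Some switch compatible with `m` leaves `X`. -/
def NP (X : Set (ℕ → K4)) (m : List (ℕ × ℕ)) (x : ℕ → K4) : Prop :=
  ∃ J, compat m J = true ∧ flipJ x J ∉ X

variable {X : Set (ℕ → K4)} {m : List (ℕ × ℕ)}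

theorem NP.rel (hX : Cons r X) (hc : compat m J = true) (h : Rel r J x x') (hn : NP X m x) :
    NP X m x' := by
  obtain ⟨J0, h0, h1⟩ := hn
  exact ⟨_, compat_xor hc h0, fun h2 => h1 (hX.loc _ h2 _ fun t ht =>
    (h.symm.trans (rel_flip r J0 x)).uniq (rel_flip r _ x') ht)⟩

theorem np_of (hX : Cons r X) (h : x ∉ X) : NP X m x :=
  ⟨0, compat_zero m, fun h2 => h (hX.loc _ h2 _ fun _ ht => (Rel.refl r x).uniq (rel_flip r 0 x) ht)⟩

theorem cnt_succ (x : ℕ → K4) (u : ℕ) :
    cnt x (u + 1) = cnt x u + if (x u).1 ≠ 0 then 1 else 0 := by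
  unfold cnt
  rw [range_add_one, filter_insert]
  split_ifs
  · rw [card_insert_of_notMem (by simp)]
  · rfl

theorem b2_ne (b : Bool) : b2 b ≠ 0 ↔ b = true := by
  revert b
  decide

theorem cut_bit (s : Sec) (x i : ℕ) :
    (cut s x).testBit i = (x.testBit (s.off + i) && decide (i < s.size)) := by
  unfold cut
  rw [testBit_land, testBit_shr, testBit_ones]

theorem cpl_bit (A B : List ℕ) (s : Sec) (i : ℕ) (hi : i < s.size) (t : ℕ) : ∀ m,
    (cpl A s t m).testBit i = decide (cnt (tr A B (s.off + i)) t = m) := by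
  induction t with
  | zero =>
    intro m
    change (cond (Nat.beq m 0) (ones s.size) 0).testBit i = _
    rcases m with _ | m
    · simp [testBit_ones, hi, cnt]
    · simp [cnt, Nat.beq]
  | succ u ih =>
    intro m
    change (Nat.xor (cpl A s u m) (Nat.land (cut s (A.getD u 0)) (Nat.xor (cpl A s u m)
      (cond (Nat.beq m 0) 0 (cpl A s u (Nat.pred m)))))).testBit i = _
    have e : ((tr A B (s.off + i) u).1 ≠ 0) ↔ (A.getD u 0).testBit (s.off + i) = true := b2_ne _
    rw [testBit_xor, testBit_land, testBit_xor, cut_bit, cnt_succ, ih]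
    cases h : (A.getD u 0).testBit (s.off + i)
    · rw [if_neg (by rw [e, h]; simp)]
      simp
    · rw [if_pos (e.2 h)]
      rcases m with _ | m
      · simp [hi]
      · change (_ ^^ (_ && (_ ^^ (cpl A s u m).testBit i))) = _
        rw [ih]
        simp [hi]

theorem three_bit (g c : ℕ) :
    (Nat.shiftLeft 3 g).testBit c = (decide (c = g) || decide (c = g + 1)) := by
  rw [testBit_shl, show (3 : ℕ) = 2 ^ 2 - 1 from rfl, Nat.testBit_two_pow_sub_one]
  rw [Bool.eq_iff_iff]
  simp only [Bool.and_eq_true, Bool.or_eq_true, decide_eq_true_eq]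
  omega

theorem zero_bit {a : ℕ} (h : Nat.beq a 0 = true) (i : ℕ) : a.testBit i = false := by
  rw [beq_true.1 h, Nat.zero_testBit]

theorem b2_add (a b c : Bool) (h : ((a ^^ b) ^^ c) = false) :
    b2 a = b2 b + if c = true then 1 else 0 := by
  revert a b c
  decide

theorem gap_rel {A B : List ℕ} {s : Sec} {g : ℕ} {p : ℕ × ℕ} (h : gapChk A B r s g p = true)
    {i : ℕ} (hi : p.2.testBit i = true) :
    Rel r (Nat.shiftLeft 3 g) (tr A B (s.off + i)) (tr A B (s.off + (p.1 + i))) := by
  unfold gapChk at h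
  rw [Bool.and_eq_true, List.all_eq_true] at h
  have h1 : i < s.size := by
    have := sub_bit h.1 i (by rw [testBit_lor, hi]; rfl)
    simpa [testBit_ones] using this
  have h2 : p.1 + i < s.size := by
    have := sub_bit h.1 (p.1 + i) (by rw [testBit_lor, testBit_shl]; simp [hi])
    simpa [testBit_ones] using this
  intro t ht
  have h3 := h.2 t (List.mem_range.2 ht)
  rw [Bool.and_eq_true] at h3
  have h4 := zero_bit h3.1 i
  have h5 := zero_bit h3.2 i
  simp only [testBit_land, testBit_xor, testBit_lor, testBit_shr, cut_bit, hi, h1, h2,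
    cpl_bit A B s i h1, decide_true, Bool.and_true] at h4 h5
  refine ⟨congrArg b2 (by simpa using h4), (b2_add _ _ _ h5).trans (congrArg _ ?_)⟩
  unfold ind
  refine if_congr ?_ rfl rfl
  rw [three_bit, Bool.and_eq_true]
  exact and_congr (b2_ne _).symm Iff.rfl

section tree

variable {y : ℕ → ℕ → K4} {sm : List (ℕ × ℕ)}
  (G : ∀ g i, (sm.getD g (0, 0)).2.testBit i = true →
    Rel r (Nat.shiftLeft 3 g) (y i) (y ((sm.getD g (0, 0)).1 + i)))
include G

theorem flp_bit (g T i : ℕ) (h : (flp (sm.getD g (0, 0)) T).testBit i = true) :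
    ∃ i', T.testBit i' = true ∧ Rel r (Nat.shiftLeft 3 g) (y i') (y i) := by
  unfold flp at h
  simp only [testBit_lor, testBit_land, testBit_shr, testBit_shl, Bool.or_eq_true,
    Bool.and_eq_true, decide_eq_true_eq] at h
  rcases h with ⟨h1, h2⟩ | ⟨h1, h2, h3⟩
  · exact ⟨_, h1, (G g i h2).symm⟩
  · have := G g _ h3
    rw [Nat.add_sub_cancel' h1] at this
    exact ⟨_, h2, this⟩

theorem flps_bit (gs : List ℕ) : ∀ T i, (flps sm gs T).testBit i = true →
    ∃ i', T.testBit i' = true ∧ Rel r (jOf gs) (y i') (y i) := by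
  induction gs with
  | nil => exact fun T i h => ⟨i, h, Rel.refl r _⟩
  | cons g gs ih =>
    intro T i h
    obtain ⟨i1, h1, h2⟩ := ih (flp (sm.getD g (0, 0)) T) i h
    obtain ⟨i', h3, h4⟩ := flp_bit G g T i1 h1
    exact ⟨i', h3, h4.trans h2⟩

theorem ev_inv (hX : Cons r X) (t : FT) : ∀ T, cov m t = true →
    (∀ i, T.testBit i = true → NP X m (y i)) →
    ∀ i, (ev sm t T).testBit i = true → NP X m (y i) := by
  induction t with
  | leaf => exact fun T _ h => h
  | one g c ih =>
    intro T hc h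
    have hc' : compat m (Nat.shiftLeft 3 g) = true ∧ cov m c = true := Bool.and_eq_true_iff.1 hc
    refine ih (cl1 (sm.getD g (0, 0)) T) hc'.2 fun i hi => ?_
    have key : ∀ j, (Nat.land (Nat.lor T (Nat.shiftRight T (sm.getD g (0, 0)).1))
        (sm.getD g (0, 0)).2).testBit j = true →
        NP X m (y j) ∧ NP X m (y ((sm.getD g (0, 0)).1 + j)) := fun j hj => by
      simp only [testBit_lor, testBit_land, testBit_shr, Bool.or_eq_true, Bool.and_eq_true] at hj
      rcases hj.1 with h1 | h1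
      · exact ⟨h _ h1, (h _ h1).rel hX hc'.1 (G g j hj.2)⟩
      · exact ⟨(h _ h1).rel hX hc'.1 (G g j hj.2).symm, h _ h1⟩
    unfold cl1 cl2 at hi
    rw [testBit_lor, testBit_shl, Bool.or_eq_true, Bool.and_eq_true, decide_eq_true_eq] at hi
    rcases hi with h1 | ⟨h1, h2⟩
    · exact (key i h1).1
    · have := (key _ h2).2
      rwa [Nat.add_sub_cancel' h1] at this
  | node gs c ih =>
    intro T hc h
    have hc' : compat m (jOf gs) = true ∧ cov m c = true := Bool.and_eq_true_iff.1 hc
    refine ih (Nat.lor T (flps sm gs T)) hc'.2 fun i hi => ?_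
    rw [testBit_lor, Bool.or_eq_true] at hi
    rcases hi with h1 | h1
    · exact h i h1
    · obtain ⟨i', h2, h3⟩ := flps_bit G gs T i h1
      exact (h i' h2).rel hX hc'.1 h3
  | both a b iha ihb =>
    intro T hc h i hi
    have hi' : (Nat.land (ev sm a T) (ev sm b T)).testBit i = true := hi
    rw [testBit_land, Bool.and_eq_true] at hi'
    rcases Bool.or_eq_true_iff.1 (show (cov m a || cov m b) = true from hc) with h1 | h1
    · exact iha T h1 h i hi'.1
    · exact ihb T h1 h i hi'.2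

end tree

end SecA

open SecA in
theorem secP : StmtSEC := by
  intro hK A B r s X T hX hs hcov hT j hj hmem
  unfold secChk at hs
  rw [Bool.and_eq_true, List.all_eq_true] at hs
  unfold clos at hj
  rw [testBit_shl, testBit_land, testBit_ones, Bool.and_eq_true, Bool.and_eq_true,
    decide_eq_true_eq, decide_eq_true_eq] at hj
  obtain ⟨h1, h2, h3⟩ := hj
  have h4 := cpl_bit A B s _ h3 r (2 * s.k)
  rw [beq_true.1 hs.1, testBit_ones, Nat.add_sub_cancel' h1, decide_eq_decide] at h4
  obtain ⟨m, hm, hf⟩ := hK r X _ s.k hX hmem (h4.1 h3)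
  have G : ∀ g i, (s.sm.getD g (0, 0)).2.testBit i = true → Rel r (Nat.shiftLeft 3 g)
      (tr A B (s.off + i)) (tr A B (s.off + ((s.sm.getD g (0, 0)).1 + i))) := fun g i hi => by
    by_cases hg : g < s.sm.length
    · exact gap_rel (hs.2 g (List.mem_range.2 hg)) hi
    · rw [List.getD_eq_default _ _ (not_lt.1 hg)] at hi
      simp at hi
  obtain ⟨J, h5, h6⟩ := ev_inv (y := fun i => tr A B (s.off + i)) (m := m) G hX s.tree (cut s T)
    (List.all_eq_true.1 hcov m hm) (fun i hi => by
      rw [cut_bit, Bool.and_eq_true] at hi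
      exact np_of hX (hT _ hi.1)) _ h2
  rw [Nat.add_sub_cancel' h1] at h6
  exact h6 (hf J h5)

end Pool.Agent.MP_31805c_co.H47
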