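import Pool.Agent.MP_31805c_co.H47.SpecB

/-!
The tables of a configuration and the check of well-formedness.
-/

namespace Pool.Agent.MP_31805c_co.H47

namespace Wf

theorem rowM_bit (l : List ℕ) (j : ℕ) : (rowM l).testBit j = true ↔ j ∈ l := by
  induction l with
  | nil => simp [rowM]
  | cons a l ih =>
    rw [show rowM (a :: l) = Nat.lor (bt a) (rowM l) from rfl, testBit_lor, testBit_bt,
      Bool.or_eq_true, ih, decide_eq_true_iff, List.mem_cons, eq_comm]

theorem adj0_bit (lk : List (List ℕ)) (h : ∀ l ∈ lk, ∀ b ∈ l, b < 32) {a : ℕ} (ha : a < 32)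
    (i : ℕ) : (adj0 lk).testBit (32 * i + a) = true ↔ a ∈ lk.getD i [] := by
  induction lk generalizing i with
  | nil => simp [adj0]
  | cons l lk ih =>
    rw [show adj0 (l :: lk) = Nat.lor (rowM l) (Nat.shiftLeft (adj0 lk) 32) from rfl, testBit_lor,
      testBit_shl, Bool.or_eq_true, rowM_bit, Bool.and_eq_true, decide_eq_true_iff]
    cases i with
    | zero => simp [ha.not_ge]
    | succ i =>
      rw [show 32 * (i + 1) + a - 32 = 32 * i + a by omega,
        ih (fun l hl => h l (List.mem_cons_of_mem _ hl)), List.getD_cons_succ]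
      exact ⟨fun H => H.elim (fun H => by have := h l List.mem_cons_self _ H; omega) (·.2),
        fun H => .inr ⟨by omega, H⟩⟩

theorem ad_iff (C : Cfg) (k a : ℕ) (h : ∀ l ∈ C.lk, ∀ b ∈ l, b < 32) (ha : a < 32) :
    ad C k a = true ↔ C.In k ∧ a ∈ C.L k := by
  rw [ad, tb_eq, adjM, testBit_shl, Bool.and_eq_true, decide_eq_true_iff]
  change 32 * C.r ≤ 32 * k + a ∧ (adj0 C.lk).testBit (32 * k + a - 32 * C.r) = true ↔ _
  by_cases hk : C.r ≤ k
  · rw [show 32 * k + a - 32 * C.r = 32 * (k - C.r) + a by omega, adj0_bit _ h ha]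
    refine ⟨fun H => ⟨⟨hk, ?_⟩, H.2⟩, fun H => ⟨by omega, H.2⟩⟩
    by_contra hn
    rw [List.getD_eq_default _ _ (by omega)] at H
    simp at H
  · exact ⟨fun H => by omega, fun H => absurd H.1.1 hk⟩

theorem eb_iff (u w u' w' : ℕ) (hu : u < 32) (hw : w < 32) (hw' : w' < 32) :
    (eb u w).testBit (ix u' w') = true ↔ (u' = u ∧ w' = w) ∨ (u' = w ∧ w' = u) := by
  rw [eb, testBit_lor, testBit_bt, testBit_bt, Bool.or_eq_true, decide_eq_true_iff,
    decide_eq_true_iff]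
  change 32 * u + w = 32 * u' + w' ∨ 32 * w + u = 32 * u' + w' ↔ _
  omega

theorem xa_iff (C : Cfg) (u w : ℕ) (h : ∀ p ∈ C.X, p.1 < 32 ∧ p.2 < 32) (hw : w < 32) :
    xa C u w = true ↔ C.XA u w := by
  obtain ⟨r, lk, X⟩ := C
  rw [xa, tb_eq, Cfg.XA]
  induction X with
  | nil => simp [xM]
  | cons p X ih =>
    obtain ⟨h1, h2⟩ := h p List.mem_cons_self
    rw [show xM ⟨r, lk, p :: X⟩ = Nat.lor (eb p.1 p.2) (xM ⟨r, lk, X⟩) from rfl, testBit_lor,
      Bool.or_eq_true, eb_iff _ _ _ _ h1 h2 hw, ih fun q hq => h q (List.mem_cons_of_mem _ hq)]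
    simp only [List.mem_cons, Prod.ext_iff]
    tauto

theorem lk_lt (C : Cfg) {n : ℕ} (h : ∀ k, C.In k → ∀ a ∈ C.L k, a < n) :
    ∀ l ∈ C.lk, ∀ b ∈ l, b < n := fun l hl b hb => by
  obtain ⟨i, hi, rfl⟩ := List.getElem_of_mem hl
  refine h (C.r + i) ⟨by omega, by omega⟩ b ?_
  rwa [Cfg.L, Nat.add_sub_cancel_left, List.getD_eq_getElem _ _ hi]

theorem win_iff (P : ℕ → ℕ → ℕ → Bool) (l : List ℕ) (a b : ℕ) :
    win P l a b = true ↔ ∀ j < l.length, P ((a :: b :: l).getD j 0)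
      ((a :: b :: l).getD (j + 1) 0) ((a :: b :: l).getD (j + 2) 0) = true := by
  induction l generalizing a b with
  | nil => simp [win]
  | cons c l ih =>
    rw [show win P (c :: l) a b = (P a b c && win P l b c) from rfl, Bool.and_eq_true, ih,
      List.length_cons, Nat.forall_lt_succ_left]
    rfl

theorem cwin_iff (P : ℕ → ℕ → ℕ → Bool) {l : List ℕ} (h : 2 ≤ l.length) :
    cwin P l = true ↔ ∀ j, P (l.getD (j % l.length) 0) (l.getD ((j + 1) % l.length) 0)
      (l.getD ((j + 2) % l.length) 0) = true := by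
  obtain ⟨a, b, m, rfl⟩ : ∃ a b m, l = a :: b :: m := by
    match l, h with
    | a :: b :: m, _ => exact ⟨a, b, m, rfl⟩
  generalize hl : a :: b :: m = l at h
  have e : ∀ j < l.length + 2, (l ++ [a, b]).getD j 0 = l.getD (j % l.length) 0 := fun j hj => by
    rcases lt_or_ge j l.length with H | H
    · rw [List.getD_append _ _ _ _ H, Nat.mod_eq_of_lt H]
    · rw [List.getD_append_right _ _ _ _ H, Nat.mod_eq_sub_mod H, Nat.mod_eq_of_lt (by omega)]
      obtain H | H : j - l.length = 0 ∨ j - l.length = 1 := by omega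
      all_goals rw [H, ← hl]; rfl
  have e2 : cwin P l = true ↔ ∀ j < l.length, P ((l ++ [a, b]).getD j 0)
      ((l ++ [a, b]).getD (j + 1) 0) ((l ++ [a, b]).getD (j + 2) 0) = true := by
    subst hl
    exact (win_iff P (m ++ [a, b]) a b).trans (by rw [List.length_append]; rfl)
  rw [e2]
  refine ⟨fun H j => ?_, fun H j hj => ?_⟩
  · have h1 := Nat.mod_lt j (show 0 < l.length by omega)
    have := H _ h1
    rwa [e _ (by omega), e _ (by omega), e _ (by omega), Nat.mod_mod, Nat.mod_add_mod,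
      Nat.mod_add_mod] at this
  · rw [e _ (by omega), e _ (by omega), e _ (by omega)]
    exact H j

theorem mem_ints (C : Cfg) (k : ℕ) : k ∈ ints C ↔ C.In k := List.mem_range'_1

theorem at_add (C : Cfg) (k j : ℕ) : C.at' k (j + (C.L k).length) = C.at' k j := by
  rw [Cfg.at', Nat.add_mod_right, Cfg.at']

theorem ex_at (C : Cfg) {k a : ℕ} (h : a ∈ C.L k) : ∃ j, C.at' k (j + 1) = a := by
  obtain ⟨i, hi, rfl⟩ := List.getElem_of_mem h
  refine ⟨i + (C.L k).length - 1, ?_⟩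
  rw [show i + (C.L k).length - 1 + 1 = i + (C.L k).length by omega, at_add, Cfg.at',
    Nat.mod_eq_of_lt hi, List.getD_eq_getElem _ _ hi]

theorem at_mem (C : Cfg) {k : ℕ} (h : 0 < (C.L k).length) (j : ℕ) : C.at' k j ∈ C.L k := by
  rw [Cfg.at', List.getD_eq_getElem _ _ (Nat.mod_lt _ h)]
  exact List.getElem_mem _

theorem ball2_bit (C : Cfg) (a c : ℕ) (h : (ball2 C a).testBit c = true) :
    ∃ x, (ball1 C a).testBit x = true ∧ (ball1 C x).testBit c = true := by
  unfold ball2 at h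
  generalize ints C = l at h
  induction l with
  | nil => simp at h
  | cons x l ih =>
    cases hx : tb (ball1 C a) x
    · exact ih (by simpa only [hx, cond_false] using h)
    · simp only [hx, cond_true, testBit_lor, Bool.or_eq_true] at h
      exact h.elim (fun h => ⟨x, tb_eq _ _ ▸ hx, h⟩) ih

theorem ball1_bit (C : Cfg) (h : ∀ l ∈ C.lk, ∀ b ∈ l, b < 32) (h32 : C.r + C.lk.length ≤ 32)
    {a x : ℕ} (ha : C.In a) (H : (ball1 C a).testBit x = true) : C.Nr a x := by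
  simp only [ball1, testBit_land, testBit_lor, testBit_shl, testBit_shr, testBit_ones, testBit_bt,
    Bool.and_eq_true, Bool.or_eq_true, decide_eq_true_iff] at H
  refine ⟨ha, ⟨H.2.1, by omega⟩, H.1.symm.imp_right fun h1 => ?_⟩
  exact ((ad_iff C a x h (by omega)).1 ((tb_eq _ _).trans h1)).2

theorem ring_ex {C : Cfg} {t : ℕ} {ks : List ℕ} (h : ringOK C t ks = true) :
    ks.length ≤ 4 ∧ ∃ k, (ks.filter fun k => ad C k (nx C.r t)) = [k] ∧
      ¬ cwin (fun a b _ => !((Nat.beq a t && Nat.beq b (nx C.r t)) ||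
        (Nat.beq b t && Nat.beq a (nx C.r t)))) (C.L k) = true := by
  rw [ringOK, Bool.and_eq_true, Nat.ble_eq] at h
  refine ⟨h.1, ?_⟩
  have h2 := h.2
  split at h2
  · next k hk => exact ⟨k, hk, by simpa using h2⟩
  · simp at h2

end Wf

open Wf

theorem tabP : StmtTAB where
  ad := ad_iff
  eb := eb_iff
  xa := xa_iff
  lk C h h32 := ⟨lk_lt C fun k hk a ha => (h.lt k hk a ha).trans_le h32, fun p hp =>
    ⟨(h.xin p hp).1.2.trans_le h32, (h.lt _ (h.xin p hp).1 _ (h.xin p hp).2).trans_le h32⟩⟩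

theorem wfP : StmtWF := fun _ C h => by
  simp only [wfB, Bool.and_eq_true, Nat.ble_eq, Nat.blt_eq, List.all_eq_true, mem_ints,
    List.mem_range, Nat.add_eq] at h
  obtain ⟨⟨⟨⟨⟨⟨⟨h3, h32⟩, hk⟩, hr⟩, hm⟩, hx⟩, hx1⟩, hx4⟩ := h
  have hw : ∀ k, C.In k → ∀ j, winOK C k (C.at' k j) (C.at' k (j + 1)) (C.at' k (j + 2)) = true :=
    fun k H => (cwin_iff _ (by have := (hk k H).1; omega)).1 (hk k H).2
  have hlt : ∀ k, C.In k → ∀ a ∈ C.L k, a < C.r + C.lk.length := fun k H a ha => by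
    obtain ⟨j, rfl⟩ := ex_at C ha
    have := hw k H j
    simp only [winOK, Bool.and_eq_true, Nat.blt_eq, Nat.add_eq] at this
    exact this.1.1
  have hlk := lk_lt C fun k H a ha => (hlt k H a ha).trans_le h32
  have had := fun k a => ad_iff C k a hlk
  have hX : ∀ p ∈ C.X, C.In p.1 ∧ p.2 ∈ C.L p.1 := fun p hp => (had _ _ (hx p hp).1).1 (hx p hp).2
  have hxa := fun u w => xa_iff C u w fun p hp => ⟨(hX p hp).1.2.trans_le h32, (hx p hp).1⟩
  have W : ∀ k, C.In k → ∀ j a b c, a = C.at' k j → b = C.at' k (j + 1) → c = C.at' k (j + 2) →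
      (C.r ≤ b → k ∈ C.L b ∧ a ∈ C.L b ∧ c ∈ C.L b) ∧
      (b < C.r → C.r ≤ a ∨ b = (a + 1) % C.r ∨ a = (b + 1) % C.r) ∧
      (C.XA k a → ¬ C.XA k b ∧ ¬ C.XA a b ∧ (C.X.length ≤ 3 ∨ ¬ C.XA k c)) ∧
      ¬ (C.XA k b ∧ C.XA a b) := fun k H j a b c ea eb ec => by
    have h0 := hw k H j
    have h1 : ∀ i, C.at' k i < 32 := fun i =>
      (hlt k H _ (at_mem C (by have := (hk k H).1; omega) i)).trans_le h32
    have a1 : a < 32 := ea ▸ h1 _
    have b1 : b < 32 := eb ▸ h1 _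
    have c1 : c < 32 := ec ▸ h1 _
    rw [← ea, ← eb, ← ec] at h0
    simp only [winOK, Bool.and_eq_true, Bool.cond_eq_ite, Bool.ite_eq_true_distrib, Nat.ble_eq,
      Bool.or_eq_true, Nat.beq_eq, Bool.not_eq_true', ← Bool.not_eq_true, had _ _ a1, had _ _ c1,
      had _ _ (H.2.trans_le h32), hxa _ _ b1, hxa _ _ c1] at h0
    obtain ⟨⟨-, h2⟩, h4⟩ := h0
    refine ⟨fun hb => ?_, fun hb => ?_, fun ha => ?_, fun hb => ?_⟩
    · rw [if_pos hb] at h2
      exact ⟨h2.1.1.2, h2.1.2.2, h2.2.2⟩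
    · rw [if_neg hb.not_ge] at h2
      exact or_assoc.1 h2
    · rw [if_pos ((hxa _ _ a1).2 ha)] at h4
      exact and_assoc.1 h4
    · split_ifs at h4
      exacts [h4.1.1 hb.1, h4 hb]
  have hsym : ∀ k, C.In k → ∀ a ∈ C.L k, C.In a → k ∈ C.L a := fun k H a ha ha' => by
    obtain ⟨j, e⟩ := ex_at C ha
    exact ((W k H j _ a _ rfl e.symm rfl).1 ha'.1).1
  have hnr : ∀ {a b}, C.Nr a b → C.Nr b a := fun {a b} H =>
    ⟨H.2.1, H.1, H.2.2.imp Eq.symm fun h => hsym a H.1 b h H.2.1⟩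
  have hnx : ∀ t, nx C.r t < 32 := fun t => (Nat.mod_lt _ (show 0 < C.r by omega)).trans_le (by omega)
  have hf : ∀ t < C.r, ∀ k, k ∈ (ints C).filter (fun k => ad C k t) ↔ C.In k ∧ t ∈ C.L k :=
    fun t ht k => by rw [List.mem_filter, mem_ints, had _ _ (by omega), and_self_left]
  refine ⟨⟨h3, fun k H => (hk k H).1, hlt, hsym, fun k H j hj => ?_,
    fun k H j h1 h2 => ((W k H j _ _ _ rfl rfl rfl).2.1 h2).resolve_left h1.not_ge, fun t ht => ?_,
    fun t ht k k' H H' a1 a2 a3 a4 => ?_, fun a b ha hb => ?_, fun t ht => ?_, hX,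
    List.ne_nil_of_length_pos hx1, hx4, fun k H j => ?_, ?_⟩, h32⟩
  · have h5 := (hk k H).1
    have := (W k H (j + (C.L k).length - 1) _ (C.at' k j) (C.at' k (j + 1)) rfl
      (by rw [show j + (C.L k).length - 1 + 1 = j + (C.L k).length by omega, at_add])
      (by rw [show j + (C.L k).length - 1 + 2 = j + 1 + (C.L k).length by omega, at_add])).1 hj.1
    exact ⟨this.2.2, this.2.1⟩
  · obtain ⟨-, k, h1, h2⟩ := ring_ex (hr t ht)
    have h5 := ((hf t ht k).1 (List.mem_filter.1 (h1 ▸ List.mem_singleton_self k)).1).1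
    rw [cwin_iff _ (by have := (hk k h5).1; omega), not_forall] at h2
    obtain ⟨j, hj⟩ := h2
    simp only [Bool.not_eq_true', Bool.not_eq_false, Bool.or_eq_true, Bool.and_eq_true,
      Nat.beq_eq] at hj
    exact ⟨k, j, h5, hj⟩
  · obtain ⟨-, k0, h1, -⟩ := ring_ex (hr t ht)
    have e : ∀ k, C.In k → t ∈ C.L k → (t + 1) % C.r ∈ C.L k → k = k0 := fun k H a1 a2 =>
      List.mem_singleton.1 (h1 ▸ List.mem_filter.2
        ⟨(hf t ht k).2 ⟨H, a1⟩, (had _ _ (hnx t)).2 ⟨H, a2⟩⟩)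
    rw [e k H a1 a2, e k' H' a3 a4]
  · simp only [meetAll, List.all_eq_true, List.forall_mem_map, mem_ints, Bool.not_eq_true',
      ← Bool.not_eq_true, Nat.beq_eq] at hm
    obtain ⟨c, hc⟩ := Nat.exists_testBit_of_ne_zero (hm a ha b hb)
    rw [testBit_land, Bool.and_eq_true] at hc
    obtain ⟨x, x1, x2⟩ := ball2_bit C a c hc.1
    obtain ⟨y, y1, y2⟩ := ball2_bit C b c hc.2
    have x3 := ball1_bit C hlk h32 ha x1
    have y3 := ball1_bit C hlk h32 hb y1
    exact ⟨x, c, y, x3, ball1_bit C hlk h32 x3.2.1 x2, hnr (ball1_bit C hlk h32 y3.2.1 y2), hnr y3⟩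
  · rw [show {k | C.In k ∧ t ∈ C.L k} = ↑((ints C).filter fun k => ad C k t).toFinset from
      Set.ext fun k => by rw [Finset.mem_coe, List.mem_toFinset, hf t ht]; rfl, Set.ncard_coe_finset]
    exact (List.toFinset_card_le _).trans (ring_ex (hr t ht)).1
  · have := (W k H j _ _ _ rfl rfl rfl).2.2
    exact ⟨fun h => (this.1 h.1).1 h.2, fun h => (this.1 h.1).2.1 h.2, this.2⟩
  · by_cases h : C.X.length ≤ 3
    · exact .inl h
    · exact .inr fun k H j h1 =>
        (((W k H j _ _ _ rfl rfl rfl).2.2.1 h1.1).2.2.resolve_left h) h1.2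

end Pool.Agent.MP_31805c_co.H47
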