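import Pool.Agent.MP_31805c_co.H47.Red0
import Pool.Agent.MP_31805c_co.H47.Red1
import Pool.Agent.MP_31805c_co.H47.Red2
import Pool.Agent.MP_31805c_co.H47.Red3
import Pool.Agent.MP_31805c_co.H47.Red4
import Pool.Agent.MP_31805c_co.H47.Red5
import Pool.Agent.MP_31805c_co.H47.Red6
import Pool.Agent.MP_31805c_co.H47.Red7
import Pool.Agent.MP_31805c_co.H47.Red8
import Pool.Agent.MP_31805c_co.H47.Red9
import Pool.Agent.MP_31805c_co.H47.Red10
import Pool.Agent.MP_31805c_co.H47.Red11
import Pool.Agent.MP_31805c_co.H47.Red12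
import Pool.Agent.MP_31805c_co.H47.Red13
import Pool.Agent.MP_31805c_co.H47.Red14
import Pool.Agent.MP_31805c_co.H47.Red15
import Pool.Agent.MP_31805c_co.H47.Red16
import Pool.Agent.MP_31805c_co.H47.Red17
import Pool.Agent.MP_31805c_co.H47.Red18
import Pool.Agent.MP_31805c_co.H47.Red19
import Pool.Agent.MP_31805c_co.H47.Red20
import Pool.Agent.MP_31805c_co.H47.Red21
import Pool.Agent.MP_31805c_co.H47.Red22
import Pool.Agent.MP_31805c_co.H47.Red23
import Pool.Agent.MP_31805c_co.H47.Red24
import Pool.Agent.MP_31805c_co.H47.Red25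
import Pool.Agent.MP_31805c_co.H47.Red26
import Pool.Agent.MP_31805c_co.H47.Red27
import Pool.Agent.MP_31805c_co.H47.L6k
import Pool.Agent.MP_31805c_co.H47.L7k
import Pool.Agent.MP_31805c_co.H47.L8k
import Pool.Agent.MP_31805c_co.H47.L9k
import Pool.Agent.MP_31805c_co.H47.L10k
import Pool.Agent.MP_31805c_co.H47.L11k
import Pool.Agent.MP_31805c_co.H47.L12k
import Pool.Agent.MP_31805c_co.H47.L13k
import Pool.Agent.MP_31805c_co.H47.L14k
import Pool.Agent.MP_31805c_co.H47.Net
import Pool.Agent.MP_31805c_co.H47.Stp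
import Pool.Agent.MP_31805c_co.H47.Wf
import Pool.Agent.MP_31805c_co.H47.EngS
import Pool.Agent.MP_31805c_co.H47.EngC
import Pool.Agent.MP_31805c_co.H47.Kem
import Pool.Agent.MP_31805c_co.H47.Sec
import Pool.Agent.MP_31805c_co.H47.Chk

/-!
All configurations of the table are reducible.
-/

namespace Pool.Agent.MP_31805c_co.H47

theorem good_of {L : Lay} (h : LayOK L) (c : ℕ) (hc : CK L c) : (mkCfg c).WF ∧ (mkCfg c).Red := by
  obtain ⟨pS, pC, s, e⟩ := hc
  exact chkP sumP piP stpP sgP tabP wfP engS engC kemP secP L c pS pC s h e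

theorem cfOK : cfT.All fun c => (mkCfg c).WF ∧ (mkCfg c).Red :=
  (all_node (all_node (all_node (all_node (all_node (all_mono (good_of lay14_ok) _ red0)
   (all_mono (good_of lay13_ok) _ red16))
   (all_node (all_mono (good_of lay14_ok) _ red8)
   (all_mono (good_of lay12_ok) _ red24)))
   (all_node (all_node (all_mono (good_of lay14_ok) _ red4)
   (all_mono (good_of lay13_ok) _ red20))
   (all_node (all_mono (good_of lay14_ok) _ red12)
   (all_mono (good_of lay9_ok) _ red28))))
   (all_node (all_node (all_node (all_mono (good_of lay14_ok) _ red2)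
   (all_mono (good_of lay13_ok) _ red18))
   (all_node (all_mono (good_of lay14_ok) _ red10)
   (all_mono (good_of lay11_ok) _ red26)))
   (all_node (all_node (all_mono (good_of lay14_ok) _ red6)
   (all_mono (good_of lay13_ok) _ red22))
   (all_node (all_mono (good_of lay14_ok) _ red14)
   (all_mono (good_of lay7_ok) _ red30)))))
   (all_node (all_node (all_node (all_node (all_mono (good_of lay14_ok) _ red1)
   (all_mono (good_of lay13_ok) _ red17))
   (all_node (all_mono (good_of lay14_ok) _ red9)
   (all_mono (good_of lay12_ok) _ red25)))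
   (all_node (all_node (all_mono (good_of lay14_ok) _ red5)
   (all_mono (good_of lay13_ok) _ red21))
   (all_node (all_mono (good_of lay14_ok) _ red13)
   (all_mono (good_of lay8_ok) _ red29))))
   (all_node (all_node (all_node (all_mono (good_of lay14_ok) _ red3)
   (all_mono (good_of lay13_ok) _ red19))
   (all_node (all_mono (good_of lay14_ok) _ red11)
   (all_mono (good_of lay10_ok) _ red27)))
   (all_node (all_node (all_mono (good_of lay14_ok) _ red7)
   (all_mono (good_of lay12_ok) _ red23))
   (all_node (all_mono (good_of lay13_ok) _ red15)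
   (all_mono (good_of lay6_ok) _ red31))))))

end Pool.Agent.MP_31805c_co.H47
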