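import Pool.Agent.MP_31805c_co.H47.SpecC

/-!
The four colour theorem: the masks of the discharging rules.
-/

namespace Pool.Agent.MP_31805c_co.H47

namespace CmpAux

theorem condq {α : Type} (a b : ℕ) (x y : α) :
    cond (Nat.beq a b) x y = if a = b then x else y := by
  by_cases h : a = b
  · rw [if_pos h, beq_true.2 h]; rfl
  · rw [if_neg h]
    cases e : Nat.beq a b
    · rfl
    · exact absurd (beq_true.1 e) h

variable {V : Type} [Fintype V] {G : SimpleGraph V}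

/-- The flag at the spoke number `i`. -/
noncomputable def std (G : SimpleGraph V) (φ : Fl V) (i : ℕ) : Fl V := psi ((rot G)^[i] φ)

omit [Fintype V] in
theorem nb_zero (ψ : Fl V) : nb G ψ 0 = ψ.2.1 := rfl

omit [Fintype V] in
theorem nb_one (ψ : Fl V) : nb G ψ 1 = ψ.2.2 := rfl

omit [Fintype V] in
theorem nb_rot (φ : Fl V) (c n : ℕ) : nb G ((rot G)^[c] φ) n = nb G φ (n + c) := by
  unfold nb
  rw [Function.iterate_add_apply]

omit [Fintype V] in
theorem std_one (φ : Fl V) (i : ℕ) : (std G φ i).1 = nb G φ i := rfl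

theorem rot_fst (hG : Geo G) (φ : Fl V) (i : ℕ) : ((rot G)^[i] φ).1 = φ.1 := by
  rw [hG.it]

theorem rot_thd (hG : Geo G) (φ : Fl V) (i : ℕ) : ((rot G)^[i] φ).2.2 = nb G φ (i + 1) := by
  rw [hG.it]

theorem std_fl (hG : Geo G) {φ : Fl V} (hφ : IsFl G φ) (i : ℕ) : IsFl G (std G φ i) :=
  hG.psiF (hG.fl hφ i)

theorem nb_per (hG : Geo G) {φ : Fl V} (hφ : IsFl G φ) {i j : ℕ} (h : i ≡ j [MOD dg G φ.1]) :
    nb G φ i = nb G φ j := by
  unfold nb
  rw [hG.per hφ i j h]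

theorem pos5 (hG : Geo G) (φ : Fl V) (k : ℕ) : pos G φ (5 * k) = nb G φ k := by
  have h := hG.pos_mk φ k 0 (by norm_num)
  rw [Nat.add_zero] at h
  rw [h]
  rfl

theorem posj (hG : Geo G) (φ : Fl V) (k j : ℕ) (h1 : 1 ≤ j) (h4 : j ≤ 4) :
    pos G φ (5 * k + j) = nb G (std G φ k) (j + 1) := by
  rw [hG.pos_mk φ k j (by omega)]
  unfold posB
  rw [if_neg (by omega)]
  rfl

omit [Fintype V] in
theorem modd {φ : Fl V} {d : ℕ} (hd : d ≠ 0 → dg G φ.1 = d) (x : ℕ) :
    x % d ≡ x [MOD dg G φ.1] := by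
  by_cases h : d = 0
  · subst h
    rw [Nat.mod_zero]
  · rw [hd h]
    exact Nat.mod_modEq x d

omit [Fintype V] in
theorem subd {φ : Fl V} {d : ℕ} (hd : d ≠ 0 → dg G φ.1 = d) (i n : ℕ) (h : n ≤ i + d) :
    (i + d - n) % d + n ≡ i [MOD dg G φ.1] := by
  have h1 := (modd hd (i + d - n)).add_right n
  rw [Nat.sub_add_cancel h] at h1
  refine h1.trans ?_
  by_cases h0 : d = 0
  · subst h0
    rfl
  · rw [hd h0]
    exact Nat.add_modEq_right

theorem mir_std (hG : Geo G) {φ : Fl V} (hφ : IsFl G φ) {i k : ℕ}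
    (h : k + 1 ≡ i [MOD dg G φ.1]) :
    mir G (std G φ i) = (((rot G)^[k] φ).2.2, ((rot G)^[k] φ).1, ((rot G)^[k] φ).2.1) := by
  rw [← hG.back (hG.fl hφ k), ← Function.iterate_succ_apply' (rot G) k φ, hG.per hφ _ _ h]
  rfl

theorem fits31 (hG : Geo G) (φ : Fl V) : ¬ Fits G φ 31 := hG.fits31 φ 0

theorem lemS (hG : Geo G) {φ : Fl V} (hφ : IsFl G φ) {d : ℕ} (h0 : d = 0 → 12 ≤ dg G φ.1)
    (hd : d ≠ 0 → dg G φ.1 = d) {i : ℕ} (hi : 1 ≤ i + d) {g j j' : ℕ} (m : ℕ) (hg : 5 ≤ g)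
    (h : (j ≤ 5 ∧ j + 2 < g ∧ j' = j) ∨ (j + 1 = g ∧ 1 + j' ≡ 0 [MOD dg G (nb G φ i)]) ∨
      (j + 2 = g ∧ 2 + j' ≡ 0 [MOD dg G (nb G φ i)])) :
    Fits G φ (cmpS d i g j m) ↔ m.testBit (cls (dg G (nb G (std G φ i) j'))) = true := by
  have hk := subd hd i 1 hi
  have hm := mir_std hG hφ hk
  have hs := std_fl hG hφ i
  unfold cmpS
  simp only [condq]
  rcases h with ⟨h5, h2, rfl⟩ | ⟨h1, h⟩ | ⟨h2, h⟩
  · by_cases e0 : j' = 0
    · subst e0
      rw [if_pos rfl]
      have e : cls (dg G (nb G (std G φ i) 0)) = if d = 0 then 4 else min d 9 - 5 := by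
        have e1 : nb G (std G φ i) 0 = φ.1 := rot_fst hG φ i
        rw [e1]
        unfold cls
        by_cases z : d = 0
        · have := h0 z
          rw [if_pos z]
          omega
        · rw [if_neg z, hd z]
      rw [e, tb_eq]
      cases m.testBit (if d = 0 then 4 else min d 9 - 5)
      · exact iff_of_false (fits31 hG φ) (by simp)
      · exact iff_of_true (hG.fits0 φ) rfl
    · rw [if_neg e0, hG.fits_only]
      by_cases e1 : j' = 1
      · subst e1
        rw [if_pos rfl, pos5 hG, nb_per hG hφ (modd hd (i + 1)), ← rot_thd hG]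
        rfl
      · rw [if_neg e1, if_neg (by omega), if_neg (by omega)]
        have e : 5 * i + j' - 1 = 5 * i + (j' - 1) := by omega
        rw [e, posj hG φ i (j' - 1) (by omega) (by omega), Nat.sub_add_cancel (by omega)]
  · rw [if_neg (by omega), hG.fits_only, if_neg (by omega), if_pos h1, pos5 hG,
      ← hG.nbmir hs 1 j' h, hm]
    rfl
  · rw [if_neg (by omega), hG.fits_only, if_neg (by omega), if_neg (by omega), if_pos h2,
      posj hG φ _ 1 le_rfl (by norm_num), ← hG.nbmir hs 2 j' h, hm, hG.hat (hG.fl hφ _)]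
    rfl

/-- The condition is well formed. -/
def Val (l : Lit) : Prop := (l.g = 0 ∧ l.n ≤ 2) ∨ (5 ≤ l.g ∧ l.g ≤ 8 ∧ l.n < l.g)

theorem lemT (hG : Geo G) {φ : Fl V} (hφ : IsFl G φ) {d : ℕ} (h0 : d = 0 → 12 ≤ dg G φ.1)
    (hd : d ≠ 0 → dg G φ.1 = d) {i : ℕ} (hi : 1 ≤ i + d) {l : Lit} (hl : Val l) (a b : ℕ)
    (hab : l.g = 0 → a ≤ 2 ∧ b ≤ 2) {j : ℕ} (hj : a + j ≡ b [MOD gg l]) {x : V}
    (hx : ∀ j', a + j' ≡ b [MOD dg G (nb G φ i)] → x = nb G (std G φ i) j') :
    Fits G φ (cmpT d i j l) ↔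
      (l.g = 0 ∨ dg G (nb G φ i) = l.g) ∧ l.m.testBit (cls (dg G x)) = true := by
  have h5 := hG.d5 (nb G φ i)
  unfold gg at hj
  unfold cmpT
  rw [condq] at hj ⊢
  by_cases z : l.g = 0
  · rw [if_pos z] at hj ⊢
    obtain ⟨ha, hb⟩ := hab z
    unfold Nat.ModEq at hj
    by_cases c : a ≤ b
    · rw [lemS hG hφ h0 hd hi l.m (by norm_num) (j' := b - a) (Or.inl (by omega)),
        hx (b - a) (by rw [Nat.add_sub_cancel' c])]
      exact ⟨fun h => ⟨Or.inl z, h⟩, fun h => h.2⟩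
    · have e : ∀ t, t + b = a → t + (dg G (nb G φ i) + b - a) ≡ 0 [MOD dg G (nb G φ i)] := by
        intro t ht
        have e1 : t + (dg G (nb G φ i) + b - a) = dg G (nb G φ i) := by omega
        rw [e1]
        exact Nat.modEq_zero_iff_dvd.2 dvd_rfl
      have e2 : a + (dg G (nb G φ i) + b - a) ≡ b [MOD dg G (nb G φ i)] := by
        have e1 : a + (dg G (nb G φ i) + b - a) = dg G (nb G φ i) + b := by omega
        rw [e1]
        exact Nat.add_modEq_left
      have hc : ((j + 8) % 8 + 1 = 8 ∧ 1 + b = a) ∨ ((j + 8) % 8 + 2 = 8 ∧ 2 + b = a) := by omega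
      rw [lemS hG hφ h0 hd hi l.m (by norm_num) (j' := dg G (nb G φ i) + b - a)
        (Or.inr (hc.imp (fun h => ⟨h.1, e 1 h.2⟩) (fun h => ⟨h.1, e 2 h.2⟩))), hx _ e2]
      exact ⟨fun h => ⟨Or.inl z, h⟩, fun h => h.2⟩
  · rw [if_neg z] at hj ⊢
    obtain ⟨g5, g8, -⟩ : 5 ≤ l.g ∧ l.g ≤ 8 ∧ l.n < l.g := hl.resolve_left (fun h => z h.1)
    rw [hG.fits_or, hG.fits_only, pos5 hG, testBit_bt, decide_eq_true_iff]
    have e : l.g - 5 = cls (dg G (nb G φ i)) ↔ dg G (nb G φ i) = l.g := by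
      unfold cls
      omega
    rw [e, or_iff_right z]
    refine and_congr_right fun hg => ?_
    have hlt : j % l.g < l.g := Nat.mod_lt _ (by omega)
    have e1 : ∀ t, j % l.g + t = l.g → t + j % l.g ≡ 0 [MOD dg G (nb G φ i)] := by
      intro t ht
      rw [hg, Nat.add_comm, ht]
      exact Nat.modEq_zero_iff_dvd.2 dvd_rfl
    have hc : (j % l.g ≤ 5 ∧ j % l.g + 2 < l.g ∧ j % l.g = j % l.g) ∨ j % l.g + 1 = l.g ∨
        j % l.g + 2 = l.g := by omega
    rw [lemS hG hφ h0 hd hi l.m g5 (j' := j % l.g)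
      (hc.imp_right (Or.imp (fun h => ⟨h, e1 1 h⟩) (fun h => ⟨h, e1 2 h⟩))),
      hx (j % l.g) (by rw [hg]; exact ((Nat.mod_modEq j l.g).add_left a).trans hj)]

omit [Fintype V] in
theorem lith (F : Fl V) {l : Lit} (hl : Val l) :
    LitH G F l ↔ (l.g = 0 ∨ dg G (fz G F l).1 = l.g) ∧
      l.m.testBit (cls (dg G (nb G (fz G F l) l.n))) = true := by
  unfold LitH
  refine and_congr_left fun _ => ?_
  unfold Val at hl
  omega

theorem fz_fl4 (hG : Geo G) {χ : Fl V} (hχ : IsFl G χ) (inn u0 : Bool) (l : Lit) :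
    fz G (fl4 G inn u0 χ) l = fy (fl4 G inn (xor l.u u0) χ) l.y := by
  unfold fz
  refine congrArg (fun t => fy t l.y) ?_
  have h1 := hG.mirmir hχ
  have h2 := hG.mirpsi hχ
  have h3 := hG.mirpsi (hG.mirF hχ)
  rw [h1] at h3
  cases l.u <;> cases inn <;> cases u0
  all_goals first | rfl | exact h1 | exact h2 | exact h3

theorem gg_lt {l : Lit} (hl : Val l) : l.n < gg l := by
  unfold gg
  rw [condq]
  unfold Val at hl
  split_ifs <;> omega

theorem c0_le (d : ℕ) (h : d ≠ 0 → 5 ≤ d) : 5 ≤ c0 d + d := by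
  unfold c0
  rw [condq]
  split_ifs with z
  · omega
  · have := h z
    omega

theorem mul_pred_add {D : ℕ} (h : 1 ≤ D) (j : ℕ) : (D - 1) * j + j = D * j := by
  obtain ⟨E, rfl⟩ := Nat.exists_eq_add_of_le' h
  rw [Nat.add_sub_cancel, Nat.succ_mul]

theorem hub (hG : Geo G) {φ : Fl V} (hφ : IsFl G φ) {c k n : ℕ} (h : k + n ≡ c [MOD dg G φ.1]) :
    nb G (mir G ((rot G)^[c] φ)) n = nb G φ k := by
  have h5 := hG.d5 φ.1
  have e := mul_pred_add (D := dg G φ.1) (by omega) n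
  rw [hG.nbmir (hG.fl hφ c) n ((dg G φ.1 - 1) * n)
    (by rw [rot_fst hG, Nat.add_comm, e]; exact Nat.modEq_zero_iff_dvd.2 (dvd_mul_right _ _)),
    nb_rot]
  refine nb_per hG hφ ((h.symm.add_left _).trans ?_)
  rw [Nat.add_comm k n, ← Nat.add_assoc, e]
  exact Nat.ModEq.trans (Nat.ModEq.add_right k
    (Nat.modEq_zero_iff_dvd.2 (dvd_mul_right _ _))) (by rw [Nat.zero_add])

theorem revmir (hG : Geo G) {ψ : Fl V} (hψ : IsFl G ψ) {n j : ℕ} (h : 1 + j ≡ n [MOD dg G ψ.1]) :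
    nb G ((mir G ψ).1, (mir G ψ).2.2, (mir G ψ).2.1) n = nb G ψ j := by
  have h5 := hG.d5 ψ.1
  have e := mul_pred_add (D := dg G ψ.1) (by omega) j
  have z : dg G ψ.1 * j ≡ 0 [MOD dg G ψ.1] := Nat.modEq_zero_iff_dvd.2 (dvd_mul_right _ _)
  rw [hG.rev (hG.mirF hψ) n ((dg G ψ.1 - 1) * j), hG.nbmir hψ _ j (by rw [e]; exact z)]
  refine (h.symm.add_right _).trans ?_
  rw [Nat.add_assoc, Nat.add_comm j, e]
  exact z.add_left 1

theorem valb (l : Lit) : ((Nat.beq l.g 0 && Nat.ble l.n 2) ||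
    (Nat.ble 5 l.g && Nat.ble l.g 8 && Nat.blt l.n l.g)) = true ↔ Val l := by
  unfold Val
  simp only [Bool.or_eq_true, Bool.and_eq_true, beq_true, Nat.ble_eq, Nat.blt_eq, and_assoc]

theorem lemL (hG : Geo G) {φ : Fl V} (hφ : IsFl G φ) {d : ℕ} (h0 : d = 0 → 12 ≤ dg G φ.1)
    (hd : d ≠ 0 → dg G φ.1 = d) (inn u0 : Bool) (l : Lit) :
    LitH G (fl4 G inn u0 ((rot G)^[c0 d] φ)) l ↔ Fits G φ (cmpL d inn u0 l) := by
  have h5 := hG.d5 φ.1
  have hc := c0_le d (fun h => hd h ▸ h5)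
  have hχ := hG.fl hφ (c0 d)
  unfold cmpL
  by_cases hl : Val l
  swap
  · have e := (Bool.not_eq_true _).mp (mt (valb l).1 hl)
    rw [e]
    refine iff_of_false (fun h => hl ?_) (fits31 hG φ)
    exact h.1.imp_right fun h => ⟨h.1, h.2.1, h.2.2.1⟩
  rw [(valb l).2 hl, cond_true, lith _ hl, fz_fl4 hG hχ, condq]
  have hn := gg_lt hl
  have hn2 : l.g = 0 → l.n ≤ 2 := by
    unfold Val at hl
    omega
  generalize xor l.u u0 = w
  by_cases y0 : l.y = cond inn 1 0
  · rw [if_pos y0]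
    have e : fy (fl4 G inn w ((rot G)^[c0 d] φ)) l.y =
        cond w (mir G ((rot G)^[c0 d] φ)) ((rot G)^[c0 d] φ) := by
      rw [y0]
      cases inn <;> rfl
    have e1 : (cond w (mir G ((rot G)^[c0 d] φ)) ((rot G)^[c0 d] φ)).1 = φ.1 := by
      cases w <;> exact rot_fst hG φ _
    rw [e, e1]
    have e2 : (l.g = 0 ∨ dg G φ.1 = l.g) ↔ (Nat.beq l.g 0 || Nat.beq l.g d) = true := by
      rw [Bool.or_eq_true, beq_true, beq_true]
      unfold Val at hl
      by_cases z : d = 0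
      · have := h0 z
        omega
      · have := hd z
        omega
    rw [e2]
    cases e3 : (Nat.beq l.g 0 || Nat.beq l.g d)
    · exact iff_of_false (fun h => Bool.false_ne_true h.1) (fits31 hG φ)
    · rw [cond_true, hG.fits_only, pos5 hG, and_iff_right rfl]
      rw [Bool.or_eq_true, beq_true, beq_true] at e3
      have hle : l.n ≤ c0 d + d := by
        unfold Val at hl
        omega
      cases w
      · rw [cond_false, cond_false, nb_rot, nb_per hG hφ (modd hd _), Nat.add_comm]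
      · rw [cond_true, cond_true, hub hG hφ (subd hd _ _ hle)]
  rw [if_neg y0]
  have gB : l.n + (gg l - l.n) ≡ 0 [MOD gg l] := by
    rw [Nat.add_sub_cancel' hn.le]
    exact Nat.modEq_zero_iff_dvd.2 dvd_rfl
  have gA : 0 + l.n ≡ l.n [MOD gg l] := by rw [Nat.zero_add]
  have abA : l.g = 0 → 0 ≤ 2 ∧ l.n ≤ 2 := fun h => ⟨by norm_num, hn2 h⟩
  have abB : l.g = 0 → l.n ≤ 2 ∧ 0 ≤ 2 := fun h => ⟨hn2 h, by norm_num⟩
  have xA : ∀ i j', 0 + j' ≡ l.n [MOD dg G (nb G φ i)] →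
      nb G (std G φ i) l.n = nb G (std G φ i) j' := fun i j' h =>
    nb_per hG (std_fl hG hφ i) (by rw [Nat.zero_add] at h; exact h.symm)
  have xB : ∀ i j', l.n + j' ≡ 0 [MOD dg G (nb G φ i)] →
      nb G (mir G (std G φ i)) l.n = nb G (std G φ i) j' := fun i j' h =>
    hG.nbmir (std_fl hG hφ i) _ _ h
  by_cases y2 : l.y < 2
  · rw [Nat.blt_eq.mpr y2, cond_true]
    have e : fy (fl4 G inn w ((rot G)^[c0 d] φ)) l.y =
        psi (cond w (mir G ((rot G)^[c0 d] φ)) ((rot G)^[c0 d] φ)) := by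
      cases inn
      · have y1 : l.y = 1 := by
          rw [cond_false] at y0
          omega
        rw [y1]
        rfl
      · have y1 : l.y = 0 := by
          rw [cond_true] at y0
          omega
        rw [y1]
        rfl
    rw [e]
    cases w
    · exact (lemT hG hφ h0 hd (by omega) hl 0 l.n abA gA (xA _)).symm
    · rw [cond_true, cond_true, ← hG.mirpsi hχ]
      exact (lemT hG hφ h0 hd (by omega) hl l.n 0 abB gB (xB _)).symm
  have y3 : Nat.blt l.y 2 = false := by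
    cases e : Nat.blt l.y 2
    · rfl
    · exact absurd (Nat.blt_eq.mp e) y2
  rw [y3, cond_false]
  have e : ∀ ψ : Fl V, fy ψ l.y = (ψ.2.2, ψ.1, ψ.2.1) := by
    intro ψ
    unfold fy
    rw [if_neg (by omega), if_neg (by omega)]
  rw [e]
  have hi : ∀ x, 1 ≤ x → 1 ≤ x % d + d := by
    intro x hx
    by_cases z : d = 0
    · rw [z, Nat.mod_zero]
      exact hx
    · omega
  cases w
  · have hm := mir_std hG hφ (modd hd (c0 d + 1)).symm
    have hs := std_fl hG hφ ((c0 d + 1) % d)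
    have f1 := congrArg (fun t => t.1) hm
    have f2 := congrArg (fun t => t.2.1) hm
    have f3 := congrArg (fun t => t.2.2) hm
    cases inn
    · have := (lemT hG hφ h0 hd (hi (c0 d + 1) (by omega)) hl l.n 0 abB gB (xB _)).symm
      rw [hm, ← std_one, (show (std G φ ((c0 d + 1) % d)).1 = _ from f1)] at this
      exact this
    · have gD : 1 + (gg l + l.n - 1) ≡ l.n [MOD gg l] := by
        rw [Nat.add_sub_cancel' (by omega)]
        exact Nat.add_modEq_left
      have := (lemT hG hφ h0 hd (hi (c0 d + 1) (by omega)) hl 1 l.n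
        (fun h => ⟨by norm_num, hn2 h⟩) gD (fun j' h => revmir hG hs h)).symm
      rw [hm, ← std_one, (show (std G φ ((c0 d + 1) % d)).1 = _ from f1)] at this
      exact this
  · have hm := mir_std hG hφ (subd hd (c0 d) 1 (by omega))
    have hs := std_fl hG hφ ((c0 d + d - 1) % d)
    have hm' : psi (mir G ((rot G)^[c0 d] φ)) = _ := (hG.mirpsi hχ).symm.trans hm
    have f1 := congrArg (fun t => t.1) hm'
    have f2 := congrArg (fun t => t.2.1) hm'
    have f3 := congrArg (fun t => t.2.2) hm'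
    have eS : ((mir G ((rot G)^[c0 d] φ)).2.2, (mir G ((rot G)^[c0 d] φ)).1,
        (mir G ((rot G)^[c0 d] φ)).2.1) = std G φ ((c0 d + d - 1) % d) :=
      Prod.ext f3 (Prod.ext f2 f1)
    cases inn
    · have := (lemT hG hφ h0 hd (hi (c0 d + d - 1) (by omega)) hl 0 l.n abA gA (xA _)).symm
      rw [← std_one, ← eS] at this
      exact this
    · have gC : l.n + (gg l + 1 - l.n) ≡ 1 [MOD gg l] := by
        rw [Nat.add_sub_cancel' (by omega)]
        exact Nat.add_modEq_left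
      have := (lemT hG hφ h0 hd (hi (c0 d + d - 1) (by omega)) hl l.n 1
        (fun h => ⟨hn2 h, by norm_num⟩) gC (fun j' h => hG.rev hs l.n j' h)).symm
      rw [← std_one, ← eS] at this
      exact this

theorem lemR (hG : Geo G) {φ : Fl V} (hφ : IsFl G φ) {d : ℕ} (h0 : d = 0 → 12 ≤ dg G φ.1)
    (hd : d ≠ 0 → dg G φ.1 = d) (inn u0 : Bool) (ls : List Lit) :
    (∀ l ∈ ls, LitH G (fl4 G inn u0 ((rot G)^[c0 d] φ)) l) ↔ Fits G φ (cmpR d inn u0 ls) := by
  induction ls with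
  | nil => exact iff_of_true (fun _ h => absurd h List.not_mem_nil) (hG.fits0 φ)
  | cons l t ih =>
    have e : cmpR d inn u0 (l :: t) = Nat.lor (cmpL d inn u0 l) (cmpR d inn u0 t) := rfl
    rw [e, hG.fits_or, List.forall_mem_cons, ih, lemL hG hφ h0 hd]

end CmpAux

theorem cmpP : StmtCMP := by
  intro V _ G hG R₀ K d φ inn u0 h
  obtain ⟨hφ, h0, hd⟩ := h
  have hd' : d ≠ 0 → dg G φ.1 = d := fun z => (hd z).1
  clear hd
  unfold sent wsum
  induction R₀ with
  | nil => rfl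
  | cons r t ih =>
    have e : comp d inn u0 (r :: t) = (cmpR d inn u0 r.2, r.1) :: comp d inn u0 t := rfl
    rw [e, List.map_cons, List.map_cons, List.sum_cons, List.sum_cons, ih]
    have k := CmpAux.lemR hG hφ h0 hd' inn u0 r.2
    by_cases c : Fits G φ (cmpR d inn u0 r.2)
    · rw [if_pos c, if_pos (k.2 c)]
    · rw [if_neg c, if_neg (mt k.1 c)]

end Pool.Agent.MP_31805c_co.H47
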