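import Pool.Agent.MP_31805c_co.H47.SpecC

/-!
Double counting of charges.
-/

namespace Pool.Agent.MP_31805c_co.H47

open Finset

namespace Dis

variable {V : Type} [Fintype V] {G : SimpleGraph V}

open Classical in
theorem sum_two (hL : Lnk G) {v a b : V} (h : T G v a b) (g : V → ℕ) :
    ∑ c, (if T G v a c then g c else 0) = g b + g (opp G v a b) := by
  have h3 := hL.opp3 h
  have h4 : univ.filter (fun c => T G v a c) = {b, opp G v a b} := by
    ext c
    simp only [mem_filter, mem_univ, true_and, mem_insert, mem_singleton]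
    constructor
    · intro hc
      by_cases hb : c = b
      · exact Or.inl hb
      · exact Or.inr (hL.uniq ⟨h, hc, fun e => hb e.symm⟩ h3)
    · rintro (rfl | rfl)
      · exact h
      · exact h3.2.1
  rw [← sum_filter, h4, sum_pair h3.2.2]

theorem sum_nb (hL : Lnk G) {φ : Fl V} (h : IsFl G φ) (f : V → ℕ)
    (hf : ∀ a, ¬ G.Adj φ.1 a → f a = 0) :
    ∑ a, f a = ∑ e ∈ range (dg G φ.1), f (nb G φ e) := by
  classical
  rw [← sum_image (s := range (dg G φ.1)) (g := nb G φ) (f := f)]
  · refine (sum_subset (subset_univ _) fun a _ ha => hf a fun hadj => ha ?_).symm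
    obtain ⟨j, hj, rfl⟩ := hL.surj h a hadj
    exact mem_image_of_mem _ (mem_range.2 hj)
  · intro i hi j hj e
    exact ((hL.eq h i j).1 e).eq_of_lt_of_lt (mem_range.1 hi) (mem_range.1 hj)

open Classical in
theorem sum_fl (hL : Lnk G) (hG : Geo G) {φ : Fl V} (h : IsFl G φ) (g : V → V → ℕ) :
    ∑ a, ∑ b, (if T G φ.1 a b then g a b else 0) = ∑ e ∈ range (dg G φ.1),
      (g (nb G φ e) (nb G φ (e + 1)) + g (nb G φ e) (opp G φ.1 (nb G φ e) (nb G φ (e + 1)))) := by
  rw [sum_nb hL h]
  · refine sum_congr rfl fun e _ => sum_two hL ?_ _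
    have := hG.fl h e
    rw [hG.it] at this
    exact this
  · intro a ha
    exact sum_eq_zero fun b _ => if_neg fun hT => ha hT.1

theorem tot (R : List Rule) : ∑ v, inV G R v = ∑ v, outV G R v := by
  unfold inV outV
  rw [sum_comm]
  refine sum_congr rfl fun a _ => sum_congr rfl fun v _ => sum_congr rfl fun b _ => ?_
  have : T G v a b ↔ T G a v b :=
    ⟨fun h => ⟨h.1.symm, h.2.2, h.2.1⟩, fun h => ⟨h.1.symm, h.2.2, h.2.1⟩⟩
  by_cases h : T G v a b
  · rw [if_pos h, if_pos (this.1 h)]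
  · rw [if_neg h, if_neg fun h' => h (this.2 h')]

end Dis

open Dis in
theorem disP : StmtDIS := by
  intro V _ _ G hM hG
  refine ⟨fun R φ h => ⟨?_, ?_⟩, fun R K hK => ?_⟩
  · unfold inV
    rw [sum_fl hM.toLnk hG h fun a b => sent G R (a, φ.1, b)]
    refine sum_congr rfl fun e _ => ?_
    rw [hG.it]
    rfl
  · unfold outV
    rw [sum_fl hM.toLnk hG h fun a b => sent G R (φ.1, a, b)]
    refine sum_congr rfl fun e _ => ?_
    rw [hG.it]
    rfl
  · by_contra hn
    have h1 : ∑ v, (inV G R v + 60 * K) ≤ ∑ v, (outV G R v + 10 * K * dg G v) :=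
      sum_le_sum fun v _ => not_lt.1 fun h => hn ⟨v, h⟩
    rw [sum_add_distrib, sum_add_distrib, tot, sum_const, card_univ, smul_eq_mul, ← mul_sum] at h1
    have h2 := hM.euler
    nlinarith

theorem endP : StmtEND := by
  intro V _ _ G hM hG hS R K v hv h1 h2
  obtain ⟨a, b, hT⟩ := hM.ex v
  have hφ : IsFl G (v, a, b) := hT
  have h5 := hG.d5 v
  by_cases hd : dg G v ≤ 11
  · exact h1 (dg G v) (v, a, b) h5 hd ⟨hφ, fun h => by omega, fun _ => ⟨rfl, hv⟩⟩
  · have h0 : Hd G R K 0 (v, a, b) := ⟨hφ, fun _ => by show 12 ≤ dg G v; omega,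
      fun h => absurd rfl h⟩
    have h3 : ∀ e, eIn G R ((rot G)^[e] (v, a, b)) ≤ 5 * K + eOut G R ((rot G)^[e] (v, a, b)) := by
      intro e
      have h4 := h2 _ (hG.hd_rot R K 0 _ (e + dg G v - 5) h0)
      rw [← Function.iterate_add_apply, hG.per hφ _ e] at h4
      · exact h4
      · have : 5 + (e + dg G v - 5) = e + dg G v := by omega
        rw [this]
        exact Nat.add_modEq_right
    obtain ⟨h6, h7⟩ := hS R _ hφ
    have h8 : inV G R v ≤ dg G v * (5 * K) + outV G R v := by
      refine h6.trans_le ((sum_le_sum fun e _ => h3 e).trans_eq ?_)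
      rw [sum_add_distrib, sum_const, card_range, smul_eq_mul, ← h7]
    unfold Chg at hv
    nlinarith

end Pool.Agent.MP_31805c_co.H47
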