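import Pool.Agent.MP_31805c_co.H47.SpecA

/-!
Row EMB: a configuration that appears is embedded as an induced subgraph.
-/

namespace Pool.Agent.MP_31805c_co.H47

namespace Emb

variable {V : Type} {G : SimpleGraph V} {C : Cfg} {f : ℕ → V}

/-- The flag at the interior vertex `k`. -/
def fl (C : Cfg) (f : ℕ → V) (k : ℕ) : Fl V := (f k, f ((C.L k).getD 0 0), f ((C.L k).getD 1 0))

lemma isFl (hA : App G C f) {k : ℕ} (hk : C.In k) : IsFl G (fl C f k) := (hA k hk).fl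

lemma len_pos (hW : C.WF) {k : ℕ} (hk : C.In k) : 0 < (C.L k).length :=
  lt_of_lt_of_le (by norm_num) (hW.len k hk)

lemma f_at (hL : Lnk G) (hW : C.WF) (hA : App G C f) {k : ℕ} (hk : C.In k) (j : ℕ) :
    f (C.at' k j) = nb G (fl C f k) j := by
  have h1 := (hA k hk).nb (j % (C.L k).length) (Nat.mod_lt _ (len_pos hW hk))
  refine h1.trans ((hL.eq (isFl hA hk) _ _).2 ?_)
  show _ ≡ _ [MOD dg G (f k)]
  rw [← (hA k hk).len]
  exact Nat.mod_modEq _ _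

lemma at_mem (hW : C.WF) {k : ℕ} (hk : C.In k) (j : ℕ) : C.at' k j ∈ C.L k := by
  unfold Cfg.at'
  rw [List.getD_eq_getElem _ _ (Nat.mod_lt _ (len_pos hW hk))]
  exact List.getElem_mem _

lemma ex_at {k a : ℕ} (ha : a ∈ C.L k) : ∃ j < (C.L k).length, C.at' k j = a := by
  obtain ⟨j, hj, e⟩ := List.getElem_of_mem ha
  refine ⟨j, hj, ?_⟩
  unfold Cfg.at'
  rw [Nat.mod_eq_of_lt hj, List.getD_eq_getElem _ _ hj, e]

lemma adj (hL : Lnk G) (hW : C.WF) (hA : App G C f) {k a : ℕ} (hk : C.In k) (ha : a ∈ C.L k) :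
    G.Adj (f k) (f a) := by
  obtain ⟨j, -, rfl⟩ := ex_at ha
  rw [f_at hL hW hA hk]
  exact (hL.t3 (isFl hA hk) j).1.2.1

lemma surj (hL : Lnk G) (hW : C.WF) (hA : App G C f) {k : ℕ} (hk : C.In k) {w : V}
    (h : G.Adj (f k) w) : ∃ a ∈ C.L k, f a = w := by
  obtain ⟨j, -, e⟩ := hL.surj (isFl hA hk) w h
  exact ⟨C.at' k j, at_mem hW hk j, (f_at hL hW hA hk j).trans e⟩

lemma inj (hL : Lnk G) (hW : C.WF) (hA : App G C f) {k a b : ℕ} (hk : C.In k) (ha : a ∈ C.L k)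
    (hb : b ∈ C.L k) (h : f a = f b) : a = b := by
  obtain ⟨i, -, rfl⟩ := ex_at ha
  obtain ⟨j, -, rfl⟩ := ex_at hb
  rw [f_at hL hW hA hk, f_at hL hW hA hk] at h
  have h1 : i ≡ j [MOD dg G (f k)] := (hL.eq (isFl hA hk) i j).1 h
  rw [← (hA k hk).len] at h1
  unfold Cfg.at'
  rw [h1]

/-- Adjacent points of a link are cyclically consecutive. -/
lemma consec (hL : Lnk G) (hW : C.WF) (hA : App G C f) {k b : ℕ} (hk : C.In k) (i : ℕ)
    (hb : b ∈ C.L k) (h : G.Adj (f (C.at' k i)) (f b)) :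
    b = C.at' k (i + 1) ∨ b = C.at' k (i + (C.L k).length - 1) := by
  have hp := len_pos hW hk
  have h3 := hL.t3 (isFl hA hk) (i + (C.L k).length - 1)
  have e1 : nb G (fl C f k) (i + (C.L k).length - 1 + 1) = f (C.at' k i) := by
    rw [← f_at hL hW hA hk, show i + (C.L k).length - 1 + 1 = i + (C.L k).length by omega]
    unfold Cfg.at'
    rw [Nat.add_mod_right]
  have e2 : nb G (fl C f k) (i + (C.L k).length - 1 + 2) = f (C.at' k (i + 1)) := by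
    rw [← f_at hL hW hA hk, show i + (C.L k).length - 1 + 2 = i + 1 + (C.L k).length by omega]
    unfold Cfg.at'
    rw [Nat.add_mod_right]
  rw [e1, e2, ← f_at hL hW hA hk] at h3
  by_cases e : f (C.at' k (i + (C.L k).length - 1)) = f b
  · exact Or.inr (inj hL hW hA hk hb (at_mem hW hk _) e.symm)
  · refine Or.inl (inj hL hW hA hk hb (at_mem hW hk _) (hL.uniq ⟨h3.1, ⟨?_, ?_, h⟩, e⟩ h3))
    · exact adj hL hW hA hk (at_mem hW hk i)
    · exact adj hL hW hA hk hb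

lemma link (hL : Lnk G) (hW : C.WF) (hA : App G C f) {k a b : ℕ} (hk : C.In k) (ha : a ∈ C.L k)
    (hb : b ∈ C.L k) (hi : C.In a) (h : G.Adj (f a) (f b)) : b ∈ C.L a := by
  obtain ⟨i, -, rfl⟩ := ex_at ha
  rcases consec hL hW hA hk i hb h with rfl | rfl
  exacts [(hW.face k hk i hi).1, (hW.face k hk i hi).2]

/-- Adjacent interior vertices. -/
def E (C : Cfg) (a b : ℕ) : Prop := C.In a ∧ C.In b ∧ b ∈ C.L a

/-- The claim for one pair. -/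
def P (G : SimpleGraph V) (C : Cfg) (f : ℕ → V) (a b : ℕ) : Prop :=
  (f a = f b → a = b) ∧ (G.Adj (f a) (f b) → b ∈ C.L a)

lemma E.symm (hW : C.WF) {a b : ℕ} (h : E C a b) : E C b a :=
  ⟨h.2.1, h.1, hW.sym a h.1 b h.2.2 h.2.1⟩

lemma E.adj (hL : Lnk G) (hW : C.WF) (hA : App G C f) {a b : ℕ} (h : E C a b) :
    G.Adj (f a) (f b) := Emb.adj hL hW hA h.1 h.2.2

lemma p0 (a : ℕ) : P G C f a a := ⟨fun _ => rfl, fun h => absurd h (G.irrefl)⟩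

lemma p1 (hL : Lnk G) (hW : C.WF) (hA : App G C f) {a b : ℕ} (h : E C a b) : P G C f a b :=
  ⟨fun e => absurd e (h.adj hL hW hA).ne, fun _ => h.2.2⟩

lemma p2 (hL : Lnk G) (hW : C.WF) (hA : App G C f) {a x b : ℕ} (h1 : E C a x) (h2 : E C x b) :
    P G C f a b :=
  ⟨inj hL hW hA h2.1 (h1.symm hW).2.2 h2.2.2, link hL hW hA h2.1 (h1.symm hW).2.2 h2.2.2 h1.1⟩

lemma p3 (hL : Lnk G) (h4 : B4 G) (hW : C.WF) (hA : App G C f) {a x y b : ℕ} (h1 : E C a x)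
    (h2 : E C x y) (h3 : E C y b) : P G C f a b := by
  have qa := p2 hL hW hA h1 h2
  have qb := p2 hL hW hA h2 h3
  have c1 : G.Adj (f a) (f y) → P G C f a b := fun h => p2 hL hW hA ⟨h1.1, h3.1, qa.2 h⟩ h3
  refine ⟨fun e => (c1 (e ▸ (h3.adj hL hW hA).symm)).1 e, fun h => ?_⟩
  by_cases e1 : f a = f y
  · obtain rfl := qa.1 e1
    exact h3.2.2
  by_cases e2 : f x = f b
  · obtain rfl := qb.1 e2
    exact h1.2.2
  rcases h4 _ _ _ _ (h1.adj hL hW hA) (h2.adj hL hW hA) (h3.adj hL hW hA) h.symm e1 e2 with c | c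
  · exact (c1 c).2 h
  · exact (p2 hL hW hA h1 ⟨h2.1, h3.2.1, qb.2 c⟩).2 h

lemma p4 (hL : Lnk G) (h4 : B4 G) (h5 : B5 G) (hW : C.WF) (hA : App G C f) {a x c y b : ℕ}
    (h1 : E C a x) (h2 : E C x c) (h3 : E C c y) (h0 : E C y b) : P G C f a b := by
  have qac := p2 hL hW hA h1 h2
  have qxy := p2 hL hW hA h2 h3
  have qcb := p2 hL hW hA h3 h0
  have qay := p3 hL h4 hW hA h1 h2 h3
  have qxb := p3 hL h4 hW hA h2 h3 h0
  have a1 := h1.adj hL hW hA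
  have a2 := h2.adj hL hW hA
  have a3 := h3.adj hL hW hA
  have a0 := h0.adj hL hW hA
  by_cases e1 : f a = f c
  · obtain rfl := qac.1 e1
    exact qcb
  by_cases e2 : f x = f y
  · obtain rfl := qxy.1 e2
    exact p2 hL hW hA h1 h0
  by_cases c1 : G.Adj (f a) (f c)
  · exact p3 hL h4 hW hA ⟨h1.1, h3.1, qac.2 c1⟩ h3 h0
  by_cases c2 : G.Adj (f x) (f y)
  · exact p3 hL h4 hW hA h1 ⟨h2.1, h0.1, qxy.2 c2⟩ h0
  refine ⟨fun e => ?_, fun h => ?_⟩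
  · exact absurd (h4 _ _ _ _ a1 a2 a3 (e ▸ a0) e1 e2) (not_or.2 ⟨c1, c2⟩)
  by_cases e3 : f a = f y
  · obtain rfl := qay.1 e3
    exact h0.2.2
  by_cases e4 : f x = f b
  · obtain rfl := qxb.1 e4
    exact h1.2.2
  by_cases e5 : f c = f b
  · obtain rfl := qcb.1 e5
    exact qac.2 h
  rcases h5 _ _ _ _ _ a1 a2 a3 a0 h.symm e1 e3 e2 e4 e5 with (d | d | d | d | d) | ⟨z, hz⟩
  · exact absurd d c1
  · exact (p2 hL hW hA ⟨h1.1, h0.1, qay.2 d⟩ h0).2 h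
  · exact absurd d c2
  · exact (p2 hL hW hA h1 ⟨h2.1, h0.2.1, qxb.2 d⟩).2 h
  · exact (p3 hL h4 hW hA h1 h2 ⟨h3.1, h0.2.1, qcb.2 d⟩).2 h
  have hz' : ∀ w, w ∈ ({f a, f x, f c, f y, f b} : Set V) → G.Adj w z := fun w hw =>
    ((G.mem_neighborSet z w).1 (hz ▸ hw)).symm
  obtain ⟨t, tc, rfl⟩ := surj hL hW hA h3.1 (hz' (f c) (by simp))
  have tx : t ∈ C.L x := link hL hW hA h3.1 (h2.symm hW).2.2 tc h2.1 (hz' _ (by simp))
  have ty : t ∈ C.L y := link hL hW hA h3.1 h3.2.2 tc h0.1 (hz' _ (by simp))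
  have ta : t ∈ C.L a := link hL hW hA h2.1 (h1.symm hW).2.2 tx h1.1 (hz' _ (by simp))
  have tb : t ∈ C.L b := link hL hW hA h0.1 h0.2.2 ty h0.2.1 (hz' _ (by simp))
  by_cases ht : C.In t
  · exact (p2 hL hW hA ⟨h1.1, ht, ta⟩ (E.symm hW ⟨h0.2.1, ht, tb⟩)).2 h
  exfalso
  have hlt : t < C.r := by
    have := hW.lt c h3.1 t tc
    by_contra hc
    exact ht ⟨not_lt.1 hc, this⟩
  have hfin : {k | C.In k ∧ t ∈ C.L k}.Finite :=
    (Set.finite_lt_nat (C.r + C.lk.length)).subset fun k hk => hk.1.2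
  have hsub : (({a, x, c, y, b} : Finset ℕ) : Set ℕ) ⊆ {k | C.In k ∧ t ∈ C.L k} := by
    intro k hk
    simp only [Finset.coe_insert, Finset.coe_singleton, Set.mem_insert_iff,
      Set.mem_singleton_iff] at hk
    rcases hk with rfl | rfl | rfl | rfl | rfl
    exacts [⟨h1.1, ta⟩, ⟨h2.1, tx⟩, ⟨h3.1, tc⟩, ⟨h0.1, ty⟩, ⟨h0.2.1, tb⟩]
  have hle := (Set.ncard_le_ncard hsub hfin).trans (hW.four t hlt)
  have n : ∀ {u v : ℕ}, f u ≠ f v → u ≠ v := fun h e => h (e ▸ rfl)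
  rw [Set.ncard_coe_finset, Finset.card_insert_of_notMem, Finset.card_insert_of_notMem,
    Finset.card_insert_of_notMem, Finset.card_pair (n a0.ne)] at hle
  · omega
  · simp [n a3.ne, n e5]
  · simp [n a2.ne, n e2, n e4]
  · simp [n a1.ne, n e1, n e3, n h.ne]

end Emb

open Emb in
theorem emb : StmtEMB := by
  intro V _ _ G C f hM hW hA a b ha hb
  have hL : Lnk G := hM.toLnk
  have h4 := hM.b4
  have h5 := hM.b5
  obtain ⟨x, c, y, ⟨-, hx, h1⟩, ⟨-, hc, h2⟩, ⟨-, hy, h3⟩, ⟨-, -, h0⟩⟩ := hW.diam a b ha hb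
  show P G C f a b
  rcases h1 with rfl | h1 <;> rcases h2 with rfl | h2 <;> rcases h3 with rfl | h3 <;>
    rcases h0 with rfl | h0
  all_goals first
    | exact p0 _
    | exact p1 hL hW hA ⟨ha, hb, by assumption⟩
    | exact p4 hL h4 h5 hW hA ⟨ha, hx, h1⟩ ⟨hx, hc, h2⟩ ⟨hc, hy, h3⟩ ⟨hy, hb, h0⟩
    | exact p3 hL h4 hW hA ⟨ha, hx, h1⟩ ⟨hx, hc, h2⟩ ⟨hc, hb, by assumption⟩
    | exact p3 hL h4 hW hA ⟨ha, hx, h1⟩ ⟨hx, hy, h3⟩ ⟨hy, hb, h0⟩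
    | exact p3 hL h4 hW hA ⟨ha, hc, h2⟩ ⟨hc, hy, h3⟩ ⟨hy, hb, h0⟩
    | exact p2 hL hW hA ⟨ha, hx, h1⟩ ⟨hx, hb, by assumption⟩
    | exact p2 hL hW hA ⟨ha, hc, h2⟩ ⟨hc, hb, by assumption⟩
    | exact p2 hL hW hA ⟨ha, hy, h3⟩ ⟨hy, hb, h0⟩

end Pool.Agent.MP_31805c_co.H47
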