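import Pool.Agent.MP_31805c_co.H47.SpecA

/-! Linear algebra over the field with two elements for families of even edge sets. -/

namespace Pool.Agent.MP_31805c_co.H47

open Finset
open Pool.Agent.MP_31805c_co.H93 (Conn)

namespace FamAux

theorem z_cases (x : Z2) : x = 0 ∨ x = 1 := by revert x; decide

theorem z_add_self (x : Z2) : x + x = 0 := by revert x; decide

theorem z_ne (x : Z2) (h : x ≠ 0) : x = 1 := (z_cases x).resolve_left h

/-- A sum of bits is the number of nonzero bits. -/
theorem sum_eq_ncard {I : Type} [Fintype I] (f : I → Z2) :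
    ∑ i, f i = (({i | f i ≠ 0}.ncard : ℕ) : Z2) := by
  classical
  have h1 : {i | f i ≠ 0}.ncard = (univ.filter fun i => f i ≠ 0).card := by
    rw [← Set.ncard_coe_finset]; congr 1; ext i; simp
  rw [h1, card_filter]
  push_cast
  refine sum_congr rfl fun i _ => ?_
  rcases z_cases (f i) with h | h <;> simp [h]

variable {V : Type} [Fintype V] [DecidableEq V]

/-- The coboundary. -/
def cob (p : V → Z2) : Sym2 V → Z2 := Sym2.lift ⟨fun u v => p u + p v, fun _ _ => add_comm _ _⟩

omit [Fintype V] [DecidableEq V] in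
@[simp] theorem cob_mk (p : V → Z2) (u v : V) : cob p s(u, v) = p u + p v := rfl

/-- The indicator of an edge. -/
def ind (e₀ : Sym2 V) : Sym2 V → Z2 := fun e => if e = e₀ then 1 else 0

theorem sum_cob (C : Sym2 V → Z2) (hC : ∀ v, C s(v, v) = 0) (p : V → Z2) :
    ∑ e, C e * cob p e = ∑ v, p v * ∑ w, C s(v, w) := by
  have h1 : ∑ v, p v * ∑ w, C s(v, w) = ∑ x : V × V, p x.1 * C s(x.1, x.2) := by
    rw [Fintype.sum_prod_type]
    exact sum_congr rfl fun v _ => mul_sum _ _ _
  rw [h1, ← sum_fiberwise (s := univ) (g := fun x : V × V => s(x.1, x.2))]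
  refine sum_congr rfl fun e _ => ?_
  induction e using Sym2.ind with
  | h a b =>
    by_cases hab : a = b
    · subst hab
      rw [hC, zero_mul]
      refine (sum_eq_zero fun x hx => ?_).symm
      rw [(mem_filter.1 hx).2, hC, mul_zero]
    · have : (univ.filter fun x : V × V => s(x.1, x.2) = s(a, b)) = {(a, b), (b, a)} := by
        ext x
        simp only [mem_filter, mem_univ, true_and, mem_insert, mem_singleton, Sym2.eq_iff,
          Prod.ext_iff]
      rw [this, sum_pair (by simp [hab])]
      simp only [cob_mk, Sym2.eq_swap (a := b) (b := a)]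
      ring

theorem sum_ind (e₀ : Sym2 V) (a : Sym2 V → Z2) : ∑ e, ind e₀ e * a e = a e₀ := by
  simp [ind]

theorem sum_ind' (e₀ : Sym2 V) (a : Sym2 V → Z2) : ∑ e, a e * ind e₀ e = a e₀ := by
  simp [ind]

theorem deg_ind {u w : V} (h : u ≠ w) (v : V) :
    ∑ x, ind s(u, w) s(v, x) = if v = u ∨ v = w then 1 else 0 := by
  by_cases h1 : v = u
  · subst h1
    rw [if_pos (Or.inl rfl), sum_eq_single w]
    · simp [ind]
    · intro x _ hx
      simp only [ind, Sym2.eq_iff]
      rw [if_neg]; tauto
    · simp
  by_cases h2 : v = w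
  · subst h2
    rw [if_pos (Or.inr rfl), sum_eq_single u]
    · simp [ind, Sym2.eq_swap]
    · intro x _ hx
      simp only [ind, Sym2.eq_iff]
      rw [if_neg]; tauto
    · simp
  · rw [if_neg (by tauto)]
    refine sum_eq_zero fun x _ => ?_
    simp only [ind, Sym2.eq_iff]
    rw [if_neg]; tauto

variable {G : SimpleGraph V}

omit [Fintype V] [DecidableEq V] in
theorem diag_zero {C : Sym2 V → Z2} (hC : ∀ e, C e ≠ 0 → e ∈ G.edgeSet) (v : V) :
    C s(v, v) = 0 := by
  by_contra h
  exact G.irrefl (hC _ h)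

/-- Pairing an edge set with a cochain that is a cut on the edges. -/
theorem pair_cut {C a : Sym2 V → Z2} (hC : ∀ e, C e ≠ 0 → e ∈ G.edgeSet) {p : V → Z2}
    (hp : ∀ u v, G.Adj u v → a s(u, v) = p u + p v) :
    ∑ e, C e * a e = ∑ v, p v * ∑ w, C s(v, w) := by
  rw [← sum_cob C (diag_zero hC)]
  refine sum_congr rfl fun e _ => ?_
  by_cases h : C e = 0
  · simp [h]
  · have := hC e h
    induction e using Sym2.ind with
    | h a b => rw [hp a b this, cob_mk]

theorem ncard_option {I : Type} [Fintype I] (S : Set (Option I)) (T : Set I)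
    (h : ∀ i, some i ∈ S → i ∈ T) : S.ncard ≤ T.ncard + 1 ∧ (none ∉ S → S.ncard ≤ T.ncard) := by
  have e : (some '' T).ncard = T.ncard := Set.ncard_image_of_injective _ (Option.some_injective _)
  constructor
  · refine le_trans (Set.ncard_le_ncard (t := insert none (some '' T)) ?_) ?_
    · rintro (_ | i) hi
      · exact Or.inl rfl
      · exact Or.inr ⟨i, h i hi, rfl⟩
    · rw [← e]; exact Set.ncard_insert_le _ _
  · intro hn
    rw [← e]
    refine Set.ncard_le_ncard ?_
    rintro (_ | i) hi
    · exact absurd hi hn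
    · exact ⟨i, h i hi, rfl⟩

theorem exact' (h : Mac G) :
    ∃ (I : Type) (_ : Fintype I) (F : I → Sym2 V → Z2), Fam G F ∧ ∀ e, ∑ i, F i e = 0 := by
  obtain ⟨I, _, F, hF⟩ := h
  refine ⟨Option I, inferInstance, fun o => o.elim (fun e => ∑ i, F i e) F, ⟨?_, ?_, ?_, ?_⟩, ?_⟩
  · rintro (_ | i) e he
    · obtain ⟨i, -, hi⟩ := exists_ne_zero_of_sum_ne_zero he
      exact hF.sub i e hi
    · exact hF.sub i e he
  · rintro (_ | i) v
    · show ∑ w, ∑ i, F i s(v, w) = 0
      rw [sum_comm]
      exact sum_eq_zero fun i _ => hF.even i v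
    · exact hF.even i v
  · intro e
    have h2 := hF.two e
    obtain ⟨a, b⟩ := ncard_option
      {o : Option I | (o.elim (fun e => ∑ i, F i e) F : Sym2 V → Z2) e ≠ 0} {i | F i e ≠ 0}
      fun i hi => hi
    rcases h2.lt_or_eq with h2 | h2
    · omega
    · refine (b ?_).trans h2.le
      intro hn
      apply hn
      show ∑ i, F i e = 0
      rw [sum_eq_ncard, h2]; decide
  · intro a ha
    exact hF.span a fun i => ha (some i)
  · intro e
    rw [Fintype.sum_option]
    exact z_add_self _

theorem prim' {I : Type} [Fintype I] {F : I → Sym2 V → Z2} (hF : Fam G F) (C : Sym2 V → Z2)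
    (hC : ∀ e, C e ≠ 0 → e ∈ G.edgeSet) (hev : ∀ v, ∑ w, C s(v, w) = 0) :
    ∃ σ : I → Z2, ∀ e, C e = ∑ i, σ i * F i e := by
  have hmem : C ∈ Submodule.span Z2 (Set.range F) := by
    by_contra hn
    obtain ⟨φ, h1, h2⟩ := Submodule.exists_dual_map_eq_bot_of_notMem hn inferInstance
    have hφ : ∀ X : Sym2 V → Z2, φ X = ∑ e, X e * φ (Pi.single e 1) := by
      intro X
      conv_lhs => rw [pi_eq_sum_univ' X]
      rw [map_sum]
      exact sum_congr rfl fun e _ => by rw [map_smul, smul_eq_mul]
    obtain ⟨p, hp⟩ := hF.span (fun e => φ (Pi.single e 1)) fun i => by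
      rw [← hφ]
      have : φ (F i) ∈ (Submodule.span Z2 (Set.range F)).map φ :=
        Submodule.mem_map_of_mem (Submodule.subset_span ⟨i, rfl⟩)
      rw [h2] at this
      exact this
    apply h1
    rw [hφ, pair_cut hC hp]
    exact sum_eq_zero fun v _ => by rw [hev, mul_zero]
  obtain ⟨σ, hσ⟩ := (Submodule.mem_span_range_iff_exists_fun _).1 hmem
  refine ⟨σ, fun e => ?_⟩
  rw [← hσ, Finset.sum_apply]
  rfl

theorem bridge' {I : Type} [Fintype I] {F : I → Sym2 V → Z2} (hF : Fam G F)
    (hex : ∀ e, ∑ i, F i e = 0) (u v w : V) (hu : G.Adj v u) (hw : G.Adj v w) (huw : u ≠ w)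
    (hc : Conn G {v}ᶜ u w) : {i | F i s(v, u) ≠ 0}.ncard = 2 := by
  have h2 := hF.two s(v, u)
  have h0 := hex s(v, u)
  rw [sum_eq_ncard] at h0
  have h1 : {i | F i s(v, u) ≠ 0}.ncard ≠ 1 := by
    intro h; rw [h] at h0; exact absurd h0 (by decide)
  have h3 : {i | F i s(v, u) ≠ 0}.ncard ≠ 0 := by
    intro h
    rw [Set.ncard_eq_zero (Set.toFinite _)] at h
    obtain ⟨p, hp⟩ := hF.span (ind s(v, u)) fun i => by
      rw [sum_ind']
      by_contra hi
      have : i ∈ {i | F i s(v, u) ≠ 0} := hi
      rw [h] at this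
      exact this
    have e1 : p v + p u = 1 := by rw [← hp v u hu]; simp [ind]
    have e2 : p v + p w = 0 := by
      rw [← hp v w hw]
      simp only [ind, Sym2.eq_iff]
      rw [if_neg]
      rintro (⟨-, h⟩ | ⟨h, -⟩)
      · exact huw h.symm
      · exact hu.ne h
    have e3 : ∀ x, Conn G {v}ᶜ u x → p x = p u := by
      intro x hx
      induction hx with
      | refl => rfl
      | @tail b c _ h ih =>
        have := hp b c h.1
        have hz : ind s(v, u) s(b, c) = 0 := by
          simp only [ind, Sym2.eq_iff]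
          rw [if_neg]
          rintro (⟨h', -⟩ | ⟨-, h'⟩)
          · exact h.2.1 h'
          · exact h.2.2 h'
        rw [hz] at this
        rw [← ih]
        revert this
        generalize p b = s
        generalize p c = t
        revert s t
        decide
    rw [e3 w hc, e1] at e2
    exact absurd e2 (by decide)
  omega

theorem cut' {I : Type} [Fintype I] {F : I → Sym2 V → Z2} (hF : Fam G F) (i : I)
    (P : Sym2 V → Z2) (u w : V) (huw : u ≠ w) (hP : ∀ e, P e ≠ 0 → F i e ≠ 0)
    (hd : ∀ v, ∑ x, P s(v, x) = if v = u ∨ v = w then 1 else 0) :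
    Mac (G ⊔ SimpleGraph.edge u w) := by
  classical
  by_cases hadj : G.Adj u w
  · rw [SimpleGraph.sup_edge_of_adj _ hadj]
    exact ⟨I, inferInstance, F, hF⟩
  have hF0 : ∀ j, F j s(u, w) = 0 := fun j => by
    by_contra h
    exact hadj (hF.sub j _ h)
  have hP0 : P s(u, w) = 0 := by
    by_contra h
    exact hP _ h (hF0 i)
  have hPe : ∀ e, P e ≠ 0 → e ∈ G.edgeSet := fun e he => hF.sub i e (hP e he)
  set Q : Sym2 V → Z2 := fun e => P e + ind s(u, w) e with hQ
  have hnew : s(u, w) ∈ (G ⊔ SimpleGraph.edge u w).edgeSet := by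
    simp [SimpleGraph.edge_adj, huw]
  have hold : ∀ e ∈ G.edgeSet, e ∈ (G ⊔ SimpleGraph.edge u w).edgeSet :=
    fun e he => SimpleGraph.edgeSet_mono le_sup_left he
  have hQe : ∀ e, Q e ≠ 0 → e ∈ (G ⊔ SimpleGraph.edge u w).edgeSet := by
    intro e he
    by_cases h : e = s(u, w)
    · exact h ▸ hnew
    · refine hold e (hPe e ?_)
      simpa [hQ, ind, h] using he
  have hQv : ∀ v, ∑ x, Q s(v, x) = 0 := by
    intro v
    simp only [hQ]
    rw [sum_add_distrib, hd, deg_ind huw]
    exact z_add_self _
  refine ⟨Option I, inferInstance,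
    fun o => o.elim Q fun j e => F j e + if j = i then Q e else 0, ?_, ?_, ?_, ?_⟩
  · rintro (_ | j) e he
    · exact hQe e he
    · by_cases h : F j e = 0
      · refine hQe e ?_
        intro h'
        apply he
        simp [h, h']
      · exact hold e (hF.sub j e h)
  · rintro (_ | j) v
    · exact hQv v
    · show ∑ x, (F j s(v, x) + if j = i then Q s(v, x) else 0) = 0
      rw [sum_add_distrib, hF.even j v, zero_add]
      split_ifs
      · exact hQv v
      · simp
  · intro e
    by_cases he : e = s(u, w)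
    · obtain ⟨a, -⟩ := ncard_option
        {o : Option I | (o.elim Q fun j e => F j e + if j = i then Q e else 0 : Sym2 V → Z2) e ≠ 0}
        {i} fun j hj => by
          by_contra h
          apply hj
          have h' : j ≠ i := h
          simp [he, hF0, h']
      simpa using a
    have hQP : Q e = P e := by simp [hQ, ind, he]
    have h2 := hF.two e
    by_cases hp : P e = 0
    · obtain ⟨-, b⟩ := ncard_option
        {o : Option I | (o.elim Q fun j e => F j e + if j = i then Q e else 0 : Sym2 V → Z2) e ≠ 0}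
        {j | F j e ≠ 0} fun j hj => by
          intro h
          apply hj
          simp [h, hQP, hp]
      refine (b ?_).trans h2
      intro h
      exact h (hQP.trans hp)
    · obtain ⟨a, -⟩ := ncard_option
        {o : Option I | (o.elim Q fun j e => F j e + if j = i then Q e else 0 : Sym2 V → Z2) e ≠ 0}
        ({j | F j e ≠ 0} \ {i}) fun j hj => by
          by_cases hji : j = i
          · exfalso
            apply hj
            show F j e + (if j = i then Q e else 0) = 0
            rw [if_pos hji, hji, hQP, z_ne _ hp, z_ne _ (hP e hp)]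
            decide
          · refine ⟨fun h => hj ?_, hji⟩
            simp [h, hji]
      have := Set.ncard_sdiff_singleton_add_one (s := {j | F j e ≠ 0}) (a := i) (hP e hp)
      omega
  · intro a ha
    have hn : ∑ e, Q e * a e = 0 := ha none
    obtain ⟨p, hp⟩ := hF.span a fun j => by
      have : ∑ e, (F j e + if j = i then Q e else 0) * a e = 0 := ha (some j)
      simp only [add_mul, sum_add_distrib] at this
      by_cases hji : j = i
      · simpa [hji, hn] using this
      · simpa [hji] using this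
    have hnw : a s(u, w) = p u + p w := by
      simp only [hQ, add_mul, sum_add_distrib] at hn
      rw [sum_ind, pair_cut hPe hp] at hn
      have : ∑ v, p v * ∑ x, P s(v, x) = p u + p w := by
        simp only [hd, mul_ite, mul_one, mul_zero]
        rw [← sum_filter, ← sum_pair huw]
        congr 1
        ext x; simp
      rw [this] at hn
      revert hn
      generalize p u + p w = s
      generalize a s(u, w) = t
      revert s t
      decide
    refine ⟨p, fun x y hxy => ?_⟩
    rcases hxy with h | h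
    · exact hp x y h
    · rcases ((SimpleGraph.edge_adj ..).1 h).1 with ⟨rfl, rfl⟩ | ⟨rfl, rfl⟩
      · exact hnw
      · rw [Sym2.eq_swap, hnw, add_comm]

theorem ncard_eq_sum {I : Type} [Fintype I] (f : I → Z2) :
    {i | f i ≠ 0}.ncard = ∑ i, if f i ≠ 0 then 1 else 0 := by
  classical
  rw [← card_filter, ← Set.ncard_coe_finset]; congr 1; ext i; simp

theorem corner' (h : Mac G) (v : V) (N : Set V) (hN : N ⊆ G.neighborSet v)
    (hc : ∀ u ∈ N, ∃ w, G.Adj v w ∧ u ≠ w ∧ Conn G {v}ᶜ u w) (hd : dg G v < 2 * N.ncard) :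
    ∃ u ∈ N, ∃ w ∈ N, u ≠ w ∧ Mac (G ⊔ SimpleGraph.edge u w) := by
  classical
  obtain ⟨I, _, F, hF, hex⟩ := exact' h
  by_cases hi : ∃ i, ∃ u ∈ N, ∃ w ∈ N, u ≠ w ∧ F i s(v, u) ≠ 0 ∧ F i s(v, w) ≠ 0
  · obtain ⟨i, u, hu, w, hw, huw, h1, h2⟩ := hi
    have hvu : v ≠ u := (hN hu).ne
    have hvw : v ≠ w := (hN hw).ne
    refine ⟨u, hu, w, hw, huw, cut' hF i (fun e => ind s(v, u) e + ind s(v, w) e) u w huw ?_ ?_⟩
    · intro e he
      by_cases e1 : e = s(v, u)
      · exact e1 ▸ h1
      by_cases e2 : e = s(v, w)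
      · exact e2 ▸ h2
      · exact absurd (by simp [ind, e1, e2]) he
    · intro y
      rw [sum_add_distrib, deg_ind hvu, deg_ind hvw]
      by_cases a1 : y = v
      · subst a1
        rw [if_pos (Or.inl rfl), if_pos (Or.inl rfl), if_neg (by tauto)]
        decide
      by_cases a2 : y = u
      · subst a2
        rw [if_pos (Or.inr rfl), if_neg (by tauto), if_pos (Or.inl rfl), add_zero]
      by_cases a3 : y = w
      · subst a3
        rw [if_neg (by tauto), if_pos (Or.inr rfl), if_pos (Or.inr rfl), zero_add]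
      · rw [if_neg (by tauto), if_neg (by tauto), if_neg (by tauto), add_zero]
  exfalso
  push Not at hi
  set A : Finset V := univ.filter (· ∈ N) with hA
  set B : Finset V := univ.filter (fun x => G.Adj v x ∧ x ∉ N) with hB
  have cA : A.card = N.ncard := by
    rw [← Set.ncard_coe_finset]; congr 1; ext x; simp [hA]
  have cB : A.card + B.card = dg G v := by
    rw [← card_union_of_disjoint]
    · unfold dg
      rw [← Set.ncard_coe_finset]; congr 1; ext x
      simp only [hA, hB, coe_union, coe_filter, mem_univ, true_and, Set.mem_union,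
        Set.mem_ofPred_eq, SimpleGraph.mem_neighborSet]
      constructor
      · rintro (h | h)
        · exact hN h
        · exact h.1
      · intro h
        by_cases hx : x ∈ N
        · exact Or.inl hx
        · exact Or.inr ⟨h, hx⟩
    · rw [disjoint_left]
      intro x h1 h2
      exact (mem_filter.1 h2).2.2 (mem_filter.1 h1).2
  have s1 : ∑ u ∈ A, {i | F i s(v, u) ≠ 0}.ncard = 2 * A.card := by
    rw [sum_congr rfl (g := fun _ => 2), sum_const, smul_eq_mul, mul_comm]
    intro u hu
    have hu' : u ∈ N := (mem_filter.1 hu).2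
    obtain ⟨w, h1, h2, h3⟩ := hc u hu'
    exact bridge' hF hex u v w (hN hu') h1 h2 h3
  have s2 : ∑ u ∈ B, {i | F i s(v, u) ≠ 0}.ncard ≤ 2 * B.card := by
    rw [mul_comm, ← smul_eq_mul, ← sum_const]
    exact sum_le_sum fun u _ => hF.two _
  have s3 : ∑ u ∈ A, {i | F i s(v, u) ≠ 0}.ncard ≤ ∑ u ∈ B, {i | F i s(v, u) ≠ 0}.ncard := by
    simp only [ncard_eq_sum]
    rw [sum_comm, sum_comm (s := B)]
    refine sum_le_sum fun i _ => ?_
    by_cases h0 : ∃ u ∈ N, F i s(v, u) ≠ 0
    · obtain ⟨u, hu, h1⟩ := h0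
      have e1 : ∑ x ∈ A, (if F i s(v, x) ≠ 0 then 1 else 0) = 1 := by
        rw [sum_eq_single u, if_pos h1]
        · intro x hx hxu
          rw [if_neg]
          exact not_not.2 (hi i u hu x (mem_filter.1 hx).2 (Ne.symm hxu) h1)
        · intro hu'
          exact absurd (mem_filter.2 ⟨mem_univ _, hu⟩) hu'
      obtain ⟨x, hxu, hx⟩ : ∃ x, x ≠ u ∧ F i s(v, x) ≠ 0 := by
        by_contra hn
        push Not at hn
        have := hF.even i v
        rw [sum_eq_single u (fun x _ hx => hn x hx) (by simp)] at this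
        exact h1 this
      have hxB : x ∈ B := by
        refine mem_filter.2 ⟨mem_univ _, hF.sub i _ hx, fun hxN => hx ?_⟩
        exact hi i u hu x hxN (Ne.symm hxu) h1
      rw [e1]
      refine le_trans ?_ (single_le_sum (f := fun x => if F i s(v, x) ≠ 0 then 1 else 0)
        (fun _ _ => Nat.zero_le _) hxB)
      simp [hx]
    · push Not at h0
      rw [sum_eq_zero]
      · exact Nat.zero_le _
      · intro x hx
        simp [h0 x (mem_filter.1 hx).2]
  omega

/-- A nonzero even edge set has at least three edges. -/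
theorem three_le {C : Sym2 V → Z2} (hC : ∀ e, C e ≠ 0 → e ∈ G.edgeSet)
    (hev : ∀ v, ∑ w, C s(v, w) = 0) (hne : C ≠ 0) : 3 ≤ {e | C e ≠ 0}.ncard := by
  have other : ∀ u v, C s(u, v) ≠ 0 → ∃ x, x ≠ v ∧ C s(u, x) ≠ 0 := by
    intro u v h
    by_contra hn
    push Not at hn
    have := hev u
    rw [sum_eq_single v (fun x _ hx => hn x hx) (by simp)] at this
    exact h this
  obtain ⟨e, he⟩ := Function.ne_iff.1 hne
  induction e using Sym2.ind with
  | h u v =>
    have he : C s(u, v) ≠ 0 := he
    obtain ⟨x, hx, h1⟩ := other u v he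
    obtain ⟨y, hy, h2⟩ := other v u (Sym2.eq_swap (a := u) (b := v) ▸ he)
    have a1 : u ≠ v := SimpleGraph.Adj.ne (hC _ he)
    have a2 : u ≠ x := SimpleGraph.Adj.ne (hC _ h1)
    have a3 : v ≠ y := SimpleGraph.Adj.ne (hC _ h2)
    have : ({s(u, v), s(u, x), s(v, y)} : Set (Sym2 V)).ncard = 3 := by
      rw [Set.ncard_eq_three]
      refine ⟨_, _, _, ?_, ?_, ?_, rfl⟩
      · rw [Ne, Sym2.eq_iff]; tauto
      · rw [Ne, Sym2.eq_iff]; tauto
      · rw [Ne, Sym2.eq_iff]; tauto
    rw [← this]
    refine Set.ncard_le_ncard ?_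
    rintro e (rfl | rfl | rfl)
    exacts [he, h1, h2]

theorem rank_lt {A B : Type} [Fintype A] [AddCommGroup B] [Module Z2 B]
    (f : (A → Z2) →ₗ[Z2] B) (x : A → Z2) (hx : x ≠ 0) (h0 : f x = 0) :
    Module.finrank Z2 (LinearMap.range f) + 1 ≤ Fintype.card A := by
  have h := LinearMap.finrank_range_add_finrank_ker f
  rw [Module.finrank_fintype_fun_eq_card] at h
  have : 0 < Module.finrank Z2 (LinearMap.ker f) := by
    rw [Module.finrank_pos_iff_exists_ne_zero]
    exact ⟨⟨x, h0⟩, fun h => hx (congrArg Subtype.val h)⟩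
  omega

theorem euler' (h : Mac G) (hV : 3 ≤ Fintype.card V) :
    G.edgeSet.ncard + 6 ≤ 3 * Fintype.card V := by
  classical
  obtain ⟨I, _, F, hF, hex⟩ := exact' h
  set E := G.edgeSet with hE
  have cE : Fintype.card E = E.ncard := by
    rw [← Nat.card_coe_set_eq, Nat.card_eq_fintype_card]
  let J := {i : I // F i ≠ 0}
  have sumE : ∀ g : Sym2 V → Z2, (∀ e, e ∉ E → g e = 0) → ∑ e, g e = ∑ e : E, g e := by
    intro g hg
    rw [← sum_subset (subset_univ E.toFinset) (fun e _ he => hg e (by simpa using he))]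
    exact sum_subtype _ (fun x => Set.mem_toFinset) _
  -- counting
  have c1 : 3 * Fintype.card J ≤ 2 * E.ncard := by
    have a1 : 3 * Fintype.card J ≤ ∑ i, {e | F i e ≠ 0}.ncard := by
      rw [Fintype.card_subtype, mul_comm, ← smul_eq_mul, ← sum_const]
      refine le_trans (sum_le_sum fun i hi => three_le (hF.sub i) (hF.even i) (mem_filter.1 hi).2)
        (sum_le_sum_of_subset (subset_univ _))
    have a2 : ∑ i, {e | F i e ≠ 0}.ncard = ∑ e, {i | F i e ≠ 0}.ncard := by
      simp only [ncard_eq_sum]
      exact sum_comm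
    have a3 : ∑ e, {i | F i e ≠ 0}.ncard ≤ 2 * E.ncard := by
      rw [← sum_subset (subset_univ E.toFinset), Set.ncard_eq_toFinset_card', mul_comm,
        ← smul_eq_mul, ← sum_const]
      · exact sum_le_sum fun e _ => hF.two e
      · intro e _ he
        rw [Set.ncard_eq_zero (Set.toFinite _), Set.eq_empty_iff_forall_notMem]
        intro i hi
        exact he (Set.mem_toFinset.2 (hF.sub i e hi))
    omega
  let Φ : (E → Z2) →ₗ[Z2] (J → Z2) :=
    { toFun := fun a i => ∑ e : E, F i e * a e
      map_add' := fun a b => by ext i; simp [mul_add, sum_add_distrib]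
      map_smul' := fun c a => by ext i; simp [mul_sum, mul_left_comm] }
  let δ : (V → Z2) →ₗ[Z2] (E → Z2) :=
    { toFun := fun p e => cob p e
      map_add' := fun a b => by
        ext ⟨e, he⟩
        induction e using Sym2.ind with
        | h u v => simp only [cob_mk, Pi.add_apply]; ring
      map_smul' := fun c a => by
        ext ⟨e, he⟩
        induction e using Sym2.ind with
        | h u v => simp only [cob_mk, Pi.smul_apply, smul_eq_mul, RingHom.id_apply]; ring }
  have k1 : LinearMap.ker Φ ≤ LinearMap.range δ := by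
    intro a ha
    obtain ⟨p, hp⟩ := hF.span (fun e => if h : e ∈ E then a ⟨e, h⟩ else 0) fun i => by
      by_cases hi : F i = 0
      · simp [hi]
      · rw [sumE _ fun e he => by simp [he]]
        have : Φ a ⟨i, hi⟩ = 0 := by rw [LinearMap.mem_ker.1 ha]; rfl
        rw [← this]
        exact sum_congr rfl fun e _ => by simp
    refine ⟨p, ?_⟩
    ext ⟨e, he⟩
    induction e using Sym2.ind with
    | h u v =>
      have := hp u v he
      rw [dif_pos he] at this
      exact this.symm
  have k2 : Module.finrank Z2 (LinearMap.range δ) + 1 ≤ Fintype.card V := by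
    obtain ⟨v⟩ : Nonempty V := Fintype.card_pos_iff.1 (by omega)
    refine rank_lt δ (fun _ => 1) (fun h => ?_) ?_
    · exact one_ne_zero (congrFun h v)
    · ext ⟨e, he⟩
      induction e using Sym2.ind with
      | h u v => exact z_add_self 1
  have k3 := LinearMap.finrank_range_add_finrank_ker Φ
  rw [Module.finrank_fintype_fun_eq_card, cE] at k3
  have k4 := Submodule.finrank_mono k1
  rcases isEmpty_or_nonempty J with hJ | ⟨⟨j⟩⟩
  · have := Submodule.finrank_le (LinearMap.range Φ)
    rw [Module.finrank_fintype_fun_eq_card, Fintype.card_eq_zero] at this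
    omega
  · let σ : (J → Z2) →ₗ[Z2] Z2 :=
      { toFun := fun b => ∑ i, b i
        map_add' := fun a b => by simp [sum_add_distrib]
        map_smul' := fun c a => by simp [mul_sum] }
    have k5 : LinearMap.range Φ ≤ LinearMap.ker σ := by
      rintro _ ⟨a, rfl⟩
      show ∑ i : J, ∑ e : E, F i e * a e = 0
      rw [sum_comm]
      refine sum_eq_zero fun e _ => ?_
      rw [← sum_mul]
      have : ∑ i : J, F i e = ∑ i, F i e := by
        rw [← sum_subset (subset_univ (univ.filter fun i => F i ≠ 0))]
        · exact (sum_subtype _ (by simp) fun i => F i e).symm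
        · intro i _ hi
          have : F i = 0 := by simpa using hi
          simp [this]
      rw [this, hex, zero_mul]
    have k6 := LinearMap.finrank_range_add_finrank_ker σ
    rw [Module.finrank_fintype_fun_eq_card] at k6
    have k7 : 0 < Module.finrank Z2 (LinearMap.range σ) := by
      rw [Module.finrank_pos_iff_exists_ne_zero]
      refine ⟨⟨σ (Pi.single j 1), _, rfl⟩, fun h => ?_⟩
      have : σ (Pi.single j 1) = 0 := congrArg Subtype.val h
      simp [σ] at this
    have k8 := Submodule.finrank_mono k5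
    omega

end FamAux

theorem fam : StmtFAM where
  exact _ _ _ _ h := FamAux.exact' h
  euler _ _ _ _ h hV := FamAux.euler' h hV
  prim _ _ _ _ _ _ _ hF C hC hev := FamAux.prim' hF C hC hev
  bridge _ _ _ _ _ _ _ hF hex u v w hu hw huw hc := FamAux.bridge' hF hex u v w hu hw huw hc
  cut _ _ _ _ _ _ _ hF i P u w huw hP hd := FamAux.cut' hF i P u w huw hP hd
  corner _ _ _ _ h v N hN hc hd := FamAux.corner' h v N hN hc hd

end Pool.Agent.MP_31805c_co.H47
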