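import Pool.Agent.MP_31805c_co.H47.SpecA

/-! The finite part of the theorem of Birkhoff on short cycles. -/

namespace Pool.Agent.MP_31805c_co.H47

namespace FIN

set_option synthInstance.maxSize 100000
set_option synthInstance.maxHeartbeats 400000
set_option maxRecDepth 100000

/-- A shear of the four group. -/
def sh : K4 ≃+ K4 where
  toFun p := (p.1, p.1 + p.2)
  invFun p := (p.1, p.1 + p.2)
  left_inv := by decide
  right_inv := by decide
  map_add' := by decide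

/-- The six automorphisms of the four group. -/
def gg : Fin 6 → K4 → K4 :=
  ![fun p => p, fun p => (p.1, p.1 + p.2), fun p => (p.2, p.1), fun p => (p.1 + p.2, p.1),
    fun p => (p.2, p.1 + p.2), fun p => (p.1 + p.2, p.2)]

variable {r : ℕ} {X : Set (ℕ → K4)}

theorem tr (h : Cons r X) {x y : ℕ → K4} (hx : x ∈ X) (g : Fin 6) (e : ∀ t < r, y t = gg g (x t)) :
    y ∈ X := by
  have s := fun x hx => h.perm x hx sh
  have w := fun x hx => h.perm x hx AddEquiv.prodComm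
  refine h.loc (fun t => gg g (x t)) ?_ y e
  fin_cases g
  · exact hx
  · exact s _ hx
  · exact w _ hx
  · exact w _ (s _ hx)
  · exact h.loc _ (s _ (w _ hx)) _ fun t _ => by
      generalize x t = p; revert p; decide
  · exact h.loc _ (w _ (s _ (w _ hx))) _ fun t _ => by
      generalize x t = p; revert p; decide

/-- The switch at two positions. -/
def sw (x : ℕ → K4) (u v : ℕ) : ℕ → K4 := fun t => x t + (0, if t = u ∨ t = v then 1 else 0)

theorem kem4 (h : Cons r X) {x : ℕ → K4} (hx : x ∈ X) (a b c d : ℕ) (ab : a < b) (bc : b < c)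
    (cd : c < d) (dr : d < r) (e : ∀ t < r, (x t).1 ≠ 0 ↔ t = a ∨ t = b ∨ t = c ∨ t = d) :
    sw x a b ∈ X ∨ sw x b c ∈ X := by
  obtain ⟨μ, hμ, hJ⟩ := h.kem x hx
  have hS : ∀ t, t ∈ supp r x ↔ t = a ∨ t = b ∨ t = c ∨ t = d := fun t =>
    ⟨fun ht => (e t ht.1).1 ht.2, fun ht => ⟨by omega, (e t (by omega)).2 ht⟩⟩
  have key : ∀ u v, u ∈ supp r x → v ∈ supp r x → μ u = v → μ v = u → sw x u v ∈ X := by
    intro u v hu hv h1 h2
    refine hJ (fun t => if t = u ∨ t = v then 1 else 0) (fun t ht => if_neg ?_) fun t ht => ?_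
    · rintro (rfl | rfl) <;> contradiction
    · have := hμ.inv t ht
      refine if_congr ⟨?_, ?_⟩ rfl rfl
      · rintro (h' | h') <;> rw [h'] at this <;> omega
      · rintro (rfl | rfl) <;> omega
  have ha := (hS a).2 (by omega)
  have hb := (hS b).2 (by omega)
  have i1 := hμ.inv b hb
  have i0 := hμ.inv a ha
  rcases (hS _).1 (hμ.mem b hb) with h1 | h1 | h1 | h1
  · rw [h1] at i1
    exact Or.inl (key a b ha hb i1 h1)
  · exact absurd h1 (hμ.ne b hb)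
  · rw [h1] at i1
    exact Or.inr (key b c hb ((hS c).2 (by omega)) h1 i1)
  · rw [h1] at i1
    have n := hμ.nc a ha b hb ab
    rcases (hS _).1 (hμ.mem a ha) with h2 | h2 | h2 | h2
    · exact absurd h2 (hμ.ne a ha)
    · rw [h2] at i0; omega
    · omega
    · rw [h2] at i0; omega

/-- Representatives for the square. -/
def r4 (k : Fin 4) (t : ℕ) : K4 :=
  if t = 0 ∨ k = 0 ∨ (t = k ∧ t < 4) then (1, 0) else (1, 1)

theorem nrm4 : ∀ a b c d : K4, a ≠ 0 → b ≠ 0 → c ≠ 0 → d ≠ 0 → a + b + c + d = 0 →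
    ∃ k g, r4 k 0 = gg g a ∧ r4 k 1 = gg g b ∧ r4 k 2 = gg g c ∧ r4 k 3 = gg g d := by
  decide +kernel

theorem ginj : ∀ g a b, gg g a = gg g b ↔ a = b := by decide +kernel

theorem cls4 (h : Cons 4 X) {x : ℕ → K4} (hx : x ∈ X) :
    ∃ k, r4 k ∈ X ∧ ∀ s < 4, ∀ t < 4, (x s = x t ↔ r4 k s = r4 k t) := by
  have hs := h.sum x hx
  simp only [Finset.sum_range_succ, Finset.sum_range_zero, zero_add] at hs
  obtain ⟨k, g, e0, e1, e2, e3⟩ := nrm4 _ _ _ _ (h.ne x hx 0 (by omega)) (h.ne x hx 1 (by omega))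
    (h.ne x hx 2 (by omega)) (h.ne x hx 3 (by omega)) hs
  have e : ∀ t < 4, r4 k t = gg g (x t) := fun t ht => by interval_cases t <;> assumption
  exact ⟨k, tr h hx g e, fun s hs t ht => by rw [e s hs, e t ht, ginj]⟩

theorem g4 (h : Cons 4 X) (p : PP 4 X) : (r4 0 ∈ X ∨ r4 1 ∈ X) ∧ (r4 0 ∈ X ∨ r4 3 ∈ X) ∧
    (r4 2 ∈ X ∨ r4 1 ∈ X) ∧ (r4 2 ∈ X ∨ r4 3 ∈ X) ∧ (r4 0 ∈ X → r4 1 ∈ X ∨ r4 3 ∈ X) ∧
    (r4 1 ∈ X → r4 0 ∈ X ∨ r4 2 ∈ X) := by
  refine ⟨?_, ?_, ?_, ?_, fun hx => ?_, fun hx => ?_⟩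
  · obtain ⟨x, hx, e⟩ := p.1 0 (by omega)
    obtain ⟨k, hk, c⟩ := cls4 h hx
    rw [c _ (by omega) _ (by omega)] at e
    fin_cases k <;> first | exact absurd e (by decide) | exact Or.inl hk | exact Or.inr hk
  · obtain ⟨x, hx, e⟩ := p.1 1 (by omega)
    obtain ⟨k, hk, c⟩ := cls4 h hx
    rw [c _ (by omega) _ (by omega)] at e
    fin_cases k <;> first | exact absurd e (by decide) | exact Or.inl hk | exact Or.inr hk
  · obtain ⟨x, hx, e, -⟩ := p.2 1 (by omega)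
    obtain ⟨k, hk, c⟩ := cls4 h hx
    rw [Ne, c _ (by omega) _ (by omega)] at e
    fin_cases k <;> first | exact absurd e (by decide) | exact Or.inl hk | exact Or.inr hk
  · obtain ⟨x, hx, e, -⟩ := p.2 0 (by omega)
    obtain ⟨k, hk, c⟩ := cls4 h hx
    rw [Ne, c _ (by omega) _ (by omega)] at e
    fin_cases k <;> first | exact absurd e (by decide) | exact Or.inl hk | exact Or.inr hk
  · exact (kem4 h hx 0 1 2 3 (by omega) (by omega) (by omega) (by omega) (by decide)).imp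
      (fun y => tr h y 1 (by decide)) fun y => tr h y 0 (by decide)
  · exact (kem4 h hx 0 1 2 3 (by omega) (by omega) (by omega) (by omega) (by decide)).imp
      (fun y => tr h y 1 (by decide)) fun y => tr h y 0 (by decide)

theorem core4 {a b c d a' b' c' d' : Prop}
    (h : (a ∨ b) ∧ (a ∨ d) ∧ (c ∨ b) ∧ (c ∨ d) ∧ (a → b ∨ d) ∧ (b → a ∨ c))
    (h' : (a' ∨ b') ∧ (a' ∨ d') ∧ (c' ∨ b') ∧ (c' ∨ d') ∧ (a' → b' ∨ d') ∧ (b' → a' ∨ c')) :
    (a ∧ a') ∨ (b ∧ b') ∨ (c ∧ c') ∨ (d ∧ d') := by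
  grind

/-- The conditions on the ten classes for the pentagon. -/
def G (p0 p1 p2 p3 p4 p5 p6 p7 p8 p9 : Prop) : Prop :=
  (p0 → p1 ∨ p3) ∧
    (p1 → p0 ∨ p2) ∧
    (p2 → p3 ∨ p1) ∧
    (p3 → p2 ∨ p0) ∧
    (p0 → p4 ∨ p6) ∧
    (p4 → p0 ∨ p5) ∧
    (p5 → p6 ∨ p4) ∧
    (p6 → p5 ∨ p0) ∧
    (p1 → p4 ∨ p8) ∧
    (p4 → p1 ∨ p7) ∧
    (p7 → p8 ∨ p4) ∧
    (p8 → p7 ∨ p1) ∧
    (p2 → p5 ∨ p9) ∧
    (p5 → p2 ∨ p7) ∧
    (p7 → p9 ∨ p5) ∧
    (p9 → p7 ∨ p2) ∧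
    (p3 → p6 ∨ p9) ∧
    (p6 → p3 ∨ p8) ∧
    (p8 → p9 ∨ p6) ∧
    (p9 → p8 ∨ p3) ∧
    (p7 ∨ p8 ∨ p9) ∧
    (p2 ∨ p3 ∨ p9) ∧
    (p0 ∨ p3 ∨ p6) ∧
    (p0 ∨ p1 ∨ p4) ∧
    (p4 ∨ p5 ∨ p7) ∧
    (p2 ∨ p3 ∨ p5 ∨ p6) ∧
    (p0 ∨ p1 ∨ p6 ∨ p8) ∧
    (p1 ∨ p2 ∨ p4 ∨ p5) ∧
    (p5 ∨ p6 ∨ p7 ∨ p8) ∧
    (p1 ∨ p2 ∨ p8 ∨ p9) ∧
    (p0 ∨ p3 ∨ p4 ∨ p7 ∨ p9)

theorem coreB : ∀ p0 p1 p2 p3 p4 p5 p6 p7 p8 p9 : Bool, G p0 p1 p2 p3 p4 p5 p6 p7 p8 p9 →
    ∀ q0 q1 q2 q3 q4 q5 q6 q7 q8 q9 : Bool, G q0 q1 q2 q3 q4 q5 q6 q7 q8 q9 →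
    (p0 ∧ q0) ∨ (p1 ∧ q1) ∨ (p2 ∧ q2) ∨ (p3 ∧ q3) ∨ (p4 ∧ q4) ∨ (p5 ∧ q5) ∨ (p6 ∧ q6) ∨ (p7 ∧ q7) ∨ (p8 ∧ q8) ∨ (p9 ∧ q9) := by
  unfold G
  decide +kernel

theorem core {p0 p1 p2 p3 p4 p5 p6 p7 p8 p9 q0 q1 q2 q3 q4 q5 q6 q7 q8 q9 : Prop} (hp : G p0 p1 p2 p3 p4 p5 p6 p7 p8 p9) (hq : G q0 q1 q2 q3 q4 q5 q6 q7 q8 q9) :
    (p0 ∧ q0) ∨ (p1 ∧ q1) ∨ (p2 ∧ q2) ∨ (p3 ∧ q3) ∨ (p4 ∧ q4) ∨ (p5 ∧ q5) ∨ (p6 ∧ q6) ∨ (p7 ∧ q7) ∨ (p8 ∧ q8) ∨ (p9 ∧ q9) := by
  classical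
  have := coreB (decide p0) (decide p1) (decide p2) (decide p3) (decide p4) (decide p5) (decide p6) (decide p7) (decide p8) (decide p9)
  simp only [decide_eq_true_eq] at this
  have := this hp (decide q0) (decide q1) (decide q2) (decide q3) (decide q4) (decide q5) (decide q6) (decide q7) (decide q8) (decide q9)
  simp only [decide_eq_true_eq] at this
  exact this hq

/-- The colouring with singletons at the positions `i` and `j`. -/
def rep (i j t : ℕ) : K4 := if t = i then (0, 1) else if t = j then (1, 1) else (1, 0)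

/-- Representatives for the pentagon. -/
def rp : Fin 10 → ℕ → K4 :=
  ![rep 0 1, rep 0 2, rep 0 3, rep 0 4, rep 1 2, rep 1 3, rep 1 4, rep 2 3, rep 2 4, rep 3 4]

theorem nrm5 : ∀ a b c d e : K4, a ≠ 0 → b ≠ 0 → c ≠ 0 → d ≠ 0 → e ≠ 0 → a + b + c + d + e = 0 →
    ∃ k g, rp k 0 = gg g a ∧ rp k 1 = gg g b ∧ rp k 2 = gg g c ∧ rp k 3 = gg g d ∧
      rp k 4 = gg g e := by
  decide +kernel

theorem cls5 (h : Cons 5 X) {x : ℕ → K4} (hx : x ∈ X) :
    ∃ k, rp k ∈ X ∧ ∀ s < 5, ∀ t < 5, (x s = x t ↔ rp k s = rp k t) := by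
  have hs := h.sum x hx
  simp only [Finset.sum_range_succ, Finset.sum_range_zero, zero_add] at hs
  obtain ⟨k, g, e0, e1, e2, e3, e4⟩ := nrm5 _ _ _ _ _ (h.ne x hx 0 (by omega))
    (h.ne x hx 1 (by omega)) (h.ne x hx 2 (by omega)) (h.ne x hx 3 (by omega))
    (h.ne x hx 4 (by omega)) hs
  have e : ∀ t < 5, rp k t = gg g (x t) := fun t ht => by interval_cases t <;> assumption
  exact ⟨k, tr h hx g e, fun s hs t ht => by rw [e s hs, e t ht, ginj]⟩

theorem pick {Q : Fin 10 → Prop} [DecidablePred Q] (h : ∃ k, rp k ∈ X ∧ Q k) (l : List (Fin 10))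
    (hl : ∀ k, Q k → k ∈ l) : ∃ k ∈ l, rp k ∈ X :=
  let ⟨k, h1, h2⟩ := h
  ⟨k, hl k h2, h1⟩

theorem g5 (h : Cons 5 X) (p : PP 5 X) (q : P3 X) :
    G (rp 0 ∈ X) (rp 1 ∈ X) (rp 2 ∈ X) (rp 3 ∈ X) (rp 4 ∈ X) (rp 5 ∈ X) (rp 6 ∈ X) (rp 7 ∈ X) (rp 8 ∈ X) (rp 9 ∈ X) := by
  have p1 : ∀ i < 5, ∃ k, rp k ∈ X ∧ rp k i = rp k ((i + 1) % 5) := fun i hi => by
    obtain ⟨x, hx, e⟩ := p.1 i hi
    obtain ⟨k, hk, c⟩ := cls5 h hx
    exact ⟨k, hk, (c _ hi _ (by omega)).1 e⟩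
  have p2 : ∀ i < 5, ∃ k, rp k ∈ X ∧ (rp k i ≠ rp k ((i + 1) % 5) ∧
      rp k ((i + 5 - 1) % 5) ≠ rp k ((i + 5 - 2) % 5)) := fun i hi => by
    obtain ⟨x, hx, e, e'⟩ := p.2 i hi
    obtain ⟨k, hk, c⟩ := cls5 h hx
    exact ⟨k, hk, (c _ hi _ (by omega)).not.1 e, (c _ (by omega) _ (by omega)).not.1 e'⟩
  have p3 : ∃ k, rp k ∈ X ∧ ∃ i < 5, rp k i = rp k ((i + 1) % 5) ∧ rp k i = rp k ((i + 2) % 5) := by
    obtain ⟨x, hx, i, hi, e, e'⟩ := q
    obtain ⟨k, hk, c⟩ := cls5 h hx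
    exact ⟨k, hk, i, hi, (c _ hi _ (by omega)).1 e, (c _ hi _ (by omega)).1 e'⟩
  refine ⟨fun hx => ?_, fun hx => ?_, fun hx => ?_, fun hx => ?_, fun hx => ?_, fun hx => ?_, fun hx => ?_, fun hx => ?_, fun hx => ?_, fun hx => ?_, fun hx => ?_, fun hx => ?_, fun hx => ?_, fun hx => ?_, fun hx => ?_, fun hx => ?_, fun hx => ?_, fun hx => ?_, fun hx => ?_, fun hx => ?_, ?_, ?_, ?_, ?_, ?_, ?_, ?_, ?_, ?_, ?_, ?_⟩
  · exact (kem4 h (tr h (y := rep 0 1) hx 0 (by decide)) 1 2 3 4 (by omega) (by omega) (by omega)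
      (by omega) (by decide)).imp (fun y => tr h y 0 (by decide)) fun y => tr h y 1 (by decide)
  · exact (kem4 h (tr h (y := rep 0 2) hx 0 (by decide)) 1 2 3 4 (by omega) (by omega) (by omega)
      (by omega) (by decide)).imp (fun y => tr h y 0 (by decide)) fun y => tr h y 0 (by decide)
  · exact (kem4 h (tr h (y := rep 0 3) hx 0 (by decide)) 1 2 3 4 (by omega) (by omega) (by omega)
      (by omega) (by decide)).imp (fun y => tr h y 1 (by decide)) fun y => tr h y 0 (by decide)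
  · exact (kem4 h (tr h (y := rep 0 4) hx 0 (by decide)) 1 2 3 4 (by omega) (by omega) (by omega)
      (by omega) (by decide)).imp (fun y => tr h y 1 (by decide)) fun y => tr h y 1 (by decide)
  · exact (kem4 h (tr h (y := rep 1 0) hx 5 (by decide)) 0 2 3 4 (by omega) (by omega) (by omega)
      (by omega) (by decide)).imp (fun y => tr h y 0 (by decide)) fun y => tr h y 1 (by decide)
  · exact (kem4 h (tr h (y := rep 1 2) hx 0 (by decide)) 0 2 3 4 (by omega) (by omega) (by omega)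
      (by omega) (by decide)).imp (fun y => tr h y 5 (by decide)) fun y => tr h y 0 (by decide)
  · exact (kem4 h (tr h (y := rep 1 3) hx 0 (by decide)) 0 2 3 4 (by omega) (by omega) (by omega)
      (by omega) (by decide)).imp (fun y => tr h y 1 (by decide)) fun y => tr h y 0 (by decide)
  · exact (kem4 h (tr h (y := rep 1 4) hx 0 (by decide)) 0 2 3 4 (by omega) (by omega) (by omega)
      (by omega) (by decide)).imp (fun y => tr h y 1 (by decide)) fun y => tr h y 4 (by decide)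
  · exact (kem4 h (tr h (y := rep 2 0) hx 5 (by decide)) 0 1 3 4 (by omega) (by omega) (by omega)
      (by omega) (by decide)).imp (fun y => tr h y 5 (by decide)) fun y => tr h y 1 (by decide)
  · exact (kem4 h (tr h (y := rep 2 1) hx 5 (by decide)) 0 1 3 4 (by omega) (by omega) (by omega)
      (by omega) (by decide)).imp (fun y => tr h y 5 (by decide)) fun y => tr h y 0 (by decide)
  · exact (kem4 h (tr h (y := rep 2 3) hx 0 (by decide)) 0 1 3 4 (by omega) (by omega) (by omega)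
      (by omega) (by decide)).imp (fun y => tr h y 1 (by decide)) fun y => tr h y 5 (by decide)
  · exact (kem4 h (tr h (y := rep 2 4) hx 0 (by decide)) 0 1 3 4 (by omega) (by omega) (by omega)
      (by omega) (by decide)).imp (fun y => tr h y 1 (by decide)) fun y => tr h y 4 (by decide)
  · exact (kem4 h (tr h (y := rep 3 0) hx 5 (by decide)) 0 1 2 4 (by omega) (by omega) (by omega)
      (by omega) (by decide)).imp (fun y => tr h y 5 (by decide)) fun y => tr h y 1 (by decide)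
  · exact (kem4 h (tr h (y := rep 3 1) hx 5 (by decide)) 0 1 2 4 (by omega) (by omega) (by omega)
      (by omega) (by decide)).imp (fun y => tr h y 5 (by decide)) fun y => tr h y 5 (by decide)
  · exact (kem4 h (tr h (y := rep 3 2) hx 5 (by decide)) 0 1 2 4 (by omega) (by omega) (by omega)
      (by omega) (by decide)).imp (fun y => tr h y 1 (by decide)) fun y => tr h y 5 (by decide)
  · exact (kem4 h (tr h (y := rep 3 4) hx 0 (by decide)) 0 1 2 4 (by omega) (by omega) (by omega)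
      (by omega) (by decide)).imp (fun y => tr h y 4 (by decide)) fun y => tr h y 4 (by decide)
  · exact (kem4 h (tr h (y := rep 4 0) hx 5 (by decide)) 0 1 2 3 (by omega) (by omega) (by omega)
      (by omega) (by decide)).imp (fun y => tr h y 5 (by decide)) fun y => tr h y 4 (by decide)
  · exact (kem4 h (tr h (y := rep 4 1) hx 5 (by decide)) 0 1 2 3 (by omega) (by omega) (by omega)
      (by omega) (by decide)).imp (fun y => tr h y 5 (by decide)) fun y => tr h y 5 (by decide)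
  · exact (kem4 h (tr h (y := rep 4 2) hx 5 (by decide)) 0 1 2 3 (by omega) (by omega) (by omega)
      (by omega) (by decide)).imp (fun y => tr h y 4 (by decide)) fun y => tr h y 5 (by decide)
  · exact (kem4 h (tr h (y := rep 4 3) hx 5 (by decide)) 0 1 2 3 (by omega) (by omega) (by omega)
      (by omega) (by decide)).imp (fun y => tr h y 4 (by decide)) fun y => tr h y 4 (by decide)
  · simpa using pick (p1 0 (by omega)) [7, 8, 9] (by decide)
  · simpa using pick (p1 1 (by omega)) [2, 3, 9] (by decide)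
  · simpa using pick (p1 2 (by omega)) [0, 3, 6] (by decide)
  · simpa using pick (p1 3 (by omega)) [0, 1, 4] (by decide)
  · simpa using pick (p1 4 (by omega)) [4, 5, 7] (by decide)
  · simpa using pick (p2 0 (by omega)) [2, 3, 5, 6] (by decide)
  · simpa using pick (p2 1 (by omega)) [0, 1, 6, 8] (by decide)
  · simpa using pick (p2 2 (by omega)) [1, 2, 4, 5] (by decide)
  · simpa using pick (p2 3 (by omega)) [5, 6, 7, 8] (by decide)
  · simpa using pick (p2 4 (by omega)) [1, 2, 8, 9] (by decide)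
  · simpa using pick p3 [0, 3, 4, 7, 9] (by decide)

end FIN

open FIN

theorem fin4 : StmtFIN4 := fun X Y hX hY pX pY => by
  rcases core4 (g4 hX pX) (g4 hY pY) with h | h | h | h <;> exact ⟨_, h⟩

theorem fin5 : StmtFIN5 := fun X Y hX hY pX pY qX qY => by
  rcases core (g5 hX pX qX) (g5 hY pY qY) with h | h | h | h | h | h | h | h | h | h <;>
    exact ⟨_, h⟩

end Pool.Agent.MP_31805c_co.H47
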