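import Pool.Agent.MP_31805c_co.H47.SpecC

/-! The four colour theorem: identities for flags, positions and masks. -/

namespace Pool.Agent.MP_31805c_co.H47

namespace GEO

variable {V : Type} {G : SimpleGraph V}

theorem T12 {u x y : V} (h : T G u x y) : T G x u y := ⟨h.1.symm, h.2.2, h.2.1⟩

theorem T23 {u x y : V} (h : T G u x y) : T G u y x := ⟨h.2.1, h.1, h.2.2.symm⟩

theorem T3s {u y x z : V} (h : T3 G u y x z) : T3 G u z x y := ⟨h.2.1, h.1, h.2.2.symm⟩

theorem opp_comm (h : Lnk G) {u x y : V} (t : T G u x y) : opp G u x y = opp G x u y := by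
  have h1 := h.opp3 (T12 t)
  exact h.uniq (h.opp3 t) ⟨t, T12 h1.2.1, h1.2.2⟩

theorem opp_opp (h : Lnk G) {u x y : V} (t : T G u x y) : opp G u x (opp G u x y) = y :=
  h.uniq (h.opp3 (h.opp3 t).2.1) (T3s (h.opp3 t))

theorem base (φ : Fl V) (j : ℕ) : ((rot G)^[j] φ).1 = φ.1 := by
  induction j with
  | zero => rfl
  | succ j ih =>
    rw [Function.iterate_succ_apply']
    exact ih

theorem it (φ : Fl V) (e : ℕ) : (rot G)^[e] φ = (φ.1, nb G φ e, nb G φ (e + 1)) := by
  refine Prod.ext (base φ e) (Prod.ext rfl ?_)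
  simp only [nb]
  rw [Function.iterate_succ_apply']
  rfl

theorem nb_rot (φ : Fl V) (e j : ℕ) : nb G ((rot G)^[e] φ) j = nb G φ (j + e) := by
  rw [nb, nb, Function.iterate_add_apply]

theorem per (h : Lnk G) {φ : Fl V} (t : IsFl G φ) (i j : ℕ) (e : i ≡ j [MOD dg G φ.1]) :
    (rot G)^[i] φ = (rot G)^[j] φ := by
  rw [it, it, (h.eq t i j).2 e, (h.eq t (i + 1) (j + 1)).2 (e.add_right 1)]

theorem nbmir (h : Lnk G) (h5 : ∀ v, 5 ≤ dg G v) {φ : Fl V} (t : IsFl G φ) (i j : ℕ)
    (e : i + j ≡ 0 [MOD dg G φ.1]) : nb G (mir G φ) i = nb G φ j := by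
  obtain ⟨d, hd⟩ : ∃ d, dg G φ.1 = d + 1 := ⟨dg G φ.1 - 1, by have := h5 φ.1; omega⟩
  have e1 : nb G φ (d + 1) = φ.2.1 := (h.eq t (d + 1) 0).2 (by simp [hd, Nat.ModEq])
  have e2 : nb G φ (d + 2) = φ.2.2 := (h.eq t (d + 2) 1).2 (by
    rw [hd]
    exact Nat.add_modEq_left (n := d + 1) (a := 1))
  have h1 := h.t3 t d
  rw [e1, e2] at h1
  have h2 : mir G φ = (((rot G)^[d] φ).1, ((rot G)^[d] φ).2.2, ((rot G)^[d] φ).2.1) := by
    rw [it, e1, mir, h.uniq (h.opp3 t) (T3s h1)]
  rw [h2, h.rev (h.fl t d) i (j + 1) (by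
    rw [base]
    exact e.add_right 1), nb_rot]
  refine (h.eq t _ _).2 ?_
  rw [hd, show j + 1 + d = j + (d + 1) by omega]
  exact Nat.add_modEq_right

theorem rotmir (h : Lnk G) (h5 : ∀ v, 5 ≤ dg G v) {φ : Fl V} (t : IsFl G φ) (i j : ℕ)
    (e : i + j ≡ 0 [MOD dg G φ.1]) : (rot G)^[i] (mir G φ) = mir G ((rot G)^[j] φ) := by
  obtain ⟨d, hd⟩ : ∃ d, dg G φ.1 = d + 1 := ⟨dg G φ.1 - 1, by have := h5 φ.1; omega⟩
  have h1 := nbmir h h5 (h.fl t j) 1 d (by simp [base, hd, Nat.ModEq, add_comm])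
  have h2 := nbmir h h5 t (i + 1) (d + j) (by
    rw [show i + 1 + (d + j) = i + j + (d + 1) by omega, ← hd]
    exact Nat.add_modEq_right.trans e)
  rw [it, nbmir h h5 t i j e, h2, ← nb_rot φ j d, ← h1]
  exact Prod.ext (base φ j).symm rfl

theorem pos_rot (φ : Fl V) (e p : ℕ) : pos G ((rot G)^[e] φ) p = pos G φ (p + 5 * e) := by
  rw [pos, pos, ← Function.iterate_add_apply, Nat.add_mul_div_left _ _ (by norm_num),
    Nat.add_mul_mod_self_left]

theorem cls_lt (g : ℕ) : cls g < 5 := by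
  unfold cls
  omega

theorem bit31 {k : ℕ} (h : k < 5) : Nat.testBit 31 k = true := by
  interval_cases k <;> rfl

theorem fits_or (φ : Fl V) (a b : ℕ) : Fits G φ (Nat.lor a b) ↔ Fits G φ a ∧ Fits G φ b := by
  simp only [Fits, testBit_lor, Bool.or_eq_false_iff, forall_and]

theorem fits_shl (φ : Fl V) (m p : ℕ) (hm : m < 32) :
    Fits G φ (Nat.shiftLeft m (5 * p)) ↔ m.testBit (cls (dg G (pos G φ p))) = false := by
  refine ⟨fun h => ?_, fun h q => ?_⟩
  · simpa [testBit_shl] using h p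
  · have hk := cls_lt (dg G (pos G φ q))
    rw [testBit_shl]
    rcases lt_trichotomy q p with e | rfl | e
    · rw [decide_eq_false (by omega), Bool.false_and]
    · rw [Nat.add_sub_cancel_left, h, Bool.and_false]
    · rw [Nat.testBit_lt_two_pow (hm.trans_le (Nat.pow_le_pow_right (n := 2) (i := 5) two_pos
        (by omega))), Bool.and_false]

theorem fits_only (φ : Fl V) (m p : ℕ) :
    Fits G φ (only m p) ↔ m.testBit (cls (dg G (pos G φ p))) = true := by
  have h : Nat.xor 31 (Nat.land m 31) < 32 :=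
    Nat.xor_lt_two_pow (n := 5) (by norm_num) (Nat.and_lt_two_pow (n := 5) m (by norm_num))
  refine (fits_shl φ _ p h).trans ?_
  rw [testBit_xor, testBit_land, bit31 (cls_lt _)]
  simp

theorem sub_false {a b k : ℕ} (h : sub a b = true) (hb : b.testBit k = false) :
    a.testBit k = false := by
  by_contra h1
  rw [sub_bit h k (by simpa using h1)] at hb
  exact Bool.noConfusion hb

theorem exg2_spec {x g : ℕ} (hg : 5 ≤ g) (h : x.testBit (cls g) = false) (h0 : exg2 x ≠ 0) :
    g = exg2 x ∧ 5 ≤ exg2 x ∧ exg2 x ≤ 8 := by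
  have hk := cls_lt g
  have key : ∀ c j : ℕ, j < 4 → (∀ k < 5, k ≠ j → c.testBit k = true) → sub c x = true →
      g = 5 + j := by
    intro c j hj hc hs
    have h1 := sub_false hs h
    have h2 : cls g = j := by
      by_contra h3
      rw [hc _ hk h3] at h1
      exact Bool.noConfusion h1
    unfold cls at h2
    omega
  unfold exg2 at h0 ⊢
  cases h1 : sub 30 x
  · cases h2 : sub 29 x
    · cases h3 : sub 27 x
      · cases h4 : sub 23 x
        · simp [h1, h2, h3, h4] at h0
        · simpa using key 23 3 (by norm_num) (by decide) h4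
      · simpa using key 27 2 (by norm_num) (by decide) h3
    · simpa using key 29 1 (by norm_num) (by decide) h2
  · simpa using key 30 0 (by norm_num) (by decide) h1

end GEO

open GEO in
theorem geoP : StmtGEO := by
  intro V _ _ G M
  have h : Lnk G := M.toLnk
  refine
    { d5 := M.d5
      fl := h.fl
      it := it
      per := per h
      psiF := T12
      mirF := fun t => (h.opp3 t).2.1
      mirmir := fun t => Prod.ext rfl (Prod.ext rfl (opp_opp h t))
      mirpsi := fun t => Prod.ext rfl (Prod.ext rfl (opp_comm h t).symm)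
      nbmir := nbmir h M.d5
      rotmir := rotmir h M.d5
      rev := h.rev
      back := fun {φ} t => Prod.ext rfl (Prod.ext rfl ?_)
      hat := fun t => opp_comm h (T12 (T23 (T12 t)))
      pos_rot := pos_rot
      pos_mk := fun φ i j hj => ?_
      fits0 := fun φ p => Nat.zero_testBit _
      fits31 := fun φ p hf => ?_
      fits_or := fits_or
      fits_sub := fun φ a b hs hb p => sub_false hs (hb p)
      fits_shr := fun φ D e hD p => ?_
      fits_dbl := fun {φ} t d x hd hx => (fits_or φ _ _).2 ⟨hx, fun p => ?_⟩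
      fits_shl := fits_shl
      fits_only := fits_only
      fits_at := fun φ D p hD => (testBit_shr _ _ _).trans (hD p)
      exg := fun φ D p hD h0 => exg2_spec (M.d5 _) ((testBit_shr _ _ _).trans (hD p)) h0
      hd_rot := fun R K d φ e hd => ⟨h.fl hd.1 e, by simpa only [base] using hd.2⟩
      hd_mir := fun R K d φ hd => ⟨(h.opp3 hd.1).2.1, hd.2⟩ }
  · change opp G φ.2.2 φ.1 (opp G φ.1 φ.2.2 φ.2.1) = φ.2.1
    rw [opp_comm h (T23 t), opp_opp h (T12 (T23 t))]
  · rw [pos, show (5 * i + j) / 5 = i by omega, show (5 * i + j) % 5 = j by omega]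
  · have := (fits_shl φ 31 p (by norm_num)).1 hf
    rw [bit31 (cls_lt _)] at this
    exact Bool.noConfusion this
  · rw [testBit_shr, pos_rot, ← hD (p + 5 * e)]
    congr 1
    omega
  · have hr : (rot G)^[d] φ = φ := by
      by_cases e : d = 0
      · rw [e]
        rfl
      · exact per h t d 0 (by simp [hd e, Nat.ModEq])
    have hk := cls_lt (dg G (pos G φ p))
    change (Nat.shiftLeft x (25 * d)).testBit _ = false
    rw [testBit_shl]
    rcases lt_or_ge p (5 * d) with e | e
    · rw [decide_eq_false (by omega), Bool.false_and]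
    · obtain ⟨q, rfl⟩ : ∃ q, p = q + 5 * d := ⟨p - 5 * d, by omega⟩
      rw [← pos_rot, hr, show 5 * (q + 5 * d) + cls (dg G (pos G φ q)) - 25 * d =
        5 * q + cls (dg G (pos G φ q)) by omega, hx q, Bool.and_false]

end Pool.Agent.MP_31805c_co.H47
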