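import Pool.Agent.MP_31805c_co.H47.SpecA

/-! The grid satisfies the criterion, colourings are glued along cliques, and a counterexample
gives a minimal counterexample. -/

namespace Pool.Agent.MP_31805c_co.H47

open Finset
open Pool.Agent.MP_31805c_co.H93 (Conn)

namespace Glue

section Square

variable {V : Type} [DecidableEq V]

/-- The indicator of one edge. -/
def ind (e0 e : Sym2 V) : Z2 := if e = e0 then 1 else 0

/-- The indicator of a closed walk of length four. -/
def sq (a b c d : V) (e : Sym2 V) : Z2 :=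
  ind s(a, b) e + ind s(b, c) e + ind s(c, d) e + ind s(d, a) e

lemma sq_ne {a b c d : V} {e : Sym2 V} (h : sq a b c d e ≠ 0) :
    e = s(a, b) ∨ e = s(b, c) ∨ e = s(c, d) ∨ e = s(d, a) := by
  by_contra hh
  push Not at hh
  apply h
  simp [sq, ind, hh.1, hh.2.1, hh.2.2.1, hh.2.2.2]

variable [Fintype V]

lemma sum_ind {a b : V} (hab : a ≠ b) (v : V) :
    ∑ w, ind s(a, b) s(v, w) = (if v = a then 1 else 0) + if v = b then 1 else 0 := by
  have : ∀ w, ind s(a, b) s(v, w) = (if v = a then (if w = b then 1 else 0) else 0) +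
      if v = b then (if w = a then 1 else 0) else 0 := by
    intro w
    unfold ind
    by_cases h1 : v = a
    · subst h1
      by_cases h2 : w = b
      · simp [h2, hab]
      · simp [h2, hab]
    · by_cases h3 : v = b
      · subst h3
        by_cases h4 : w = a
        · simp [h4, h1, Sym2.eq_swap]
        · simp [h4, h1]
      · simp [h1, h3]
  simp only [this, sum_add_distrib]
  congr 1
  · by_cases h : v = a <;> simp [h]
  · by_cases h : v = b <;> simp [h]

lemma sq_even {a b c d : V} (h1 : a ≠ b) (h2 : b ≠ c) (h3 : c ≠ d) (h4 : d ≠ a) (v : V) :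
    ∑ w, sq a b c d s(v, w) = 0 := by
  simp only [sq, sum_add_distrib, sum_ind h1, sum_ind h2, sum_ind h3, sum_ind h4]
  generalize (if v = a then (1 : Z2) else 0) = x
  generalize (if v = b then (1 : Z2) else 0) = y
  generalize (if v = c then (1 : Z2) else 0) = z
  generalize (if v = d then (1 : Z2) else 0) = t
  revert x y z t
  decide

lemma sq_dot (a b c d : V) (f : Sym2 V → Z2) :
    ∑ e, sq a b c d e * f e = f s(a, b) + f s(b, c) + f s(c, d) + f s(d, a) := by
  simp [sq, ind, add_mul, sum_add_distrib]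

end Square

/-- The cells of the grid. -/
abbrev Cell (n : ℕ) : Type := {x : Fin n × Fin n // x.1.val + 1 < n ∧ x.2.val + 1 < n}

/-- The boundary of a cell. -/
def cell {n : ℕ} (i : Cell n) : Sym2 (Fin n × Fin n) → Z2 :=
  sq i.1 (i.1.1, ⟨i.1.2 + 1, i.2.2⟩) (⟨i.1.1 + 1, i.2.1⟩, ⟨i.1.2 + 1, i.2.2⟩)
    (⟨i.1.1 + 1, i.2.1⟩, i.1.2)

lemma grid_adj {n : ℕ} (a b : Fin n × Fin n) : (grid n).Adj a b ↔
    (a.1.val = b.1.val ∧ a.2.val + 1 = b.2.val) ∨ (a.2.val = b.2.val ∧ a.1.val + 1 = b.1.val) ∨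
    (a.1.val = b.1.val ∧ b.2.val + 1 = a.2.val) ∨ (a.2.val = b.2.val ∧ b.1.val + 1 = a.1.val) := by
  simp only [grid, SimpleGraph.fromRel_adj, ne_eq, Prod.ext_iff, Fin.ext_iff]
  omega

lemma pot (n : ℕ) (h v : ℕ → ℕ → Z2)
    (hs : ∀ i j, i + 1 < n → j + 1 < n → h i j + v i (j + 1) + h (i + 1) j + v i j = 0) :
    ∃ p : ℕ → ℕ → Z2, (∀ i j, h i j = p i j + p i (j + 1)) ∧
      ∀ i j, i + 1 < n → j < n → v i j = p i j + p (i + 1) j := by
  refine ⟨fun i j => ∑ k ∈ range i, v k 0 + ∑ l ∈ range j, h i l, fun i j => ?_, fun i j hi => ?_⟩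
  · simp only [sum_range_succ]
    generalize ∑ k ∈ range i, v k 0 = x
    generalize ∑ l ∈ range j, h i l = y
    generalize h i j = z
    revert x y z
    decide
  · induction j with
    | zero =>
      intro _
      simp only [sum_range_succ, range_zero, sum_empty]
      generalize ∑ k ∈ range i, v k 0 = x
      generalize v i 0 = z
      revert x z
      decide
    | succ j ih =>
      intro hj
      have h1 := ih (by omega)
      have h2 := hs i j hi hj
      simp only [sum_range_succ (f := h i), sum_range_succ (f := h (i + 1))] at h1 ⊢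
      revert h1 h2
      generalize ∑ k ∈ range i, v k 0 = x
      generalize ∑ k ∈ range (i + 1), v k 0 = x'
      generalize ∑ l ∈ range j, h i l = y
      generalize ∑ l ∈ range j, h (i + 1) l = y'
      generalize h i j = z
      generalize h (i + 1) j = z'
      generalize v i j = t
      generalize v i (j + 1) = t'
      revert x x' y y' z z' t t'
      decide

lemma grid_span {n : ℕ} (a : Sym2 (Fin n × Fin n) → Z2) (ha : ∀ i : Cell n, ∑ e, cell i e * a e = 0) :
    ∃ p : Fin n × Fin n → Z2, ∀ u v, (grid n).Adj u v → a s(u, v) = p u + p v := by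
  let h : ℕ → ℕ → Z2 := fun i j =>
    if hh : i < n ∧ j + 1 < n then a s((⟨i, hh.1⟩, ⟨j, by omega⟩), (⟨i, hh.1⟩, ⟨j + 1, hh.2⟩)) else 0
  let v : ℕ → ℕ → Z2 := fun i j =>
    if hh : i + 1 < n ∧ j < n then a s((⟨i, by omega⟩, ⟨j, hh.2⟩), (⟨i + 1, hh.1⟩, ⟨j, hh.2⟩)) else 0
  obtain ⟨p, hp, vp⟩ := pot n h v (by
    intro i j hi hj
    have := ha ⟨(⟨i, by omega⟩, ⟨j, by omega⟩), hi, hj⟩
    rw [cell, sq_dot] at this
    simp only [h, v]
    rw [dif_pos ⟨by omega, hj⟩, dif_pos ⟨hi, hj⟩, dif_pos ⟨hi, hj⟩, dif_pos ⟨hi, by omega⟩, ← this]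
    congr 1
    · congr 1
      rw [Sym2.eq_swap]
    · rw [Sym2.eq_swap])
  have H : ∀ x y : Fin n × Fin n, x.1.val = y.1.val → x.2.val + 1 = y.2.val →
      a s(x, y) = p x.1 x.2 + p y.1 y.2 := by
    rintro ⟨⟨i, hi⟩, ⟨j, hj⟩⟩ ⟨⟨i', hi'⟩, ⟨j', hj'⟩⟩ e1 e2
    simp only at e1 e2
    subst e1 e2
    rw [← hp i j]
    simp only [h]
    rw [dif_pos ⟨hi, hj'⟩]
  have W : ∀ x y : Fin n × Fin n, x.2.val = y.2.val → x.1.val + 1 = y.1.val →
      a s(x, y) = p x.1 x.2 + p y.1 y.2 := by
    rintro ⟨⟨i, hi⟩, ⟨j, hj⟩⟩ ⟨⟨i', hi'⟩, ⟨j', hj'⟩⟩ e1 e2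
    simp only at e1 e2
    subst e1 e2
    rw [← vp i j hi' hj]
    simp only [v]
    rw [dif_pos ⟨hi', hj⟩]
  refine ⟨fun x => p x.1 x.2, fun x y hxy => ?_⟩
  rcases (grid_adj x y).1 hxy with ⟨e1, e2⟩ | ⟨e1, e2⟩ | ⟨e1, e2⟩ | ⟨e1, e2⟩
  · exact H x y e1 e2
  · exact W x y e1 e2
  · rw [Sym2.eq_swap, add_comm]
    exact H y x e1.symm e2
  · rw [Sym2.eq_swap, add_comm]
    exact W y x e1.symm e2

lemma grid_two {n : ℕ} (e : Sym2 (Fin n × Fin n)) : {i : Cell n | cell i e ≠ 0}.ncard ≤ 2 := by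
  have h : {i : Cell n | cell i e ≠ 0}.ncard ≤ (Set.univ : Set Bool).ncard := by
    refine Set.ncard_le_ncard_of_injOn (fun i => decide (i.1 ∈ e)) (fun _ _ => Set.mem_univ _) ?_
    rintro ⟨⟨⟨i, hi⟩, ⟨j, hj⟩⟩, hij⟩ h1 ⟨⟨⟨i', hi'⟩, ⟨j', hj'⟩⟩, hij'⟩ h2 h3
    have h3' := decide_eq_decide.1 h3
    have k1 := sq_ne h1
    have k2 := sq_ne h2
    have goal : i = i' ∧ j = j' := by
      rcases k1 with rfl | rfl | rfl | rfl <;>
      · simp only [Sym2.eq_iff, Sym2.mem_iff, Prod.ext_iff, Fin.ext_iff, true_and, and_true,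
          true_or, or_true, and_self, true_iff] at k2 h3'
        omega
    obtain ⟨rfl, rfl⟩ := goal
    rfl
  simpa using h

end Glue

open Glue

theorem gridMac : StmtGRID := by
  intro n
  refine ⟨Cell n, inferInstance, cell, ?_, ?_, grid_two, grid_span⟩
  · intro i e he
    rcases sq_ne he with rfl | rfl | rfl | rfl <;>
    · rw [SimpleGraph.mem_edgeSet, grid_adj]
      simp
  · intro i v
    refine sq_even ?_ ?_ ?_ ?_ v <;>
    · simp only [ne_eq, Prod.ext_iff, Fin.ext_iff]
      omega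

theorem glue : StmtGLUE := by
  classical
  intro V G A B c c' hU hsep hQ hc hc'
  have inj : ∀ (D : Set V) (f : V → K4), A ∩ B ⊆ D → Col G D f →
      Function.Injective fun q : (A ∩ B : Set V) => f q := by
    intro D f hD hf q q' e
    by_contra hne
    exact hf q q' (hD q.2) (hD q'.2) (hQ q.2 q'.2 fun h => hne (Subtype.ext h)) e
  have i1 := inj A c Set.inter_subset_left hc
  have i2 := inj B c' Set.inter_subset_right hc'
  have : Finite (A ∩ B : Set V) := Finite.of_injective _ i1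
  obtain ⟨π, hπ⟩ := Equiv.Perm.exists_extending_pair _ _ i2 i1
  have hB : ∀ v, v ∉ A → v ∈ B := fun v hv => by
    have : v ∈ A ∪ B := hU ▸ Set.mem_univ v
    exact this.resolve_left hv
  have mix : ∀ u v, u ∈ A → v ∉ A → G.Adj u v → c u ≠ π (c' v) := by
    intro u v hu hv huv
    have huB : u ∈ B := (hsep u hu v (hB v hv) huv).resolve_right hv
    have := hπ ⟨u, hu, huB⟩
    simp only at this
    rw [← this]
    exact fun e => hc' u v huB (hB v hv) huv (π.injective e)
  refine ⟨fun v => if v ∈ A then c v else π (c' v), fun u v _ _ huv => ?_⟩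
  by_cases hu : u ∈ A <;> by_cases hv : v ∈ A <;> simp only [hu, hv, if_true, if_false]
  · exact hc u v hu hv huv
  · exact mix u v hu hv huv
  · exact (mix v u hv hu huv.symm).symm
  · exact fun e => hc' u v (hB u hu) (hB v hv) huv (π.injective e)

namespace Glue

lemma conn_of_reach {V : Type} {G X : SimpleGraph V} (hX : X ≤ G) {u v : V} (h : X.Reachable u v) :
    Conn G {w | X.Reachable u w} u v := by
  rw [SimpleGraph.reachable_iff_reflTransGen] at h
  induction h with
  | refl => exact Conn.refl _ _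
  | @tail b c hb hbc ih =>
    have hb' : X.Reachable u b := (SimpleGraph.reachable_iff_reflTransGen _ _).2 hb
    exact ih.trans (Conn.adj (hX hbc) hb' (hb'.trans hbc.reachable))

lemma small_of (hM : StmtMINOR) {V : Type} [Fintype V] [DecidableEq V] {G : SimpleGraph V}
    (hG : Mac G) (hmin : ∀ (W : Type) [Fintype W] [DecidableEq W] (H : SimpleGraph W),
      Fintype.card W < Fintype.card V → Mac H → ∃ c, Col H Set.univ c) : Small G := by
  classical
  intro D X hX hDX
  by_cases h0 : X = ⊥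
  · subst h0
    have hD : D ≠ Set.univ := hDX.resolve_right fun h => h rfl
    obtain ⟨x, hx⟩ := (Set.ne_univ_iff_exists_notMem D).1 hD
    have hm : Minor (G.induce D) G := by
      refine ⟨fun w => {w.1}, fun w w' hne => ?_, ?_, ?_⟩
      · exact Set.disjoint_singleton.2 fun h => hne (Subtype.ext h)
      · rintro w _ rfl _ rfl
        exact Conn.refl _ _
      · exact fun w w' h => ⟨w.1, rfl, w'.1, rfl, h⟩
    obtain ⟨c, hc⟩ := hmin D (G.induce D) (Fintype.card_subtype_lt hx) (hM V D G _ hG hm)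
    refine ⟨fun v => if h : v ∈ D then c ⟨v, h⟩ else 0, fun u v h => absurd h id,
      fun u v hu hv huv _ => ?_⟩
    simp only [dif_pos hu, dif_pos hv]
    exact hc ⟨u, hu⟩ ⟨v, hv⟩ (Set.mem_univ _) (Set.mem_univ _) huv
  · obtain ⟨x, y, hxy⟩ : ∃ x y, X.Adj x y := by
      by_contra hh
      push Not at hh
      exact h0 (SimpleGraph.eq_bot_iff_forall_not_adj.2 hh)
    let H : SimpleGraph X.ConnectedComponent := SimpleGraph.fromRel fun w w' =>
      ∃ a b, X.connectedComponentMk a = w ∧ X.connectedComponentMk b = w' ∧ G.Adj a b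
    have hm : Minor H G := by
      refine ⟨fun w => {a | X.connectedComponentMk a = w}, fun w w' hne => ?_, ?_, ?_⟩
      · exact Set.disjoint_left.2 fun a h1 h2 => hne (h1.symm.trans h2)
      · rintro w a ha b hb
        have hab : X.Reachable a b := SimpleGraph.ConnectedComponent.exact (ha.trans hb.symm)
        refine (conn_of_reach hX hab).mono fun z hz => ?_
        exact (SimpleGraph.ConnectedComponent.sound hz).symm.trans ha
      · intro w w' h
        rcases ((SimpleGraph.fromRel_adj _ _ _).1 h).2 with ⟨a, b, h1, h2, h3⟩ | ⟨a, b, h1, h2, h3⟩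
        · exact ⟨a, h1, b, h2, h3⟩
        · exact ⟨b, h2, a, h1, h3.symm⟩
    let _ : Fintype X.ConnectedComponent := Fintype.ofFinite _
    have hlt : Fintype.card X.ConnectedComponent < Fintype.card V := by
      refine Fintype.card_lt_of_surjective_not_injective X.connectedComponentMk
        (fun w => Quot.exists_rep w) fun hi => ?_
      exact hxy.ne (hi (SimpleGraph.ConnectedComponent.sound hxy.reachable))
    obtain ⟨c, hc⟩ := hmin _ H hlt (hM V _ G H hG hm)
    refine ⟨fun v => c (X.connectedComponentMk v), fun u v h => ?_, fun u v _ _ huv hn => ?_⟩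
    · simp only [SimpleGraph.ConnectedComponent.sound h.reachable]
    · refine hc _ _ (Set.mem_univ _) (Set.mem_univ _) ((SimpleGraph.fromRel_adj _ _ _).2 ⟨?_, ?_⟩)
      · exact fun e => hn (SimpleGraph.ConnectedComponent.exact e)
      · exact Or.inl ⟨u, v, rfl, rfl, huv⟩

end Glue

theorem minCE : StmtMIN := by
  classical
  intro hM V _ _ G hG hn
  have ex : ∃ n, ∃ (W : Type) (_ : Fintype W) (_ : DecidableEq W) (H : SimpleGraph W),
      Fintype.card W = n ∧ Mac H ∧ ∀ c, ¬ Col H Set.univ c := ⟨_, V, _, _, G, rfl, hG, hn⟩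
  obtain ⟨W, iW, dW, H, h1, h2, h3⟩ := Nat.find_spec ex
  obtain ⟨H', h4, h5⟩ := Finite.exists_le_maximal (p := fun H' : SimpleGraph W => Mac H') h2
  refine ⟨W, iW, dW, H', h5.1, fun c hc => h3 c fun u v hu hv huv => hc u v hu hv (h4 huv), ?_, ?_⟩
  · refine small_of hM h5.1 fun W' _ _ K hlt hK => ?_
    by_contra hh
    push Not at hh
    exact Nat.find_min ex (h1 ▸ hlt) ⟨W', _, _, K, rfl, hK, hh⟩
  · exact fun K hK hmac => hK.not_ge (h5.2 hmac hK.le)

end Pool.Agent.MP_31805c_co.H47
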