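import Pool.Agent.MP_31805c_co.H47.SpecC

/-!
A mask forces the appearance of a configuration.
-/

namespace Pool.Agent.MP_31805c_co.H47

namespace Grow

/-! ### Windows -/

theorem win_cons {l : List ℕ} {a b c : ℕ} (x : ℕ) (h : Win l a b c) : Win (x :: l) a b c := by
  obtain ⟨s, t, rfl⟩ := h
  exact ⟨x :: s, t, rfl⟩

theorem awin_cons (x : ℕ) (f : ℕ → ℕ → Bool) (c : ℕ) (l : List ℕ) (a b : ℕ) :
    awin x f (c :: l) a b =
      Bool.rec (awin x f l b c) (Bool.rec (awin x f l b c) true (f a c)) (Nat.beq b x) := rfl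

theorem awin_win (x : ℕ) (f : ℕ → ℕ → Bool) (l : List ℕ) : ∀ a b, awin x f l a b = true →
    ∃ a' c, Win (a :: b :: l) a' x c ∧ f a' c = true := by
  induction l with
  | nil => intro a b h; exact absurd h Bool.false_ne_true
  | cons c l ih =>
    intro a b h
    rw [awin_cons] at h
    have step : awin x f l b c = true → ∃ a' c', Win (a :: b :: c :: l) a' x c' ∧ f a' c' = true :=
      fun h' => by
        obtain ⟨a', c', hw, hf⟩ := ih b c h'
        exact ⟨a', c', win_cons a hw, hf⟩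
    cases hb : Nat.beq b x
    · rw [hb] at h
      exact step h
    · rw [hb] at h
      cases hf : f a c
      · rw [hf] at h
        exact step h
      · obtain rfl : b = x := beq_true.1 hb
        exact ⟨a, c, ⟨[], l, rfl⟩, hf⟩

theorem hasW_win {x : ℕ} {f : ℕ → ℕ → Bool} {l : List ℕ} (h : hasW x f l = true) :
    ∃ a c, Win l a x c ∧ f a c = true := by
  match l, h with
  | [], h => exact absurd h Bool.false_ne_true
  | [_], h => exact absurd h Bool.false_ne_true
  | a :: b :: t, h => exact awin_win x f t a b h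

theorem tri3_win {l : List ℕ} {y x z : ℕ} (h : tri3 l y x z = true) :
    Win l y x z ∨ Win l z x y := by
  obtain ⟨a, c, hw, hf⟩ := hasW_win h
  simp only [Bool.or_eq_true, Bool.and_eq_true, beq_true] at hf
  rcases hf with ⟨rfl, rfl⟩ | ⟨rfl, rfl⟩
  · exact Or.inl hw
  · exact Or.inr hw

theorem side3_win {l : List ℕ} {x y : ℕ} (h : side3 l x y = true) :
    ∃ c, Win l y x c ∨ Win l c x y := by
  obtain ⟨a, c, hw, hf⟩ := hasW_win h
  simp only [Bool.or_eq_true, beq_true] at hf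
  rcases hf with rfl | rfl
  · exact ⟨c, Or.inl hw⟩
  · exact ⟨a, Or.inr hw⟩

variable {V : Type} {G : SimpleGraph V}

theorem t3_symm {u y x z : V} (h : T3 G u y x z) : T3 G u z x y := ⟨h.2.1, h.1, h.2.2.symm⟩

theorem t3_swap {u y x z : V} (h : T3 G u y x z) : T3 G x y u z :=
  ⟨⟨h.1.1.symm, h.1.2.2, h.1.2.1⟩, ⟨h.2.1.1.symm, h.2.1.2.2, h.2.1.2.1⟩, h.2.2⟩

theorem nb_add (ψ : Fl V) (m i : ℕ) : nb G ((rot G)^[m] ψ) i = nb G ψ (i + m) := by
  unfold nb
  rw [Function.iterate_add_apply]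

theorem rot_fst (ψ : Fl V) (m : ℕ) : ((rot G)^[m] ψ).1 = ψ.1 := by
  induction m with
  | zero => rfl
  | succ m ih => rw [Function.iterate_succ_apply']; exact ih

/-! ### Invariants -/

/-- The labelling is extended. -/
def Ext (F : ℕ → V) (U : ℕ) (F' : ℕ → V) (U' : ℕ) : Prop :=
  ∀ b, U.testBit b = true → U'.testBit b = true ∧ F' b = F b

theorem Ext.refl (F : ℕ → V) (U : ℕ) : Ext F U F U := fun _ h => ⟨h, rfl⟩

theorem Ext.trans {F F' F'' : ℕ → V} {U U' U'' : ℕ} (h : Ext F U F' U') (h' : Ext F' U' F'' U'') :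
    Ext F U F'' U'' := fun b hb =>
  ⟨(h' b (h b hb).1).1, (h' b (h b hb).1).2.trans (h b hb).2⟩

/-- The windows of the known links are true. -/
def Kn (G : SimpleGraph V) (F : ℕ → V) (KL : ℕ → List ℕ) (U : ℕ) : Prop :=
  ∀ a y x z, Win (KL a) y x z → U.testBit a = true ∧ U.testBit y = true ∧ U.testBit x = true ∧
    U.testBit z = true ∧ T3 G (F a) (F y) (F x) (F z)

theorem Kn.ext {F F' : ℕ → V} {KL : ℕ → List ℕ} {U U' : ℕ} (h : Kn G F KL U)
    (e : Ext F U F' U') : Kn G F' KL U' := by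
  intro a y x z hw
  obtain ⟨ha, hy, hx, hz, ht⟩ := h a y x z hw
  refine ⟨(e a ha).1, (e y hy).1, (e x hx).1, (e z hz).1, ?_⟩
  rw [(e a ha).2, (e y hy).2, (e x hx).2, (e z hz).2]
  exact ht

/-- The entries of the list are consecutive neighbours. -/
def Sq (G : SimpleGraph V) (F : ℕ → V) (U : ℕ) (ψ : Fl V) : List ℕ → ℕ → Prop
  | [], _ => True
  | z :: t, j => U.testBit z = true ∧ F z = nb G ψ j ∧ Sq G F U ψ t (j + 1)

theorem sq_append {F : ℕ → V} {U : ℕ} {ψ : Fl V} (s t : List ℕ) : ∀ j,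
    Sq G F U ψ (s ++ t) j ↔ Sq G F U ψ s j ∧ Sq G F U ψ t (j + s.length) := by
  induction s with
  | nil => intro j; simp [Sq]
  | cons z s ih =>
    intro j
    have : j + (z :: s).length = j + 1 + s.length := by rw [List.length_cons]; omega
    rw [this, List.cons_append]
    simp only [Sq, ih, and_assoc]

theorem sq_get {F : ℕ → V} {U : ℕ} {ψ : Fl V} (l : List ℕ) : ∀ j, Sq G F U ψ l j →
    ∀ i < l.length, U.testBit (l.getD i 0) = true ∧ F (l.getD i 0) = nb G ψ (j + i) := by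
  induction l with
  | nil => intro j _ i hi; simp at hi
  | cons z l ih =>
    intro j h i hi
    cases i with
    | zero => exact ⟨h.1, h.2.1⟩
    | succ i =>
      have := ih (j + 1) h.2.2 i (by simpa using hi)
      rw [show j + (i + 1) = j + 1 + i by omega]
      exact this

theorem growL_cons (KL : ℕ → List ℕ) (a : ℕ) (k : ℕ → Bool) (z : ℕ) (l : List ℕ) (y x U : ℕ) :
    growL KL a k (z :: l) y x U = cond (tb U z)
      ((tri3 (KL a) y x z || tri3 (KL x) y a z) && growL KL a k l x z U)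
      (growL KL a k l x z (Nat.lor U (bt z))) := rfl

theorem growL_ok (hL : Lnk G) {ψ : Fl V} (hψ : IsFl G ψ) (KL : ℕ → List ℕ) (a : ℕ)
    (k : ℕ → Bool) (t : List ℕ) : ∀ (y x U : ℕ) (F : ℕ → V) (j : ℕ), Kn G F KL U →
    U.testBit a = true → U.testBit x = true → F a = ψ.1 → F y = nb G ψ j →
    F x = nb G ψ (j + 1) → growL KL a k t y x U = true →
    ∃ F' U', Ext F U F' U' ∧ k U' = true ∧ Sq G F' U' ψ t (j + 2) := by
  induction t with
  | nil => intro y x U F j _ _ _ _ _ _ h; exact ⟨F, U, Ext.refl F U, h, trivial⟩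
  | cons z t ih =>
    intro y x U F j hK ha hx fa fy fx h
    rw [growL_cons, tb_eq] at h
    cases hz : U.testBit z
    · rw [hz] at h
      have e : Ext F U (Function.update F z (nb G ψ (j + 2))) (Nat.lor U (bt z)) := by
        intro b hb
        refine ⟨by rw [testBit_lor, hb, Bool.true_or], Function.update_of_ne ?_ _ _⟩
        rintro rfl
        rw [hz] at hb
        exact Bool.false_ne_true hb
      have hz' : (Nat.lor U (bt z)).testBit z = true := by
        rw [testBit_lor, testBit_bt]; simp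
      obtain ⟨F', U', e', hk, hs⟩ := ih x z (Nat.lor U (bt z))
        (Function.update F z (nb G ψ (j + 2))) (j + 1) (hK.ext e) (e a ha).1 hz'
        ((e a ha).2.trans fa) ((e x hx).2.trans fx) (Function.update_self ..) h
      exact ⟨F', U', e.trans e', hk, (e' z hz').1,
        (e' z hz').2.trans (Function.update_self ..), hs⟩
    · rw [hz] at h
      have h' : ((tri3 (KL a) y x z || tri3 (KL x) y a z) && growL KL a k t x z U) = true := h
      rw [Bool.and_eq_true, Bool.or_eq_true] at h'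
      have h3 : T3 G (F a) (F y) (F x) (F z) := by
        rcases h'.1 with h1 | h1
        · rcases tri3_win h1 with hw | hw
          · exact (hK _ _ _ _ hw).2.2.2.2
          · exact t3_symm (hK _ _ _ _ hw).2.2.2.2
        · rcases tri3_win h1 with hw | hw
          · exact t3_swap (hK _ _ _ _ hw).2.2.2.2
          · exact t3_swap (t3_symm (hK _ _ _ _ hw).2.2.2.2)
      rw [fa, fy, fx] at h3
      have fz : F z = nb G ψ (j + 2) := hL.uniq h3 (hL.t3 hψ j)
      obtain ⟨F', U', e', hk, hs⟩ := ih x z U F (j + 1) hK ha hz fa fx fz h'.2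
      exact ⟨F', U', e', hk, (e' z hz).1, (e' z hz).2.trans fz, hs⟩

/-- The link of `v`, with a free choice of the flag. -/
def Lk (G : SimpleGraph V) (v : V) (f : ℕ → V) (l : List ℕ) : Prop :=
  l.length = dg G v ∧ ∃ ψ, IsFl G ψ ∧ ψ.1 = v ∧ ∀ j < l.length, f (l.getD j 0) = nb G ψ j

theorem Lk.isLk {v : V} {f : ℕ → V} {l : List ℕ} (h : Lk G v f l) (h5 : 5 ≤ dg G v) :
    IsLk G v f l := by
  obtain ⟨hl, ψ, hψ, hv, hn⟩ := h
  have e : (v, f (l.getD 0 0), f (l.getD 1 0)) = ψ := by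
    rw [hn 0 (by omega), hn 1 (by omega), ← hv]
    rfl
  exact ⟨hl, by rw [e]; exact hψ, by rw [e]; exact hn⟩

theorem Lk.congr {v : V} {f f' : ℕ → V} {l : List ℕ} (h : Lk G v f l)
    (e : ∀ b ∈ l, f' b = f b) : Lk G v f' l := by
  obtain ⟨hl, ψ, hψ, hv, hn⟩ := h
  refine ⟨hl, ψ, hψ, hv, fun j hj => ?_⟩
  rw [← hn j hj]
  apply e
  rw [List.getD_eq_getElem _ _ hj]
  exact List.getElem_mem hj

theorem Lk.of_map {v : V} {f : ℕ → V} {g : ℕ → ℕ} {l : List ℕ} (h : Lk G v f (l.map g)) :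
    Lk G v (f ∘ g) l := by
  obtain ⟨hl, ψ, hψ, hv, hn⟩ := h
  rw [List.length_map] at hl hn
  refine ⟨hl, ψ, hψ, hv, fun j hj => ?_⟩
  rw [← hn j hj, List.getD_eq_getElem _ _ hj,
    List.getD_eq_getElem _ _ (by rwa [List.length_map]), List.getElem_map]
  rfl

theorem Lk.of_rotate (hL : Lnk G) {v : V} {f : ℕ → V} {l : List ℕ} {st : ℕ}
    (h : Lk G v f (l.rotate st)) : Lk G v f l := by
  obtain ⟨hl, ψ, hψ, hv, hn⟩ := h
  rw [List.length_rotate] at hl hn
  refine ⟨hl, (rot G)^[l.length - st % l.length] ψ, hL.fl hψ _, (rot_fst _ _).trans hv,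
    fun j hj => ?_⟩
  have hpos : 0 < l.length := by omega
  have h1 : (j + (l.length - st % l.length)) % l.length < l.length := Nat.mod_lt _ hpos
  have h2 := hn _ h1
  have h3 : ((j + (l.length - st % l.length)) % l.length + st) % l.length = j := by
    have h4 := Nat.mod_lt st hpos
    rw [Nat.mod_add_mod, ← Nat.add_mod_mod,
      show j + (l.length - st % l.length) + st % l.length = j + l.length by omega,
      Nat.add_mod_right, Nat.mod_eq_of_lt hj]
  rw [List.getD_eq_getElem _ _ (by rwa [List.length_rotate]), List.getElem_rotate] at h2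
  rw [nb_add, List.getD_eq_getElem _ _ hj]
  have h5 : l[((j + (l.length - st % l.length)) % l.length + st) % l.length]'(Nat.mod_lt _ hpos) =
      l[j] := by simp only [h3]
  rw [← h5, h2, hL.eq hψ, hv, ← hl]
  exact Nat.mod_modEq _ _

theorem Lk.of_reverse [Fintype V] (hL : Lnk G) (hG : Geo G) {v : V} {f : ℕ → V} {l : List ℕ}
    (h : Lk G v f l.reverse) : Lk G v f l := by
  obtain ⟨hl, ψ, hψ, hv, hn⟩ := h
  rw [List.length_reverse] at hl hn
  have hχ := hL.fl hψ (l.length - 1)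
  refine ⟨hl, mir G ((rot G)^[l.length - 1] ψ), hG.mirF hχ, (rot_fst _ _).trans hv,
    fun j hj => ?_⟩
  have h2 := hn (l.length - 1 - j) (by omega)
  rw [List.getD_eq_getElem _ _ (by rw [List.length_reverse]; omega), List.getElem_reverse] at h2
  have h5 : l[l.length - 1 - (l.length - 1 - j)]'(by omega) = l[j] := by
    simp only [show l.length - 1 - (l.length - 1 - j) = j by omega]
  rw [hG.nbmir hχ j (l.length - j) (by
      rw [rot_fst, hv, ← hl, show j + (l.length - j) = l.length by omega]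
      exact Nat.modEq_zero_iff_dvd.2 dvd_rfl),
    nb_add, List.getD_eq_getElem _ _ hj, ← h5, h2, hL.eq hψ, hv, ← hl,
    show l.length - j + (l.length - 1) = l.length - 1 - j + l.length by omega]
  exact (Nat.add_modEq_right).symm

theorem Lk.of_turn [Fintype V] (hL : Lnk G) (hG : Geo G) {v : V} {f : ℕ → V} {l : List ℕ}
    {st dir : ℕ} (h : Lk G v f (turn l st dir)) : Lk G v f l := by
  have h1 := Lk.of_rotate hL h
  cases hd : Nat.beq dir 0
  · rw [hd] at h1
    exact Lk.of_reverse hL hG h1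
  · rw [hd] at h1
    exact h1

theorem mem_turn {l : List ℕ} {st dir b : ℕ} (h : b ∈ l) : b ∈ turn l st dir := by
  unfold turn
  rw [List.mem_rotate]
  cases Nat.beq dir 0
  · exact List.mem_reverse.2 h
  · exact h

/-- The fixed labels. -/
def Base (G : SimpleGraph V) (φ : Fl V) (F : ℕ → V) (U : ℕ) : Prop :=
  ∀ a < 64, U.testBit a = true ∧ F a = vlab G φ a

theorem Base.ext {φ : Fl V} {F F' : ℕ → V} {U U' : ℕ} (h : Base G φ F U) (e : Ext F U F' U') :
    Base G φ F' U' := fun a ha => ⟨(e a (h a ha).1).1, (e a (h a ha).1).2.trans (h a ha).2⟩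

theorem deg_ok [Fintype V] (hG : Geo G) {φ : Fl V} {d D : ℕ} (hd : d ≠ 0 → dg G φ.1 = d)
    (hD : Fits G φ D) {F : ℕ → V} {U : ℕ} (hB : Base G φ F U) {a len : ℕ} (hlen : len ≠ 0)
    (h : degOK d D a len = true) : len = dg G (F a) := by
  unfold degOK at h
  cases ha : Nat.beq a 0
  · rw [ha] at h
    have h' : (Nat.blt a 64 && Nat.beq len (exg D (a - 1))) = true := h
    rw [Bool.and_eq_true, Nat.blt_eq, beq_true] at h'
    have ha0 : a ≠ 0 := fun h0 => by
      rw [beq_true.2 h0] at ha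
      exact Bool.false_ne_true ha.symm
    rw [(hB a h'.1).2, vlab, if_neg ha0, (hG.exg φ D (a - 1) hD (h'.2 ▸ hlen)).1]
    exact h'.2
  · rw [ha] at h
    have h' : len = d := beq_true.1 h
    obtain rfl : a = 0 := beq_true.1 ha
    rw [(hB 0 (by norm_num)).2, vlab, if_pos rfl, hd (h' ▸ hlen)]
    exact h'

theorem grow1_cons (d D : ℕ) (k : (ℕ → List ℕ) → ℕ → Bool) (KL : ℕ → List ℕ) (U a l0 l1 : ℕ)
    (t : List ℕ) : grow1 d D k KL U a (l0 :: l1 :: t) =
      (tb U a && tb U l0 && tb U l1 && degOK d D a (l0 :: l1 :: t).length &&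
        side3 (KL l1) l0 a &&
        growL KL a (fun U' => k (updL KL a ((l0 :: l1 :: t) ++ [l0, l1])) U') t l0 l1 U) := rfl

theorem grow1_ok [Fintype V] (hL : Lnk G) (hG : Geo G) {φ : Fl V} {d D : ℕ}
    (hd : d ≠ 0 → dg G φ.1 = d) (hD : Fits G φ D) {F : ℕ → V} {U : ℕ} {KL : ℕ → List ℕ}
    (hB : Base G φ F U) (hK : Kn G F KL U) {k : (ℕ → List ℕ) → ℕ → Bool} {a : ℕ} {l : List ℕ}
    (h : grow1 d D k KL U a l = true) :
    ∃ F' U' KL', Ext F U F' U' ∧ Kn G F' KL' U' ∧ k KL' U' = true ∧ U'.testBit a = true ∧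
      (∀ b ∈ l, U'.testBit b = true) ∧ Lk G (F' a) F' l := by
  match l, h with
  | [], h => exact absurd h Bool.false_ne_true
  | [_], h => exact absurd h Bool.false_ne_true
  | l0 :: l1 :: t, h =>
    rw [grow1_cons] at h
    simp only [Bool.and_eq_true, tb_eq] at h
    obtain ⟨⟨⟨⟨⟨ha, h0⟩, h1⟩, hdeg⟩, hs⟩, hg⟩ := h
    have hlen := deg_ok hG hd hD hB (by simp) hdeg
    have hψ : IsFl G (F a, F l0, F l1) := by
      have : T G (F l1) (F l0) (F a) := by
        obtain ⟨c, hw | hw⟩ := side3_win hs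
        · exact (hK _ _ _ _ hw).2.2.2.2.1
        · exact (hK _ _ _ _ hw).2.2.2.2.2.1
      exact ⟨this.2.2.symm, this.2.1.symm, this.1.symm⟩
    set ψ : Fl V := (F a, F l0, F l1) with hψd
    obtain ⟨F', U', e, hk, hq⟩ := growL_ok hL hψ KL a _ t l0 l1 U F 0 hK ha h1 rfl rfl rfl hg
    have hq1 : Sq G F' U' ψ (l0 :: l1 :: t) 0 :=
      ⟨(e l0 h0).1, (e l0 h0).2, (e l1 h1).1, (e l1 h1).2, hq⟩
    have hq2 : Sq G F' U' ψ ((l0 :: l1 :: t) ++ [l0, l1]) 0 := by
      rw [sq_append]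
      refine ⟨hq1, (e l0 h0).1, ?_, (e l1 h1).1, ?_, trivial⟩
      · rw [(e l0 h0).2, hlen]
        exact (hL.eq hψ 0 _).2 (Nat.add_modEq_right).symm
      · rw [(e l1 h1).2, hlen, show 0 + dg G (F a) + 1 = 1 + dg G (F a) by omega]
        exact (hL.eq hψ 1 _).2 (Nat.add_modEq_right).symm
    refine ⟨F', U', _, e, ?_, hk, (e a ha).1, ?_, ?_⟩
    · intro s y x z hw
      unfold updL at hw
      cases hs : Nat.beq s a
      · rw [hs] at hw
        exact hK.ext e s y x z hw
      · rw [hs] at hw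
        obtain rfl : s = a := beq_true.1 hs
        obtain ⟨p, q, hpq⟩ := hw
        have hpq' : (l0 :: l1 :: t) ++ [l0, l1] = p ++ y :: x :: z :: q := hpq
        rw [hpq', sq_append] at hq2
        obtain ⟨-, uy, fy, ux, fx, uz, fz, -⟩ := hq2
        refine ⟨(e s ha).1, uy, ux, uz, ?_⟩
        rw [fy, fx, fz, (e s ha).2]
        exact hL.t3 hψ _
    · intro b hb
      obtain ⟨i, hi, rfl⟩ := List.getElem_of_mem hb
      have := (sq_get _ 0 hq1 i hi).1
      rwa [List.getD_eq_getElem _ _ hi] at this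
    · rw [(e a ha).2]
      refine ⟨hlen, ψ, hψ, rfl, fun j hj => ?_⟩
      have := (sq_get _ 0 hq1 j hj).2
      rwa [Nat.zero_add] at this

/-- The interior vertices that are done. -/
def Dn (G : SimpleGraph V) (C : Cfg) (labs : ℕ) (F : ℕ → V) (U Z : ℕ) : Prop :=
  ∀ k, Z.testBit k = true → U.testBit (lab labs k) = true ∧
    (∀ b ∈ C.L k, U.testBit (lab labs b) = true) ∧ Lk G (F (lab labs k)) (F ∘ lab labs) (C.L k)

theorem grow_cons (d D : ℕ) (C : Cfg) (labs s : ℕ) (steps : List ℕ) (Z : ℕ) (KL : ℕ → List ℕ)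
    (U : ℕ) : grow d D C labs (s :: steps) Z KL U =
      grow1 d D (grow d D C labs steps (Nat.lor Z (bt (fld s 0 32)))) KL U
        (lab labs (fld s 0 32))
        ((turn (C.L (fld s 0 32)) (fld s 5 16) (fld s 9 2)).map (lab labs)) := rfl

theorem grow_ok [Fintype V] (hL : Lnk G) (hG : Geo G) {φ : Fl V} {d D : ℕ}
    (hd : d ≠ 0 → dg G φ.1 = d) (hD : Fits G φ D) (C : Cfg) (labs : ℕ) (steps : List ℕ) :
    ∀ (Z : ℕ) (KL : ℕ → List ℕ) (U : ℕ) (F : ℕ → V), Base G φ F U → Kn G F KL U →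
      Dn G C labs F U Z → grow d D C labs steps Z KL U = true → ∃ f, App G C f := by
  induction steps with
  | nil =>
    intro Z KL U F _ _ hZ h
    have h' : sub (Nat.shiftLeft (ones C.lk.length) C.r) Z = true := h
    refine ⟨F ∘ lab labs, fun k hk => ?_⟩
    have hb : Z.testBit k = true := by
      refine sub_bit h' k ?_
      rw [testBit_shl, testBit_ones]
      have h1 := hk.1
      have h2 := hk.2
      simp only [Bool.and_eq_true, decide_eq_true_eq]
      omega
    exact (hZ k hb).2.2.isLk (hG.d5 _)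
  | cons s steps ih =>
    intro Z KL U F hB hK hZ h
    rw [grow_cons] at h
    obtain ⟨F', U', KL', e, hK', hk, ua, ul, hl⟩ := grow1_ok hL hG hd hD hB hK h
    refine ih _ KL' U' F' (hB.ext e) hK' (fun k hb => ?_) hk
    rw [testBit_lor, testBit_bt, Bool.or_eq_true, decide_eq_true_eq] at hb
    rcases hb with hb | rfl
    · obtain ⟨u1, u2, u3⟩ := hZ k hb
      refine ⟨(e _ u1).1, fun b hb' => (e _ (u2 b hb')).1, ?_⟩
      rw [(e _ u1).2]
      exact u3.congr fun b hb' => (e _ (u2 b hb')).2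
    · exact ⟨ua, fun b hb' => ul _ (List.mem_map_of_mem (mem_turn hb')),
        Lk.of_turn hL hG hl.of_map⟩

end Grow

theorem growP : StmtGROW := by
  intro hKL V _ _ G hM hG φ d D C labs steps hφ hd hD h
  unfold growOK at h
  rw [Bool.and_eq_true, Nat.ble_eq] at h
  have hb : ∀ a < 64, (ones 64).testBit a = true := fun a ha => by
    rw [testBit_ones]
    exact decide_eq_true ha
  refine Grow.grow_ok hM.toLnk hG hd hD C labs steps 0 (kl0 d D) (ones 64) (vlab G φ)
    (fun a ha => ⟨hb a ha, rfl⟩) (fun a y x z hw => ?_) (fun k hk => ?_) h.2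
  · obtain ⟨h1, h2, h3, h4, h5⟩ := hKL V G hM hG φ d D hφ h.1 hd hD a y x z hw
    exact ⟨hb a h1, hb y h2, hb x h3, hb z h4, h5⟩
  · simp at hk

end Pool.Agent.MP_31805c_co.H47
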