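import Pool.Agent.MP_31805c_co.H47.SpecA

/-!
Row KEMPE: the edge colourings of the ring of a disc form a consistent set.
-/

namespace Pool.Agent.MP_31805c_co.H47

open Finset

namespace Kempe

/-- Two involutions of a finite set, the first without fixed points: the fixed points of the
second are matched by the orbits. -/
theorem two_inv {D : Type} [Finite D] (α β : D → D) (hα : Function.Involutive α)
    (hβ : Function.Involutive β) (hne : ∀ d, α d ≠ d) :
    ∃ μ : D → D, (∀ d, β d = d → β (μ d) = μ d ∧ μ d ≠ d ∧ μ (μ d) = d) ∧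
      (∀ b : D → Z2, (∀ d, b (α d) = b d) → (∀ d, b (β d) = b d) → ∀ d, b (μ d) = b d) ∧
      ∀ J : D → Z2, (∀ d, β d = d → J (μ d) = J d) →
        ∃ a : D → Z2, (∀ d, a (α d) = a d) ∧ (∀ d, a (β d) = a d) ∧ ∀ d, β d = d → a d = J d := by
  classical
  let A : Equiv.Perm D := hα.toPerm α
  let B : Equiv.Perm D := hβ.toPerm β
  let σ : Equiv.Perm D := B * A
  have hsc : SemiconjBy B σ σ⁻¹ := by
    unfold SemiconjBy
    ext x
    have e : σ⁻¹ = A * B := by
      rw [inv_eq_iff_mul_eq_one]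
      ext y
      change β (α (α (β y))) = y
      rw [hα, hβ]
    rw [e]
    change β (β (α x)) = α (β (β x))
    rw [hβ, hβ]
  let z : ℤ → D → D := fun k x => (σ ^ k) x
  have zadd : ∀ k l x, z (k + l) x = z k (z l x) := fun k l x => by
    simp only [z, zpow_add, Equiv.Perm.mul_apply]
  have z0 : ∀ x, z 0 x = x := fun x => by simp [z]
  have zβ : ∀ k x, β (z k x) = z (-k) (β x) := fun k x => by
    have h := (hsc.zpow_right k).eq
    have h2 := congrArg (fun g : Equiv.Perm D => g x) h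
    simp only [Equiv.Perm.mul_apply, inv_zpow'] at h2
    exact h2
  have zα : ∀ x, α x = β (z 1 x) := fun x => by
    change α x = β ((σ ^ (1 : ℤ)) x)
    rw [zpow_one]
    change α x = β (β (α x))
    rw [hβ]
  let m : D → ℕ := fun x => MulAction.period σ x
  have mpos : ∀ x, 0 < m x := fun x => MulAction.period_pos_of_orderOf_pos (orderOf_pos σ) x
  have zfix : ∀ k x, z k x = x ↔ (m x : ℤ) ∣ k := fun k x =>
    MulAction.zpow_smul_eq_iff_period_dvd (j := k) (g := σ) (a := x)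
  have zeq : ∀ k l x, z k x = z l x ↔ (m x : ℤ) ∣ k - l := fun k l x => by
    rw [← zfix]
    constructor
    · intro h
      rw [sub_eq_neg_add, zadd, h, ← zadd, neg_add_cancel, z0]
    · intro h
      have : k = l + (k - l) := by ring
      rw [this, zadd, h]
  have mz : ∀ k x, m (z k x) = m x := fun k x => by
    have key : ∀ j : ℤ, (m (z k x) : ℤ) ∣ j ↔ (m x : ℤ) ∣ j := fun j => by
      rw [← zfix, ← zadd, zeq, add_sub_cancel_right]
    exact Nat.dvd_antisymm (Int.natCast_dvd_natCast.1 ((key _).2 dvd_rfl))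
      (Int.natCast_dvd_natCast.1 ((key _).1 dvd_rfl))
  have mev : ∀ d, β d = d → (m d : ℤ) = 2 * ((m d / 2 : ℕ) : ℤ) := fun d hd => by
    by_contra hodd
    have h1 : (m d : ℤ) = 2 * ((m d / 2 : ℕ) : ℤ) + 1 := by omega
    refine hne (z (m d / 2 : ℕ) d) ?_
    rw [zα, ← zadd, zβ, hd, zeq]
    exact ⟨-1, by omega⟩
  refine ⟨fun d => z (m d / 2 : ℕ) d, fun d hd => ⟨?_, ?_, ?_⟩, fun b h1 h2 d => ?_,
    fun J hJ => ?_⟩
  · rw [zβ, hd, zeq]
    exact ⟨-1, by have := mev d hd; omega⟩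
  · intro h
    have h1 := (zfix _ _).1 h
    have h2 := mev d hd
    have h3 := mpos d
    have := Int.le_of_dvd (by omega) h1
    omega
  · show z (m (z (m d / 2 : ℕ) d) / 2 : ℕ) (z (m d / 2 : ℕ) d) = d
    rw [mz, ← zadd, zfix]
    exact ⟨1, by have := mev d hd; omega⟩
  · have : ∀ n : ℕ, b (z n d) = b d := by
      intro n
      induction n with
      | zero => exact congrArg b (z0 d)
      | succ n ih =>
        have e : ((n + 1 : ℕ) : ℤ) = 1 + n := by push_cast; ring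
        rw [e, zadd, ← h2, ← zα, h1, ih]
    exact this _
  · let C : (D → Prop) → Z2 := fun P => if h : ∃ d, P d then J h.choose else 0
    refine ⟨fun x => C fun d => β d = d ∧ ∃ k, x = z k d, fun x => ?_, fun x => ?_, fun x hx => ?_⟩
    · refine congrArg C (funext fun d => propext (and_congr_right fun hd => ⟨?_, ?_⟩))
      · rintro ⟨k, hk⟩
        refine ⟨-(1 + k), ?_⟩
        rw [← hα x, hk, zα, ← zadd, zβ, hd]
      · rintro ⟨k, hk⟩
        refine ⟨-(1 + k), ?_⟩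
        rw [hk, zα, ← zadd, zβ, hd]
    · refine congrArg C (funext fun d => propext (and_congr_right fun hd => ⟨?_, ?_⟩))
      · rintro ⟨k, hk⟩
        exact ⟨-k, by rw [← hβ x, hk, zβ, hd]⟩
      · rintro ⟨k, hk⟩
        exact ⟨-k, by rw [hk, zβ, hd]⟩
    · have hex : ∃ d, β d = d ∧ ∃ k, x = z k d := ⟨x, hx, 0, (z0 x).symm⟩
      show (if h : ∃ d, β d = d ∧ ∃ k, x = z k d then J h.choose else 0) = J x
      rw [dif_pos hex]
      obtain ⟨hd, k, hk⟩ := hex.choose_spec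
      generalize hex.choose = d at hd hk
      have h1 : z (-k) d = z k d := by rw [← hd, ← zβ, hd, ← hk, hx]
      obtain ⟨i, hi⟩ := (zeq _ _ _).1 h1
      have h2 := mev d hd
      obtain ⟨j, hj | hj⟩ := Int.even_or_odd' i
      · have : x = d := by
          rw [hk, zfix]
          refine ⟨-j, ?_⟩
          rw [hj] at hi
          linarith
        rw [this]
      · have : x = z (m d / 2 : ℕ) d := by
          rw [hk, zeq]
          refine ⟨-j - 1, ?_⟩
          rw [hj] at hi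
          linarith
        rw [this]
        exact (hJ d hd).symm

theorem z2_add_self (x : Z2) : x + x = 0 := by revert x; decide

theorem z2_eq {x y : Z2} : x + y = 0 ↔ x = y := by revert x y; decide

theorem z2_cases (x : Z2) : x = 0 ∨ x = 1 := by revert x; decide

theorem k4_eq {x y : K4} : x + y = 0 ↔ x = y := by revert x y; decide

theorem T_swap {V : Type} {G : SimpleGraph V} {u v w : V} (h : T G u v w) : T G v u w :=
  ⟨h.1.symm, h.2.2, h.2.1⟩

theorem T_swap' {V : Type} {G : SimpleGraph V} {u v w : V} (h : T G u v w) : T G u w v :=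
  ⟨h.2.1, h.1, h.2.2.symm⟩

section main

variable {V : Type} (G : SimpleGraph V) (K : Set V) (χ : V → Z2)

/-- A crossing edge together with a triangle that contains it. -/
def IsD (p : V × V × V) : Prop :=
  T G p.1 p.2.1 p.2.2 ∧ p.1 ∉ K ∧ p.2.1 ∉ K ∧ χ p.1 = 0 ∧ χ p.2.1 = 1

/-- The darts. -/
abbrev Dt : Type := {p : V × V × V // IsD G K χ p}

/-- The positions of the crossing edges of the ring. -/
def Sp (r : ℕ) (ρ : ℕ → V) : Set ℕ := {t | t < r ∧ χ (ρ t) ≠ χ (ρ ((t + 1) % r))}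

variable {G K χ}

theorem ex_alpha [Fintype V] [DecidableEq V] (hT : Tri G) :
    ∃ α : Dt G K χ → Dt G K χ, Function.Involutive α ∧ (∀ d, α d ≠ d) ∧
      (∀ d, (α d).1.1 = d.1.1 ∧ (α d).1.2.1 = d.1.2.1) ∧
      ∀ d d' : Dt G K χ, d'.1.1 = d.1.1 → d'.1.2.1 = d.1.2.1 → d' = d ∨ d' = α d := by
  have h : ∀ d : Dt G K χ, ∃ e : Dt G K χ, e ≠ d ∧ (e.1.1 = d.1.1 ∧ e.1.2.1 = d.1.2.1) ∧
      ∀ d' : Dt G K χ, d'.1.1 = d.1.1 → d'.1.2.1 = d.1.2.1 → d' = d ∨ d' = e := by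
    rintro ⟨⟨u, v, w⟩, hd⟩
    obtain ⟨x, y, hxy, hs⟩ := Set.ncard_eq_two.1 (hT.two u v hd.1.1)
    have hm : ∀ t, T G u v t ↔ t = x ∨ t = y := fun t => by
      have : t ∈ G.commonNeighbors u v ↔ t = x ∨ t = y := by rw [hs]; simp
      rw [← this, SimpleGraph.mem_commonNeighbors]
      exact ⟨fun h => h.2, fun h => ⟨hd.1.1, h⟩⟩
    have key : ∀ x y : V, x ≠ y → (∀ t, T G u v t ↔ t = x ∨ t = y) → w = x →
        ∃ e : Dt G K χ, e ≠ ⟨(u, v, w), hd⟩ ∧ (e.1.1 = u ∧ e.1.2.1 = v) ∧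
        ∀ d' : Dt G K χ, d'.1.1 = u → d'.1.2.1 = v → d' = ⟨(u, v, w), hd⟩ ∨ d' = e := by
      intro x y hxy hm hw
      refine ⟨⟨(u, v, y), (hm y).2 (Or.inr rfl), hd.2⟩, fun h => ?_, ⟨rfl, rfl⟩, ?_⟩
      · have : y = w := congrArg (fun d : Dt G K χ => d.1.2.2) h
        exact hxy (hw.symm.trans this.symm)
      · rintro ⟨⟨u', v', w'⟩, hd'⟩ h1 h2
        obtain rfl : u' = u := h1
        obtain rfl : v' = v := h2
        rcases (hm w').1 hd'.1 with h | h
        · exact Or.inl (Subtype.ext (by simp [h, hw]))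
        · exact Or.inr (Subtype.ext (by simp [h]))
    rcases (hm w).1 hd.1 with h | h
    · exact key x y hxy hm h
    · exact key y x hxy.symm (fun t => (hm t).trans or_comm) h
  choose α h1 h2 h3 using h
  refine ⟨α, fun d => ?_, h1, h2, h3⟩
  rcases h3 d (α (α d)) ((h2 _).1.trans (h2 _).1) ((h2 _).2.trans (h2 _).2) with h | h
  · exact h
  · exact absurd h (h1 _)

theorem ex_beta : ∃ β : Dt G K χ → Dt G K χ, Function.Involutive β ∧
    (∀ d, β d = d ↔ d.1.2.2 ∈ K) ∧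
    (∀ d, d.1.2.2 ∉ K → χ d.1.2.2 = 0 → (β d).1 = (d.1.2.2, d.1.2.1, d.1.1)) ∧
    ∀ d, d.1.2.2 ∉ K → χ d.1.2.2 = 1 → (β d).1 = (d.1.1, d.1.2.2, d.1.2.1) := by
  have h : ∀ d : Dt G K χ, ∃ e : Dt G K χ, (d.1.2.2 ∈ K → e = d) ∧
      (d.1.2.2 ∉ K → χ d.1.2.2 = 0 → e.1 = (d.1.2.2, d.1.2.1, d.1.1)) ∧
      (d.1.2.2 ∉ K → χ d.1.2.2 = 1 → e.1 = (d.1.1, d.1.2.2, d.1.2.1)) := by
    rintro ⟨⟨u, v, w⟩, hd⟩
    by_cases hw : w ∈ K
    · exact ⟨⟨(u, v, w), hd⟩, fun _ => rfl, fun h => absurd hw h, fun h => absurd hw h⟩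
    rcases z2_cases (χ w) with h | h
    · refine ⟨⟨(w, v, u), T_swap (T_swap' (T_swap hd.1)), hw, hd.2.2.1, h, hd.2.2.2.2⟩,
        fun h' => absurd h' hw, fun _ _ => rfl, fun _ h' => ?_⟩
      exact absurd (h.symm.trans h') (by decide)
    · refine ⟨⟨(u, w, v), T_swap' hd.1, hd.2.1, hw, hd.2.2.2.1, h⟩,
        fun h' => absurd h' hw, fun _ h' => ?_, fun _ _ => rfl⟩
      exact absurd (h'.symm.trans h) (by decide)
  choose β h1 h2 h3 using h
  refine ⟨β, fun d => ?_, fun d => ⟨fun h => ?_, h1 d⟩, h2, h3⟩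
  · by_cases hw : d.1.2.2 ∈ K
    · rw [h1 d hw, h1 d hw]
    rcases z2_cases (χ d.1.2.2) with h | h
    · have e := h2 d hw h
      refine Subtype.ext ?_
      rw [h2 (β d) (by rw [e]; exact d.2.2.1) (by rw [e]; exact d.2.2.2.2.1), e]
    · have e := h3 d hw h
      refine Subtype.ext ?_
      rw [h3 (β d) (by rw [e]; exact d.2.2.2.1) (by rw [e]; exact d.2.2.2.2.2), e]
  · by_contra hw
    rcases z2_cases (χ d.1.2.2) with h' | h'
    · have e := h2 d hw h'
      rw [h] at e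
      exact d.2.1.2.1.ne (congrArg Prod.fst e)
    · have e := h3 d hw h'
      rw [h] at e
      exact d.2.1.2.2.ne (congrArg (fun p : V × V × V => p.2.1) e)

variable {r : ℕ} {ρ : ℕ → V} {lab : V → V → ℕ}

/-- The boundary dart `p` sits at position `t` of the ring. -/
def Idx (r : ℕ) (lab : V → V → ℕ) (p : V × V × V) (t : ℕ) : Prop :=
  (lab p.2.2 p.1 = t ∧ lab p.2.2 p.2.1 = (t + 1) % r) ∨
    (lab p.2.2 p.2.1 = t ∧ lab p.2.2 p.1 = (t + 1) % r)

theorem succ2 {r t t' : ℕ} (h3 : 3 ≤ r) (ht : t < r) (ht' : t' < r) (h1 : t' = (t + 1) % r)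
    (h2 : t = (t' + 1) % r) : False := by
  have key : ∀ s < r, (s + 1 < r ∧ (s + 1) % r = s + 1) ∨ (s + 1 = r ∧ (s + 1) % r = 0) := by
    intro s hs
    rcases Nat.lt_or_ge (s + 1) r with h | h
    · exact Or.inl ⟨h, Nat.mod_eq_of_lt h⟩
    · have e : s + 1 = r := by omega
      exact Or.inr ⟨e, by rw [e, Nat.mod_self]⟩
  have := key t ht
  have := key t' ht'
  omega

theorem ex_iota (hD : Disc G K r ρ lab) : ∃ ι : Dt G K χ → ℕ,
    (∀ d : Dt G K χ, d.1.2.2 ∈ K → ι d ∈ Sp χ r ρ ∧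
      ((d.1.1 = ρ (ι d) ∧ d.1.2.1 = ρ ((ι d + 1) % r)) ∨
        (d.1.2.1 = ρ (ι d) ∧ d.1.1 = ρ ((ι d + 1) % r)))) ∧
    (∀ d : Dt G K χ, d.1.2.2 ∈ K → ∀ t, Idx r lab d.1 t → ι d = t) ∧
    (∀ d d' : Dt G K χ, d.1.2.2 ∈ K → d'.1.2.2 ∈ K → ι d = ι d' → d = d') ∧
    ∀ t ∈ Sp χ r ρ, ∃ d : Dt G K χ, d.1.2.2 ∈ K ∧ ι d = t := by
  have hl : ∀ d : Dt G K χ, d.1.2.2 ∈ K →
      (lab d.1.2.2 d.1.1 < r ∧ ρ (lab d.1.2.2 d.1.1) = d.1.1) ∧
      (lab d.1.2.2 d.1.2.1 < r ∧ ρ (lab d.1.2.2 d.1.2.1) = d.1.2.1) := fun d hd =>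
    ⟨hD.lt _ hd _ d.2.2.1 d.2.1.2.1.symm, hD.lt _ hd _ d.2.2.2.1 d.2.1.2.2.symm⟩
  have h : ∀ d : Dt G K χ, ∃ t, d.1.2.2 ∈ K → Idx r lab d.1 t := fun d => by
    by_cases hd : d.1.2.2 ∈ K
    · rcases hD.lab1 _ hd _ d.2.2.1 _ d.2.2.2.1 (T_swap (T_swap' d.2.1)) with h | h
      · exact ⟨_, fun _ => Or.inl ⟨rfl, h⟩⟩
      · exact ⟨_, fun _ => Or.inr ⟨rfl, h⟩⟩
    · exact ⟨0, fun h => absurd h hd⟩
  choose ι hι using h
  have h1 : ∀ d : Dt G K χ, d.1.2.2 ∈ K → ι d < r ∧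
      ((d.1.1 = ρ (ι d) ∧ d.1.2.1 = ρ ((ι d + 1) % r) ∧ lab d.1.2.2 d.1.1 = ι d ∧
        lab d.1.2.2 d.1.2.1 = (ι d + 1) % r) ∨
        (d.1.2.1 = ρ (ι d) ∧ d.1.1 = ρ ((ι d + 1) % r) ∧ lab d.1.2.2 d.1.2.1 = ι d ∧
        lab d.1.2.2 d.1.1 = (ι d + 1) % r)) := fun d hd => by
    obtain ⟨⟨a1, a2⟩, b1, b2⟩ := hl d hd
    rcases hι d hd with ⟨e1, e2⟩ | ⟨e1, e2⟩
    · exact ⟨e1 ▸ a1, Or.inl ⟨by rw [← e1, a2], by rw [← e2, b2], e1, e2⟩⟩
    · exact ⟨e1 ▸ b1, Or.inr ⟨by rw [← e1, b2], by rw [← e2, a2], e1, e2⟩⟩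
  have h2 : ∀ d : Dt G K χ, d.1.2.2 ∈ K → ∀ t, Idx r lab d.1 t → ι d = t := fun d hd t ht => by
    obtain ⟨⟨a1, -⟩, b1, -⟩ := hl d hd
    rcases hι d hd with ⟨e1, e2⟩ | ⟨e1, e2⟩ <;> rcases ht with ⟨f1, f2⟩ | ⟨f1, f2⟩
    · exact e1.symm.trans f1
    · exact (succ2 hD.three (e1 ▸ a1) (f1 ▸ b1) (f1.symm.trans e2) (e1.symm.trans f2)).elim
    · exact (succ2 hD.three (e1 ▸ b1) (f1 ▸ a1) (f1.symm.trans e2) (e1.symm.trans f2)).elim
    · exact e1.symm.trans f1
  have h01 : (0 : Z2) ≠ 1 := by decide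
  refine ⟨ι, fun d hd => ?_, h2, fun d d' hd hd' he => ?_, fun t ht => ?_⟩
  · obtain ⟨a, b⟩ := h1 d hd
    have c0 := d.2.2.2.2.1
    have c1 := d.2.2.2.2.2
    rcases b with ⟨e1, e2, -⟩ | ⟨e1, e2, -⟩
    · exact ⟨⟨a, by rw [← e1, ← e2, c0, c1]; exact h01⟩, Or.inl ⟨e1, e2⟩⟩
    · exact ⟨⟨a, by rw [← e1, ← e2, c0, c1]; exact h01.symm⟩, Or.inr ⟨e1, e2⟩⟩
  · have hk : ∀ d : Dt G K χ, d.1.2.2 ∈ K → d.1.2.2 ∈ K ∧
        T G d.1.2.2 (ρ (ι d)) (ρ ((ι d + 1) % r)) ∧ lab d.1.2.2 (ρ (ι d)) = ι d ∧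
        lab d.1.2.2 (ρ ((ι d + 1) % r)) = (ι d + 1) % r := fun d hd => by
      rcases (h1 d hd).2 with ⟨e1, e2, e3, e4⟩ | ⟨e1, e2, e3, e4⟩
      · rw [← e1, ← e2]
        exact ⟨hd, T_swap (T_swap' d.2.1), e3, e4⟩
      · rw [← e1, ← e2]
        exact ⟨hd, T_swap' (T_swap (T_swap' d.2.1)), e3, e4⟩
    have e3 : d.1.2.2 = d'.1.2.2 :=
      (hD.uniq (ι d) (h1 d hd).1).unique (hk d hd) (he ▸ hk d' hd')
    have c0 := d.2.2.2.2.1
    have c1 := d.2.2.2.2.2
    have c0' := d'.2.2.2.2.1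
    have c1' := d'.2.2.2.2.2
    have b := (h1 d hd).2
    have b' := (h1 d' hd').2
    rw [← he] at b'
    rcases b with ⟨e1, e2, -⟩ | ⟨e1, e2, -⟩ <;> rcases b' with ⟨f1, f2, -⟩ | ⟨f1, f2, -⟩
    · exact Subtype.ext (Prod.ext (e1.trans f1.symm) (Prod.ext (e2.trans f2.symm) e3))
    · rw [e1, ← f1, c1'] at c0
      exact absurd c0 h01.symm
    · rw [e1, ← f1, c0'] at c1
      exact absurd c1 h01
    · exact Subtype.ext (Prod.ext (e2.trans f2.symm) (Prod.ext (e1.trans f1.symm) e3))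
  · obtain ⟨k, ⟨hk, hT, l1, l2⟩, -⟩ := hD.uniq t ht.1
    have o1 := hD.out t ht.1
    have o2 := hD.out ((t + 1) % r) (Nat.mod_lt _ (by have := hD.three; omega))
    have hne := ht.2
    rcases z2_cases (χ (ρ t)) with h | h <;> rcases z2_cases (χ (ρ ((t + 1) % r))) with h' | h'
    · exact absurd (h.trans h'.symm) hne
    · exact ⟨⟨(ρ t, ρ ((t + 1) % r), k), T_swap' (T_swap hT), o1, o2, h, h'⟩, hk,
        h2 _ hk t (Or.inl ⟨l1, l2⟩)⟩
    · exact ⟨⟨(ρ ((t + 1) % r), ρ t, k), T_swap (T_swap' (T_swap hT)), o2, o1, h', h⟩, hk,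
        h2 _ hk t (Or.inr ⟨l1, l2⟩)⟩
    · exact absurd (h.trans h'.symm) hne

/-- `p` is constant along the edges outside `K` that are not crossing. -/
def Cst (G : SimpleGraph V) (K : Set V) (χ : V → Z2) (p : V → Z2) : Prop :=
  ∀ u v, u ∉ K → v ∉ K → G.Adj u v → χ u = χ v → p u = p v

theorem sum_shift {M : Type} [AddCommMonoid M] (f : ℕ → M) (r : ℕ) :
    ∑ t ∈ range r, f ((t + 1) % r) = ∑ t ∈ range r, f t := by
  cases r with
  | zero => simp
  | succ s =>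
    rw [sum_range_succ, sum_range_succ' f, Nat.mod_self]
    congr 1
    refine sum_congr rfl fun t ht => ?_
    rw [Nat.mod_eq_of_lt (by have := mem_range.1 ht; omega)]

/-- The disc lemma. -/
theorem cut_of [Fintype V] [DecidableEq V] (hT : Tri G) (hD : Disc G K r ρ lab)
    (f : V → V → Z2) (fs : ∀ u v, f u v = f v u) (J : ℕ → Z2) (hJ : ∑ t ∈ range r, J t = 0)
    (h0 : ∀ u v w, u ∉ K → v ∉ K → w ∉ K → T G u v w → f u v + f u w + f v w = 0)
    (h1 : ∀ k u v, k ∈ K → u ∉ K → v ∉ K → T G k u v → lab k v = (lab k u + 1) % r →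
      f u v = J (lab k u)) :
    ∃ p : V → Z2, ∀ u v, u ∉ K → v ∉ K → G.Adj u v → f u v = p u + p v := by
  classical
  let q : ℕ → Z2 := fun t => ∑ s ∈ range t, J s
  have hq : ∀ t < r, q t + q ((t + 1) % r) + J t = 0 := by
    intro t ht
    rcases Nat.lt_or_ge (t + 1) r with h | h
    · rw [Nat.mod_eq_of_lt h]
      simp only [q, sum_range_succ]
      generalize ∑ s ∈ range t, J s = x
      generalize J t = y
      revert x y
      decide
    · have e : t + 1 = r := by omega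
      rw [e, Nat.mod_self]
      rw [← e, sum_range_succ] at hJ
      simpa [q] using hJ
  let F : V → V → Z2 := fun u v =>
    if u ∈ K then (if v ∈ K then 0 else q (lab u v)) else (if v ∈ K then q (lab v u) else f u v)
  have Fs : ∀ u v, F u v = F v u := fun u v => by
    by_cases hu : u ∈ K <;> by_cases hv : v ∈ K <;> simp [F, hu, hv, fs u v]
  have t1 : ∀ k u v, k ∈ K → u ∉ K → v ∉ K → T G k u v →
      q (lab k u) + q (lab k v) + f u v = 0 := by
    intro k u v hk hu hv h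
    rcases hD.lab1 k hk u hu v hv h with e | e
    · rw [h1 k u v hk hu hv h e, e]
      exact hq _ (hD.lt k hk u hu h.1).1
    · rw [fs, h1 k v u hk hv hu (T_swap' h) e, add_comm (q (lab k u)), e]
      exact hq _ (hD.lt k hk v hv h.2.1).1
  obtain ⟨p, hp⟩ := hT.span (Sym2.lift ⟨F, Fs⟩) (by
    intro u v w h
    simp only [Sym2.lift_mk]
    by_cases hu : u ∈ K <;> by_cases hv : v ∈ K <;> by_cases hw : w ∈ K <;>
      simp only [F, hu, hv, hw, if_true, if_false]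
    · simp
    · rw [hD.lab2 u hu v hv w hw h, zero_add, z2_add_self]
    · rw [hD.lab2 u hu w hw v hv (T_swap' h), add_zero, z2_add_self]
    · exact t1 u v w hu hv hw h
    · rw [hD.lab2 v hv w hw u hu (T_swap' (T_swap h)), add_zero, z2_add_self]
    · have := t1 v u w hv hu hw (T_swap h)
      linear_combination this
    · have := t1 w u v hw hu hv (T_swap (T_swap' h))
      linear_combination this
    · exact h0 u v w hu hv hw h)
  refine ⟨p, fun u v hu hv h => ?_⟩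
  have := hp u v h
  simpa only [Sym2.lift_mk, F, hu, hv, if_false] using this

theorem disc [Fintype V] [DecidableEq V] (hT : Tri G) (hD : Disc G K r ρ lab) (χ : V → Z2) :
    ∃ μ : ℕ → ℕ, (∀ t ∈ Sp χ r ρ, μ t ∈ Sp χ r ρ ∧ μ t ≠ t ∧ μ (μ t) = t) ∧
      (∀ p, Cst G K χ p → ∀ t ∈ Sp χ r ρ,
        p (ρ (μ t)) * p (ρ ((μ t + 1) % r)) = p (ρ t) * p (ρ ((t + 1) % r))) ∧
      ∀ J : ℕ → Z2, (∀ t, t ∉ Sp χ r ρ → J t = 0) → (∀ t ∈ Sp χ r ρ, J (μ t) = J t) →
        ∃ p, Cst G K χ p ∧ ∀ t < r, p (ρ t) + p (ρ ((t + 1) % r)) = J t := by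
  classical
  obtain ⟨α, hα, hne, α1, α2⟩ := ex_alpha (K := K) (χ := χ) hT
  obtain ⟨β, hβ, β0, β1, β2⟩ := ex_beta (G := G) (K := K) (χ := χ)
  obtain ⟨ι, ι1, ι2, ι3, ι4⟩ := ex_iota (χ := χ) hD
  obtain ⟨μ, μ1, μ2, μ3⟩ := two_inv α β hα hβ hne
  choose τ τ1 τ2 using ι4
  let ν : ℕ → ℕ := fun t => if h : t ∈ Sp χ r ρ then ι (μ (τ t h)) else 0
  have hν : ∀ d : Dt G K χ, d.1.2.2 ∈ K → ν (ι d) = ι (μ d) := fun d hd => by
    have h := (ι1 d hd).1
    simp only [ν, dif_pos h]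
    rw [ι3 _ _ (τ1 _ h) hd (τ2 _ h)]
  have hμK : ∀ d : Dt G K χ, d.1.2.2 ∈ K → (μ d).1.2.2 ∈ K := fun d hd =>
    (β0 _).1 (μ1 d ((β0 d).2 hd)).1
  have hA : ∀ t ∈ Sp χ r ρ, ν t ∈ Sp χ r ρ ∧ ν t ≠ t ∧ ν (ν t) = t := fun t ht => by
    have hd := τ1 t ht
    have e := τ2 t ht
    generalize τ t ht = d at hd e
    subst e
    obtain ⟨-, m2, m3⟩ := μ1 d ((β0 d).2 hd)
    rw [hν d hd, hν _ (hμK d hd), m3]
    exact ⟨(ι1 _ (hμK d hd)).1, fun h => m2 (ι3 _ _ (hμK d hd) hd h), rfl⟩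
  have h01 : (0 : Z2) ≠ 1 := by decide
  refine ⟨ν, hA, fun p hp t ht => ?_, fun J J0 J1 => ?_⟩
  · have hd := τ1 t ht
    have e := τ2 t ht
    generalize τ t ht = d at hd e
    subst e
    have hb : ∀ d : Dt G K χ, d.1.2.2 ∈ K →
        p (ρ (ι d)) * p (ρ ((ι d + 1) % r)) = p d.1.1 * p d.1.2.1 := fun d hd => by
      rcases (ι1 d hd).2 with ⟨e1, e2⟩ | ⟨e1, e2⟩
      · rw [← e1, ← e2]
      · rw [← e1, ← e2, mul_comm]
    rw [hν d hd, hb d hd, hb _ (hμK d hd)]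
    refine μ2 (fun d => p d.1.1 * p d.1.2.1) (fun d => ?_) (fun d => ?_) d
    · rw [(α1 d).1, (α1 d).2]
    · by_cases hw : d.1.2.2 ∈ K
      · rw [(β0 d).2 hw]
      rcases z2_cases (χ d.1.2.2) with h | h
      · rw [β1 d hw h, hp _ _ d.2.2.1 hw d.2.1.2.1 (d.2.2.2.2.1.trans h.symm)]
      · rw [β2 d hw h, hp _ _ d.2.2.2.1 hw d.2.1.2.2 (d.2.2.2.2.2.trans h.symm)]
  · obtain ⟨a, a1, a2, a3⟩ := μ3 (fun d => J (ι d)) (fun d hd => by
      have hd' := (β0 d).1 hd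
      rw [← hν d hd', J1 _ (ι1 d hd').1])
    let g : V → V → Z2 := fun u v =>
      if h : ∃ w, IsD G K χ (u, v, w) then a ⟨(u, v, h.choose), h.choose_spec⟩ else 0
    have g0 : ∀ u v, ¬ (χ u = 0 ∧ χ v = 1) → g u v = 0 := fun u v h =>
      dif_neg fun ⟨_, hw⟩ => h hw.2.2.2
    have g1 : ∀ d : Dt G K χ, g d.1.1 d.1.2.1 + g d.1.2.1 d.1.1 = a d := fun d => by
      have hex : ∃ w, IsD G K χ (d.1.1, d.1.2.1, w) := ⟨d.1.2.2, d.2⟩
      rw [g0 d.1.2.1 d.1.1 (fun h => h01 (h.1.symm.trans d.2.2.2.2.2)), add_zero]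
      simp only [g, dif_pos hex]
      rcases α2 d ⟨(d.1.1, d.1.2.1, hex.choose), hex.choose_spec⟩ rfl rfl with h | h
      · rw [h]
      · rw [h, a1]
    let f : V → V → Z2 := fun u v => g u v + g v u
    have fs : ∀ u v, f u v = f v u := fun u v => add_comm _ _
    have f0 : ∀ u v, χ u = χ v → f u v = 0 := fun u v h => by
      simp only [f]
      rw [g0 u v (fun h' => h01 (h'.1.symm.trans (h.trans h'.2))),
        g0 v u (fun h' => h01 (h'.1.symm.trans (h.symm.trans h'.2))), add_zero]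
    have f1 : ∀ u v w, u ∉ K → v ∉ K → w ∉ K → T G u v w → χ u ≠ χ v → χ v = χ w →
        f u v + f u w + f v w = 0 := by
      intro u v w hu hv hw h hne he
      rw [f0 v w he, add_zero, z2_eq]
      rcases z2_cases (χ u) with c | c <;> rcases z2_cases (χ v) with c' | c'
      · exact absurd (c.trans c'.symm) hne
      · let d : Dt G K χ := ⟨(u, v, w), h, hu, hv, c, c'⟩
        have e1 := g1 d
        have e2 := g1 (β d)
        rw [β2 d hw (he ▸ c'), a2] at e2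
        exact e1.trans e2.symm
      · let d : Dt G K χ := ⟨(v, u, w), T_swap h, hv, hu, c', c⟩
        have e1 := g1 d
        have e2 := g1 (β d)
        rw [β1 d hw (he ▸ c'), a2] at e2
        rw [fs u v, fs u w]
        exact e1.trans e2.symm
      · exact absurd (c.trans c'.symm) hne
    have h1 : ∀ k u v, k ∈ K → u ∉ K → v ∉ K → T G k u v → lab k v = (lab k u + 1) % r →
        f u v = J (lab k u) := by
      intro k u v hk hu hv h e
      rcases z2_cases (χ u) with c | c <;> rcases z2_cases (χ v) with c' | c'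
      · rw [f0 u v (c.trans c'.symm), J0]
        intro hs
        apply hs.2
        rw [← e, (hD.lt k hk u hu h.1).2, (hD.lt k hk v hv h.2.1).2, c, c']
      · let d : Dt G K χ := ⟨(u, v, k), T_swap' (T_swap h), hu, hv, c, c'⟩
        have e1 := g1 d
        rw [a3 d ((β0 d).2 hk), ι2 d hk (lab k u) (Or.inl ⟨rfl, e⟩)] at e1
        exact e1
      · let d : Dt G K χ := ⟨(v, u, k), T_swap (T_swap' (T_swap h)), hv, hu, c', c⟩
        have e1 := g1 d
        rw [a3 d ((β0 d).2 hk), ι2 d hk (lab k u) (Or.inr ⟨rfl, e⟩)] at e1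
        rw [fs]
        exact e1
      · rw [f0 u v (c.trans c'.symm), J0]
        intro hs
        apply hs.2
        rw [← e, (hD.lt k hk u hu h.1).2, (hD.lt k hk v hv h.2.1).2, c, c']
    have hJ : ∑ t ∈ range r, J t = 0 := by
      rw [← sum_filter_add_sum_filter_not (range r) (fun t => t ∈ Sp χ r ρ)]
      rw [sum_eq_zero (s := (range r).filter fun t => ¬ t ∈ Sp χ r ρ)
        fun t ht => J0 t (mem_filter.1 ht).2, add_zero]
      refine sum_involution (fun t _ => ν t) (fun t ht => ?_) (fun t ht _ => ?_)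
        (fun t ht => ?_) (fun t ht => ?_)
      · rw [J1 t (mem_filter.1 ht).2, z2_add_self]
      · exact (hA t (mem_filter.1 ht).2).2.1
      · have := (hA t (mem_filter.1 ht).2).1
        exact mem_filter.2 ⟨mem_range.2 this.1, this⟩
      · exact (hA t (mem_filter.1 ht).2).2.2
    obtain ⟨p, hp⟩ := cut_of hT hD f fs J hJ (by
      intro u v w hu hv hw h
      by_cases e1 : χ u = χ v <;> by_cases e2 : χ v = χ w
      · rw [f0 u v e1, f0 v w e2, f0 u w (e1.trans e2)]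
        simp
      · have := f1 w u v hw hu hv (T_swap (T_swap' h)) (fun h => e2 (e1.symm.trans h.symm)) e1
        rw [fs w u, fs w v] at this
        linear_combination this
      · exact f1 u v w hu hv hw h e1 e2
      · have e3 : χ u = χ w := by
          revert e1 e2
          generalize χ u = x
          generalize χ v = y
          generalize χ w = z
          revert x y z
          decide
        have := f1 v u w hv hu hw (T_swap h) (fun h => e1 h.symm) e3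
        rw [fs v u] at this
        linear_combination this) h1
    refine ⟨p, fun u v hu hv h e => ?_, fun t ht => ?_⟩
    · rw [← z2_eq, ← hp u v hu hv h, f0 u v e]
    · obtain ⟨k, ⟨hk, hT', l1, l2⟩, -⟩ := hD.uniq t ht
      have o1 := hD.out t ht
      have o2 := hD.out ((t + 1) % r) (Nat.mod_lt _ (by omega))
      rw [← hp _ _ o1 o2 (hD.adj t ht), h1 k _ _ hk o1 o2 hT' (by rw [l1, l2]), l1]

theorem matching [Fintype V] [DecidableEq V] (hT : Tri G) (hD : Disc G K r ρ lab) (χ : V → Z2) :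
    ∃ μ : ℕ → ℕ, NC (Sp χ r ρ) μ ∧
      ∀ J : ℕ → Z2, (∀ t, t ∉ Sp χ r ρ → J t = 0) → (∀ t ∈ Sp χ r ρ, J (μ t) = J t) →
        ∃ p, Cst G K χ p ∧ ∀ t < r, p (ρ t) + p (ρ ((t + 1) % r)) = J t := by
  obtain ⟨μ, h1, h2, h3⟩ := disc hT hD χ
  refine ⟨μ, ⟨fun t ht => (h1 t ht).1, fun t ht => (h1 t ht).2.1, fun t ht => (h1 t ht).2.2,
    fun t ht u hu l1 l2 l3 => ?_⟩, h3⟩
  obtain ⟨p, hp, hJ⟩ := h3 (fun s => if s = t ∨ s = μ t then 1 else 0) (fun s hs => by
    refine if_neg ?_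
    rintro (rfl | rfl)
    exacts [hs ht, hs (h1 t ht).1]) (fun s hs => by
    refine if_congr ⟨?_, ?_⟩ rfl rfl
    · rintro (h | h)
      · exact Or.inr (by rw [← h, (h1 s hs).2.2])
      · exact Or.inl (by rw [← (h1 s hs).2.2, h, (h1 t ht).2.2])
    · rintro (h | h)
      · exact Or.inr (by rw [h])
      · exact Or.inl (by rw [h, (h1 t ht).2.2]))
  have hr : μ u < r := (h1 u hu).1.1
  have key : ∀ s, u ≤ s → s ≤ μ u → p (ρ s) = p (ρ u) + if μ t < s then 1 else 0 := by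
    intro s hs
    induction s, hs using Nat.le_induction with
    | base => intro _; rw [if_neg (by omega), add_zero]
    | succ s hs ih =>
      intro hs'
      have e := hJ s (by omega)
      rw [Nat.mod_eq_of_lt (by omega), ih (by omega)] at e
      have z : ∀ x y c d : Z2, x + c + y = d → y = x + (c + d) := by decide
      rw [z _ _ _ _ e]
      congr 1
      rcases lt_trichotomy s (μ t) with h | h | h
      · rw [if_neg (by omega), if_neg (by omega), if_neg (by omega), add_zero]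
      · rw [if_neg (by omega), if_pos (by omega), if_pos (by omega), zero_add]
      · rw [if_pos (by omega), if_neg (by omega), if_pos (by omega), add_zero]
  have e1 := key (μ u) (by omega) le_rfl
  rw [if_pos l3] at e1
  have e2 := hJ u hu.1
  rw [if_neg (by omega)] at e2
  have e3 := h2 (fun v => p v + p (ρ (μ u))) (fun x y hx hy h e => by
    show p x + _ = p y + _
    rw [hp x y hx hy h e]) u hu
  rw [← z2_eq.1 e2, e1] at e3
  revert e3
  generalize p (ρ u) = x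
  generalize p (ρ ((μ u + 1) % r)) = y
  revert x y
  decide

end main

end Kempe

open Kempe in
theorem kempe : StmtKEMPE := by
  intro V _ _ G K r ρ lab hT hD
  have o2 : ∀ t, ρ ((t + 1) % r) ∉ K := fun t =>
    hD.out _ (Nat.mod_lt _ (by have := hD.three; omega))
  refine ⟨?_, ?_, ?_, ?_, ?_⟩
  · rintro x ⟨c, hc, hx⟩ t ht h
    rw [hx t ht, k4_eq] at h
    exact hc _ _ (hD.out t ht) (o2 t) (hD.adj t ht) h
  · rintro x ⟨c, hc, hx⟩
    rw [sum_congr rfl fun t ht => hx t (mem_range.1 ht), sum_add_distrib,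
      sum_shift (fun t => c (ρ t)) r, k4_eq]
  · rintro x ⟨c, hc, hx⟩ y hy
    exact ⟨c, hc, fun t ht => (hy t ht).trans (hx t ht)⟩
  · rintro x ⟨c, hc, hx⟩ g
    exact ⟨fun v => g (c v), fun u v hu hv h e => hc u v hu hv h (g.injective e),
      fun t ht => by simp only [hx t ht, map_add]⟩
  · rintro x ⟨c, hc, hx⟩
    have hs : supp r x = Sp (fun v => (c v).1) r ρ := by
      ext t
      refine and_congr_right fun ht => ?_
      rw [hx t ht, Prod.fst_add]
      exact not_congr z2_eq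
    obtain ⟨μ, h1, h2⟩ := matching hT hD fun v => (c v).1
    rw [hs]
    refine ⟨μ, h1, fun J J0 J1 => ?_⟩
    obtain ⟨p, hp, hJ⟩ := h2 J J0 J1
    refine ⟨fun v => c v + (0, p v), fun u v hu hv h e => ?_, fun t ht => ?_⟩
    · have e1 : (c u).1 = (c v).1 := by simpa using congrArg Prod.fst e
      have e' : c u + (0, p u) = c v + (0, p v) := e
      rw [hp u v hu hv h e1] at e'
      exact hc u v hu hv h (add_right_cancel e')
    · show x t + (0, J t) = c (ρ t) + (0, p (ρ t)) + (c (ρ ((t + 1) % r)) + (0, p (ρ ((t + 1) % r))))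
      rw [hx t ht, ← hJ t ht, add_add_add_comm]
      rfl

end Pool.Agent.MP_31805c_co.H47
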