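import Pool.Agent.MP_31805c_co.H47.SpecC

/-!
The known parts of the links of the spokes.
-/

namespace Pool.Agent.MP_31805c_co.H47

namespace Kl0

theorem win_get {l : List ℕ} {a b c : ℕ} (h : Win l a b c) :
    ∃ k, k + 2 < l.length ∧ l.getD k 0 = a ∧ l.getD (k + 1) 0 = b ∧ l.getD (k + 2) 0 = c := by
  obtain ⟨s, t, rfl⟩ := h
  refine ⟨s.length, by simp, ?_, ?_, ?_⟩
  · rw [List.getD_append_right _ _ _ _ le_rfl]
    simp
  · rw [List.getD_append_right _ _ _ _ (by omega)]
    simp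
  · rw [List.getD_append_right _ _ _ _ (by omega)]
    simp

variable {V : Type}

theorem win_t3 {G : SimpleGraph V} (L : Lnk G) {ψ : Fl V} (hψ : IsFl G ψ) (f : ℕ → V)
    (l : List ℕ) (off : ℕ)
    (h : ∀ k < l.length, l.getD k 0 < 64 ∧ f (l.getD k 0) = nb G ψ (off + k)) {y x z : ℕ}
    (hw : Win l y x z) : y < 64 ∧ x < 64 ∧ z < 64 ∧ T3 G ψ.1 (f y) (f x) (f z) := by
  obtain ⟨k, hk, rfl, rfl, rfl⟩ := win_get hw
  obtain ⟨a0, b0⟩ := h k (by omega)
  obtain ⟨a1, b1⟩ := h (k + 1) (by omega)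
  obtain ⟨a2, b2⟩ := h (k + 2) hk
  refine ⟨a0, a1, a2, ?_⟩
  rw [b0, b1, b2]
  exact L.t3 hψ (off + k)

theorem nb_one (G : SimpleGraph V) (ψ : Fl V) : nb G ψ 1 = ψ.2.2 := rfl

theorem vlab_mk [Fintype V] {G : SimpleGraph V} (hG : Geo G) (φ : Fl V) (i j : ℕ) (hj : j < 5) :
    vlab G φ (5 * i + 1 + j) = posB G ((rot G)^[i] φ) j := by
  rw [vlab, if_neg (by omega), ← hG.pos_mk φ i j hj]
  congr 1
  omega

/-- the list of labels runs through consecutive neighbours of the spoke -/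
theorem kl1_run {G : SimpleGraph V} (L : Lnk G) {ψ : Fl V} (hψ : IsFl G ψ) (f : ℕ → V)
    (a e sp sm : ℕ) (h5 : 5 ≤ dg G ψ.1) (he : e ≠ 0 → dg G ψ.1 = e ∧ e ≤ 8) (ha : a < 55)
    (hp : sp < 64) (hm : sm < 63) (h0 : f 0 = nb G ψ 0) (h1 : f sp = nb G ψ 1)
    (hj : ∀ j, 1 ≤ j → j < 5 → f (a + j) = nb G ψ (j + 1)) (hs : f sm = nb G ψ (dg G ψ.1 - 1))
    (hs1 : f (sm + 1) = nb G ψ (dg G ψ.1 - 2)) :
    ∃ off, ∀ k < (kl1 a e sp sm).length, (kl1 a e sp sm).getD k 0 < 64 ∧
      f ((kl1 a e sp sm).getD k 0) = nb G ψ (off + k) := by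
  have per : ∀ i j, j = i + dg G ψ.1 → nb G ψ i = nb G ψ j := by
    rintro i j rfl
    exact (L.eq hψ _ _).2 (Nat.add_modEq_right).symm
  have per2 : ∀ i j, j = i + dg G ψ.1 + dg G ψ.1 → nb G ψ i = nb G ψ j := fun i j h =>
    (per i _ rfl).trans (per _ j h)
  by_cases h : e = 0
  · subst h
    refine ⟨dg G ψ.1 - 2, fun k hk => ?_⟩
    have e1 : kl1 a 0 sp sm = [sm + 1, sm, 0, sp, a + 1] := rfl
    rw [e1] at hk ⊢
    simp only [List.length_cons, List.length_nil] at hk
    interval_cases k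
    · exact ⟨by simp; omega, hs1⟩
    · refine ⟨by simp; omega, hs.trans ?_⟩
      congr 1
      omega
    · exact ⟨by simp, h0.trans (per _ _ (by omega))⟩
    · exact ⟨by simpa using hp, h1.trans (per _ _ (by omega))⟩
    · exact ⟨by simp; omega, (hj 1 le_rfl (by omega)).trans (per _ _ (by omega))⟩
  · obtain ⟨hd, h8⟩ := he h
    refine ⟨dg G ψ.1 - 1, fun k hk => ?_⟩
    have j1 := hj 1 (by omega) (by omega)
    have j2 := hj 2 (by omega) (by omega)
    have j3 := hj 3 (by omega) (by omega)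
    have j4 := hj 4 (by omega) (by omega)
    have h5' : 5 ≤ e := hd ▸ h5
    interval_cases e
    · have e1 : kl1 a 5 sp sm = [sm, 0, sp, a + 1, sm + 1, sm, 0] := rfl
      rw [e1] at hk ⊢
      simp only [List.length_cons, List.length_nil] at hk
      interval_cases k
      · exact ⟨by simp; omega, hs⟩
      · exact ⟨by simp, h0.trans (per _ _ (by omega))⟩
      · exact ⟨by simpa using hp, h1.trans (per _ _ (by omega))⟩
      · exact ⟨by simp; omega, j1.trans (per _ _ (by omega))⟩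
      · exact ⟨by simp; omega, hs1.trans (per _ _ (by omega))⟩
      · exact ⟨by simp; omega, hs.trans (per _ _ (by omega))⟩
      · exact ⟨by simp, h0.trans (per2 _ _ (by omega))⟩
    · have e1 : kl1 a 6 sp sm = [sm, 0, sp, a + 1, a + 2, sm + 1, sm, 0] := rfl
      rw [e1] at hk ⊢
      simp only [List.length_cons, List.length_nil] at hk
      interval_cases k
      · exact ⟨by simp; omega, hs⟩
      · exact ⟨by simp, h0.trans (per _ _ (by omega))⟩
      · exact ⟨by simpa using hp, h1.trans (per _ _ (by omega))⟩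
      · exact ⟨by simp; omega, j1.trans (per _ _ (by omega))⟩
      · exact ⟨by simp; omega, j2.trans (per _ _ (by omega))⟩
      · exact ⟨by simp; omega, hs1.trans (per _ _ (by omega))⟩
      · exact ⟨by simp; omega, hs.trans (per _ _ (by omega))⟩
      · exact ⟨by simp, h0.trans (per2 _ _ (by omega))⟩
    · have e1 : kl1 a 7 sp sm = [sm, 0, sp, a + 1, a + 2, a + 3, sm + 1, sm, 0] := rfl
      rw [e1] at hk ⊢
      simp only [List.length_cons, List.length_nil] at hk
      interval_cases k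
      · exact ⟨by simp; omega, hs⟩
      · exact ⟨by simp, h0.trans (per _ _ (by omega))⟩
      · exact ⟨by simpa using hp, h1.trans (per _ _ (by omega))⟩
      · exact ⟨by simp; omega, j1.trans (per _ _ (by omega))⟩
      · exact ⟨by simp; omega, j2.trans (per _ _ (by omega))⟩
      · exact ⟨by simp; omega, j3.trans (per _ _ (by omega))⟩
      · exact ⟨by simp; omega, hs1.trans (per _ _ (by omega))⟩
      · exact ⟨by simp; omega, hs.trans (per _ _ (by omega))⟩
      · exact ⟨by simp, h0.trans (per2 _ _ (by omega))⟩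
    · have e1 : kl1 a 8 sp sm = [sm, 0, sp, a + 1, a + 2, a + 3, a + 4, sm + 1, sm, 0] := rfl
      rw [e1] at hk ⊢
      simp only [List.length_cons, List.length_nil] at hk
      interval_cases k
      · exact ⟨by simp; omega, hs⟩
      · exact ⟨by simp, h0.trans (per _ _ (by omega))⟩
      · exact ⟨by simpa using hp, h1.trans (per _ _ (by omega))⟩
      · exact ⟨by simp; omega, j1.trans (per _ _ (by omega))⟩
      · exact ⟨by simp; omega, j2.trans (per _ _ (by omega))⟩
      · exact ⟨by simp; omega, j3.trans (per _ _ (by omega))⟩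
      · exact ⟨by simp; omega, j4.trans (per _ _ (by omega))⟩
      · exact ⟨by simp; omega, hs1.trans (per _ _ (by omega))⟩
      · exact ⟨by simp; omega, hs.trans (per _ _ (by omega))⟩
      · exact ⟨by simp, h0.trans (per2 _ _ (by omega))⟩

end Kl0

theorem kl0P : StmtKL0 := by
  intro V _ _ G hM hG φ d D hφ hd hdg hD a y x z hw
  have hc : a < 55 ∧ a % 5 = 1 ∧ 1 ≤ a / 5 + d := by
    by_contra hn
    have e : (Nat.blt a 55 && Nat.beq (a % 5) 1 && Nat.ble 1 (a / 5 + d)) = false := by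
      rw [Bool.eq_false_iff]
      intro h
      simp only [Bool.and_eq_true, Nat.blt_eq, Nat.beq_eq, Nat.ble_eq] at h
      exact hn ⟨h.1.1, h.1.2, h.2⟩
    rw [kl0, e] at hw
    obtain ⟨s, t, h⟩ := hw
    simp at h
  obtain ⟨ha, ha5, had⟩ := hc
  have e : (Nat.blt a 55 && Nat.beq (a % 5) 1 && Nat.ble 1 (a / 5 + d)) = true := by
    simp only [Bool.and_eq_true, Nat.blt_eq, Nat.beq_eq, Nat.ble_eq]
    exact ⟨⟨ha, ha5⟩, had⟩
  rw [kl0, e, cond_true] at hw
  obtain ⟨i, rfl⟩ : ∃ i, a = 5 * i + 1 := ⟨a / 5, by omega⟩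
  have ei : (5 * i + 1) / 5 = i := by omega
  rw [ei] at hw had
  rw [Nat.add_sub_cancel] at hw
  have hmod : ∀ n, (rot G)^[n % d] φ = (rot G)^[n] φ := by
    intro n
    by_cases h0 : d = 0
    · rw [h0, Nat.mod_zero]
    · exact hG.per hφ _ _ (by rw [hdg h0]; exact Nat.mod_modEq n d)
  have hle : ∀ n, n ≤ 11 + d → (d = 0 → n ≤ 11) → n % d ≤ 11 := by
    intro n _ h
    by_cases h0 : d = 0
    · rw [h0, Nat.mod_zero]
      exact h h0
    · have := Nat.mod_lt n (Nat.pos_of_ne_zero h0)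
      omega
  set χ := (rot G)^[i] φ with hχ
  set χ' := (rot G)^[i + d - 1] φ with hχ'
  have hr : rot G χ' = χ := by
    rw [hχ', ← Function.iterate_succ_apply' (rot G)]
    have e1 : (i + d - 1).succ = i + d := by omega
    rw [e1]
    by_cases h0 : d = 0
    · rw [h0, Nat.add_zero]
    · exact hG.per hφ _ _ (by rw [hdg h0]; exact Nat.add_modEq_right)
  have fχ : IsFl G χ := hG.fl hφ i
  have fχ' : IsFl G χ' := hG.fl hφ _
  have fψ : IsFl G (psi χ) := hG.psiF fχ
  have h5 := hG.d5 (psi χ).1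
  have hb := hG.back fχ'
  rw [hr] at hb
  have ha0 : vlab G φ (5 * i + 1) = (psi χ).1 := Kl0.vlab_mk hG φ i 0 (by omega)
  obtain ⟨off, hoff⟩ := Kl0.kl1_run hM.toLnk fψ (vlab G φ) (5 * i + 1) (exg D (5 * i))
    (5 * ((i + 1) % d) + 1) (5 * ((i + d - 1) % d) + 1) h5
    (fun h => by
      obtain ⟨h1, _, h3⟩ := hG.exg φ D (5 * i) hD h
      refine ⟨?_, h3⟩
      rw [← h1]
      exact congrArg (dg G) (hG.pos_mk φ i 0 (by omega)).symm)
    ha
    (by have := hle (i + 1) (by omega) (by omega); omega)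
    (by have := hle (i + d - 1) (by omega) (by omega); omega)
    (by
      have := congrArg Prod.fst (hG.it φ i)
      exact this.symm)
    (by
      have h1 := Kl0.vlab_mk hG φ ((i + 1) % d) 0 (by omega)
      rw [hmod, Function.iterate_succ_apply'] at h1
      exact h1)
    (fun j h1 h2 => by
      rw [Kl0.vlab_mk hG φ i j h2, posB, if_neg (by omega)])
    (by
      have h1 := Kl0.vlab_mk hG φ ((i + d - 1) % d) 0 (by omega)
      rw [hmod] at h1
      rw [← hG.nbmir fψ 1 _ (by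
        rw [show 1 + (dg G (psi χ).1 - 1) = dg G (psi χ).1 by omega]
        exact Nat.modEq_zero_iff_dvd.2 dvd_rfl), hb]
      exact h1)
    (by
      have h1 := Kl0.vlab_mk hG φ ((i + d - 1) % d) 1 (by omega)
      rw [hmod] at h1
      rw [← hG.nbmir fψ 2 _ (by
        rw [show 2 + (dg G (psi χ).1 - 2) = dg G (psi χ).1 by omega]
        exact Nat.modEq_zero_iff_dvd.2 dvd_rfl), hb, hG.hat fχ']
      exact h1)
  obtain ⟨hy, hx, hz, ht⟩ := Kl0.win_t3 hM.toLnk fψ (vlab G φ) _ off hoff hw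
  exact ⟨by omega, hy, hx, hz, ha0 ▸ ht⟩

end Pool.Agent.MP_31805c_co.H47
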