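import Pool.Agent.MP_31805c_co.H47.SpecA

/-! The links of a triangulation are cycles. -/

namespace Pool.Agent.MP_31805c_co.H47

open Pool.Agent.MP_31805c_co.H93 (Conn)

namespace LnkAux

variable {V : Type} {G : SimpleGraph V}

/-- Every edge lies in exactly two triangles. -/
def Two (G : SimpleGraph V) : Prop := ∀ u v, G.Adj u v → (G.commonNeighbors u v).ncard = 2

theorem T3.symm {u y x z : V} (h : T3 G u y x z) : T3 G u z x y := ⟨h.2.1, h.1, h.2.2.symm⟩

theorem T.swap {u x y : V} (h : T G u x y) : T G u y x := ⟨h.2.1, h.1, h.2.2.symm⟩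

theorem cases_of (h : Two G) {u y x z w : V} (h1 : T3 G u y x z) (h2 : T G u x w) :
    w = y ∨ w = z := by
  obtain ⟨a, b, -, hab⟩ := Set.ncard_eq_two.1 (h u x h2.1)
  have m : ∀ t, T G u x t → t = a ∨ t = b := fun t ht => by
    have : t ∈ G.commonNeighbors u x := ⟨ht.2.1, ht.2.2⟩
    rw [hab] at this
    simpa using this
  have hne := h1.2.2
  rcases m y h1.1 with rfl | rfl <;> rcases m z h1.2.1 with rfl | rfl <;>
    rcases m w h2 with rfl | rfl <;> simp_all

theorem uniq (h : Two G) {u y x z z' : V} (h1 : T3 G u y x z) (h2 : T3 G u y x z') : z = z' := by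
  rcases cases_of h h1 h2.2.1 with e | e
  · exact absurd e.symm h2.2.2
  · exact e.symm

theorem opp3 (h : Two G) {u x y : V} (h1 : T G u x y) : T3 G u y x (opp G u x y) := by
  have hex : ∃ z, T G u x z ∧ z ≠ y := by
    obtain ⟨a, b, hne, hab⟩ := Set.ncard_eq_two.1 (h u x h1.1)
    have ha : a ∈ G.commonNeighbors u x := by rw [hab]; simp
    have hb : b ∈ G.commonNeighbors u x := by rw [hab]; simp
    by_cases e : a = y
    · exact ⟨b, ⟨h1.1, hb.1, hb.2⟩, fun e' => hne (e.trans e'.symm)⟩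
    · exact ⟨a, ⟨h1.1, ha.1, ha.2⟩, e⟩
  have e : opp G u x y = hex.choose := by
    unfold opp
    rw [dif_pos hex]
  rw [e]
  exact ⟨h1, hex.choose_spec.1, hex.choose_spec.2.symm⟩

theorem rot_fl (h : Two G) {φ : Fl V} (hφ : IsFl G φ) : IsFl G (rot G φ) :=
  (opp3 h (T.swap hφ)).2.1

theorem fl (h : Two G) {φ : Fl V} (hφ : IsFl G φ) (j : ℕ) : IsFl G ((rot G)^[j] φ) := by
  induction j with
  | zero => exact hφ
  | succ j ih =>
    rw [Function.iterate_succ_apply']
    exact rot_fl h ih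

theorem base (φ : Fl V) (j : ℕ) : ((rot G)^[j] φ).1 = φ.1 := by
  induction j with
  | zero => rfl
  | succ j ih =>
    rw [Function.iterate_succ_apply']
    exact ih

theorem nb_succ (φ : Fl V) (j : ℕ) : nb G φ (j + 1) = ((rot G)^[j] φ).2.2 := by
  unfold nb
  rw [Function.iterate_succ_apply']
  rfl

theorem iter_eq (φ : Fl V) (j : ℕ) : (rot G)^[j] φ = (φ.1, nb G φ j, nb G φ (j + 1)) := by
  rw [nb_succ, ← base (G := G) φ j]
  rfl

theorem nb_two (φ : Fl V) (j : ℕ) :
    nb G φ (j + 2) = opp G φ.1 (nb G φ (j + 1)) (nb G φ j) := by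
  rw [nb_succ, Function.iterate_succ_apply', iter_eq]
  rfl

theorem tri (h : Two G) {φ : Fl V} (hφ : IsFl G φ) (j : ℕ) :
    T G φ.1 (nb G φ j) (nb G φ (j + 1)) := by
  have := fl h hφ j
  rw [iter_eq] at this
  exact this

theorem t3 (h : Two G) {φ : Fl V} (hφ : IsFl G φ) (j : ℕ) :
    T3 G φ.1 (nb G φ j) (nb G φ (j + 1)) (nb G φ (j + 2)) := by
  rw [nb_two]
  exact opp3 h (T.swap (tri h hφ j))

theorem rot_inj (h : Two G) {φ ψ : Fl V} (hφ : IsFl G φ) (hψ : IsFl G ψ)
    (e : rot G φ = rot G ψ) : φ = ψ := by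
  obtain ⟨v, a, b⟩ := φ
  obtain ⟨v', a', b'⟩ := ψ
  simp only [rot, Prod.mk.injEq] at e
  obtain ⟨rfl, rfl, e⟩ := e
  have h1 := T3.symm (opp3 h (T.swap hφ))
  have h2 := T3.symm (opp3 h (T.swap hψ))
  simp only at h1 h2
  rw [e] at h1
  rw [uniq h h1 h2]

theorem periodic [Finite V] (h : Two G) {φ : Fl V} (hφ : IsFl G φ) :
    φ ∈ Function.periodicPts (rot G) := by
  have canc : ∀ i k, (rot G)^[i] φ = (rot G)^[i + k] φ → φ = (rot G)^[k] φ := by
    intro i k
    induction i with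
    | zero => simp
    | succ i ih =>
      intro e
      rw [Nat.add_right_comm, Function.iterate_succ_apply', Function.iterate_succ_apply'] at e
      exact ih (rot_inj h (fl h hφ _) (fl h hφ _) e)
  obtain ⟨i, j, hij, e⟩ := Finite.exists_ne_map_eq_of_infinite fun j : ℕ => (rot G)^[j] φ
  rcases lt_or_gt_of_ne hij with hlt | hlt
  · obtain ⟨k, rfl⟩ := Nat.exists_eq_add_of_lt hlt
    exact ⟨k + 1, Nat.succ_pos k, (canc i (k + 1) e).symm⟩
  · obtain ⟨k, rfl⟩ := Nat.exists_eq_add_of_lt hlt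
    exact ⟨k + 1, Nat.succ_pos k, (canc j (k + 1) e.symm).symm⟩

/-- A flag never returns with the opposite orientation. -/
theorem no_flip (h : Two G) {φ : Fl V} (hφ : IsFl G φ) (k : ℕ) :
    ∀ i, nb G φ i = nb G φ (i + k + 1) → nb G φ (i + 1) ≠ nb G φ (i + k) := by
  induction k using Nat.twoStepInduction with
  | zero => exact fun i e _ => (tri h hφ i).2.2.ne e
  | one => exact fun i e _ => (t3 h hφ i).2.2 e
  | more k ih _ =>
    intro i e1 e2
    have a1 := t3 h hφ i
    have a2 := T3.symm (t3 h hφ (i + k + 1))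
    rw [e1, e2] at a1
    have e3 := uniq h a1 a2
    refine ih (i + 1) ?_ ?_
    · rw [e2]
      congr 1
      omega
    · rw [e3]
      congr 1
      omega

theorem next_eq (h : Two G) {φ : Fl V} (hφ : IsFl G φ) {i j : ℕ} (e : nb G φ i = nb G φ j) :
    nb G φ (i + 1) = nb G φ (j + 1) := by
  have aux : ∀ i k, nb G φ i = nb G φ (i + k + 1) → nb G φ (i + 1) = nb G φ (i + k + 2) := by
    intro i k e
    have a1 := tri h hφ i
    rw [e] at a1
    exact (cases_of h (t3 h hφ (i + k)) a1).resolve_left (no_flip h hφ k i e)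
  rcases lt_trichotomy i j with hlt | rfl | hlt
  · obtain ⟨k, rfl⟩ := Nat.exists_eq_add_of_lt hlt
    exact aux i k e
  · rfl
  · obtain ⟨k, rfl⟩ := Nat.exists_eq_add_of_lt hlt
    exact (aux j k e.symm).symm

theorem eq_iff [Finite V] (h : Two G) {φ : Fl V} (hφ : IsFl G φ) (i j : ℕ) :
    nb G φ i = nb G φ j ↔ i ≡ j [MOD Function.minimalPeriod (rot G) φ] := by
  have hm := Function.minimalPeriod_pos_of_mem_periodicPts (periodic h hφ)
  rw [Nat.ModEq, ← Function.iterate_eq_iterate_iff_of_lt_minimalPeriod (Nat.mod_lt _ hm)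
    (Nat.mod_lt _ hm), Function.iterate_mod_minimalPeriod_eq,
    Function.iterate_mod_minimalPeriod_eq]
  constructor
  · intro e
    rw [iter_eq, iter_eq, e, next_eq h hφ e]
  · intro e
    unfold nb
    rw [e]

theorem surj [Finite V] (h : Two G)
    (hl : ∀ v a b, G.Adj v a → G.Adj v b → Conn G (G.neighborSet v) a b) {φ : Fl V}
    (hφ : IsFl G φ) (w : V) (hw : G.Adj φ.1 w) :
    ∃ j < Function.minimalPeriod (rot G) φ, nb G φ j = w := by
  have hm := Function.minimalPeriod_pos_of_mem_periodicPts (periodic h hφ)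
  have aux : ∀ w, Conn G (G.neighborSet φ.1) (nb G φ 0) w → ∃ j, nb G φ j = w := by
    intro w hc
    induction hc with
    | refl => exact ⟨0, rfl⟩
    | @tail b c _ hbc ih =>
      obtain ⟨j, rfl⟩ := ih
      obtain ⟨k, hk⟩ : ∃ k, j + Function.minimalPeriod (rot G) φ = k + 1 :=
        ⟨j + Function.minimalPeriod (rot G) φ - 1, by omega⟩
      have e : nb G φ j = nb G φ (k + 1) := by
        rw [eq_iff h hφ, ← hk]
        exact (Nat.add_modEq_right).symm
      have a1 : T G φ.1 (nb G φ (k + 1)) c := e ▸ ⟨hbc.2.1, hbc.2.2, hbc.1⟩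
      rcases cases_of h (t3 h hφ k) a1 with e' | e'
      · exact ⟨k, e'.symm⟩
      · exact ⟨k + 2, e'.symm⟩
  obtain ⟨j, rfl⟩ := aux w (hl _ _ _ (tri h hφ 0).1 hw)
  exact ⟨j % _, Nat.mod_lt _ hm, (eq_iff h hφ _ _).2 (Nat.mod_modEq _ _)⟩

theorem period_eq [Finite V] (h : Two G)
    (hl : ∀ v a b, G.Adj v a → G.Adj v b → Conn G (G.neighborSet v) a b) {φ : Fl V}
    (hφ : IsFl G φ) : Function.minimalPeriod (rot G) φ = dg G φ.1 := by
  have e : G.neighborSet φ.1 = nb G φ '' Set.Iio (Function.minimalPeriod (rot G) φ) := by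
    ext w
    constructor
    · intro hw
      obtain ⟨j, hj, rfl⟩ := surj h hl hφ w hw
      exact ⟨j, hj, rfl⟩
    · rintro ⟨j, -, rfl⟩
      exact (tri h hφ j).1
  have hi : Set.InjOn (nb G φ) (Set.Iio (Function.minimalPeriod (rot G) φ)) :=
    fun i hi j hj e => Nat.ModEq.eq_of_lt_of_lt ((eq_iff h hφ i j).1 e) hi hj
  unfold dg
  rw [e, hi.ncard_image, ← Finset.coe_range, Set.ncard_coe_finset, Finset.card_range]

theorem rev [Finite V] (h : Two G) {φ : Fl V} (hφ : IsFl G φ) (i : ℕ) :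
    ∀ j, i + j ≡ 1 [MOD Function.minimalPeriod (rot G) φ] →
      nb G (φ.1, φ.2.2, φ.2.1) i = nb G φ j := by
  have hψ : IsFl G (φ.1, φ.2.2, φ.2.1) := T.swap hφ
  induction i using Nat.twoStepInduction with
  | zero =>
    intro j hj
    rw [zero_add] at hj
    rw [(eq_iff h hφ j 1).2 hj]
    rfl
  | one =>
    intro j hj
    have hj' : j ≡ 0 [MOD Function.minimalPeriod (rot G) φ] :=
      Nat.ModEq.add_left_cancel' 1 hj
    rw [(eq_iff h hφ j 0).2 hj']
    rfl
  | more i ih1 ih2 =>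
    intro j hj
    have a1 := t3 h hψ i
    rw [ih1 (j + 2) (by rwa [show i + (j + 2) = i + 2 + j by omega]),
      ih2 (j + 1) (by rwa [show i + 1 + (j + 1) = i + 2 + j by omega])] at a1
    exact uniq h a1 (T3.symm (t3 h hφ j))

end LnkAux

open LnkAux in
theorem lnk : StmtLNK := by
  intro V _ _ G hG
  have h : Two G := hG.two
  refine ⟨uniq h, opp3 h, fl h, t3 h, fun hφ i j => ?_, fun hφ w hw => ?_, fun hφ i j hij => ?_,
    fun v => ?_⟩
  · rw [← period_eq h hG.link hφ]
    exact eq_iff h hφ i j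
  · rw [← period_eq h hG.link hφ]
    exact surj h hG.link hφ w hw
  · rw [← period_eq h hG.link hφ] at hij
    exact rev h hφ i j hij
  · obtain ⟨a, ha⟩ : (G.neighborSet v).Nonempty :=
      Set.nonempty_of_ncard_ne_zero (by have := hG.d4 v; unfold dg at this; omega)
    obtain ⟨b, hb⟩ : (G.commonNeighbors v a).Nonempty :=
      Set.nonempty_of_ncard_ne_zero (by rw [h v a ha]; omega)
    exact ⟨a, b, ha, hb.1, hb.2⟩

end Pool.Agent.MP_31805c_co.H47
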