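import Pool.Agent.MP_31805c_co.H47.SpecA

/-! Sparse spanning families of even edge sets pass to minors. -/

namespace Pool.Agent.MP_31805c_co.H47

open Finset
open Pool.Agent.MP_31805c_co.H93 (Conn)

namespace MinorMac

variable {V W : Type} [Fintype V] [DecidableEq V] {G : SimpleGraph V}

lemma z2_one {x : Z2} (h : x ≠ 0) : x = 1 := by
  revert x
  decide

lemma z2_add (x : Z2) : x + x = 0 := by
  revert x
  decide

lemma del_edge (h : Mac G) (e0 : Sym2 V) : Mac (G.deleteEdges {e0}) := by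
  classical
  obtain ⟨I, _, F, hF⟩ := h
  by_cases hj : ∃ j, F j e0 ≠ 0
  · obtain ⟨j, hj⟩ := hj
    have hj1 := z2_one hj
    refine ⟨I, inferInstance, fun i e => F i e + F i e0 * F j e, fun i e he => ?_, fun i v => ?_,
      fun e => ?_, fun a ha => ?_⟩
    · rw [SimpleGraph.edgeSet_deleteEdges]
      refine ⟨?_, ?_⟩
      · by_contra hc
        have h1 : F i e = 0 := not_not.1 fun h => hc (hF.sub i e h)
        have h2 : F j e = 0 := not_not.1 fun h => hc (hF.sub j e h)
        exact he (by rw [h1, h2]; simp)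
      · rintro rfl
        exact he (by rw [hj1, mul_one, z2_add])
    · rw [Finset.sum_add_distrib, ← Finset.mul_sum, hF.even, hF.even]
      simp
    · by_cases hje : F j e = 0
      · simpa [hje] using hF.two e
      · have h1 : {i | F i e + F i e0 * F j e ≠ 0} ⊆
            ({i | F i e ≠ 0} \ {j}) ∪ ({i | F i e0 ≠ 0} \ {j}) := by
          intro i hi
          have hij : i ≠ j := by
            rintro rfl
            exact hi (by rw [hj1, one_mul, z2_add])
          by_cases h2 : F i e = 0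
          · refine Or.inr ⟨fun h3 => hi ?_, hij⟩
            rw [h2, h3]
            simp
          · exact Or.inl ⟨h2, hij⟩
        have h2 := Set.ncard_diff_singleton_of_mem (s := {i | F i e ≠ 0}) (a := j) hje
        have h3 := Set.ncard_diff_singleton_of_mem (s := {i | F i e0 ≠ 0}) (a := j) hj
        have h4 := (Set.ncard_le_ncard h1).trans (Set.ncard_union_le _ _)
        have h5 := hF.two e
        have h6 := hF.two e0
        omega
    · obtain ⟨p, hp⟩ := hF.span (fun e => a e + if e = e0 then ∑ e, F j e * a e else 0) fun i => by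
        have := ha i
        simp only [add_mul, Finset.sum_add_distrib, mul_assoc, ← Finset.mul_sum] at this
        simpa [mul_add, Finset.sum_add_distrib] using this
      refine ⟨p, fun u v huv => ?_⟩
      rw [SimpleGraph.deleteEdges_adj] at huv
      have := hp u v huv.1
      rwa [if_neg (by simpa using huv.2), add_zero] at this
  · push Not at hj
    refine ⟨I, inferInstance, F, fun i e he => ?_, hF.even, hF.two, fun a ha => ?_⟩
    · rw [SimpleGraph.edgeSet_deleteEdges]
      refine ⟨hF.sub i e he, ?_⟩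
      rintro rfl
      exact he (hj i)
    · obtain ⟨p, hp⟩ := hF.span a ha
      exact ⟨p, fun u v huv => hp u v (SimpleGraph.deleteEdges_adj.1 huv).1⟩

lemma mono {G' : SimpleGraph V} (h : Mac G) (hle : G' ≤ G) : Mac G' := by
  classical
  have h1 : ∀ s : Finset (Sym2 V), Mac (G.deleteEdges ↑s) := fun s => by
    induction s using Finset.induction_on with
    | empty => simpa using h
    | insert e s _ ih =>
      have := del_edge ih e
      rwa [SimpleGraph.deleteEdges_deleteEdges, Set.union_singleton, ← Finset.coe_insert] at this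
  have h2 : G' = G.deleteEdges ↑(Finset.univ.filter fun e => e ∉ G'.edgeSet) := by
    ext u v
    simp only [SimpleGraph.deleteEdges_adj, Finset.coe_filter, Finset.mem_univ, true_and,
      Set.mem_setOf_eq, not_not, SimpleGraph.mem_edgeSet]
    exact ⟨fun h => ⟨hle h, h⟩, fun h => h.2⟩
  rw [h2]
  exact h1 _

lemma sum_mem (C : Sym2 V → Z2) (v : V) : ∑ w, C s(v, w) = ∑ e, if v ∈ e then C e else 0 := by
  rw [← Finset.sum_filter]
  refine Finset.sum_bij (fun w _ => s(v, w)) (fun w _ => by simp) (fun w _ w' _ h => ?_)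
    (fun e he => ?_) fun _ _ => rfl
  · exact Sym2.congr_right.1 h
  · obtain ⟨w, rfl⟩ := Sym2.mem_iff_exists.1 (Finset.mem_filter.1 he).2
    exact ⟨w, Finset.mem_univ _, rfl⟩

lemma orth (C b : Sym2 V → Z2) (q : V → Z2) (h : ∀ v, ∑ w, C s(v, w) = 0)
    (hb : ∀ x y, C s(x, y) ≠ 0 → x ≠ y ∧ b s(x, y) = q x + q y) : ∑ e, C e * b e = 0 := by
  have h1 : ∀ e, C e * b e = ∑ v, q v * if v ∈ e then C e else 0 := by
    refine Sym2.ind fun x y => ?_
    by_cases hc : C s(x, y) = 0
    · simp [hc]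
    · obtain ⟨h2, h3⟩ := hb x y hc
      rw [h3, Finset.sum_eq_add x y h2 (fun v _ hv => by simp [hv.1, hv.2]) (by simp) (by simp)]
      simp
      ring
  rw [Finset.sum_congr rfl fun e _ => h1 e, Finset.sum_comm]
  refine Finset.sum_eq_zero fun v _ => ?_
  rw [← Finset.mul_sum, ← sum_mem, h, mul_zero]

end MinorMac

open MinorMac in
theorem minorMac : StmtMINOR := by
  classical
  intro V W _ _ _ _ G H hG ⟨B, hd, hc, hadj⟩
  rcases isEmpty_or_nonempty V with hV | hV
  · refine ⟨Empty, inferInstance, fun _ _ => 0, fun i => i.elim, fun i => i.elim,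
      fun e => by simp, fun a _ => ⟨0, fun u v huv => ?_⟩⟩
    obtain ⟨x, -⟩ := hadj u v huv
    exact hV.elim x
  have uq : ∀ {x w w'}, x ∈ B w → x ∈ B w' → w = w' := fun {x w w'} h h' => by
    by_contra hn
    exact Set.disjoint_left.1 (hd w w' hn) h h'
  have ex : ∀ e : Sym2 W, ∃ f : Sym2 V, ∀ w w', H.Adj w w' → e = s(w, w') →
      ∃ x ∈ B w, ∃ y ∈ B w', G.Adj x y ∧ f = s(x, y) := by
    refine Sym2.ind fun a b => ?_
    by_cases hab : H.Adj a b
    · obtain ⟨x, hx, y, hy, hxy⟩ := hadj a b hab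
      refine ⟨s(x, y), fun w w' _ he => ?_⟩
      rcases Sym2.eq_iff.1 he with ⟨rfl, rfl⟩ | ⟨rfl, rfl⟩
      · exact ⟨x, hx, y, hy, hxy, rfl⟩
      · exact ⟨y, hy, x, hx, hxy.symm, Sym2.eq_swap⟩
    · obtain ⟨x⟩ := hV
      refine ⟨s(x, x), fun w w' hw he => absurd ?_ hab⟩
      rwa [← SimpleGraph.mem_edgeSet, he]
  choose σ hσ using ex
  have lift : ∀ e ∈ H.edgeSet, ∀ x y, σ e = s(x, y) →
      ∃ w w', H.Adj w w' ∧ e = s(w, w') ∧ x ∈ B w ∧ y ∈ B w' := by
    refine Sym2.ind fun a b hab x y he => ?_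
    obtain ⟨x', hx, y', hy, -, h⟩ := hσ _ a b hab rfl
    rcases Sym2.eq_iff.1 (he.symm.trans h) with ⟨rfl, rfl⟩ | ⟨rfl, rfl⟩
    · exact ⟨a, b, hab, rfl, hx, hy⟩
    · exact ⟨b, a, SimpleGraph.Adj.symm hab, Sym2.eq_swap, hy, hx⟩
  let G' : SimpleGraph V := SimpleGraph.fromEdgeSet
    {e | e ∈ G.edgeSet ∧ ((∃ w, ∀ x ∈ e, x ∈ B w) ∨ ∃ e' ∈ H.edgeSet, σ e' = e)}
  have adj' : ∀ x y, G'.Adj x y ↔
      G.Adj x y ∧ ((∃ w, x ∈ B w ∧ y ∈ B w) ∨ ∃ e' ∈ H.edgeSet, σ e' = s(x, y)) := fun x y => by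
    simp only [G', SimpleGraph.fromEdgeSet_adj, Set.mem_setOf_eq, SimpleGraph.mem_edgeSet,
      Sym2.mem_iff, forall_eq_or_imp, forall_eq]
    exact ⟨fun h => h.1, fun h => ⟨h, h.1.ne⟩⟩
  obtain ⟨I, _, F, hF⟩ := mono hG (G' := G') fun x y h => ((adj' x y).1 h).1
  let pb : (Sym2 W → Z2) → Sym2 V → Z2 := fun a e =>
    ∑ e', if e' ∈ H.edgeSet ∧ σ e' = e then a e' else 0
  have key : ∀ i a, ∑ e', (if e' ∈ H.edgeSet then F i (σ e') else 0) * a e' =
      ∑ e, F i e * pb a e := fun i a => by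
    simp only [pb, Finset.mul_sum]
    rw [Finset.sum_comm]
    refine Finset.sum_congr rfl fun e' _ => ?_
    by_cases h : e' ∈ H.edgeSet <;> simp [h]
  have pb0 : ∀ a w x y, x ∈ B w → y ∈ B w → pb a s(x, y) = 0 := fun a w x y hx hy =>
    Finset.sum_eq_zero fun e' _ => if_neg fun h => by
      obtain ⟨w1, w2, h1, -, h2, h3⟩ := lift e' h.1 x y h.2
      exact h1.ne ((uq h2 hx).trans (uq hy h3))
  have pb1 : ∀ a w w' x y, H.Adj w w' → x ∈ B w → y ∈ B w' → σ s(w, w') = s(x, y) →
      pb a s(x, y) = a s(w, w') := fun a w w' x y h hx hy he => by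
    refine (Finset.sum_eq_single s(w, w') (fun e' _ hn => if_neg fun h => hn ?_) (by simp)).trans
      (if_pos ⟨h, he⟩)
    obtain ⟨w1, w2, -, h1, h2, h3⟩ := lift e' h.1 x y h.2
    rw [h1, uq h2 hx, uq h3 hy]
  refine ⟨I, inferInstance, fun i e' => if e' ∈ H.edgeSet then F i (σ e') else 0,
    fun i e he => ?_, fun i w => ?_, fun e => ?_, fun a ha => ?_⟩
  · by_contra h
    exact he (if_neg h)
  · rw [sum_mem (fun e' => if e' ∈ H.edgeSet then F i (σ e') else 0)]
    refine Eq.trans ?_ ((key i fun e' => if w ∈ e' then 1 else 0).trans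
      (orth _ _ (fun x => if x ∈ B w then 1 else 0) (hF.even i) fun x y h => ?_))
    · exact Finset.sum_congr rfl fun e' _ => by by_cases h : w ∈ e' <;> simp [h]
    · obtain ⟨h1, h2⟩ := (adj' x y).1 (hF.sub i _ h)
      refine ⟨h1.ne, ?_⟩
      rcases h2 with ⟨w0, hx, hy⟩ | ⟨e', he', h2⟩
      · rw [pb0 _ w0 x y hx hy]
        by_cases hw : w = w0
        · subst hw
          rw [if_pos hx, if_pos hy, z2_add]
        · rw [if_neg fun h => hw (uq h hx), if_neg fun h => hw (uq h hy), add_zero]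
      · obtain ⟨w1, w2, h3, rfl, hx, hy⟩ := lift e' he' x y h2
        rw [pb1 _ w1 w2 x y h3 hx hy h2]
        by_cases a1 : w = w1
        · subst a1
          rw [if_pos (by simp), if_pos hx, if_neg fun h => h3.ne (uq h hy), add_zero]
        · by_cases a2 : w = w2
          · subst a2
            rw [if_pos (by simp), if_pos hy, if_neg fun h => a1 (uq h hx), zero_add]
          · rw [if_neg (by simp [a1, a2]), if_neg fun h => a1 (uq h hx),
              if_neg fun h => a2 (uq h hy), add_zero]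
  · by_cases h : e ∈ H.edgeSet
    · simpa [h] using hF.two (σ e)
    · simp [h]
  · obtain ⟨p, hp⟩ := hF.span (pb a) fun i => (key i a).symm.trans (ha i)
    have cst : ∀ w x y, Conn G (B w) x y → p x = p y := fun w x y h => by
      induction h with
      | refl => rfl
      | @tail b c _ h ih =>
        have := hp b c ((adj' b c).2 ⟨h.1, Or.inl ⟨w, h.2⟩⟩)
        rw [pb0 a w b c h.2.1 h.2.2] at this
        rw [ih, ← add_zero (p b), this, ← add_assoc, z2_add, zero_add]
    have ex2 : ∀ w, ∃ t : Z2, ∀ x ∈ B w, p x = t := fun w => by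
      rcases (B w).eq_empty_or_nonempty with h | ⟨y, hy⟩
      · exact ⟨0, fun x hx => by simp [h] at hx⟩
      · exact ⟨p y, fun x hx => cst w x y (hc w x hx y hy)⟩
    choose p' hp' using ex2
    refine ⟨p', fun u v huv => ?_⟩
    obtain ⟨x, hx, y, hy, hxy, he⟩ := hσ _ u v huv rfl
    rw [← pb1 a u v x y huv hx hy he, hp x y ((adj' x y).2 ⟨hxy, Or.inr ⟨_, huv, he⟩⟩),
      hp' u x hx, hp' v y hy]

end Pool.Agent.MP_31805c_co.H47
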