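import Pool.Agent.MP_31805c_co.H47.SpecC

/-!
The mirror image of an item.
-/

namespace Pool.Agent.MP_31805c_co.H47

namespace Mir

theorem frc {α : Type} (f : ℕ → α) (x : ℕ) : frcN f x = f x := by cases x <;> rfl

theorem cls_lt (g : ℕ) : cls g < 5 := by unfold cls; omega

theorem g5_bit (D p k : ℕ) (hk : k < 5) : (g5 D p).testBit k = D.testBit (5 * p + k) := by
  have h : (31 : ℕ).testBit k = true := by interval_cases k <;> rfl
  unfold g5
  rw [testBit_land, testBit_shr, h, Bool.and_true]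
  rfl

variable {V : Type} [Fintype V] {G : SimpleGraph V}

omit [Fintype V] in
theorem step {φ ψ : Fl V} {A B p q : ℕ} (hB : Fits G φ B) (e : pos G ψ p = pos G φ q)
    (h : sub (g5 A p) (g5 B q) = true) : A.testBit (5 * p + cls (dg G (pos G ψ p))) = false := by
  by_contra hc
  have h1 := sub_bit h (cls (dg G (pos G ψ p)))
    (by rw [g5_bit _ _ _ (cls_lt _)]; simpa using hc)
  rw [g5_bit _ _ _ (cls_lt _), e, hB q] at h1
  cases h1

theorem modk {d i : ℕ} (hi : i < d) : i + (d - i) % d ≡ 0 [MOD d] := by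
  have h : i + (d - i) % d ≡ i + (d - i) [MOD d] := (Nat.mod_modEq _ _).add_left i
  rw [Nat.add_sub_cancel' hi.le] at h
  exact h.trans (Nat.modEq_zero_iff_dvd.2 dvd_rfl)

theorem modk1 {d i : ℕ} (hi : i < d) : (d - i) % d ≡ (2 * d - i - 1) % d + 1 [MOD d] := by
  have h : (2 * d - i - 1) % d + 1 ≡ 2 * d - i - 1 + 1 [MOD d] := (Nat.mod_modEq _ _).add_right 1
  rw [show 2 * d - i - 1 + 1 = d + (d - i) by omega] at h
  refine (Nat.mod_modEq _ _).trans (Nat.ModEq.symm (h.trans ?_))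
  exact Nat.add_modEq_left

theorem stepF (g : Geo G) {φ : Fl V} (hφ : IsFl G φ) {A B i f : ℕ} (hB : Fits G φ B)
    (hi : i < dg G φ.1) (h3 : 3 ≤ f) (h5 : f ≤ 5) (h : mirF (dg G φ.1) A B i f = true) :
    A.testBit (5 * (5 * i + (f - 1)) + cls (dg G (pos G (mir G φ) (5 * i + (f - 1))))) =
      false := by
  have e0 : 5 * i + f - 1 = 5 * i + (f - 1) := by omega
  simp only [mirF, Bool.or_eq_true, Bool.and_eq_true, beq_true, Nat.ble_eq, e0] at h
  rcases h with h | ⟨h1, h2⟩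
  · rw [← g5_bit _ _ _ (cls_lt _), h, Nat.zero_testBit]
  refine step hB ?_ h2
  set k := (dg G φ.1 - i) % dg G φ.1 with hk
  obtain ⟨e1, -, e8⟩ := g.exg φ B (5 * k) hB (by omega)
  have e2 : pos G φ (5 * k) = (psi ((rot G)^[k] φ)).1 := g.pos_mk φ k 0 (by omega)
  have hχ := g.fl hφ k
  rw [show 5 * k + exg B (5 * k) - f - 1 = 5 * k + (exg B (5 * k) - f - 1) by omega,
    g.pos_mk _ _ _ (by omega), g.pos_mk _ _ _ (by omega), g.rotmir hφ i k (modk hi)]
  unfold posB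
  rw [if_neg (by omega), if_neg (by omega), ← g.mirpsi hχ]
  refine g.nbmir (g.psiF hχ) _ _ ?_
  rw [← e2, e1, show f - 1 + 1 + (exg B (5 * k) - f - 1 + 1) = exg B (5 * k) by omega]
  exact Nat.modEq_zero_iff_dvd.2 dvd_rfl

theorem fits (g : Geo G) {φ : Fl V} (hφ : IsFl G φ) {A B : ℕ} (hB : Fits G φ B)
    (h : mirOK (dg G φ.1) A B = true) : Fits G (mir G φ) A := by
  simp only [mirOK, Bool.and_eq_true, List.all_eq_true, List.mem_range] at h
  obtain ⟨h0, h⟩ := h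
  intro p
  by_cases hp : p / 5 < dg G φ.1
  swap
  · by_contra hc
    have h1 := sub_bit h0 _ (by simpa using hc)
    rw [testBit_ones, decide_eq_true_iff] at h1
    omega
  obtain ⟨⟨⟨⟨a0, a1⟩, a3⟩, a4⟩, a5⟩ := h _ hp
  obtain ⟨i, j, hj, rfl⟩ : ∃ i j, j < 5 ∧ p = 5 * i + j :=
    ⟨p / 5, p % 5, Nat.mod_lt _ (by omega), (Nat.div_add_mod p 5).symm⟩
  rw [show (5 * i + j) / 5 = i by omega] at hp a0 a1 a3 a4 a5
  interval_cases j
  · refine step hB ?_ a0
    rw [g.pos_mk _ _ _ (by omega), g.rotmir hφ i _ (modk hp)]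
    exact (g.pos_mk φ _ 0 (by omega)).symm
  · refine step hB ?_ a1
    have hχ := g.fl hφ ((2 * dg G φ.1 - i - 1) % dg G φ.1)
    rw [g.pos_mk _ _ _ (by omega), g.pos_mk _ _ _ (by omega), g.rotmir hφ i _ (modk hp)]
    unfold posB
    rw [if_neg one_ne_zero, if_neg one_ne_zero, ← g.mirpsi (g.fl hφ _), g.per hφ _ _ (modk1 hp),
      Function.iterate_succ_apply', g.back hχ, g.hat hχ]
  · exact stepF g hφ hB hp (by omega) (by omega) a3
  · exact stepF g hφ hB hp (by omega) (by omega) a4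
  · exact stepF g hφ hB hp (by omega) (by omega) a5

end Mir

theorem mirP : StmtMIR := by
  intro V _ G g X n c hF h φ hd hB
  simp only [mirK, Mir.frc, mir1, Bool.and_eq_true, Nat.blt_eq, Nat.ble_eq, beq_true] at h
  obtain ⟨⟨⟨h1, h2⟩, h3⟩, h4⟩ := h
  have hd0 : X.d ≠ 0 := by omega
  have hc : c0 X.d = 0 := by
    obtain ⟨m, hm⟩ := Nat.exists_eq_succ_of_ne_zero hd0
    rw [hm]
    rfl
  rw [← (hd.2.2 hd0).1] at h4
  have h5 := hF _ h1 _ (g.hd_mir _ _ _ _ hd) (Mir.fits g hd.1 hB h4)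
  rw [h3, hc] at h5
  rw [hc]
  simp only [Function.iterate_zero, id, eIn, eOut, g.mirmir hd.1] at h5 ⊢
  omega

end Pool.Agent.MP_31805c_co.H47
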