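import Pool.Agent.MP_31805c_co.H47.SpecC

namespace Pool.Agent.MP_31805c_co.H47

theorem okT_node {X : Cx} {O hi q a b P : ℕ} {l r : TT} {i o : List (ℕ × ℕ)}
    (h1 : nodeOK hi q a b P l r = true)
    (h2 : okT X O l (Nat.lor P (Nat.shiftLeft b q))
      (flt (Nat.shiftLeft 31 q) (Nat.lor P (Nat.shiftLeft b q)) i)
      (flt (Nat.shiftLeft 31 q) (Nat.lor P (Nat.shiftLeft b q)) o) = true)
    (h3 : okT X O r (Nat.lor P (Nat.shiftLeft a q))
      (flt (Nat.shiftLeft 31 q) (Nat.lor P (Nat.shiftLeft a q)) i)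
      (flt (Nat.shiftLeft 31 q) (Nat.lor P (Nat.shiftLeft a q)) o) = true) :
    okT X O (TT.node hi q a b l r) P i o = true := by
  show (nodeOK hi q a b P l r && okT X O l _ _ _ && okT X O r _ _ _) = true
  rw [h1, h2, h3]
  rfl

theorem or_right' {a b : Bool} (h : b = true) : (a || b) = true := by
  rw [h, Bool.or_true]

theorem all_node {P : ℕ → Prop} {l r : BT} (hl : l.All P) (hr : r.All P) : (BT.node l r).All P :=
  And.intro hl hr

theorem all_leaf {P : ℕ → Prop} {x : ℕ} (h : P x) : (BT.leaf x).All P := h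

theorem all_mono {P Q : ℕ → Prop} (h : ∀ x, P x → Q x) (t : BT) : t.All P → t.All Q := by
  induction t with
  | leaf x => exact h x
  | node l r ihl ihr => exact fun a => all_node (ihl a.1) (ihr a.2)

/-- The configuration with the code `c` passes the check of reducibility. -/
def CK (L : Lay) (c : ℕ) : Prop := ∃ pS pC s, chk L c pS pC s = true

theorem ckL {L : Lay} {c : ℕ} (pS pC s : ℕ) (h : chk L c pS pC s = true) :
    (BT.leaf c).All (CK L) := ⟨pS, pC, s, h⟩

/-- The items from `n` to `n'` pass the check. -/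
def Ch (X : Cx) (n n' : ℕ) : Prop :=
  ∀ Q : ℕ → Prop, (∀ a b cs, chkL X b cs a = true → Q a → Q b) → Q n → Q n'

theorem ch_one {X : Cx} {a b : ℕ} (cs : List ℕ) (h : chkL X b cs a = true) : Ch X a b :=
  fun _ H q => H a b cs h q

theorem ch_cons {X : Cx} {a c : ℕ} (b : ℕ) (cs : List ℕ) (h : chkL X b cs a = true)
    (h' : Ch X b c) : Ch X a c := fun Q H q => h' Q H (H a b cs h q)

theorem Ch.trans {X : Cx} {a b c : ℕ} (h : Ch X a b) (h' : Ch X b c) : Ch X a c :=
  fun Q H q => h' Q H (h Q H q)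

end Pool.Agent.MP_31805c_co.H47
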