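import Pool.Agent.MP_31805c_co.H47.X10
import Pool.Agent.MP_31805c_co.H47.OkAux

namespace Pool.Agent.MP_31805c_co.H47

set_option maxRecDepth 100000
set_option maxHeartbeats 0

noncomputable def Pt10A := only (mA cx10.d) (5 * c0 cx10.d)
noncomputable def It10A := flt (Nat.shiftLeft 31 (25 * c0 cx10.d)) Pt10A (flt 31 Pt10A ((comp cx10.d true false cx10.R) ++ (comp cx10.d true true cx10.R)))
noncomputable def Ot10A := flt (Nat.shiftLeft 31 (25 * c0 cx10.d)) Pt10A (flt 31 Pt10A ((comp cx10.d false false cx10.R) ++ (comp cx10.d false true cx10.R)))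

noncomputable def Pt10Aa := Nat.lor Pt10A (Nat.shiftLeft 2 0)
noncomputable def It10Aa := flt (Nat.shiftLeft 31 0) Pt10Aa It10A
noncomputable def Ot10Aa := flt (Nat.shiftLeft 31 0) Pt10Aa Ot10A

theorem ok_t10Aa : okT cx10 (2 * cx10.O) t10Aa Pt10Aa It10Aa Ot10Aa = true := by decide +kernel

noncomputable def Pt10Ab := Nat.lor Pt10A (Nat.shiftLeft 1 0)
noncomputable def It10Ab := flt (Nat.shiftLeft 31 0) Pt10Ab It10A
noncomputable def Ot10Ab := flt (Nat.shiftLeft 31 0) Pt10Ab Ot10A

theorem ok_t10Ab : okT cx10 (2 * cx10.O) t10Ab Pt10Ab It10Ab Ot10Ab = true := by decide +kernel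

theorem ok_t10A : okT cx10 (2 * cx10.O) t10A Pt10A It10A Ot10A = true :=
  okT_node (by decide +kernel) ok_t10Aa ok_t10Ab

theorem okA10 : okA cx10 = true :=
  ok_t10A

noncomputable def Pt10P := Nat.shiftLeft (mA cx10.d) (25 * c0 cx10.d)
noncomputable def It10P := flt (Nat.shiftLeft 31 (25 * c0 cx10.d)) Pt10P (flt 31 Pt10P (comp cx10.d true false cx10.R))
noncomputable def Ot10P := flt (Nat.shiftLeft 31 (25 * c0 cx10.d)) Pt10P (flt 31 Pt10P (comp cx10.d false false cx10.R))

theorem ok_t10P : okT cx10 cx10.O t10P Pt10P It10P Ot10P = true := by decide +kernel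

theorem okP10 : okP cx10 = true :=
  or_right' ok_t10P

noncomputable def Pt10M := Nat.shiftLeft (mA cx10.d) (25 * c0 cx10.d)
noncomputable def It10M := flt (Nat.shiftLeft 31 (25 * c0 cx10.d)) Pt10M (flt 31 Pt10M (comp cx10.d true true cx10.R))
noncomputable def Ot10M := flt (Nat.shiftLeft 31 (25 * c0 cx10.d)) Pt10M (flt 31 Pt10M (comp cx10.d false true cx10.R))

theorem ok_t10M : okT cx10 cx10.O t10M Pt10M It10M Ot10M = true := by decide +kernel

theorem okM10 : okM cx10 = true :=
  or_right' ok_t10M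

end Pool.Agent.MP_31805c_co.H47
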