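import Pool.Agent.MP_31805c_co.H47.X11
import Pool.Agent.MP_31805c_co.H47.OkAux

namespace Pool.Agent.MP_31805c_co.H47

set_option maxRecDepth 100000
set_option maxHeartbeats 0

noncomputable def Pt11A := only (mA cx11.d) (5 * c0 cx11.d)
noncomputable def It11A := flt (Nat.shiftLeft 31 (25 * c0 cx11.d)) Pt11A (flt 31 Pt11A ((comp cx11.d true false cx11.R) ++ (comp cx11.d true true cx11.R)))
noncomputable def Ot11A := flt (Nat.shiftLeft 31 (25 * c0 cx11.d)) Pt11A (flt 31 Pt11A ((comp cx11.d false false cx11.R) ++ (comp cx11.d false true cx11.R)))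

noncomputable def Pt11Aa := Nat.lor Pt11A (Nat.shiftLeft 2 0)
noncomputable def It11Aa := flt (Nat.shiftLeft 31 0) Pt11Aa It11A
noncomputable def Ot11Aa := flt (Nat.shiftLeft 31 0) Pt11Aa Ot11A

theorem ok_t11Aa : okT cx11 (2 * cx11.O) t11Aa Pt11Aa It11Aa Ot11Aa = true := by decide +kernel

noncomputable def Pt11Ab := Nat.lor Pt11A (Nat.shiftLeft 1 0)
noncomputable def It11Ab := flt (Nat.shiftLeft 31 0) Pt11Ab It11A
noncomputable def Ot11Ab := flt (Nat.shiftLeft 31 0) Pt11Ab Ot11A

theorem ok_t11Ab : okT cx11 (2 * cx11.O) t11Ab Pt11Ab It11Ab Ot11Ab = true := by decide +kernel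

theorem ok_t11A : okT cx11 (2 * cx11.O) t11A Pt11A It11A Ot11A = true :=
  okT_node (by decide +kernel) ok_t11Aa ok_t11Ab

theorem okA11 : okA cx11 = true :=
  ok_t11A

noncomputable def Pt11P := Nat.shiftLeft (mA cx11.d) (25 * c0 cx11.d)
noncomputable def It11P := flt (Nat.shiftLeft 31 (25 * c0 cx11.d)) Pt11P (flt 31 Pt11P (comp cx11.d true false cx11.R))
noncomputable def Ot11P := flt (Nat.shiftLeft 31 (25 * c0 cx11.d)) Pt11P (flt 31 Pt11P (comp cx11.d false false cx11.R))

theorem ok_t11P : okT cx11 cx11.O t11P Pt11P It11P Ot11P = true := by decide +kernel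

theorem okP11 : okP cx11 = true :=
  or_right' ok_t11P

noncomputable def Pt11M := Nat.shiftLeft (mA cx11.d) (25 * c0 cx11.d)
noncomputable def It11M := flt (Nat.shiftLeft 31 (25 * c0 cx11.d)) Pt11M (flt 31 Pt11M (comp cx11.d true true cx11.R))
noncomputable def Ot11M := flt (Nat.shiftLeft 31 (25 * c0 cx11.d)) Pt11M (flt 31 Pt11M (comp cx11.d false true cx11.R))

theorem ok_t11M : okT cx11 cx11.O t11M Pt11M It11M Ot11M = true := by decide +kernel

theorem okM11 : okM cx11 = true :=
  or_right' ok_t11M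

end Pool.Agent.MP_31805c_co.H47
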