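import Pool.Agent.MP_31805c_co.H47.X5
import Pool.Agent.MP_31805c_co.H47.OkAux

namespace Pool.Agent.MP_31805c_co.H47

set_option maxRecDepth 100000
set_option maxHeartbeats 0

noncomputable def Pt5A := only (mA cx5.d) (5 * c0 cx5.d)
noncomputable def It5A := flt (Nat.shiftLeft 31 (25 * c0 cx5.d)) Pt5A (flt 31 Pt5A ((comp cx5.d true false cx5.R) ++ (comp cx5.d true true cx5.R)))
noncomputable def Ot5A := flt (Nat.shiftLeft 31 (25 * c0 cx5.d)) Pt5A (flt 31 Pt5A ((comp cx5.d false false cx5.R) ++ (comp cx5.d false true cx5.R)))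

noncomputable def Pt5Aa := Nat.lor Pt5A (Nat.shiftLeft 30 0)
noncomputable def It5Aa := flt (Nat.shiftLeft 31 0) Pt5Aa It5A
noncomputable def Ot5Aa := flt (Nat.shiftLeft 31 0) Pt5Aa Ot5A

theorem ok_t5Aa : okT cx5 (2 * cx5.O) t5Aa Pt5Aa It5Aa Ot5Aa = true := by decide +kernel

noncomputable def Pt5Ab := Nat.lor Pt5A (Nat.shiftLeft 1 0)
noncomputable def It5Ab := flt (Nat.shiftLeft 31 0) Pt5Ab It5A
noncomputable def Ot5Ab := flt (Nat.shiftLeft 31 0) Pt5Ab Ot5A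

noncomputable def Pt5Aba := Nat.lor Pt5Ab (Nat.shiftLeft 28 0)
noncomputable def It5Aba := flt (Nat.shiftLeft 31 0) Pt5Aba It5Ab
noncomputable def Ot5Aba := flt (Nat.shiftLeft 31 0) Pt5Aba Ot5Ab

theorem ok_t5Aba : okT cx5 (2 * cx5.O) t5Aba Pt5Aba It5Aba Ot5Aba = true := by decide +kernel

noncomputable def Pt5Abb := Nat.lor Pt5Ab (Nat.shiftLeft 2 0)
noncomputable def It5Abb := flt (Nat.shiftLeft 31 0) Pt5Abb It5Ab
noncomputable def Ot5Abb := flt (Nat.shiftLeft 31 0) Pt5Abb Ot5Ab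

theorem ok_t5Abb : okT cx5 (2 * cx5.O) t5Abb Pt5Abb It5Abb Ot5Abb = true := by decide +kernel

theorem ok_t5Ab : okT cx5 (2 * cx5.O) t5Ab Pt5Ab It5Ab Ot5Ab = true :=
  okT_node (by decide +kernel) ok_t5Aba ok_t5Abb

theorem ok_t5A : okT cx5 (2 * cx5.O) t5A Pt5A It5A Ot5A = true :=
  okT_node (by decide +kernel) ok_t5Aa ok_t5Ab

theorem okA5 : okA cx5 = true :=
  ok_t5A

theorem okP5 : okP cx5 = true := by decide +kernel

theorem okM5 : okM cx5 = true := by decide +kernel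

end Pool.Agent.MP_31805c_co.H47
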