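import Pool.Agent.MP_31805c_co.H47.X6
import Pool.Agent.MP_31805c_co.H47.OkAux

namespace Pool.Agent.MP_31805c_co.H47

set_option maxRecDepth 100000
set_option maxHeartbeats 0

noncomputable def Pt6A := only (mA cx6.d) (5 * c0 cx6.d)
noncomputable def It6A := flt (Nat.shiftLeft 31 (25 * c0 cx6.d)) Pt6A (flt 31 Pt6A ((comp cx6.d true false cx6.R) ++ (comp cx6.d true true cx6.R)))
noncomputable def Ot6A := flt (Nat.shiftLeft 31 (25 * c0 cx6.d)) Pt6A (flt 31 Pt6A ((comp cx6.d false false cx6.R) ++ (comp cx6.d false true cx6.R)))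

noncomputable def Pt6Aa := Nat.lor Pt6A (Nat.shiftLeft 30 0)
noncomputable def It6Aa := flt (Nat.shiftLeft 31 0) Pt6Aa It6A
noncomputable def Ot6Aa := flt (Nat.shiftLeft 31 0) Pt6Aa Ot6A

theorem ok_t6Aa : okT cx6 (2 * cx6.O) t6Aa Pt6Aa It6Aa Ot6Aa = true := by decide +kernel

noncomputable def Pt6Ab := Nat.lor Pt6A (Nat.shiftLeft 1 0)
noncomputable def It6Ab := flt (Nat.shiftLeft 31 0) Pt6Ab It6A
noncomputable def Ot6Ab := flt (Nat.shiftLeft 31 0) Pt6Ab Ot6A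

noncomputable def Pt6Aba := Nat.lor Pt6Ab (Nat.shiftLeft 28 0)
noncomputable def It6Aba := flt (Nat.shiftLeft 31 0) Pt6Aba It6Ab
noncomputable def Ot6Aba := flt (Nat.shiftLeft 31 0) Pt6Aba Ot6Ab

theorem ok_t6Aba : okT cx6 (2 * cx6.O) t6Aba Pt6Aba It6Aba Ot6Aba = true := by decide +kernel

noncomputable def Pt6Abb := Nat.lor Pt6Ab (Nat.shiftLeft 2 0)
noncomputable def It6Abb := flt (Nat.shiftLeft 31 0) Pt6Abb It6Ab
noncomputable def Ot6Abb := flt (Nat.shiftLeft 31 0) Pt6Abb Ot6Ab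

noncomputable def Pt6Abba := Nat.lor Pt6Abb (Nat.shiftLeft 24 0)
noncomputable def It6Abba := flt (Nat.shiftLeft 31 0) Pt6Abba It6Abb
noncomputable def Ot6Abba := flt (Nat.shiftLeft 31 0) Pt6Abba Ot6Abb

theorem ok_t6Abba : okT cx6 (2 * cx6.O) t6Abba Pt6Abba It6Abba Ot6Abba = true := by decide +kernel

noncomputable def Pt6Abbb := Nat.lor Pt6Abb (Nat.shiftLeft 4 0)
noncomputable def It6Abbb := flt (Nat.shiftLeft 31 0) Pt6Abbb It6Abb
noncomputable def Ot6Abbb := flt (Nat.shiftLeft 31 0) Pt6Abbb Ot6Abb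

noncomputable def Pt6Abbba := Nat.lor Pt6Abbb (Nat.shiftLeft 16 0)
noncomputable def It6Abbba := flt (Nat.shiftLeft 31 0) Pt6Abbba It6Abbb
noncomputable def Ot6Abbba := flt (Nat.shiftLeft 31 0) Pt6Abbba Ot6Abbb

theorem ok_t6Abbba : okT cx6 (2 * cx6.O) t6Abbba Pt6Abbba It6Abbba Ot6Abbba = true := by decide +kernel

noncomputable def Pt6Abbbb := Nat.lor Pt6Abbb (Nat.shiftLeft 8 0)
noncomputable def It6Abbbb := flt (Nat.shiftLeft 31 0) Pt6Abbbb It6Abbb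
noncomputable def Ot6Abbbb := flt (Nat.shiftLeft 31 0) Pt6Abbbb Ot6Abbb

theorem ok_t6Abbbb : okT cx6 (2 * cx6.O) t6Abbbb Pt6Abbbb It6Abbbb Ot6Abbbb = true := by decide +kernel

theorem ok_t6Abbb : okT cx6 (2 * cx6.O) t6Abbb Pt6Abbb It6Abbb Ot6Abbb = true :=
  okT_node (by decide +kernel) ok_t6Abbba ok_t6Abbbb

theorem ok_t6Abb : okT cx6 (2 * cx6.O) t6Abb Pt6Abb It6Abb Ot6Abb = true :=
  okT_node (by decide +kernel) ok_t6Abba ok_t6Abbb

theorem ok_t6Ab : okT cx6 (2 * cx6.O) t6Ab Pt6Ab It6Ab Ot6Ab = true :=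
  okT_node (by decide +kernel) ok_t6Aba ok_t6Abb

theorem ok_t6A : okT cx6 (2 * cx6.O) t6A Pt6A It6A Ot6A = true :=
  okT_node (by decide +kernel) ok_t6Aa ok_t6Ab

theorem okA6 : okA cx6 = true :=
  ok_t6A

theorem okP6 : okP cx6 = true := by decide +kernel

theorem okM6 : okM cx6 = true := by decide +kernel

end Pool.Agent.MP_31805c_co.H47
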