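import Pool.Agent.MP_31805c_co.H47.X7
import Pool.Agent.MP_31805c_co.H47.OkAux

namespace Pool.Agent.MP_31805c_co.H47

set_option maxRecDepth 100000
set_option maxHeartbeats 0

noncomputable def Pt7A := only (mA cx7.d) (5 * c0 cx7.d)
noncomputable def It7A := flt (Nat.shiftLeft 31 (25 * c0 cx7.d)) Pt7A (flt 31 Pt7A ((comp cx7.d true false cx7.R) ++ (comp cx7.d true true cx7.R)))
noncomputable def Ot7A := flt (Nat.shiftLeft 31 (25 * c0 cx7.d)) Pt7A (flt 31 Pt7A ((comp cx7.d false false cx7.R) ++ (comp cx7.d false true cx7.R)))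

theorem ok_t7A : okT cx7 (2 * cx7.O) t7A Pt7A It7A Ot7A = true := by decide +kernel

theorem okA7 : okA cx7 = true :=
  ok_t7A

noncomputable def Pt7P := Nat.shiftLeft (mA cx7.d) (25 * c0 cx7.d)
noncomputable def It7P := flt (Nat.shiftLeft 31 (25 * c0 cx7.d)) Pt7P (flt 31 Pt7P (comp cx7.d true false cx7.R))
noncomputable def Ot7P := flt (Nat.shiftLeft 31 (25 * c0 cx7.d)) Pt7P (flt 31 Pt7P (comp cx7.d false false cx7.R))

noncomputable def Pt7Pa := Nat.lor Pt7P (Nat.shiftLeft 24 0)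
noncomputable def It7Pa := flt (Nat.shiftLeft 31 0) Pt7Pa It7P
noncomputable def Ot7Pa := flt (Nat.shiftLeft 31 0) Pt7Pa Ot7P

noncomputable def Pt7Paa := Nat.lor Pt7Pa (Nat.shiftLeft 28 25)
noncomputable def It7Paa := flt (Nat.shiftLeft 31 25) Pt7Paa It7Pa
noncomputable def Ot7Paa := flt (Nat.shiftLeft 31 25) Pt7Paa Ot7Pa

noncomputable def Pt7Paaa := Nat.lor Pt7Paa (Nat.shiftLeft 30 150)
noncomputable def It7Paaa := flt (Nat.shiftLeft 31 150) Pt7Paaa It7Paa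
noncomputable def Ot7Paaa := flt (Nat.shiftLeft 31 150) Pt7Paaa Ot7Paa

noncomputable def Pt7Paaaa := Nat.lor Pt7Paaa (Nat.shiftLeft 30 50)
noncomputable def It7Paaaa := flt (Nat.shiftLeft 31 50) Pt7Paaaa It7Paaa
noncomputable def Ot7Paaaa := flt (Nat.shiftLeft 31 50) Pt7Paaaa Ot7Paaa

noncomputable def Pt7Paaaaa := Nat.lor Pt7Paaaa (Nat.shiftLeft 30 5)
noncomputable def It7Paaaaa := flt (Nat.shiftLeft 31 5) Pt7Paaaaa It7Paaaa
noncomputable def Ot7Paaaaa := flt (Nat.shiftLeft 31 5) Pt7Paaaaa Ot7Paaaa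

theorem ok_t7Paaaaa : okT cx7 cx7.O t7Paaaaa Pt7Paaaaa It7Paaaaa Ot7Paaaaa = true := by decide +kernel

noncomputable def Pt7Paaaab := Nat.lor Pt7Paaaa (Nat.shiftLeft 1 5)
noncomputable def It7Paaaab := flt (Nat.shiftLeft 31 5) Pt7Paaaab It7Paaaa
noncomputable def Ot7Paaaab := flt (Nat.shiftLeft 31 5) Pt7Paaaab Ot7Paaaa

noncomputable def Pt7Paaaaba := Nat.lor Pt7Paaaab (Nat.shiftLeft 30 75)
noncomputable def It7Paaaaba := flt (Nat.shiftLeft 31 75) Pt7Paaaaba It7Paaaab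
noncomputable def Ot7Paaaaba := flt (Nat.shiftLeft 31 75) Pt7Paaaaba Ot7Paaaab

theorem ok_t7Paaaaba : okT cx7 cx7.O t7Paaaaba Pt7Paaaaba It7Paaaaba Ot7Paaaaba = true := by decide +kernel

noncomputable def Pt7Paaaabb := Nat.lor Pt7Paaaab (Nat.shiftLeft 1 75)
noncomputable def It7Paaaabb := flt (Nat.shiftLeft 31 75) Pt7Paaaabb It7Paaaab
noncomputable def Ot7Paaaabb := flt (Nat.shiftLeft 31 75) Pt7Paaaabb Ot7Paaaab

theorem ok_t7Paaaabb : okT cx7 cx7.O t7Paaaabb Pt7Paaaabb It7Paaaabb Ot7Paaaabb = true := by decide +kernel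

theorem ok_t7Paaaab : okT cx7 cx7.O t7Paaaab Pt7Paaaab It7Paaaab Ot7Paaaab = true :=
  okT_node (by decide +kernel) ok_t7Paaaaba ok_t7Paaaabb

theorem ok_t7Paaaa : okT cx7 cx7.O t7Paaaa Pt7Paaaa It7Paaaa Ot7Paaaa = true :=
  okT_node (by decide +kernel) ok_t7Paaaaa ok_t7Paaaab

noncomputable def Pt7Paaab := Nat.lor Pt7Paaa (Nat.shiftLeft 1 50)
noncomputable def It7Paaab := flt (Nat.shiftLeft 31 50) Pt7Paaab It7Paaa
noncomputable def Ot7Paaab := flt (Nat.shiftLeft 31 50) Pt7Paaab Ot7Paaa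

noncomputable def Pt7Paaaba := Nat.lor Pt7Paaab (Nat.shiftLeft 30 5)
noncomputable def It7Paaaba := flt (Nat.shiftLeft 31 5) Pt7Paaaba It7Paaab
noncomputable def Ot7Paaaba := flt (Nat.shiftLeft 31 5) Pt7Paaaba Ot7Paaab

noncomputable def Pt7Paaabaa := Nat.lor Pt7Paaaba (Nat.shiftLeft 30 75)
noncomputable def It7Paaabaa := flt (Nat.shiftLeft 31 75) Pt7Paaabaa It7Paaaba
noncomputable def Ot7Paaabaa := flt (Nat.shiftLeft 31 75) Pt7Paaabaa Ot7Paaaba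

theorem ok_t7Paaabaa : okT cx7 cx7.O t7Paaabaa Pt7Paaabaa It7Paaabaa Ot7Paaabaa = true := by decide +kernel

noncomputable def Pt7Paaabab := Nat.lor Pt7Paaaba (Nat.shiftLeft 1 75)
noncomputable def It7Paaabab := flt (Nat.shiftLeft 31 75) Pt7Paaabab It7Paaaba
noncomputable def Ot7Paaabab := flt (Nat.shiftLeft 31 75) Pt7Paaabab Ot7Paaaba

theorem ok_t7Paaabab : okT cx7 cx7.O t7Paaabab Pt7Paaabab It7Paaabab Ot7Paaabab = true := by decide +kernel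

theorem ok_t7Paaaba : okT cx7 cx7.O t7Paaaba Pt7Paaaba It7Paaaba Ot7Paaaba = true :=
  okT_node (by decide +kernel) ok_t7Paaabaa ok_t7Paaabab

noncomputable def Pt7Paaabb := Nat.lor Pt7Paaab (Nat.shiftLeft 1 5)
noncomputable def It7Paaabb := flt (Nat.shiftLeft 31 5) Pt7Paaabb It7Paaab
noncomputable def Ot7Paaabb := flt (Nat.shiftLeft 31 5) Pt7Paaabb Ot7Paaab

noncomputable def Pt7Paaabba := Nat.lor Pt7Paaabb (Nat.shiftLeft 30 75)
noncomputable def It7Paaabba := flt (Nat.shiftLeft 31 75) Pt7Paaabba It7Paaabb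
noncomputable def Ot7Paaabba := flt (Nat.shiftLeft 31 75) Pt7Paaabba Ot7Paaabb

theorem ok_t7Paaabba : okT cx7 cx7.O t7Paaabba Pt7Paaabba It7Paaabba Ot7Paaabba = true := by decide +kernel

noncomputable def Pt7Paaabbb := Nat.lor Pt7Paaabb (Nat.shiftLeft 1 75)
noncomputable def It7Paaabbb := flt (Nat.shiftLeft 31 75) Pt7Paaabbb It7Paaabb
noncomputable def Ot7Paaabbb := flt (Nat.shiftLeft 31 75) Pt7Paaabbb Ot7Paaabb

noncomputable def Pt7Paaabbba := Nat.lor Pt7Paaabbb (Nat.shiftLeft 30 10)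
noncomputable def It7Paaabbba := flt (Nat.shiftLeft 31 10) Pt7Paaabbba It7Paaabbb
noncomputable def Ot7Paaabbba := flt (Nat.shiftLeft 31 10) Pt7Paaabbba Ot7Paaabbb

theorem ok_t7Paaabbba : okT cx7 cx7.O t7Paaabbba Pt7Paaabbba It7Paaabbba Ot7Paaabbba = true := by decide +kernel

noncomputable def Pt7Paaabbbb := Nat.lor Pt7Paaabbb (Nat.shiftLeft 1 10)
noncomputable def It7Paaabbbb := flt (Nat.shiftLeft 31 10) Pt7Paaabbbb It7Paaabbb
noncomputable def Ot7Paaabbbb := flt (Nat.shiftLeft 31 10) Pt7Paaabbbb Ot7Paaabbb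

noncomputable def Pt7Paaabbbba := Nat.lor Pt7Paaabbbb (Nat.shiftLeft 28 125)
noncomputable def It7Paaabbbba := flt (Nat.shiftLeft 31 125) Pt7Paaabbbba It7Paaabbbb
noncomputable def Ot7Paaabbbba := flt (Nat.shiftLeft 31 125) Pt7Paaabbbba Ot7Paaabbbb

theorem ok_t7Paaabbbba : okT cx7 cx7.O t7Paaabbbba Pt7Paaabbbba It7Paaabbbba Ot7Paaabbbba = true := by decide +kernel

noncomputable def Pt7Paaabbbbb := Nat.lor Pt7Paaabbbb (Nat.shiftLeft 3 125)
noncomputable def It7Paaabbbbb := flt (Nat.shiftLeft 31 125) Pt7Paaabbbbb It7Paaabbbb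
noncomputable def Ot7Paaabbbbb := flt (Nat.shiftLeft 31 125) Pt7Paaabbbbb Ot7Paaabbbb

theorem ok_t7Paaabbbbb : okT cx7 cx7.O t7Paaabbbbb Pt7Paaabbbbb It7Paaabbbbb Ot7Paaabbbbb = true := by decide +kernel

theorem ok_t7Paaabbbb : okT cx7 cx7.O t7Paaabbbb Pt7Paaabbbb It7Paaabbbb Ot7Paaabbbb = true :=
  okT_node (by decide +kernel) ok_t7Paaabbbba ok_t7Paaabbbbb

theorem ok_t7Paaabbb : okT cx7 cx7.O t7Paaabbb Pt7Paaabbb It7Paaabbb Ot7Paaabbb = true :=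
  okT_node (by decide +kernel) ok_t7Paaabbba ok_t7Paaabbbb

theorem ok_t7Paaabb : okT cx7 cx7.O t7Paaabb Pt7Paaabb It7Paaabb Ot7Paaabb = true :=
  okT_node (by decide +kernel) ok_t7Paaabba ok_t7Paaabbb

theorem ok_t7Paaab : okT cx7 cx7.O t7Paaab Pt7Paaab It7Paaab Ot7Paaab = true :=
  okT_node (by decide +kernel) ok_t7Paaaba ok_t7Paaabb

theorem ok_t7Paaa : okT cx7 cx7.O t7Paaa Pt7Paaa It7Paaa Ot7Paaa = true :=
  okT_node (by decide +kernel) ok_t7Paaaa ok_t7Paaab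

noncomputable def Pt7Paab := Nat.lor Pt7Paa (Nat.shiftLeft 1 150)
noncomputable def It7Paab := flt (Nat.shiftLeft 31 150) Pt7Paab It7Paa
noncomputable def Ot7Paab := flt (Nat.shiftLeft 31 150) Pt7Paab Ot7Paa

noncomputable def Pt7Paaba := Nat.lor Pt7Paab (Nat.shiftLeft 30 75)
noncomputable def It7Paaba := flt (Nat.shiftLeft 31 75) Pt7Paaba It7Paab
noncomputable def Ot7Paaba := flt (Nat.shiftLeft 31 75) Pt7Paaba Ot7Paab

noncomputable def Pt7Paabaa := Nat.lor Pt7Paaba (Nat.shiftLeft 28 50)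
noncomputable def It7Paabaa := flt (Nat.shiftLeft 31 50) Pt7Paabaa It7Paaba
noncomputable def Ot7Paabaa := flt (Nat.shiftLeft 31 50) Pt7Paabaa Ot7Paaba

noncomputable def Pt7Paabaaa := Nat.lor Pt7Paabaa (Nat.shiftLeft 30 10)
noncomputable def It7Paabaaa := flt (Nat.shiftLeft 31 10) Pt7Paabaaa It7Paabaa
noncomputable def Ot7Paabaaa := flt (Nat.shiftLeft 31 10) Pt7Paabaaa Ot7Paabaa

theorem ok_t7Paabaaa : okT cx7 cx7.O t7Paabaaa Pt7Paabaaa It7Paabaaa Ot7Paabaaa = true := by decide +kernel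

noncomputable def Pt7Paabaab := Nat.lor Pt7Paabaa (Nat.shiftLeft 1 10)
noncomputable def It7Paabaab := flt (Nat.shiftLeft 31 10) Pt7Paabaab It7Paabaa
noncomputable def Ot7Paabaab := flt (Nat.shiftLeft 31 10) Pt7Paabaab Ot7Paabaa

noncomputable def Pt7Paabaaba := Nat.lor Pt7Paabaab (Nat.shiftLeft 2 50)
noncomputable def It7Paabaaba := flt (Nat.shiftLeft 31 50) Pt7Paabaaba It7Paabaab
noncomputable def Ot7Paabaaba := flt (Nat.shiftLeft 31 50) Pt7Paabaaba Ot7Paabaab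

theorem ok_t7Paabaaba : okT cx7 cx7.O t7Paabaaba Pt7Paabaaba It7Paabaaba Ot7Paabaaba = true := by decide +kernel

noncomputable def Pt7Paabaabb := Nat.lor Pt7Paabaab (Nat.shiftLeft 1 50)
noncomputable def It7Paabaabb := flt (Nat.shiftLeft 31 50) Pt7Paabaabb It7Paabaab
noncomputable def Ot7Paabaabb := flt (Nat.shiftLeft 31 50) Pt7Paabaabb Ot7Paabaab

noncomputable def Pt7Paabaabba := Nat.lor Pt7Paabaabb (Nat.shiftLeft 30 5)
noncomputable def It7Paabaabba := flt (Nat.shiftLeft 31 5) Pt7Paabaabba It7Paabaabb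
noncomputable def Ot7Paabaabba := flt (Nat.shiftLeft 31 5) Pt7Paabaabba Ot7Paabaabb

theorem ok_t7Paabaabba : okT cx7 cx7.O t7Paabaabba Pt7Paabaabba It7Paabaabba Ot7Paabaabba = true := by decide +kernel

noncomputable def Pt7Paabaabbb := Nat.lor Pt7Paabaabb (Nat.shiftLeft 1 5)
noncomputable def It7Paabaabbb := flt (Nat.shiftLeft 31 5) Pt7Paabaabbb It7Paabaabb
noncomputable def Ot7Paabaabbb := flt (Nat.shiftLeft 31 5) Pt7Paabaabbb Ot7Paabaabb

theorem ok_t7Paabaabbb : okT cx7 cx7.O t7Paabaabbb Pt7Paabaabbb It7Paabaabbb Ot7Paabaabbb = true := by decide +kernel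

theorem ok_t7Paabaabb : okT cx7 cx7.O t7Paabaabb Pt7Paabaabb It7Paabaabb Ot7Paabaabb = true :=
  okT_node (by decide +kernel) ok_t7Paabaabba ok_t7Paabaabbb

theorem ok_t7Paabaab : okT cx7 cx7.O t7Paabaab Pt7Paabaab It7Paabaab Ot7Paabaab = true :=
  okT_node (by decide +kernel) ok_t7Paabaaba ok_t7Paabaabb

theorem ok_t7Paabaa : okT cx7 cx7.O t7Paabaa Pt7Paabaa It7Paabaa Ot7Paabaa = true :=
  okT_node (by decide +kernel) ok_t7Paabaaa ok_t7Paabaab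

noncomputable def Pt7Paabab := Nat.lor Pt7Paaba (Nat.shiftLeft 3 50)
noncomputable def It7Paabab := flt (Nat.shiftLeft 31 50) Pt7Paabab It7Paaba
noncomputable def Ot7Paabab := flt (Nat.shiftLeft 31 50) Pt7Paabab Ot7Paaba

noncomputable def Pt7Paababa := Nat.lor Pt7Paabab (Nat.shiftLeft 30 10)
noncomputable def It7Paababa := flt (Nat.shiftLeft 31 10) Pt7Paababa It7Paabab
noncomputable def Ot7Paababa := flt (Nat.shiftLeft 31 10) Pt7Paababa Ot7Paabab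

theorem ok_t7Paababa : okT cx7 cx7.O t7Paababa Pt7Paababa It7Paababa Ot7Paababa = true := by decide +kernel

noncomputable def Pt7Paababb := Nat.lor Pt7Paabab (Nat.shiftLeft 1 10)
noncomputable def It7Paababb := flt (Nat.shiftLeft 31 10) Pt7Paababb It7Paabab
noncomputable def Ot7Paababb := flt (Nat.shiftLeft 31 10) Pt7Paababb Ot7Paabab

theorem ok_t7Paababb : okT cx7 cx7.O t7Paababb Pt7Paababb It7Paababb Ot7Paababb = true := by decide +kernel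

theorem ok_t7Paabab : okT cx7 cx7.O t7Paabab Pt7Paabab It7Paabab Ot7Paabab = true :=
  okT_node (by decide +kernel) ok_t7Paababa ok_t7Paababb

theorem ok_t7Paaba : okT cx7 cx7.O t7Paaba Pt7Paaba It7Paaba Ot7Paaba = true :=
  okT_node (by decide +kernel) ok_t7Paabaa ok_t7Paabab

noncomputable def Pt7Paabb := Nat.lor Pt7Paab (Nat.shiftLeft 1 75)
noncomputable def It7Paabb := flt (Nat.shiftLeft 31 75) Pt7Paabb It7Paab
noncomputable def Ot7Paabb := flt (Nat.shiftLeft 31 75) Pt7Paabb Ot7Paab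

noncomputable def Pt7Paabba := Nat.lor Pt7Paabb (Nat.shiftLeft 30 10)
noncomputable def It7Paabba := flt (Nat.shiftLeft 31 10) Pt7Paabba It7Paabb
noncomputable def Ot7Paabba := flt (Nat.shiftLeft 31 10) Pt7Paabba Ot7Paabb

noncomputable def Pt7Paabbaa := Nat.lor Pt7Paabba (Nat.shiftLeft 28 5)
noncomputable def It7Paabbaa := flt (Nat.shiftLeft 31 5) Pt7Paabbaa It7Paabba
noncomputable def Ot7Paabbaa := flt (Nat.shiftLeft 31 5) Pt7Paabbaa Ot7Paabba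

noncomputable def Pt7Paabbaaa := Nat.lor Pt7Paabbaa (Nat.shiftLeft 30 50)
noncomputable def It7Paabbaaa := flt (Nat.shiftLeft 31 50) Pt7Paabbaaa It7Paabbaa
noncomputable def Ot7Paabbaaa := flt (Nat.shiftLeft 31 50) Pt7Paabbaaa Ot7Paabbaa

theorem ok_t7Paabbaaa : okT cx7 cx7.O t7Paabbaaa Pt7Paabbaaa It7Paabbaaa Ot7Paabbaaa = true := by decide +kernel

noncomputable def Pt7Paabbaab := Nat.lor Pt7Paabbaa (Nat.shiftLeft 1 50)
noncomputable def It7Paabbaab := flt (Nat.shiftLeft 31 50) Pt7Paabbaab It7Paabbaa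
noncomputable def Ot7Paabbaab := flt (Nat.shiftLeft 31 50) Pt7Paabbaab Ot7Paabbaa

noncomputable def Pt7Paabbaaba := Nat.lor Pt7Paabbaab (Nat.shiftLeft 2 5)
noncomputable def It7Paabbaaba := flt (Nat.shiftLeft 31 5) Pt7Paabbaaba It7Paabbaab
noncomputable def Ot7Paabbaaba := flt (Nat.shiftLeft 31 5) Pt7Paabbaaba Ot7Paabbaab

theorem ok_t7Paabbaaba : okT cx7 cx7.O t7Paabbaaba Pt7Paabbaaba It7Paabbaaba Ot7Paabbaaba = true := by decide +kernel

noncomputable def Pt7Paabbaabb := Nat.lor Pt7Paabbaab (Nat.shiftLeft 1 5)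
noncomputable def It7Paabbaabb := flt (Nat.shiftLeft 31 5) Pt7Paabbaabb It7Paabbaab
noncomputable def Ot7Paabbaabb := flt (Nat.shiftLeft 31 5) Pt7Paabbaabb Ot7Paabbaab

theorem ok_t7Paabbaabb : okT cx7 cx7.O t7Paabbaabb Pt7Paabbaabb It7Paabbaabb Ot7Paabbaabb = true := by decide +kernel

theorem ok_t7Paabbaab : okT cx7 cx7.O t7Paabbaab Pt7Paabbaab It7Paabbaab Ot7Paabbaab = true :=
  okT_node (by decide +kernel) ok_t7Paabbaaba ok_t7Paabbaabb

theorem ok_t7Paabbaa : okT cx7 cx7.O t7Paabbaa Pt7Paabbaa It7Paabbaa Ot7Paabbaa = true :=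
  okT_node (by decide +kernel) ok_t7Paabbaaa ok_t7Paabbaab

noncomputable def Pt7Paabbab := Nat.lor Pt7Paabba (Nat.shiftLeft 3 5)
noncomputable def It7Paabbab := flt (Nat.shiftLeft 31 5) Pt7Paabbab It7Paabba
noncomputable def Ot7Paabbab := flt (Nat.shiftLeft 31 5) Pt7Paabbab Ot7Paabba

theorem ok_t7Paabbab : okT cx7 cx7.O t7Paabbab Pt7Paabbab It7Paabbab Ot7Paabbab = true := by decide +kernel

theorem ok_t7Paabba : okT cx7 cx7.O t7Paabba Pt7Paabba It7Paabba Ot7Paabba = true :=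
  okT_node (by decide +kernel) ok_t7Paabbaa ok_t7Paabbab

noncomputable def Pt7Paabbb := Nat.lor Pt7Paabb (Nat.shiftLeft 1 10)
noncomputable def It7Paabbb := flt (Nat.shiftLeft 31 10) Pt7Paabbb It7Paabb
noncomputable def Ot7Paabbb := flt (Nat.shiftLeft 31 10) Pt7Paabbb Ot7Paabb

noncomputable def Pt7Paabbba := Nat.lor Pt7Paabbb (Nat.shiftLeft 30 50)
noncomputable def It7Paabbba := flt (Nat.shiftLeft 31 50) Pt7Paabbba It7Paabbb
noncomputable def Ot7Paabbba := flt (Nat.shiftLeft 31 50) Pt7Paabbba Ot7Paabbb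

noncomputable def Pt7Paabbbaa := Nat.lor Pt7Paabbba (Nat.shiftLeft 30 5)
noncomputable def It7Paabbbaa := flt (Nat.shiftLeft 31 5) Pt7Paabbbaa It7Paabbba
noncomputable def Ot7Paabbbaa := flt (Nat.shiftLeft 31 5) Pt7Paabbbaa Ot7Paabbba

theorem ok_t7Paabbbaa : okT cx7 cx7.O t7Paabbbaa Pt7Paabbbaa It7Paabbbaa Ot7Paabbbaa = true := by decide +kernel

noncomputable def Pt7Paabbbab := Nat.lor Pt7Paabbba (Nat.shiftLeft 1 5)
noncomputable def It7Paabbbab := flt (Nat.shiftLeft 31 5) Pt7Paabbbab It7Paabbba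
noncomputable def Ot7Paabbbab := flt (Nat.shiftLeft 31 5) Pt7Paabbbab Ot7Paabbba

noncomputable def Pt7Paabbbaba := Nat.lor Pt7Paabbbab (Nat.shiftLeft 28 125)
noncomputable def It7Paabbbaba := flt (Nat.shiftLeft 31 125) Pt7Paabbbaba It7Paabbbab
noncomputable def Ot7Paabbbaba := flt (Nat.shiftLeft 31 125) Pt7Paabbbaba Ot7Paabbbab

theorem ok_t7Paabbbaba : okT cx7 cx7.O t7Paabbbaba Pt7Paabbbaba It7Paabbbaba Ot7Paabbbaba = true := by decide +kernel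

noncomputable def Pt7Paabbbabb := Nat.lor Pt7Paabbbab (Nat.shiftLeft 3 125)
noncomputable def It7Paabbbabb := flt (Nat.shiftLeft 31 125) Pt7Paabbbabb It7Paabbbab
noncomputable def Ot7Paabbbabb := flt (Nat.shiftLeft 31 125) Pt7Paabbbabb Ot7Paabbbab

theorem ok_t7Paabbbabb : okT cx7 cx7.O t7Paabbbabb Pt7Paabbbabb It7Paabbbabb Ot7Paabbbabb = true := by decide +kernel

theorem ok_t7Paabbbab : okT cx7 cx7.O t7Paabbbab Pt7Paabbbab It7Paabbbab Ot7Paabbbab = true :=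
  okT_node (by decide +kernel) ok_t7Paabbbaba ok_t7Paabbbabb

theorem ok_t7Paabbba : okT cx7 cx7.O t7Paabbba Pt7Paabbba It7Paabbba Ot7Paabbba = true :=
  okT_node (by decide +kernel) ok_t7Paabbbaa ok_t7Paabbbab

noncomputable def Pt7Paabbbb := Nat.lor Pt7Paabbb (Nat.shiftLeft 1 50)
noncomputable def It7Paabbbb := flt (Nat.shiftLeft 31 50) Pt7Paabbbb It7Paabbb
noncomputable def Ot7Paabbbb := flt (Nat.shiftLeft 31 50) Pt7Paabbbb Ot7Paabbb

noncomputable def Pt7Paabbbba := Nat.lor Pt7Paabbbb (Nat.shiftLeft 30 5)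
noncomputable def It7Paabbbba := flt (Nat.shiftLeft 31 5) Pt7Paabbbba It7Paabbbb
noncomputable def Ot7Paabbbba := flt (Nat.shiftLeft 31 5) Pt7Paabbbba Ot7Paabbbb

noncomputable def Pt7Paabbbbaa := Nat.lor Pt7Paabbbba (Nat.shiftLeft 28 155)
noncomputable def It7Paabbbbaa := flt (Nat.shiftLeft 31 155) Pt7Paabbbbaa It7Paabbbba
noncomputable def Ot7Paabbbbaa := flt (Nat.shiftLeft 31 155) Pt7Paabbbbaa Ot7Paabbbba

theorem ok_t7Paabbbbaa : okT cx7 cx7.O t7Paabbbbaa Pt7Paabbbbaa It7Paabbbbaa Ot7Paabbbbaa = true := by decide +kernel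

noncomputable def Pt7Paabbbbab := Nat.lor Pt7Paabbbba (Nat.shiftLeft 3 155)
noncomputable def It7Paabbbbab := flt (Nat.shiftLeft 31 155) Pt7Paabbbbab It7Paabbbba
noncomputable def Ot7Paabbbbab := flt (Nat.shiftLeft 31 155) Pt7Paabbbbab Ot7Paabbbba

theorem ok_t7Paabbbbab : okT cx7 cx7.O t7Paabbbbab Pt7Paabbbbab It7Paabbbbab Ot7Paabbbbab = true := by decide +kernel

theorem ok_t7Paabbbba : okT cx7 cx7.O t7Paabbbba Pt7Paabbbba It7Paabbbba Ot7Paabbbba = true :=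
  okT_node (by decide +kernel) ok_t7Paabbbbaa ok_t7Paabbbbab

noncomputable def Pt7Paabbbbb := Nat.lor Pt7Paabbbb (Nat.shiftLeft 1 5)
noncomputable def It7Paabbbbb := flt (Nat.shiftLeft 31 5) Pt7Paabbbbb It7Paabbbb
noncomputable def Ot7Paabbbbb := flt (Nat.shiftLeft 31 5) Pt7Paabbbbb Ot7Paabbbb

noncomputable def Pt7Paabbbbba := Nat.lor Pt7Paabbbbb (Nat.shiftLeft 28 125)
noncomputable def It7Paabbbbba := flt (Nat.shiftLeft 31 125) Pt7Paabbbbba It7Paabbbbb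
noncomputable def Ot7Paabbbbba := flt (Nat.shiftLeft 31 125) Pt7Paabbbbba Ot7Paabbbbb

noncomputable def Pt7Paabbbbbaa := Nat.lor Pt7Paabbbbba (Nat.shiftLeft 1 155)
noncomputable def It7Paabbbbbaa := flt (Nat.shiftLeft 31 155) Pt7Paabbbbbaa It7Paabbbbba
noncomputable def Ot7Paabbbbbaa := flt (Nat.shiftLeft 31 155) Pt7Paabbbbbaa Ot7Paabbbbba

theorem ok_t7Paabbbbbaa : okT cx7 cx7.O t7Paabbbbbaa Pt7Paabbbbbaa It7Paabbbbbaa Ot7Paabbbbbaa = true := by decide +kernel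

noncomputable def Pt7Paabbbbbab := Nat.lor Pt7Paabbbbba (Nat.shiftLeft 30 155)
noncomputable def It7Paabbbbbab := flt (Nat.shiftLeft 31 155) Pt7Paabbbbbab It7Paabbbbba
noncomputable def Ot7Paabbbbbab := flt (Nat.shiftLeft 31 155) Pt7Paabbbbbab Ot7Paabbbbba

theorem ok_t7Paabbbbbab : okT cx7 cx7.O t7Paabbbbbab Pt7Paabbbbbab It7Paabbbbbab Ot7Paabbbbbab = true := by decide +kernel

theorem ok_t7Paabbbbba : okT cx7 cx7.O t7Paabbbbba Pt7Paabbbbba It7Paabbbbba Ot7Paabbbbba = true :=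
  okT_node (by decide +kernel) ok_t7Paabbbbbaa ok_t7Paabbbbbab

noncomputable def Pt7Paabbbbbb := Nat.lor Pt7Paabbbbb (Nat.shiftLeft 3 125)
noncomputable def It7Paabbbbbb := flt (Nat.shiftLeft 31 125) Pt7Paabbbbbb It7Paabbbbb
noncomputable def Ot7Paabbbbbb := flt (Nat.shiftLeft 31 125) Pt7Paabbbbbb Ot7Paabbbbb

noncomputable def Pt7Paabbbbbba := Nat.lor Pt7Paabbbbbb (Nat.shiftLeft 28 155)
noncomputable def It7Paabbbbbba := flt (Nat.shiftLeft 31 155) Pt7Paabbbbbba It7Paabbbbbb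
noncomputable def Ot7Paabbbbbba := flt (Nat.shiftLeft 31 155) Pt7Paabbbbbba Ot7Paabbbbbb

theorem ok_t7Paabbbbbba : okT cx7 cx7.O t7Paabbbbbba Pt7Paabbbbbba It7Paabbbbbba Ot7Paabbbbbba = true := by decide +kernel

noncomputable def Pt7Paabbbbbbb := Nat.lor Pt7Paabbbbbb (Nat.shiftLeft 3 155)
noncomputable def It7Paabbbbbbb := flt (Nat.shiftLeft 31 155) Pt7Paabbbbbbb It7Paabbbbbb
noncomputable def Ot7Paabbbbbbb := flt (Nat.shiftLeft 31 155) Pt7Paabbbbbbb Ot7Paabbbbbb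

theorem ok_t7Paabbbbbbb : okT cx7 cx7.O t7Paabbbbbbb Pt7Paabbbbbbb It7Paabbbbbbb Ot7Paabbbbbbb = true := by decide +kernel

theorem ok_t7Paabbbbbb : okT cx7 cx7.O t7Paabbbbbb Pt7Paabbbbbb It7Paabbbbbb Ot7Paabbbbbb = true :=
  okT_node (by decide +kernel) ok_t7Paabbbbbba ok_t7Paabbbbbbb

theorem ok_t7Paabbbbb : okT cx7 cx7.O t7Paabbbbb Pt7Paabbbbb It7Paabbbbb Ot7Paabbbbb = true :=
  okT_node (by decide +kernel) ok_t7Paabbbbba ok_t7Paabbbbbb

theorem ok_t7Paabbbb : okT cx7 cx7.O t7Paabbbb Pt7Paabbbb It7Paabbbb Ot7Paabbbb = true :=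
  okT_node (by decide +kernel) ok_t7Paabbbba ok_t7Paabbbbb

theorem ok_t7Paabbb : okT cx7 cx7.O t7Paabbb Pt7Paabbb It7Paabbb Ot7Paabbb = true :=
  okT_node (by decide +kernel) ok_t7Paabbba ok_t7Paabbbb

theorem ok_t7Paabb : okT cx7 cx7.O t7Paabb Pt7Paabb It7Paabb Ot7Paabb = true :=
  okT_node (by decide +kernel) ok_t7Paabba ok_t7Paabbb

theorem ok_t7Paab : okT cx7 cx7.O t7Paab Pt7Paab It7Paab Ot7Paab = true :=
  okT_node (by decide +kernel) ok_t7Paaba ok_t7Paabb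

theorem ok_t7Paa : okT cx7 cx7.O t7Paa Pt7Paa It7Paa Ot7Paa = true :=
  okT_node (by decide +kernel) ok_t7Paaa ok_t7Paab

noncomputable def Pt7Pab := Nat.lor Pt7Pa (Nat.shiftLeft 3 25)
noncomputable def It7Pab := flt (Nat.shiftLeft 31 25) Pt7Pab It7Pa
noncomputable def Ot7Pab := flt (Nat.shiftLeft 31 25) Pt7Pab Ot7Pa

theorem ok_t7Pab : okT cx7 cx7.O t7Pab Pt7Pab It7Pab Ot7Pab = true := by decide +kernel

theorem ok_t7Pa : okT cx7 cx7.O t7Pa Pt7Pa It7Pa Ot7Pa = true :=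
  okT_node (by decide +kernel) ok_t7Paa ok_t7Pab

noncomputable def Pt7Pb := Nat.lor Pt7P (Nat.shiftLeft 4 0)
noncomputable def It7Pb := flt (Nat.shiftLeft 31 0) Pt7Pb It7P
noncomputable def Ot7Pb := flt (Nat.shiftLeft 31 0) Pt7Pb Ot7P

noncomputable def Pt7Pba := Nat.lor Pt7Pb (Nat.shiftLeft 16 0)
noncomputable def It7Pba := flt (Nat.shiftLeft 31 0) Pt7Pba It7Pb
noncomputable def Ot7Pba := flt (Nat.shiftLeft 31 0) Pt7Pba Ot7Pb

noncomputable def Pt7Pbaa := Nat.lor Pt7Pba (Nat.shiftLeft 28 25)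
noncomputable def It7Pbaa := flt (Nat.shiftLeft 31 25) Pt7Pbaa It7Pba
noncomputable def Ot7Pbaa := flt (Nat.shiftLeft 31 25) Pt7Pbaa Ot7Pba

noncomputable def Pt7Pbaaa := Nat.lor Pt7Pbaa (Nat.shiftLeft 30 150)
noncomputable def It7Pbaaa := flt (Nat.shiftLeft 31 150) Pt7Pbaaa It7Pbaa
noncomputable def Ot7Pbaaa := flt (Nat.shiftLeft 31 150) Pt7Pbaaa Ot7Pbaa

noncomputable def Pt7Pbaaaa := Nat.lor Pt7Pbaaa (Nat.shiftLeft 30 50)
noncomputable def It7Pbaaaa := flt (Nat.shiftLeft 31 50) Pt7Pbaaaa It7Pbaaa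
noncomputable def Ot7Pbaaaa := flt (Nat.shiftLeft 31 50) Pt7Pbaaaa Ot7Pbaaa

theorem ok_t7Pbaaaa : okT cx7 cx7.O t7Pbaaaa Pt7Pbaaaa It7Pbaaaa Ot7Pbaaaa = true := by decide +kernel

noncomputable def Pt7Pbaaab := Nat.lor Pt7Pbaaa (Nat.shiftLeft 1 50)
noncomputable def It7Pbaaab := flt (Nat.shiftLeft 31 50) Pt7Pbaaab It7Pbaaa
noncomputable def Ot7Pbaaab := flt (Nat.shiftLeft 31 50) Pt7Pbaaab Ot7Pbaaa

theorem ok_t7Pbaaab : okT cx7 cx7.O t7Pbaaab Pt7Pbaaab It7Pbaaab Ot7Pbaaab = true := by decide +kernel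

theorem ok_t7Pbaaa : okT cx7 cx7.O t7Pbaaa Pt7Pbaaa It7Pbaaa Ot7Pbaaa = true :=
  okT_node (by decide +kernel) ok_t7Pbaaaa ok_t7Pbaaab

noncomputable def Pt7Pbaab := Nat.lor Pt7Pbaa (Nat.shiftLeft 1 150)
noncomputable def It7Pbaab := flt (Nat.shiftLeft 31 150) Pt7Pbaab It7Pbaa
noncomputable def Ot7Pbaab := flt (Nat.shiftLeft 31 150) Pt7Pbaab Ot7Pbaa

noncomputable def Pt7Pbaaba := Nat.lor Pt7Pbaab (Nat.shiftLeft 28 125)
noncomputable def It7Pbaaba := flt (Nat.shiftLeft 31 125) Pt7Pbaaba It7Pbaab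
noncomputable def Ot7Pbaaba := flt (Nat.shiftLeft 31 125) Pt7Pbaaba Ot7Pbaab

theorem ok_t7Pbaaba : okT cx7 cx7.O t7Pbaaba Pt7Pbaaba It7Pbaaba Ot7Pbaaba = true := by decide +kernel

noncomputable def Pt7Pbaabb := Nat.lor Pt7Pbaab (Nat.shiftLeft 3 125)
noncomputable def It7Pbaabb := flt (Nat.shiftLeft 31 125) Pt7Pbaabb It7Pbaab
noncomputable def Ot7Pbaabb := flt (Nat.shiftLeft 31 125) Pt7Pbaabb Ot7Pbaab

theorem ok_t7Pbaabb : okT cx7 cx7.O t7Pbaabb Pt7Pbaabb It7Pbaabb Ot7Pbaabb = true := by decide +kernel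

theorem ok_t7Pbaab : okT cx7 cx7.O t7Pbaab Pt7Pbaab It7Pbaab Ot7Pbaab = true :=
  okT_node (by decide +kernel) ok_t7Pbaaba ok_t7Pbaabb

theorem ok_t7Pbaa : okT cx7 cx7.O t7Pbaa Pt7Pbaa It7Pbaa Ot7Pbaa = true :=
  okT_node (by decide +kernel) ok_t7Pbaaa ok_t7Pbaab

noncomputable def Pt7Pbab := Nat.lor Pt7Pba (Nat.shiftLeft 3 25)
noncomputable def It7Pbab := flt (Nat.shiftLeft 31 25) Pt7Pbab It7Pba
noncomputable def Ot7Pbab := flt (Nat.shiftLeft 31 25) Pt7Pbab Ot7Pba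

theorem ok_t7Pbab : okT cx7 cx7.O t7Pbab Pt7Pbab It7Pbab Ot7Pbab = true := by decide +kernel

theorem ok_t7Pba : okT cx7 cx7.O t7Pba Pt7Pba It7Pba Ot7Pba = true :=
  okT_node (by decide +kernel) ok_t7Pbaa ok_t7Pbab

noncomputable def Pt7Pbb := Nat.lor Pt7Pb (Nat.shiftLeft 8 0)
noncomputable def It7Pbb := flt (Nat.shiftLeft 31 0) Pt7Pbb It7Pb
noncomputable def Ot7Pbb := flt (Nat.shiftLeft 31 0) Pt7Pbb Ot7Pb

theorem ok_t7Pbb : okT cx7 cx7.O t7Pbb Pt7Pbb It7Pbb Ot7Pbb = true := by decide +kernel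

theorem ok_t7Pb : okT cx7 cx7.O t7Pb Pt7Pb It7Pb Ot7Pb = true :=
  okT_node (by decide +kernel) ok_t7Pba ok_t7Pbb

theorem ok_t7P : okT cx7 cx7.O t7P Pt7P It7P Ot7P = true :=
  okT_node (by decide +kernel) ok_t7Pa ok_t7Pb

theorem okP7 : okP cx7 = true :=
  or_right' ok_t7P

noncomputable def Pt7M := Nat.shiftLeft (mA cx7.d) (25 * c0 cx7.d)
noncomputable def It7M := flt (Nat.shiftLeft 31 (25 * c0 cx7.d)) Pt7M (flt 31 Pt7M (comp cx7.d true true cx7.R))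
noncomputable def Ot7M := flt (Nat.shiftLeft 31 (25 * c0 cx7.d)) Pt7M (flt 31 Pt7M (comp cx7.d false true cx7.R))

noncomputable def Pt7Ma := Nat.lor Pt7M (Nat.shiftLeft 24 0)
noncomputable def It7Ma := flt (Nat.shiftLeft 31 0) Pt7Ma It7M
noncomputable def Ot7Ma := flt (Nat.shiftLeft 31 0) Pt7Ma Ot7M

noncomputable def Pt7Maa := Nat.lor Pt7Ma (Nat.shiftLeft 28 150)
noncomputable def It7Maa := flt (Nat.shiftLeft 31 150) Pt7Maa It7Ma
noncomputable def Ot7Maa := flt (Nat.shiftLeft 31 150) Pt7Maa Ot7Ma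

noncomputable def Pt7Maaa := Nat.lor Pt7Maa (Nat.shiftLeft 30 25)
noncomputable def It7Maaa := flt (Nat.shiftLeft 31 25) Pt7Maaa It7Maa
noncomputable def Ot7Maaa := flt (Nat.shiftLeft 31 25) Pt7Maaa Ot7Maa

noncomputable def Pt7Maaaa := Nat.lor Pt7Maaa (Nat.shiftLeft 30 125)
noncomputable def It7Maaaa := flt (Nat.shiftLeft 31 125) Pt7Maaaa It7Maaa
noncomputable def Ot7Maaaa := flt (Nat.shiftLeft 31 125) Pt7Maaaa Ot7Maaa

noncomputable def Pt7Maaaaa := Nat.lor Pt7Maaaa (Nat.shiftLeft 30 155)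
noncomputable def It7Maaaaa := flt (Nat.shiftLeft 31 155) Pt7Maaaaa It7Maaaa
noncomputable def Ot7Maaaaa := flt (Nat.shiftLeft 31 155) Pt7Maaaaa Ot7Maaaa

theorem ok_t7Maaaaa : okT cx7 cx7.O t7Maaaaa Pt7Maaaaa It7Maaaaa Ot7Maaaaa = true := by decide +kernel

noncomputable def Pt7Maaaab := Nat.lor Pt7Maaaa (Nat.shiftLeft 1 155)
noncomputable def It7Maaaab := flt (Nat.shiftLeft 31 155) Pt7Maaaab It7Maaaa
noncomputable def Ot7Maaaab := flt (Nat.shiftLeft 31 155) Pt7Maaaab Ot7Maaaa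

noncomputable def Pt7Maaaaba := Nat.lor Pt7Maaaab (Nat.shiftLeft 30 100)
noncomputable def It7Maaaaba := flt (Nat.shiftLeft 31 100) Pt7Maaaaba It7Maaaab
noncomputable def Ot7Maaaaba := flt (Nat.shiftLeft 31 100) Pt7Maaaaba Ot7Maaaab

theorem ok_t7Maaaaba : okT cx7 cx7.O t7Maaaaba Pt7Maaaaba It7Maaaaba Ot7Maaaaba = true := by decide +kernel

noncomputable def Pt7Maaaabb := Nat.lor Pt7Maaaab (Nat.shiftLeft 1 100)
noncomputable def It7Maaaabb := flt (Nat.shiftLeft 31 100) Pt7Maaaabb It7Maaaab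
noncomputable def Ot7Maaaabb := flt (Nat.shiftLeft 31 100) Pt7Maaaabb Ot7Maaaab

theorem ok_t7Maaaabb : okT cx7 cx7.O t7Maaaabb Pt7Maaaabb It7Maaaabb Ot7Maaaabb = true := by decide +kernel

theorem ok_t7Maaaab : okT cx7 cx7.O t7Maaaab Pt7Maaaab It7Maaaab Ot7Maaaab = true :=
  okT_node (by decide +kernel) ok_t7Maaaaba ok_t7Maaaabb

theorem ok_t7Maaaa : okT cx7 cx7.O t7Maaaa Pt7Maaaa It7Maaaa Ot7Maaaa = true :=
  okT_node (by decide +kernel) ok_t7Maaaaa ok_t7Maaaab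

noncomputable def Pt7Maaab := Nat.lor Pt7Maaa (Nat.shiftLeft 1 125)
noncomputable def It7Maaab := flt (Nat.shiftLeft 31 125) Pt7Maaab It7Maaa
noncomputable def Ot7Maaab := flt (Nat.shiftLeft 31 125) Pt7Maaab Ot7Maaa

noncomputable def Pt7Maaaba := Nat.lor Pt7Maaab (Nat.shiftLeft 30 155)
noncomputable def It7Maaaba := flt (Nat.shiftLeft 31 155) Pt7Maaaba It7Maaab
noncomputable def Ot7Maaaba := flt (Nat.shiftLeft 31 155) Pt7Maaaba Ot7Maaab

noncomputable def Pt7Maaabaa := Nat.lor Pt7Maaaba (Nat.shiftLeft 30 100)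
noncomputable def It7Maaabaa := flt (Nat.shiftLeft 31 100) Pt7Maaabaa It7Maaaba
noncomputable def Ot7Maaabaa := flt (Nat.shiftLeft 31 100) Pt7Maaabaa Ot7Maaaba

theorem ok_t7Maaabaa : okT cx7 cx7.O t7Maaabaa Pt7Maaabaa It7Maaabaa Ot7Maaabaa = true := by decide +kernel

noncomputable def Pt7Maaabab := Nat.lor Pt7Maaaba (Nat.shiftLeft 1 100)
noncomputable def It7Maaabab := flt (Nat.shiftLeft 31 100) Pt7Maaabab It7Maaaba
noncomputable def Ot7Maaabab := flt (Nat.shiftLeft 31 100) Pt7Maaabab Ot7Maaaba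

theorem ok_t7Maaabab : okT cx7 cx7.O t7Maaabab Pt7Maaabab It7Maaabab Ot7Maaabab = true := by decide +kernel

theorem ok_t7Maaaba : okT cx7 cx7.O t7Maaaba Pt7Maaaba It7Maaaba Ot7Maaaba = true :=
  okT_node (by decide +kernel) ok_t7Maaabaa ok_t7Maaabab

noncomputable def Pt7Maaabb := Nat.lor Pt7Maaab (Nat.shiftLeft 1 155)
noncomputable def It7Maaabb := flt (Nat.shiftLeft 31 155) Pt7Maaabb It7Maaab
noncomputable def Ot7Maaabb := flt (Nat.shiftLeft 31 155) Pt7Maaabb Ot7Maaab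

noncomputable def Pt7Maaabba := Nat.lor Pt7Maaabb (Nat.shiftLeft 30 100)
noncomputable def It7Maaabba := flt (Nat.shiftLeft 31 100) Pt7Maaabba It7Maaabb
noncomputable def Ot7Maaabba := flt (Nat.shiftLeft 31 100) Pt7Maaabba Ot7Maaabb

theorem ok_t7Maaabba : okT cx7 cx7.O t7Maaabba Pt7Maaabba It7Maaabba Ot7Maaabba = true := by decide +kernel

noncomputable def Pt7Maaabbb := Nat.lor Pt7Maaabb (Nat.shiftLeft 1 100)
noncomputable def It7Maaabbb := flt (Nat.shiftLeft 31 100) Pt7Maaabbb It7Maaabb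
noncomputable def Ot7Maaabbb := flt (Nat.shiftLeft 31 100) Pt7Maaabbb Ot7Maaabb

noncomputable def Pt7Maaabbba := Nat.lor Pt7Maaabbb (Nat.shiftLeft 30 15)
noncomputable def It7Maaabbba := flt (Nat.shiftLeft 31 15) Pt7Maaabbba It7Maaabbb
noncomputable def Ot7Maaabbba := flt (Nat.shiftLeft 31 15) Pt7Maaabbba Ot7Maaabbb

theorem ok_t7Maaabbba : okT cx7 cx7.O t7Maaabbba Pt7Maaabbba It7Maaabbba Ot7Maaabbba = true := by decide +kernel

noncomputable def Pt7Maaabbbb := Nat.lor Pt7Maaabbb (Nat.shiftLeft 1 15)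
noncomputable def It7Maaabbbb := flt (Nat.shiftLeft 31 15) Pt7Maaabbbb It7Maaabbb
noncomputable def Ot7Maaabbbb := flt (Nat.shiftLeft 31 15) Pt7Maaabbbb Ot7Maaabbb

noncomputable def Pt7Maaabbbba := Nat.lor Pt7Maaabbbb (Nat.shiftLeft 28 50)
noncomputable def It7Maaabbbba := flt (Nat.shiftLeft 31 50) Pt7Maaabbbba It7Maaabbbb
noncomputable def Ot7Maaabbbba := flt (Nat.shiftLeft 31 50) Pt7Maaabbbba Ot7Maaabbbb

theorem ok_t7Maaabbbba : okT cx7 cx7.O t7Maaabbbba Pt7Maaabbbba It7Maaabbbba Ot7Maaabbbba = true := by decide +kernel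

noncomputable def Pt7Maaabbbbb := Nat.lor Pt7Maaabbbb (Nat.shiftLeft 3 50)
noncomputable def It7Maaabbbbb := flt (Nat.shiftLeft 31 50) Pt7Maaabbbbb It7Maaabbbb
noncomputable def Ot7Maaabbbbb := flt (Nat.shiftLeft 31 50) Pt7Maaabbbbb Ot7Maaabbbb

theorem ok_t7Maaabbbbb : okT cx7 cx7.O t7Maaabbbbb Pt7Maaabbbbb It7Maaabbbbb Ot7Maaabbbbb = true := by decide +kernel

theorem ok_t7Maaabbbb : okT cx7 cx7.O t7Maaabbbb Pt7Maaabbbb It7Maaabbbb Ot7Maaabbbb = true :=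
  okT_node (by decide +kernel) ok_t7Maaabbbba ok_t7Maaabbbbb

theorem ok_t7Maaabbb : okT cx7 cx7.O t7Maaabbb Pt7Maaabbb It7Maaabbb Ot7Maaabbb = true :=
  okT_node (by decide +kernel) ok_t7Maaabbba ok_t7Maaabbbb

theorem ok_t7Maaabb : okT cx7 cx7.O t7Maaabb Pt7Maaabb It7Maaabb Ot7Maaabb = true :=
  okT_node (by decide +kernel) ok_t7Maaabba ok_t7Maaabbb

theorem ok_t7Maaab : okT cx7 cx7.O t7Maaab Pt7Maaab It7Maaab Ot7Maaab = true :=
  okT_node (by decide +kernel) ok_t7Maaaba ok_t7Maaabb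

theorem ok_t7Maaa : okT cx7 cx7.O t7Maaa Pt7Maaa It7Maaa Ot7Maaa = true :=
  okT_node (by decide +kernel) ok_t7Maaaa ok_t7Maaab

noncomputable def Pt7Maab := Nat.lor Pt7Maa (Nat.shiftLeft 1 25)
noncomputable def It7Maab := flt (Nat.shiftLeft 31 25) Pt7Maab It7Maa
noncomputable def Ot7Maab := flt (Nat.shiftLeft 31 25) Pt7Maab Ot7Maa

noncomputable def Pt7Maaba := Nat.lor Pt7Maab (Nat.shiftLeft 30 100)
noncomputable def It7Maaba := flt (Nat.shiftLeft 31 100) Pt7Maaba It7Maab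
noncomputable def Ot7Maaba := flt (Nat.shiftLeft 31 100) Pt7Maaba Ot7Maab

noncomputable def Pt7Maabaa := Nat.lor Pt7Maaba (Nat.shiftLeft 28 125)
noncomputable def It7Maabaa := flt (Nat.shiftLeft 31 125) Pt7Maabaa It7Maaba
noncomputable def Ot7Maabaa := flt (Nat.shiftLeft 31 125) Pt7Maabaa Ot7Maaba

noncomputable def Pt7Maabaaa := Nat.lor Pt7Maabaa (Nat.shiftLeft 30 15)
noncomputable def It7Maabaaa := flt (Nat.shiftLeft 31 15) Pt7Maabaaa It7Maabaa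
noncomputable def Ot7Maabaaa := flt (Nat.shiftLeft 31 15) Pt7Maabaaa Ot7Maabaa

theorem ok_t7Maabaaa : okT cx7 cx7.O t7Maabaaa Pt7Maabaaa It7Maabaaa Ot7Maabaaa = true := by decide +kernel

noncomputable def Pt7Maabaab := Nat.lor Pt7Maabaa (Nat.shiftLeft 1 15)
noncomputable def It7Maabaab := flt (Nat.shiftLeft 31 15) Pt7Maabaab It7Maabaa
noncomputable def Ot7Maabaab := flt (Nat.shiftLeft 31 15) Pt7Maabaab Ot7Maabaa

noncomputable def Pt7Maabaaba := Nat.lor Pt7Maabaab (Nat.shiftLeft 2 125)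
noncomputable def It7Maabaaba := flt (Nat.shiftLeft 31 125) Pt7Maabaaba It7Maabaab
noncomputable def Ot7Maabaaba := flt (Nat.shiftLeft 31 125) Pt7Maabaaba Ot7Maabaab

theorem ok_t7Maabaaba : okT cx7 cx7.O t7Maabaaba Pt7Maabaaba It7Maabaaba Ot7Maabaaba = true := by decide +kernel

noncomputable def Pt7Maabaabb := Nat.lor Pt7Maabaab (Nat.shiftLeft 1 125)
noncomputable def It7Maabaabb := flt (Nat.shiftLeft 31 125) Pt7Maabaabb It7Maabaab
noncomputable def Ot7Maabaabb := flt (Nat.shiftLeft 31 125) Pt7Maabaabb Ot7Maabaab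

noncomputable def Pt7Maabaabba := Nat.lor Pt7Maabaabb (Nat.shiftLeft 30 155)
noncomputable def It7Maabaabba := flt (Nat.shiftLeft 31 155) Pt7Maabaabba It7Maabaabb
noncomputable def Ot7Maabaabba := flt (Nat.shiftLeft 31 155) Pt7Maabaabba Ot7Maabaabb

theorem ok_t7Maabaabba : okT cx7 cx7.O t7Maabaabba Pt7Maabaabba It7Maabaabba Ot7Maabaabba = true := by decide +kernel

noncomputable def Pt7Maabaabbb := Nat.lor Pt7Maabaabb (Nat.shiftLeft 1 155)
noncomputable def It7Maabaabbb := flt (Nat.shiftLeft 31 155) Pt7Maabaabbb It7Maabaabb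
noncomputable def Ot7Maabaabbb := flt (Nat.shiftLeft 31 155) Pt7Maabaabbb Ot7Maabaabb

theorem ok_t7Maabaabbb : okT cx7 cx7.O t7Maabaabbb Pt7Maabaabbb It7Maabaabbb Ot7Maabaabbb = true := by decide +kernel

theorem ok_t7Maabaabb : okT cx7 cx7.O t7Maabaabb Pt7Maabaabb It7Maabaabb Ot7Maabaabb = true :=
  okT_node (by decide +kernel) ok_t7Maabaabba ok_t7Maabaabbb

theorem ok_t7Maabaab : okT cx7 cx7.O t7Maabaab Pt7Maabaab It7Maabaab Ot7Maabaab = true :=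
  okT_node (by decide +kernel) ok_t7Maabaaba ok_t7Maabaabb

theorem ok_t7Maabaa : okT cx7 cx7.O t7Maabaa Pt7Maabaa It7Maabaa Ot7Maabaa = true :=
  okT_node (by decide +kernel) ok_t7Maabaaa ok_t7Maabaab

noncomputable def Pt7Maabab := Nat.lor Pt7Maaba (Nat.shiftLeft 3 125)
noncomputable def It7Maabab := flt (Nat.shiftLeft 31 125) Pt7Maabab It7Maaba
noncomputable def Ot7Maabab := flt (Nat.shiftLeft 31 125) Pt7Maabab Ot7Maaba

noncomputable def Pt7Maababa := Nat.lor Pt7Maabab (Nat.shiftLeft 30 15)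
noncomputable def It7Maababa := flt (Nat.shiftLeft 31 15) Pt7Maababa It7Maabab
noncomputable def Ot7Maababa := flt (Nat.shiftLeft 31 15) Pt7Maababa Ot7Maabab

theorem ok_t7Maababa : okT cx7 cx7.O t7Maababa Pt7Maababa It7Maababa Ot7Maababa = true := by decide +kernel

noncomputable def Pt7Maababb := Nat.lor Pt7Maabab (Nat.shiftLeft 1 15)
noncomputable def It7Maababb := flt (Nat.shiftLeft 31 15) Pt7Maababb It7Maabab
noncomputable def Ot7Maababb := flt (Nat.shiftLeft 31 15) Pt7Maababb Ot7Maabab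

theorem ok_t7Maababb : okT cx7 cx7.O t7Maababb Pt7Maababb It7Maababb Ot7Maababb = true := by decide +kernel

theorem ok_t7Maabab : okT cx7 cx7.O t7Maabab Pt7Maabab It7Maabab Ot7Maabab = true :=
  okT_node (by decide +kernel) ok_t7Maababa ok_t7Maababb

theorem ok_t7Maaba : okT cx7 cx7.O t7Maaba Pt7Maaba It7Maaba Ot7Maaba = true :=
  okT_node (by decide +kernel) ok_t7Maabaa ok_t7Maabab

noncomputable def Pt7Maabb := Nat.lor Pt7Maab (Nat.shiftLeft 1 100)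
noncomputable def It7Maabb := flt (Nat.shiftLeft 31 100) Pt7Maabb It7Maab
noncomputable def Ot7Maabb := flt (Nat.shiftLeft 31 100) Pt7Maabb Ot7Maab

noncomputable def Pt7Maabba := Nat.lor Pt7Maabb (Nat.shiftLeft 30 15)
noncomputable def It7Maabba := flt (Nat.shiftLeft 31 15) Pt7Maabba It7Maabb
noncomputable def Ot7Maabba := flt (Nat.shiftLeft 31 15) Pt7Maabba Ot7Maabb

noncomputable def Pt7Maabbaa := Nat.lor Pt7Maabba (Nat.shiftLeft 28 155)
noncomputable def It7Maabbaa := flt (Nat.shiftLeft 31 155) Pt7Maabbaa It7Maabba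
noncomputable def Ot7Maabbaa := flt (Nat.shiftLeft 31 155) Pt7Maabbaa Ot7Maabba

noncomputable def Pt7Maabbaaa := Nat.lor Pt7Maabbaa (Nat.shiftLeft 30 125)
noncomputable def It7Maabbaaa := flt (Nat.shiftLeft 31 125) Pt7Maabbaaa It7Maabbaa
noncomputable def Ot7Maabbaaa := flt (Nat.shiftLeft 31 125) Pt7Maabbaaa Ot7Maabbaa

theorem ok_t7Maabbaaa : okT cx7 cx7.O t7Maabbaaa Pt7Maabbaaa It7Maabbaaa Ot7Maabbaaa = true := by decide +kernel

noncomputable def Pt7Maabbaab := Nat.lor Pt7Maabbaa (Nat.shiftLeft 1 125)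
noncomputable def It7Maabbaab := flt (Nat.shiftLeft 31 125) Pt7Maabbaab It7Maabbaa
noncomputable def Ot7Maabbaab := flt (Nat.shiftLeft 31 125) Pt7Maabbaab Ot7Maabbaa

noncomputable def Pt7Maabbaaba := Nat.lor Pt7Maabbaab (Nat.shiftLeft 2 155)
noncomputable def It7Maabbaaba := flt (Nat.shiftLeft 31 155) Pt7Maabbaaba It7Maabbaab
noncomputable def Ot7Maabbaaba := flt (Nat.shiftLeft 31 155) Pt7Maabbaaba Ot7Maabbaab

theorem ok_t7Maabbaaba : okT cx7 cx7.O t7Maabbaaba Pt7Maabbaaba It7Maabbaaba Ot7Maabbaaba = true := by decide +kernel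

noncomputable def Pt7Maabbaabb := Nat.lor Pt7Maabbaab (Nat.shiftLeft 1 155)
noncomputable def It7Maabbaabb := flt (Nat.shiftLeft 31 155) Pt7Maabbaabb It7Maabbaab
noncomputable def Ot7Maabbaabb := flt (Nat.shiftLeft 31 155) Pt7Maabbaabb Ot7Maabbaab

theorem ok_t7Maabbaabb : okT cx7 cx7.O t7Maabbaabb Pt7Maabbaabb It7Maabbaabb Ot7Maabbaabb = true := by decide +kernel

theorem ok_t7Maabbaab : okT cx7 cx7.O t7Maabbaab Pt7Maabbaab It7Maabbaab Ot7Maabbaab = true :=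
  okT_node (by decide +kernel) ok_t7Maabbaaba ok_t7Maabbaabb

theorem ok_t7Maabbaa : okT cx7 cx7.O t7Maabbaa Pt7Maabbaa It7Maabbaa Ot7Maabbaa = true :=
  okT_node (by decide +kernel) ok_t7Maabbaaa ok_t7Maabbaab

noncomputable def Pt7Maabbab := Nat.lor Pt7Maabba (Nat.shiftLeft 3 155)
noncomputable def It7Maabbab := flt (Nat.shiftLeft 31 155) Pt7Maabbab It7Maabba
noncomputable def Ot7Maabbab := flt (Nat.shiftLeft 31 155) Pt7Maabbab Ot7Maabba

theorem ok_t7Maabbab : okT cx7 cx7.O t7Maabbab Pt7Maabbab It7Maabbab Ot7Maabbab = true := by decide +kernel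

theorem ok_t7Maabba : okT cx7 cx7.O t7Maabba Pt7Maabba It7Maabba Ot7Maabba = true :=
  okT_node (by decide +kernel) ok_t7Maabbaa ok_t7Maabbab

noncomputable def Pt7Maabbb := Nat.lor Pt7Maabb (Nat.shiftLeft 1 15)
noncomputable def It7Maabbb := flt (Nat.shiftLeft 31 15) Pt7Maabbb It7Maabb
noncomputable def Ot7Maabbb := flt (Nat.shiftLeft 31 15) Pt7Maabbb Ot7Maabb

noncomputable def Pt7Maabbba := Nat.lor Pt7Maabbb (Nat.shiftLeft 30 125)
noncomputable def It7Maabbba := flt (Nat.shiftLeft 31 125) Pt7Maabbba It7Maabbb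
noncomputable def Ot7Maabbba := flt (Nat.shiftLeft 31 125) Pt7Maabbba Ot7Maabbb

noncomputable def Pt7Maabbbaa := Nat.lor Pt7Maabbba (Nat.shiftLeft 30 155)
noncomputable def It7Maabbbaa := flt (Nat.shiftLeft 31 155) Pt7Maabbbaa It7Maabbba
noncomputable def Ot7Maabbbaa := flt (Nat.shiftLeft 31 155) Pt7Maabbbaa Ot7Maabbba

theorem ok_t7Maabbbaa : okT cx7 cx7.O t7Maabbbaa Pt7Maabbbaa It7Maabbbaa Ot7Maabbbaa = true := by decide +kernel

noncomputable def Pt7Maabbbab := Nat.lor Pt7Maabbba (Nat.shiftLeft 1 155)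
noncomputable def It7Maabbbab := flt (Nat.shiftLeft 31 155) Pt7Maabbbab It7Maabbba
noncomputable def Ot7Maabbbab := flt (Nat.shiftLeft 31 155) Pt7Maabbbab Ot7Maabbba

noncomputable def Pt7Maabbbaba := Nat.lor Pt7Maabbbab (Nat.shiftLeft 28 50)
noncomputable def It7Maabbbaba := flt (Nat.shiftLeft 31 50) Pt7Maabbbaba It7Maabbbab
noncomputable def Ot7Maabbbaba := flt (Nat.shiftLeft 31 50) Pt7Maabbbaba Ot7Maabbbab

theorem ok_t7Maabbbaba : okT cx7 cx7.O t7Maabbbaba Pt7Maabbbaba It7Maabbbaba Ot7Maabbbaba = true := by decide +kernel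

noncomputable def Pt7Maabbbabb := Nat.lor Pt7Maabbbab (Nat.shiftLeft 3 50)
noncomputable def It7Maabbbabb := flt (Nat.shiftLeft 31 50) Pt7Maabbbabb It7Maabbbab
noncomputable def Ot7Maabbbabb := flt (Nat.shiftLeft 31 50) Pt7Maabbbabb Ot7Maabbbab

theorem ok_t7Maabbbabb : okT cx7 cx7.O t7Maabbbabb Pt7Maabbbabb It7Maabbbabb Ot7Maabbbabb = true := by decide +kernel

theorem ok_t7Maabbbab : okT cx7 cx7.O t7Maabbbab Pt7Maabbbab It7Maabbbab Ot7Maabbbab = true :=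
  okT_node (by decide +kernel) ok_t7Maabbbaba ok_t7Maabbbabb

theorem ok_t7Maabbba : okT cx7 cx7.O t7Maabbba Pt7Maabbba It7Maabbba Ot7Maabbba = true :=
  okT_node (by decide +kernel) ok_t7Maabbbaa ok_t7Maabbbab

noncomputable def Pt7Maabbbb := Nat.lor Pt7Maabbb (Nat.shiftLeft 1 125)
noncomputable def It7Maabbbb := flt (Nat.shiftLeft 31 125) Pt7Maabbbb It7Maabbb
noncomputable def Ot7Maabbbb := flt (Nat.shiftLeft 31 125) Pt7Maabbbb Ot7Maabbb

noncomputable def Pt7Maabbbba := Nat.lor Pt7Maabbbb (Nat.shiftLeft 30 155)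
noncomputable def It7Maabbbba := flt (Nat.shiftLeft 31 155) Pt7Maabbbba It7Maabbbb
noncomputable def Ot7Maabbbba := flt (Nat.shiftLeft 31 155) Pt7Maabbbba Ot7Maabbbb

noncomputable def Pt7Maabbbbaa := Nat.lor Pt7Maabbbba (Nat.shiftLeft 28 5)
noncomputable def It7Maabbbbaa := flt (Nat.shiftLeft 31 5) Pt7Maabbbbaa It7Maabbbba
noncomputable def Ot7Maabbbbaa := flt (Nat.shiftLeft 31 5) Pt7Maabbbbaa Ot7Maabbbba

theorem ok_t7Maabbbbaa : okT cx7 cx7.O t7Maabbbbaa Pt7Maabbbbaa It7Maabbbbaa Ot7Maabbbbaa = true := by decide +kernel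

noncomputable def Pt7Maabbbbab := Nat.lor Pt7Maabbbba (Nat.shiftLeft 3 5)
noncomputable def It7Maabbbbab := flt (Nat.shiftLeft 31 5) Pt7Maabbbbab It7Maabbbba
noncomputable def Ot7Maabbbbab := flt (Nat.shiftLeft 31 5) Pt7Maabbbbab Ot7Maabbbba

theorem ok_t7Maabbbbab : okT cx7 cx7.O t7Maabbbbab Pt7Maabbbbab It7Maabbbbab Ot7Maabbbbab = true := by decide +kernel

theorem ok_t7Maabbbba : okT cx7 cx7.O t7Maabbbba Pt7Maabbbba It7Maabbbba Ot7Maabbbba = true :=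
  okT_node (by decide +kernel) ok_t7Maabbbbaa ok_t7Maabbbbab

noncomputable def Pt7Maabbbbb := Nat.lor Pt7Maabbbb (Nat.shiftLeft 1 155)
noncomputable def It7Maabbbbb := flt (Nat.shiftLeft 31 155) Pt7Maabbbbb It7Maabbbb
noncomputable def Ot7Maabbbbb := flt (Nat.shiftLeft 31 155) Pt7Maabbbbb Ot7Maabbbb

noncomputable def Pt7Maabbbbba := Nat.lor Pt7Maabbbbb (Nat.shiftLeft 28 50)
noncomputable def It7Maabbbbba := flt (Nat.shiftLeft 31 50) Pt7Maabbbbba It7Maabbbbb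
noncomputable def Ot7Maabbbbba := flt (Nat.shiftLeft 31 50) Pt7Maabbbbba Ot7Maabbbbb

noncomputable def Pt7Maabbbbbaa := Nat.lor Pt7Maabbbbba (Nat.shiftLeft 1 5)
noncomputable def It7Maabbbbbaa := flt (Nat.shiftLeft 31 5) Pt7Maabbbbbaa It7Maabbbbba
noncomputable def Ot7Maabbbbbaa := flt (Nat.shiftLeft 31 5) Pt7Maabbbbbaa Ot7Maabbbbba

theorem ok_t7Maabbbbbaa : okT cx7 cx7.O t7Maabbbbbaa Pt7Maabbbbbaa It7Maabbbbbaa Ot7Maabbbbbaa = true := by decide +kernel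

noncomputable def Pt7Maabbbbbab := Nat.lor Pt7Maabbbbba (Nat.shiftLeft 30 5)
noncomputable def It7Maabbbbbab := flt (Nat.shiftLeft 31 5) Pt7Maabbbbbab It7Maabbbbba
noncomputable def Ot7Maabbbbbab := flt (Nat.shiftLeft 31 5) Pt7Maabbbbbab Ot7Maabbbbba

theorem ok_t7Maabbbbbab : okT cx7 cx7.O t7Maabbbbbab Pt7Maabbbbbab It7Maabbbbbab Ot7Maabbbbbab = true := by decide +kernel

theorem ok_t7Maabbbbba : okT cx7 cx7.O t7Maabbbbba Pt7Maabbbbba It7Maabbbbba Ot7Maabbbbba = true :=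
  okT_node (by decide +kernel) ok_t7Maabbbbbaa ok_t7Maabbbbbab

noncomputable def Pt7Maabbbbbb := Nat.lor Pt7Maabbbbb (Nat.shiftLeft 3 50)
noncomputable def It7Maabbbbbb := flt (Nat.shiftLeft 31 50) Pt7Maabbbbbb It7Maabbbbb
noncomputable def Ot7Maabbbbbb := flt (Nat.shiftLeft 31 50) Pt7Maabbbbbb Ot7Maabbbbb

noncomputable def Pt7Maabbbbbba := Nat.lor Pt7Maabbbbbb (Nat.shiftLeft 28 5)
noncomputable def It7Maabbbbbba := flt (Nat.shiftLeft 31 5) Pt7Maabbbbbba It7Maabbbbbb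
noncomputable def Ot7Maabbbbbba := flt (Nat.shiftLeft 31 5) Pt7Maabbbbbba Ot7Maabbbbbb

theorem ok_t7Maabbbbbba : okT cx7 cx7.O t7Maabbbbbba Pt7Maabbbbbba It7Maabbbbbba Ot7Maabbbbbba = true := by decide +kernel

noncomputable def Pt7Maabbbbbbb := Nat.lor Pt7Maabbbbbb (Nat.shiftLeft 3 5)
noncomputable def It7Maabbbbbbb := flt (Nat.shiftLeft 31 5) Pt7Maabbbbbbb It7Maabbbbbb
noncomputable def Ot7Maabbbbbbb := flt (Nat.shiftLeft 31 5) Pt7Maabbbbbbb Ot7Maabbbbbb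

theorem ok_t7Maabbbbbbb : okT cx7 cx7.O t7Maabbbbbbb Pt7Maabbbbbbb It7Maabbbbbbb Ot7Maabbbbbbb = true := by decide +kernel

theorem ok_t7Maabbbbbb : okT cx7 cx7.O t7Maabbbbbb Pt7Maabbbbbb It7Maabbbbbb Ot7Maabbbbbb = true :=
  okT_node (by decide +kernel) ok_t7Maabbbbbba ok_t7Maabbbbbbb

theorem ok_t7Maabbbbb : okT cx7 cx7.O t7Maabbbbb Pt7Maabbbbb It7Maabbbbb Ot7Maabbbbb = true :=
  okT_node (by decide +kernel) ok_t7Maabbbbba ok_t7Maabbbbbb

theorem ok_t7Maabbbb : okT cx7 cx7.O t7Maabbbb Pt7Maabbbb It7Maabbbb Ot7Maabbbb = true :=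
  okT_node (by decide +kernel) ok_t7Maabbbba ok_t7Maabbbbb

theorem ok_t7Maabbb : okT cx7 cx7.O t7Maabbb Pt7Maabbb It7Maabbb Ot7Maabbb = true :=
  okT_node (by decide +kernel) ok_t7Maabbba ok_t7Maabbbb

theorem ok_t7Maabb : okT cx7 cx7.O t7Maabb Pt7Maabb It7Maabb Ot7Maabb = true :=
  okT_node (by decide +kernel) ok_t7Maabba ok_t7Maabbb

theorem ok_t7Maab : okT cx7 cx7.O t7Maab Pt7Maab It7Maab Ot7Maab = true :=
  okT_node (by decide +kernel) ok_t7Maaba ok_t7Maabb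

theorem ok_t7Maa : okT cx7 cx7.O t7Maa Pt7Maa It7Maa Ot7Maa = true :=
  okT_node (by decide +kernel) ok_t7Maaa ok_t7Maab

noncomputable def Pt7Mab := Nat.lor Pt7Ma (Nat.shiftLeft 3 150)
noncomputable def It7Mab := flt (Nat.shiftLeft 31 150) Pt7Mab It7Ma
noncomputable def Ot7Mab := flt (Nat.shiftLeft 31 150) Pt7Mab Ot7Ma

theorem ok_t7Mab : okT cx7 cx7.O t7Mab Pt7Mab It7Mab Ot7Mab = true := by decide +kernel

theorem ok_t7Ma : okT cx7 cx7.O t7Ma Pt7Ma It7Ma Ot7Ma = true :=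
  okT_node (by decide +kernel) ok_t7Maa ok_t7Mab

noncomputable def Pt7Mb := Nat.lor Pt7M (Nat.shiftLeft 4 0)
noncomputable def It7Mb := flt (Nat.shiftLeft 31 0) Pt7Mb It7M
noncomputable def Ot7Mb := flt (Nat.shiftLeft 31 0) Pt7Mb Ot7M

noncomputable def Pt7Mba := Nat.lor Pt7Mb (Nat.shiftLeft 16 0)
noncomputable def It7Mba := flt (Nat.shiftLeft 31 0) Pt7Mba It7Mb
noncomputable def Ot7Mba := flt (Nat.shiftLeft 31 0) Pt7Mba Ot7Mb

noncomputable def Pt7Mbaa := Nat.lor Pt7Mba (Nat.shiftLeft 28 150)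
noncomputable def It7Mbaa := flt (Nat.shiftLeft 31 150) Pt7Mbaa It7Mba
noncomputable def Ot7Mbaa := flt (Nat.shiftLeft 31 150) Pt7Mbaa Ot7Mba

noncomputable def Pt7Mbaaa := Nat.lor Pt7Mbaa (Nat.shiftLeft 30 25)
noncomputable def It7Mbaaa := flt (Nat.shiftLeft 31 25) Pt7Mbaaa It7Mbaa
noncomputable def Ot7Mbaaa := flt (Nat.shiftLeft 31 25) Pt7Mbaaa Ot7Mbaa

noncomputable def Pt7Mbaaaa := Nat.lor Pt7Mbaaa (Nat.shiftLeft 30 125)
noncomputable def It7Mbaaaa := flt (Nat.shiftLeft 31 125) Pt7Mbaaaa It7Mbaaa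
noncomputable def Ot7Mbaaaa := flt (Nat.shiftLeft 31 125) Pt7Mbaaaa Ot7Mbaaa

theorem ok_t7Mbaaaa : okT cx7 cx7.O t7Mbaaaa Pt7Mbaaaa It7Mbaaaa Ot7Mbaaaa = true := by decide +kernel

noncomputable def Pt7Mbaaab := Nat.lor Pt7Mbaaa (Nat.shiftLeft 1 125)
noncomputable def It7Mbaaab := flt (Nat.shiftLeft 31 125) Pt7Mbaaab It7Mbaaa
noncomputable def Ot7Mbaaab := flt (Nat.shiftLeft 31 125) Pt7Mbaaab Ot7Mbaaa

theorem ok_t7Mbaaab : okT cx7 cx7.O t7Mbaaab Pt7Mbaaab It7Mbaaab Ot7Mbaaab = true := by decide +kernel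

theorem ok_t7Mbaaa : okT cx7 cx7.O t7Mbaaa Pt7Mbaaa It7Mbaaa Ot7Mbaaa = true :=
  okT_node (by decide +kernel) ok_t7Mbaaaa ok_t7Mbaaab

noncomputable def Pt7Mbaab := Nat.lor Pt7Mbaa (Nat.shiftLeft 1 25)
noncomputable def It7Mbaab := flt (Nat.shiftLeft 31 25) Pt7Mbaab It7Mbaa
noncomputable def Ot7Mbaab := flt (Nat.shiftLeft 31 25) Pt7Mbaab Ot7Mbaa

noncomputable def Pt7Mbaaba := Nat.lor Pt7Mbaab (Nat.shiftLeft 28 50)
noncomputable def It7Mbaaba := flt (Nat.shiftLeft 31 50) Pt7Mbaaba It7Mbaab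
noncomputable def Ot7Mbaaba := flt (Nat.shiftLeft 31 50) Pt7Mbaaba Ot7Mbaab

theorem ok_t7Mbaaba : okT cx7 cx7.O t7Mbaaba Pt7Mbaaba It7Mbaaba Ot7Mbaaba = true := by decide +kernel

noncomputable def Pt7Mbaabb := Nat.lor Pt7Mbaab (Nat.shiftLeft 3 50)
noncomputable def It7Mbaabb := flt (Nat.shiftLeft 31 50) Pt7Mbaabb It7Mbaab
noncomputable def Ot7Mbaabb := flt (Nat.shiftLeft 31 50) Pt7Mbaabb Ot7Mbaab

theorem ok_t7Mbaabb : okT cx7 cx7.O t7Mbaabb Pt7Mbaabb It7Mbaabb Ot7Mbaabb = true := by decide +kernel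

theorem ok_t7Mbaab : okT cx7 cx7.O t7Mbaab Pt7Mbaab It7Mbaab Ot7Mbaab = true :=
  okT_node (by decide +kernel) ok_t7Mbaaba ok_t7Mbaabb

theorem ok_t7Mbaa : okT cx7 cx7.O t7Mbaa Pt7Mbaa It7Mbaa Ot7Mbaa = true :=
  okT_node (by decide +kernel) ok_t7Mbaaa ok_t7Mbaab

noncomputable def Pt7Mbab := Nat.lor Pt7Mba (Nat.shiftLeft 3 150)
noncomputable def It7Mbab := flt (Nat.shiftLeft 31 150) Pt7Mbab It7Mba
noncomputable def Ot7Mbab := flt (Nat.shiftLeft 31 150) Pt7Mbab Ot7Mba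

theorem ok_t7Mbab : okT cx7 cx7.O t7Mbab Pt7Mbab It7Mbab Ot7Mbab = true := by decide +kernel

theorem ok_t7Mba : okT cx7 cx7.O t7Mba Pt7Mba It7Mba Ot7Mba = true :=
  okT_node (by decide +kernel) ok_t7Mbaa ok_t7Mbab

noncomputable def Pt7Mbb := Nat.lor Pt7Mb (Nat.shiftLeft 8 0)
noncomputable def It7Mbb := flt (Nat.shiftLeft 31 0) Pt7Mbb It7Mb
noncomputable def Ot7Mbb := flt (Nat.shiftLeft 31 0) Pt7Mbb Ot7Mb

theorem ok_t7Mbb : okT cx7 cx7.O t7Mbb Pt7Mbb It7Mbb Ot7Mbb = true := by decide +kernel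

theorem ok_t7Mb : okT cx7 cx7.O t7Mb Pt7Mb It7Mb Ot7Mb = true :=
  okT_node (by decide +kernel) ok_t7Mba ok_t7Mbb

theorem ok_t7M : okT cx7 cx7.O t7M Pt7M It7M Ot7M = true :=
  okT_node (by decide +kernel) ok_t7Ma ok_t7Mb

theorem okM7 : okM cx7 = true :=
  or_right' ok_t7M

end Pool.Agent.MP_31805c_co.H47
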