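import Pool.Agent.MP_31805c_co.H47.X8
import Pool.Agent.MP_31805c_co.H47.OkAux

namespace Pool.Agent.MP_31805c_co.H47

set_option maxRecDepth 100000
set_option maxHeartbeats 0

noncomputable def Pt8A := only (mA cx8.d) (5 * c0 cx8.d)
noncomputable def It8A := flt (Nat.shiftLeft 31 (25 * c0 cx8.d)) Pt8A (flt 31 Pt8A ((comp cx8.d true false cx8.R) ++ (comp cx8.d true true cx8.R)))
noncomputable def Ot8A := flt (Nat.shiftLeft 31 (25 * c0 cx8.d)) Pt8A (flt 31 Pt8A ((comp cx8.d false false cx8.R) ++ (comp cx8.d false true cx8.R)))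

theorem ok_t8A : okT cx8 (2 * cx8.O) t8A Pt8A It8A Ot8A = true := by decide +kernel

theorem okA8 : okA cx8 = true :=
  ok_t8A

noncomputable def Pt8P := Nat.shiftLeft (mA cx8.d) (25 * c0 cx8.d)
noncomputable def It8P := flt (Nat.shiftLeft 31 (25 * c0 cx8.d)) Pt8P (flt 31 Pt8P (comp cx8.d true false cx8.R))
noncomputable def Ot8P := flt (Nat.shiftLeft 31 (25 * c0 cx8.d)) Pt8P (flt 31 Pt8P (comp cx8.d false false cx8.R))

noncomputable def Pt8Pa := Nat.lor Pt8P (Nat.shiftLeft 24 0)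
noncomputable def It8Pa := flt (Nat.shiftLeft 31 0) Pt8Pa It8P
noncomputable def Ot8Pa := flt (Nat.shiftLeft 31 0) Pt8Pa Ot8P

noncomputable def Pt8Paa := Nat.lor Pt8Pa (Nat.shiftLeft 28 25)
noncomputable def It8Paa := flt (Nat.shiftLeft 31 25) Pt8Paa It8Pa
noncomputable def Ot8Paa := flt (Nat.shiftLeft 31 25) Pt8Paa Ot8Pa

noncomputable def Pt8Paaa := Nat.lor Pt8Paa (Nat.shiftLeft 30 175)
noncomputable def It8Paaa := flt (Nat.shiftLeft 31 175) Pt8Paaa It8Paa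
noncomputable def Ot8Paaa := flt (Nat.shiftLeft 31 175) Pt8Paaa Ot8Paa

noncomputable def Pt8Paaaa := Nat.lor Pt8Paaa (Nat.shiftLeft 30 5)
noncomputable def It8Paaaa := flt (Nat.shiftLeft 31 5) Pt8Paaaa It8Paaa
noncomputable def Ot8Paaaa := flt (Nat.shiftLeft 31 5) Pt8Paaaa Ot8Paaa

theorem ok_t8Paaaa : okT cx8 cx8.O t8Paaaa Pt8Paaaa It8Paaaa Ot8Paaaa = true := by decide +kernel

noncomputable def Pt8Paaab := Nat.lor Pt8Paaa (Nat.shiftLeft 1 5)
noncomputable def It8Paaab := flt (Nat.shiftLeft 31 5) Pt8Paaab It8Paaa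
noncomputable def Ot8Paaab := flt (Nat.shiftLeft 31 5) Pt8Paaab Ot8Paaa

theorem ok_t8Paaab : okT cx8 cx8.O t8Paaab Pt8Paaab It8Paaab Ot8Paaab = true := by decide +kernel

theorem ok_t8Paaa : okT cx8 cx8.O t8Paaa Pt8Paaa It8Paaa Ot8Paaa = true :=
  okT_node (by decide +kernel) ok_t8Paaaa ok_t8Paaab

noncomputable def Pt8Paab := Nat.lor Pt8Paa (Nat.shiftLeft 1 175)
noncomputable def It8Paab := flt (Nat.shiftLeft 31 175) Pt8Paab It8Paa
noncomputable def Ot8Paab := flt (Nat.shiftLeft 31 175) Pt8Paab Ot8Paa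

noncomputable def Pt8Paaba := Nat.lor Pt8Paab (Nat.shiftLeft 28 180)
noncomputable def It8Paaba := flt (Nat.shiftLeft 31 180) Pt8Paaba It8Paab
noncomputable def Ot8Paaba := flt (Nat.shiftLeft 31 180) Pt8Paaba Ot8Paab

theorem ok_t8Paaba : okT cx8 cx8.O t8Paaba Pt8Paaba It8Paaba Ot8Paaba = true := by decide +kernel

noncomputable def Pt8Paabb := Nat.lor Pt8Paab (Nat.shiftLeft 3 180)
noncomputable def It8Paabb := flt (Nat.shiftLeft 31 180) Pt8Paabb It8Paab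
noncomputable def Ot8Paabb := flt (Nat.shiftLeft 31 180) Pt8Paabb Ot8Paab

theorem ok_t8Paabb : okT cx8 cx8.O t8Paabb Pt8Paabb It8Paabb Ot8Paabb = true := by decide +kernel

theorem ok_t8Paab : okT cx8 cx8.O t8Paab Pt8Paab It8Paab Ot8Paab = true :=
  okT_node (by decide +kernel) ok_t8Paaba ok_t8Paabb

theorem ok_t8Paa : okT cx8 cx8.O t8Paa Pt8Paa It8Paa Ot8Paa = true :=
  okT_node (by decide +kernel) ok_t8Paaa ok_t8Paab

noncomputable def Pt8Pab := Nat.lor Pt8Pa (Nat.shiftLeft 3 25)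
noncomputable def It8Pab := flt (Nat.shiftLeft 31 25) Pt8Pab It8Pa
noncomputable def Ot8Pab := flt (Nat.shiftLeft 31 25) Pt8Pab Ot8Pa

theorem ok_t8Pab : okT cx8 cx8.O t8Pab Pt8Pab It8Pab Ot8Pab = true := by decide +kernel

theorem ok_t8Pa : okT cx8 cx8.O t8Pa Pt8Pa It8Pa Ot8Pa = true :=
  okT_node (by decide +kernel) ok_t8Paa ok_t8Pab

noncomputable def Pt8Pb := Nat.lor Pt8P (Nat.shiftLeft 4 0)
noncomputable def It8Pb := flt (Nat.shiftLeft 31 0) Pt8Pb It8P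
noncomputable def Ot8Pb := flt (Nat.shiftLeft 31 0) Pt8Pb Ot8P

theorem ok_t8Pb : okT cx8 cx8.O t8Pb Pt8Pb It8Pb Ot8Pb = true := by decide +kernel

theorem ok_t8P : okT cx8 cx8.O t8P Pt8P It8P Ot8P = true :=
  okT_node (by decide +kernel) ok_t8Pa ok_t8Pb

theorem okP8 : okP cx8 = true :=
  or_right' ok_t8P

noncomputable def Pt8M := Nat.shiftLeft (mA cx8.d) (25 * c0 cx8.d)
noncomputable def It8M := flt (Nat.shiftLeft 31 (25 * c0 cx8.d)) Pt8M (flt 31 Pt8M (comp cx8.d true true cx8.R))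
noncomputable def Ot8M := flt (Nat.shiftLeft 31 (25 * c0 cx8.d)) Pt8M (flt 31 Pt8M (comp cx8.d false true cx8.R))

noncomputable def Pt8Ma := Nat.lor Pt8M (Nat.shiftLeft 24 0)
noncomputable def It8Ma := flt (Nat.shiftLeft 31 0) Pt8Ma It8M
noncomputable def Ot8Ma := flt (Nat.shiftLeft 31 0) Pt8Ma Ot8M

noncomputable def Pt8Maa := Nat.lor Pt8Ma (Nat.shiftLeft 28 175)
noncomputable def It8Maa := flt (Nat.shiftLeft 31 175) Pt8Maa It8Ma
noncomputable def Ot8Maa := flt (Nat.shiftLeft 31 175) Pt8Maa Ot8Ma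

noncomputable def Pt8Maaa := Nat.lor Pt8Maa (Nat.shiftLeft 30 25)
noncomputable def It8Maaa := flt (Nat.shiftLeft 31 25) Pt8Maaa It8Maa
noncomputable def Ot8Maaa := flt (Nat.shiftLeft 31 25) Pt8Maaa Ot8Maa

noncomputable def Pt8Maaaa := Nat.lor Pt8Maaa (Nat.shiftLeft 30 180)
noncomputable def It8Maaaa := flt (Nat.shiftLeft 31 180) Pt8Maaaa It8Maaa
noncomputable def Ot8Maaaa := flt (Nat.shiftLeft 31 180) Pt8Maaaa Ot8Maaa

theorem ok_t8Maaaa : okT cx8 cx8.O t8Maaaa Pt8Maaaa It8Maaaa Ot8Maaaa = true := by decide +kernel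

noncomputable def Pt8Maaab := Nat.lor Pt8Maaa (Nat.shiftLeft 1 180)
noncomputable def It8Maaab := flt (Nat.shiftLeft 31 180) Pt8Maaab It8Maaa
noncomputable def Ot8Maaab := flt (Nat.shiftLeft 31 180) Pt8Maaab Ot8Maaa

theorem ok_t8Maaab : okT cx8 cx8.O t8Maaab Pt8Maaab It8Maaab Ot8Maaab = true := by decide +kernel

theorem ok_t8Maaa : okT cx8 cx8.O t8Maaa Pt8Maaa It8Maaa Ot8Maaa = true :=
  okT_node (by decide +kernel) ok_t8Maaaa ok_t8Maaab

noncomputable def Pt8Maab := Nat.lor Pt8Maa (Nat.shiftLeft 1 25)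
noncomputable def It8Maab := flt (Nat.shiftLeft 31 25) Pt8Maab It8Maa
noncomputable def Ot8Maab := flt (Nat.shiftLeft 31 25) Pt8Maab Ot8Maa

noncomputable def Pt8Maaba := Nat.lor Pt8Maab (Nat.shiftLeft 28 5)
noncomputable def It8Maaba := flt (Nat.shiftLeft 31 5) Pt8Maaba It8Maab
noncomputable def Ot8Maaba := flt (Nat.shiftLeft 31 5) Pt8Maaba Ot8Maab

theorem ok_t8Maaba : okT cx8 cx8.O t8Maaba Pt8Maaba It8Maaba Ot8Maaba = true := by decide +kernel

noncomputable def Pt8Maabb := Nat.lor Pt8Maab (Nat.shiftLeft 3 5)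
noncomputable def It8Maabb := flt (Nat.shiftLeft 31 5) Pt8Maabb It8Maab
noncomputable def Ot8Maabb := flt (Nat.shiftLeft 31 5) Pt8Maabb Ot8Maab

theorem ok_t8Maabb : okT cx8 cx8.O t8Maabb Pt8Maabb It8Maabb Ot8Maabb = true := by decide +kernel

theorem ok_t8Maab : okT cx8 cx8.O t8Maab Pt8Maab It8Maab Ot8Maab = true :=
  okT_node (by decide +kernel) ok_t8Maaba ok_t8Maabb

theorem ok_t8Maa : okT cx8 cx8.O t8Maa Pt8Maa It8Maa Ot8Maa = true :=
  okT_node (by decide +kernel) ok_t8Maaa ok_t8Maab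

noncomputable def Pt8Mab := Nat.lor Pt8Ma (Nat.shiftLeft 3 175)
noncomputable def It8Mab := flt (Nat.shiftLeft 31 175) Pt8Mab It8Ma
noncomputable def Ot8Mab := flt (Nat.shiftLeft 31 175) Pt8Mab Ot8Ma

theorem ok_t8Mab : okT cx8 cx8.O t8Mab Pt8Mab It8Mab Ot8Mab = true := by decide +kernel

theorem ok_t8Ma : okT cx8 cx8.O t8Ma Pt8Ma It8Ma Ot8Ma = true :=
  okT_node (by decide +kernel) ok_t8Maa ok_t8Mab

noncomputable def Pt8Mb := Nat.lor Pt8M (Nat.shiftLeft 4 0)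
noncomputable def It8Mb := flt (Nat.shiftLeft 31 0) Pt8Mb It8M
noncomputable def Ot8Mb := flt (Nat.shiftLeft 31 0) Pt8Mb Ot8M

theorem ok_t8Mb : okT cx8 cx8.O t8Mb Pt8Mb It8Mb Ot8Mb = true := by decide +kernel

theorem ok_t8M : okT cx8 cx8.O t8M Pt8M It8M Ot8M = true :=
  okT_node (by decide +kernel) ok_t8Ma ok_t8Mb

theorem okM8 : okM cx8 = true :=
  or_right' ok_t8M

end Pool.Agent.MP_31805c_co.H47
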