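import Pool.Agent.MP_31805c_co.H47.X9
import Pool.Agent.MP_31805c_co.H47.OkAux

namespace Pool.Agent.MP_31805c_co.H47

set_option maxRecDepth 100000
set_option maxHeartbeats 0

noncomputable def Pt9A := only (mA cx9.d) (5 * c0 cx9.d)
noncomputable def It9A := flt (Nat.shiftLeft 31 (25 * c0 cx9.d)) Pt9A (flt 31 Pt9A ((comp cx9.d true false cx9.R) ++ (comp cx9.d true true cx9.R)))
noncomputable def Ot9A := flt (Nat.shiftLeft 31 (25 * c0 cx9.d)) Pt9A (flt 31 Pt9A ((comp cx9.d false false cx9.R) ++ (comp cx9.d false true cx9.R)))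

theorem ok_t9A : okT cx9 (2 * cx9.O) t9A Pt9A It9A Ot9A = true := by decide +kernel

theorem okA9 : okA cx9 = true :=
  ok_t9A

noncomputable def Pt9P := Nat.shiftLeft (mA cx9.d) (25 * c0 cx9.d)
noncomputable def It9P := flt (Nat.shiftLeft 31 (25 * c0 cx9.d)) Pt9P (flt 31 Pt9P (comp cx9.d true false cx9.R))
noncomputable def Ot9P := flt (Nat.shiftLeft 31 (25 * c0 cx9.d)) Pt9P (flt 31 Pt9P (comp cx9.d false false cx9.R))

theorem ok_t9P : okT cx9 cx9.O t9P Pt9P It9P Ot9P = true := by decide +kernel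

theorem okP9 : okP cx9 = true :=
  or_right' ok_t9P

noncomputable def Pt9M := Nat.shiftLeft (mA cx9.d) (25 * c0 cx9.d)
noncomputable def It9M := flt (Nat.shiftLeft 31 (25 * c0 cx9.d)) Pt9M (flt 31 Pt9M (comp cx9.d true true cx9.R))
noncomputable def Ot9M := flt (Nat.shiftLeft 31 (25 * c0 cx9.d)) Pt9M (flt 31 Pt9M (comp cx9.d false true cx9.R))

theorem ok_t9M : okT cx9 cx9.O t9M Pt9M It9M Ot9M = true := by decide +kernel

theorem okM9 : okM cx9 = true :=
  or_right' ok_t9M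

end Pool.Agent.MP_31805c_co.H47
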