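import Pool.Agent.MP_31805c_co.H47.X12
import Pool.Agent.MP_31805c_co.H47.OkAux

namespace Pool.Agent.MP_31805c_co.H47

set_option maxRecDepth 100000
set_option maxHeartbeats 0

theorem pf12_0 : Ch cx12 (nat_lit 0) (nat_lit 64) :=
  ch_one [nat_lit 0x1c003203800620000df8fb800600000d863b8005e0000df9bb8006a07000d00001bf477000cc0001b09f004585cb8006e07000d80001be390029f9ab8005607000a80001b1397000b00001beb57000a40001be2b7000b80e0016800037c6e00530b50099f95b8007407000e40001be377000e00001bf350045f9eb8007c07000f40001be397000f00001bf2b7000f00e001d800036156e001c000037e6a008b13d0099f9480028814dc04fa6a024198400d004ce780257eb400d00498ca026b1d400d004bf94025fca400d0048330027d35400d004afd602673c400d004d63a024c65400d004ebc2024ad2400d004b28802662f400d004e03a025168400d004d7b8025771400d004d2b6025944400d004a2d002701d400d004aee2026bdc400d004b28802695b400d004c29e02614f400d0046ffa027d35400d004cc5e025944400d004fa6a0233b1400d004cc5e025b39400d0046ffa0275e1400d0046762027d35400d004fa6a027d35400d0000b26000e905c4000080140000d26000e90554000080140001f26000e10554000080140000d26000d10554000080140000a36000f185b4000080140002026000d905a4000080140001e360006189a40000801426e1b48b9beac1a80000000000000000000000000000a91244098c002e041850e2452c68c7f60097c9f370da45d580500000000000000000000000000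0011244c80c16540060f020c2890e298fec012f9306b1a4688280000000000000000000000000000000003868b184089500183c28300a0ba0092c98358d355010000000000000000000000000000000000244c80c161c3002a4614180505d004964d2306aaac6900000000000000000000000000000000892204c60b00562c4870a0c0283e0024a360d4348973680000000000000000000000000000000309902444a8017020c5890e1141f001259306b1a6aa1a00000000000000000000000000000000004491026320c01600ac48708a0ba00928d434512338000000000000000000000000000000000000224090c2a005c0830a190078011b1c26f9326ea366b828000000000000000000000000006cb1a2a4480c002e041845e1c48a7ce236009cc9d15c13050590691e0000000000000000000000000000308902a58d1b81062178708f8016701c004e46f9ba2b9b68c9aa0900000000000000000000000000003658d1522406448708bc1802c01f380e002723749b154d945cd3040000000000000000000000000000003658d152240642867c00b8104b9c07401399b46c22a6ea2c0900000000000000000000000000000054892203059634003078106143308e0025e358d23445506000000000000000000000000000000000058c20488c02a00307870a0940f401251ac699b28a1a000000000000000000000000000000000054890243200b0068b438504a07a00928d8454db458d2000000000000000000000000000000015224090c8300580345a2438450fc004964d2308aa2c090000000000000000000000000000000089220305870c00ac4870a0c0287e0024b2611634d1404000000000000000000000000000000000089220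3058600561c283003940f401251ac691a22a9b0000000000000000000000000000000000309102254d0017020c38458a07a00928d8350d225c1a00000000000000000000000000000000b184099222540060f0e14180507c004946c1a8699b48b0000000000000000000000000000000080c16347070c00a91870a0c0283e0024b2691835556048000000000000000000000000000000048990182c015230e141801c3141f001259348c1a86982c00000000000000000000000000000001c3458c2000307870a0c02254a0f80092cd9354d734c900000000000000000000000000000000002254610161e0418458d000c507d00496499aa6881c000000000000000000000000000000000000152240616850600b0068803c008d8d534cd1238000000000000000000000000000000000000223080b83003860056110078011b9324a822090ac0000000000000000000000000000000003458c2046041850c3860054a07a0092c992551734c100000000000000000000000000000000002e5489019020c28658d0016503d004946a1a0678240000000000000000000000000000000000000d16308070c00a918104803c008d8d434512038000000000000000000000000000000000000244060b22540060f02090078011b8a26999e06000000000000000000000000000000000000000a91203000b8104b1a200f80236348cf3400c000000000000000000000000000000000000001120305c00e1801582401f0046d000240] (by decide +kernel)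

end Pool.Agent.MP_31805c_co.H47
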