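import Pool.Agent.MP_31805c_co.H47.SpecA

/-! A reducible configuration does not appear in a minimal counterexample. -/

namespace Pool.Agent.MP_31805c_co.H47

namespace RedApp

variable {V : Type} {G : SimpleGraph V} {C : Cfg} {f : ℕ → V}

/-- The data of an embedded configuration. -/
structure Em (G : SimpleGraph V) (C : Cfg) (f : ℕ → V) : Prop where
  lnk : Lnk G
  wf : C.WF
  app : App G C f
  inj : ∀ a b, C.In a → C.In b → f a = f b → a = b
  ind : ∀ a b, C.In a → C.In b → G.Adj (f a) (f b) → b ∈ C.L a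

theorem at_add (k j : ℕ) : C.at' k (j + (C.L k).length) = C.at' k j := by
  simp [Cfg.at']

theorem ex_at {k a : ℕ} (h : a ∈ C.L k) : ∃ j, C.at' k j = a := by
  obtain ⟨j, hj, rfl⟩ := List.mem_iff_getElem.1 h
  exact ⟨j, by rw [Cfg.at', Nat.mod_eq_of_lt hj, List.getD_eq_getElem _ _ hj]⟩

theorem xa_symm {a b : ℕ} (h : C.XA a b) : C.XA b a := h.symm

namespace Em

variable (H : Em G C f) {k : ℕ}
include H

theorem pos (hk : C.In k) : 0 < (C.L k).length := by have := H.wf.len k hk; omega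

theorem at_mem (hk : C.In k) (j : ℕ) : C.at' k j ∈ C.L k := by
  rw [Cfg.at', List.getD_eq_getElem _ _ (Nat.mod_lt _ (H.pos hk))]
  exact List.getElem_mem _

theorem at_pred (hk : C.In k) (j : ℕ) : C.at' k (j + (C.L k).length - 1 + 1) = C.at' k j := by
  rw [show j + (C.L k).length - 1 + 1 = j + (C.L k).length by have := H.pos hk; omega, at_add]

theorem at_pred2 (hk : C.In k) (j : ℕ) :
    C.at' k (j + (C.L k).length - 1 + 2) = C.at' k (j + 1) := by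
  rw [show j + (C.L k).length - 1 + 2 = j + 1 + (C.L k).length by have := H.pos hk; omega, at_add]

theorem f_at (hk : C.In k) (j : ℕ) : f (C.at' k j) =
    nb G (f k, f ((C.L k).getD 0 0), f ((C.L k).getD 1 0)) j := by
  rw [Cfg.at', (H.app k hk).nb _ (Nat.mod_lt _ (H.pos hk)), H.lnk.eq (H.app k hk).fl,
    ← (H.app k hk).len]
  exact Nat.mod_modEq _ _

theorem t3 (hk : C.In k) (j : ℕ) :
    T3 G (f k) (f (C.at' k j)) (f (C.at' k (j + 1))) (f (C.at' k (j + 2))) := by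
  rw [H.f_at hk, H.f_at hk, H.f_at hk]
  exact H.lnk.t3 (H.app k hk).fl j

theorem adj (hk : C.In k) {a : ℕ} (ha : a ∈ C.L k) : G.Adj (f k) (f a) := by
  obtain ⟨j, rfl⟩ := ex_at ha
  exact (H.t3 hk j).1.2.1

theorem surj (hk : C.In k) {w : V} (h : G.Adj (f k) w) : ∃ a ∈ C.L k, f a = w := by
  obtain ⟨j, -, rfl⟩ := H.lnk.surj (H.app k hk).fl w h
  exact ⟨_, H.at_mem hk j, H.f_at hk j⟩

theorem injL (hk : C.In k) {a b : ℕ} (ha : a ∈ C.L k) (hb : b ∈ C.L k) (h : f a = f b) :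
    a = b := by
  obtain ⟨i, rfl⟩ := ex_at ha
  obtain ⟨j, rfl⟩ := ex_at hb
  rw [H.f_at hk, H.f_at hk, H.lnk.eq (H.app k hk).fl, ← (H.app k hk).len] at h
  rw [Cfg.at', Cfg.at', h]

/-- Adjacent points of a link are consecutive. -/
theorem cons (hk : C.In k) (i : ℕ) {b : ℕ} (hb : b ∈ C.L k) (h : G.Adj (f (C.at' k i)) (f b)) :
    b = C.at' k (i + 1) ∨ b = C.at' k (i + (C.L k).length - 1) := by
  have h3 := H.t3 hk (i + (C.L k).length - 1)
  rw [H.at_pred hk, H.at_pred2 hk] at h3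
  by_cases e : f (C.at' k (i + (C.L k).length - 1)) = f b
  · exact Or.inr (H.injL hk hb (H.at_mem hk _) e.symm)
  · exact Or.inl (H.injL hk hb (H.at_mem hk _)
      (H.lnk.uniq ⟨h3.1, ⟨h3.1.1, H.adj hk hb, h⟩, e⟩ h3))

theorem cons' (hk : C.In k) {a b : ℕ} (ha : a ∈ C.L k) (hb : b ∈ C.L k)
    (h : G.Adj (f a) (f b)) : ∃ j, (a = C.at' k j ∧ b = C.at' k (j + 1)) ∨
      (b = C.at' k j ∧ a = C.at' k (j + 1)) := by
  obtain ⟨i, rfl⟩ := ex_at ha
  rcases H.cons hk i hb h with e | e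
  · exact ⟨i, Or.inl ⟨rfl, e⟩⟩
  · exact ⟨_, Or.inr ⟨e, (H.at_pred hk i).symm⟩⟩

theorem face (hk : C.In k) {a b : ℕ} (ha : a ∈ C.L k) (hb : b ∈ C.L k) (hi : C.In a)
    (h : G.Adj (f a) (f b)) : b ∈ C.L a := by
  obtain ⟨i, rfl⟩ := ex_at ha
  rcases H.cons hk i hb h with e | e
  · exact e ▸ (H.wf.face k hk i hi).1
  · exact e ▸ (H.wf.face k hk i hi).2

theorem in_or (hk : C.In k) {a : ℕ} (ha : a ∈ C.L k) : a < C.r ∨ C.In a := by
  by_cases h : a < C.r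
  · exact Or.inl h
  · exact Or.inr ⟨not_lt.1 h, H.wf.lt k hk a ha⟩

theorem out {t : ℕ} (ht : t < C.r) : f t ∉ f '' {k | C.In k} := by
  rintro ⟨k', hk', e⟩
  obtain ⟨k, j, hk, h⟩ := H.wf.ex t ht
  have hm : t ∈ C.L k := by
    rcases h with h | h
    · exact h.1 ▸ H.at_mem hk _
    · exact h.1 ▸ H.at_mem hk _
  have := H.injL hk (H.ind k k' hk hk' (e ▸ H.adj hk hm)) hm e
  exact absurd hk'.1 (by omega)

theorem lt_of (hk : C.In k) {a : ℕ} (ha : a ∈ C.L k) (h : f a ∉ f '' {k | C.In k}) : a < C.r :=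
  (H.in_or hk ha).resolve_right fun h' => h ⟨a, h', rfl⟩

theorem in_of (hk : C.In k) {a : ℕ} (ha : a ∈ C.L k) (h : f a ∈ f '' {k | C.In k}) : C.In a :=
  (H.in_or hk ha).resolve_left fun h' => H.out h' h

theorem ex_lab : ∃ lab : V → V → ℕ, ∀ k, C.In k → ∀ a ∈ C.L k, lab (f k) (f a) = a := by
  classical
  refine ⟨fun v w => if h : ∃ a k, C.In k ∧ f k = v ∧ a ∈ C.L k ∧ f a = w then h.choose else 0,
    fun k hk a ha => ?_⟩
  have h : ∃ a' k', C.In k' ∧ f k' = f k ∧ a' ∈ C.L k' ∧ f a' = f a := ⟨a, k, hk, rfl, ha, rfl⟩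
  simp only [dif_pos h]
  obtain ⟨k', hk', e, h1, h2⟩ := h.choose_spec
  obtain rfl := H.inj k' k hk' hk e
  exact H.injL hk h1 ha h2

theorem ring {t : ℕ} (ht : t < C.r) : ∃ k, C.In k ∧ t ∈ C.L k ∧ (t + 1) % C.r ∈ C.L k ∧
    G.Adj (f t) (f ((t + 1) % C.r)) := by
  obtain ⟨k, j, hk, h | h⟩ := H.wf.ex t ht
  · exact ⟨k, hk, h.1 ▸ H.at_mem hk _, h.2 ▸ H.at_mem hk _, by
      rw [← h.2, ← h.1]; exact (H.t3 hk j).1.2.2.symm⟩
  · exact ⟨k, hk, h.1 ▸ H.at_mem hk _, h.2 ▸ H.at_mem hk _, by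
      rw [← h.2, ← h.1]; exact (H.t3 hk j).1.2.2⟩

theorem disc : ∃ lab, Disc G (f '' {k | C.In k}) C.r f lab := by
  obtain ⟨lab, hl⟩ := H.ex_lab
  refine ⟨lab, H.wf.three, fun t ht => H.out ht, fun t ht => (H.ring ht).choose_spec.2.2.2,
    ?_, ?_, ?_, fun t ht => ?_⟩
  · rintro _ ⟨k, hk, rfl⟩ w hw h
    obtain ⟨a, ha, rfl⟩ := H.surj hk h
    rw [hl k hk a ha]
    exact ⟨H.lt_of hk ha hw, rfl⟩
  · rintro _ ⟨k, hk, rfl⟩ _ ⟨k', hk', rfl⟩ w - h
    obtain ⟨a, ha, rfl⟩ := H.surj hk h.2.1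
    rw [hl k hk a ha, hl k' hk' a (H.face hk (H.ind k k' hk hk' h.1) ha hk' h.2.2)]
  · rintro _ ⟨k, hk, rfl⟩ w hw w' hw' h
    obtain ⟨a, ha, rfl⟩ := H.surj hk h.1
    obtain ⟨b, hb, rfl⟩ := H.surj hk h.2.1
    rw [hl k hk a ha, hl k hk b hb]
    have h1 := H.lt_of hk ha hw
    have h2 := H.lt_of hk hb hw'
    obtain ⟨j, ⟨rfl, rfl⟩ | ⟨rfl, rfl⟩⟩ := H.cons' hk ha hb h.2.2
    · exact H.wf.ring k hk j h1 h2
    · exact (H.wf.ring k hk j h2 h1).symm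
  · obtain ⟨k, hk, h1, h2, h3⟩ := H.ring ht
    refine ⟨f k, ⟨⟨k, hk, rfl⟩, ⟨H.adj hk h1, H.adj hk h2, h3⟩, hl k hk _ h1, hl k hk _ h2⟩, ?_⟩
    rintro _ ⟨⟨k', hk', rfl⟩, hT, e1, e2⟩
    obtain ⟨a, ha, ea⟩ := H.surj hk' hT.1
    obtain ⟨b, hb, eb⟩ := H.surj hk' hT.2.1
    rw [← ea, hl k' hk' a ha] at e1
    rw [← eb, hl k' hk' b hb] at e2
    exact congrArg f (H.wf.uniq t ht k' k hk' hk (e1 ▸ ha) (e2 ▸ hb) h1 h2)

theorem not_ext (hn : ∀ c, ¬ Col G Set.univ c) :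
    ∀ x ∈ Tr G (f '' {k | C.In k}) C.r f, ¬ C.Ext x := by
  classical
  rintro x ⟨c, hc, hx⟩ ⟨c', hx', hc'⟩
  have key : ∀ t < C.r, c (f t) = c' t + (c (f 0) + c' 0) := by
    intro t
    induction t with
    | zero =>
      intro _
      generalize c (f 0) = a
      generalize c' 0 = b
      revert a b; decide
    | succ t ih =>
      intro ht
      have e := (hx t (by omega)).symm.trans (hx' t (by omega))
      rw [Nat.mod_eq_of_lt ht, ih (by omega)] at e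
      revert e
      generalize c (f 0) + c' 0 = d
      generalize c (f (t + 1)) = a
      generalize c' (t + 1) = b
      generalize c' t = g
      revert a b d g; decide
  let c'' : V → K4 := fun v =>
    if h : v ∈ f '' {k | C.In k} then c' h.choose + (c (f 0) + c' 0) else c v
  have h1 : ∀ k, C.In k → c'' (f k) = c' k + (c (f 0) + c' 0) := fun k hk => by
    have h : f k ∈ f '' {k | C.In k} := ⟨k, hk, rfl⟩
    simp only [c'', dif_pos h]
    rw [H.inj _ k h.choose_spec.1 hk h.choose_spec.2]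
  have h2 : ∀ k, C.In k → ∀ w, G.Adj (f k) w → c'' (f k) ≠ c'' w := fun k hk w h => by
    obtain ⟨a, ha, rfl⟩ := H.surj hk h
    have : c'' (f a) = c' a + (c (f 0) + c' 0) := by
      rcases H.in_or hk ha with h' | h'
      · simp only [c'', dif_neg (H.out h')]
        exact key a h'
      · exact h1 a h'
    rw [h1 k hk, this]
    exact fun e => hc' k hk a ha (add_right_cancel e)
  refine hn c'' fun u v _ _ h => ?_
  by_cases hu : u ∈ f '' {k | C.In k}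
  · obtain ⟨k, hk, rfl⟩ := hu
    exact h2 k hk v h
  · by_cases hv : v ∈ f '' {k | C.In k}
    · obtain ⟨k, hk, rfl⟩ := hv
      exact (h2 k hk u h.symm).symm
    · simp only [c'', dif_neg hu, dif_neg hv]
      exact hc u v hu hv h

theorem xa_adj {a b : ℕ} (h : C.XA a b) : G.Adj (f a) (f b) := by
  rcases h with h | h
  · exact H.adj (H.wf.xin _ h).1 (H.wf.xin _ h).2
  · exact (H.adj (H.wf.xin _ h).1 (H.wf.xin _ h).2).symm

/-- The graph of the contracted edges. -/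
def XG : SimpleGraph V where
  Adj u v := ∃ a b, C.XA a b ∧ f a = u ∧ f b = v
  symm := ⟨fun _ _ ⟨a, b, h, e, e'⟩ => ⟨b, a, xa_symm h, e', e⟩⟩
  loopless := ⟨fun _ ⟨_, _, h, e, e'⟩ => (H.xa_adj h).ne (e.trans e'.symm)⟩

theorem xg_le : H.XG ≤ G := by
  rintro _ _ ⟨a, b, h, rfl, rfl⟩
  exact H.xa_adj h

theorem xg_end {u v : V} (h : H.XG.Adj u v) : u ∈ f '' {k | C.In k} ∨ v ∈ f '' {k | C.In k} := by
  obtain ⟨a, b, h | h, rfl, rfl⟩ := h
  · exact Or.inl ⟨a, (H.wf.xin _ h).1, rfl⟩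
  · exact Or.inr ⟨b, (H.wf.xin _ h).1, rfl⟩

theorem xg_at (hk : C.In k) {w : V} (h : H.XG.Adj (f k) w) : ∃ a ∈ C.L k, C.XA k a ∧ f a = w := by
  obtain ⟨a, b, h | h, e, rfl⟩ := h
  · obtain rfl := H.inj a k (H.wf.xin _ h).1 hk e
    exact ⟨b, (H.wf.xin _ h).2, Or.inl h, rfl⟩
  · obtain rfl := H.inj a k (H.in_of (H.wf.xin _ h).1 (H.wf.xin _ h).2 ⟨k, hk, e.symm⟩) hk e
    exact ⟨b, H.wf.sym b (H.wf.xin _ h).1 a (H.wf.xin _ h).2 hk, Or.inr h, rfl⟩

/-- No triangle has two contracted edges. -/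
theorem two {u w v : V} (h1 : H.XG.Adj u w) (h2 : H.XG.Adj w v) : ¬ G.Adj u v := fun h => by
  by_cases hw : w ∈ f '' {k | C.In k}
  · obtain ⟨k, hk, rfl⟩ := hw
    obtain ⟨a, ha, xa, rfl⟩ := H.xg_at hk h1.symm
    obtain ⟨b, hb, xb, rfl⟩ := H.xg_at hk h2
    obtain ⟨j, ⟨rfl, rfl⟩ | ⟨rfl, rfl⟩⟩ := H.cons' hk ha hb h
    · exact (H.wf.sparse k hk j).1 ⟨xa, xb⟩
    · exact (H.wf.sparse k hk j).1 ⟨xb, xa⟩
  · obtain ⟨k, hk, rfl⟩ := (H.xg_end h1).resolve_right hw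
    obtain ⟨b, hb', rfl⟩ := (H.xg_end h2).resolve_left hw
    obtain ⟨a, ha, xa, rfl⟩ := H.xg_at hk h1
    obtain ⟨a', ha', xb, e⟩ := H.xg_at hb' h2.symm
    have hb := H.ind k b hk hb' h
    obtain rfl := H.injL hb' ha' (H.face hk hb ha hb' (H.xg_le h2).symm) e
    obtain ⟨j, ⟨rfl, rfl⟩ | ⟨rfl, rfl⟩⟩ := H.cons' hk ha hb (H.xg_le h2)
    · exact (H.wf.sparse k hk j).2.1 ⟨xa, xa_symm xb⟩
    · exact (H.wf.sparse k hk j).2.2 ⟨xa, xb⟩

theorem three (b4 : B4 G) {u x y v : V} (h1 : H.XG.Adj u x) (h2 : H.XG.Adj x y)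
    (h3 : H.XG.Adj y v) (n1 : u ≠ y) (n2 : x ≠ v) : ¬ G.Adj u v := fun h =>
  (b4 u x y v (H.xg_le h1) (H.xg_le h2) (H.xg_le h3) h.symm n1 n2).elim (H.two h1 h2) (H.two h2 h3)

theorem wheel (hr : ∀ k, C.In k → ∀ j, ¬ (C.XA k (C.at' k j) ∧ C.XA k (C.at' k (j + 2))))
    {w u v z : V} (hw : w ∈ f '' {k | C.In k}) (h1 : H.XG.Adj w u) (h2 : H.XG.Adj w v)
    (n : u ≠ v) (a1 : G.Adj z w) (a2 : G.Adj z u) (a3 : G.Adj z v) : False := by
  obtain ⟨k, hk, rfl⟩ := hw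
  obtain ⟨a, ha, xa, rfl⟩ := H.xg_at hk h1
  obtain ⟨b, hb, xb, rfl⟩ := H.xg_at hk h2
  obtain ⟨c, hc, rfl⟩ := H.surj hk a1.symm
  obtain ⟨i, rfl⟩ := ex_at hc
  have := hr k hk (i + (C.L k).length - 1)
  rw [H.at_pred2 hk] at this
  rcases H.cons hk i ha a2 with rfl | rfl <;> rcases H.cons hk i hb a3 with rfl | rfl
  · exact n rfl
  · exact this ⟨xb, xa⟩
  · exact this ⟨xa, xb⟩
  · exact n rfl

theorem len_le {u v : V} {p : H.XG.Walk u v} (hp : p.IsPath) : p.length ≤ C.X.length := by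
  rw [← p.length_edges, ← List.length_map (fun q : ℕ × ℕ => s(f q.1, f q.2))]
  refine (List.subperm_of_subset hp.isTrail.edges_nodup fun e he => ?_).length_le
  have := p.edges_subset_edgeSet he
  induction e using Sym2.ind with
  | _ u v =>
    obtain ⟨a, b, h | h, rfl, rfl⟩ := this
    · exact List.mem_map.2 ⟨_, h, rfl⟩
    · exact List.mem_map.2 ⟨_, h, Sym2.eq_swap⟩

theorem adj_of_reach (b4 : B4 G) (b5 : B5 G) {u v : V} (h : G.Adj u v)
    (hr : H.XG.Reachable u v) : H.XG.Adj u v := by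
  obtain ⟨p, hp⟩ := hr.exists_isPath
  have hl := H.len_le hp
  have h4 := H.wf.xlen
  have hs := hp.support_nodup
  match p, hl, hs with
  | .nil, _, _ => exact absurd rfl h.ne
  | .cons h1 .nil, _, _ => exact h1
  | .cons h1 (.cons h2 .nil), _, _ => exact absurd h (H.two h1 h2)
  | .cons h1 (.cons h2 (.cons h3 .nil)), _, hs =>
    simp only [SimpleGraph.Walk.support_cons, SimpleGraph.Walk.support_nil, List.nodup_cons,
      List.mem_cons, not_or] at hs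
    exact absurd h (H.three b4 h1 h2 h3 hs.1.2.1 hs.2.1.2.1)
  | .cons h1 (.cons h2 (.cons h3 (.cons h4 .nil))), hl, hs =>
    simp only [SimpleGraph.Walk.support_cons, SimpleGraph.Walk.support_nil, List.nodup_cons,
      List.mem_cons, not_or] at hs
    simp only [SimpleGraph.Walk.length_cons, SimpleGraph.Walk.length_nil] at hl
    obtain ⟨⟨-, n1, n2, -⟩, ⟨-, n3, n4, -⟩, ⟨-, n5, -⟩, -⟩ := hs
    exfalso
    rcases b5 _ _ _ _ _ (H.xg_le h1) (H.xg_le h2) (H.xg_le h3) (H.xg_le h4) h.symm n1 n2 n3 n4 n5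
      with (e | e | e | e | e) | ⟨z, hz⟩
    · exact H.two h1 h2 e
    · exact H.three b4 h1 h2 h3 n1 n3 e
    · exact H.two h2 h3 e
    · exact H.three b4 h2 h3 h4 n3 n5 e
    · exact H.two h3 h4 e
    · have hr := H.wf.rot2.resolve_left (by omega)
      have hz' : ∀ w, w ∈ G.neighborSet z → G.Adj z w := fun _ h => h
      rw [hz] at hz'
      rcases H.xg_end h2 with e | e
      · exact H.wheel hr e h1.symm h2 n1 (hz' _ (by simp)) (hz' _ (by simp)) (hz' _ (by simp))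
      · exact H.wheel hr e h2.symm h3 n3 (hz' _ (by simp)) (hz' _ (by simp)) (hz' _ (by simp))
  | .cons _ (.cons _ (.cons _ (.cons _ (.cons _ _)))), hl, _ =>
    simp only [SimpleGraph.Walk.length_cons] at hl
    omega

theorem ex_extX (b4 : B4 G) (b5 : B5 G) (hs : Small G) :
    ∃ x ∈ Tr G (f '' {k | C.In k}) C.r f, C.ExtX x := by
  obtain ⟨c, h1, h2⟩ := hs Set.univ H.XG H.xg_le (Or.inr fun e => by
    obtain ⟨p, hp⟩ := List.exists_mem_of_ne_nil _ H.wf.xne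
    have : H.XG.Adj (f p.1) (f p.2) := ⟨p.1, p.2, Or.inl hp, rfl, rfl⟩
    rw [e] at this
    exact this)
  have h3 : ∀ u v, G.Adj u v → c u = c v → H.XG.Adj u v := fun u v h e =>
    H.adj_of_reach b4 b5 h (by_contra fun hn => h2 u v trivial trivial h hn e)
  refine ⟨fun t => c (f t) + c (f ((t + 1) % C.r)), ⟨c, fun u v hu hv h e => ?_, fun _ _ => rfl⟩,
    fun t => c (f t), fun _ _ => rfl, fun k hk a ha => ⟨fun h => h1 _ _ ⟨k, a, h, rfl, rfl⟩,
      fun e => ?_⟩⟩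
  · exact (H.xg_end (h3 u v h e)).elim hu hv
  · obtain ⟨b, hb, xb, e'⟩ := H.xg_at hk (h3 _ _ (H.adj hk ha) e)
    exact H.injL hk hb ha e' ▸ xb

end Em

end RedApp

theorem red : StmtRED := by
  intro kempe emb V _ _ G C f hG hC hR hA
  have H : RedApp.Em G C f := ⟨hG.toLnk, hC, hA, fun a b ha hb => (emb V G C f hG hC hA a b ha hb).1,
    fun a b ha hb => (emb V G C f hG hC hA a b ha hb).2⟩
  obtain ⟨lab, hD⟩ := H.disc
  obtain ⟨x, hx, hx'⟩ := H.ex_extX hG.b4 hG.b5 hG.small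
  exact hR _ (kempe V G _ _ _ lab hG.toTri hD) (H.not_ext hG.ncol) x hx hx'

end Pool.Agent.MP_31805c_co.H47
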