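import Pool.Agent.MP_31805c_co.H47.SpecC

/-!
The sequence of items of the certificate.
-/

namespace Pool.Agent.MP_31805c_co.H47

namespace SEQ

theorem frcN_eq {α : Type} (f : ℕ → α) (x : ℕ) : frcN f x = f x := by cases x <;> rfl

theorem all_get (P : ℕ → Prop) (t : BT) : t.All P → ∀ i, P (t.get i) := by
  induction t with
  | leaf x => exact fun h _ => h
  | node l r ihl ihr =>
    intro h i
    show P (Nat.rec (l.get (Nat.shiftRight i 1)) (fun _ _ => r.get (Nat.shiftRight i 1))
      (Nat.land i 1))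
    cases Nat.land i 1 with
    | zero => exact ihl h.1 _
    | succ k => exact ihr h.2 _

theorem chkI_cases (X : Cx) (n c : ℕ) (h : chkI X n c = true) :
    ∃ c', cfgK X n c' = true ∨ entK X n c' = true ∨ treK X n c' = true ∨ mirK X n c' = true := by
  refine ⟨Nat.shiftRight c 2, ?_⟩
  unfold chkI at h
  generalize Nat.land c 3 = t at h
  rcases t with _ | _ | _ | t
  · exact Or.inl h
  · exact Or.inr (Or.inl h)
  · exact Or.inr (Or.inr (Or.inl h))
  · exact Or.inr (Or.inr (Or.inr h))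

theorem brec (a b : Bool) (h : (Bool.rec false a b : Bool) = true) : b = true ∧ a = true := by
  cases b
  · exact absurd h (by simp)
  · exact ⟨rfl, h⟩

theorem chkS_succ (X : Cx) (m n c : ℕ) : chkS X (m + 1) n c = Bool.rec false
    (frcN (chkS X m) (Nat.succ n) (Nat.shiftRight c (Nat.add 16 (Nat.land c 65535))))
    (chkI X n (Nat.shiftRight c 16)) := rfl

theorem chkL_cons (X : Cx) (n' c : ℕ) (cs : List ℕ) (n : ℕ) : chkL X n' (c :: cs) n =
    Bool.rec false (frcN (chkL X n' cs) (Nat.add n (Nat.land c 255)))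
      (chkS X (Nat.land c 255) n (Nat.shiftRight c 8)) := rfl

theorem seqS (X : Cx) (F : ℕ → Prop)
    (hI : ∀ n c, (∀ j < n, F j) → chkI X n c = true → F n) (m : ℕ) :
    ∀ n c, chkS X m n c = true → (∀ j < n, F j) → ∀ j < n + m, F j := by
  induction m with
  | zero => exact fun n _ _ h => h
  | succ m ih =>
    intro n c h hn j hj
    rw [chkS_succ] at h
    obtain ⟨h1, h2⟩ := brec _ _ h
    rw [frcN_eq] at h2
    refine ih _ _ h2 (fun i hi => ?_) j (by omega)
    rcases Nat.lt_succ_iff_lt_or_eq.mp hi with h3 | rfl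
    · exact hn i h3
    · exact hI _ _ hn h1

theorem seqL (X : Cx) (F : ℕ → Prop)
    (hI : ∀ n c, (∀ j < n, F j) → chkI X n c = true → F n) (n' : ℕ) (cs : List ℕ) :
    ∀ n, chkL X n' cs n = true → (∀ j < n, F j) → ∀ j < n', F j := by
  induction cs with
  | nil =>
    intro n h hn j hj
    have h1 : Nat.ble n' n = true := h
    exact hn j (hj.trans_le (Nat.le_of_ble_eq_true h1))
  | cons c cs ih =>
    intro n h hn
    rw [chkL_cons] at h
    obtain ⟨h1, h2⟩ := brec _ _ h
    rw [frcN_eq] at h2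
    exact ih _ h2 (seqS X F hI _ _ _ h1 hn)

end SEQ

theorem seqP : StmtSEQ := by
  intro hK hE hR hC hT hN hTr hM hL hG V _ _ G h6 hg hs X n n' cs hX h hn
  refine SEQ.seqL X (Fact G X) (fun n c hn hc => ?_) n' cs n h hn
  obtain ⟨c', h1 | h1 | h1 | h1⟩ := SEQ.chkI_cases X n c hc
  · intro φ hφ hf
    obtain ⟨f, hf⟩ := hG hL V G h6 hg φ X.d _ _ _ _ hφ.1 (fun h0 => (hφ.2.2 h0).1) hf h1
    have h2 := SEQ.all_get _ _ hX.c (fld c' 0 4096)
    exact absurd hf (hR hK hE V G _ f h6 h2.1 h2.2)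
  · exact hN hC hT V G hg X n c' hX.a hX.p hX.m hn h1
  · exact hTr V G hg hs X n c' hX.l hn h1
  · exact hM V G hg X n c' hn h1

end Pool.Agent.MP_31805c_co.H47
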