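import Pool.Agent.MP_31805c_co.H47.SpecA

/-!
The two sides of an induced cycle in a triangulation.
-/

namespace Pool.Agent.MP_31805c_co.H47

open Finset
open Pool.Agent.MP_31805c_co.H93 (Conn)

namespace SideAux

theorem succ_mod {r t : ℕ} (h : t < r) :
    ((t + 1) % r = t + 1 ∧ t + 1 < r) ∨ ((t + 1) % r = 0 ∧ t + 1 = r) := by
  rcases Nat.lt_or_ge (t + 1) r with h1 | h1
  · exact Or.inl ⟨Nat.mod_eq_of_lt h1, h1⟩
  · obtain rfl : t + 1 = r := by omega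
    exact Or.inr ⟨Nat.mod_self _, rfl⟩

variable {V : Type} {G : SimpleGraph V} {r : ℕ} {ρ : ℕ → V}

/-- The vertices of the cycle. -/
def On (r : ℕ) (ρ : ℕ → V) : Set V := {v | ∃ t < r, ρ t = v}

theorem two_nb (hr : 4 ≤ r) (hc : Cyc G r ρ) {v : V} (hv : v ∈ On r ρ) :
    ∃ p q, p ≠ q ∧ ∀ w, (w ∈ On r ρ ∧ G.Adj v w) ↔ w = p ∨ w = q := by
  obtain ⟨t, ht, rfl⟩ := hv
  obtain ⟨u, hu, e⟩ : ∃ u < r, (u + 1) % r = t := by
    rcases t with _ | t
    · exact ⟨r - 1, by omega, by rw [Nat.sub_add_cancel (by omega), Nat.mod_self]⟩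
    · exact ⟨t, by omega, Nat.mod_eq_of_lt ht⟩
  have h0 : (t + 1) % r < r := Nat.mod_lt _ (by omega)
  have h1 := succ_mod ht
  have h2 := succ_mod hu
  refine ⟨ρ ((t + 1) % r), ρ u, fun h => ?_, fun w => ⟨?_, ?_⟩⟩
  · have := hc.inj _ h0 _ hu h
    omega
  · rintro ⟨⟨j, hj, rfl⟩, h⟩
    have h3 := succ_mod hj
    rcases (hc.adj _ ht _ hj).1 h with h | h
    · exact Or.inl (by rw [h])
    · exact Or.inr (by rw [show j = u by omega])
  · rintro (rfl | rfl)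
    · exact ⟨⟨_, h0, rfl⟩, (hc.adj _ ht _ h0).2 (Or.inl rfl)⟩
    · exact ⟨⟨_, hu, rfl⟩, (hc.adj _ ht _ hu).2 (Or.inr e.symm)⟩

theorem no_tri (hr : 4 ≤ r) (hc : Cyc G r ρ) {u v w : V} (h : T G u v w) (hu : u ∈ On r ρ)
    (hv : v ∈ On r ρ) : w ∉ On r ρ := by
  obtain ⟨a, ha, rfl⟩ := hu
  obtain ⟨b, hb, rfl⟩ := hv
  rintro ⟨c, hc', rfl⟩
  have h1 := (hc.adj _ ha _ hb).1 h.1
  have h2 := (hc.adj _ ha _ hc').1 h.2.1
  have h3 := (hc.adj _ hb _ hc').1 h.2.2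
  have h4 := succ_mod ha
  have h5 := succ_mod hb
  have h6 := succ_mod hc'
  omega

theorem swap23 {u v w : V} (h : T G u v w) : T G u w v := ⟨h.2.1, h.1, h.2.2.symm⟩

theorem swap12 {u v w : V} (h : T G u v w) : T G v u w := ⟨h.1.symm, h.2.2, h.2.1⟩

variable [Fintype V] [DecidableEq V]

/-- The side function. -/
theorem exists_side (ht : Tri G) (hl : Lnk G) (hr : 4 ≤ r) (hc : Cyc G r ρ) : ∃ s : V → Z2,
    (∀ u v, u ∉ On r ρ → v ∉ On r ρ → G.Adj u v → s u = s v) ∧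
    ∀ u v w w', u ∈ On r ρ → v ∈ On r ρ → T G u v w → T G u v w' → w ≠ w' → s w + s w' = 1 := by
  classical
  obtain ⟨C, hC⟩ : ∃ C : Sym2 V → Z2, ∀ u v,
      C s(u, v) = if u ∈ On r ρ ∧ v ∈ On r ρ ∧ G.Adj u v then 1 else 0 :=
    ⟨Sym2.lift ⟨fun u v => if u ∈ On r ρ ∧ v ∈ On r ρ ∧ G.Adj u v then 1 else 0, fun u v => by
      simp only [G.adj_comm u v, and_left_comm]⟩, fun _ _ => rfl⟩
  obtain ⟨σ, hσ⟩ := ht.prim C (by
    intro e
    induction e using Sym2.ind with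
    | h u v =>
      rw [hC]
      split_ifs with h
      · exact fun _ => h.2.2
      · exact fun h => absurd rfl h) (by
    intro v
    by_cases hv : v ∈ On r ρ
    · obtain ⟨p, q, hpq, h⟩ := two_nb hr hc hv
      have h1 : ∀ w, C s(v, w) = (if w = p then 1 else 0) + if w = q then 1 else 0 := by
        intro w
        rw [hC]
        simp only [hv, true_and, h]
        by_cases e : w = p
        · simp [e, hpq]
        · simp [e]
      simp only [h1, Finset.sum_add_distrib, Finset.sum_ite_eq', Finset.mem_univ, if_true]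
      decide
    · simp [hC, hv])
  have h1 : ∀ v a b b', v ∉ On r ρ → T G v a b → T G v a b' → σ {v, a, b} = σ {v, a, b'} := by
    intro v a b b' hv h h'
    by_cases e : b = b'
    · rw [e]
    have h2 := hσ v a b b' h h' e
    rw [hC, if_neg fun h => hv h.1] at h2
    exact (by decide : ∀ x y : Z2, 0 = x + y → x = y) _ _ h2
  have h2 : ∀ v a b a' b', v ∉ On r ρ → T G v a b → T G v a' b' →
      σ {v, a, b} = σ {v, a', b'} := by
    intro v a b a' b' hv h h'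
    have h3 := ht.link v a a' h.1 h'.1
    induction h3 generalizing b' with
    | refl => exact h1 v a b b' hv h h'
    | @tail c c' _ h4 ih =>
      have h5 : T G v c c' := ⟨h4.2.1, h4.2.2, h4.1⟩
      rw [ih _ h5, Finset.pair_comm c c']
      exact h1 v c' c b' hv (swap23 h5) h'
  choose a b hab using hl.ex
  refine ⟨fun v => σ {v, a v, b v}, fun u v hu hv h => ?_, fun u v w w' hu hv h h' e => ?_⟩
  · obtain ⟨w, hw⟩ : (G.commonNeighbors u v).Nonempty :=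
      Set.nonempty_of_ncard_ne_zero (by rw [ht.two u v h]; norm_num)
    have h3 : T G u v w := ⟨h, hw.1, hw.2⟩
    beta_reduce
    rw [h2 _ _ _ _ _ hu (hab u) h3, h2 _ _ _ _ _ hv (hab v) (swap12 h3), Finset.insert_comm]
  · have h3 := hσ u v w w' h h' e
    have h4 : ∀ x : V, ({x, u, v} : Finset V) = {u, v, x} := fun x => by
      rw [Finset.insert_comm, Finset.pair_comm x v]
    rw [hC, if_pos ⟨hu, hv, h.1⟩] at h3
    beta_reduce
    rw [h2 _ _ _ _ _ (no_tri hr hc h hu hv) (hab w) (swap12 (swap23 h)),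
      h2 _ _ _ _ _ (no_tri hr hc h' hu hv) (hab w') (swap12 (swap23 h')), h4, h4, h3]

omit [Fintype V] [DecidableEq V] in
/-- Walking around a vertex of the cycle. -/
theorem walk (hl : Lnk G) (hr : 4 ≤ r) (hc : Cyc G r ρ) {K : Set V}
    (hK : ∀ u ∈ K, ∀ v, v ∉ On r ρ → G.Adj u v → v ∈ K) {c p q k : V} (h1 : c ∈ On r ρ)
    (h2 : p ∈ On r ρ) (h3 : q ∈ On r ρ) (hq : G.Adj c q) (hpq : p ≠ q) (hk : k ∈ K)
    (h : T G c p k) : ∃ k' ∈ K, T G c q k' ∧ Conn G K k k' := by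
  have hf : IsFl G (c, p, k) := h
  have e0 : nb G (c, p, k) 0 = p := rfl
  have e1 : nb G (c, p, k) 1 = k := rfl
  obtain ⟨j, hj, ej⟩ := hl.surj hf q hq
  obtain ⟨x, y, -, hxy⟩ := two_nb hr hc h1
  have h4 : ∀ w ∈ On r ρ, G.Adj c w → w = p ∨ w = q := by
    intro w hw h5
    have a1 := (hxy w).1 ⟨hw, h5⟩
    have a2 := (hxy p).1 ⟨h2, h.1⟩
    have a3 := (hxy q).1 ⟨h3, hq⟩
    grind
  have h5 : ∀ i, i + 1 < j → nb G (c, p, k) (i + 1) ∉ On r ρ := by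
    intro i hi hw
    rcases h4 _ hw (hl.t3 hf i).1.1 with e | e
    · have := Nat.ModEq.eq_of_lt_of_lt ((hl.eq hf _ _).1 (e.trans e0.symm)) (by omega) (by omega)
      omega
    · have := Nat.ModEq.eq_of_lt_of_lt ((hl.eq hf _ _).1 (e.trans ej.symm)) (by omega) hj
      omega
  have h6 : ∀ i, i + 1 < j → Conn G K k (nb G (c, p, k) (i + 1)) := by
    intro i
    induction i with
    | zero => exact fun _ => Conn.refl _ _
    | succ i ih =>
      intro hi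
      have a1 := ih (by omega)
      have a2 := (hl.t3 hf i).2.1.2.2
      exact a1.trans (Conn.adj a2 (a1.mem hk) (hK _ (a1.mem hk) _ (h5 _ hi) a2))
  obtain ⟨i, rfl⟩ : ∃ i, j = i + 2 := by
    rcases j with _ | _ | i
    · exact absurd ej hpq
    · exact absurd ((e1.symm.trans ej).symm ▸ h3) (no_tri hr hc h h1 h2)
    · exact ⟨i, rfl⟩
  have a1 := h6 i (by omega)
  exact ⟨_, a1.mem hk, ej ▸ swap23 (hl.t3 hf i).2.1, a1⟩

theorem side_of (ht : Tri G) (hl : Lnk G) (hr : 4 ≤ r) (hc : Cyc G r ρ) {s : V → Z2}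
    (h1 : ∀ u v, u ∉ On r ρ → v ∉ On r ρ → G.Adj u v → s u = s v)
    (h2 : ∀ u v w w', u ∈ On r ρ → v ∈ On r ρ → T G u v w → T G u v w' → w ≠ w' →
      s w + s w' = 1) (z : Z2) : Side G r ρ {v | v ∉ On r ρ ∧ s v = z} := by
  classical
  obtain ⟨K, hK⟩ : ∃ K : Set V, K = {v | v ∉ On r ρ ∧ s v = z} := ⟨_, rfl⟩
  have m : ∀ v, v ∈ K ↔ v ∉ On r ρ ∧ s v = z := fun v => by rw [hK]; rfl
  rw [← hK]
  have h3 : ∀ u ∈ K, ∀ v, v ∉ On r ρ → G.Adj u v → v ∈ K := fun u hu v hv h =>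
    (m v).2 ⟨hv, (h1 u v ((m u).1 hu).1 hv h).symm.trans ((m u).1 hu).2⟩
  have h4 : ∀ k ∈ K, ∀ w ∉ K, G.Adj k w → w ∈ On r ρ := fun k hk w hw h =>
    by_contra fun h' => hw (h3 k hk w h' h)
  have h5 : ∀ u ∈ On r ρ, ∀ v ∈ On r ρ, G.Adj u v → ∃! k, k ∈ K ∧ T G u v k := by
    intro u hu v hv h
    obtain ⟨w, w', e, hw⟩ := Set.ncard_eq_two.1 (ht.two u v h)
    have a1 : w ∈ G.commonNeighbors u v := by rw [hw]; simp
    have a2 : w' ∈ G.commonNeighbors u v := by rw [hw]; simp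
    have a3 : T G u v w := ⟨h, a1.1, a1.2⟩
    have a4 : T G u v w' := ⟨h, a2.1, a2.2⟩
    have a5 := h2 u v w w' hu hv a3 a4 e
    have a6 : s w = z ∨ s w' = z :=
      (by decide : ∀ x y z : Z2, x + y = 1 → x = z ∨ y = z) _ _ _ a5
    refine existsUnique_of_exists_of_unique ?_ fun k k' b1 b2 => by_contra fun e' => ?_
    · rcases a6 with a6 | a6
      · exact ⟨w, (m w).2 ⟨no_tri hr hc a3 hu hv, a6⟩, a3⟩
      · exact ⟨w', (m w').2 ⟨no_tri hr hc a4 hu hv, a6⟩, a4⟩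
    · have a7 := h2 u v k k' hu hv b1.2 b2.2 e'
      rw [((m k).1 b1.1).2, ((m k').1 b2.1).2] at a7
      exact (by decide : ∀ x : Z2, x + x ≠ 1) z a7
  obtain ⟨ix, hix⟩ : ∃ ix : V → ℕ, ∀ w ∈ On r ρ, ix w < r ∧ ρ (ix w) = w :=
    ⟨fun w => if h : w ∈ On r ρ then h.choose else 0, fun w h => by
      simp only [dif_pos h]
      exact h.choose_spec⟩
  have h6 : ∀ t < r, ix (ρ t) = t := fun t h =>
    hc.inj _ (hix _ ⟨t, h, rfl⟩).1 _ h (hix _ ⟨t, h, rfl⟩).2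
  have h7 : ∀ t, (t + 1) % r < r := fun t => Nat.mod_lt _ (by omega)
  have h8 : ∀ t < r, G.Adj (ρ t) (ρ ((t + 1) % r)) := fun t h =>
    (hc.adj _ h _ (h7 t)).2 (Or.inl rfl)
  refine ⟨⟨fun _ w => ix w, by omega, fun t h h' => ((m _).1 h').1 ⟨t, h, rfl⟩, h8,
    fun k hk w hw h => hix w (h4 k hk w hw h), fun _ _ _ _ _ _ _ => rfl,
    fun k hk w hw w' hw' h => ?_, fun t h => ?_⟩, ?_⟩
  · have a1 := hix w (h4 k hk w hw h.1)
    have a2 := hix w' (h4 k hk w' hw' h.2.1)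
    exact (hc.adj _ a1.1 _ a2.1).1 (by rw [a1.2, a2.2]; exact h.2.2)
  · obtain ⟨k, a1, a2⟩ := h5 _ ⟨t, h, rfl⟩ _ ⟨_, h7 t, rfl⟩ (h8 t h)
    exact ⟨k, ⟨a1.1, swap12 (swap23 a1.2), h6 t h, h6 _ (h7 t)⟩,
      fun k' a3 => a2 k' ⟨a3.1, swap23 (swap12 a3.2.1)⟩⟩
  obtain ⟨k0, ⟨a1, a2⟩, -⟩ := h5 _ ⟨0, by omega, rfl⟩ _ ⟨_, h7 0, rfl⟩ (h8 0 (by omega))
  have h9 : ∀ t < r, ∃ k, Conn G K k0 k ∧ T G (ρ t) (ρ ((t + 1) % r)) k := by
    intro t
    induction t with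
    | zero => exact fun _ => ⟨k0, Conn.refl _ _, a2⟩
    | succ t ih =>
      intro h
      obtain ⟨k, b1, b2⟩ := ih (by omega)
      rw [Nat.mod_eq_of_lt h] at b2
      obtain ⟨k', -, b3, b4⟩ := walk hl hr hc h3 ⟨_, h, rfl⟩ ⟨t, by omega, rfl⟩
        ⟨_, h7 (t + 1), rfl⟩ (h8 _ h) (fun e => by
          have b5 := hc.inj _ (by omega) _ (h7 _) e
          have b6 := succ_mod h
          omega) (b1.mem a1) (swap12 b2)
      exact ⟨k', b1.trans b4, b3⟩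
  refine ⟨{x | Conn G K k0 x}, fun x hx => hx.mem a1, fun x hx y hy => hx.comp.symm.trans hy.comp,
    fun t h => ?_⟩
  obtain ⟨k, b1, b2⟩ := h9 t h
  exact ⟨k, b1, b2.2.1.symm⟩

end SideAux

theorem side : StmtSIDE := by
  intro V _ _ G r ρ ht hl hr hc
  obtain ⟨s, h1, h2⟩ := SideAux.exists_side ht hl hr hc
  refine ⟨_, _, Set.disjoint_left.2 fun v a b => ?_, fun v => ?_, fun u a v b h => ?_,
    SideAux.side_of ht hl hr hc h1 h2 0, SideAux.side_of ht hl hr hc h1 h2 1⟩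
  · exact absurd (a.2.symm.trans b.2) (by decide)
  · by_cases h : v ∈ SideAux.On r ρ
    · exact Or.inr (Or.inr h)
    · have h3 : ∀ x : Z2, x = 0 ∨ x = 1 := by decide
      exact (h3 (s v)).imp (fun e => ⟨h, e⟩) fun e => Or.inl ⟨h, e⟩
  · exact absurd (a.2.symm.trans ((h1 u v a.1 b.1 h).trans b.2)) (by decide)

end Pool.Agent.MP_31805c_co.H47
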