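import Pool.Agent.MP_31805c_co.H47.SpecA

/-! A minimal counterexample has a family of triangles. -/

namespace Pool.Agent.MP_31805c_co.H47

open Finset
open Pool.Agent.MP_31805c_co.H93 (Conn)

namespace TF

variable {V : Type} {G : SimpleGraph V}

lemma col_of_small (h : Small G) {D : Set V} (hD : D ≠ Set.univ) : ∃ c, Col G D c := by
  obtain ⟨c, -, hc⟩ := h D ⊥ bot_le (Or.inl hD)
  refine ⟨c, fun u v hu hv huv => hc u v hu hv huv fun hr => huv.ne ?_⟩
  exact SimpleGraph.reachable_bot.1 hr

variable [Fintype V] [DecidableEq V]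

lemma d4 (h : MinCE G) (v : V) : 4 ≤ dg G v := by
  by_contra hlt
  obtain ⟨c, hc⟩ := col_of_small h.small (D := {v}ᶜ) (fun e => by
    have : v ∈ ({v}ᶜ : Set V) := e ▸ Set.mem_univ v
    exact this rfl)
  have h1 : (c '' G.neighborSet v).ncard < (Set.univ : Set K4).ncard := by
    have h2 : (c '' G.neighborSet v).ncard ≤ dg G v := Set.ncard_image_le (Set.toFinite _)
    have h3 : (Set.univ : Set K4).ncard = 4 := by
      rw [Set.ncard_univ, Nat.card_eq_fintype_card]
      rfl
    omega
  obtain ⟨k, -, hk⟩ := Set.exists_mem_notMem_of_ncard_lt_ncard h1 (Set.toFinite _)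
  refine h.ncol (Function.update c v k) fun x y _ _ hxy => ?_
  by_cases hx : x = v
  · subst hx
    rw [Function.update_self, Function.update_of_ne hxy.ne']
    exact fun e => hk ⟨y, hxy, e.symm⟩
  · by_cases hy : y = v
    · subst hy
      rw [Function.update_self, Function.update_of_ne hx]
      exact fun e => hk ⟨x, hxy.symm, e⟩
    · rw [Function.update_of_ne hx, Function.update_of_ne hy]
      exact hc x y hx hy hxy

/-- No clique separates. -/
lemma sep (hg : StmtGLUE) (h : MinCE G) {Q Q' : Set V} {y z : V} (hy : y ∉ Q) (hQ : Q' ⊆ Q)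
    (hcl : G.IsClique Q') (hadj : ∀ x, Conn G Qᶜ y x → ∀ q ∈ Q, G.Adj x q → q ∈ Q')
    (hz : ¬Conn G Qᶜ y z) (hz' : z ∉ Q') : False := by
  let D : Set V := {x | Conn G Qᶜ y x}
  obtain ⟨c, hc⟩ := col_of_small h.small (D := D ∪ Q') (fun e => by
    have : z ∈ D ∪ Q' := e ▸ Set.mem_univ z
    exact this.elim hz hz')
  obtain ⟨c', hc'⟩ := col_of_small h.small (D := Dᶜ) (fun e => by
    have : y ∈ Dᶜ := e ▸ Set.mem_univ y
    exact this (Conn.refl _ _))
  obtain ⟨c'', hc''⟩ := hg V G (D ∪ Q') Dᶜ c c' (by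
      ext x
      by_cases hx : x ∈ D <;> simp [hx]) (by
      rintro u (hu | hu) w hw huw
      · right
        by_cases hwQ : w ∈ Q
        · exact Or.inr (hadj u hu w hwQ huw)
        · exact Or.inl (Conn.trans hu (Conn.adj huw (Conn.mem hu hy) hwQ))
      · exact Or.inl fun hu' => Conn.mem hu' hy (hQ hu)) (by
      refine hcl.subset ?_
      rintro x ⟨hx | hx, hx'⟩
      · exact absurd hx hx'
      · exact hx) hc hc'
  exact h.ncol c'' hc''

lemma nocut (hg : StmtGLUE) (h : MinCE G) (v : V) : ¬Cut G v := by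
  rintro ⟨a, b, ha, hb, hab⟩
  exact sep hg h (Q := {v}) (Q' := {v}) (y := a) (z := b) ha.ne' le_rfl
    (SimpleGraph.isClique_singleton v) (fun _ _ q hq _ => hq) hab hb.ne'

lemma noK4 (hm : StmtMINOR) (hf : StmtFAM) (hg : StmtGLUE) (h : MinCE G) (q : Fin 4 → V)
    (hq : ∀ i j, i ≠ j → G.Adj (q i) (q j)) : False := by
  have hy : ∃ y, y ∉ Set.range q := by
    by_contra hn
    push Not at hn
    have h1 := d4 h (q 0)
    have h2 : G.neighborSet (q 0) ⊆ q '' {0}ᶜ := by
      intro x hx
      obtain ⟨i, rfl⟩ := hn x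
      refine ⟨i, fun hi => ?_, rfl⟩
      rw [Set.mem_singleton_iff.1 hi] at hx
      exact G.irrefl hx
    have h3 : (q '' {0}ᶜ).ncard ≤ ({0}ᶜ : Set (Fin 4)).ncard := Set.ncard_image_le (Set.toFinite _)
    have h4 : ({0}ᶜ : Set (Fin 4)).ncard = 3 := by
      rw [Set.ncard_compl, Set.ncard_singleton, Nat.card_eq_fintype_card, Fintype.card_fin]
    have h5 := Set.ncard_le_ncard h2 (Set.toFinite _)
    unfold dg at h1
    omega
  obtain ⟨y, hy⟩ := hy
  by_cases hall : ∀ i, ∃ x, Conn G (Set.range q)ᶜ y x ∧ G.Adj x (q i)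
  · have hmin : Minor (⊤ : SimpleGraph (Option (Fin 4))) G := by
      refine ⟨fun o => o.elim {x | Conn G (Set.range q)ᶜ y x} fun i => {q i}, ?_, ?_, ?_⟩
      · rintro (_ | i) (_ | j) hne
        · exact absurd rfl hne
        · exact Set.disjoint_singleton_right.2 fun hx => Conn.mem hx hy ⟨j, rfl⟩
        · exact Set.disjoint_singleton_left.2 fun hx => Conn.mem hx hy ⟨i, rfl⟩
        · exact Set.disjoint_singleton.2 (hq i j fun e => hne (e ▸ rfl)).ne
      · rintro (_ | i) x hx x' hx'
        · exact (Conn.comp hx).symm.trans (Conn.comp hx')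
        · obtain rfl : x = q i := hx
          obtain rfl : x' = q i := hx'
          exact Conn.refl _ _
      · rintro (_ | i) (_ | j) hne
        · exact absurd rfl hne.ne
        · obtain ⟨x, h1, h2⟩ := hall j
          exact ⟨x, h1, q j, rfl, h2⟩
        · obtain ⟨x, h1, h2⟩ := hall i
          exact ⟨q i, rfl, x, h1, h2.symm⟩
        · exact ⟨q i, rfl, q j, rfl, hq i j fun e => hne.ne (e ▸ rfl)⟩
    have h1 := hf.euler _ _ (hm V _ G _ h.mac hmin) (by simp)
    have h2 : (⊤ : SimpleGraph (Option (Fin 4))).edgeSet.ncard = 10 := by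
      classical
      rw [← SimpleGraph.coe_edgeFinset, Set.ncard_coe_finset,
        SimpleGraph.card_edgeFinset_top_eq_card_choose_two]
      rfl
    rw [h2] at h1
    simp at h1
  · push Not at hall
    obtain ⟨i, hi⟩ := hall
    refine sep hg h (Q := Set.range q) (Q' := Set.range q \ {q i}) (y := y) (z := q i) hy
      Set.sdiff_subset ?_ ?_ (fun hc => Conn.mem hc hy ⟨i, rfl⟩) (fun hc => hc.2 rfl)
    · rintro _ ⟨⟨a, rfl⟩, -⟩ _ ⟨⟨b, rfl⟩, -⟩ hne
      exact hq a b fun e => hne (e ▸ rfl)
    · intro x hx r hr hxr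
      refine ⟨hr, fun e => hi x hx ?_⟩
      rw [← Set.mem_singleton_iff.1 e]
      exact hxr

/-- The indicator of an edge. -/
def ind (a b : V) : Sym2 V → Z2 := fun e => if e = s(a, b) then 1 else 0

/-- The indicator of a vertex. -/
def chi (a y : V) : Z2 := if y = a then 1 else 0

lemma sum_ind {a b : V} (h : a ≠ b) (y : V) : ∑ x, ind a b s(y, x) = chi a y + chi b y := by
  have key : ∀ x, ind a b s(y, x) =
      (if x = b then chi a y else 0) + (if x = a then chi b y else 0) := by
    intro x
    unfold ind chi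
    by_cases h1 : y = a <;> by_cases h2 : y = b <;> by_cases h3 : x = a <;>
      by_cases h4 : x = b <;> simp_all [eq_comm]
  simp only [key, Finset.sum_add_distrib, Finset.sum_ite_eq', Finset.mem_univ, if_true]

omit [Fintype V] in
lemma ind_ne {a b : V} {e : Sym2 V} (h : ind a b e ≠ 0) : e = s(a, b) := by
  by_contra hn
  exact h (if_neg hn)

lemma z2_add (x : Z2) : x + x = 0 := by revert x; decide

lemma z2_eq {x y : Z2} (hx : x ≠ 0) (hy : y ≠ 0) : x + y = 0 := by revert x y; decide

lemma z2_eq' {x y : Z2} (h : x + y = 0) : x = y := by revert x y; decide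

variable {I : Type} [Fintype I] {F : I → Sym2 V → Z2}

lemma adj_of_path (hf : StmtFAM) (h : MinCE G) (hF : Fam G F) (i : I) (P : Sym2 V → Z2) {u w : V}
    (huw : u ≠ w) (h1 : ∀ e, P e ≠ 0 → F i e ≠ 0)
    (h2 : ∀ y, ∑ x, P s(y, x) = chi u y + chi w y) : G.Adj u w := by
  by_contra hn
  refine h.max _ (G.lt_sup_edge u w huw hn) (hf.cut V G I F hF i P u w huw h1 fun y => ?_)
  rw [h2]
  unfold chi
  by_cases h3 : y = u <;> by_cases h4 : y = w <;> simp_all

lemma next (hF : Fam G F) {i : I} {v w : V} (h : F i s(v, w) ≠ 0) :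
    ∃ u, u ≠ w ∧ F i s(v, u) ≠ 0 := by
  by_contra hn
  push Not at hn
  have h1 := hF.even i v
  rw [Finset.sum_eq_single w (fun u _ hu => hn u hu) (fun hw => absurd (Finset.mem_univ w) hw)]
    at h1
  exact h h1

/-- Every nonzero member contains a triangle. -/
lemma has_tri (hm : StmtMINOR) (hf : StmtFAM) (hg : StmtGLUE) (h : MinCE G) (hF : Fam G F)
    {i : I} (hi : ∃ e, F i e ≠ 0) :
    ∃ u v w, T G u v w ∧ F i s(u, v) ≠ 0 ∧ F i s(u, w) ≠ 0 ∧ F i s(v, w) ≠ 0 := by
  obtain ⟨e, he⟩ := hi
  induction e using Sym2.ind with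
  | _ v w =>
  obtain ⟨u, huw, hu⟩ := next hF he
  obtain ⟨x, hxv, hx⟩ := next hF (v := w) (w := v) (by rwa [Sym2.eq_swap])
  have avw : G.Adj v w := hF.sub i _ he
  have avu : G.Adj v u := hF.sub i _ hu
  have awx : G.Adj w x := hF.sub i _ hx
  by_cases hux : u = x
  · subst hux
    exact ⟨v, w, u, ⟨avw, avu, awx⟩, he, hu, hx⟩
  exfalso
  have auw : G.Adj u w := adj_of_path hf h hF i (fun e => ind v u e + ind v w e) huw
    (fun e hP => by
      by_cases h1 : ind v u e = 0
      · rw [h1, zero_add] at hP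
        rw [ind_ne hP]
        exact he
      · rw [ind_ne h1]
        exact hu)
    (fun y => by
      rw [Finset.sum_add_distrib, sum_ind avu.ne, sum_ind avw.ne]
      linear_combination z2_add (chi v y))
  have avx : G.Adj v x := adj_of_path hf h hF i (fun e => ind v w e + ind w x e) hxv.symm
    (fun e hP => by
      by_cases h1 : ind v w e = 0
      · rw [h1, zero_add] at hP
        rw [ind_ne hP]
        exact hx
      · rw [ind_ne h1]
        exact he)
    (fun y => by
      rw [Finset.sum_add_distrib, sum_ind awx.ne, sum_ind avw.ne]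
      linear_combination z2_add (chi w y))
  have aux : G.Adj u x := adj_of_path hf h hF i (fun e => ind v u e + (ind v w e + ind w x e)) hux
    (fun e hP => by
      by_cases h0 : ind v u e = 0
      · rw [h0, zero_add] at hP
        by_cases h1 : ind v w e = 0
        · rw [h1, zero_add] at hP
          rw [ind_ne hP]
          exact hx
        · rw [ind_ne h1]
          exact he
      · rw [ind_ne h0]
        exact hu)
    (fun y => by
      rw [Finset.sum_add_distrib, Finset.sum_add_distrib, sum_ind avu.ne, sum_ind awx.ne,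
        sum_ind avw.ne]
      linear_combination z2_add (chi w y) + z2_add (chi v y))
  refine noK4 hm hf hg h ![u, v, w, x] fun a b hab => ?_
  fin_cases a <;> fin_cases b <;> first
    | exact absurd rfl hab
    | assumption
    | exact SimpleGraph.Adj.symm (by assumption)

/-- An exact family without zero members. -/
def Good (G : SimpleGraph V) (n : ℕ) : Prop :=
  ∃ (I : Type) (_ : Fintype I) (F : I → Sym2 V → Z2), Fam G F ∧ (∀ e, ∑ i, F i e = 0) ∧
    (∀ i, ∃ e, F i e ≠ 0) ∧ Fintype.card I = n

lemma good_ex (hf : StmtFAM) (h : Mac G) : ∃ n, Good G n := by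
  classical
  obtain ⟨I, _, F, hF, hex⟩ := hf.exact V G h
  have hz : ∀ i, ¬(∃ e, F i e ≠ 0) → ∀ e, F i e = 0 := fun i hi e => by
    by_contra hn
    exact hi ⟨e, hn⟩
  refine ⟨_, {i // ∃ e, F i e ≠ 0}, inferInstance, fun i => F i.1, ⟨fun i => hF.sub i.1,
    fun i => hF.even i.1, fun e => ?_, fun a ha => hF.span a fun i => ?_⟩, fun e => ?_,
    fun i => i.2, rfl⟩
  · exact (Set.ncard_le_ncard_of_injOn Subtype.val (fun i hi => hi)
      Subtype.val_injective.injOn (Set.toFinite _)).trans (hF.two e)
  · by_cases hi : ∃ e, F i e ≠ 0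
    · exact ha ⟨i, hi⟩
    · simp [hz i hi]
  · have h1 := Fintype.sum_subtype_add_sum_subtype (fun i => ∃ e, F i e ≠ 0) fun i => F i e
    rw [Finset.sum_eq_zero (s := univ) (f := fun i : {i // ¬∃ e, F i e ≠ 0} => F i.1 e)
      fun i _ => hz i.1 i.2 e, add_zero, hex e] at h1
    exact h1

lemma good_le {n : ℕ} (h : Good G n) : n ≤ 2 * Fintype.card (Sym2 V) := by
  classical
  obtain ⟨I, _, F, hF, -, hnz, rfl⟩ := h
  choose f hf using hnz
  refine Finset.card_le_mul_card_image_of_maps_to (s := univ) (t := univ) (f := f)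
    (fun _ _ => Finset.mem_univ _) 2 fun e _ => ?_
  rw [← Set.ncard_coe_finset]
  refine (Set.ncard_le_ncard (fun i hi => ?_) (Set.toFinite _)).trans (hF.two e)
  have h1 : f i = e := by simpa using hi
  exact h1 ▸ hf i

/-- Splitting a member. -/
lemma split (hF : Fam G F) (hex : ∀ e, ∑ i, F i e = 0) (hnz : ∀ i, ∃ e, F i e ≠ 0) (i : I)
    (t : Sym2 V → Z2) (h0 : ∃ e, t e ≠ 0) (h1 : ∀ e, t e ≠ 0 → F i e ≠ 0)
    (h2 : ∀ v, ∑ w, t s(v, w) = 0) (h3 : F i ≠ t) : Good G (Fintype.card I + 1) := by
  classical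
  let F' : Option I → Sym2 V → Z2 := fun o e => o.elim (t e) fun j =>
    F j e + if j = i then t e else 0
  have hne : ∀ j e, F' (some j) e ≠ 0 → F j e ≠ 0 := by
    intro j e hj hz
    apply hj
    by_cases hji : j = i
    · subst hji
      have : t e = 0 := by
        by_contra hn
        exact h1 e hn hz
      simp [F', hz, this]
    · simp [F', hz, hji]
  refine ⟨Option I, inferInstance, F', ⟨?_, ?_, fun e => ?_, fun a ha => hF.span a fun j => ?_⟩,
    fun e => ?_, ?_, Fintype.card_option⟩
  · rintro (_ | j) e he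
    · exact hF.sub i e (h1 e he)
    · exact hF.sub j e (hne j e he)
  · rintro (_ | j) v
    · exact h2 v
    · simp only [F', Option.elim_some, Finset.sum_add_distrib, hF.even j v, zero_add]
      by_cases hji : j = i <;> simp [hji, h2 v]
  · refine (Set.ncard_le_ncard_of_injOn (fun o : Option I => o.getD i) ?_ ?_
      (Set.toFinite _)).trans (hF.two e)
    · rintro (_ | j) hj
      · exact h1 e hj
      · exact hne j e hj
    · have key : F' none e ≠ 0 → F' (some i) e ≠ 0 → False := fun ha hb =>
        hb (by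
          simp only [F', Option.elim_some, if_true]
          exact z2_eq (h1 e ha) ha)
      rintro (_ | j) hj (_ | j') hj' hjj
      · rfl
      · obtain rfl : i = j' := hjj
        exact (key hj hj').elim
      · obtain rfl : j = i := hjj
        exact (key hj' hj).elim
      · exact congrArg some hjj
  · have ha0 := ha none
    have ha1 := ha (some j)
    simp only [F', Option.elim_some, Option.elim_none, add_mul, Finset.sum_add_distrib] at ha0 ha1
    by_cases hji : j = i
    · simp only [hji, if_true] at ha1 ⊢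
      rwa [ha0, add_zero] at ha1
    · simpa [hji] using ha1
  · rw [Fintype.sum_option]
    simp only [F', Option.elim_some, Option.elim_none, Finset.sum_add_distrib, hex e,
      Finset.sum_ite_eq', Finset.mem_univ, if_true, zero_add]
    exact z2_add _
  · rintro (_ | j)
    · exact h0
    · by_cases hji : j = i
      · subst hji
        by_contra hn
        push Not at hn
        refine h3 (funext fun e => z2_eq' ?_)
        simpa [F'] using hn e
      · obtain ⟨e, he⟩ := hnz j
        exact ⟨e, by simpa [F', hji] using he⟩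

omit [Fintype V] in
lemma tri_ne {u v w : V} (h : T G u v w) (e : Sym2 V) :
    ind u v e + ind u w e + ind v w e ≠ 0 ↔ e = s(u, v) ∨ e = s(u, w) ∨ e = s(v, w) := by
  have n1 := h.1.ne
  have n2 := h.2.1.ne
  have n3 := h.2.2.ne
  have e1 : s(u, v) ≠ s(u, w) := by simp [n2, n3]
  have e2 : s(u, v) ≠ s(v, w) := by simp [n1, n2]
  have e3 : s(u, w) ≠ s(v, w) := by simp [n1, n2]
  unfold ind
  constructor
  · intro h0
    by_contra hn
    push Not at hn
    simp [hn.1, hn.2.1, hn.2.2] at h0
  · rintro (rfl | rfl | rfl)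
    · simp [e1, e2]
    · simp [e1.symm, e3]
    · simp [e2.symm, e3.symm]

end TF

theorem tfam : StmtTFAM := by
  intro hm hf hg V _ _ G h
  refine ⟨TF.d4 h, TF.nocut hg h, ?_⟩
  obtain ⟨n, ⟨I, _, F, hF, hex, hnz, hn⟩, hmax⟩ :=
    Set.Finite.exists_maximal (s := {n | TF.Good G n})
      ((Set.finite_Iic (2 * Fintype.card (Sym2 V))).subset fun n hn => TF.good_le hn)
      (TF.good_ex hf h.mac)
  refine ⟨I, inferInstance, F, hF, fun i => ?_, fun e he => ?_⟩
  · obtain ⟨u, v, w, ht, a1, a2, a3⟩ := TF.has_tri hm hf hg h hF (hnz i)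
    refine ⟨u, v, w, ht, fun e => ?_⟩
    have key : F i = fun e => TF.ind u v e + TF.ind u w e + TF.ind v w e := by
      by_contra hne
      have h1 := TF.split hF hex hnz i _ ⟨s(u, v), (TF.tri_ne ht _).2 (Or.inl rfl)⟩
        (fun e he => by
          rcases (TF.tri_ne ht e).1 he with rfl | rfl | rfl
          exacts [a1, a2, a3])
        (fun y => by
          rw [Finset.sum_add_distrib, Finset.sum_add_distrib, TF.sum_ind ht.1.ne,
            TF.sum_ind ht.2.1.ne, TF.sum_ind ht.2.2.ne]
          linear_combination TF.z2_add (TF.chi u y) + TF.z2_add (TF.chi v y) +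
            TF.z2_add (TF.chi w y)) hne
      have h2 := hmax h1 (by omega)
      omega
    rw [key]
    exact TF.tri_ne ht e
  · induction e using Sym2.ind with
    | _ v u =>
    have hvu : G.Adj v u := he
    have h1 : ({u} : Set V).ncard < (G.neighborSet v).ncard := by
      have := TF.d4 h v
      unfold dg at this
      rw [Set.ncard_singleton]
      omega
    obtain ⟨w, hw, hwu⟩ := Set.exists_mem_notMem_of_ncard_lt_ncard h1 (Set.toFinite _)
    refine hf.bridge V G I F hF hex u v w hvu hw (fun e => hwu e.symm) ?_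
    by_contra hn
    exact TF.nocut hg h v ⟨u, w, hvu, hw, hn⟩

end Pool.Agent.MP_31805c_co.H47
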