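import Pool.Agent.MP_31805c_co.H47.SpecC

/-! The four colour theorem: soundness of the case analysis. -/

namespace Pool.Agent.MP_31805c_co.H47

open Finset

namespace Tre

lemma frc {α : Type} (f : ℕ → α) (x : ℕ) : frcN f x = f x := by cases x <;> rfl

lemma brec {a c : Bool} (h : (Bool.rec false a c : Bool) = true) : c = true ∧ a = true := by
  cases c
  · exact absurd h (by simp)
  · exact ⟨rfl, h⟩

lemma tb25 (k : ℕ) : (33554431 : ℕ).testBit k = decide (k < 25) :=
  Nat.testBit_two_pow_sub_one 25 k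

lemma dgt_bit (U e k : ℕ) : (dgt U e).testBit k = (U.testBit (25 * e + k) && decide (k < 25)) := by
  rw [dgt, testBit_land, testBit_shr, tb25]; rfl

lemma hi_bit {v k : ℕ} (hv : v < 2 ^ 25) (hk : 25 ≤ k) : v.testBit k = false :=
  Nat.testBit_lt_two_pow (hv.trans_le (Nat.pow_le_pow_right (by norm_num) hk))

lemma dgt_setd (U e e' : ℕ) {v : ℕ} (hv : v < 2 ^ 25) :
    dgt (setd U e v) e' = if e' = e then v else dgt U e' := by
  refine Nat.eq_of_testBit_eq fun k => ?_
  have m : Nat.mul 25 e = 25 * e := rfl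
  rw [dgt_bit, setd, testBit_xor, testBit_shl, testBit_xor, dgt_bit, m]
  split_ifs with h
  · subst h
    rw [Nat.add_sub_cancel_left]
    by_cases hk : k < 25
    · simp [hk]
    · simp [hk, hi_bit hv (not_lt.1 hk)]
  · rw [dgt_bit]
    by_cases hk : k < 25
    · by_cases h2 : 25 * e ≤ 25 * e' + k
      · have h3 : 25 ≤ 25 * e' + k - 25 * e := by omega
        simp [hi_bit hv h3, not_lt.2 h3]
      · simp [h2]
    · simp [hk]

lemma dgt_repU {u : ℕ} (hu : u < 2 ^ 25) (n e : ℕ) (he : e < n) : dgt (repU n u) e = u := by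
  induction n generalizing e with
  | zero => omega
  | succ n ih =>
    have r : repU (n + 1) u = Nat.lor u (Nat.shiftLeft (repU n u) 25) := rfl
    refine Nat.eq_of_testBit_eq fun k => ?_
    rw [dgt_bit, r, testBit_lor, testBit_shl]
    rcases e with _ | e
    · by_cases hk : k < 25
      · simp [hk, not_le.2 hk]
      · simp [hk, hi_bit hu (not_lt.1 hk)]
    · have h1 : 25 ≤ 25 * (e + 1) + k := by omega
      have h2 : 25 * (e + 1) + k - 25 = 25 * e + k := by omega
      have h3 := congrArg (fun z => Nat.testBit z k) (ih e (by omega))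
      simp only [dgt_bit] at h3
      rw [hi_bit hu h1, h2, ← h3]
      simp [h1]

lemma ival_lt (X : Cx) (i : ℕ) : ival X i < 2 ^ 25 :=
  Nat.lt_succ_of_le (Nat.and_le_right (n := item X i) (m := 33554431))

lemma split31 (m k : ℕ) (hk : k < 5) : m.testBit k = false ∨ (Nat.xor 31 m).testBit k = false := by
  have h : (31 : ℕ).testBit k = true := by
    have := Nat.testBit_two_pow_sub_one 5 k
    simpa [hk] using this
  rw [testBit_xor, h]
  cases m.testBit k <;> simp

variable {V : Type} [Fintype V] {G : SimpleGraph V} {X : Cx} {n : ℕ} {φ : Fl V}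

/-- the bound for the edge number `e` -/
def Bd (G : SimpleGraph V) (X : Cx) (φ : Fl V) (e v : ℕ) : Prop :=
  eIn G X.R ((rot G)^[c0 X.d] ((rot G)^[e] φ)) + 2 * X.O ≤
    v + eOut G X.R ((rot G)^[c0 X.d] ((rot G)^[e] φ))

/-- the invariant of the state -/
structure Inv (G : SimpleGraph V) (X : Cx) (φ : Fl V) (D U S : ℕ) : Prop where
  fit : Fits G φ D
  sum : S = ∑ e ∈ range (ne0 X.d), dgt U e
  dig : ∀ e < ne0 X.d, 0 < dgt U e ∧ (dgt U e = inf ∨ Bd G X φ e (dgt U e))

lemma use (g : Geo G) (hF : ∀ j < n, Fact G X j) (hd : Hd G X.R X.K X.d φ) {D e i : ℕ}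
    (hD : Fits G φ D) (hi : i < n) (hs : sub (imask X i) (Nat.shiftRight D (Nat.mul 25 e)) = true) :
    0 < ival X i ∧ Bd G X φ e (ival X i) :=
  hF i hi _ (g.hd_rot _ _ _ _ e hd) (g.fits_sub _ _ _ hs (g.fits_shr _ _ e hD))

lemma cite_no (g : Geo G) (hF : ∀ j < n, Fact G X j) (hd : Hd G X.R X.K X.d φ) {D c : ℕ}
    (hD : Fits G φ D) (h : cite X n D c = true) : False := by
  rw [cite, frc] at h
  obtain ⟨h1, h2⟩ := brec h
  rw [isNg, Bool.and_eq_true] at h2
  have := (use g hF hd hD (Nat.blt_eq.mp h1) h2.2).1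
  rw [Nat.eq_of_beq_eq_true h2.1] at this
  exact absurd this (lt_irrefl 0)

lemma excl_fit (g : Geo G) (hd : Hd G X.R X.K X.d φ) {D m p : ℕ} (hD : Fits G φ D) (hm : m < 32) :
    Fits G φ (excl X.d D m (Nat.mul 5 p)) ∨ Fits G φ (excl X.d D (Nat.xor 31 m) (Nat.mul 5 p)) := by
  have key : ∀ m < 32, m.testBit (cls (dg G (pos G φ p))) = false →
      Fits G φ (excl X.d D m (Nat.mul 5 p)) := fun m hm h =>
    (g.fits_or _ _ _).2 ⟨hD, g.fits_dbl hd.1 _ _ (fun h0 => (hd.2.2 h0).1)
      ((g.fits_shl φ m p hm).2 h)⟩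
  have hc : cls (dg G (pos G φ p)) < 5 := by unfold cls; omega
  rcases split31 m _ hc with h | h
  · exact Or.inl (key m hm h)
  · exact Or.inr (key _ (Nat.xor_lt_two_pow (n := 5) (by norm_num) hm) h)

lemma ne0_pos (d : ℕ) : 0 < ne0 d := by
  rcases d with _ | d
  · exact Nat.one_pos
  · exact Nat.succ_pos d

lemma Inv.le {D U S e : ℕ} (I : Inv G X φ D U S) (he : e < ne0 X.d) : dgt U e ≤ S := by
  rw [I.sum]
  exact Finset.single_le_sum (f := fun e => dgt U e) (fun _ _ => Nat.zero_le _) (mem_range.2 he)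

lemma opB_ok (hS : Sums G) (hl : lim X < inf) (hd : Hd G X.R X.K X.d φ) {D U S lv : ℕ}
    (I : Inv G X φ D U S) (h : opB X lv S = true) : 0 < lv ∧ Bd G X φ 0 lv := by
  rw [opB, Bool.or_eq_true, Bool.and_eq_true] at h
  have h0 := I.dig 0 (ne0_pos _)
  have l0 := I.le (ne0_pos X.d)
  rcases h with h | ⟨h1, h2⟩
  · exfalso
    have h1 : S + 60 * X.K ≤ lim X := Nat.le_of_ble_eq_true h
    have h2 : lim X = (2 * X.O + 10 * X.K) * X.d := rfl
    by_cases hz : X.d = 0
    · rw [hz] at h2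
      omega
    obtain ⟨e1, e2⟩ := hd.2.2 hz
    have eN : ne0 X.d = X.d := by
      obtain ⟨k, hk⟩ := Nat.exists_eq_succ_of_ne_zero hz
      rw [hk]; rfl
    have eC : c0 X.d = 0 := by
      obtain ⟨k, hk⟩ := Nat.exists_eq_succ_of_ne_zero hz
      rw [hk]; rfl
    obtain ⟨s1, s2⟩ := hS X.R φ hd.1
    have b : ∑ e ∈ range X.d, (eIn G X.R ((rot G)^[e] φ) + 2 * X.O) ≤
        ∑ e ∈ range X.d, (dgt U e + eOut G X.R ((rot G)^[e] φ)) := by
      refine Finset.sum_le_sum fun e he => ?_
      have he' : e < ne0 X.d := by rw [eN]; exact mem_range.1 he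
      rcases (I.dig e he').2 with c | c
      · have := I.le he'
        omega
      · rw [Bd, eC] at c
        exact c
    have s3 := I.sum
    rw [eN] at s3
    rw [e1] at s1 s2
    rw [Finset.sum_add_distrib, Finset.sum_add_distrib, ← s1, ← s2, ← s3, Finset.sum_const,
      card_range, smul_eq_mul] at b
    rw [Chg, e1] at e2
    have h3 : (2 * X.O + 10 * X.K) * X.d = X.d * (2 * X.O) + 10 * X.K * X.d := by ring
    omega
  · have a1 : S ≤ lv := Nat.le_of_ble_eq_true h1
    have a2 : lv < inf := Nat.blt_eq.mp h2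
    refine ⟨by omega, ?_⟩
    rcases h0.2 with c | c
    · omega
    · unfold Bd at c ⊢
      omega

lemma Inv.upd {D U S e v : ℕ} (I : Inv G X φ D U S) (he : e < ne0 X.d) (hv : v < 2 ^ 25)
    (h : 0 < v ∧ Bd G X φ e v) : Inv G X φ D (setd U e v) (S + v - dgt U e) := by
  refine ⟨I.fit, ?_, fun e' he' => ?_⟩
  · have a := Finset.add_sum_erase (range (ne0 X.d)) (fun e => dgt U e) (mem_range.2 he)
    have b := Finset.add_sum_erase (range (ne0 X.d)) (fun e' => dgt (setd U e v) e')
      (mem_range.2 he)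
    have c : ∑ x ∈ (range (ne0 X.d)).erase e, dgt (setd U e v) x =
        ∑ x ∈ (range (ne0 X.d)).erase e, dgt U x :=
      Finset.sum_congr rfl fun x hx => by rw [dgt_setd U e x hv, if_neg (ne_of_mem_erase hx)]
    have s := I.sum
    simp only [dgt_setd U e e hv, if_true] at a b
    omega
  · rw [dgt_setd U e e' hv]
    split_ifs with c
    · subst c
      exact ⟨h.1, Or.inr h.2⟩
    · exact I.dig e' he'

lemma main (g : Geo G) (hS : Sums G) (hl : lim X < inf) (hF : ∀ j < n, Fact G X j)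
    (hd : Hd G X.R X.K X.d φ) (lv fuel : ℕ) : ∀ D U S c, Inv G X φ D U S →
      chT X n lv fuel D U S c = true → 0 < lv ∧ Bd G X φ 0 lv := by
  induction fuel with
  | zero => intro D U S c _ h; exact absurd h Bool.false_ne_true
  | succ fuel ih =>
    intro D U S c I h
    have m32 : Nat.land (Nat.shiftRight c 8) 31 < 32 :=
      Nat.lt_succ_of_le (Nat.and_le_right (n := Nat.shiftRight c 8) (m := 31))
    change (Nat.rec _ _ (Nat.land c 3) : Bool) = true at h
    generalize Nat.land c 3 = t at h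
    rcases t with _ | _ | _ | t
    · change frcN _ _ = true at h
      rw [frc, opU] at h
      obtain ⟨h1, h2⟩ := brec h
      simp only [Bool.and_eq_true, Nat.blt_eq] at h1
      exact ih _ _ _ _ (I.upd h1.1.2 (ival_lt X _) (use g hF hd I.fit h1.1.1 h1.2)) h2
    · change opP _ _ _ _ _ _ _ _ _ = true at h
      obtain ⟨h1, h2⟩ := brec h
      rcases excl_fit g hd I.fit m32 with f | f
      · exact ih _ _ _ _ ⟨f, I.sum, I.dig⟩ h2
      · exact (cite_no g hF hd f h1).elim
    · change opS2 _ _ _ _ _ _ _ _ = true at h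
      obtain ⟨h1, h2⟩ := brec h
      rcases excl_fit g hd I.fit m32 with f | f
      · exact ih _ _ _ _ ⟨f, I.sum, I.dig⟩ h2
      · exact ih _ _ _ _ ⟨f, I.sum, I.dig⟩ h1
    · change (Nat.rec _ _ (Nat.land (Nat.shiftRight c 2) 1) : Bool) = true at h
      generalize Nat.land (Nat.shiftRight c 2) 1 = s at h
      rcases s with _ | s
      · exact (cite_no g hF hd I.fit h).elim
      · exact opB_ok hS hl hd I h

lemma tre2_ok (g : Geo G) (hS : Sums G) (hl : lim X < inf) (hF : ∀ j < n, Fact G X j)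
    (hd : Hd G X.R X.K X.d φ) (hf : Fits G φ (imask X n)) {c u : ℕ} (hu : u < 2 ^ 25)
    (h0 : ∀ e, 0 < u ∧ (u = inf ∨ Bd G X φ e u)) (h : tre2 X n c u = true) :
    0 < ival X n ∧ Bd G X φ 0 (ival X n) := by
  refine main g hS hl hF hd _ _ _ _ _ _ ⟨g.fits_dbl hd.1 _ _ (fun h0 => (hd.2.2 h0).1) hf, ?_,
    fun e he => ?_⟩ h
  · rw [Finset.sum_congr rfl fun e he => dgt_repU hu _ e (mem_range.1 he), Finset.sum_const,
      card_range, smul_eq_mul, mul_comm]
    rfl
  · rw [dgt_repU hu _ e he]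
    exact h0 e

end Tre

open Tre in
theorem treP : StmtTRE := by
  intro V _ G g hS X n c hl hF h φ hd hf
  rw [treK, tre1] at h
  generalize Nat.land c 262143 = k at h
  rcases k with _ | k
  · exact tre2_ok g hS hl hF hd hf (by decide) (fun _ => ⟨by decide, Or.inl rfl⟩) h
  · change (_ && _ && _) = true at h
    simp only [Bool.and_eq_true, Nat.blt_eq] at h
    refine tre2_ok g hS hl hF hd hf (ival_lt X _) (fun e => ?_) h.2
    have := hF _ h.1.1 _ (g.hd_rot _ _ _ _ e hd)
      (by rw [Nat.eq_of_beq_eq_true h.1.2]; exact g.fits0 _)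
    exact ⟨this.1, Or.inr this.2⟩

end Pool.Agent.MP_31805c_co.H47
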