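import Pool.Agent.MP_31805c_co.H47.SpecA

/-! Row TRI: in a minimal counterexample the members of the family are exactly the triangles. -/

namespace Pool.Agent.MP_31805c_co.H47

open Finset
open Pool.Agent.MP_31805c_co.H93 (Conn)

namespace TRI

variable {V I : Type} {G : SimpleGraph V} {F : I → Sym2 V → Z2}

/-- The member `i` is the triangle `u v w`. -/
def Mem (G : SimpleGraph V) (F : I → Sym2 V → Z2) (i : I) (u v w : V) : Prop :=
  T G u v w ∧ ∀ e, F i e ≠ 0 ↔ e = s(u, v) ∨ e = s(u, w) ∨ e = s(v, w)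

/-- The triangle `u v w` is a member. -/
def Face (G : SimpleGraph V) (F : I → Sym2 V → Z2) (u v w : V) : Prop := ∃ i, Mem G F i u v w

theorem z2_one {x : Z2} (h : x ≠ 0) : x = 1 := by
  revert x
  decide

theorem Mem.s12 {i : I} {u v w : V} (h : Mem G F i u v w) : Mem G F i v u w :=
  ⟨⟨h.1.1.symm, h.1.2.2, h.1.2.1⟩, fun e => by
    rw [h.2, Sym2.eq_swap (a := v) (b := u)]
    tauto⟩

theorem Mem.s23 {i : I} {u v w : V} (h : Mem G F i u v w) : Mem G F i u w v :=
  ⟨⟨h.1.2.1, h.1.1, h.1.2.2.symm⟩, fun e => by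
    rw [h.2, Sym2.eq_swap (a := w) (b := v)]
    tauto⟩

theorem Mem.ne {i : I} {u v w : V} (h : Mem G F i u v w) : F i s(u, v) ≠ 0 :=
  (h.2 _).2 (Or.inl rfl)

theorem Mem.third {i : I} {u v w z : V} (h : Mem G F i u v w) (hz : F i s(u, z) ≠ 0)
    (hv : z ≠ v) : z = w := by
  have h1 := h.1.1.ne
  have h2 := h.1.2.1.ne
  rcases (h.2 _).1 hz with e | e | e <;> rw [Sym2.eq_iff] at e <;> tauto

theorem Mem.uniq {i : I} {u v w z : V} (h : Mem G F i u v w) (h' : Mem G F i u v z) : z = w :=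
  h.third h'.s23.ne h'.1.2.2.ne'

theorem Mem.sum [Fintype V] [DecidableEq V] {i : I} {u v w : V} (h : Mem G F i u v w)
    (a : Sym2 V → Z2) : ∑ e, F i e * a e = a s(u, v) + a s(u, w) + a s(v, w) := by
  have h1 := h.1.1.ne
  have h2 := h.1.2.1.ne
  have h3 := h.1.2.2.ne
  have n1 : s(u, v) ≠ s(u, w) := by
    rw [Ne, Sym2.eq_iff]
    tauto
  have n2 : s(u, v) ≠ s(v, w) := by
    rw [Ne, Sym2.eq_iff]
    tauto
  have n3 : s(u, w) ≠ s(v, w) := by
    rw [Ne, Sym2.eq_iff]
    tauto
  rw [← Finset.sum_subset (Finset.subset_univ {s(u, v), s(u, w), s(v, w)}), Finset.sum_insert,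
    Finset.sum_pair n3, z2_one h.ne, z2_one h.s23.ne, z2_one h.s12.s23.ne, one_mul, one_mul,
    one_mul, add_assoc]
  · simp only [Finset.mem_insert, Finset.mem_singleton]
    tauto
  · intro e _ he
    simp only [Finset.mem_insert, Finset.mem_singleton] at he
    rw [not_not.1 (mt (h.2 e).1 he), zero_mul]

theorem sum_edge [Fintype V] [DecidableEq V] {a b : V} (hab : a ≠ b) (v : V) :
    ∑ w, (if s(v, w) = s(a, b) then (1 : Z2) else 0) =
      (if v = a then 1 else 0) + if v = b then 1 else 0 := by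
  by_cases h1 : v = a
  · subst h1
    rw [if_pos rfl, if_neg hab, add_zero, Finset.sum_eq_single b, if_pos rfl]
    · intro w _ hw
      rw [if_neg]
      rw [Sym2.eq_iff]
      tauto
    · simp
  · by_cases h2 : v = b
    · subst h2
      rw [if_pos rfl, if_neg h1, zero_add, Finset.sum_eq_single a, if_pos Sym2.eq_swap]
      · intro w _ hw
        rw [if_neg]
        rw [Sym2.eq_iff]
        tauto
      · simp
    · rw [if_neg h1, if_neg h2, add_zero]
      refine Finset.sum_eq_zero fun w _ => if_neg ?_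
      rw [Sym2.eq_iff]
      tauto

variable [Fintype V] [DecidableEq V] [Fintype I]

theorem mem_of_ne (hF : TFam G F) {i : I} {a b : V} (h : F i s(a, b) ≠ 0) :
    ∃ c, Mem G F i a b c := by
  obtain ⟨u, v, w, hm⟩ := hF.tri i
  have hm' : Mem G F i u v w := hm
  rcases (hm.2 _).1 h with e | e | e <;> rcases Sym2.eq_iff.1 e with ⟨rfl, rfl⟩ | ⟨rfl, rfl⟩
  · exact ⟨_, hm'⟩
  · exact ⟨_, hm'.s12⟩
  · exact ⟨_, hm'.s23⟩
  · exact ⟨_, hm'.s23.s12⟩
  · exact ⟨_, hm'.s12.s23⟩
  · exact ⟨_, hm'.s12.s23.s12⟩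

theorem two_only (hF : TFam G F) {e : Sym2 V} {k k' m : I} (hk : k ≠ k') (h1 : F k e ≠ 0)
    (h2 : F k' e ≠ 0) (h3 : F m e ≠ 0) : m = k ∨ m = k' := by
  obtain ⟨i, j, hij, hs⟩ := Set.ncard_eq_two.1 (hF.ex2 e (hF.sub k e h1))
  have h : ∀ x, F x e ≠ 0 → x = i ∨ x = j := fun x hx => by
    have : x ∈ ({i, j} : Set I) := hs ▸ hx
    exact this
  rcases h k h1 with rfl | rfl <;> rcases h k' h2 with rfl | rfl <;> rcases h m h3 with rfl | rfl <;>
    tauto

theorem sum_two (hF : TFam G F) {e : Sym2 V} {k k' : I} (hk : k ≠ k') (h1 : F k e ≠ 0)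
    (h2 : F k' e ≠ 0) (σ : I → Z2) : ∑ i, σ i * F i e = σ k + σ k' := by
  classical
  rw [← Finset.sum_subset (Finset.subset_univ {k, k'}), Finset.sum_pair hk, z2_one h1, z2_one h2,
    mul_one, mul_one]
  intro m _ hm
  simp only [Finset.mem_insert, Finset.mem_singleton] at hm
  rw [not_not.1 (mt (two_only hF hk h1 h2) hm), mul_zero]

theorem ex_two (hF : TFam G F) {u v : V} (h : G.Adj u v) :
    ∃ i j w w', i ≠ j ∧ Mem G F i u v w ∧ Mem G F j u v w' := by
  obtain ⟨i, j, hij, hs⟩ := Set.ncard_eq_two.1 (hF.ex2 s(u, v) h)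
  have hi : i ∈ {i | F i s(u, v) ≠ 0} := hs ▸ Set.mem_insert _ _
  have hj : j ∈ {i | F i s(u, v) ≠ 0} := hs ▸ Set.mem_insert_of_mem _ rfl
  obtain ⟨w, hw⟩ := mem_of_ne hF hi
  obtain ⟨w', hw'⟩ := mem_of_ne hF hj
  exact ⟨i, j, w, w', hij, hw, hw'⟩

/-- The members at a vertex connect its neighbours. -/
theorem flink (hF : TFam G F) {v : V} (hc : ¬ Cut G v) {a b : V} (ha : G.Adj v a)
    (hb : G.Adj v b) : Relation.ReflTransGen (Face G F v) a b := by
  classical
  set A : Set V := {x | Relation.ReflTransGen (Face G F v) a x} with hA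
  set α : Sym2 V → Z2 := fun e => if ∃ x ∈ A, e = s(v, x) then 1 else 0 with hα
  have h0 : ∀ x y, x ≠ v → y ≠ v → α s(x, y) = 0 := by
    intro x y hx hy
    refine if_neg ?_
    rintro ⟨z, -, e⟩
    rw [Sym2.eq_iff] at e
    tauto
  have h1 : ∀ x, x ≠ v → α s(v, x) = if x ∈ A then 1 else 0 := by
    intro x hx
    refine if_congr ⟨?_, fun h => ⟨x, h, rfl⟩⟩ rfl rfl
    rintro ⟨z, hz, e⟩
    rcases Sym2.eq_iff.1 e with ⟨-, rfl⟩ | ⟨-, e⟩
    · exact hz
    · exact (hx e).elim
  have h2 : ∀ i q r, Mem G F i v q r → ∑ e, F i e * α e = 0 := by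
    intro i q r hm
    have hq := hm.1.1.ne'
    have hr := hm.1.2.1.ne'
    have hqr : q ∈ A ↔ r ∈ A :=
      ⟨fun h => Relation.ReflTransGen.tail h ⟨i, hm⟩, fun h =>
        Relation.ReflTransGen.tail h ⟨i, hm.s23⟩⟩
    rw [hm.sum, h1 q hq, h1 r hr, h0 q r hq hr, add_zero, if_congr hqr rfl rfl]
    exact CharTwo.add_self_eq_zero _
  obtain ⟨p, hp⟩ := hF.span α fun i => by
    obtain ⟨x, y, z, hm⟩ := hF.tri i
    have hm' : Mem G F i x y z := hm
    by_cases hx : x = v
    · exact h2 i y z (hx ▸ hm')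
    by_cases hy : y = v
    · exact h2 i x z (hy ▸ hm'.s12)
    by_cases hz : z = v
    · exact h2 i x y (hz ▸ hm'.s23.s12)
    rw [hm'.sum, h0 x y hx hy, h0 x z hx hz, h0 y z hy hz, add_zero, add_zero]
  have h3 : ∀ x y, Conn G {v}ᶜ x y → p x = p y := by
    intro x y h
    induction h with
    | refl => rfl
    | tail _ h ih =>
      have := hp _ _ h.1
      rw [h0 _ _ h.2.1 h.2.2] at this
      rw [ih]
      exact CharTwo.add_eq_zero.1 this.symm
  have h4 : Conn G {v}ᶜ a b := by
    by_contra h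
    exact hc ⟨a, b, ha, hb, h⟩
  have h5 := hp _ _ ha
  have h6 := hp _ _ hb
  rw [← h3 a b h4, ← h5, h1 a ha.ne', h1 b hb.ne', if_pos (show a ∈ A from .refl)] at h6
  by_contra h
  rw [if_neg (show b ∉ A from h)] at h6
  exact zero_ne_one h6

/-- A triangle is a member at most once. -/
theorem mem_inj (hF : TFam G F) (hc : ∀ v, ¬ Cut G v) (hd : ∀ v, 4 ≤ dg G v) {i j : I}
    {u v w : V} (hi : Mem G F i u v w) (hj : Mem G F j u v w) : i = j := by
  by_contra hij
  have h1 : ∀ x, Relation.ReflTransGen (Face G F u) v x → x = v ∨ x = w := by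
    intro x hx
    induction hx with
    | refl => exact Or.inl rfl
    | tail _ h ih =>
      obtain ⟨k, hk⟩ := h
      rcases ih with rfl | rfl
      · rcases two_only hF hij hi.ne hj.ne hk.ne with rfl | rfl
        · exact Or.inr (hi.uniq hk)
        · exact Or.inr (hj.uniq hk)
      · rcases two_only hF hij hi.s23.ne hj.s23.ne hk.ne with rfl | rfl
        · exact Or.inl (hi.s23.uniq hk)
        · exact Or.inl (hj.s23.uniq hk)
  have h2 : G.neighborSet u ⊆ {v, w} := fun x hx => h1 x (flink hF (hc u) hi.1.1 hx)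
  have h3 := (Set.ncard_le_ncard h2).trans (Set.ncard_insert_le v {w})
  have h4 := hd u
  rw [Set.ncard_singleton] at h3
  unfold dg at h4
  omega

/-- Every triangle is a member. -/
theorem face_of_tri (hfam : StmtFAM) (hglue : StmtGLUE) (hM : MinCE G) (hF : TFam G F)
    (hc : ∀ v, ¬ Cut G v) (hd : ∀ v, 4 ≤ dg G v) {x y z : V} (ht : T G x y z) :
    Face G F x y z := by
  classical
  by_contra hn
  have nxy := ht.1.ne
  have nxz := ht.2.1.ne
  have nyz := ht.2.2.ne
  set C : Sym2 V → Z2 := fun e => (if e = s(x, y) then 1 else 0) +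
    (if e = s(x, z) then 1 else 0) + if e = s(y, z) then 1 else 0 with hC
  obtain ⟨σ, hσ⟩ := hfam.prim V G I F hF.toFam C (fun e he => by
      by_contra h
      refine he ?_
      simp only [hC]
      rw [if_neg, if_neg, if_neg, add_zero, add_zero]
      · rintro rfl
        exact h ht.2.2
      · rintro rfl
        exact h ht.2.1
      · rintro rfl
        exact h ht.1)
    (fun v => by
      simp only [hC]
      rw [Finset.sum_add_distrib, Finset.sum_add_distrib, sum_edge nxy, sum_edge nxz, sum_edge nyz]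
      generalize (if v = x then (1 : Z2) else 0) = a
      generalize (if v = y then (1 : Z2) else 0) = b
      generalize (if v = z then (1 : Z2) else 0) = c
      revert a b c
      decide)
  set Q : Set V := {x, y, z} with hQ
  have hC0 : ∀ v a, v ∉ Q → C s(v, a) = 0 := by
    intro v a hv
    simp only [hQ, Set.mem_insert_iff, Set.mem_singleton_iff, not_or] at hv
    simp only [hC]
    rw [if_neg, if_neg, if_neg, add_zero, add_zero] <;>
    · rw [Sym2.eq_iff]
      tauto
  have hedge : ∀ v a k k', v ∉ Q → F k s(v, a) ≠ 0 → F k' s(v, a) ≠ 0 → σ k = σ k' := by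
    intro v a k k' hv h1 h2
    by_cases hk : k = k'
    · rw [hk]
    · have := hσ s(v, a)
      rw [hC0 v a hv, sum_two hF hk h1 h2] at this
      exact CharTwo.add_eq_zero.1 this.symm
  have hside : ∀ v a b k k', v ∉ Q → F k s(v, a) ≠ 0 → F k' s(v, b) ≠ 0 → σ k = σ k' := by
    intro v a b k k' hv h1 h2
    have h : Relation.ReflTransGen (Face G F v) a b :=
      flink hF (hc v) (hF.sub k _ h1) (hF.sub k' _ h2)
    induction h generalizing k' with
    | refl => exact hedge v a k k' hv h1 h2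
    | tail _ h ih =>
      obtain ⟨m, hm⟩ := h
      exact (ih m hm.ne).trans (hedge v _ m k' hv hm.s23.ne h2)
  set S : Z2 → Set V := fun t => {v | v ∈ Q ∨ ∃ k a, F k s(v, a) ≠ 0 ∧ σ k = t} with hS
  have hcol : ∀ t w k a, w ∉ Q → F k s(w, a) ≠ 0 → σ k ≠ t → ∃ c, Col G (S t) c := by
    intro t w k a hw hk hne
    obtain ⟨c, -, h⟩ := hM.small (S t) ⊥ bot_le (Or.inl fun h => by
      have : w ∈ S t := h ▸ Set.mem_univ w
      rcases this with h1 | ⟨k', a', h1, h2⟩
      · exact hw h1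
      · exact hne ((hside w a a' k k' hw hk h1).trans h2))
    exact ⟨c, fun u v hu hv huv => h u v hu hv huv fun hr =>
      huv.ne (SimpleGraph.reachable_bot.1 hr)⟩
  obtain ⟨i, j, w, w', hij, hi, hj⟩ := ex_two hF ht.1
  have hout : ∀ k w, Mem G F k x y w → w ∉ Q := by
    rintro k w hk (rfl | rfl | rfl)
    · exact hk.1.2.1.ne rfl
    · exact hk.1.2.2.ne rfl
    · exact hn ⟨k, hk⟩
  have hsum : σ i + σ j = 1 := by
    rw [← sum_two hF hij hi.ne hj.ne, ← hσ]
    simp only [hC]
    rw [if_pos trivial, if_neg, if_neg, add_zero, add_zero] <;>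
    · rw [Sym2.eq_iff]
      tauto
  have hall : ∀ t, ∃ c, Col G (S t) c := by
    intro t
    by_cases h : σ i = t
    · refine hcol t w' j x (hout j w' hj) hj.s23.s12.ne fun h' => ?_
      rw [h, h', CharTwo.add_self_eq_zero] at hsum
      exact zero_ne_one hsum
    · exact hcol t w i x (hout i w hi) hi.s23.s12.ne h
  obtain ⟨c0, h0⟩ := hall 0
  obtain ⟨c1, h1⟩ := hall 1
  refine (hglue V G (S 0) (S 1) c0 c1 ?_ ?_ ?_ h0 h1).elim hM.ncol
  · refine Set.eq_univ_of_forall fun v => ?_
    obtain ⟨a, ha⟩ : (G.neighborSet v).Nonempty := by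
      rw [← Set.ncard_pos]
      have := hd v
      unfold dg at this
      omega
    obtain ⟨k, -, b, -, -, hk, -⟩ := ex_two hF (show G.Adj v a from ha)
    by_cases h : σ k = 0
    · exact Or.inl (Or.inr ⟨k, a, hk.ne, h⟩)
    · exact Or.inr (Or.inr ⟨k, a, hk.ne, z2_one h⟩)
  · rintro u (hu | ⟨k, a, h2, h3⟩) v hv huv
    · exact Or.inl (Or.inl hu)
    · by_cases hu : u ∈ Q
      · exact Or.inl (Or.inl hu)
      · obtain ⟨m, -, b, -, -, hm, -⟩ := ex_two hF huv
        exact Or.inr (Or.inr ⟨m, u, hm.s12.ne, (hside u v a m k hu hm.ne h2).trans h3⟩)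
  · have hsub : S 0 ∩ S 1 ⊆ Q := by
      rintro v ⟨h2 | ⟨k, a, h2, h3⟩, h4 | ⟨k', a', h4, h5⟩⟩
      · exact h2
      · exact h2
      · exact h4
      · by_contra hv
        have := hside v a a' k k' hv h2 h4
        rw [h3, h5] at this
        exact zero_ne_one this
    refine SimpleGraph.IsClique.subset hsub ?_
    rintro a (rfl | rfl | rfl) b (rfl | rfl | rfl) hab
    · exact (hab rfl).elim
    · exact ht.1
    · exact ht.2.1
    · exact ht.1.symm
    · exact (hab rfl).elim
    · exact ht.2.2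
    · exact ht.2.1.symm
    · exact ht.2.2.symm
    · exact (hab rfl).elim

end TRI

open TRI in
theorem tri : StmtTRI := by
  classical
  intro hfam hglue V _ _ G I _ F hM hd hc hF
  have hface : ∀ {x y z : V}, T G x y z → Face G F x y z :=
    fun ht => face_of_tri hfam hglue hM hF hc hd ht
  refine ⟨hM.ncol, hM.small, hd, fun u v huv => ?_, fun v a b ha hb => ?_, fun a ha => ?_,
    fun C hC hE => ?_, ?_⟩
  · obtain ⟨i, j, w, w', hij, hi, hj⟩ := ex_two hF huv
    have hw : w ≠ w' := by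
      rintro rfl
      exact hij (mem_inj hF hc hd hi hj)
    rw [Set.ncard_eq_two]
    refine ⟨w, w', hw, Set.Subset.antisymm (fun z hz => ?_) ?_⟩
    · obtain ⟨k, hk⟩ := hface (show T G u v z from ⟨huv, hz.1, hz.2⟩)
      rcases two_only hF hij hi.ne hj.ne hk.ne with rfl | rfl
      · exact Or.inl (hi.uniq hk)
      · exact Or.inr (hj.uniq hk)
    · rintro z (rfl | rfl)
      · exact ⟨hi.1.2.1, hi.1.2.2⟩
      · exact ⟨hj.1.2.1, hj.1.2.2⟩
  · have h := flink hF (hc v) ha hb
    clear hb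
    induction h with
    | refl => exact Conn.refl _ _
    | tail _ h ih =>
      obtain ⟨k, hk⟩ := h
      exact ih.trans (Conn.adj hk.1.2.2 hk.1.1 hk.1.2.1)
  · refine hF.span a fun i => ?_
    obtain ⟨x, y, z, hm⟩ := hF.tri i
    rw [Mem.sum hm]
    exact ha x y z hm.1
  · obtain ⟨σ, hσ⟩ := hfam.prim V G I F hF.toFam C hC hE
    set τ : Finset V → Z2 := fun S =>
      ∑ i, if ∀ a ∈ S, ∀ b ∈ S, a ≠ b → F i s(a, b) ≠ 0 then σ i else 0 with hτ
    have h1 : ∀ k u v w, Mem G F k u v w → τ {u, v, w} = σ k := by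
      intro k u v w hk
      simp only [hτ]
      rw [Finset.sum_eq_single k, if_pos]
      · intro a ha b hb hab
        simp only [Finset.mem_insert, Finset.mem_singleton] at ha hb
        rcases ha with rfl | rfl | rfl <;> rcases hb with rfl | rfl | rfl
        · exact (hab rfl).elim
        · exact hk.ne
        · exact hk.s23.ne
        · exact hk.s12.ne
        · exact (hab rfl).elim
        · exact hk.s12.s23.ne
        · exact hk.s23.s12.ne
        · exact hk.s12.s23.s12.ne
        · exact (hab rfl).elim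
      · intro m _ hm
        refine if_neg fun h => hm ?_
        obtain ⟨z, hz⟩ := mem_of_ne hF (h u (by simp) v (by simp) hk.1.1.ne)
        have := hz.third (h u (by simp) w (by simp) hk.1.2.1.ne) hk.1.2.2.ne'
        exact mem_inj hF hc hd (this ▸ hz) hk
      · simp
    refine ⟨τ, fun u v w w' ht ht' hw => ?_⟩
    obtain ⟨k, hk⟩ := hface ht
    obtain ⟨k', hk'⟩ := hface ht'
    rw [h1 k u v w hk, h1 k' u v w' hk', hσ, sum_two hF _ hk.ne hk'.ne]
    rintro rfl
    exact hw (hk'.uniq hk)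
  · have hne : Nonempty V := by
      by_contra h
      exact hM.ncol (fun _ => 0) fun u => (h ⟨u⟩).elim
    obtain ⟨v⟩ := hne
    have h1 : dg G v ≤ Fintype.card V := by
      rw [dg, ← Nat.card_eq_fintype_card]
      exact Set.ncard_le_card _
    have h2 := hfam.euler V G hM.mac (by have := hd v; omega)
    have h3 : ∀ u, dg G u = G.degree u := fun u => by
      rw [dg, Set.ncard_eq_toFinset_card', ← SimpleGraph.card_neighborFinset_eq_degree,
        SimpleGraph.neighborFinset_def]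
    have h4 : G.edgeSet.ncard = G.edgeFinset.card := by
      rw [← SimpleGraph.coe_edgeFinset, Set.ncard_coe_finset]
    simp only [h3]
    rw [SimpleGraph.sum_degrees_eq_twice_card_edges]
    omega

end Pool.Agent.MP_31805c_co.H47
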