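import Pool.Agent.MP_31805c_co.H47.SpecC

/-!
Soundness of the decision trees for the charge along one edge.
-/

namespace Pool.Agent.MP_31805c_co.H47

namespace Tt

variable {V : Type} [Fintype V] {G : SimpleGraph V}

theorem cls_lt (g : ℕ) : cls g < 5 := by
  unfold cls
  omega

theorem bit31 {k : ℕ} (hk : k < 5) : (31 : ℕ).testBit k = true := by
  interval_cases k <;> rfl

theorem brec {α : Type} (a b : α) (c : Bool) :
    (Bool.rec a b c : α) = if c = true then b else a := by
  cases c <;> rfl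

omit [Fintype V] in
open Classical in
theorem wsum_cons (φ : Fl V) (e : ℕ × ℕ) (l : List (ℕ × ℕ)) :
    wsum G φ (e :: l) = (if Fits G φ e.1 then e.2 else 0) + wsum G φ l := by
  simp [wsum]

omit [Fintype V] in
theorem wsum_append (φ : Fl V) (l l' : List (ℕ × ℕ)) :
    wsum G φ (l ++ l') = wsum G φ l + wsum G φ l' := by
  simp [wsum]

theorem flt_cons (F P : ℕ) (e : ℕ × ℕ) (l : List (ℕ × ℕ)) :
    flt F P (e :: l) = Bool.rec (e :: flt F P l) (flt F P l) (sub F (Nat.lor e.1 P)) := rfl

theorem wsum_flt (hG : Geo G) {φ : Fl V} {F P : ℕ} (hF : ¬ Fits G φ F) (hP : Fits G φ P)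
    (l : List (ℕ × ℕ)) : wsum G φ (flt F P l) = wsum G φ l := by
  induction l with
  | nil => rfl
  | cons e l ih =>
    rw [flt_cons, brec]
    split_ifs with h
    · rw [wsum_cons, ih, if_neg, zero_add]
      intro he
      exact hF (hG.fits_sub φ _ _ h ((hG.fits_or φ _ _).2 ⟨he, hP⟩))
    · rw [wsum_cons, wsum_cons, ih]

omit [Fintype V] in
theorem wsum_le (φ : Fl V) (l : List (ℕ × ℕ)) : wsum G φ l ≤ sumA l := by
  induction l with
  | nil => exact le_rfl
  | cons e l ih =>
    have h : sumA (e :: l) = e.2 + sumA l := rfl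
    rw [wsum_cons, h]
    split_ifs <;> omega

theorem le_wsum (hG : Geo G) {φ : Fl V} {P : ℕ} (hP : Fits G φ P) (l : List (ℕ × ℕ)) :
    sumF P l ≤ wsum G φ l := by
  induction l with
  | nil => exact le_rfl
  | cons e l ih =>
    have h : sumF P (e :: l) = Bool.rec (sumF P l) (e.2 + sumF P l) (sub e.1 P) := rfl
    rw [wsum_cons, h, brec]
    by_cases hs : sub e.1 P = true
    · rw [if_pos hs, if_pos (hG.fits_sub φ _ _ hs hP)]
      omega
    · rw [if_neg hs]
      omega

theorem ng (hG : Geo G) {X : Cx} {φ : Fl V} (hd : Hd G X.R X.K X.d φ) {P e j : ℕ}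
    (hP : Fits G φ P) (hj : Fact G X j) (h : isNg X (dbl X.d P) e j = true) : False := by
  unfold isNg at h
  rw [Bool.and_eq_true, beq_true] at h
  have h1 := hG.fits_shr φ _ e (hG.fits_dbl hd.1 X.d P (fun h0 => (hd.2.2 h0).1) hP)
  have h2 := (hj _ (hG.hd_rot _ _ _ _ e hd) (hG.fits_sub _ _ _ h.2 h1)).1
  omega

theorem val (hG : Geo G) {φ : Fl V} {O w v P : ℕ} {i o : List (ℕ × ℕ)} (hP : Fits G φ P)
    (h : valOK O w P i o = true) (hw : w ≤ v) :
    0 < v ∧ wsum G φ i + O ≤ v + wsum G φ o := by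
  unfold valOK at h
  rw [Bool.and_eq_true, Nat.blt_eq, Nat.ble_eq, Nat.add_eq, Nat.add_eq] at h
  have h1 := wsum_le (G := G) φ i
  have h2 := le_wsum hG hP o
  omega

theorem main (hG : Geo G) {X : Cx} {φ : Fl V} {n v D O : ℕ} (hd : Hd G X.R X.K X.d φ)
    (hF : ∀ j < n, Fact G X j) (hn : X.n0 ≤ n) (hD : Fits G φ D) (t : TT) :
    ∀ P i o, Fits G φ P → okT X O t P i o = true → (bd n v D t = true ∨ t.hi ≤ v) →
      0 < v ∧ wsum G φ i + O ≤ v + wsum G φ o := by
  induction t with
  | dead j e =>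
    intro P i o hP h _
    have h' : (Nat.blt j X.n0 && isNg X (dbl X.d P) e j) = true := h
    rw [Bool.and_eq_true, Nat.blt_eq] at h'
    exact (ng hG hd hP (hF j (by omega)) h'.2).elim
  | val w =>
    intro P i o hP h hb
    refine val hG hP (w := w) h ?_
    rcases hb with hb | hb
    · exact Nat.le_of_ble_eq_true hb
    · exact hb
  | both w j e =>
    intro P i o hP h hb
    have h' : (isNg X (dbl X.d P) e j && valOK O w P i o) = true := h
    rw [Bool.and_eq_true] at h'
    by_cases hw : w ≤ v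
    · exact val hG hP h'.2 hw
    · rcases hb with hb | hb
      · have hb' : (Bool.rec (Nat.blt j n) true (Nat.ble w v) : Bool) = true := hb
        rw [brec, if_neg (by rwa [Nat.ble_eq]), Nat.blt_eq] at hb'
        exact (ng hG hd hP (hF j hb') h'.1).elim
      · exact absurd hb hw
  | node hi q a b l r ihl ihr =>
    intro P i o hP h hb
    have h' : (nodeOK hi q a b P l r &&
      okT X O l (Nat.lor P (Nat.shiftLeft b q))
        (flt (Nat.shiftLeft 31 q) (Nat.lor P (Nat.shiftLeft b q)) i)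
        (flt (Nat.shiftLeft 31 q) (Nat.lor P (Nat.shiftLeft b q)) o) &&
      okT X O r (Nat.lor P (Nat.shiftLeft a q))
        (flt (Nat.shiftLeft 31 q) (Nat.lor P (Nat.shiftLeft a q)) i)
        (flt (Nat.shiftLeft 31 q) (Nat.lor P (Nat.shiftLeft a q)) o)) = true := h
    unfold nodeOK at h'
    simp only [Bool.and_eq_true, Nat.blt_eq, Nat.ble_eq, beq_true] at h'
    obtain ⟨⟨⟨⟨⟨⟨⟨⟨hq, ha⟩, hb32⟩, hab⟩, hs⟩, hl⟩, hr⟩, okl⟩, okr⟩ := h'
    obtain ⟨p, rfl⟩ : 5 ∣ q := Nat.dvd_of_mod_eq_zero hq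
    have hk := sub_bit hs _ (bit31 (cls_lt (dg G (pos G φ p))))
    rw [testBit_lor, testBit_lor, hG.fits_at φ P p hP, Bool.false_or] at hk
    have hk2 := testBit_land a b (cls (dg G (pos G φ p)))
    rw [hab, Nat.zero_testBit] at hk2
    have hDk := hG.fits_at φ D p hD
    have hb' : hi ≤ v ∨ ((sub a (Nat.shiftRight D (5 * p)) = true ∨ bd n v D l = true) ∧
        (sub b (Nat.shiftRight D (5 * p)) = true ∨ bd n v D r = true)) := by
      rcases hb with hb | hb
      · have hb' : (Bool.rec (Bool.rec false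
            (Bool.rec (bd n v D r) true (sub b (Nat.shiftRight D (5 * p))))
            (Bool.rec (bd n v D l) true (sub a (Nat.shiftRight D (5 * p))))) true
            (Nat.ble hi v) : Bool) = true := hb
        rw [← Nat.ble_eq]
        revert hb'
        cases Nat.ble hi v <;> cases sub a (Nat.shiftRight D (5 * p)) <;>
          cases sub b (Nat.shiftRight D (5 * p)) <;> cases bd n v D l <;> cases bd n v D r <;>
          simp
      · exact Or.inl hb
    by_cases hak : a.testBit (cls (dg G (pos G φ p))) = true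
    · have hbk : b.testBit (cls (dg G (pos G φ p))) = false := by
        rw [hak] at hk2
        simpa using hk2.symm
      have hP' : Fits G φ (Nat.lor P (Nat.shiftLeft b (5 * p))) :=
        (hG.fits_or φ _ _).2 ⟨hP, (hG.fits_shl φ b p hb32).2 hbk⟩
      have := ihl _ _ _ hP' okl (by
        rcases hb' with h1 | ⟨h1 | h1, -⟩
        · exact Or.inr (hl.trans h1)
        · rw [sub_bit h1 _ hak] at hDk
          exact absurd hDk (by simp)
        · exact Or.inl h1)
      rwa [wsum_flt hG (hG.fits31 φ p) hP', wsum_flt hG (hG.fits31 φ p) hP'] at this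
    · have hak' : a.testBit (cls (dg G (pos G φ p))) = false := by simpa using hak
      have hbk : b.testBit (cls (dg G (pos G φ p))) = true := by
        rw [hak'] at hk
        simpa using hk
      have hP' : Fits G φ (Nat.lor P (Nat.shiftLeft a (5 * p))) :=
        (hG.fits_or φ _ _).2 ⟨hP, (hG.fits_shl φ a p ha).2 hak'⟩
      have := ihr _ _ _ hP' okr (by
        rcases hb' with h1 | ⟨-, h1 | h1⟩
        · exact Or.inr (hr.trans h1)
        · rw [sub_bit h1 _ hbk] at hDk
          exact absurd hDk (by simp)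
        · exact Or.inl h1)
      rwa [wsum_flt hG (hG.fits31 φ p) hP', wsum_flt hG (hG.fits31 φ p) hP'] at this

theorem mA_lt (d : ℕ) : mA d < 32 := by
  unfold mA
  cases (Nat.ble 1 d && Nat.ble d 6) <;> decide

end Tt

theorem ttP : StmtTT := by
  intro V _ G hG X φ n v D O t P i o hd hF hn hP hD h hb
  have h' : okT X O t P (flt (Nat.shiftLeft 31 (25 * c0 X.d)) P (flt 31 P i))
    (flt (Nat.shiftLeft 31 (25 * c0 X.d)) P (flt 31 P o)) = true := h
  have h1 : ¬ Fits G φ (Nat.shiftLeft 31 (25 * c0 X.d)) := by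
    have := hG.fits31 φ (5 * c0 X.d)
    rwa [← mul_assoc] at this
  have h2 : ¬ Fits G φ 31 := hG.fits31 φ 0
  have := Tt.main hG hd hF hn hD t P _ _ hP h' (Or.inl hb)
  rwa [Tt.wsum_flt hG h1 hP, Tt.wsum_flt hG h1 hP, Tt.wsum_flt hG h2 hP,
    Tt.wsum_flt hG h2 hP] at this

theorem entP : StmtENT := by
  intro hC hT V _ G hG X n c hA hP hM hF h φ hd hD
  have e25 : 5 * (5 * c0 X.d) = 25 * c0 X.d := by omega
  have hx := hG.fits_at φ _ (5 * c0 X.d) hD
  rw [e25] at hx
  have hk := Tt.bit31 (Tt.cls_lt (dg G (pos G φ (5 * c0 X.d))))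
  have ein : eIn G X.R ((rot G)^[c0 X.d] φ) =
      wsum G φ (comp X.d true false X.R) + wsum G φ (comp X.d true true X.R) := by
    rw [← hC V G hG X.R X.K X.d φ true false hd, ← hC V G hG X.R X.K X.d φ true true hd]
    rfl
  have eout : eOut G X.R ((rot G)^[c0 X.d] φ) =
      wsum G φ (comp X.d false false X.R) + wsum G φ (comp X.d false true X.R) := by
    rw [← hC V G hG X.R X.K X.d φ false false hd, ← hC V G hG X.R X.K X.d φ false true hd]
    rfl
  rw [ein, eout]
  unfold entK ent2 at h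
  simp only [Bool.or_eq_true, Bool.and_eq_true, Nat.ble_eq] at h
  rcases h with h | ⟨⟨hn, h1⟩, h2⟩
  · rw [sub_bit h _ hk] at hx
    exact absurd hx (by simp)
  by_cases hm : (mA X.d).testBit (cls (dg G (pos G φ (5 * c0 X.d)))) = true
  · rcases h1 with h1 | h1
    · rw [sub_bit h1 _ hm] at hx
      exact absurd hx (by simp)
    have := hT V G hG X φ n _ _ _ _ _ _ _ hd hF hn ((hG.fits_only φ _ _).2 hm) hD hA h1
    rwa [Tt.wsum_append, Tt.wsum_append] at this
  · have hm' : (mA X.d).testBit (cls (dg G (pos G φ (5 * c0 X.d)))) = false := by simpa using hm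
    have hne : ¬ mA X.d = 31 := fun h => hm (h ▸ hk)
    rcases h2 with h2 | h2
    · rw [sub_bit h2 _ (by rw [testBit_xor, hk, hm']; rfl)] at hx
      exact absurd hx (by simp)
    have hQ : Fits G φ (Nat.shiftLeft (mA X.d) (25 * c0 X.d)) := by
      rw [← e25]
      exact (hG.fits_shl φ _ _ (Tt.mA_lt _)).2 hm'
    unfold okP at hP
    unfold okM at hM
    rw [Bool.or_eq_true, beq_true] at hP hM
    have tP := fun w => hT V G hG X φ n w _ _ _ _ _ _ hd hF hn hQ hD (hP.resolve_left hne)
    have tM := fun w => hT V G hG X φ n w _ _ _ _ _ _ hd hF hn hQ hD (hM.resolve_left hne)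
    unfold entB at h2
    generalize Nat.land c 33554431 = v1 at h2
    generalize Nat.land (Nat.shiftRight c 25) 33554431 = v2 at h2
    revert h2
    cases Nat.beq v1 0
    · cases Nat.beq v2 0
      · intro h2
        simp only [cond_false, Bool.and_eq_true, Nat.ble_eq, Nat.add_eq] at h2
        have a1 := tP v1 h2.1.2
        have a2 := tM v2 h2.2
        omega
      · intro h2
        exact absurd (tM 0 h2).1 (lt_irrefl 0)
    · intro h2
      exact absurd (tP 0 h2).1 (lt_irrefl 0)

end Pool.Agent.MP_31805c_co.H47
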