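import Pool.Agent.MP_31805c_co.H47.CfOK
import Pool.Agent.MP_31805c_co.H47.Glue
import Pool.Agent.MP_31805c_co.H47.MinorMac
import Pool.Agent.MP_31805c_co.H47.Fam
import Pool.Agent.MP_31805c_co.H47.TFam
import Pool.Agent.MP_31805c_co.H47.Tri
import Pool.Agent.MP_31805c_co.H47.Lnk
import Pool.Agent.MP_31805c_co.H47.Kempe
import Pool.Agent.MP_31805c_co.H47.Side
import Pool.Agent.MP_31805c_co.H47.Fin45
import Pool.Agent.MP_31805c_co.H47.Birk
import Pool.Agent.MP_31805c_co.H47.Emb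
import Pool.Agent.MP_31805c_co.H47.RedApp
import Pool.Agent.MP_31805c_co.H47.Geo
import Pool.Agent.MP_31805c_co.H47.Dis
import Pool.Agent.MP_31805c_co.H47.Cmp
import Pool.Agent.MP_31805c_co.H47.Tt
import Pool.Agent.MP_31805c_co.H47.Tre
import Pool.Agent.MP_31805c_co.H47.Mir
import Pool.Agent.MP_31805c_co.H47.Kl0
import Pool.Agent.MP_31805c_co.H47.Grow
import Pool.Agent.MP_31805c_co.H47.Seq
import Pool.Agent.MP_31805c_co.H47.Ok5
import Pool.Agent.MP_31805c_co.H47.Pf5_0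
import Pool.Agent.MP_31805c_co.H47.Ok6
import Pool.Agent.MP_31805c_co.H47.Pf6_0
import Pool.Agent.MP_31805c_co.H47.Ok7
import Pool.Agent.MP_31805c_co.H47.Pf7_0
import Pool.Agent.MP_31805c_co.H47.Pf7_1
import Pool.Agent.MP_31805c_co.H47.Pf7_2
import Pool.Agent.MP_31805c_co.H47.Pf7_3
import Pool.Agent.MP_31805c_co.H47.Pf7_4
import Pool.Agent.MP_31805c_co.H47.Pf7_5
import Pool.Agent.MP_31805c_co.H47.Pf7_6
import Pool.Agent.MP_31805c_co.H47.Pf7_7
import Pool.Agent.MP_31805c_co.H47.Pf7_8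
import Pool.Agent.MP_31805c_co.H47.Pf7_9
import Pool.Agent.MP_31805c_co.H47.Ok8
import Pool.Agent.MP_31805c_co.H47.Pf8_0
import Pool.Agent.MP_31805c_co.H47.Pf8_1
import Pool.Agent.MP_31805c_co.H47.Pf8_2
import Pool.Agent.MP_31805c_co.H47.Pf8_3
import Pool.Agent.MP_31805c_co.H47.Pf8_4
import Pool.Agent.MP_31805c_co.H47.Pf8_5
import Pool.Agent.MP_31805c_co.H47.Pf8_6
import Pool.Agent.MP_31805c_co.H47.Pf8_7
import Pool.Agent.MP_31805c_co.H47.Ok9
import Pool.Agent.MP_31805c_co.H47.Pf9_0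
import Pool.Agent.MP_31805c_co.H47.Pf9_1
import Pool.Agent.MP_31805c_co.H47.Pf9_2
import Pool.Agent.MP_31805c_co.H47.Pf9_3
import Pool.Agent.MP_31805c_co.H47.Pf9_4
import Pool.Agent.MP_31805c_co.H47.Ok10
import Pool.Agent.MP_31805c_co.H47.Pf10_0
import Pool.Agent.MP_31805c_co.H47.Pf10_1
import Pool.Agent.MP_31805c_co.H47.Pf10_2
import Pool.Agent.MP_31805c_co.H47.Ok11
import Pool.Agent.MP_31805c_co.H47.Pf11_0
import Pool.Agent.MP_31805c_co.H47.Pf11_1
import Pool.Agent.MP_31805c_co.H47.Ok12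
import Pool.Agent.MP_31805c_co.H47.Pf12_0

/-!
The four colour theorem for graphs that satisfy the criterion of Mac Lane.
-/

namespace Pool.Agent.MP_31805c_co.H47

section

variable {V : Type} [Fintype V] [DecidableEq V] {G : SimpleGraph V}

theorem fact_of (hM : Min6 G) {X : Cx} {n : ℕ} (hX : CxOK X) (h : Ch X 0 (n + 1)) : Fact G X n :=
  h (fun m => ∀ j < m, Fact G X j)
    (fun a b cs e q => seqP kempe emb red cmpP ttP entP treP mirP kl0P growP V G hM (geoP V G hM)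
      (disP V G hM (geoP V G hM)).1 X a b cs hX e q)
    (fun j hj => absurd hj (Nat.not_lt_zero j)) n (Nat.lt_succ_self n)

theorem no_hub (hM : Min6 G) {X : Cx} {n : ℕ} (hX : CxOK X) (h : Ch X 0 (n + 1))
    (hm : imask X n = 0) (hv : ival X n = 0) (φ : Fl V) : ¬ Hd G X.R X.K X.d φ := fun hd => by
  have := (fact_of hM hX h φ hd (by rw [hm]; exact (geoP V G hM).fits0 φ)).1
  omega

theorem big_hub (hM : Min6 G) {X : Cx} {n : ℕ} (hX : CxOK X) (h : Ch X 0 (n + 1))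
    (hm : imask X n = 0) (hv : ival X n = 2 * X.O + 5 * X.K) (φ : Fl V)
    (hd : Hd G X.R X.K X.d φ) :
    eIn G X.R ((rot G)^[c0 X.d] φ) ≤ 5 * X.K + eOut G X.R ((rot G)^[c0 X.d] φ) := by
  have := (fact_of hM hX h φ hd (by rw [hm]; exact (geoP V G hM).fits0 φ)).2
  omega

end

theorem cxOK5 : CxOK cx5 := ⟨okA5, okP5, okM5, by decide +kernel, cfOK⟩

theorem ch5 : Ch cx5 0 (217 + 1) :=
  pf5_0

theorem cxOK6 : CxOK cx6 := ⟨okA6, okP6, okM6, by decide +kernel, cfOK⟩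

theorem ch6 : Ch cx6 0 (1407 + 1) :=
  pf6_0

theorem cxOK7 : CxOK cx7 := ⟨okA7, okP7, okM7, by decide +kernel, cfOK⟩

theorem ch7 : Ch cx7 0 (33115 + 1) :=
  pf7_0.trans (pf7_1.trans (pf7_2.trans (pf7_3.trans (pf7_4.trans (pf7_5.trans (pf7_6.trans (pf7_7.trans (pf7_8.trans (pf7_9)))))))))

theorem cxOK8 : CxOK cx8 := ⟨okA8, okP8, okM8, by decide +kernel, cfOK⟩

theorem ch8 : Ch cx8 0 (27821 + 1) :=
  pf8_0.trans (pf8_1.trans (pf8_2.trans (pf8_3.trans (pf8_4.trans (pf8_5.trans (pf8_6.trans (pf8_7)))))))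

theorem cxOK9 : CxOK cx9 := ⟨okA9, okP9, okM9, by decide +kernel, cfOK⟩

theorem ch9 : Ch cx9 0 (15123 + 1) :=
  pf9_0.trans (pf9_1.trans (pf9_2.trans (pf9_3.trans (pf9_4))))

theorem cxOK10 : CxOK cx10 := ⟨okA10, okP10, okM10, by decide +kernel, cfOK⟩

theorem ch10 : Ch cx10 0 (8407 + 1) :=
  pf10_0.trans (pf10_1.trans (pf10_2))

theorem cxOK11 : CxOK cx11 := ⟨okA11, okP11, okM11, by decide +kernel, cfOK⟩

theorem ch11 : Ch cx11 0 (4515 + 1) :=
  pf11_0.trans (pf11_1)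

theorem cxOK12 : CxOK cx12 := ⟨okA12, okP12, okM12, by decide +kernel, cfOK⟩

theorem ch12 : Ch cx12 0 (63 + 1) :=
  pf12_0

theorem no_min6 {V : Type} [Fintype V] [DecidableEq V] {G : SimpleGraph V} (hM : Min6 G) :
    False := by
  obtain ⟨hS, hC⟩ := disP V G hM (geoP V G hM)
  obtain ⟨v, hv⟩ := hC rules 10000 (by decide)
  refine endP V G hM (geoP V G hM) hS rules 10000 v hv (fun d φ h1 h2 => ?_) (fun φ hd => ?_)
  · interval_cases d
    · exact no_hub hM cxOK5 ch5 (by decide +kernel) (by decide +kernel) φ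
    · exact no_hub hM cxOK6 ch6 (by decide +kernel) (by decide +kernel) φ
    · exact no_hub hM cxOK7 ch7 (by decide +kernel) (by decide +kernel) φ
    · exact no_hub hM cxOK8 ch8 (by decide +kernel) (by decide +kernel) φ
    · exact no_hub hM cxOK9 ch9 (by decide +kernel) (by decide +kernel) φ
    · exact no_hub hM cxOK10 ch10 (by decide +kernel) (by decide +kernel) φ
    · exact no_hub hM cxOK11 ch11 (by decide +kernel) (by decide +kernel) φ
  · exact big_hub hM cxOK12 ch12 (by decide +kernel) (by decide +kernel) φ hd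

/-- The four colour theorem. -/
theorem fourCol : FourCol := by
  intro V _ _ G hG
  by_contra hn
  obtain ⟨W, _, _, H, hH⟩ := minCE minorMac V G hG (fun c hc => hn ⟨c, hc⟩)
  obtain ⟨h4, hc, I, _, F, hF⟩ := tfam minorMac fam glue W H hH
  have hT := tri fam glue W H I F hH h4 hc hF
  exact no_min6 (birk kempe side fin4 fin5 W H hT (lnk W H hT))

end Pool.Agent.MP_31805c_co.H47
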