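import Pool.Agent.MP_31805c_co.H47.SpecA

namespace Pool.Agent.MP_31805c_co.H47

open Finset
open Pool.Agent.MP_31805c_co.H93 (Conn)

namespace KLPa

variable {V : Type}

theorem conn_le {G H : SimpleGraph V} (h : G ≤ H) {U : Set V} {a b : V} (hc : Conn G U a b) :
    Conn H U a b := by
  induction hc with
  | refl => exact Conn.refl _ _
  | tail _ h1 ih => exact ih.trans (Conn.adj (h h1.1) h1.2.1 h1.2.2)

theorem conn_univ {G : SimpleGraph V} {a b : V} (h : G.Reachable a b) : Conn G Set.univ a b := by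
  rw [SimpleGraph.reachable_iff_reflTransGen] at h
  induction h with
  | refl => exact Conn.refl _ _
  | tail _ h1 ih => exact ih.trans (Conn.adj h1 trivial trivial)

theorem conn_sub {G : SimpleGraph V} {U U' : Set V} {a b : V} (hc : Conn G U a b)
    (h : ∀ y, G.Reachable a y → y ∈ U → y ∈ U') : G.Reachable a b ∧ Conn G U' a b := by
  induction hc with
  | refl => exact ⟨.rfl, Conn.refl _ _⟩
  | tail _ h1 ih =>
    have := ih.1.trans h1.1.reachable
    exact ⟨this, ih.2.trans (Conn.adj h1.1 (h _ ih.1 h1.2.1) (h _ this h1.2.2))⟩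

theorem conn_first {G : SimpleGraph V} {x u : V} (h : G.Reachable u x) :
    x = u ∨ ∃ a, G.Adj u a ∧ Conn G {u}ᶜ a x := by
  rw [SimpleGraph.reachable_iff_reflTransGen] at h
  induction h with
  | refl => exact .inl rfl
  | @tail b c _ h1 ih =>
    by_cases hc : c = u
    · exact .inl hc
    by_cases hb : b = u
    · exact .inr ⟨c, hb ▸ h1, Conn.refl _ _⟩
    obtain ⟨a, h2, h3⟩ := ih.resolve_left hb
    exact .inr ⟨a, h2, h3.trans (Conn.adj h1 hb hc)⟩

theorem exists_rank (ρ : V → V → Prop) (T : Set V) : ∃ f : V → ℕ, ∀ x, x ∉ T →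
    (∃ t ∈ T, Relation.ReflTransGen ρ x t) → ∃ w, ρ x w ∧ f w < f x := by
  let A : ℕ → Set V := fun n => Nat.rec T (fun _ S => {x | ∃ w ∈ S, ρ x w}) n
  refine ⟨fun x => sInf {n | x ∈ A n}, ?_⟩
  rintro x hx ⟨t, ht, h⟩
  have h1 : {n | x ∈ A n}.Nonempty := by
    clear hx
    induction h using Relation.ReflTransGen.head_induction_on with
    | refl => exact ⟨0, ht⟩
    | head h _ ih => exact ⟨ih.choose + 1, _, ih.choose_spec, h⟩
  have h2 := Nat.sInf_mem h1
  show ∃ w, ρ x w ∧ sInf {n | w ∈ A n} < sInf {n | x ∈ A n}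
  generalize sInf {n | x ∈ A n} = k at h2 ⊢
  rcases k with _ | k
  · exact absurd h2 hx
  · obtain ⟨w, h3, h4⟩ := h2
    exact ⟨w, h4, Nat.lt_succ_of_le (Nat.sInf_le h3)⟩

variable [Fintype V] [DecidableEq V]

theorem dg_edge (G : SimpleGraph V) (a b x : V) :
    dg (G ⊔ SimpleGraph.edge a b) x ≤ dg G x + if x = a ∨ x = b then 1 else 0 := by
  unfold dg
  split_ifs with h
  · refine le_trans (Set.ncard_le_ncard (t := insert (if x = a then b else a) (G.neighborSet x))
      fun y hy => ?_) (Set.ncard_insert_le _ _)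
    simp only [SimpleGraph.mem_neighborSet, SimpleGraph.sup_adj, SimpleGraph.edge_adj,
      Set.mem_insert_iff] at hy ⊢
    grind
  · refine Set.ncard_le_ncard fun y hy => ?_
    simp only [SimpleGraph.mem_neighborSet, SimpleGraph.sup_adj, SimpleGraph.edge_adj] at hy ⊢
    grind

theorem aug (hF : StmtFAM) {G : SimpleGraph V} (hG : Mac G) (hd : ∀ v, 2 ≤ dg G v) (P0 : Set V)
    (N : V → Set V) (g : V → ℕ∞) (hN : ∀ x, N x ⊆ G.neighborSet x) (hc : ∀ x ∈ P0, ¬ Cut G x)
    (h : ∀ x ∈ P0, dg G x + {y | g x ≤ g y ∧ x ∈ N y}.ncard < 2 * (N x).ncard) (P : Finset V) :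
    ↑P ⊆ P0 → ∃ H, G ≤ H ∧ Mac H ∧ (∀ x, dg H x ≤ dg G x + {y | y ∈ P ∧ x ∈ N y}.ncard) ∧
      ∀ x ∈ P, ∃ a ∈ N x, ∃ b ∈ N x, H.Adj a b := by
  induction P using Finset.induction_on_min_value g with
  | empty => exact fun _ => ⟨G, le_rfl, hG, by simp, by simp⟩
  | insert v P hv hm ih =>
    intro hP
    rw [coe_insert, Set.insert_subset_iff] at hP
    obtain ⟨H, h1, h2, h3, h4⟩ := ih hP.2
    obtain ⟨a, ha, b, hb, hab, h5⟩ := hF.corner V H h2 v (N v) (fun y hy => h1 (hN v hy))
      (fun u hu => by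
        obtain ⟨w, h6, h7⟩ := Set.exists_ne_of_one_lt_ncard (s := G.neighborSet v) (hd v) u
        refine ⟨w, h1 h6, h7.symm, conn_le h1 ?_⟩
        by_contra h8
        exact hc v hP.1 ⟨u, w, hN v hu, h6, h8⟩)
      (((h3 v).trans (Nat.add_le_add_left (Set.ncard_le_ncard (t := {y | g v ≤ g y ∧ v ∈ N y})
        fun y hy => ⟨hm y hy.1, hy.2⟩) _)).trans_lt (h v hP.1))
    refine ⟨_, h1.trans le_sup_left, h5, fun x => (dg_edge H a b x).trans ?_, fun x hx => ?_⟩
    · have := h3 x
      split_ifs with h6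
      · have h7 : {y | y ∈ insert v P ∧ x ∈ N y} = insert v {y | y ∈ P ∧ x ∈ N y} := by
          ext y
          simp only [mem_insert, Set.mem_ofPred_eq, Set.mem_insert_iff]
          grind
        rw [h7, Set.ncard_insert_of_notMem fun h => hv h.1]
        omega
      · exact this.trans (Nat.add_le_add_left (Set.ncard_le_ncard
          (t := {y | y ∈ insert v P ∧ x ∈ N y}) fun y hy => ⟨mem_insert_of_mem hy.1, hy.2⟩) _)
    · rcases mem_insert.1 hx with rfl | hx
      · exact ⟨a, ha, b, hb, .inr (by simp [SimpleGraph.edge_adj, hab])⟩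
      · obtain ⟨c, h6, d, h7, h8⟩ := h4 x hx
        exact ⟨c, h6, d, h7, .inl h8⟩

end KLPa

open KLPa in
theorem klpa : StmtKLPa := by
  classical
  intro hF h4 V _ _ G hG hd
  have nb : ∀ v, ∃ w, G.Adj v w := fun v =>
    Set.nonempty_of_ncard_ne_zero (s := G.neighborSet v) (by have := hd v; unfold dg at this; omega)
  have sel : ∀ K : G.ConnectedComponent, ∃ u z, G.connectedComponentMk u = K ∧ G.Adj u z ∧
      (dg G z = 2 ∨ 3 ≤ dg G u) := fun K => by
    obtain ⟨v, rfl⟩ := K.exists_rep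
    obtain ⟨w, hw⟩ := nb v
    by_cases h : dg G v = 2
    · exact ⟨w, v, SimpleGraph.ConnectedComponent.sound hw.symm.reachable, hw.symm, .inl h⟩
    · exact ⟨v, w, rfl, hw, .inr (by have := hd v; omega)⟩
  choose u' z' hu hz hk using sel
  obtain ⟨u, z, h1, h2, h3, h5⟩ : ∃ u z : V → V, (∀ x, G.Reachable (u x) x) ∧
      (∀ x, G.Adj (u x) (z x)) ∧ (∀ x, dg G (z x) = 2 ∨ 3 ≤ dg G (u x)) ∧
      ∀ x y, G.Reachable x y → u x = u y ∧ z x = z y :=
    ⟨fun x => u' (G.connectedComponentMk x), fun x => z' (G.connectedComponentMk x),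
      fun x => SimpleGraph.ConnectedComponent.exact (hu _), fun _ => hz _, fun _ => hk _,
      fun x y h => ⟨congrArg u' (SimpleGraph.ConnectedComponent.sound h),
        congrArg z' (SimpleGraph.ConnectedComponent.sound h)⟩⟩
  let U : Set V := {x | x = u x ∧ ¬ Cut G x ∧ dg G (z x) ≠ 2}
  let R : Set V := {x | x = u x ∧ dg G (z x) = 2}
  let N : V → Set V := fun x => if x ∈ U then G.neighborSet x \ {z x} else G.neighborSet x
  have hN : ∀ x, N x ⊆ G.neighborSet x := fun x => by
    simp only [N]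
    split_ifs
    exacts [Set.sdiff_subset, subset_rfl]
  obtain ⟨f, hf⟩ := exists_rank (fun a b => G.Adj a b ∧ a ∈ Uᶜ ∧ b ∈ Uᶜ)
    {x | x = if u x ∈ U then z x else u x}
  obtain ⟨g, hg⟩ : ∃ g : V → ℕ∞, ∀ x, g x = if x ∈ U then ⊤ else (f x : ℕ∞) :=
    ⟨_, fun _ => rfl⟩
  obtain ⟨H, a1, a2, -, a3⟩ := aug hF hG hd {x | ¬ Cut G x ∧ x ∉ R} N g hN (fun x hx => hx.1)
    (fun x hx => by
      by_cases hU : x ∈ U
      · have e1 : {y | g x ≤ g y ∧ x ∈ N y} = ∅ := Set.eq_empty_of_forall_notMem fun y hy => by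
          have e2 : G.Adj y x := hN y hy.2
          by_cases hy' : y ∈ U
          · exact e2.ne (hy'.1.trans ((h5 _ _ e2.reachable).1.trans hU.1.symm))
          · simpa [hg, hU, hy'] using hy.1
        have e2 := (h3 x).resolve_left hU.2.2
        have e3 : z x ∈ G.neighborSet x := by have := h2 x; rwa [← hU.1] at this
        rw [← hU.1] at e2
        have eN : N x = G.neighborSet x \ {z x} := if_pos hU
        rw [e1, eN, Set.ncard_empty, Set.ncard_sdiff_singleton_of_mem e3]
        unfold dg at e2 ⊢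
        omega
      · obtain ⟨w, e1, e2⟩ : ∃ w, G.Adj x w ∧ ¬ (g x ≤ g w ∧ x ∈ N w) := by
          have r1 := h5 _ _ (h1 x)
          by_cases hT : x = if u x ∈ U then z x else u x
          · by_cases e : u x ∈ U
            · rw [if_pos e] at hT
              exact ⟨u x, by simpa [← hT] using (h2 x).symm, fun h => by
                simp [N, e, r1.2, ← hT] at h⟩
            · rw [if_neg e] at hT
              exact absurd ⟨hT, hx.1, fun h => hx.2 ⟨hT, h⟩⟩ hU
          · obtain ⟨w, e1, e2⟩ := hf x hT (by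
              by_cases e : u x ∈ U
              · have r2 := h5 _ _ (h2 x).reachable
                refine ⟨z x, by simp [← r2.1, ← r2.2, r1.1, r1.2, e], ?_⟩
                obtain ⟨a, e3, e4⟩ := (conn_first (h1 x)).resolve_left fun h => hU (h ▸ e)
                have e5 : Conn G {u x}ᶜ a (z x) := by
                  by_contra e6
                  exact e.2.1 ⟨a, z x, e3, h2 x, e6⟩
                exact (conn_sub (e4.symm.trans e5) fun y hy e6 (e7 : y ∈ U) =>
                  e6 (e7.1.trans (h5 _ _ hy).1.symm)).2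
              · refine ⟨u x, by simp [r1.1, e], ?_⟩
                exact (conn_sub (conn_univ (h1 x).symm) fun y hy _ (e7 : y ∈ U) =>
                  e (((h5 _ _ hy).1.trans e7.1.symm) ▸ e7)).2)
            exact ⟨w, e1.1, fun h => by
              have := h.1
              rw [hg, hg, if_neg hU, if_neg e1.2.2, Nat.cast_le] at this
              omega⟩
        have e3 := Set.ncard_lt_ncard (s := {y | g x ≤ g y ∧ x ∈ N y}) (t := G.neighborSet x)
          ⟨fun y hy => (hN y hy.2).symm, fun h => e2 (h e1)⟩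
        have eN : N x = G.neighborSet x := if_neg hU
        rw [eN]
        unfold dg
        omega) (univ.filter fun x => ¬ Cut G x ∧ x ∉ R) (by simp)
  obtain ⟨c, hc⟩ := h4 V H a2
  refine ⟨c, R, fun a b ha hb h => hc a b ha hb (a1 h), ⟨fun a ha b hb h =>
    ha.1.trans ((h5 _ _ h).1.trans hb.1.symm), fun a ha => ⟨z a, ?_, ha.2⟩⟩, fun v => ?_⟩
  · have := h2 a
    rwa [← ha.1] at this
  · by_cases h : ¬ Cut G v ∧ v ∉ R
    · obtain ⟨a, ha, b, hb, h6⟩ := a3 v (by simpa using h)
      exact .inl ⟨a, b, hN v ha, hN v hb, hc a b trivial trivial h6⟩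
    · exact .inr (by tauto)

end Pool.Agent.MP_31805c_co.H47
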