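import Pool.Agent.MP_31805c_co.H47.SpecA

/-! From a four colouring in which most vertices see two colours to four independent dominating
sets such that every vertex lies in at most two of them. -/

namespace Pool.Agent.MP_31805c_co.H47

open Finset
open Pool.Agent.MP_31805c_co.H93 (IndDom TwoLeFidom Conn)

namespace KLPb

variable {V : Type} {G : SimpleGraph V}

/-- An independent set lies in an independent dominating set. -/
theorem exists_indDom [Fintype V] [DecidableEq V] (S : Set V)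
    (hS : ∀ u ∈ S, ∀ v ∈ S, ¬ G.Adj u v) : ∃ I : Finset V, IndDom G I ∧ ∀ u ∈ S, u ∈ I := by
  classical
  obtain ⟨I, hI, hmax⟩ := Finset.exists_max_image
    ((univ : Finset (Finset V)).filter fun I => (∀ u ∈ I, ∀ v ∈ I, ¬ G.Adj u v) ∧ ∀ u ∈ S, u ∈ I)
    Finset.card ⟨univ.filter (· ∈ S), by
      simp only [mem_filter, mem_univ, true_and]
      exact ⟨hS, fun u hu => hu⟩⟩
  simp only [mem_filter, mem_univ, true_and] at hI hmax
  refine ⟨I, ⟨hI.1, fun v hv => ?_⟩, hI.2⟩
  by_contra hn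
  push Not at hn
  have h := hmax (insert v I) ⟨?_, fun u hu => mem_insert_of_mem (hI.2 u hu)⟩
  · rw [card_insert_of_notMem hv] at h
    omega
  · intro x hx y hy hxy
    rcases mem_insert.1 hx with rfl | hx' <;> rcases mem_insert.1 hy with rfl | hy'
    · exact hxy.ne rfl
    · exact hn y hy' hxy
    · exact hn x hx' hxy.symm
    · exact hI.1 x hx' y hy' hxy

/-- Four independent sets such that every vertex has neighbours in two of them. -/
theorem of_classes [Fintype V] [DecidableEq V] (S : K4 → Set V)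
    (hS : ∀ i, ∀ u ∈ S i, ∀ v ∈ S i, ¬ G.Adj u v)
    (h2 : ∀ x, ∃ a b, a ≠ b ∧ (∃ y ∈ S a, G.Adj x y) ∧ ∃ y ∈ S b, G.Adj x y) :
    TwoLeFidom G := by
  classical
  choose I hI hSI using fun i => exists_indDom (G := G) (S i) (hS i)
  have hc : Fintype.card K4 = 4 := by simp [K4]
  let e : K4 ≃ Fin 4 := Fintype.equivFinOfCardEq hc
  refine ⟨4, fun i => I (e.symm i), by norm_num, fun i => hI _, fun x => ?_⟩
  obtain ⟨a, b, hab, ⟨y, hy, hxy⟩, ⟨z, hz, hxz⟩⟩ := h2 x
  have hsub : (univ.filter fun i : Fin 4 => x ∈ I (e.symm i)) ⊆ univ \ {e a, e b} := by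
    intro i hi
    simp only [mem_filter, mem_univ, true_and] at hi
    simp only [mem_sdiff, mem_univ, mem_insert, mem_singleton, true_and, not_or]
    constructor
    · rintro rfl
      rw [e.symm_apply_apply] at hi
      exact (hI a).1 x hi y (hSI a y hy) hxy
    · rintro rfl
      rw [e.symm_apply_apply] at hi
      exact (hI b).1 x hi z (hSI b z hz) hxz
  have h1 := card_le_card hsub
  rw [card_sdiff_of_subset (subset_univ _), card_pair (e.injective.ne hab), card_univ,
    Fintype.card_fin] at h1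
  exact (Nat.mul_le_mul_left 2 h1).trans (by norm_num)

/-- A cut vertex that sees one colour only is repaired. -/
theorem repair {c : V → K4} (hc : Col G Set.univ c) {u : V} (hu : Cut G u) :
    ∃ c', Col G Set.univ c' ∧ Dyn G c' u ∧ ∀ v, Dyn G c v → Dyn G c' v := by
  classical
  by_cases hd : Dyn G c u
  · exact ⟨c, hc, hd, fun _ h => h⟩
  obtain ⟨a, b, ha, hb, hab⟩ := hu
  have hcab : c a = c b := by
    by_contra hne
    exact hd ⟨a, b, ha, hb, hne⟩
  have hua : c u ≠ c a := hc u a trivial trivial ha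
  obtain ⟨β, hβ1, hβ2⟩ : ∃ β : K4, β ≠ c u ∧ β ≠ c a := by
    generalize c u = p
    generalize c a = q
    revert p q
    decide
  let C : Set V := {x | Conn G {u}ᶜ a x}
  have hCu : ∀ x ∈ C, x ≠ u := fun x hx => Conn.mem hx ha.ne'
  have hstep : ∀ x ∈ C, ∀ y, G.Adj x y → y ∈ C ∨ y = u := by
    intro x hx y hxy
    by_cases hy : y = u
    · exact Or.inr hy
    · exact Or.inl (Conn.trans hx (Conn.adj hxy (hCu x hx) hy))
  let π : K4 ≃ K4 := Equiv.swap (c a) β
  have hπ : π (c u) = c u := Equiv.swap_apply_of_ne_of_ne hua hβ1.symm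
  let c' : V → K4 := fun x => if x ∈ C then π (c x) else c x
  have h1 : ∀ x, x ∈ C ∨ x = u → c' x = π (c x) := by
    rintro x (hx | rfl)
    · exact if_pos hx
    · by_cases hx : x ∈ C
      · exact if_pos hx
      · rw [hπ]; exact if_neg hx
  have h2 : ∀ x, x ∉ C → c' x = c x := fun x hx => if_neg hx
  refine ⟨c', ?_, ⟨a, b, ha, hb, ?_⟩, ?_⟩
  · intro x y _ _ hxy
    by_cases hx : x ∈ C
    · rw [h1 x (Or.inl hx), h1 y (hstep x hx y hxy)]
      exact π.injective.ne (hc x y trivial trivial hxy)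
    · by_cases hy : y ∈ C
      · rw [h1 y (Or.inl hy), h1 x (hstep y hy x hxy.symm)]
        exact π.injective.ne (hc x y trivial trivial hxy)
      · rw [h2 x hx, h2 y hy]
        exact hc x y trivial trivial hxy
  · rw [h1 a (Or.inl (Conn.refl _ _)), h2 b hab, ← hcab]
    show Equiv.swap (c a) β (c a) ≠ c a
    rw [Equiv.swap_apply_left]
    exact hβ2
  · rintro v ⟨p, q, hp, hq, hpq⟩
    refine ⟨p, q, hp, hq, ?_⟩
    by_cases hv : v ∈ C
    · rw [h1 p (hstep v hv p hp), h1 q (hstep v hv q hq)]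
      exact π.injective.ne hpq
    · have hvu : v ≠ u := by
        rintro rfl
        exact hd ⟨p, q, hp, hq, hpq⟩
      have hn : ∀ y, G.Adj v y → y ∉ C := fun y hy hyC =>
        (hstep y hyC v hy.symm).elim hv hvu
      rw [h2 p (hn p hp), h2 q (hn q hq)]
      exact hpq

/-- All cut vertices are repaired. -/
theorem repair_all [Fintype V] [DecidableEq V] {c : V → K4} (hc : Col G Set.univ c)
    (s : Finset V) :
    ∃ c', Col G Set.univ c' ∧ (∀ v ∈ s, Cut G v → Dyn G c' v) ∧ ∀ v, Dyn G c v → Dyn G c' v := by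
  induction s using Finset.induction_on with
  | empty => exact ⟨c, hc, by simp, fun _ h => h⟩
  | insert u s _ ih =>
    obtain ⟨c₁, h1, h2, h3⟩ := ih
    by_cases hu : Cut G u
    · obtain ⟨c₂, k1, k2, k3⟩ := repair h1 hu
      refine ⟨c₂, k1, fun v hv hcut => ?_, fun v hv => k3 v (h3 v hv)⟩
      rcases mem_insert.1 hv with rfl | hv'
      · exact k2
      · exact k3 v (h2 v hv' hcut)
    · refine ⟨c₁, h1, fun v hv hcut => ?_, h3⟩
      rcases mem_insert.1 hv with rfl | hv'
      · exact absurd hcut hu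
      · exact h2 v hv' hcut

end KLPb

theorem klpb : StmtKLPb := by
  intro V _ _ G c₀ R _ hc₀ hR h₀
  obtain ⟨c, hc, h1, h2⟩ := KLPb.repair_all hc₀ univ
  have h : ∀ v, Dyn G c v ∨ v ∈ R := fun v =>
    (h₀ v).elim (fun h => Or.inl (h2 v h)) fun h => h.imp_left (h1 v (mem_univ v))
  choose! f hf hdg using hR.2
  refine KLPb.of_classes
    (fun i => {x | c x = i ∨ (∃ u ∈ R, x = f u) ∧ ∀ y, G.Adj x y → c y ≠ i}) ?_ ?_
  · rintro i x (hx | ⟨⟨u, hu, rfl⟩, hx⟩) y (hy | ⟨⟨u', hu', rfl⟩, hy⟩) hxy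
    · exact hc x y trivial trivial hxy (hx.trans hy.symm)
    · exact hy x hxy.symm hx
    · exact hx y hxy hy
    · have : u = u' := hR.1 u hu u' hu'
        (((hf u hu).reachable.trans hxy.reachable).trans (hf u' hu').symm.reachable)
      exact hxy.ne (this ▸ rfl)
  · intro x
    rcases h x with ⟨a, b, ha, hb, hab⟩ | hx
    · exact ⟨c a, c b, hab, ⟨a, Or.inl rfl, ha⟩, ⟨b, Or.inl rfl, hb⟩⟩
    · obtain ⟨p, q, -, hpq⟩ := Set.ncard_eq_two.1 (hdg x hx)
      obtain ⟨a, b, hab, k1, k2, k3, k4⟩ :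
          ∃ a b : K4, a ≠ b ∧ c p ≠ a ∧ c q ≠ a ∧ c p ≠ b ∧ c q ≠ b := by
        generalize c p = s
        generalize c q = t
        revert s t
        decide
      have hy : ∀ y, G.Adj (f x) y → y = p ∨ y = q := fun y hy => by
        have : y ∈ G.neighborSet (f x) := hy
        rwa [hpq] at this
      refine ⟨a, b, hab, ⟨f x, Or.inr ⟨⟨x, hx, rfl⟩, fun y hy' => ?_⟩, hf x hx⟩,
        ⟨f x, Or.inr ⟨⟨x, hx, rfl⟩, fun y hy' => ?_⟩, hf x hx⟩⟩
      · rcases hy y hy' with rfl | rfl
        exacts [k1, k2]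
      · rcases hy y hy' with rfl | rfl
        exacts [k3, k4]

end Pool.Agent.MP_31805c_co.H47
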