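import Pool.Agent.MP_31805c_co.H47.Trees

namespace Pool.Agent.MP_31805c_co.H47

set_option maxRecDepth 10000

noncomputable def pi6_0 : ℕ :=
 (nat_lit 0x5504014040414000001400)

noncomputable def pi6_1 : ℕ :=
 (nat_lit 0x12203220130301000001300)

noncomputable def pi6_2 : ℕ :=
 (nat_lit 0xb0c0f0c050f0204040204)

noncomputable def pi6_3 : ℕ :=
 (nat_lit 0x40000008e009400000070)

noncomputable def pi6_4 : ℕ :=
 (nat_lit 0x3ff0000c2f100008000)

noncomputable def pi6_5 : ℕ :=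
 (nat_lit 0x6f90000)

noncomputable def pi6_6 : ℕ :=
 (nat_lit 0x6f9ffff)

noncomputable def pi6_7 : ℕ :=
 (nat_lit 0x2f9c000)

noncomputable def pi6_8 : ℕ :=
 (nat_lit 0x7ff0000c88d0000ffff)

noncomputable def pi6_9 : ℕ :=
 (nat_lit 0x40000006300f4000b007b)

noncomputable def pi6_10 : ℕ :=
 (nat_lit 0xb080d0101090c030c0707)

noncomputable def pi6_11 : ℕ :=
 (nat_lit 0x12113132112030201210000)

noncomputable def pi6_12 : ℕ :=
 (nat_lit 0x5505004150455415505555)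

noncomputable def pi6 : List (ℕ × ℕ) :=
  [(nat_lit 1, pi6_0), (nat_lit 2, pi6_1), (nat_lit 4, pi6_2), (nat_lit 8, pi6_3), (nat_lit 16, pi6_4), (nat_lit 32, pi6_5), (nat_lit 64, pi6_6), (nat_lit 32, pi6_7), (nat_lit 16, pi6_8), (nat_lit 8, pi6_9), (nat_lit 4, pi6_10), (nat_lit 2, pi6_11), (nat_lit 1, pi6_12)]

noncomputable def sg6_0 : ℕ :=
 (nat_lit 0x405450505015114111041)

noncomputable def sg6_1 : ℕ :=
 (nat_lit 0x12132302000122201031002)

noncomputable def sg6_2 : ℕ :=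
 (nat_lit 0x5000c05050206000b0400)

noncomputable def sg6_3 : ℕ :=
 (nat_lit 0x300320009006900e80040)

noncomputable def sg6_4 : ℕ :=
 (nat_lit 0x200000f51900008800)

noncomputable def sg6_5 : ℕ :=
 (nat_lit 0x18c084)

noncomputable def sg6_6 : ℕ :=
 (nat_lit 0x3fceedf)

noncomputable def sg6_7 : ℕ :=
 (nat_lit 0x39c768d)

noncomputable def sg6_8 : ℕ :=
 (nat_lit 0x60700000e1b000089cd)

noncomputable def sg6_9 : ℕ :=
 (nat_lit 0x300df008400f3002a00c4)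

noncomputable def sg6_10 : ℕ :=
 (nat_lit 0x6000e0a01060d080b0409)

noncomputable def sg6_11 : ℕ :=
 (nat_lit 0x13301100000221201222000)

noncomputable def sg6_12 : ℕ :=
 (nat_lit 0x1500451401415554505044)

noncomputable def sg6 : List (ℕ × ℕ) :=
  [(nat_lit 1, sg6_0), (nat_lit 2, sg6_1), (nat_lit 4, sg6_2), (nat_lit 8, sg6_3), (nat_lit 16, sg6_4), (nat_lit 32, sg6_5), (nat_lit 64, sg6_6), (nat_lit 32, sg6_7), (nat_lit 16, sg6_8), (nat_lit 8, sg6_9), (nat_lit 4, sg6_10), (nat_lit 2, sg6_11), (nat_lit 1, sg6_12)]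

noncomputable def sec6_1 : Sec :=
  ⟨nat_lit 1, nat_lit 0, nat_lit 15, [(0, 0)], tree1⟩

noncomputable def fm6_2_1b : ℕ × ℕ := memo
  (rp2 (ones (nat_lit 15)) (nat_lit 30))

noncomputable def fm6_2_1 : ℕ := fm6_2_1b.1

noncomputable def fm6_2_2b : ℕ × ℕ := memo
  (ones (nat_lit 30))

noncomputable def fm6_2_2 : ℕ := fm6_2_2b.1

noncomputable def sec6_2 : Sec :=
  ⟨nat_lit 2, nat_lit 15, nat_lit 60, [(0, 0), (nat_lit 15, fm6_2_1), (nat_lit 30, fm6_2_2)], tree2⟩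

noncomputable def fm6_3_1b : ℕ × ℕ := memo
  (rp2 (rp2 (rp2 (ones (nat_lit 1)) (nat_lit 2)) (nat_lit 4)) (nat_lit 8))

noncomputable def fm6_3_1 : ℕ := fm6_3_1b.1

noncomputable def fm6_3_2b : ℕ × ℕ := memo
  (rp2 (rp2 (ones (nat_lit 2)) (nat_lit 4)) (nat_lit 8))

noncomputable def fm6_3_2 : ℕ := fm6_3_2b.1

noncomputable def fm6_3_3b : ℕ × ℕ := memo
  (rp2 (ones (nat_lit 4)) (nat_lit 8))

noncomputable def fm6_3_3 : ℕ := fm6_3_3b.1

noncomputable def fm6_3_4b : ℕ × ℕ := memo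
  (ones (nat_lit 8))

noncomputable def fm6_3_4 : ℕ := fm6_3_4b.1

noncomputable def sec6_3 : Sec :=
  ⟨nat_lit 3, nat_lit 75, nat_lit 16, [(0, 0), (nat_lit 1, fm6_3_1), (nat_lit 2, fm6_3_2), (nat_lit 4, fm6_3_3), (nat_lit 8, fm6_3_4)], tree3⟩

noncomputable def pa6_0 : ℕ :=
 (nat_lit 0x7fff96ef2dde5bbcb77844b)

noncomputable def lay6 : Lay := ⟨nat_lit 6, pa6_0, [sec6_2, sec6_3], pi6, sg6⟩

end Pool.Agent.MP_31805c_co.H47
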