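import Pool.Agent.MP_31805c_co.H47.Trees

namespace Pool.Agent.MP_31805c_co.H47

set_option maxRecDepth 10000

noncomputable def pi7_0 : ℕ :=
 (nat_lit 0x10551500040140105414054544015141511540000154555040010400155004041001)

noncomputable def pi7_1 : ℕ :=
 (nat_lit 0x33333313000031000121202000001112310000113001220301300023302230220)

noncomputable def pi7_2 : ℕ :=
 (nat_lit 0x3040f040b050b04000e0902030403020209010606030c000f070809090100040900)

noncomputable def pi7_3 : ℕ :=
 (nat_lit 0xd00c70042001e002d007000d600c80031001700a80034007e00a000b0008c0000)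

noncomputable def pi7_4 : ℕ :=
 (nat_lit 0x1000038c500009cbf00001a880000e50000009d710000499d00006b0400000840)

noncomputable def pi7_5 : ℕ :=
 (nat_lit 0x528f868000000000b09620000000000485b64560000000000004100)

noncomputable def pi7_6 : ℕ :=
 (nat_lit 0xa54a0902142012f400000000000000000000000000000000)

noncomputable def pi7_7 : ℕ :=
 (nat_lit 0xd86b265c0ad5798337a4dffbfffe0002)

noncomputable def pi7_8 : ℕ :=
 (nat_lit 0x7bff)

noncomputable def pi7_9 : ℕ :=
 (nat_lit 0x1af7d)

noncomputable def pi7_10 : ℕ :=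
 (nat_lit 0x278c5b63b96fb63b000000000000000022841a0afd17ac1b)

noncomputable def pi7_11 : ℕ :=
 (nat_lit 0x24dac250000000006ed77127000000000bdbe8410000000035048c29)

noncomputable def pi7_12 : ℕ :=
 (nat_lit 0x1000083950000ce2c0000a01300005f690000741e0000edd70000cadb00000d31)

noncomputable def pi7_13 : ℕ :=
 (nat_lit 0x7d005d00ab003900ff004800e90023007c00ec0081000800cb000a00360096007e)

noncomputable def pi7_14 : ℕ :=
 (nat_lit 0x4040d0304090c0f0408060400070108030f010e09090e090a0b030d09090e030704)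

noncomputable def pi7_15 : ℕ :=
 (nat_lit 0x2010210311100231232211113232322303202112333032133111020333332210120)

noncomputable def pi7_16 : ℕ :=
 (nat_lit 0x50114501554545040415400410115550510550455154415044100014555555401001)

noncomputable def pi7 : List (ℕ × ℕ) :=
  [(nat_lit 1, pi7_0), (nat_lit 2, pi7_1), (nat_lit 4, pi7_2), (nat_lit 8, pi7_3), (nat_lit 16, pi7_4), (nat_lit 32, pi7_5), (nat_lit 64, pi7_6), (nat_lit 128, pi7_7), (nat_lit 256, pi7_8), (nat_lit 128, pi7_9), (nat_lit 64, pi7_10), (nat_lit 32, pi7_11), (nat_lit 16, pi7_12), (nat_lit 8, pi7_13), (nat_lit 4, pi7_14), (nat_lit 2, pi7_15), (nat_lit 1, pi7_16)]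

noncomputable def sg7_0 : ℕ :=
 (nat_lit 0x15404005045410410555151105040440500551510450404140550504040111045010)

noncomputable def sg7_1 : ℕ :=
 (nat_lit 0x32121303102001000020202222102200110313110203221001230122312033233110)

noncomputable def sg7_2 : ℕ :=
 (nat_lit 0x2080f070c02030605020f0f060906070f0806030d06000e0d0e0508090308010500)

noncomputable def sg7_3 : ℕ :=
 (nat_lit 0xd500b1006b0060008500fd00ab002400370072005a008800300007001100d60000)

noncomputable def sg7_4 : ℕ :=
 (nat_lit 0x98a90000363a000058330000bc7a00006e820000f1520000e02c00009210)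

noncomputable def sg7_5 : ℕ :=
 (nat_lit 0x60459000000005a447ac400000000018201320000000000004234)

noncomputable def sg7_6 : ℕ :=
 (nat_lit 0x4610b221455e001900000000000000000000000000002000)

noncomputable def sg7_7 : ℕ :=
 (nat_lit 0xfefd413e2b81f6a799e4bacf667e2004)

noncomputable def sg7_8 : ℕ :=
 (nat_lit 0xfbfe)

noncomputable def sg7_9 : ℕ :=
 (nat_lit 0xfffe)

noncomputable def sg7_10 : ℕ :=
 (nat_lit 0x82d8a2a24326d40000000000000000a54c920b601e59c8)

noncomputable def sg7_11 : ℕ :=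
 (nat_lit 0xf640471900000000761138b8000000009057063b00000000215efd36)

noncomputable def sg7_12 : ℕ :=
 (nat_lit 0xbc210000d5f100004cd10000dd3f0000bce90000b0830000c4fe0000b8cc)

noncomputable def sg7_13 : ℕ :=
 (nat_lit 0xe700e300e9007b00be00bf0082002e007a006600b7008300b5001b00b000640010)

noncomputable def sg7_14 : ℕ :=
 (nat_lit 0x10703030a000b000b0a0a040e0a0503040503070d02030c0607090a0200050504)

noncomputable def sg7_15 : ℕ :=
 (nat_lit 0x2101200023001120032323110002001100232103212002020312223133310002303)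

noncomputable def sg7_16 : ℕ :=
 (nat_lit 0x55500105401550045101514005154151555041514401504100400405411455441410)

noncomputable def sg7 : List (ℕ × ℕ) :=
  [(nat_lit 1, sg7_0), (nat_lit 2, sg7_1), (nat_lit 4, sg7_2), (nat_lit 8, sg7_3), (nat_lit 16, sg7_4), (nat_lit 32, sg7_5), (nat_lit 64, sg7_6), (nat_lit 128, sg7_7), (nat_lit 256, sg7_8), (nat_lit 128, sg7_9), (nat_lit 64, sg7_10), (nat_lit 32, sg7_11), (nat_lit 16, sg7_12), (nat_lit 8, sg7_13), (nat_lit 4, sg7_14), (nat_lit 2, sg7_15), (nat_lit 1, sg7_16)]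

noncomputable def sec7_1 : Sec :=
  ⟨nat_lit 1, nat_lit 0, nat_lit 21, [(0, 0)], tree1⟩

noncomputable def fm7_2_1b : ℕ × ℕ := memo
  (rp2 (ones (nat_lit 35)) (nat_lit 70))

noncomputable def fm7_2_1 : ℕ := fm7_2_1b.1

noncomputable def fm7_2_2b : ℕ × ℕ := memo
  (ones (nat_lit 70))

noncomputable def fm7_2_2 : ℕ := fm7_2_2b.1

noncomputable def sec7_2 : Sec :=
  ⟨nat_lit 2, nat_lit 21, nat_lit 140, [(0, 0), (nat_lit 35, fm7_2_1), (nat_lit 70, fm7_2_2)], tree2⟩

noncomputable def fm7_3_1b : ℕ × ℕ := memo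
  (rp2 (rp2 (rp2 (ones (nat_lit 7)) (nat_lit 14)) (nat_lit 28)) (nat_lit 56))

noncomputable def fm7_3_1 : ℕ := fm7_3_1b.1

noncomputable def fm7_3_2b : ℕ × ℕ := memo
  (rp2 (rp2 (ones (nat_lit 14)) (nat_lit 28)) (nat_lit 56))

noncomputable def fm7_3_2 : ℕ := fm7_3_2b.1

noncomputable def fm7_3_3b : ℕ × ℕ := memo
  (rp2 (ones (nat_lit 28)) (nat_lit 56))

noncomputable def fm7_3_3 : ℕ := fm7_3_3b.1

noncomputable def fm7_3_4b : ℕ × ℕ := memo
  (ones (nat_lit 56))

noncomputable def fm7_3_4 : ℕ := fm7_3_4b.1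

noncomputable def sec7_3 : Sec :=
  ⟨nat_lit 3, nat_lit 161, nat_lit 112, [(0, 0), (nat_lit 7, fm7_3_1), (nat_lit 14, fm7_3_2), (nat_lit 28, fm7_3_3), (nat_lit 56, fm7_3_4)], tree3⟩

noncomputable def pa7_0 : ℕ :=
 (nat_lit 0xfdfbf7efdfbf7efdfbf7efdfbf7e2596e5bbc4b2dcb778965b96ef12cb72dde0844b)

noncomputable def lay7 : Lay := ⟨nat_lit 7, pa7_0, [sec7_2, sec7_3], pi7, sg7⟩

end Pool.Agent.MP_31805c_co.H47
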