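import Pool.Agent.MP_31805c_co.H47.TFam
import Pool.Agent.MP_31805c_co.H47.Tri
import Pool.Agent.MP_31805c_co.H47.Fam

/-! Every graph with the property of Mac Lane on at least four vertices is a spanning subgraph of
a triangulation. -/

namespace Pool.Agent.MP_31805c_co.H47

open Finset
open Pool.Agent.MP_31805c_co.H93 (Conn)

/-- `F` is the set of faces of the triangulation `H` of the sphere. -/
structure Triang {V : Type} [Fintype V] [DecidableEq V] (H : SimpleGraph V)
    (F : Finset (Finset V)) : Prop where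
  tri : ∀ f ∈ F, ∃ u v w, T H u v w ∧ f = {u, v, w}
  two : ∀ u v, H.Adj u v → (F.filter fun f => u ∈ f ∧ v ∈ f).card = 2
  lc : ∀ (v : V) (X : Set (Finset V)),
    (∀ f ∈ X, f ∈ F → v ∈ f → ∀ g ∈ F, v ∈ g → ∀ w, w ≠ v → w ∈ f → w ∈ g → g ∈ X) →
    ∀ f ∈ X, f ∈ F → v ∈ f → ∀ g ∈ F, v ∈ g → g ∈ X
  conn : H.Connected
  span : ∀ a : Sym2 V → Z2,
    (∀ u v w, T H u v w → {u, v, w} ∈ F → a s(u, v) + a s(u, w) + a s(v, w) = 0) →
    ∃ p : V → Z2, ∀ u v, H.Adj u v → a s(u, v) = p u + p v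

namespace MT

open TF

variable {V : Type} [Fintype V] [DecidableEq V] {G : SimpleGraph V}
variable {I : Type} [Fintype I] {F : I → Sym2 V → Z2}

lemma tri_even {u v w : V} (ht : T G u v w) (y : V) :
    ∑ x, (ind u v s(y, x) + ind u w s(y, x) + ind v w s(y, x)) = 0 := by
  rw [Finset.sum_add_distrib, Finset.sum_add_distrib, sum_ind ht.1.ne, sum_ind ht.2.1.ne,
    sum_ind ht.2.2.ne]
  linear_combination z2_add (chi u y) + z2_add (chi v y) + z2_add (chi w y)

omit [Fintype V] in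
lemma tri_sub {u v w : V} (ht : T G u v w) (e : Sym2 V)
    (he : ind u v e + ind u w e + ind v w e ≠ 0) : e ∈ G.edgeSet := by
  rcases (tri_ne ht e).1 he with rfl | rfl | rfl
  exacts [ht.1, ht.2.1, ht.2.2]

/-- An edge between two components. -/
lemma add_bridge (h : Mac G) {u w : V} (hn : ¬G.Reachable u w) :
    Mac (G ⊔ SimpleGraph.edge u w) := by
  classical
  obtain ⟨I, _, F, hF⟩ := h
  refine ⟨I, inferInstance, F, fun i e he => SimpleGraph.edgeSet_mono le_sup_left (hF.sub i e he),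
    hF.even, hF.two, fun a ha => ?_⟩
  obtain ⟨p, hp⟩ := hF.span a ha
  have key : a s(u, w) = (p u + if G.Reachable u u then a s(u, w) + p u + p w else 0) +
      (p w + if G.Reachable u w then a s(u, w) + p u + p w else 0) := by
    rw [if_pos (SimpleGraph.Reachable.refl u), if_neg hn]
    linear_combination -z2_add (p u) - z2_add (p w)
  refine ⟨fun x => p x + if G.Reachable u x then a s(u, w) + p u + p w else 0, fun x y hxy => ?_⟩
  rcases hxy with h | h
  · have h1 : G.Reachable u x ↔ G.Reachable u y :=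
      ⟨fun r => r.trans h.reachable, fun r => r.trans h.symm.reachable⟩
    simp only [hp x y h, h1]
    linear_combination -z2_add (if G.Reachable u y then a s(u, w) + p u + p w else 0)
  · rcases ((SimpleGraph.edge_adj ..).1 h).1 with ⟨rfl, rfl⟩ | ⟨rfl, rfl⟩
    · exact key
    · rw [Sym2.eq_swap, add_comm]
      exact key

/-- A new triangle on two edges that are covered at most once. -/
lemma add_tri (hF : Fam G F) {v a b : V} (ha : G.Adj v a) (hb : G.Adj v b) (hab : a ≠ b)
    (hn : ¬G.Adj a b) (h1 : {i | F i s(v, a) ≠ 0}.ncard ≤ 1)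
    (h2 : {i | F i s(v, b) ≠ 0}.ncard ≤ 1) : Mac (G ⊔ SimpleGraph.edge a b) := by
  classical
  have ht : T (G ⊔ SimpleGraph.edge a b) v a b :=
    ⟨Or.inl ha, Or.inl hb, Or.inr ((SimpleGraph.edge_adj ..).2 ⟨Or.inl ⟨rfl, rfl⟩, hab⟩)⟩
  let F' : Option I → Sym2 V → Z2 := fun o =>
    o.elim (fun e => ind v a e + ind v b e + ind a b e) F
  refine ⟨Option I, inferInstance, F', ?_, ?_, fun e => ?_, fun c hc => ?_⟩
  · rintro (_ | i) e he
    · exact tri_sub ht e he
    · exact SimpleGraph.edgeSet_mono le_sup_left (hF.sub i e he)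
  · rintro (_ | i) y
    · exact tri_even ht y
    · exact hF.even i y
  · obtain ⟨k1, k2⟩ := FamAux.ncard_option {o | F' o e ≠ 0} {i | F i e ≠ 0} fun i hi => hi
    by_cases h0 : F' none e = 0
    · exact (k2 fun h => h h0).trans (hF.two e)
    · rcases (tri_ne ht e).1 h0 with rfl | rfl | rfl
      · omega
      · omega
      · have : {i | F i s(a, b) ≠ 0} = ∅ :=
          Set.eq_empty_of_forall_notMem fun i hi => hn (hF.sub i _ hi)
        rw [this, Set.ncard_empty] at k1
        omega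
  · obtain ⟨p, hp⟩ := hF.span c fun i => hc (some i)
    have h3 := hc none
    rw [TRI.Mem.sum (G := G ⊔ SimpleGraph.edge a b) (F := F') (i := none) ⟨ht, tri_ne ht⟩ c,
      hp v a ha, hp v b hb] at h3
    have key : c s(a, b) = p a + p b := by
      linear_combination h3 - z2_add (p v) - z2_add (p a) - z2_add (p b)
    refine ⟨p, fun x y hxy => ?_⟩
    rcases hxy with h | h
    · exact hp x y h
    · rcases ((SimpleGraph.edge_adj ..).1 h).1 with ⟨rfl, rfl⟩ | ⟨rfl, rfl⟩
      · exact key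
      · rw [Sym2.eq_swap, add_comm]
        exact key

lemma drop (hF : Fam G F) (e : Sym2 V) :
    ∃ R : Set I, R.Subsingleton ∧ ({i | F i e ≠ 0} \ R).ncard ≤ 1 := by
  by_cases h : ∃ i, F i e ≠ 0
  · obtain ⟨i, hi⟩ := h
    refine ⟨{i}, Set.subsingleton_singleton, ?_⟩
    have h1 := Set.ncard_sdiff_singleton_add_one (s := {j | F j e ≠ 0}) (a := i) hi
    have h2 := hF.two e
    omega
  · refine ⟨∅, Set.subsingleton_empty, ?_⟩
    have : {i | F i e ≠ 0} = ∅ := Set.eq_empty_of_forall_notMem fun i hi => h ⟨i, hi⟩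
    simp [this]

/-- An edge across a cut vertex. -/
lemma add_cut (h : Mac G) {v a b : V} (ha : G.Adj v a) (hb : G.Adj v b)
    (hn : ¬Conn G {v}ᶜ a b) : Mac (G ⊔ SimpleGraph.edge a b) := by
  classical
  obtain ⟨I, _, F, hF, hex⟩ := FamAux.exact' h
  let A : Set V := {x | Conn G {v}ᶜ a x}
  have hvA : v ∉ A := fun h => Conn.mem h ha.ne' rfl
  let s : Sym2 V → Z2 := fun e => if ∃ x ∈ A, x ∈ e then 1 else 0
  have hs : ∀ x y, s s(x, y) = if x ∈ A ∨ y ∈ A then 1 else 0 := fun x y =>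
    if_congr ⟨fun ⟨z, hz, h⟩ => (Sym2.mem_iff.1 h).elim (fun e => Or.inl (e ▸ hz))
      fun e => Or.inr (e ▸ hz), fun h => h.elim (fun h => ⟨x, h, Sym2.mem_mk_left _ _⟩)
        fun h => ⟨y, h, Sym2.mem_mk_right _ _⟩⟩ rfl rfl
  have hev0 : ∀ i x, x ≠ v → ∑ w, F i s(x, w) * s s(x, w) = 0 := by
    intro i x hx
    by_cases hxA : x ∈ A
    · simp only [hs, hxA, true_or, if_true, mul_one]
      exact hF.even i x
    · refine Finset.sum_eq_zero fun w _ => ?_
      by_cases h0 : F i s(x, w) = 0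
      · rw [h0, zero_mul]
      · rw [hs, if_neg, mul_zero]
        rintro (h | h)
        · exact hxA h
        · exact hxA (Conn.trans h (Conn.adj (SimpleGraph.Adj.symm (hF.sub i _ h0))
            (Conn.mem h ha.ne') hx))
  have hev : ∀ i x, ∑ w, F i s(x, w) * s s(x, w) = 0 := by
    intro i x
    by_cases hx : x = v
    swap
    · exact hev0 i x hx
    have h1 := FamAux.sum_cob (fun e => F i e * s e)
      (fun y => by rw [FamAux.diag_zero (hF.sub i), zero_mul]) fun _ => 1
    rw [Finset.sum_eq_single x (s := univ) (f := fun y => (1 : Z2) * ∑ w, F i s(y, w) * s s(y, w))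
      (fun y _ hy => by rw [hev0 i y (hx ▸ hy), mul_zero]) (fun h => absurd (mem_univ _) h),
      one_mul] at h1
    rw [← h1]
    refine Finset.sum_eq_zero fun e _ => ?_
    induction e using Sym2.ind with
    | _ y z => rw [FamAux.cob_mk, z2_add, mul_zero]
  obtain ⟨Ra, hRa, hRa'⟩ := drop hF s(v, a)
  obtain ⟨Rb, hRb, hRb'⟩ := drop hF s(v, b)
  let σ : Bool → Sym2 V → Z2 := fun c e => if c then s e else 1 + s e
  let R : Bool → Set I := fun c => if c then Ra else Rb
  have hR : ∀ c, (R c).Subsingleton := fun c => by cases c <;> assumption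
  let F' : I × Bool → Sym2 V → Z2 := fun j e => if j.1 ∈ R j.2 then 0 else F j.1 e * σ j.2 e
  have hne : ∀ j e, F' j e ≠ 0 → j.1 ∉ R j.2 ∧ F j.1 e ≠ 0 ∧ σ j.2 e ≠ 0 := by
    intro j e h
    by_cases hj : j.1 ∈ R j.2
    · exact (h (if_pos hj)).elim
    · have : F j.1 e * σ j.2 e ≠ 0 := fun h' => h ((if_neg hj).trans h')
      exact ⟨hj, left_ne_zero_of_mul this, right_ne_zero_of_mul this⟩
  have hσ : ∀ c c' e, σ c e ≠ 0 → σ c' e ≠ 0 → c = c' := by
    intro c c' e
    simp only [σ]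
    generalize s e = t
    revert c c' t
    decide
  have hF' : Fam G F' := by
    refine ⟨fun j e he => hF.sub j.1 e (hne j e he).2.1, fun j x => ?_, fun e => ?_,
      fun c hc => hF.span c fun i => ?_⟩
    · by_cases hj : j.1 ∈ R j.2
      · simp [F', hj]
      · simp only [F', if_neg hj, σ]
        cases j.2
        · simp only [Bool.false_eq_true, if_false, mul_add, mul_one, Finset.sum_add_distrib,
            hF.even, hev, add_zero]
        · simp only [if_true, hev]
    · refine (Set.ncard_le_ncard_of_injOn Prod.fst (fun j hj => (hne j e hj).2.1)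
        (fun j hj k hk hjk => Prod.ext hjk (hσ _ _ e (hne j e hj).2.2 (hne k e hk).2.2))
        (Set.toFinite _)).trans (hF.two e)
    · have h1 : ∀ d j, j ∉ R d → ∑ e, F j e * σ d e * c e = 0 := fun d j hj => by
        have := hc (j, d)
        simpa only [F', if_neg hj] using this
      have h2 : ∀ d j, ∑ e, F j e * σ d e * c e = 0 := fun d j => by
        by_cases hj : j ∈ R d
        · have h3 : ∑ k, ∑ e, F k e * σ d e * c e = 0 := by
            rw [Finset.sum_comm]
            refine Finset.sum_eq_zero fun e _ => ?_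
            rw [← Finset.sum_mul, ← Finset.sum_mul, hex, zero_mul, zero_mul]
          rwa [Finset.sum_eq_single j (fun k _ hk => h1 d k fun h => hk (hR d h hj))
            (fun h => absurd (mem_univ _) h)] at h3
        · exact h1 d j hj
      rw [← add_zero (0 : Z2)]
      nth_rewrite 1 [← h2 true i]
      rw [← h2 false i, ← Finset.sum_add_distrib]
      refine Finset.sum_congr rfl fun e _ => ?_
      simp only [σ, if_true, Bool.false_eq_true, if_false]
      linear_combination -(F i e * c e) * z2_add (s e)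
  have haA : a ∈ A := Conn.refl _ _
  refine add_tri hF' ha hb (fun e => hn (e ▸ Conn.refl _ _))
    (fun h => hn (Conn.adj h ha.ne' hb.ne')) ?_ ?_
  · have h1 : σ true s(v, a) ≠ 0 := by
      simp only [σ, if_true, hs, haA, or_true]
      decide
    refine (Set.ncard_le_ncard_of_injOn Prod.fst (fun j hj => ?_)
        (fun j hj k hk hjk => Prod.ext hjk (hσ _ _ _ (hne j _ hj).2.2 (hne k _ hk).2.2))
        (Set.toFinite _)).trans hRa'
    obtain ⟨k1, k2, k3⟩ := hne j _ hj
    rw [hσ _ _ _ k3 h1] at k1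
    exact ⟨k2, k1⟩
  · have h1 : σ false s(v, b) ≠ 0 := by
      have : ¬(v ∈ A ∨ b ∈ A) := fun h => h.elim hvA hn
      simp only [σ, Bool.false_eq_true, if_false, hs, this]
      decide
    refine (Set.ncard_le_ncard_of_injOn Prod.fst (fun j hj => ?_)
        (fun j hj k hk hjk => Prod.ext hjk (hσ _ _ _ (hne j _ hj).2.2 (hne k _ hk).2.2))
        (Set.toFinite _)).trans hRb'
    obtain ⟨k1, k2, k3⟩ := hne j _ hj
    rw [hσ _ _ _ k3 h1] at k1
    exact ⟨k2, k1⟩

lemma cover (hF : Fam G F) (hex : ∀ e, ∑ i, F i e = 0) (e : Sym2 V) :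
    (∀ j, F j e = 0) ∨ ∃ j k, (∀ m, F m e ≠ 0 → m = j ∨ m = k) ∧
      ∀ ρ : I → Z2, ∑ m, ρ m * F m e = ρ j + ρ k := by
  classical
  have h2 := hF.two e
  have h0 := hex e
  rw [FamAux.sum_eq_ncard] at h0
  have h1 : {i | F i e ≠ 0}.ncard ≠ 1 := by
    intro h
    rw [h] at h0
    exact absurd h0 (by decide)
  by_cases h3 : {i | F i e ≠ 0}.ncard = 0
  · left
    intro j
    by_contra hj
    rw [Set.ncard_eq_zero (Set.toFinite _)] at h3
    exact (h3 ▸ (show j ∈ {i | F i e ≠ 0} from hj) : j ∈ (∅ : Set I))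
  · right
    obtain ⟨j, k, hjk, hs⟩ := Set.ncard_eq_two.1 (show {i | F i e ≠ 0}.ncard = 2 by omega)
    have hm : ∀ m, F m e ≠ 0 ↔ m = j ∨ m = k := fun m => Set.ext_iff.1 hs m
    refine ⟨j, k, fun m => (hm m).1, fun ρ => ?_⟩
    rw [← Finset.sum_subset (Finset.subset_univ {j, k}), Finset.sum_pair hjk,
      TRI.z2_one ((hm j).2 (Or.inl rfl)), TRI.z2_one ((hm k).2 (Or.inr rfl)), mul_one, mul_one]
    intro m _ hm'
    simp only [Finset.mem_insert, Finset.mem_singleton] at hm'
    rw [not_not.1 (mt (hm m).1 hm'), mul_zero]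

lemma prim0 (hF : Fam G F) (hex : ∀ e, ∑ i, F i e = 0) (i : I) {u v w : V} (ht : T G u v w) :
    ∃ σ : I → Z2, σ i = 0 ∧ ∀ e, ∑ j, σ j * F j e = ind u v e + ind u w e + ind v w e := by
  obtain ⟨σ, hσ⟩ := FamAux.prim' hF _ (tri_sub ht) (tri_even ht)
  refine ⟨fun j => σ j + σ i, z2_add _, fun e => ?_⟩
  simp only [add_mul, Finset.sum_add_distrib]
  rw [← Finset.mul_sum, hex, mul_zero, add_zero, ← hσ]

/-- The two chords of a path of length three in a member cross. -/
lemma no_cross (hF : Fam G F) (hex : ∀ e, ∑ i, F i e = 0) {i : I} {u v w x : V}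
    (h1 : F i s(u, v) ≠ 0) (h2 : F i s(v, w) ≠ 0) (h3 : F i s(u, x) ≠ 0) (huw : G.Adj u w)
    (hvx : G.Adj v x) (hwx : w ≠ x) : False := by
  have t1 : T G u v w := ⟨hF.sub i _ h1, huw, hF.sub i _ h2⟩
  have t2 : T G u v x := ⟨hF.sub i _ h1, hF.sub i _ h3, hvx⟩
  obtain ⟨σ, hσi, hσ⟩ := prim0 hF hex i t1
  obtain ⟨τ, hτi, hτ⟩ := prim0 hF hex i t2
  let C : Sym2 V → Z2 := fun e => ∑ j, σ j * τ j * F j e
  have hev : ∀ y, ∑ z, C s(y, z) = 0 := fun y => by
    simp only [C]
    rw [Finset.sum_comm]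
    exact Finset.sum_eq_zero fun j _ => by rw [← Finset.mul_sum, hF.even, mul_zero]
  have hz : ∀ e, ¬(e = s(u, v) ∨ e = s(u, w) ∨ e = s(v, w)) →
      ¬(e = s(u, v) ∨ e = s(u, x) ∨ e = s(v, x)) → C e = 0 := by
    intro e k1 k2
    rw [← tri_ne t1, not_not, ← hσ] at k1
    rw [← tri_ne t2, not_not, ← hτ] at k2
    rcases cover hF hex e with h | ⟨j, k, -, h⟩
    · simp [C, h]
    · simp only [C]
      rw [h] at k1 k2 ⊢
      rw [z2_eq' k1, z2_eq' k2, z2_add]
  have hp : ∀ e, F i e ≠ 0 → C e = (ind u v e + ind u w e + ind v w e) *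
      (ind u v e + ind u x e + ind v x e) := by
    intro e he
    rw [← hσ, ← hτ]
    rcases cover hF hex e with h | ⟨j, k, hm, h⟩
    · exact (he (h i)).elim
    · simp only [C]
      rw [h, h, h]
      rcases hm i he with rfl | rfl <;> simp [hσi, hτi]
  have n1 := t1.1.ne
  have n2 := t1.2.1.ne
  have n3 := t1.2.2.ne
  have n4 := t2.2.1.ne
  have n5 := t2.2.2.ne
  have c1 : C s(u, v) ≠ 0 := by
    rw [hp _ h1]
    exact mul_ne_zero ((tri_ne t1 _).2 (Or.inl rfl)) ((tri_ne t2 _).2 (Or.inl rfl))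
  have c2 : C s(v, w) = 0 := by
    rw [hp _ h2, not_not.1 (mt (tri_ne t2 _).1 _), mul_zero]
    simp only [Sym2.eq_iff]
    tauto
  have c3 : C s(u, x) = 0 := by
    rw [hp _ h3, not_not.1 (mt (tri_ne t1 _).1 _), zero_mul]
    simp only [Sym2.eq_iff]
    tauto
  have c4 : C s(w, u) = 0 := by
    have := hev w
    rwa [Finset.sum_eq_single u (fun z _ hz' => ?_) (fun h => absurd (mem_univ _) h)] at this
    by_cases hzv : z = v
    · rw [hzv, Sym2.eq_swap, c2]
    · refine hz _ ?_ ?_ <;> simp only [Sym2.eq_iff] <;> tauto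
  have := hev u
  rw [Finset.sum_eq_single v (fun z _ hz' => ?_) (fun h => absurd (mem_univ _) h)] at this
  · exact c1 this
  by_cases hzw : z = w
  · rw [hzw, Sym2.eq_swap, c4]
  by_cases hzx : z = x
  · rw [hzx, c3]
  · refine hz _ ?_ ?_ <;> simp only [Sym2.eq_iff] <;> tauto

/-- The graph is maximal with the property of Mac Lane. -/
structure Max (G : SimpleGraph V) : Prop where
  mac : Mac G
  max : ∀ H, G < H → ¬Mac H

lemma Max.adj (h : Max G) {u w : V} (huw : u ≠ w) (hm : Mac (G ⊔ SimpleGraph.edge u w)) :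
    G.Adj u w := by
  by_contra hn
  exact h.max _ (G.lt_sup_edge u w huw hn) hm

lemma Max.reach (h : Max G) (u w : V) : G.Reachable u w := by
  by_contra hn
  exact hn (h.adj (fun e : u = w => hn (e ▸ .refl _)) (add_bridge h.mac hn)).reachable

lemma Max.nocut (h : Max G) (v : V) : ¬Cut G v := by
  rintro ⟨a, b, ha, hb, hn⟩
  exact hn (Conn.adj (h.adj (fun e => hn (e ▸ Conn.refl _ _)) (add_cut h.mac ha hb hn))
    ha.ne' hb.ne')

omit [DecidableEq V] in
lemma closed (hr : ∀ u w, G.Reachable u w) {S : Set V} {u : V} (hu : u ∈ S)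
    (hS : ∀ x ∈ S, ∀ y, G.Adj x y → y ∈ S) : Fintype.card V ≤ S.ncard := by
  have : S = Set.univ := Set.eq_univ_of_forall fun y => by
    have h := (SimpleGraph.reachable_iff_reflTransGen u y).1 (hr u y)
    induction h with
    | refl => exact hu
    | tail _ h ih => exact hS _ ih _ h
  rw [this, Set.ncard_univ, Nat.card_eq_fintype_card]

lemma Max.second (h : Max G) (hV : 4 ≤ Fintype.card V) {v u : V} (hvu : G.Adj v u) :
    ∃ w, G.Adj v w ∧ u ≠ w := by
  by_contra hn
  push Not at hn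
  have h1 := closed h.reach (S := {v, u}) (u := v) (Or.inl rfl) (by
    rintro x (rfl | rfl) y hy
    · exact Or.inr (hn y hy).symm
    · by_contra hy'
      refine h.nocut x ⟨v, y, hvu.symm, hy, fun hc => ?_⟩
      have key : ∀ z, Conn G {x}ᶜ v z → z = v := by
        intro z hz
        induction hz with
        | refl => rfl
        | tail _ h ih => exact absurd (hn _ (ih ▸ h.1)).symm h.2.2
      exact hy' (Or.inl (key y hc)))
  have h2 := Set.ncard_insert_le v {u}
  rw [Set.ncard_singleton] at h2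
  omega

lemma Max.path (h : Max G) (hF : Fam G F) (i : I) (P : Sym2 V → Z2) {u w : V}
    (huw : u ≠ w) (h1 : ∀ e, P e ≠ 0 → F i e ≠ 0)
    (h2 : ∀ y, ∑ x, P s(y, x) = chi u y + chi w y) : G.Adj u w := by
  refine h.adj huw (FamAux.cut' hF i P u w huw h1 fun y => ?_)
  rw [h2]
  unfold chi
  by_cases h3 : y = u <;> by_cases h4 : y = w <;> simp_all

lemma Max.path2 (h : Max G) (hF : Fam G F) {i : I} {v u w : V} (huw : u ≠ w)
    (hu : F i s(v, u) ≠ 0) (hw : F i s(v, w) ≠ 0) : G.Adj u w :=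
  h.path hF i (fun e => ind v u e + ind v w e) huw
    (fun e hP => by
      by_cases h1 : ind v u e = 0
      · rw [h1, zero_add] at hP
        rw [ind_ne hP]
        exact hw
      · rw [ind_ne h1]
        exact hu)
    (fun y => by
      rw [Finset.sum_add_distrib, sum_ind (SimpleGraph.Adj.ne (hF.sub i _ hu)),
        sum_ind (SimpleGraph.Adj.ne (hF.sub i _ hw))]
      linear_combination z2_add (chi v y))

lemma Max.has_tri (h : Max G) (hF : Fam G F) (hex : ∀ e, ∑ i, F i e = 0) {i : I}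
    (hi : ∃ e, F i e ≠ 0) :
    ∃ u v w, T G u v w ∧ F i s(u, v) ≠ 0 ∧ F i s(u, w) ≠ 0 ∧ F i s(v, w) ≠ 0 := by
  obtain ⟨e, he⟩ := hi
  induction e using Sym2.ind with
  | _ v w =>
  have he' : F i s(w, v) ≠ 0 := by rwa [Sym2.eq_swap]
  obtain ⟨u, huw, hu⟩ := next hF he
  obtain ⟨x, hxv, hx⟩ := next hF he'
  by_cases hux : u = x
  · subst hux
    exact ⟨v, w, u, ⟨hF.sub i _ he, hF.sub i _ hu, hF.sub i _ hx⟩, he, hu, hx⟩
  exact (no_cross hF hex he' hu hx (h.path2 hF huw hu he).symm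
    (h.path2 hF hxv hx he').symm hux).elim

lemma Max.tfam (h : Max G) (hV : 4 ≤ Fintype.card V) :
    ∃ (I : Type) (_ : Fintype I) (F : I → Sym2 V → Z2), TFam G F := by
  obtain ⟨n, ⟨I, _, F, hF, hex, hnz, hn⟩, hmax⟩ :=
    Set.Finite.exists_maximal (s := {n | Good G n})
      ((Set.finite_Iic (2 * Fintype.card (Sym2 V))).subset fun n hn => good_le hn)
      (good_ex fam h.mac)
  refine ⟨I, inferInstance, F, hF, fun i => ?_, fun e he => ?_⟩
  · obtain ⟨u, v, w, ht, a1, a2, a3⟩ := h.has_tri hF hex (hnz i)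
    refine ⟨u, v, w, ht, fun e => ?_⟩
    have key : F i = fun e => ind u v e + ind u w e + ind v w e := by
      by_contra hne
      have h1 := split hF hex hnz i _ ⟨s(u, v), (tri_ne ht _).2 (Or.inl rfl)⟩
        (fun e he => by
          rcases (tri_ne ht e).1 he with rfl | rfl | rfl
          exacts [a1, a2, a3]) (tri_even ht) hne
      have h2 := hmax h1 (by omega)
      omega
    rw [key]
    exact tri_ne ht e
  · induction e using Sym2.ind with
    | _ v u =>
    have hvu : G.Adj v u := he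
    obtain ⟨w, hw, huw⟩ := h.second hV hvu
    refine FamAux.bridge' hF hex u v w hvu hw huw ?_
    by_contra hn
    exact h.nocut v ⟨u, w, hvu, hw, hn⟩

open TRI

lemma Max.mem_inj (h : Max G) (hV : 4 ≤ Fintype.card V) (hF : TFam G F) {i j : I}
    {u v w : V} (hi : Mem G F i u v w) (hj : Mem G F j u v w) : i = j := by
  by_contra hij
  have key : ∀ {u v w : V}, Mem G F i u v w → Mem G F j u v w → ∀ x, G.Adj u x →
      x = v ∨ x = w := by
    intro u v w hi hj x hx
    have h1 := flink hF (h.nocut u) hi.1.1 hx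
    clear hx
    induction h1 with
    | refl => exact Or.inl rfl
    | tail _ h ih =>
      obtain ⟨k, hk⟩ := h
      rcases ih with rfl | rfl
      · rcases two_only hF hij hi.ne hj.ne hk.ne with rfl | rfl
        · exact Or.inr (hi.uniq hk)
        · exact Or.inr (hj.uniq hk)
      · rcases two_only hF hij hi.s23.ne hj.s23.ne hk.ne with rfl | rfl
        · exact Or.inl (hi.s23.uniq hk)
        · exact Or.inl (hj.s23.uniq hk)
  have h1 := closed h.reach (S := {u, v, w}) (u := u) (Or.inl rfl) (by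
    rintro x (rfl | rfl | rfl) y hy
    · exact Or.inr (key hi hj y hy)
    · exact (key hi.s12 hj.s12 y hy).elim Or.inl fun e => Or.inr (Or.inr e)
    · exact (key hi.s23.s12 hj.s23.s12 y hy).elim Or.inl fun e => Or.inr (Or.inl e))
  have h2 := Set.ncard_insert_le u {v, w}
  have h3 := Set.ncard_insert_le v {w}
  rw [Set.ncard_singleton] at h3
  omega

/-- The vertices of a member. -/
def vs (F : I → Sym2 V → Z2) (i : I) : Finset V := univ.filter fun x => ∃ y, F i s(x, y) ≠ 0

omit [Fintype I] in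
lemma vs_eq {i : I} {u v w : V} (h : Mem G F i u v w) : vs F i = {u, v, w} := by
  ext x
  simp only [vs, mem_filter, mem_univ, true_and, mem_insert, mem_singleton]
  constructor
  · rintro ⟨y, hy⟩
    rcases (h.2 _).1 hy with e | e | e <;> rw [Sym2.eq_iff] at e <;> tauto
  · rintro (rfl | rfl | rfl)
    exacts [⟨_, h.ne⟩, ⟨_, h.s12.ne⟩, ⟨_, h.s23.s12.ne⟩]

lemma ne_of_vs (hF : TFam G F) {i : I} {a b : V} (ha : a ∈ vs F i) (hb : b ∈ vs F i)
    (hab : a ≠ b) : F i s(a, b) ≠ 0 := by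
  obtain ⟨u, v, w, hm⟩ := hF.tri i
  have hm : Mem G F i u v w := hm
  rw [vs_eq hm] at ha hb
  simp only [mem_insert, mem_singleton] at ha hb
  rcases ha with rfl | rfl | rfl <;> rcases hb with rfl | rfl | rfl
  exacts [(hab rfl).elim, hm.ne, hm.s23.ne, hm.s12.ne, (hab rfl).elim, hm.s12.s23.ne,
    hm.s23.s12.ne, hm.s12.s23.s12.ne, (hab rfl).elim]

lemma mem_of_vs (hF : TFam G F) {i : I} {u v w : V} (ht : T G u v w) (h : vs F i = {u, v, w}) :
    Mem G F i u v w := by
  obtain ⟨z, hz⟩ := mem_of_ne hF (ne_of_vs hF (i := i) (a := u) (b := v) (by simp [h])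
    (by simp [h]) ht.1.ne)
  have := hz.third (ne_of_vs hF (i := i) (a := u) (b := w) (by simp [h]) (by simp [h])
    ht.2.1.ne) ht.2.2.ne'
  exact this ▸ hz

lemma Max.triang (h : Max G) (hV : 4 ≤ Fintype.card V) : ∃ F, Triang G F := by
  obtain ⟨I, _, F, hF⟩ := h.tfam hV
  refine ⟨univ.image (vs F), fun f hf => ?_, fun u v huv => ?_,
    fun v X hX f hfX hf hvf g hg hvg => ?_, ?_, fun a ha => hF.span a fun i => ?_⟩
  · obtain ⟨i, -, rfl⟩ := mem_image.1 hf
    obtain ⟨u, v, w, hm⟩ := hF.tri i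
    exact ⟨u, v, w, hm.1, vs_eq hm⟩
  · obtain ⟨i, j, w, w', hij, hi, hj⟩ := ex_two hF huv
    rw [card_eq_two]
    refine ⟨vs F i, vs F j, fun e => hij ?_, ?_⟩
    · exact h.mem_inj hV hF hi (mem_of_vs hF hi.1 (e ▸ vs_eq hi))
    · ext f
      simp only [mem_filter, mem_image, mem_univ, true_and, mem_insert, mem_singleton]
      constructor
      · rintro ⟨⟨k, rfl⟩, h1, h2⟩
        rcases two_only hF hij hi.ne hj.ne (ne_of_vs hF h1 h2 huv.ne) with rfl | rfl
        exacts [Or.inl rfl, Or.inr rfl]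
      · rintro (rfl | rfl)
        · exact ⟨⟨i, rfl⟩, by simp [vs_eq hi], by simp [vs_eq hi]⟩
        · exact ⟨⟨j, rfl⟩, by simp [vs_eq hj], by simp [vs_eq hj]⟩
  · obtain ⟨i, -, rfl⟩ := mem_image.1 hf
    obtain ⟨j, -, rfl⟩ := mem_image.1 hg
    obtain ⟨a, ha⟩ := (mem_filter.1 hvf).2
    obtain ⟨b, hb⟩ := (mem_filter.1 hvg).2
    have hm : ∀ k x, F k s(v, x) ≠ 0 → v ∈ vs F k ∧ x ∈ vs F k := fun k x hk =>
      ⟨mem_filter.2 ⟨mem_univ _, x, hk⟩, mem_filter.2 ⟨mem_univ _, v, by rwa [Sym2.eq_swap]⟩⟩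
    have step : ∀ k k' x, vs F k ∈ X → F k s(v, x) ≠ 0 → F k' s(v, x) ≠ 0 → vs F k' ∈ X :=
      fun k k' x h1 h2 h3 => hX _ h1 (mem_image_of_mem _ (mem_univ k)) (hm k x h2).1 _
        (mem_image_of_mem _ (mem_univ k')) (hm k' x h3).1 x
        (SimpleGraph.Adj.ne' (hF.sub k _ h2)) (hm k x h2).2 (hm k' x h3).2
    have h1 : Relation.ReflTransGen (Face G F v) a b :=
      flink hF (h.nocut v) (hF.sub i _ ha) (hF.sub j _ hb)
    clear hg hvg
    induction h1 generalizing j with
    | refl => exact step i j a hfX ha hb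
    | tail _ h ih =>
      obtain ⟨k, hk⟩ := h
      exact step k j _ (ih k hk.ne) hk.s23.ne hb
  · have : Nonempty V := Fintype.card_pos_iff.1 (by omega)
    exact ⟨h.reach⟩
  · obtain ⟨u, v, w, hm⟩ := hF.tri i
    rw [Mem.sum hm]
    exact ha u v w hm.1 (vs_eq hm ▸ mem_image_of_mem _ (mem_univ i))

end MT

/-- A graph with the property of Mac Lane is a spanning subgraph of a triangulation. -/
theorem maxTri {V : Type} [Fintype V] [DecidableEq V] (G : SimpleGraph V) (h : Mac G)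
    (hV : 4 ≤ Fintype.card V) : ∃ H, G ≤ H ∧ Mac H ∧ ∃ F, Triang H F := by
  obtain ⟨H, ⟨h1, h2⟩, h3⟩ := Set.Finite.exists_maximal (s := {H | G ≤ H ∧ Mac H})
    (Set.toFinite _) ⟨G, le_rfl, h⟩
  exact ⟨H, h1, h2, MT.Max.triang ⟨h2, fun K hK hm =>
    hK.not_ge (h3 ⟨h1.trans hK.le, hm⟩ hK.le)⟩ hV⟩

end Pool.Agent.MP_31805c_co.H47
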