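import Pool.Agent.MP_31805c_co.H47.SpecB

namespace Pool.Agent.MP_31805c_co.H47

/-- Two copies of `x`, at the distance `w`. -/
def rp2 (x w : ℕ) : ℕ := Nat.lor x (Nat.shiftLeft x w)

/-- The pair `(x, 0)`, written so that `x` is evaluated once. -/
noncomputable def memo (x : ℕ) : ℕ × ℕ := Nat.rec (0, 0) (fun k _ => (k, 0)) (Nat.add x 1)

end Pool.Agent.MP_31805c_co.H47
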