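import Pool.Agent.MP_31805c_co.H47.X12
import Pool.Agent.MP_31805c_co.H47.OkAux

namespace Pool.Agent.MP_31805c_co.H47

set_option maxRecDepth 100000
set_option maxHeartbeats 0

noncomputable def Pt12A := only (mA cx12.d) (5 * c0 cx12.d)
noncomputable def It12A := flt (Nat.shiftLeft 31 (25 * c0 cx12.d)) Pt12A (flt 31 Pt12A ((comp cx12.d true false cx12.R) ++ (comp cx12.d true true cx12.R)))
noncomputable def Ot12A := flt (Nat.shiftLeft 31 (25 * c0 cx12.d)) Pt12A (flt 31 Pt12A ((comp cx12.d false false cx12.R) ++ (comp cx12.d false true cx12.R)))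

noncomputable def Pt12Aa := Nat.lor Pt12A (Nat.shiftLeft 2 125)
noncomputable def It12Aa := flt (Nat.shiftLeft 31 125) Pt12Aa It12A
noncomputable def Ot12Aa := flt (Nat.shiftLeft 31 125) Pt12Aa Ot12A

theorem ok_t12Aa : okT cx12 (2 * cx12.O) t12Aa Pt12Aa It12Aa Ot12Aa = true := by decide +kernel

noncomputable def Pt12Ab := Nat.lor Pt12A (Nat.shiftLeft 1 125)
noncomputable def It12Ab := flt (Nat.shiftLeft 31 125) Pt12Ab It12A
noncomputable def Ot12Ab := flt (Nat.shiftLeft 31 125) Pt12Ab Ot12A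

theorem ok_t12Ab : okT cx12 (2 * cx12.O) t12Ab Pt12Ab It12Ab Ot12Ab = true := by decide +kernel

theorem ok_t12A : okT cx12 (2 * cx12.O) t12A Pt12A It12A Ot12A = true :=
  okT_node (by decide +kernel) ok_t12Aa ok_t12Ab

theorem okA12 : okA cx12 = true :=
  ok_t12A

noncomputable def Pt12P := Nat.shiftLeft (mA cx12.d) (25 * c0 cx12.d)
noncomputable def It12P := flt (Nat.shiftLeft 31 (25 * c0 cx12.d)) Pt12P (flt 31 Pt12P (comp cx12.d true false cx12.R))
noncomputable def Ot12P := flt (Nat.shiftLeft 31 (25 * c0 cx12.d)) Pt12P (flt 31 Pt12P (comp cx12.d false false cx12.R))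

theorem ok_t12P : okT cx12 cx12.O t12P Pt12P It12P Ot12P = true := by decide +kernel

theorem okP12 : okP cx12 = true :=
  or_right' ok_t12P

noncomputable def Pt12M := Nat.shiftLeft (mA cx12.d) (25 * c0 cx12.d)
noncomputable def It12M := flt (Nat.shiftLeft 31 (25 * c0 cx12.d)) Pt12M (flt 31 Pt12M (comp cx12.d true true cx12.R))
noncomputable def Ot12M := flt (Nat.shiftLeft 31 (25 * c0 cx12.d)) Pt12M (flt 31 Pt12M (comp cx12.d false true cx12.R))

theorem ok_t12M : okT cx12 cx12.O t12M Pt12M It12M Ot12M = true := by decide +kernel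

theorem okM12 : okM cx12 = true :=
  or_right' ok_t12M

end Pool.Agent.MP_31805c_co.H47
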