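import Pool.Agent.MP_31805c_co.H47.SpecA

/-! A graph drawn in the plane is a minor of a square grid. -/

namespace Pool.Agent.MP_31805c_co.H47

open Set
open Pool.Agent.MP_31805c_co.H93 (IsPlanar Conn)

namespace Top

/-- The closed cell with lower left corner `a`, in the coordinates `x`, `y`. -/
def cell {n : ℕ} (x y : ℂ → ℝ) (a : Fin n × Fin n) : Set ℂ :=
  x ⁻¹' Icc (a.1 : ℕ) ((a.1 : ℕ) + 1) ∩ y ⁻¹' Icc (a.2 : ℕ) ((a.2 : ℕ) + 1)

theorem near {i j : ℕ} {s : ℝ} (hi : s ∈ Icc (i : ℝ) (i + 1)) (hj : s ∈ Icc (j : ℝ) (j + 1)) :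
    i = j ∨ i + 1 = j ∨ j + 1 = i := by
  have h1 : i ≤ j + 1 := by exact_mod_cast hi.1.trans hj.2
  have h2 : j ≤ i + 1 := by exact_mod_cast hj.1.trans hi.2
  omega

theorem exists_idx {n : ℕ} {s : ℝ} (h : s ∈ Ico (0 : ℝ) n) :
    ∃ i : Fin n, s ∈ Icc ((i : ℕ) : ℝ) ((i : ℕ) + 1) :=
  ⟨⟨⌊s⌋₊, (Nat.floor_lt h.1).2 h.2⟩, Nat.floor_le h.1, (Nat.lt_floor_add_one s).le⟩

theorem step {n : ℕ} {U : Set (Fin n × Fin n)} {a b : Fin n × Fin n} (ha : a ∈ U) (hb : b ∈ U)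
    (h : a.1 = b.1 ∧ ((a.2 : ℕ) = b.2 ∨ (a.2 : ℕ) + 1 = b.2 ∨ (b.2 : ℕ) + 1 = a.2) ∨
      a.2 = b.2 ∧ ((a.1 : ℕ) = b.1 ∨ (a.1 : ℕ) + 1 = b.1 ∨ (b.1 : ℕ) + 1 = a.1)) :
    Conn (grid n) U a b := by
  by_cases e : a = b
  · exact e ▸ Conn.refl _ _
  refine Conn.adj ((SimpleGraph.fromRel_adj _ _ _).2 ⟨e, ?_⟩) ha hb
  rw [Prod.ext_iff, Fin.ext_iff, Fin.ext_iff] at e
  simp only [Fin.ext_iff] at h ⊢
  omega

theorem conn {n : ℕ} {x y : ℂ → ℝ} (hx : Continuous x) (hy : Continuous y) {X : Set ℂ}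
    (hX : IsPreconnected X) (hc : ∀ p ∈ X, ∃ a : Fin n × Fin n, p ∈ cell x y a)
    {a b : Fin n × Fin n} (ha : a ∈ {a | (X ∩ cell x y a).Nonempty})
    (hb : b ∈ {a | (X ∩ cell x y a).Nonempty}) :
    Conn (grid n) {a | (X ∩ cell x y a).Nonempty} a b := by
  by_contra h
  have cl : ∀ C : Set (Fin n × Fin n), IsClosed (⋃ c ∈ C, cell x y c) := fun C =>
    C.toFinite.isClosed_biUnion fun _ _ => (isClosed_Icc.preimage hx).inter (isClosed_Icc.preimage hy)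
  let C := {c | Conn (grid n) {a | (X ∩ cell x y a).Nonempty} a c}
  obtain ⟨p, hp, h1, h2⟩ := isPreconnected_closed_iff.1 hX _ _ (cl C) (cl Cᶜ) (fun p hp => by
      obtain ⟨c, h'⟩ := hc p hp
      exact (em (c ∈ C)).imp (mem_biUnion · h') (mem_biUnion · h'))
    (ha.mono (inter_subset_inter_right _ (subset_biUnion_of_mem (u := cell x y) (Conn.refl _ a))))
    (hb.mono (inter_subset_inter_right _ (subset_biUnion_of_mem (u := cell x y) h)))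
  obtain ⟨c, h3, h4⟩ := mem_iUnion₂.1 h1
  obtain ⟨d, h5, h6⟩ := mem_iUnion₂.1 h2
  exact h5 ((h3.trans (step (b := (d.1, c.2)) ⟨p, hp, h4⟩ ⟨p, hp, h6.1, h4.2⟩
    (.inr ⟨rfl, near h4.1 h6.1⟩))).trans
      (step ⟨p, hp, h6.1, h4.2⟩ ⟨p, hp, h6⟩ (.inl ⟨rfl, near h4.2 h6.2⟩)))

/-- Finitely many continua are replaced by connected sets of cells that meet in the same way. -/
theorem gridify {J : Type} [Finite J] (K : J → Set ℂ) (h1 : ∀ i, IsCompact (K i))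
    (h2 : ∀ i, IsPreconnected (K i)) : ∃ (n : ℕ) (S : J → Set (Fin n × Fin n)),
    (∀ i, ∀ a ∈ S i, ∀ b ∈ S i, Conn (grid n) (S i) a b) ∧
      ∀ i j, Disjoint (S i) (S j) ↔ Disjoint (K i) (K j) := by
  have e1 : ∀ᶠ δ in nhdsWithin (0 : ℝ) (Ioi 0), ∀ i j, Disjoint (K i) (K j) →
      ∀ p ∈ K i, ∀ q ∈ K j, 2 * δ < dist p q := by
    refine Filter.eventually_all.2 fun i => Filter.eventually_all.2 fun j =>
      Filter.eventually_all.2 fun h => ?_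
    obtain ⟨r, hr, h'⟩ := Metric.exists_pos_forall_lt_edist (h1 i) (h1 j).isClosed h
    filter_upwards [Ioo_mem_nhdsGT (half_pos (NNReal.coe_pos.2 hr))] with δ hδ p hp q hq
    have := h' p hp q hq
    rw [edist_nndist, ENNReal.coe_lt_coe, ← NNReal.coe_lt_coe, coe_nndist] at this
    linarith [hδ.2]
  obtain ⟨δ, hδ, h0⟩ := (e1.and self_mem_nhdsWithin).exists
  have h0 : 0 < δ := h0
  obtain ⟨R, hR⟩ := (isCompact_iUnion h1).isBounded.exists_norm_le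
  obtain ⟨n, hn⟩ := exists_nat_gt (2 * R / δ)
  let x : ℂ → ℝ := fun z => (z.re + R) / δ
  let y : ℂ → ℝ := fun z => (z.im + R) / δ
  have rg : ∀ s, |s| ≤ R → (s + R) / δ ∈ Ico (0 : ℝ) n := fun s hs =>
    ⟨div_nonneg (by linarith [abs_le.1 hs]) h0.le,
      (div_le_div_of_nonneg_right (by linarith [abs_le.1 hs]) h0.le).trans_lt hn⟩
  have hc : ∀ i, ∀ p ∈ K i, ∃ a : Fin n × Fin n, p ∈ cell x y a := fun i p hp => by
    have := hR p (mem_iUnion.2 ⟨i, hp⟩)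
    obtain ⟨a, ha⟩ := exists_idx (rg _ (p.abs_re_le_norm.trans this))
    obtain ⟨b, hb⟩ := exists_idx (rg _ (p.abs_im_le_norm.trans this))
    exact ⟨(a, b), ha, hb⟩
  have cl : ∀ {s s' k : ℝ}, (s + R) / δ ∈ Icc k (k + 1) → (s' + R) / δ ∈ Icc k (k + 1) →
      |s - s'| ≤ δ := fun h h' => by
    simp only [mem_Icc, le_div_iff₀ h0, div_le_iff₀ h0] at h h'
    exact abs_le.2 ⟨by linarith [h.1, h'.2], by linarith [h.2, h'.1]⟩
  refine ⟨n, fun i => {a | (K i ∩ cell x y a).Nonempty}, fun i a ha b hb =>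
    conn (by fun_prop) (by fun_prop) (h2 i) (hc i) ha hb, fun i j => ⟨fun h => ?_, fun h => ?_⟩⟩
  · refine disjoint_left.2 fun p hp hq => ?_
    obtain ⟨a, ha⟩ := hc i p hp
    exact disjoint_left.1 h ⟨p, hp, ha⟩ ⟨p, hq, ha⟩
  · refine disjoint_left.2 fun a ⟨p, hp, ha⟩ ⟨q, hq, hb⟩ => ?_
    have := hδ i j h p hp q hq
    rw [dist_eq_norm] at this
    linarith [(p - q).norm_le_abs_re_add_abs_im, show |(p - q).re| ≤ δ from cl ha.1 hb.1,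
      show |(p - q).im| ≤ δ from cl ha.2 hb.2]

theorem entry {W : Type} {H : SimpleGraph W} {S U : Set W} {a b : W} (h : Conn H S a b)
    (ha : a ∉ U) (hb : b ∈ U) : ∃ x y, Conn H (S \ U) a x ∧ y ∈ U ∧ H.Adj x y := by
  have : (Conn H (S \ U) a b ∧ b ∉ U) ∨ ∃ x y, Conn H (S \ U) a x ∧ y ∈ U ∧ H.Adj x y := by
    clear hb
    induction h with
    | refl => exact .inl ⟨Conn.refl _ _, ha⟩
    | @tail c d _ h ih =>
      refine ih.elim (fun ih => ?_) .inr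
      by_cases hd : d ∈ U
      · exact .inr ⟨c, d, ih.1, hd, h.1⟩
      · exact .inl ⟨ih.1.trans (Conn.adj h.1 ⟨h.2.1, ih.2⟩ ⟨h.2.2, hd⟩), hd⟩
  exact this.resolve_left fun h => h.2 hb

/-- Connected sets for the vertices and for the oriented edges give a minor. -/
theorem minor {V W : Type} {G : SimpleGraph V} {H : SimpleGraph W} (E : V → V → Prop)
    (hE : ∀ u v, G.Adj u v → E u v ∨ E v u) (hn : ∀ u v, E u v → u ≠ v) (U : V → Set W)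
    (S : V → V → Set W)
    (cU : ∀ u, ∀ a ∈ U u, ∀ b ∈ U u, Conn H (U u) a b)
    (cS : ∀ u v, ∀ a ∈ S u v, ∀ b ∈ S u v, Conn H (S u v) a b)
    (dU : ∀ u v, u ≠ v → Disjoint (U u) (U v))
    (dS : ∀ u v u' v', u ≠ u' → Disjoint (S u v) (S u' v'))
    (dUS : ∀ u v w, w ≠ u → w ≠ v → Disjoint (U w) (S u v))
    (m : ∀ u v, E u v → ¬Disjoint (U u) (S u v) ∧ ¬Disjoint (U v) (S u v)) : Minor G H := by
  let B : V → Set W := fun u => U u ∪ {x | ∃ v, ∃ a ∈ U u, a ∈ S u v \ U v ∧ Conn H (S u v \ U v) a x}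
  have key : ∀ u v, E u v → ∃ x ∈ B u, ∃ y ∈ B v, H.Adj x y := fun u v h => by
    obtain ⟨a, h1, h2⟩ := not_disjoint_iff.1 (m u v h).1
    obtain ⟨b, h3, h4⟩ := not_disjoint_iff.1 (m u v h).2
    have h5 := disjoint_left.1 (dU u v (hn u v h)) h1
    obtain ⟨x, y, h6, h7, h8⟩ := entry (cS u v a h2 b h4) h5 h3
    exact ⟨x, .inr ⟨v, a, h1, ⟨h2, h5⟩, h6⟩, y, .inl h7, h8⟩
  have d : ∀ w u v x, w ≠ u → x ∈ U w → x ∉ S u v \ U v := fun w u v x h hx h' => by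
    by_cases e : w = v
    · exact h'.2 (e ▸ hx)
    · exact disjoint_left.1 (dUS u v w h e) hx h'.1
  have c : ∀ u, ∀ x ∈ B u, ∃ a ∈ U u, Conn H (B u) a x := by
    rintro u x (h | ⟨v, a, h1, h2, h3⟩)
    · exact ⟨x, h, Conn.refl _ _⟩
    · exact ⟨a, h1, h3.comp.mono fun y hy => .inr ⟨v, a, h1, h2, hy⟩⟩
  refine ⟨B, fun u w h => disjoint_left.2 ?_, fun u x hx y hy => ?_, fun u v h => ?_⟩
  · rintro x (h1 | ⟨v, a, -, h1, h2⟩) (h3 | ⟨v', a', -, h3, h4⟩)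
    · exact disjoint_left.1 (dU u w h) h1 h3
    · exact d _ _ _ _ h h1 (h4.mem h3)
    · exact d _ _ _ _ h.symm h3 (h2.mem h1)
    · exact disjoint_left.1 (dS _ _ _ _ h) (h2.mem h1).1 (h4.mem h3).1
  · obtain ⟨a, ha, h1⟩ := c u x hx
    obtain ⟨b, hb, h2⟩ := c u y hy
    exact (h1.symm.trans ((cU u a ha b hb).mono subset_union_left)).trans h2
  · rcases hE u v h with h | h
    · exact key u v h
    · obtain ⟨x, hx, y, hy, h⟩ := key v u h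
      exact ⟨y, hy, x, hx, h.symm⟩

end Top

theorem top : StmtTOP := by
  rintro V _ G ⟨pos, γ, hinj, he, hv, hx⟩
  let o := Fintype.equivFin V
  let E : V → V → Prop := fun u v => G.Adj u v ∧ o u < o v
  let P : V → V → ℝ → ℝ → Set ℂ := fun u v s t => ⋃ _ : E u v, γ u v '' Icc s t
  have mP : ∀ {u v s t p}, p ∈ P u v s t ↔ E u v ∧ ∃ τ, s ≤ τ ∧ τ ≤ t ∧ γ u v τ = p := by
    simp [P, and_assoc]
  have c1 : ∀ u v s t, 0 ≤ s → t ≤ 1 → IsCompact (P u v s t) ∧ IsPreconnected (P u v s t) := by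
    intro u v s t hs ht
    by_cases h : E u v
    · have := (he u v h.1).1.mono (Icc_subset_Icc hs ht)
      simpa [P, h] using ⟨isCompact_Icc.image_of_continuousOn this, isPreconnected_Icc.image _ this⟩
    · simpa [P, h] using isPreconnected_empty
  let X : V → Set ℂ := fun u => {pos u} ∪ ⋃ v, (P u v 0 (1 / 3) ∪ P v u (2 / 3) 1)
  have u1 : ∀ {w a b τ}, E a b → 0 ≤ τ → τ ≤ 1 → γ a b τ = pos w → w = a ∧ τ = 0 ∨ w = b ∧ τ = 1 := by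
    intro w a b τ h h0 h1 e
    obtain ⟨-, i, e0, e1, -⟩ := he a b h.1
    exact (hv a b w h.1 ⟨τ, ⟨h0, h1⟩, e⟩).imp
      (fun h' => ⟨h', i ⟨h0, h1⟩ (by simp) (by rw [e, e0, h'])⟩)
      fun h' => ⟨h', i ⟨h0, h1⟩ (by simp) (by rw [e, e1, h'])⟩
  have u2 : ∀ {a b τ a' b' τ'}, E a b → E a' b' → 0 ≤ τ → τ ≤ 1 → 0 ≤ τ' → τ' ≤ 1 →
      γ a b τ = γ a' b' τ' → a = a' ∧ b = b' ∧ τ = τ' ∨
        (a = a' ∧ τ = 0 ∧ τ' = 0 ∨ a = b' ∧ τ = 0 ∧ τ' = 1) ∨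
          b = a' ∧ τ = 1 ∧ τ' = 0 ∨ b = b' ∧ τ = 1 ∧ τ' = 1 := by
    intro a b τ a' b' τ' h h' h0 h1 h0' h1' e
    by_cases s : s(a, b) = s(a', b')
    · rcases Sym2.eq_iff.1 s with ⟨rfl, rfl⟩ | ⟨rfl, rfl⟩
      · exact .inl ⟨rfl, rfl, (he _ _ h.1).2.1 ⟨h0, h1⟩ ⟨h0', h1'⟩ e⟩
      · exact absurd h.2 h'.2.not_gt
    · obtain ⟨w, -, -, e'⟩ := hx a b a' b' h.1 h'.1 s _ ⟨τ, ⟨h0, h1⟩, rfl⟩ ⟨τ', ⟨h0', h1'⟩, e.symm⟩
      have := u1 h h0 h1 e'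
      have := u1 h' h0' h1' (e.symm.trans e')
      grind
  have mX : ∀ {u p}, p ∈ X u → p = pos u ∨ ∃ a b τ, E a b ∧ 0 ≤ τ ∧ τ ≤ 1 ∧ γ a b τ = p ∧
      (a = u ∧ τ ≤ 1 / 3 ∨ b = u ∧ 2 / 3 ≤ τ) := by
    rintro u p (h | h)
    · exact .inl h
    obtain ⟨v, h | h⟩ := mem_iUnion.1 h <;> obtain ⟨h1, τ, h2, h3, h4⟩ := mP.1 h
    · exact .inr ⟨u, v, τ, h1, h2, by linarith, h4, .inl ⟨rfl, h3⟩⟩
    · exact .inr ⟨v, u, τ, h1, by linarith, h3, h4, .inr ⟨rfl, h2⟩⟩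
  have ne : ∀ {a b}, E a b → a ≠ b := fun h => h.1.ne
  obtain ⟨n, S, hS, hd⟩ := Top.gridify (Sum.elim X fun e : V × V => P e.1 e.2 (1 / 3) (2 / 3))
    (by
      rintro (u | e)
      · exact isCompact_singleton.union (isCompact_iUnion fun v =>
          (c1 _ _ _ _ le_rfl (by norm_num)).1.union (c1 _ _ _ _ (by norm_num) le_rfl).1)
      · exact (c1 _ _ _ _ (by norm_num) (by norm_num)).1)
    (by
      rintro (u | e)
      · refine isPreconnected_of_forall (pos u) ?_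
        rintro p (h | h)
        · exact ⟨{pos u}, subset_union_left, rfl, h, isPreconnected_singleton⟩
        obtain ⟨v, h | h⟩ := mem_iUnion.1 h
        · exact ⟨_, fun q hq => .inr (mem_iUnion.2 ⟨v, .inl hq⟩), mP.2 ⟨(mP.1 h).1, 0, le_rfl,
            by norm_num, (he _ _ (mP.1 h).1.1).2.2.1⟩, h, (c1 _ _ _ _ le_rfl (by norm_num)).2⟩
        · exact ⟨_, fun q hq => .inr (mem_iUnion.2 ⟨v, .inr hq⟩), mP.2 ⟨(mP.1 h).1, 1, by norm_num,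
            le_rfl, (he _ _ (mP.1 h).1.1).2.2.2.1⟩, h, (c1 _ _ _ _ (by norm_num) le_rfl).2⟩
      · exact (c1 _ _ _ _ (by norm_num) (by norm_num)).2)
  refine ⟨n, Top.minor E (fun u v h => ?_) (fun _ _ => ne) (fun u => S (.inl u))
    (fun u v => S (.inr (u, v))) (fun _ => hS _) (fun _ _ => hS _)
    (fun u v h => (hd _ _).2 (disjoint_left.2 fun p h1 h2 => ?_))
    (fun u v u' v' h => (hd _ _).2 (disjoint_left.2 fun p h1 h2 => ?_))
    (fun u v w h h' => (hd _ _).2 (disjoint_left.2 fun p h1 h2 => ?_)) fun u v h => ?_⟩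
  · exact (o.injective.ne h.ne).lt_or_gt.imp (⟨h, ·⟩) (⟨h.symm, ·⟩)
  · rcases mX h1 with rfl | ⟨a, b, τ, e1, e2, e3, rfl, e4⟩ <;>
      rcases mX h2 with e | ⟨a', b', τ', f1, f2, f3, e, f4⟩
    · exact h (hinj e)
    · have := u1 f1 f2 f3 e; have := ne f1; grind
    · have := u1 e1 e2 e3 e; have := ne e1; grind
    · have := u2 f1 e1 f2 f3 e2 e3 e; have := ne e1; have := ne f1; grind
  · obtain ⟨e1, τ, e2, e3, rfl⟩ := mP.1 h1
    obtain ⟨f1, τ', f2, f3, e⟩ := mP.1 h2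
    have := u2 f1 e1 (by linarith) (by linarith) (by linarith) (by linarith) e
    grind
  · obtain ⟨f1, τ', f2, f3, e⟩ := mP.1 h2
    rcases mX h1 with rfl | ⟨a, b, τ, e1, e2, e3, rfl, e4⟩
    · have := u1 f1 (by linarith) (by linarith) e; grind
    · have := u2 f1 e1 (by linarith) (by linarith) e2 e3 e; grind
  · simp only [hd, not_disjoint_iff]
    exact ⟨⟨γ u v (1 / 3), .inr (mem_iUnion.2 ⟨v, .inl (mP.2 ⟨h, _, by norm_num, le_rfl, rfl⟩)⟩),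
        mP.2 ⟨h, _, le_rfl, by norm_num, rfl⟩⟩,
      γ u v (2 / 3), .inr (mem_iUnion.2 ⟨u, .inr (mP.2 ⟨h, _, le_rfl, by norm_num, rfl⟩)⟩),
        mP.2 ⟨h, _, by norm_num, le_rfl, rfl⟩⟩

end Pool.Agent.MP_31805c_co.H47
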