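import Pool.Agent.MP_31805c_co.H47.FourCol
import Pool.Agent.MP_31805c_co.H47.Top
import Pool.Agent.MP_31805c_co.H47.KLPa
import Pool.Agent.MP_31805c_co.H47.KLPb

/-!
Planar graphs are four colourable; with minimum degree two, the bound two for FIDOM.
-/

namespace Pool.Agent.MP_31805c_co.H47

open Pool.Agent.MP_31805c_co.H93 (IsPlanar TwoLeFidom)

theorem mac_of_planar {V : Type} [Fintype V] [DecidableEq V] {G : SimpleGraph V}
    (h : IsPlanar G) : Mac G := by
  obtain ⟨n, hn⟩ := top V G h
  exact minorMac _ V (grid n) G (gridMac n) hn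

/-- The four colour theorem for graphs drawn in the plane. -/
theorem planar_colorable {V : Type} [Fintype V] {G : SimpleGraph V} (h : IsPlanar G) :
    G.Colorable 4 := by
  classical
  obtain ⟨c, hc⟩ := fourCol V G (mac_of_planar h)
  have := (SimpleGraph.Coloring.mk c
    (fun {u v} a => hc u v (Set.mem_univ u) (Set.mem_univ v) a)).colorable
  simpa using this

theorem dg_eq {V : Type} [Fintype V] (G : SimpleGraph V) [DecidableRel G.Adj] (v : V) :
    dg G v = G.degree v := by
  rw [dg, ← SimpleGraph.card_neighborFinset_eq_degree, SimpleGraph.neighborFinset_def,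
    Set.ncard_eq_toFinset_card']

theorem twoLe_of_planar {V : Type} [Fintype V] [DecidableEq V] {G : SimpleGraph V}
    [DecidableRel G.Adj] (h : IsPlanar G) (hd : ∀ v, 2 ≤ G.degree v) : TwoLeFidom G := by
  have hd' : ∀ v, 2 ≤ dg G v := fun v => by rw [dg_eq]; exact hd v
  obtain ⟨c, R, h1, h2, h3⟩ := klpa fam fourCol V G (mac_of_planar h) hd'
  exact klpb V G c R hd' h1 h2 h3

end Pool.Agent.MP_31805c_co.H47
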