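import Pool.Agent.MP_31805c_co.H47.SpecC

namespace Pool.Agent.MP_31805c_co.H47

set_option maxRecDepth 100000
set_option maxHeartbeats 0

noncomputable def rules : List Rule :=
  [(10000, [⟨false, 1, 0, 0, 1⟩]),
   (10000, [⟨false, 1, 0, 0, 3⟩, ⟨false, 0, 0, 0, 28⟩, ⟨false, 0, 1, 0, 1⟩]),
   (10000, [⟨false, 1, 0, 0, 3⟩, ⟨false, 0, 1, 0, 3⟩, ⟨false, 0, 2, 0, 1⟩]),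
   (10000, [⟨false, 1, 0, 0, 3⟩, ⟨false, 0, 1, 0, 1⟩, ⟨false, 0, 2, 0, 3⟩, ⟨false, 2, 3, 5, 1⟩]),
   (10000, [⟨false, 1, 0, 0, 3⟩, ⟨false, 0, 1, 0, 2⟩, ⟨false, 0, 2, 0, 3⟩, ⟨false, 2, 4, 6, 1⟩]),
   (10000, [⟨false, 1, 0, 0, 3⟩, ⟨false, 0, 1, 0, 1⟩, ⟨false, 0, 2, 0, 3⟩, ⟨false, 1, 2, 0, 1⟩, ⟨false, 2, 3, 5, 3⟩]),
   (10000, [⟨false, 1, 0, 0, 3⟩, ⟨false, 0, 1, 0, 2⟩, ⟨false, 0, 2, 0, 3⟩, ⟨false, 2, 3, 6, 1⟩, ⟨false, 2, 4, 6, 3⟩]),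
   (10000, [⟨false, 1, 0, 0, 3⟩, ⟨false, 0, 1, 0, 2⟩, ⟨false, 0, 2, 0, 3⟩, ⟨false, 1, 2, 0, 1⟩, ⟨false, 2, 3, 6, 3⟩, ⟨false, 2, 4, 6, 3⟩]),
   (3380, [⟨false, 1, 0, 0, 4⟩, ⟨false, 0, 0, 0, 28⟩, ⟨false, 0, 1, 0, 3⟩, ⟨true, 0, 1, 0, 1⟩, ⟨false, 0, 2, 0, 1⟩]),
   (1476, [⟨false, 1, 0, 0, 12⟩, ⟨false, 0, 0, 0, 24⟩, ⟨false, 0, 1, 0, 3⟩, ⟨true, 0, 2, 0, 3⟩]),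
   (6714, [⟨false, 1, 0, 0, 4⟩, ⟨false, 0, 0, 0, 28⟩, ⟨false, 0, 1, 0, 3⟩, ⟨false, 0, 2, 0, 3⟩, ⟨false, 0, 3, 7, 1⟩]),
   (5834, [⟨false, 1, 0, 0, 12⟩, ⟨false, 0, 0, 0, 28⟩, ⟨false, 0, 1, 0, 3⟩, ⟨false, 0, 2, 0, 1⟩]),
   (1429, [⟨false, 1, 0, 0, 12⟩, ⟨false, 0, 0, 0, 4⟩, ⟨false, 0, 1, 0, 3⟩, ⟨false, 1, 2, 0, 30⟩, ⟨true, 0, 2, 0, 3⟩, ⟨true, 1, 2, 0, 30⟩]),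
   (1437, [⟨false, 1, 0, 0, 4⟩, ⟨false, 0, 0, 0, 4⟩, ⟨false, 0, 1, 0, 3⟩, ⟨false, 0, 2, 0, 1⟩, ⟨false, 1, 3, 7, 30⟩]),
   (1545, [⟨false, 1, 0, 0, 12⟩, ⟨false, 0, 0, 0, 28⟩, ⟨false, 0, 1, 0, 3⟩, ⟨true, 0, 1, 0, 1⟩, ⟨false, 1, 2, 0, 30⟩]),
   (904, [⟨false, 1, 0, 0, 4⟩, ⟨false, 0, 0, 0, 28⟩, ⟨false, 0, 1, 0, 3⟩, ⟨false, 0, 2, 0, 3⟩, ⟨false, 1, 2, 0, 1⟩, ⟨false, 0, 3, 7, 1⟩]),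
   (4336, [⟨false, 1, 0, 0, 4⟩, ⟨false, 0, 0, 0, 28⟩, ⟨false, 0, 1, 0, 3⟩, ⟨false, 0, 2, 0, 3⟩, ⟨false, 0, 3, 7, 3⟩, ⟨false, 0, 4, 7, 1⟩]),
   (3615, [⟨false, 1, 0, 0, 12⟩, ⟨false, 0, 0, 0, 28⟩, ⟨false, 0, 1, 0, 3⟩, ⟨true, 0, 1, 0, 1⟩, ⟨true, 1, 2, 0, 30⟩]),
   (2806, [⟨false, 1, 0, 0, 4⟩, ⟨false, 0, 0, 0, 28⟩, ⟨false, 0, 1, 0, 3⟩, ⟨false, 0, 2, 0, 3⟩, ⟨false, 0, 3, 7, 1⟩, ⟨false, 0, 4, 7, 3⟩]),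
   (698, [⟨false, 1, 0, 0, 4⟩, ⟨false, 0, 0, 0, 28⟩, ⟨false, 0, 1, 0, 3⟩, ⟨false, 0, 2, 0, 2⟩, ⟨false, 1, 2, 0, 1⟩, ⟨false, 0, 3, 7, 1⟩]),
   (952, [⟨false, 1, 0, 0, 8⟩, ⟨false, 0, 0, 0, 28⟩, ⟨false, 0, 1, 0, 3⟩, ⟨false, 0, 2, 0, 1⟩, ⟨false, 0, 4, 8, 1⟩]),
   (779, [⟨false, 1, 0, 0, 4⟩, ⟨false, 0, 0, 0, 28⟩, ⟨false, 0, 1, 0, 3⟩, ⟨false, 0, 2, 0, 30⟩, ⟨true, 0, 2, 0, 28⟩, ⟨false, 0, 4, 7, 2⟩]),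
   (1398, [⟨false, 1, 0, 0, 4⟩, ⟨false, 0, 0, 0, 4⟩, ⟨false, 0, 1, 0, 2⟩, ⟨false, 1, 2, 0, 2⟩, ⟨true, 1, 2, 0, 30⟩, ⟨false, 2, 3, 6, 30⟩]),
   (4656, [⟨false, 1, 0, 0, 4⟩, ⟨false, 0, 0, 0, 28⟩, ⟨false, 0, 1, 0, 1⟩, ⟨false, 0, 2, 0, 2⟩, ⟨false, 0, 3, 7, 1⟩]),
   (708, [⟨false, 1, 0, 0, 4⟩, ⟨false, 0, 0, 0, 28⟩, ⟨false, 0, 1, 0, 1⟩, ⟨true, 0, 2, 0, 1⟩, ⟨false, 0, 4, 7, 30⟩]),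
   (1836, [⟨false, 1, 0, 0, 4⟩, ⟨false, 0, 0, 0, 4⟩, ⟨false, 0, 1, 0, 2⟩, ⟨false, 1, 2, 0, 3⟩, ⟨false, 1, 4, 7, 30⟩, ⟨false, 2, 3, 6, 30⟩]),
   (3356, [⟨false, 1, 0, 0, 4⟩, ⟨false, 0, 0, 0, 28⟩, ⟨false, 0, 1, 0, 2⟩, ⟨false, 0, 2, 0, 1⟩, ⟨false, 0, 3, 7, 3⟩, ⟨false, 0, 4, 7, 1⟩]),
   (886, [⟨false, 1, 0, 0, 4⟩, ⟨false, 0, 0, 0, 12⟩, ⟨false, 0, 1, 0, 3⟩, ⟨false, 0, 2, 0, 3⟩, ⟨false, 1, 2, 0, 1⟩, ⟨false, 0, 3, 7, 1⟩]),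
   (2175, [⟨false, 1, 0, 0, 4⟩, ⟨false, 0, 0, 0, 28⟩, ⟨false, 0, 1, 0, 1⟩, ⟨false, 0, 2, 0, 2⟩, ⟨false, 1, 2, 0, 1⟩, ⟨true, 0, 2, 0, 30⟩, ⟨false, 0, 4, 7, 30⟩, ⟨false, 2, 3, 5, 1⟩]),
   (850, [⟨false, 1, 0, 0, 4⟩, ⟨false, 0, 0, 0, 28⟩, ⟨false, 0, 1, 0, 1⟩, ⟨false, 0, 2, 0, 2⟩, ⟨false, 1, 2, 0, 1⟩, ⟨false, 0, 4, 7, 30⟩, ⟨false, 2, 3, 5, 1⟩]),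
   (2843, [⟨false, 1, 0, 0, 4⟩, ⟨false, 0, 0, 0, 28⟩, ⟨false, 0, 1, 0, 1⟩, ⟨false, 0, 2, 0, 2⟩, ⟨true, 0, 2, 0, 28⟩, ⟨false, 0, 4, 7, 30⟩, ⟨false, 2, 3, 5, 1⟩]),
   (1781, [⟨false, 1, 0, 0, 4⟩, ⟨false, 0, 0, 0, 24⟩, ⟨false, 0, 1, 0, 1⟩]),
   (1088, [⟨false, 1, 0, 0, 12⟩, ⟨false, 0, 0, 0, 4⟩, ⟨false, 0, 1, 0, 3⟩, ⟨true, 0, 1, 0, 30⟩, ⟨false, 1, 2, 0, 3⟩, ⟨true, 0, 2, 0, 30⟩, ⟨false, 1, 3, 7, 3⟩, ⟨false, 1, 4, 7, 30⟩]),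
   (4082, [⟨false, 1, 0, 0, 12⟩, ⟨false, 0, 0, 0, 24⟩, ⟨false, 0, 1, 0, 3⟩, ⟨true, 0, 1, 0, 1⟩, ⟨false, 1, 2, 0, 30⟩, ⟨true, 1, 2, 0, 1⟩]),
   (407, [⟨false, 1, 0, 0, 8⟩, ⟨false, 0, 0, 0, 8⟩, ⟨false, 0, 1, 0, 3⟩, ⟨true, 0, 1, 0, 1⟩, ⟨true, 0, 2, 0, 3⟩, ⟨false, 0, 4, 8, 1⟩, ⟨false, 1, 3, 8, 28⟩, ⟨false, 1, 4, 8, 3⟩]),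
   (885, [⟨false, 1, 0, 0, 4⟩, ⟨false, 0, 0, 0, 28⟩, ⟨false, 0, 1, 0, 3⟩, ⟨false, 1, 2, 0, 1⟩, ⟨false, 0, 3, 7, 2⟩]),
   (220, [⟨false, 1, 0, 0, 4⟩, ⟨false, 0, 0, 0, 12⟩, ⟨false, 0, 1, 0, 3⟩, ⟨true, 0, 2, 0, 30⟩, ⟨false, 0, 3, 7, 3⟩, ⟨false, 0, 4, 7, 30⟩]),
   (977, [⟨false, 1, 0, 0, 4⟩, ⟨false, 0, 0, 0, 12⟩, ⟨false, 0, 1, 0, 3⟩, ⟨false, 0, 2, 0, 30⟩, ⟨true, 0, 2, 0, 3⟩]),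
   (227, [⟨false, 1, 0, 0, 4⟩, ⟨false, 0, 0, 0, 4⟩, ⟨false, 0, 1, 0, 3⟩, ⟨true, 0, 1, 0, 30⟩, ⟨true, 1, 2, 0, 28⟩, ⟨false, 0, 3, 7, 3⟩, ⟨false, 0, 4, 7, 3⟩, ⟨false, 1, 3, 7, 3⟩]),
   (1071, [⟨false, 1, 0, 0, 8⟩, ⟨false, 0, 0, 0, 8⟩, ⟨false, 0, 1, 0, 3⟩, ⟨true, 0, 1, 0, 1⟩, ⟨false, 0, 2, 0, 1⟩, ⟨true, 0, 2, 0, 30⟩, ⟨false, 0, 3, 8, 3⟩, ⟨false, 1, 4, 8, 1⟩]),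
   (708, [⟨false, 1, 0, 0, 12⟩, ⟨false, 0, 0, 0, 4⟩, ⟨false, 0, 1, 0, 1⟩, ⟨true, 0, 1, 0, 30⟩, ⟨false, 1, 3, 7, 30⟩, ⟨false, 1, 4, 7, 30⟩]),
   (1114, [⟨false, 1, 0, 0, 12⟩, ⟨false, 0, 0, 0, 4⟩, ⟨false, 0, 1, 0, 1⟩, ⟨false, 1, 2, 0, 30⟩, ⟨false, 1, 3, 7, 3⟩, ⟨false, 1, 4, 7, 3⟩]),
   (673, [⟨false, 1, 0, 0, 12⟩, ⟨false, 0, 0, 0, 4⟩, ⟨false, 0, 1, 0, 3⟩, ⟨false, 1, 2, 0, 30⟩, ⟨false, 1, 3, 7, 3⟩]),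
   (792, [⟨false, 1, 0, 0, 4⟩, ⟨false, 0, 0, 0, 28⟩, ⟨false, 0, 1, 0, 2⟩, ⟨true, 0, 2, 0, 30⟩, ⟨false, 0, 3, 7, 28⟩]),
   (732, [⟨false, 1, 0, 0, 4⟩, ⟨false, 0, 0, 0, 12⟩, ⟨false, 0, 1, 0, 3⟩, ⟨true, 0, 2, 0, 28⟩, ⟨false, 0, 3, 7, 3⟩]),
   (5323, [⟨false, 1, 0, 0, 12⟩, ⟨false, 0, 0, 0, 4⟩, ⟨false, 0, 1, 0, 1⟩, ⟨true, 0, 1, 0, 1⟩, ⟨false, 1, 2, 0, 1⟩, ⟨true, 1, 2, 0, 1⟩]),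
   (1459, [⟨false, 1, 0, 0, 4⟩, ⟨false, 0, 0, 0, 28⟩, ⟨false, 0, 1, 0, 2⟩, ⟨true, 0, 1, 0, 30⟩, ⟨false, 0, 2, 0, 2⟩]),
   (715, [⟨false, 1, 0, 0, 8⟩, ⟨false, 0, 0, 0, 8⟩, ⟨false, 0, 1, 0, 3⟩, ⟨false, 1, 4, 8, 30⟩]),
   (51, [⟨false, 1, 0, 0, 8⟩, ⟨false, 0, 0, 0, 4⟩, ⟨false, 0, 1, 0, 3⟩, ⟨true, 0, 1, 0, 30⟩, ⟨false, 0, 2, 0, 1⟩, ⟨false, 1, 4, 7, 30⟩]),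
   (164, [⟨false, 1, 0, 0, 4⟩, ⟨false, 0, 0, 0, 12⟩, ⟨false, 0, 1, 0, 3⟩, ⟨false, 0, 2, 0, 3⟩, ⟨true, 0, 2, 0, 3⟩, ⟨true, 1, 2, 0, 3⟩, ⟨false, 0, 3, 7, 30⟩]),
   (209, [⟨false, 1, 0, 0, 4⟩, ⟨false, 0, 0, 0, 4⟩, ⟨false, 0, 1, 0, 3⟩, ⟨false, 1, 2, 0, 3⟩, ⟨false, 1, 3, 7, 30⟩]),
   (1664, [⟨false, 1, 0, 0, 4⟩, ⟨false, 0, 0, 0, 24⟩, ⟨false, 0, 1, 0, 1⟩, ⟨true, 0, 1, 0, 30⟩]),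
   (204, [⟨false, 1, 0, 0, 4⟩, ⟨false, 0, 0, 0, 4⟩, ⟨false, 0, 1, 0, 3⟩, ⟨false, 1, 2, 0, 30⟩, ⟨true, 1, 2, 0, 28⟩, ⟨false, 1, 3, 7, 3⟩, ⟨false, 1, 4, 7, 30⟩]),
   (108, [⟨false, 1, 0, 0, 4⟩, ⟨false, 0, 0, 0, 4⟩, ⟨false, 0, 1, 0, 2⟩, ⟨false, 0, 2, 0, 3⟩, ⟨true, 0, 2, 0, 28⟩, ⟨false, 1, 3, 7, 30⟩]),
   (391, [⟨false, 1, 0, 0, 4⟩, ⟨false, 0, 0, 0, 12⟩, ⟨false, 0, 1, 0, 1⟩, ⟨true, 0, 2, 0, 3⟩]),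
   (1515, [⟨false, 1, 0, 0, 4⟩, ⟨false, 0, 0, 0, 12⟩, ⟨false, 0, 1, 0, 3⟩, ⟨false, 1, 2, 0, 1⟩, ⟨true, 0, 2, 0, 1⟩]),
   (902, [⟨false, 1, 0, 0, 4⟩, ⟨false, 0, 0, 0, 4⟩, ⟨false, 0, 1, 0, 1⟩, ⟨true, 1, 2, 0, 3⟩, ⟨false, 1, 3, 7, 1⟩, ⟨false, 1, 4, 7, 28⟩]),
   (2454, [⟨false, 1, 0, 0, 4⟩, ⟨false, 0, 0, 0, 12⟩, ⟨false, 0, 1, 0, 3⟩, ⟨true, 0, 1, 0, 1⟩]),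
   (1656, [⟨false, 1, 0, 0, 4⟩, ⟨false, 0, 0, 0, 12⟩, ⟨false, 0, 1, 0, 3⟩, ⟨false, 0, 2, 0, 28⟩]),
   (853, [⟨false, 1, 0, 0, 4⟩, ⟨false, 0, 0, 0, 4⟩, ⟨false, 0, 1, 0, 1⟩, ⟨false, 1, 2, 0, 2⟩, ⟨true, 1, 2, 0, 30⟩]),
   (509, [⟨false, 1, 0, 0, 4⟩, ⟨false, 0, 0, 0, 4⟩, ⟨false, 0, 1, 0, 3⟩, ⟨false, 0, 2, 0, 30⟩, ⟨true, 0, 2, 0, 1⟩, ⟨false, 1, 3, 7, 3⟩]),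
   (695, [⟨false, 1, 0, 0, 12⟩, ⟨false, 0, 0, 0, 4⟩, ⟨false, 0, 1, 0, 3⟩, ⟨false, 1, 2, 0, 28⟩, ⟨true, 1, 2, 0, 30⟩, ⟨false, 1, 3, 7, 28⟩, ⟨false, 1, 4, 7, 30⟩]),
   (411, [⟨false, 1, 0, 0, 4⟩, ⟨false, 0, 0, 0, 12⟩, ⟨false, 0, 1, 0, 3⟩, ⟨false, 0, 2, 0, 3⟩, ⟨false, 0, 3, 7, 28⟩]),
   (152, [⟨false, 1, 0, 0, 8⟩, ⟨false, 0, 0, 0, 4⟩, ⟨false, 0, 1, 0, 1⟩, ⟨false, 1, 2, 0, 30⟩, ⟨true, 1, 2, 0, 30⟩, ⟨false, 0, 4, 8, 1⟩, ⟨false, 1, 3, 7, 30⟩, ⟨false, 1, 4, 7, 30⟩]),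
   (685, [⟨false, 1, 0, 0, 8⟩, ⟨false, 0, 0, 0, 4⟩, ⟨false, 0, 1, 0, 3⟩, ⟨false, 1, 2, 0, 30⟩, ⟨true, 0, 2, 0, 3⟩, ⟨false, 0, 4, 8, 1⟩, ⟨false, 1, 3, 7, 28⟩, ⟨false, 1, 4, 7, 30⟩]),
   (1416, [⟨false, 1, 0, 0, 8⟩, ⟨false, 0, 0, 0, 8⟩, ⟨false, 0, 1, 0, 3⟩, ⟨true, 0, 1, 0, 30⟩, ⟨false, 0, 2, 0, 30⟩, ⟨true, 0, 2, 0, 3⟩, ⟨true, 1, 2, 0, 1⟩, ⟨false, 0, 3, 8, 1⟩]),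
   (905, [⟨false, 1, 0, 0, 8⟩, ⟨false, 0, 0, 0, 8⟩, ⟨false, 0, 1, 0, 3⟩, ⟨true, 0, 1, 0, 1⟩, ⟨false, 0, 2, 0, 3⟩, ⟨false, 1, 2, 0, 1⟩, ⟨true, 0, 2, 0, 3⟩, ⟨false, 1, 3, 8, 28⟩, ⟨false, 1, 4, 8, 1⟩]),
   (318, [⟨false, 1, 0, 0, 4⟩, ⟨false, 0, 0, 0, 28⟩, ⟨false, 0, 1, 0, 2⟩, ⟨false, 0, 2, 0, 1⟩, ⟨true, 0, 2, 0, 28⟩, ⟨false, 0, 3, 7, 30⟩]),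
   (1351, [⟨false, 1, 0, 0, 4⟩, ⟨false, 0, 0, 0, 28⟩, ⟨false, 0, 1, 0, 1⟩, ⟨true, 0, 1, 0, 1⟩, ⟨true, 0, 2, 0, 1⟩, ⟨false, 0, 3, 7, 28⟩, ⟨false, 0, 4, 7, 30⟩]),
   (686, [⟨false, 1, 0, 0, 4⟩, ⟨false, 0, 0, 0, 12⟩, ⟨false, 0, 1, 0, 3⟩, ⟨true, 0, 1, 0, 30⟩, ⟨true, 0, 2, 0, 3⟩, ⟨false, 0, 3, 7, 3⟩]),
   (144, [⟨false, 1, 0, 0, 4⟩, ⟨false, 0, 0, 0, 4⟩, ⟨false, 0, 1, 0, 1⟩, ⟨false, 1, 3, 7, 2⟩]),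
   (70, [⟨false, 1, 0, 0, 8⟩, ⟨false, 0, 0, 0, 4⟩, ⟨false, 0, 1, 0, 2⟩, ⟨true, 0, 1, 0, 30⟩, ⟨true, 0, 2, 0, 3⟩, ⟨true, 1, 2, 0, 30⟩, ⟨false, 0, 4, 8, 1⟩, ⟨false, 0, 5, 8, 1⟩, ⟨false, 1, 3, 7, 30⟩]),
   (2559, [⟨false, 1, 0, 0, 4⟩, ⟨false, 0, 0, 0, 28⟩, ⟨false, 0, 1, 0, 3⟩, ⟨false, 0, 2, 0, 1⟩, ⟨false, 0, 3, 7, 1⟩, ⟨false, 0, 4, 7, 30⟩]),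
   (823, [⟨false, 1, 0, 0, 4⟩, ⟨false, 0, 0, 0, 12⟩, ⟨false, 0, 1, 0, 2⟩, ⟨true, 1, 2, 0, 3⟩]),
   (672, [⟨false, 1, 0, 0, 12⟩, ⟨false, 0, 0, 0, 4⟩, ⟨false, 0, 1, 0, 1⟩, ⟨false, 1, 2, 0, 3⟩, ⟨false, 1, 3, 7, 30⟩]),
   (867, [⟨false, 1, 0, 0, 4⟩, ⟨false, 0, 0, 0, 28⟩, ⟨false, 0, 1, 0, 1⟩, ⟨true, 0, 1, 0, 30⟩, ⟨false, 0, 3, 7, 3⟩]),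
   (761, [⟨false, 1, 0, 0, 12⟩, ⟨false, 0, 0, 0, 12⟩, ⟨false, 0, 1, 0, 3⟩, ⟨true, 0, 1, 0, 30⟩, ⟨false, 0, 2, 0, 30⟩, ⟨true, 1, 2, 0, 3⟩]),
   (994, [⟨false, 1, 0, 0, 4⟩, ⟨false, 0, 0, 0, 4⟩, ⟨false, 0, 1, 0, 3⟩, ⟨false, 0, 2, 0, 1⟩, ⟨false, 1, 2, 0, 28⟩]),
   (1443, [⟨false, 1, 0, 0, 8⟩, ⟨false, 0, 0, 0, 28⟩, ⟨false, 0, 1, 0, 3⟩, ⟨true, 0, 1, 0, 30⟩, ⟨true, 0, 2, 0, 3⟩]),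
   (149, [⟨false, 1, 0, 0, 8⟩, ⟨false, 0, 0, 0, 12⟩, ⟨false, 0, 1, 0, 2⟩, ⟨true, 0, 1, 0, 30⟩, ⟨false, 0, 2, 0, 1⟩, ⟨false, 1, 2, 0, 3⟩, ⟨true, 0, 2, 0, 3⟩, ⟨false, 0, 4, 8, 1⟩, ⟨false, 0, 5, 8, 1⟩]),
   (1201, [⟨false, 1, 0, 0, 8⟩, ⟨false, 0, 0, 0, 28⟩, ⟨false, 0, 1, 0, 3⟩, ⟨false, 1, 2, 0, 30⟩]),
   (754, [⟨false, 1, 0, 0, 4⟩, ⟨false, 0, 0, 0, 4⟩, ⟨false, 0, 1, 0, 1⟩, ⟨false, 0, 2, 0, 3⟩, ⟨false, 1, 2, 0, 3⟩, ⟨false, 1, 3, 7, 30⟩, ⟨false, 1, 4, 7, 30⟩]),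
   (3577, [⟨false, 1, 0, 0, 4⟩, ⟨false, 0, 0, 0, 28⟩, ⟨false, 0, 1, 0, 3⟩, ⟨false, 0, 2, 0, 1⟩, ⟨false, 0, 3, 7, 30⟩]),
   (922, [⟨false, 1, 0, 0, 4⟩, ⟨false, 0, 0, 0, 8⟩, ⟨false, 0, 1, 0, 3⟩, ⟨false, 0, 2, 0, 3⟩, ⟨false, 1, 2, 0, 1⟩, ⟨true, 0, 2, 0, 3⟩, ⟨true, 1, 2, 0, 30⟩, ⟨false, 1, 4, 8, 1⟩]),
   (155, [⟨false, 1, 0, 0, 4⟩, ⟨false, 0, 0, 0, 4⟩, ⟨false, 0, 1, 0, 1⟩, ⟨true, 0, 2, 0, 28⟩, ⟨true, 1, 2, 0, 1⟩]),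
   (1177, [⟨false, 1, 0, 0, 4⟩, ⟨false, 0, 0, 0, 24⟩, ⟨false, 0, 1, 0, 1⟩, ⟨false, 0, 3, 7, 28⟩]),
   (335, [⟨false, 1, 0, 0, 4⟩, ⟨false, 0, 0, 0, 4⟩, ⟨false, 0, 1, 0, 1⟩, ⟨false, 0, 2, 0, 28⟩, ⟨false, 1, 2, 0, 3⟩, ⟨true, 0, 2, 0, 28⟩, ⟨false, 0, 4, 7, 3⟩]),
   (216, [⟨false, 1, 0, 0, 4⟩, ⟨false, 0, 0, 0, 4⟩, ⟨false, 0, 1, 0, 1⟩, ⟨true, 1, 2, 0, 3⟩, ⟨false, 1, 4, 7, 30⟩]),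
   (1447, [⟨false, 1, 0, 0, 12⟩, ⟨false, 0, 0, 0, 4⟩, ⟨false, 0, 1, 0, 1⟩, ⟨true, 1, 2, 0, 30⟩]),
   (3829, [⟨false, 1, 0, 0, 8⟩, ⟨false, 0, 0, 0, 12⟩, ⟨false, 0, 1, 0, 2⟩, ⟨true, 0, 1, 0, 30⟩, ⟨false, 0, 2, 0, 1⟩, ⟨false, 1, 2, 0, 3⟩, ⟨true, 0, 2, 0, 30⟩, ⟨true, 1, 2, 0, 3⟩, ⟨false, 0, 3, 8, 1⟩, ⟨false, 0, 4, 8, 1⟩, ⟨false, 0, 5, 8, 1⟩]),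
   (952, [⟨false, 1, 0, 0, 4⟩, ⟨false, 0, 0, 0, 8⟩, ⟨false, 0, 1, 0, 3⟩, ⟨true, 0, 1, 0, 1⟩, ⟨false, 1, 2, 0, 1⟩, ⟨true, 0, 2, 0, 30⟩, ⟨true, 1, 2, 0, 28⟩, ⟨false, 0, 3, 7, 30⟩, ⟨false, 1, 3, 8, 28⟩, ⟨false, 1, 4, 8, 1⟩]),
   (1104, [⟨false, 1, 0, 0, 8⟩, ⟨false, 0, 0, 0, 4⟩, ⟨false, 0, 1, 0, 3⟩, ⟨true, 0, 1, 0, 1⟩, ⟨false, 0, 2, 0, 1⟩, ⟨false, 1, 2, 0, 30⟩, ⟨true, 1, 2, 0, 30⟩, ⟨false, 0, 3, 8, 3⟩, ⟨false, 0, 4, 8, 1⟩, ⟨false, 1, 3, 7, 30⟩]),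
   (390, [⟨false, 1, 0, 0, 4⟩, ⟨false, 0, 0, 0, 4⟩, ⟨false, 0, 1, 0, 3⟩, ⟨false, 0, 2, 0, 3⟩, ⟨true, 0, 2, 0, 3⟩, ⟨true, 1, 2, 0, 30⟩]),
   (791, [⟨false, 1, 0, 0, 4⟩, ⟨false, 0, 0, 0, 4⟩, ⟨false, 0, 1, 0, 1⟩, ⟨false, 0, 2, 0, 1⟩, ⟨false, 1, 2, 0, 28⟩, ⟨true, 0, 2, 0, 3⟩, ⟨false, 0, 4, 7, 3⟩, ⟨false, 1, 3, 7, 3⟩, ⟨false, 1, 4, 7, 30⟩]),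
   (718, [⟨false, 1, 0, 0, 4⟩, ⟨false, 0, 0, 0, 4⟩, ⟨false, 0, 1, 0, 3⟩, ⟨true, 0, 2, 0, 2⟩]),
   (8418, [⟨false, 1, 0, 0, 8⟩, ⟨false, 0, 0, 0, 12⟩, ⟨false, 0, 1, 0, 1⟩, ⟨true, 0, 1, 0, 1⟩, ⟨false, 0, 2, 0, 1⟩, ⟨false, 1, 2, 0, 28⟩, ⟨true, 0, 2, 0, 28⟩, ⟨false, 0, 3, 8, 3⟩, ⟨false, 0, 4, 8, 1⟩]),
   (439, [⟨false, 1, 0, 0, 4⟩, ⟨false, 0, 0, 0, 4⟩, ⟨false, 0, 1, 0, 3⟩, ⟨false, 0, 2, 0, 30⟩, ⟨true, 0, 2, 0, 3⟩]),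
   (579, [⟨false, 1, 0, 0, 4⟩, ⟨false, 0, 0, 0, 4⟩, ⟨false, 0, 1, 0, 1⟩, ⟨false, 0, 2, 0, 28⟩, ⟨false, 1, 2, 0, 1⟩, ⟨true, 0, 2, 0, 28⟩, ⟨true, 1, 2, 0, 1⟩, ⟨false, 1, 3, 7, 28⟩, ⟨false, 2, 3, 5, 1⟩]),
   (122, [⟨false, 1, 0, 0, 4⟩, ⟨false, 0, 0, 0, 4⟩, ⟨false, 0, 1, 0, 1⟩, ⟨false, 0, 2, 0, 28⟩, ⟨true, 0, 2, 0, 28⟩, ⟨true, 1, 2, 0, 1⟩, ⟨false, 0, 3, 7, 1⟩, ⟨false, 1, 3, 7, 28⟩, ⟨false, 2, 3, 5, 1⟩]),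
   (1141, [⟨false, 1, 0, 0, 4⟩, ⟨false, 0, 0, 0, 4⟩, ⟨false, 0, 1, 0, 1⟩, ⟨true, 0, 1, 0, 30⟩, ⟨false, 0, 2, 0, 28⟩, ⟨false, 1, 2, 0, 1⟩, ⟨true, 0, 2, 0, 28⟩, ⟨true, 1, 2, 0, 1⟩, ⟨false, 0, 3, 7, 1⟩, ⟨false, 1, 3, 7, 28⟩, ⟨false, 1, 4, 7, 3⟩, ⟨false, 2, 3, 5, 1⟩]),
   (764, [⟨false, 1, 0, 0, 4⟩, ⟨false, 0, 0, 0, 12⟩, ⟨false, 0, 1, 0, 2⟩, ⟨true, 0, 1, 0, 30⟩, ⟨false, 0, 2, 0, 30⟩, ⟨false, 1, 2, 0, 3⟩, ⟨true, 1, 2, 0, 3⟩, ⟨false, 0, 3, 7, 3⟩]),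
   (97, [⟨false, 1, 0, 0, 4⟩, ⟨false, 0, 0, 0, 4⟩, ⟨false, 0, 1, 0, 3⟩, ⟨false, 0, 2, 0, 30⟩, ⟨true, 0, 2, 0, 30⟩, ⟨true, 1, 2, 0, 3⟩, ⟨false, 0, 3, 7, 1⟩, ⟨false, 1, 3, 7, 30⟩]),
   (499, [⟨false, 1, 0, 0, 4⟩, ⟨false, 0, 0, 0, 12⟩, ⟨false, 0, 1, 0, 3⟩, ⟨true, 0, 1, 0, 30⟩, ⟨false, 1, 2, 0, 3⟩, ⟨true, 0, 2, 0, 3⟩, ⟨true, 1, 2, 0, 3⟩, ⟨false, 0, 3, 7, 3⟩]),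
   (230, [⟨false, 1, 0, 0, 4⟩, ⟨false, 0, 0, 0, 4⟩, ⟨false, 0, 1, 0, 1⟩, ⟨true, 1, 2, 0, 30⟩, ⟨false, 0, 3, 7, 3⟩, ⟨false, 0, 4, 7, 28⟩, ⟨false, 1, 3, 7, 30⟩]),
   (593, [⟨false, 1, 0, 0, 4⟩, ⟨false, 0, 0, 0, 4⟩, ⟨false, 0, 1, 0, 1⟩, ⟨true, 0, 1, 0, 30⟩, ⟨false, 1, 2, 0, 3⟩, ⟨true, 1, 2, 0, 30⟩, ⟨false, 1, 3, 7, 30⟩]),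
   (1079, [⟨false, 1, 0, 0, 4⟩, ⟨false, 0, 0, 0, 12⟩, ⟨false, 0, 1, 0, 2⟩, ⟨false, 1, 2, 0, 1⟩]),
   (290, [⟨false, 1, 0, 0, 4⟩, ⟨false, 0, 0, 0, 4⟩, ⟨false, 0, 1, 0, 3⟩, ⟨true, 0, 1, 0, 30⟩, ⟨false, 0, 2, 0, 1⟩, ⟨true, 0, 2, 0, 28⟩, ⟨false, 0, 3, 7, 28⟩, ⟨false, 0, 4, 7, 3⟩, ⟨false, 1, 3, 7, 3⟩, ⟨false, 1, 4, 7, 3⟩]),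
   (695, [⟨false, 1, 0, 0, 4⟩, ⟨false, 0, 0, 0, 12⟩, ⟨false, 0, 1, 0, 1⟩, ⟨false, 0, 2, 0, 30⟩, ⟨true, 0, 2, 0, 30⟩, ⟨true, 1, 2, 0, 3⟩, ⟨false, 0, 3, 7, 3⟩, ⟨false, 0, 4, 7, 2⟩]),
   (352, [⟨false, 1, 0, 0, 4⟩, ⟨false, 0, 0, 0, 28⟩, ⟨false, 0, 1, 0, 3⟩, ⟨false, 0, 2, 0, 30⟩, ⟨true, 0, 2, 0, 3⟩, ⟨false, 0, 3, 7, 30⟩]),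
   (283, [⟨false, 1, 0, 0, 12⟩, ⟨false, 0, 0, 0, 4⟩, ⟨false, 0, 1, 0, 1⟩, ⟨true, 0, 1, 0, 30⟩, ⟨false, 1, 2, 0, 1⟩, ⟨true, 0, 2, 0, 30⟩, ⟨true, 1, 2, 0, 3⟩, ⟨false, 1, 3, 7, 28⟩, ⟨false, 1, 4, 7, 3⟩]),
   (291, [⟨false, 1, 0, 0, 4⟩, ⟨false, 0, 0, 0, 4⟩, ⟨false, 0, 1, 0, 1⟩, ⟨false, 1, 2, 0, 1⟩, ⟨true, 0, 2, 0, 30⟩, ⟨true, 1, 2, 0, 3⟩, ⟨false, 0, 4, 7, 30⟩, ⟨false, 1, 3, 7, 28⟩, ⟨false, 1, 4, 7, 3⟩]),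
   (1348, [⟨false, 1, 0, 0, 12⟩, ⟨false, 0, 0, 0, 4⟩, ⟨false, 0, 1, 0, 3⟩, ⟨true, 0, 1, 0, 30⟩, ⟨false, 1, 2, 0, 1⟩, ⟨true, 0, 2, 0, 30⟩, ⟨false, 1, 3, 7, 30⟩]),
   (465, [⟨false, 1, 0, 0, 4⟩, ⟨false, 0, 0, 0, 4⟩, ⟨false, 0, 1, 0, 1⟩, ⟨false, 0, 2, 0, 28⟩, ⟨false, 1, 2, 0, 1⟩, ⟨true, 0, 2, 0, 30⟩, ⟨true, 1, 2, 0, 3⟩, ⟨false, 0, 4, 7, 28⟩]),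
   (1710, [⟨false, 1, 0, 0, 12⟩, ⟨false, 0, 0, 0, 4⟩, ⟨false, 0, 1, 0, 3⟩, ⟨false, 0, 2, 0, 1⟩, ⟨false, 1, 2, 0, 28⟩, ⟨true, 0, 2, 0, 3⟩, ⟨true, 1, 2, 0, 30⟩]),
   (230, [⟨false, 1, 0, 0, 4⟩, ⟨false, 0, 0, 0, 4⟩, ⟨false, 0, 1, 0, 3⟩, ⟨false, 0, 2, 0, 3⟩, ⟨true, 0, 2, 0, 3⟩, ⟨true, 1, 2, 0, 28⟩, ⟨false, 0, 3, 7, 28⟩, ⟨false, 1, 4, 7, 3⟩]),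
   (356, [⟨false, 1, 0, 0, 4⟩, ⟨false, 0, 0, 0, 4⟩, ⟨false, 0, 1, 0, 3⟩, ⟨false, 0, 2, 0, 1⟩, ⟨false, 1, 2, 0, 30⟩, ⟨true, 0, 2, 0, 1⟩, ⟨true, 1, 2, 0, 30⟩, ⟨false, 0, 3, 7, 28⟩]),
   (552, [⟨false, 1, 0, 0, 4⟩, ⟨false, 0, 0, 0, 4⟩, ⟨false, 0, 1, 0, 3⟩, ⟨false, 0, 2, 0, 1⟩, ⟨false, 1, 2, 0, 30⟩, ⟨true, 0, 2, 0, 1⟩, ⟨true, 1, 2, 0, 28⟩, ⟨false, 0, 3, 7, 30⟩, ⟨false, 1, 3, 7, 30⟩, ⟨false, 1, 4, 7, 3⟩]),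
   (698, [⟨false, 1, 0, 0, 12⟩, ⟨false, 0, 0, 0, 4⟩, ⟨false, 0, 1, 0, 3⟩, ⟨true, 0, 1, 0, 30⟩, ⟨false, 1, 2, 0, 30⟩, ⟨false, 1, 3, 7, 3⟩, ⟨false, 1, 4, 7, 30⟩]),
   (834, [⟨false, 1, 0, 0, 4⟩, ⟨false, 0, 0, 0, 12⟩, ⟨false, 0, 1, 0, 1⟩, ⟨true, 1, 2, 0, 28⟩, ⟨false, 0, 3, 7, 30⟩]),
   (715, [⟨false, 1, 0, 0, 4⟩, ⟨false, 0, 0, 0, 4⟩, ⟨false, 0, 1, 0, 1⟩, ⟨false, 0, 2, 0, 3⟩, ⟨false, 1, 2, 0, 3⟩, ⟨true, 1, 2, 0, 3⟩, ⟨false, 1, 3, 7, 30⟩]),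
   (211, [⟨false, 1, 0, 0, 4⟩, ⟨false, 0, 0, 0, 4⟩, ⟨false, 0, 1, 0, 3⟩, ⟨false, 1, 2, 0, 3⟩, ⟨true, 0, 2, 0, 28⟩, ⟨true, 1, 2, 0, 1⟩, ⟨false, 0, 4, 7, 30⟩]),
   (611, [⟨false, 1, 0, 0, 4⟩, ⟨false, 0, 0, 0, 12⟩, ⟨false, 0, 1, 0, 3⟩, ⟨true, 0, 1, 0, 30⟩, ⟨false, 1, 2, 0, 3⟩, ⟨false, 0, 3, 7, 1⟩]),
   (575, [⟨false, 1, 0, 0, 4⟩, ⟨false, 0, 0, 0, 4⟩, ⟨false, 0, 1, 0, 3⟩, ⟨true, 0, 1, 0, 30⟩, ⟨false, 1, 2, 0, 30⟩, ⟨true, 0, 2, 0, 3⟩, ⟨true, 1, 2, 0, 30⟩]),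
   (191, [⟨false, 1, 0, 0, 4⟩, ⟨false, 0, 0, 0, 4⟩, ⟨false, 0, 1, 0, 3⟩, ⟨true, 0, 2, 0, 3⟩, ⟨false, 1, 3, 7, 3⟩]),
   (245, [⟨false, 1, 0, 0, 4⟩, ⟨false, 0, 0, 0, 4⟩, ⟨false, 0, 1, 0, 1⟩, ⟨true, 0, 1, 0, 30⟩, ⟨false, 1, 2, 0, 3⟩, ⟨false, 1, 3, 7, 3⟩, ⟨false, 1, 4, 7, 28⟩]),
   (732, [⟨false, 1, 0, 0, 4⟩, ⟨false, 0, 0, 0, 12⟩, ⟨false, 0, 1, 0, 3⟩, ⟨false, 0, 2, 0, 28⟩, ⟨false, 1, 2, 0, 3⟩, ⟨true, 0, 2, 0, 30⟩, ⟨true, 1, 2, 0, 3⟩, ⟨false, 0, 3, 7, 30⟩]),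
   (404, [⟨false, 1, 0, 0, 4⟩, ⟨false, 0, 0, 0, 4⟩, ⟨false, 0, 1, 0, 1⟩, ⟨false, 0, 2, 0, 30⟩, ⟨false, 1, 2, 0, 1⟩, ⟨true, 0, 2, 0, 30⟩, ⟨true, 1, 2, 0, 3⟩, ⟨false, 0, 3, 7, 28⟩, ⟨false, 0, 4, 7, 28⟩, ⟨false, 1, 4, 7, 28⟩, ⟨false, 2, 3, 5, 1⟩]),
   (727, [⟨false, 1, 0, 0, 4⟩, ⟨false, 0, 0, 0, 4⟩, ⟨false, 0, 1, 0, 1⟩, ⟨false, 0, 2, 0, 28⟩, ⟨false, 1, 2, 0, 1⟩, ⟨true, 0, 2, 0, 30⟩, ⟨true, 1, 2, 0, 3⟩, ⟨false, 1, 4, 7, 28⟩]),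
   (201, [⟨false, 1, 0, 0, 4⟩, ⟨false, 0, 0, 0, 4⟩, ⟨false, 0, 1, 0, 1⟩, ⟨false, 0, 2, 0, 1⟩, ⟨false, 1, 2, 0, 28⟩, ⟨true, 1, 2, 0, 30⟩, ⟨false, 0, 4, 7, 2⟩]),
   (570, [⟨false, 1, 0, 0, 4⟩, ⟨false, 0, 0, 0, 4⟩, ⟨false, 0, 1, 0, 1⟩, ⟨false, 0, 2, 0, 30⟩, ⟨false, 1, 2, 0, 1⟩, ⟨true, 1, 2, 0, 3⟩, ⟨false, 0, 3, 7, 30⟩, ⟨false, 0, 4, 7, 30⟩, ⟨false, 1, 3, 7, 1⟩, ⟨false, 1, 4, 7, 28⟩, ⟨false, 2, 3, 5, 1⟩]),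
   (632, [⟨false, 1, 0, 0, 4⟩, ⟨false, 0, 0, 0, 12⟩, ⟨false, 0, 1, 0, 1⟩, ⟨true, 0, 1, 0, 30⟩, ⟨true, 0, 2, 0, 30⟩, ⟨true, 1, 2, 0, 3⟩, ⟨false, 0, 3, 7, 3⟩]),
   (484, [⟨false, 1, 0, 0, 4⟩, ⟨false, 0, 0, 0, 28⟩, ⟨false, 0, 1, 0, 3⟩, ⟨false, 0, 2, 0, 3⟩, ⟨false, 1, 2, 0, 1⟩, ⟨true, 0, 2, 0, 30⟩, ⟨false, 0, 3, 7, 3⟩]),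
   (200, [⟨false, 1, 0, 0, 4⟩, ⟨false, 0, 0, 0, 28⟩, ⟨false, 0, 1, 0, 1⟩, ⟨false, 1, 2, 0, 1⟩, ⟨true, 0, 2, 0, 28⟩, ⟨true, 1, 2, 0, 3⟩, ⟨false, 0, 3, 7, 1⟩]),
   (203, [⟨false, 1, 0, 0, 12⟩, ⟨false, 0, 0, 0, 4⟩, ⟨false, 0, 1, 0, 1⟩, ⟨false, 0, 2, 0, 1⟩, ⟨false, 1, 3, 7, 30⟩, ⟨false, 1, 4, 7, 30⟩]),
   (300, [⟨false, 1, 0, 0, 4⟩, ⟨false, 0, 0, 0, 4⟩, ⟨false, 0, 1, 0, 3⟩, ⟨false, 1, 2, 0, 3⟩, ⟨true, 1, 2, 0, 30⟩, ⟨false, 0, 3, 7, 30⟩, ⟨false, 1, 3, 7, 30⟩]),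
   (1183, [⟨false, 1, 0, 0, 4⟩, ⟨false, 0, 0, 0, 12⟩, ⟨false, 0, 1, 0, 3⟩, ⟨false, 0, 2, 0, 3⟩, ⟨true, 0, 2, 0, 1⟩, ⟨false, 0, 3, 7, 30⟩]),
   (457, [⟨false, 1, 0, 0, 4⟩, ⟨false, 0, 0, 0, 4⟩, ⟨false, 0, 1, 0, 3⟩, ⟨false, 1, 2, 0, 1⟩, ⟨true, 1, 2, 0, 3⟩, ⟨false, 0, 4, 7, 30⟩, ⟨false, 1, 3, 7, 28⟩]),
   (488, [⟨false, 1, 0, 0, 4⟩, ⟨false, 0, 0, 0, 12⟩, ⟨false, 0, 1, 0, 1⟩, ⟨false, 0, 2, 0, 28⟩, ⟨false, 1, 2, 0, 3⟩, ⟨true, 0, 2, 0, 28⟩, ⟨true, 1, 2, 0, 1⟩]),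
   (69, [⟨false, 1, 0, 0, 4⟩, ⟨false, 0, 0, 0, 4⟩, ⟨false, 0, 1, 0, 3⟩, ⟨false, 1, 2, 0, 3⟩, ⟨true, 0, 2, 0, 28⟩, ⟨false, 0, 4, 7, 30⟩, ⟨false, 1, 3, 7, 28⟩]),
   (379, [⟨false, 1, 0, 0, 4⟩, ⟨false, 0, 0, 0, 4⟩, ⟨false, 0, 1, 0, 3⟩, ⟨false, 1, 2, 0, 30⟩, ⟨true, 1, 2, 0, 30⟩, ⟨false, 0, 3, 7, 30⟩, ⟨false, 1, 3, 7, 3⟩]),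
   (351, [⟨false, 1, 0, 0, 4⟩, ⟨false, 0, 0, 0, 28⟩, ⟨false, 0, 1, 0, 3⟩, ⟨true, 0, 1, 0, 30⟩, ⟨false, 0, 2, 0, 28⟩, ⟨true, 0, 2, 0, 3⟩, ⟨true, 1, 2, 0, 3⟩]),
   (309, [⟨false, 1, 0, 0, 4⟩, ⟨false, 0, 0, 0, 24⟩, ⟨false, 0, 1, 0, 3⟩, ⟨false, 0, 2, 0, 28⟩, ⟨true, 1, 2, 0, 3⟩, ⟨false, 0, 3, 7, 1⟩, ⟨false, 0, 4, 7, 28⟩]),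
   (192, [⟨false, 1, 0, 0, 12⟩, ⟨false, 0, 0, 0, 4⟩, ⟨false, 0, 1, 0, 3⟩, ⟨false, 1, 2, 0, 3⟩, ⟨true, 0, 2, 0, 28⟩, ⟨true, 1, 2, 0, 3⟩, ⟨false, 1, 3, 7, 28⟩]),
   (15, [⟨false, 1, 0, 0, 4⟩, ⟨false, 0, 0, 0, 4⟩, ⟨false, 0, 1, 0, 1⟩, ⟨true, 1, 2, 0, 30⟩, ⟨false, 0, 3, 7, 30⟩, ⟨false, 0, 4, 7, 1⟩, ⟨false, 1, 4, 7, 2⟩]),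
   (761, [⟨false, 1, 0, 0, 4⟩, ⟨false, 0, 0, 0, 28⟩, ⟨false, 0, 1, 0, 3⟩, ⟨false, 0, 2, 0, 30⟩, ⟨true, 0, 2, 0, 1⟩]),
   (728, [⟨false, 1, 0, 0, 4⟩, ⟨false, 0, 0, 0, 12⟩, ⟨false, 0, 1, 0, 1⟩, ⟨true, 0, 2, 0, 3⟩, ⟨false, 0, 3, 7, 28⟩])]

end Pool.Agent.MP_31805c_co.H47
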