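import Pool.Agent.MP_31805c_co.H93.Minor

/-!
The four colour theorem, combinatorial part: graphs with a sparse spanning family of even edge
sets, minimal counterexamples, links, discs, Kempe chains and configurations. The statements of
the modules.
-/

namespace Pool.Agent.MP_31805c_co.H47

open Finset
open Pool.Agent.MP_31805c_co.H93 (IsPlanar TwoLeFidom Conn)

/-- The field with two elements. -/
abbrev Z2 : Type := ZMod 2

/-- The four colours. -/
abbrev K4 : Type := ZMod 2 × ZMod 2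

section Defs

variable {V W : Type}

/-- A proper colouring of the subgraph induced on `D`. -/
def Col (G : SimpleGraph V) (D : Set V) (c : V → K4) : Prop :=
  ∀ u v, u ∈ D → v ∈ D → G.Adj u v → c u ≠ c v

/-- The degree. -/
noncomputable def dg (G : SimpleGraph V) (v : V) : ℕ := (G.neighborSet v).ncard

/-- A family of even edge sets that covers every edge at most twice and spans the cycle space
(in dual form: what is orthogonal to all members is a cut). -/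
structure Fam [Fintype V] [DecidableEq V] (G : SimpleGraph V) {I : Type} [Fintype I]
    (F : I → Sym2 V → Z2) : Prop where
  sub : ∀ i e, F i e ≠ 0 → e ∈ G.edgeSet
  even : ∀ i v, ∑ w, F i s(v, w) = 0
  two : ∀ e, {i | F i e ≠ 0}.ncard ≤ 2
  span : ∀ a : Sym2 V → Z2, (∀ i, ∑ e, F i e * a e = 0) →
    ∃ p : V → Z2, ∀ u v, G.Adj u v → a s(u, v) = p u + p v

/-- The graph satisfies the criterion of Mac Lane. -/
def Mac [Fintype V] [DecidableEq V] (G : SimpleGraph V) : Prop :=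
  ∃ (I : Type) (_ : Fintype I) (F : I → Sym2 V → Z2), Fam G F

/-- `H` is a minor of `G`. -/
def Minor (H : SimpleGraph W) (G : SimpleGraph V) : Prop :=
  ∃ B : W → Set V, (∀ w w', w ≠ w' → Disjoint (B w) (B w')) ∧
    (∀ w, ∀ x ∈ B w, ∀ y ∈ B w, Conn G (B w) x y) ∧
    ∀ w w', H.Adj w w' → ∃ x ∈ B w, ∃ y ∈ B w', G.Adj x y

/-- The square grid. -/
def grid (n : ℕ) : SimpleGraph (Fin n × Fin n) :=
  SimpleGraph.fromRel fun a b =>
    (a.1 = b.1 ∧ (a.2 : ℕ) + 1 = b.2) ∨ (a.2 = b.2 ∧ (a.1 : ℕ) + 1 = b.1)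

/-- Every proper minor is four colourable: delete the vertices outside `D`, contract `X`. -/
def Small (G : SimpleGraph V) : Prop :=
  ∀ (D : Set V) (X : SimpleGraph V), X ≤ G → (D ≠ Set.univ ∨ X ≠ ⊥) →
    ∃ c : V → K4, (∀ u v, X.Adj u v → c u = c v) ∧
      ∀ u v, u ∈ D → v ∈ D → G.Adj u v → ¬ X.Reachable u v → c u ≠ c v

/-- A counterexample with the least number of vertices, maximal with respect to edges. -/
structure MinCE [Fintype V] [DecidableEq V] (G : SimpleGraph V) : Prop where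
  mac : Mac G
  ncol : ∀ c, ¬ Col G Set.univ c
  small : Small G
  max : ∀ H, G < H → ¬ Mac H

/-- `u v w` is a triangle. -/
def T (G : SimpleGraph V) (u v w : V) : Prop := G.Adj u v ∧ G.Adj u w ∧ G.Adj v w

/-- The family consists of triangles and covers every edge exactly twice. -/
structure TFam [Fintype V] [DecidableEq V] (G : SimpleGraph V) {I : Type} [Fintype I]
    (F : I → Sym2 V → Z2) : Prop extends Fam G F where
  tri : ∀ i, ∃ u v w, T G u v w ∧ ∀ e, F i e ≠ 0 ↔ e = s(u, v) ∨ e = s(u, w) ∨ e = s(v, w)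
  ex2 : ∀ e ∈ G.edgeSet, {i | F i e ≠ 0}.ncard = 2

/-- A minimal counterexample is a triangulation whose faces are all its triangles. -/
structure Tri [Fintype V] [DecidableEq V] (G : SimpleGraph V) : Prop where
  ncol : ∀ c, ¬ Col G Set.univ c
  small : Small G
  d4 : ∀ v, 4 ≤ dg G v
  two : ∀ u v, G.Adj u v → (G.commonNeighbors u v).ncard = 2
  link : ∀ v a b, G.Adj v a → G.Adj v b → Conn G (G.neighborSet v) a b
  span : ∀ a : Sym2 V → Z2, (∀ u v w, T G u v w → a s(u, v) + a s(u, w) + a s(v, w) = 0) →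
    ∃ p : V → Z2, ∀ u v, G.Adj u v → a s(u, v) = p u + p v
  prim : ∀ C : Sym2 V → Z2, (∀ e, C e ≠ 0 → e ∈ G.edgeSet) → (∀ v, ∑ w, C s(v, w) = 0) →
    ∃ σ : Finset V → Z2, ∀ u v w w', T G u v w → T G u v w' → w ≠ w' →
      C s(u, v) = σ {u, v, w} + σ {u, v, w'}
  euler : ∑ v, dg G v < 6 * Fintype.card V

/-! ### Links -/

/-- `y` and `z` are the two common neighbours of the adjacent vertices `u` and `x`. -/
def T3 (G : SimpleGraph V) (u y x z : V) : Prop := T G u x y ∧ T G u x z ∧ y ≠ z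

open Classical in
/-- The common neighbour of `u` and `v` other than `w`. -/
noncomputable def opp (G : SimpleGraph V) (u v w : V) : V :=
  if h : ∃ z, T G u v z ∧ z ≠ w then h.choose else w

/-- A flag: a base vertex and two of its neighbours. -/
abbrev Fl (V : Type) : Type := V × V × V

/-- The flag is an ordered triangle. -/
def IsFl (G : SimpleGraph V) (φ : Fl V) : Prop := T G φ.1 φ.2.1 φ.2.2

/-- Rotation about the base vertex. -/
noncomputable def rot (G : SimpleGraph V) (φ : Fl V) : Fl V :=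
  (φ.1, φ.2.2, opp G φ.1 φ.2.2 φ.2.1)

/-- The neighbours of the base vertex, in the order given by the flag. -/
noncomputable def nb (G : SimpleGraph V) (φ : Fl V) (j : ℕ) : V := ((rot G)^[j] φ).2.1

/-- The links are cycles. -/
structure Lnk (G : SimpleGraph V) : Prop where
  uniq : ∀ {u y x z z'}, T3 G u y x z → T3 G u y x z' → z = z'
  opp3 : ∀ {u x y}, T G u x y → T3 G u y x (opp G u x y)
  fl : ∀ {φ}, IsFl G φ → ∀ j, IsFl G ((rot G)^[j] φ)
  t3 : ∀ {φ}, IsFl G φ → ∀ j, T3 G φ.1 (nb G φ j) (nb G φ (j + 1)) (nb G φ (j + 2))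
  eq : ∀ {φ}, IsFl G φ → ∀ i j, nb G φ i = nb G φ j ↔ i ≡ j [MOD dg G φ.1]
  surj : ∀ {φ}, IsFl G φ → ∀ w, G.Adj φ.1 w → ∃ j < dg G φ.1, nb G φ j = w
  rev : ∀ {φ}, IsFl G φ → ∀ i j, i + j ≡ 1 [MOD dg G φ.1] →
    nb G (φ.1, φ.2.2, φ.2.1) i = nb G φ j
  ex : ∀ v, ∃ a b, T G v a b

/-- Cycles of length four have a chord. -/
def B4 (G : SimpleGraph V) : Prop :=
  ∀ a b c d, G.Adj a b → G.Adj b c → G.Adj c d → G.Adj d a → a ≠ c → b ≠ d →
    G.Adj a c ∨ G.Adj b d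

/-- Cycles of length five have a chord or bound a wheel. -/
def B5 (G : SimpleGraph V) : Prop :=
  ∀ a b c d e, G.Adj a b → G.Adj b c → G.Adj c d → G.Adj d e → G.Adj e a →
    a ≠ c → a ≠ d → b ≠ d → b ≠ e → c ≠ e →
    (G.Adj a c ∨ G.Adj a d ∨ G.Adj b d ∨ G.Adj b e ∨ G.Adj c e) ∨
      ∃ z, G.neighborSet z = {a, b, c, d, e}

/-- All the structure of a minimal counterexample. -/
structure Min6 [Fintype V] [DecidableEq V] (G : SimpleGraph V) : Prop extends Tri G, Lnk G where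
  b4 : B4 G
  b5 : B5 G
  d5 : ∀ v, 5 ≤ dg G v

/-! ### Discs and Kempe chains -/

/-- `μ` is a perfect matching of `S` without crossings. -/
structure NC (S : Set ℕ) (μ : ℕ → ℕ) : Prop where
  mem : ∀ t ∈ S, μ t ∈ S
  ne : ∀ t ∈ S, μ t ≠ t
  inv : ∀ t ∈ S, μ (μ t) = t
  nc : ∀ t ∈ S, ∀ u ∈ S, t < u → u < μ t → ¬ μ t < μ u

/-- The positions where the first coordinate of the edge colouring does not vanish. -/
def supp (r : ℕ) (x : ℕ → K4) : Set ℕ := {t | t < r ∧ (x t).1 ≠ 0}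

/-- A consistent set of edge colourings of the ring of length `r`. -/
structure Cons (r : ℕ) (X : Set (ℕ → K4)) : Prop where
  ne : ∀ x ∈ X, ∀ t < r, x t ≠ 0
  sum : ∀ x ∈ X, ∑ t ∈ range r, x t = 0
  loc : ∀ x ∈ X, ∀ y : ℕ → K4, (∀ t < r, y t = x t) → y ∈ X
  perm : ∀ x ∈ X, ∀ g : K4 ≃+ K4, (fun t => g (x t)) ∈ X
  kem : ∀ x ∈ X, ∃ μ, NC (supp r x) μ ∧ ∀ J : ℕ → Z2, (∀ t, t ∉ supp r x → J t = 0) →
    (∀ t ∈ supp r x, J (μ t) = J t) → (fun t => x t + (0, J t)) ∈ X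

/-- The edge colourings of the closed walk `ρ` given by the colourings of the complement of
`K`. -/
def Tr (G : SimpleGraph V) (K : Set V) (r : ℕ) (ρ : ℕ → V) : Set (ℕ → K4) :=
  {x | ∃ c, Col G Kᶜ c ∧ ∀ t < r, x t = c (ρ t) + c (ρ ((t + 1) % r))}

/-- The closed walk `ρ` of length `r` surrounds `K`; `lab k w` is the position on the walk of the
end `w` of the edge `k w` that leaves `K`. -/
structure Disc (G : SimpleGraph V) (K : Set V) (r : ℕ) (ρ : ℕ → V) (lab : V → V → ℕ) : Prop where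
  three : 3 ≤ r
  out : ∀ t < r, ρ t ∉ K
  adj : ∀ t < r, G.Adj (ρ t) (ρ ((t + 1) % r))
  lt : ∀ k ∈ K, ∀ w ∉ K, G.Adj k w → lab k w < r ∧ ρ (lab k w) = w
  lab2 : ∀ k ∈ K, ∀ k' ∈ K, ∀ w ∉ K, T G k k' w → lab k w = lab k' w
  lab1 : ∀ k ∈ K, ∀ w ∉ K, ∀ w' ∉ K, T G k w w' →
    lab k w' = (lab k w + 1) % r ∨ lab k w = (lab k w' + 1) % r
  uniq : ∀ t < r, ∃! k, k ∈ K ∧ T G k (ρ t) (ρ ((t + 1) % r)) ∧ lab k (ρ t) = t ∧
    lab k (ρ ((t + 1) % r)) = (t + 1) % r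

/-- `ρ` is an induced cycle of length `r`. -/
structure Cyc (G : SimpleGraph V) (r : ℕ) (ρ : ℕ → V) : Prop where
  inj : ∀ t < r, ∀ u < r, ρ t = ρ u → t = u
  adj : ∀ t < r, ∀ u < r, G.Adj (ρ t) (ρ u) ↔ u = (t + 1) % r ∨ t = (u + 1) % r

/-- One side of an induced cycle. -/
def Side (G : SimpleGraph V) (r : ℕ) (ρ : ℕ → V) (A : Set V) : Prop :=
  (∃ lab, Disc G A r ρ lab) ∧
    ∃ U ⊆ A, (∀ x ∈ U, ∀ y ∈ U, Conn G U x y) ∧ ∀ t < r, ∃ x ∈ U, G.Adj x (ρ t)

/-- The colourings that come from two kinds of smaller graphs. -/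
def PP (r : ℕ) (X : Set (ℕ → K4)) : Prop :=
  (∀ i < r, ∃ x ∈ X, x i = x ((i + 1) % r)) ∧
    ∀ i < r, ∃ x ∈ X, x i ≠ x ((i + 1) % r) ∧ x ((i + r - 1) % r) ≠ x ((i + r - 2) % r)

/-- There is a colouring of the pentagon with three colours. -/
def P3 (X : Set (ℕ → K4)) : Prop :=
  ∃ x ∈ X, ∃ i < 5, x i = x ((i + 1) % 5) ∧ x i = x ((i + 2) % 5)

/-! ### Configurations -/

/-- A configuration: the ring consists of the vertices `0, …, r - 1`, the interior vertex `r + k`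
has the link `lk[k]`, and `X` lists the edges to be contracted. -/
structure Cfg where
  r : ℕ
  lk : List (List ℕ)
  X : List (ℕ × ℕ)

namespace Cfg

variable (C : Cfg)

/-- The vertex is interior. -/
def In (k : ℕ) : Prop := C.r ≤ k ∧ k < C.r + C.lk.length

/-- The link of an interior vertex. -/
def L (k : ℕ) : List ℕ := C.lk.getD (k - C.r) []

/-- The neighbour number `j`, read cyclically. -/
def at' (k j : ℕ) : ℕ := (C.L k).getD (j % (C.L k).length) 0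

/-- The edge is to be contracted. -/
def XA (a b : ℕ) : Prop := (a, b) ∈ C.X ∨ (b, a) ∈ C.X

/-- Equal or adjacent interior vertices. -/
def Nr (a b : ℕ) : Prop := C.In a ∧ C.In b ∧ (a = b ∨ b ∈ C.L a)

/-- The configuration is a disc of diameter at most four with a valid contract. -/
structure WF : Prop where
  three : 3 ≤ C.r
  len : ∀ k, C.In k → 5 ≤ (C.L k).length
  lt : ∀ k, C.In k → ∀ a ∈ C.L k, a < C.r + C.lk.length
  sym : ∀ k, C.In k → ∀ a ∈ C.L k, C.In a → k ∈ C.L a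
  face : ∀ k, C.In k → ∀ j, C.In (C.at' k j) →
    C.at' k (j + 1) ∈ C.L (C.at' k j) ∧ C.at' k (j + (C.L k).length - 1) ∈ C.L (C.at' k j)
  ring : ∀ k, C.In k → ∀ j, C.at' k j < C.r → C.at' k (j + 1) < C.r →
    C.at' k (j + 1) = (C.at' k j + 1) % C.r ∨ C.at' k j = (C.at' k (j + 1) + 1) % C.r
  ex : ∀ t < C.r, ∃ k j, C.In k ∧ ((C.at' k j = t ∧ C.at' k (j + 1) = (t + 1) % C.r) ∨
    (C.at' k (j + 1) = t ∧ C.at' k j = (t + 1) % C.r))
  uniq : ∀ t < C.r, ∀ k k', C.In k → C.In k' → t ∈ C.L k → (t + 1) % C.r ∈ C.L k →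
    t ∈ C.L k' → (t + 1) % C.r ∈ C.L k' → k = k'
  diam : ∀ a b, C.In a → C.In b → ∃ x c y, C.Nr a x ∧ C.Nr x c ∧ C.Nr c y ∧ C.Nr y b
  four : ∀ t < C.r, {k | C.In k ∧ t ∈ C.L k}.ncard ≤ 4
  xin : ∀ p ∈ C.X, C.In p.1 ∧ p.2 ∈ C.L p.1
  xne : C.X ≠ []
  xlen : C.X.length ≤ 4
  sparse : ∀ k, C.In k → ∀ j, ¬ (C.XA k (C.at' k j) ∧ C.XA k (C.at' k (j + 1))) ∧
    ¬ (C.XA k (C.at' k j) ∧ C.XA (C.at' k j) (C.at' k (j + 1))) ∧
    ¬ (C.XA k (C.at' k (j + 1)) ∧ C.XA (C.at' k j) (C.at' k (j + 1)))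
  rot2 : C.X.length ≤ 3 ∨ ∀ k, C.In k → ∀ j, ¬ (C.XA k (C.at' k j) ∧ C.XA k (C.at' k (j + 2)))

/-- The edge colouring of the ring extends to the configuration. -/
def Ext (x : ℕ → K4) : Prop :=
  ∃ c : ℕ → K4, (∀ t < C.r, x t = c t + c ((t + 1) % C.r)) ∧
    ∀ k, C.In k → ∀ a ∈ C.L k, c k ≠ c a

/-- The edge colouring of the ring extends modulo the contract. -/
def ExtX (x : ℕ → K4) : Prop :=
  ∃ c : ℕ → K4, (∀ t < C.r, x t = c t + c ((t + 1) % C.r)) ∧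
    ∀ k, C.In k → ∀ a ∈ C.L k, (C.XA k a ↔ c k = c a)

/-- The configuration is reducible. -/
def Red : Prop :=
  ∀ X, Cons C.r X → (∀ x ∈ X, ¬ C.Ext x) → ∀ x ∈ X, ¬ C.ExtX x

end Cfg

/-- The image of the list `l` is the link of `v`, in cyclic order. -/
structure IsLk (G : SimpleGraph V) (v : V) (f : ℕ → V) (l : List ℕ) : Prop where
  len : l.length = dg G v
  fl : IsFl G (v, f (l.getD 0 0), f (l.getD 1 0))
  nb : ∀ j < l.length, f (l.getD j 0) = nb G (v, f (l.getD 0 0), f (l.getD 1 0)) j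

/-- The configuration appears in the graph. -/
def App (G : SimpleGraph V) (C : Cfg) (f : ℕ → V) : Prop := ∀ k, C.In k → IsLk G (f k) f (C.L k)

/-- Two neighbours of `v` are separated by `v`. -/
def Cut (G : SimpleGraph V) (v : V) : Prop :=
  ∃ a b, G.Adj v a ∧ G.Adj v b ∧ ¬ Conn G {v}ᶜ a b

/-- The vertex sees two colours. -/
def Dyn (G : SimpleGraph V) (c : V → K4) (v : V) : Prop :=
  ∃ a b, G.Adj v a ∧ G.Adj v b ∧ c a ≠ c b

/-- A set of exceptional vertices: at most one in each component, each with a neighbour of degree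
two. -/
def Exc (G : SimpleGraph V) (R : Set V) : Prop :=
  (∀ u ∈ R, ∀ u' ∈ R, G.Reachable u u' → u = u') ∧ ∀ u ∈ R, ∃ v, G.Adj u v ∧ dg G v = 2

end Defs

/-! ### Statements -/

def StmtGRID : Prop := ∀ n, Mac (grid n)

def StmtTOP : Prop :=
  ∀ (V : Type) [Fintype V] (G : SimpleGraph V), IsPlanar G → ∃ n, Minor G (grid n)

def StmtMINOR : Prop :=
  ∀ (V W : Type) [Fintype V] [DecidableEq V] [Fintype W] [DecidableEq W] (G : SimpleGraph V)
    (H : SimpleGraph W), Mac G → Minor H G → Mac H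

/-- Tools for families. -/
structure StmtFAM : Prop where
  exact : ∀ (V : Type) [Fintype V] [DecidableEq V] (G : SimpleGraph V), Mac G →
    ∃ (I : Type) (_ : Fintype I) (F : I → Sym2 V → Z2), Fam G F ∧ ∀ e, ∑ i, F i e = 0
  euler : ∀ (V : Type) [Fintype V] [DecidableEq V] (G : SimpleGraph V), Mac G →
    3 ≤ Fintype.card V → G.edgeSet.ncard + 6 ≤ 3 * Fintype.card V
  prim : ∀ (V : Type) [Fintype V] [DecidableEq V] (G : SimpleGraph V) (I : Type) [Fintype I]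
    (F : I → Sym2 V → Z2), Fam G F → ∀ C : Sym2 V → Z2, (∀ e, C e ≠ 0 → e ∈ G.edgeSet) →
    (∀ v, ∑ w, C s(v, w) = 0) → ∃ σ : I → Z2, ∀ e, C e = ∑ i, σ i * F i e
  bridge : ∀ (V : Type) [Fintype V] [DecidableEq V] (G : SimpleGraph V) (I : Type) [Fintype I]
    (F : I → Sym2 V → Z2), Fam G F → (∀ e, ∑ i, F i e = 0) → ∀ u v w, G.Adj v u → G.Adj v w →
    u ≠ w → Conn G {v}ᶜ u w → {i | F i s(v, u) ≠ 0}.ncard = 2
  cut : ∀ (V : Type) [Fintype V] [DecidableEq V] (G : SimpleGraph V) (I : Type) [Fintype I]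
    (F : I → Sym2 V → Z2), Fam G F → ∀ (i : I) (P : Sym2 V → Z2) (u w : V), u ≠ w →
    (∀ e, P e ≠ 0 → F i e ≠ 0) →
    (∀ v, ∑ x, P s(v, x) = if v = u ∨ v = w then 1 else 0) → Mac (G ⊔ SimpleGraph.edge u w)
  corner : ∀ (V : Type) [Fintype V] [DecidableEq V] (G : SimpleGraph V), Mac G →
    ∀ (v : V) (N : Set V), N ⊆ G.neighborSet v →
    (∀ u ∈ N, ∃ w, G.Adj v w ∧ u ≠ w ∧ Conn G {v}ᶜ u w) → dg G v < 2 * N.ncard →
    ∃ u ∈ N, ∃ w ∈ N, u ≠ w ∧ Mac (G ⊔ SimpleGraph.edge u w)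

/-- Colourings are glued along cliques. -/
def StmtGLUE : Prop :=
  ∀ (V : Type) (G : SimpleGraph V) (A B : Set V) (c c' : V → K4), A ∪ B = Set.univ →
    (∀ u ∈ A, ∀ v ∈ B, G.Adj u v → u ∈ B ∨ v ∈ A) → G.IsClique (A ∩ B) → Col G A c → Col G B c' →
    ∃ c'', Col G Set.univ c''

def StmtMIN : Prop :=
  StmtMINOR → ∀ (V : Type) [Fintype V] [DecidableEq V] (G : SimpleGraph V), Mac G →
    (∀ c, ¬ Col G Set.univ c) →
    ∃ (W : Type) (_ : Fintype W) (_ : DecidableEq W) (H : SimpleGraph W), MinCE H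

def StmtTFAM : Prop :=
  StmtMINOR → StmtFAM → StmtGLUE → ∀ (V : Type) [Fintype V] [DecidableEq V] (G : SimpleGraph V),
    MinCE G → (∀ v, 4 ≤ dg G v) ∧ (∀ v, ¬ Cut G v) ∧
      ∃ (I : Type) (_ : Fintype I) (F : I → Sym2 V → Z2), TFam G F

def StmtTRI : Prop :=
  StmtFAM → StmtGLUE → ∀ (V : Type) [Fintype V] [DecidableEq V] (G : SimpleGraph V)
    (I : Type) [Fintype I] (F : I → Sym2 V → Z2), MinCE G → (∀ v, 4 ≤ dg G v) →
    (∀ v, ¬ Cut G v) → TFam G F → Tri G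

def StmtLNK : Prop :=
  ∀ (V : Type) [Fintype V] [DecidableEq V] (G : SimpleGraph V), Tri G → Lnk G

def StmtKEMPE : Prop :=
  ∀ (V : Type) [Fintype V] [DecidableEq V] (G : SimpleGraph V) K r ρ lab, Tri G →
    Disc G K r ρ lab → Cons r (Tr G K r ρ)

def StmtSIDE : Prop :=
  ∀ (V : Type) [Fintype V] [DecidableEq V] (G : SimpleGraph V) r ρ, Tri G → Lnk G → 4 ≤ r →
    Cyc G r ρ → ∃ A B : Set V, Disjoint A B ∧ (∀ v, v ∈ A ∨ v ∈ B ∨ ∃ t < r, ρ t = v) ∧
      (∀ u ∈ A, ∀ v ∈ B, ¬ G.Adj u v) ∧ Side G r ρ A ∧ Side G r ρ B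

def StmtFIN4 : Prop := ∀ X Y, Cons 4 X → Cons 4 Y → PP 4 X → PP 4 Y → (X ∩ Y).Nonempty

def StmtFIN5 : Prop :=
  ∀ X Y, Cons 5 X → Cons 5 Y → PP 5 X → PP 5 Y → P3 X → P3 Y → (X ∩ Y).Nonempty

def StmtBIRK : Prop :=
  StmtKEMPE → StmtSIDE → StmtFIN4 → StmtFIN5 →
    ∀ (V : Type) [Fintype V] [DecidableEq V] (G : SimpleGraph V), Tri G → Lnk G → Min6 G

/-- A configuration that appears is embedded as an induced subgraph. -/
def StmtEMB : Prop :=
  ∀ (V : Type) [Fintype V] [DecidableEq V] (G : SimpleGraph V) (C : Cfg) f, Min6 G → C.WF →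
    App G C f → ∀ a b, C.In a → C.In b → (f a = f b → a = b) ∧ (G.Adj (f a) (f b) → b ∈ C.L a)

def StmtRED : Prop :=
  StmtKEMPE → StmtEMB → ∀ (V : Type) [Fintype V] [DecidableEq V] (G : SimpleGraph V) (C : Cfg) f,
    Min6 G → C.WF → C.Red → ¬ App G C f

/-- The four colour theorem. -/
def FourCol : Prop :=
  ∀ (V : Type) [Fintype V] [DecidableEq V] (G : SimpleGraph V), Mac G → ∃ c, Col G Set.univ c

def StmtKLPa : Prop :=
  StmtFAM → FourCol → ∀ (V : Type) [Fintype V] [DecidableEq V] (G : SimpleGraph V), Mac G →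
    (∀ v, 2 ≤ dg G v) → ∃ c R, Col G Set.univ c ∧ Exc G R ∧ ∀ v, Dyn G c v ∨ Cut G v ∨ v ∈ R

def StmtKLPb : Prop :=
  ∀ (V : Type) [Fintype V] [DecidableEq V] (G : SimpleGraph V) c R, (∀ v, 2 ≤ dg G v) →
    Col G Set.univ c → Exc G R → (∀ v, Dyn G c v ∨ Cut G v ∨ v ∈ R) → TwoLeFidom G

end Pool.Agent.MP_31805c_co.H47
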