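import Pool.Agent.MP_31805c_co.H47.SpecA

/-!
The four colour theorem: the program that checks reducibility, and the statements of the modules
that prove it sound. Sets of ring colourings are bit sets stored in one natural number.
-/

namespace Pool.Agent.MP_31805c_co.H47

open Finset

noncomputable section

/-! ### Bits -/

/-- The bit `i` of `m`. -/
def tb (m i : ℕ) : Bool := Nat.beq (Nat.land (Nat.shiftRight m i) 1) 1

/-- The number with the single bit `i`. -/
def bt (i : ℕ) : ℕ := Nat.shiftLeft 1 i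

/-- The number with the bits `0, …, n - 1`. -/
def ones (n : ℕ) : ℕ := Nat.sub (Nat.shiftLeft 1 n) 1

/-- `a` is contained in `b`. -/
def sub (a b : ℕ) : Bool := Nat.beq (Nat.land a b) a

/-- A bit as an element of the field with two elements. -/
def b2 (b : Bool) : Z2 := cond b 1 0

/-- The colouring at the address `j`, read from the planes `A` and `B`. -/
def tr (A B : List ℕ) (j : ℕ) : ℕ → K4 :=
  fun t => (b2 ((A.getD t 0).testBit j), b2 ((B.getD t 0).testBit j))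

/-- No address of `T` carries a member of `X`. -/
def Good (A B : List ℕ) (X : Set (ℕ → K4)) (T : ℕ) : Prop :=
  ∀ j, T.testBit j = true → tr A B j ∉ X

/-! ### Permutation networks -/

def dsw2 (d x t : ℕ) : ℕ := Nat.xor (Nat.xor x t) (Nat.shiftLeft t d)

/-- Exchange the bits `i` and `i + d` for all bits `i` of `m`. -/
def dsw (d m x : ℕ) : ℕ := dsw2 d x (Nat.land (Nat.xor (Nat.shiftRight x d) x) m)

def net (l : List (ℕ × ℕ)) : ℕ → ℕ :=
  List.rec (fun x => x) (fun p _ ih x => ih (dsw p.1 p.2 x)) l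

def netOK (l : List (ℕ × ℕ)) : Bool :=
  l.all fun p => Nat.beq (Nat.land p.2 (Nat.shiftLeft p.2 p.1)) 0

/-- The addresses where the colours at `t` and `u` differ. -/
def nePl (A B : List ℕ) (t u : ℕ) : ℕ :=
  Nat.lor (Nat.xor (A.getD t 0) (A.getD u 0)) (Nat.xor (B.getD t 0) (B.getD u 0))

/-- The network keeps the pattern of equal colours: the pairs `t < u ≤ r`. -/
def piChk (A B : List ℕ) (l : List (ℕ × ℕ)) (r t : ℕ) : Bool :=
  (List.range' (t + 1) (r - t)).all fun u => Nat.beq (net l (nePl A B t u)) (nePl A B t u)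

def xorAll (l : List ℕ) : ℕ := List.rec 0 (fun a _ ih => Nat.xor a ih) l

def sumChk (A B : List ℕ) (r : ℕ) : Bool :=
  Nat.beq A.length r && Nat.beq B.length r && Nat.beq (xorAll A) 0 && Nat.beq (xorAll B) 0

/-! ### Cells in base three -/

/-- The digit `p` of `i` in base three. -/
def dig (p i : ℕ) : ℕ := i / 3 ^ p % 3

/-- The colour of a digit. -/
def col (d : ℕ) : K4 := if d = 0 then (1, 0) else if d = 1 then (1, 1) else (0, 1)

/-- The colouring at the cell `i`. -/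
def ctr (i : ℕ) : ℕ → K4 := fun t => if t = 0 then col 0 else col (dig (t - 1) i)

def rep3 (s x : ℕ) : ℕ :=
  Nat.lor x (Nat.lor (Nat.shiftLeft x s) (Nat.shiftLeft x (Nat.mul 2 s)))

/-- The cells below `3 ^ n` whose digit `p` vanishes. -/
def dm (p n : ℕ) : ℕ :=
  Nat.rec 1 (fun q ih => cond (Nat.beq q p) ih (rep3 (Nat.pow 3 q) ih)) n

def cellA (n p : ℕ) : ℕ := Nat.lor (dm p n) (Nat.shiftLeft (dm p n) (Nat.pow 3 p))

def cellB (n p : ℕ) : ℕ := Nat.shiftLeft (cellA n p) (Nat.pow 3 p)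

/-- The network sends cells to addresses with the same colouring. -/
def sgChk (A B : List ℕ) (l : List (ℕ × ℕ)) (r : ℕ) : Bool :=
  Nat.beq (Nat.land (B.getD 0 0) (A.getD 0 0)) 0 &&
  (List.range (r - 2)).all fun p =>
    Nat.beq (Nat.land (Nat.xor (net l (cellA (r - 2) p)) (A.getD (p + 1) 0)) (A.getD 0 0)) 0 &&
    Nat.beq (Nat.land (Nat.xor (net l (cellB (r - 2) p)) (B.getD (p + 1) 0)) (A.getD 0 0)) 0

/-- One step on the digits `p` and `q`: the entry `(a, b, a', b')` replaces `a, b` by `a', b'`. -/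
def stp (n p q : ℕ) (rel : List (ℕ × ℕ × ℕ × ℕ)) (T : ℕ) : ℕ :=
  List.rec 0 (fun e _ ih => Nat.lor (Nat.shiftLeft (Nat.land (Nat.shiftRight T
      (Nat.add (Nat.mul e.1 (Nat.pow 3 p)) (Nat.mul e.2.1 (Nat.pow 3 q))))
      (Nat.land (dm p n) (dm q n)))
      (Nat.add (Nat.mul e.2.2.1 (Nat.pow 3 p)) (Nat.mul e.2.2.2 (Nat.pow 3 q)))) ih) rel

def relSpl : List (ℕ × ℕ × ℕ × ℕ) :=
  [(0, 0, 1, 2), (0, 0, 2, 1), (1, 0, 0, 2), (1, 0, 2, 0), (2, 0, 0, 1), (2, 0, 1, 0)]

def relMrg : List (ℕ × ℕ × ℕ × ℕ) :=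
  [(1, 2, 0, 0), (2, 1, 0, 0), (0, 2, 1, 0), (2, 0, 1, 0), (0, 1, 2, 0), (1, 0, 2, 0)]

def relSp1 : List (ℕ × ℕ × ℕ × ℕ) :=
  [(0, 0, 1, 0), (0, 0, 2, 0), (1, 0, 0, 0), (1, 0, 2, 0), (2, 0, 0, 0), (2, 0, 1, 0)]

def relFus : List (ℕ × ℕ × ℕ × ℕ) :=
  [(0, 0, 1, 1), (0, 0, 2, 2), (1, 1, 0, 0), (1, 1, 2, 2), (2, 2, 0, 0), (2, 2, 1, 1),
    (0, 1, 1, 0), (0, 2, 2, 0), (1, 0, 0, 1), (1, 2, 2, 1), (2, 0, 0, 2), (2, 1, 1, 2)]

def relNew : List (ℕ × ℕ × ℕ × ℕ) := [(0, 0, 0, 0), (0, 0, 1, 1), (0, 0, 2, 2)]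

def relEqf : List (ℕ × ℕ × ℕ × ℕ) := [(0, 0, 0, 0), (1, 1, 0, 0), (2, 2, 0, 0)]

/-! ### Tables of a configuration -/

def rowM (l : List ℕ) : ℕ := List.rec 0 (fun a _ ih => Nat.lor (bt a) ih) l

def adj0 (lk : List (List ℕ)) : ℕ :=
  List.rec 0 (fun l _ ih => Nat.lor (rowM l) (Nat.shiftLeft ih 32)) lk

/-- The bit `32 k + a` is set when `a` is in the link of the interior vertex `k`. -/
def adjM (C : Cfg) : ℕ := Nat.shiftLeft (adj0 C.lk) (Nat.mul 32 C.r)

def ix (u w : ℕ) : ℕ := Nat.add (Nat.mul 32 u) w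

def ad (C : Cfg) (k a : ℕ) : Bool := tb (adjM C) (ix k a)

/-- Both bits of the edge `u w`. -/
def eb (u w : ℕ) : ℕ := Nat.lor (bt (ix u w)) (bt (ix w u))

def xM (C : Cfg) : ℕ := List.rec 0 (fun p _ ih => Nat.lor (eb p.1 p.2) ih) C.X

def xa (C : Cfg) (u w : ℕ) : Bool := tb (xM C) (ix u w)

/-- `P` holds for all triples of consecutive entries of `a :: b :: l`. -/
def win (P : ℕ → ℕ → ℕ → Bool) (l : List ℕ) : ℕ → ℕ → Bool :=
  List.rec (fun _ _ => true) (fun c _ ih a b => P a b c && ih b c) l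

/-- `P` holds for all triples of cyclically consecutive entries. -/
def cwin (P : ℕ → ℕ → ℕ → Bool) (l : List ℕ) : Bool :=
  win P (l.drop 2 ++ l.take 2) (l.getD 0 0) (l.getD 1 0)

def nx (r t : ℕ) : ℕ := Nat.mod (Nat.succ t) r

def winOK (C : Cfg) (k a b c : ℕ) : Bool :=
  Nat.blt b (Nat.add C.r C.lk.length) &&
  cond (Nat.ble C.r b) (ad C b k && ad C b a && ad C b c)
    (Nat.ble C.r a || Nat.beq b (nx C.r a) || Nat.beq a (nx C.r b)) &&
  cond (xa C k a) (!xa C k b && !xa C a b && (Nat.ble C.X.length 3 || !xa C k c))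
    (!(xa C k b && xa C a b))

def ints (C : Cfg) : List ℕ := List.range' C.r C.lk.length

def ringOK (C : Cfg) (t : ℕ) (ks : List ℕ) : Bool :=
  Nat.ble ks.length 4 &&
  match ks.filter fun k => ad C k (nx C.r t) with
  | [k] => !cwin (fun a b _ => !((Nat.beq a t && Nat.beq b (nx C.r t)) ||
      (Nat.beq b t && Nat.beq a (nx C.r t)))) (C.L k)
  | _ => false

def ball1 (C : Cfg) (a : ℕ) : ℕ :=
  Nat.land (Nat.lor (Nat.shiftRight (adjM C) (Nat.mul 32 a)) (bt a))
    (Nat.shiftLeft (ones C.lk.length) C.r)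

def ball2 (C : Cfg) (a : ℕ) : ℕ :=
  List.rec 0 (fun x _ ih => cond (tb (ball1 C a) x) (Nat.lor (ball1 C x) ih) ih) (ints C)

def meetAll (l : List ℕ) : Bool := l.all fun x => l.all fun y => !Nat.beq (Nat.land x y) 0

/-- The check of `Cfg.WF`. -/
def wfB (C : Cfg) : Bool :=
  Nat.ble 3 C.r && Nat.ble (Nat.add C.r C.lk.length) 32 &&
  (ints C).all (fun k => Nat.ble 5 (C.L k).length && cwin (winOK C k) (C.L k)) &&
  (List.range C.r).all (fun t => ringOK C t ((ints C).filter fun k => ad C k t)) &&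
  meetAll ((ints C).map (ball2 C)) &&
  C.X.all (fun p => Nat.blt p.2 32 && ad C p.1 p.2) &&
  Nat.ble 1 C.X.length && Nat.ble C.X.length 4

/-! ### The two engines -/

abbrev Lab : Type := ℕ → ℕ × ℕ

def upd (f : Lab) (p : ℕ) (v : ℕ × ℕ) : Lab := fun s => cond (Nat.beq s p) v (f s)

def fld (op sh w : ℕ) : ℕ := Nat.mod (Nat.shiftRight op sh) w

/-- The slots `0, …, n - 1` carry the ring edges `1, …, n`. -/
def labEnd (n : ℕ) (f : Lab) : Bool :=
  (List.range n).all fun p => Nat.beq (f p).1 (p + 1) && Nat.beq (f p).2 (p + 2)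

/-- One operation of the engine for `Ext`. The state: cells, labels of the slots, edges known to
be properly coloured, vertices in use. -/
def opS (n kd p q z : ℕ) (k : ℕ → Lab → ℕ → ℕ → ℕ) (T : ℕ) (f : Lab) (E U : ℕ) : ℕ :=
  cond (Nat.blt p n && !Nat.beq (f p).1 (f p).2 && !Nat.beq p q)
    (cond (Nat.beq kd 0)
      (cond (Nat.blt q n && Nat.blt z 32 && !tb U z)
        (k (stp n p q relSpl T) (upd (upd f p ((f p).1, z)) q (z, (f p).2))
          (Nat.lor E (Nat.lor (eb (f p).1 z) (eb z (f p).2))) (Nat.lor U (bt z))) 0)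
    (cond (Nat.beq kd 1)
      (cond (Nat.blt q n && !Nat.beq (f q).1 (f q).2 && Nat.beq (f p).2 (f q).1)
        (k (stp n p q relMrg T) (upd (upd f p ((f p).1, (f q).2)) q (0, 0))
          (Nat.lor E (eb (f p).1 (f q).2)) U) 0)
    (cond (Nat.beq kd 2)
      (cond (Nat.blt z 32 && !tb U z)
        (k (stp n p n relSp1 T) (upd f p ((f p).1, z))
          (Nat.lor E (eb (f p).1 z)) (Nat.lor U (bt z))) 0)
      (cond (Nat.blt q n && !Nat.beq (f q).1 (f q).2 && Nat.beq (f p).2 (f q).1 &&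
          Nat.blt z 32 && !tb U z)
        (k (stp n p q relFus T) (upd (upd f p ((f p).1, z)) q (z, (f q).2))
          (Nat.lor E (Nat.lor (eb (f p).1 z) (Nat.lor (eb z (f p).2) (eb z (f q).2))))
          (Nat.lor U (bt z))) 0)))) 0

/-- Cells whose colourings extend to the configuration. -/
def runS (C : Cfg) (prog : List ℕ) : ℕ :=
  (List.rec (fun T f E _ => cond (labEnd (C.r - 2) f && sub (adjM C) E) T 0)
    (fun op _ ih => opS (C.r - 2) (fld op 0 8) (fld op 3 16) (fld op 7 16) (fld op 11 32) ih)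
    prog : ℕ → Lab → ℕ → ℕ → ℕ) 1 (upd (fun _ => (0, 0)) 0 (1, 0)) 0 3

/-- The ends of the edge have different colours in every colouring modulo the contract. -/
def nz (C : Cfg) (u w : ℕ) : Bool :=
  Nat.blt u 32 && Nat.blt w 32 &&
  cond (ad C u w || ad C w u) (!xa C u w)
    (Nat.blt u C.r && Nat.blt w C.r && (Nat.beq w (nx C.r u) || Nat.beq u (nx C.r w)))

/-- The vertices have the same colour in every colouring modulo the contract. -/
def eqv (C : Cfg) (u w : ℕ) : Bool := Nat.beq u w || (Nat.blt u 32 && Nat.blt w 32 && xa C u w)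

def fre (f : Lab) (q : ℕ) : Bool := Nat.beq (f q).1 (f q).2

/-- One operation of the engine for `ExtX`; `F` is the answer after a failed check. -/
def opC (C : Cfg) (n F kd p q z y w : ℕ) (k : ℕ → Lab → ℕ) (T : ℕ) (f : Lab) : ℕ :=
  cond (Nat.blt p n && Nat.blt q n && !Nat.beq p q)
    (cond (Nat.beq kd 0)
      (cond (fre f q && nz C (f p).1 (f p).2 && nz C (f p).1 z && nz C z (f p).2)
        (k (stp n p q relSpl T) (upd (upd f p ((f p).1, z)) q (z, (f p).2))) F)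
    (cond (Nat.beq kd 1)
      (cond (Nat.beq (f p).2 (f q).1 && nz C (f p).1 (f p).2 && nz C (f q).1 (f q).2 &&
          nz C (f p).1 (f q).2)
        (k (stp n p q relMrg T) (upd (upd f p ((f p).1, (f q).2)) q (0, 0))) F)
    (cond (Nat.beq kd 2)
      (cond (nz C (f p).1 (f p).2 && nz C (f p).1 z && nz C z (f p).2)
        (k (stp n p n relSp1 T) (upd f p ((f p).1, z))) F)
    (cond (Nat.beq kd 3)
      (cond (eqv C (f p).1 z && eqv C (f p).2 y) (k T (upd f p (z, y))) F)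
    (cond (Nat.beq kd 4)
      (cond (fre f p && fre f q && eqv C y w)
        (k (stp n p q relNew T) (upd (upd f p (y, z)) q (z, w))) F)
    (cond (Nat.beq kd 5)
      (cond (Nat.beq (f p).2 (f q).1 && eqv C (f p).1 (f q).2)
        (k (stp n p q relEqf T) (upd (upd f p (0, 0)) q (0, 0))) F)
      (cond (Nat.beq (f p).2 (f q).1 && nz C (f p).1 (f p).2 && nz C (f q).1 (f q).2 &&
          nz C (f p).1 z && nz C z (f p).2 && nz C z (f q).2)
        (k (stp n p q relFus T) (upd (upd f p ((f p).1, z)) q (z, (f q).2))) F))))))) F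

/-- Contains all cells whose colourings extend modulo the contract. -/
def runC (C : Cfg) (prog : List ℕ) : ℕ :=
  (List.rec (fun T f => cond (labEnd (C.r - 2) f) T (ones (Nat.pow 3 (C.r - 2))))
    (fun op _ ih => opC C (C.r - 2) (ones (Nat.pow 3 (C.r - 2))) (fld op 0 8) (fld op 3 16)
      (fld op 7 16) (fld op 11 32) (fld op 16 32) (fld op 21 32) ih)
    prog : ℕ → Lab → ℕ) 1 (upd (fun _ => (0, 0)) 0 (1, 0))

/-! ### Kempe closure -/

/-- The number of points of the support below `t`. -/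
def cnt (x : ℕ → K4) (t : ℕ) : ℕ := ((range t).filter fun u => (x u).1 ≠ 0).card

/-- Switch the colours at the points of the support whose ranks are bits of `J`. -/
def flipJ (x : ℕ → K4) (J : ℕ) : ℕ → K4 :=
  fun t => x t + (0, if (x t).1 ≠ 0 ∧ J.testBit (cnt x t) = true then 1 else 0)

/-- The matchings without crossings of the interval from `a` to `b`. -/
def ms (fuel : ℕ) : ℕ → ℕ → List (List (ℕ × ℕ)) :=
  Nat.rec (fun _ _ => [])
    (fun _ ih a b => cond (Nat.beq a b) [[]]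
      ((List.range' (a + 1) (b - (a + 1))).flatMap fun c =>
        (ih (a + 1) c).flatMap fun m => (ih (c + 1) b).map fun m' => (a, c) :: (m ++ m'))) fuel

def compat (m : List (ℕ × ℕ)) (J : ℕ) : Bool := m.all fun p => tb J p.1 == tb J p.2

/-- Trees of switches. -/
inductive FT : Type
  | leaf : FT
  | one (g : ℕ) (c : FT) : FT
  | node (gs : List ℕ) (c : FT) : FT
  | both (a b : FT) : FT

def flp (p : ℕ × ℕ) (x : ℕ) : ℕ :=
  Nat.lor (Nat.land (Nat.shiftRight x p.1) p.2) (Nat.shiftLeft (Nat.land x p.2) p.1)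

def flps (sm : List (ℕ × ℕ)) (gs : List ℕ) : ℕ → ℕ :=
  List.rec (fun x => x) (fun g _ ih x => ih (flp (sm.getD g (0, 0)) x)) gs

def cl2 (s u : ℕ) : ℕ := Nat.lor u (Nat.shiftLeft u s)

def cl1 (p : ℕ × ℕ) (x : ℕ) : ℕ := cl2 p.1 (Nat.land (Nat.lor x (Nat.shiftRight x p.1)) p.2)

def ev (sm : List (ℕ × ℕ)) (t : FT) : ℕ → ℕ :=
  FT.rec (fun x => x) (fun g _ ih x => ih (cl1 (sm.getD g (0, 0)) x))
    (fun gs _ ih x => ih (Nat.lor x (flps sm gs x)))
    (fun _ _ iha ihb x => Nat.land (iha x) (ihb x)) t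

def jOf (gs : List ℕ) : ℕ := List.rec 0 (fun g _ ih => Nat.xor (Nat.shiftLeft 3 g) ih) gs

/-- Some branch of the tree uses only switches that are compatible with the matching. -/
def cov (m : List (ℕ × ℕ)) (t : FT) : Bool :=
  FT.rec true (fun g _ ih => compat m (Nat.shiftLeft 3 g) && ih)
    (fun gs _ ih => compat m (jOf gs) && ih) (fun _ _ iha ihb => iha || ihb) t

def covAll (k : ℕ) (t : FT) : Bool := (ms (k + 1) 0 (2 * k)).all fun m => cov m t

/-- The addresses `off, …, off + size - 1` carry colourings whose support has `2 k` points. -/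
structure Sec where
  k : ℕ
  off : ℕ
  size : ℕ
  sm : List (ℕ × ℕ)
  tree : FT

def cut (s : Sec) (x : ℕ) : ℕ := Nat.land (Nat.shiftRight x s.off) (ones s.size)

def clos (s : Sec) (T : ℕ) : ℕ :=
  Nat.shiftLeft (Nat.land (ev s.sm s.tree (cut s T)) (ones s.size)) s.off

/-- The addresses of the section where the support has `m` points below `t`. -/
def cpl (A : List ℕ) (s : Sec) (t : ℕ) : ℕ → ℕ :=
  Nat.rec (fun m => cond (Nat.beq m 0) (ones s.size) 0)
    (fun u ih m => Nat.xor (ih m) (Nat.land (cut s (A.getD u 0))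
      (Nat.xor (ih m) (cond (Nat.beq m 0) 0 (ih (Nat.pred m)))))) t

def gapChk (A B : List ℕ) (r : ℕ) (s : Sec) (g : ℕ) (p : ℕ × ℕ) : Bool :=
  sub (Nat.lor p.2 (Nat.shiftLeft p.2 p.1)) (ones s.size) &&
  (List.range r).all fun t =>
    Nat.beq (Nat.land (Nat.xor (Nat.shiftRight (cut s (A.getD t 0)) p.1) (cut s (A.getD t 0)))
      p.2) 0 &&
    Nat.beq (Nat.land (Nat.xor (Nat.xor (Nat.shiftRight (cut s (B.getD t 0)) p.1)
      (cut s (B.getD t 0))) (Nat.land (cut s (A.getD t 0))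
        (Nat.lor (cpl A s t g) (cpl A s t (g + 1))))) p.2) 0

def secChk (A B : List ℕ) (r : ℕ) (s : Sec) : Bool :=
  Nat.beq (cpl A s r (2 * s.k)) (ones s.size) &&
  (List.range s.sm.length).all fun g => gapChk A B r s g (s.sm.getD g (0, 0))

/-! ### The check of reducibility -/

/-- The data for the ring size `r`. -/
structure Lay where
  r : ℕ
  a0 : ℕ
  secs : List Sec
  pi : List (ℕ × ℕ)
  sg : List (ℕ × ℕ)

def closAll (secs : List Sec) (sch T : ℕ) : ℕ :=
  List.rec T (fun s _ ih => cond (tb sch s.k) (Nat.lor (clos s T) ih) ih) secs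

def symm (pi : List (ℕ × ℕ)) (one : Bool) (x : ℕ) : ℕ :=
  Nat.lor x (net pi (cond one x (Nat.lor x (net pi x))))

def frc (k : ℕ → Bool) (x : ℕ) : Bool := cond (Nat.ble 1 x) (k x) false

def rounds (L : Lay) (Y : ℕ) (schs : List ℕ) : ℕ → Bool :=
  List.rec (fun T => sub Y (Nat.land T L.a0))
    (fun sch _ ih T => frc ih (symm L.pi (tb sch 0) (closAll L.secs sch T))) schs

def redB (L : Lay) (C : Cfg) (pS pC schs : List ℕ) : Bool :=
  Nat.beq C.r L.r &&
  rounds L (net L.sg (runC C pC)) schs (Nat.land (net L.sg (runS C pS)) L.a0)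

/-- The `n` digits of `c` in base `2 ^ w`. -/
def dec (w n : ℕ) : ℕ → List ℕ :=
  Nat.rec (fun _ => [])
    (fun _ ih c => Nat.land c (ones w) :: ih (Nat.shiftRight c w)) n

def decL (n : ℕ) : ℕ → List (List ℕ) :=
  Nat.rec (fun _ => [])
    (fun _ ih c => dec 5 (fld c 0 16) (Nat.shiftRight c 4) ::
      ih (Nat.shiftRight c (Nat.add 4 (Nat.mul 5 (fld c 0 16))))) n

/-- The configuration with a given code. -/
def mkCfg (c : ℕ) : Cfg :=
  ⟨fld c 0 16, decL (fld c 4 32) (Nat.shiftRight c 52),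
    (dec 10 (fld c 9 8) (Nat.shiftRight c 12)).map fun e => (fld e 0 32, fld e 5 32)⟩

def decP (w c : ℕ) : List ℕ := dec w (fld c 0 256) (Nat.shiftRight c 8)

def chk (L : Lay) (c pS pC schs : ℕ) : Bool :=
  wfB (mkCfg c) && redB L (mkCfg c) (decP 16 pS) (decP 26 pC) (decP 8 schs)

/-! ### Basic facts on bits -/

theorem tb_eq (m i : ℕ) : tb m i = m.testBit i := by
  have h : Nat.land (Nat.shiftRight m i) 1 = (m >>> i) % 2 := Nat.and_one_is_mod _
  unfold tb
  rw [h, Nat.testBit_eq_decide_div_mod_eq, Nat.shiftRight_eq_div_pow]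
  rcases Nat.mod_two_eq_zero_or_one (m / 2 ^ i) with h | h <;> rw [h] <;> rfl

theorem bt_eq (i : ℕ) : bt i = 2 ^ i := by
  show 1 <<< i = _
  simp [Nat.shiftLeft_eq]

theorem testBit_bt (i j : ℕ) : (bt i).testBit j = decide (i = j) := by
  rw [bt_eq, Nat.testBit_two_pow]

theorem testBit_ones (n j : ℕ) : (ones n).testBit j = decide (j < n) := by
  have : ones n = 2 ^ n - 1 := by
    show 1 <<< n - 1 = _
    simp [Nat.shiftLeft_eq]
  rw [this, Nat.testBit_two_pow_sub_one]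

theorem testBit_land (a b j : ℕ) : (Nat.land a b).testBit j = (a.testBit j && b.testBit j) :=
  Nat.testBit_and a b j

theorem testBit_lor (a b j : ℕ) : (Nat.lor a b).testBit j = (a.testBit j || b.testBit j) :=
  Nat.testBit_or a b j

theorem testBit_xor (a b j : ℕ) : (Nat.xor a b).testBit j = (a.testBit j ^^ b.testBit j) :=
  Nat.testBit_xor a b j

theorem testBit_shl (a s j : ℕ) :
    (Nat.shiftLeft a s).testBit j = (decide (s ≤ j) && a.testBit (j - s)) :=
  Nat.testBit_shiftLeft a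

theorem testBit_shr (a s j : ℕ) : (Nat.shiftRight a s).testBit j = a.testBit (s + j) :=
  Nat.testBit_shiftRight a

theorem beq_true {a b : ℕ} : Nat.beq a b = true ↔ a = b := by simp

theorem sub_bit {a b : ℕ} (h : sub a b = true) (j : ℕ) (hj : a.testBit j = true) :
    b.testBit j = true := by
  have h1 : Nat.land a b = a := beq_true.1 h
  have h2 := testBit_land a b j
  rw [h1, hj] at h2
  simpa using h2

/-! ### Statements -/

/-- The colouring of the first `r - 1` ring edges extends to the configuration. -/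
def Cfg.Ext' (C : Cfg) (x : ℕ → K4) : Prop :=
  ∃ c : ℕ → K4, (∀ t, t + 1 < C.r → x t = c t + c (t + 1)) ∧
    ∀ k, C.In k → ∀ a ∈ C.L k, c k ≠ c a

def StmtNET : Prop :=
  ∀ l, netOK l = true → ∃ e : ℕ ≃ ℕ, ∀ T j, (net l T).testBit j = T.testBit (e j)

def StmtSUM : Prop :=
  ∀ A B r, sumChk A B r = true →
    A.length = r ∧ B.length = r ∧ ∀ j, ∑ t ∈ range r, tr A B j t = 0

def StmtPI : Prop :=
  ∀ A B l r X T, netOK l = true → A.length = r → B.length = r →
    (∀ t < r, piChk A B l r t = true) → Cons r X → Good A B X T → Good A B X (net l T)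

/-- The entries of the relation are digits; the digit `q` is not used when `n ≤ q`. -/
def RelOK (n q : ℕ) (rel : List (ℕ × ℕ × ℕ × ℕ)) : Prop :=
  ∀ e ∈ rel, e.1 < 3 ∧ e.2.1 < 3 ∧ e.2.2.1 < 3 ∧ e.2.2.2 < 3 ∧
    (n ≤ q → e.2.1 = 0 ∧ e.2.2.2 = 0)

structure StmtSTP : Prop where
  dm : ∀ p n i, (dm p n).testBit i = true ↔ i < 3 ^ n ∧ dig p i = 0
  cellA : ∀ n p i, p < n → i < 3 ^ n → b2 ((cellA n p).testBit i) = (col (dig p i)).1
  cellB : ∀ n p i, p < n → i < 3 ^ n → b2 ((cellB n p).testBit i) = (col (dig p i)).2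
  ex : ∀ n (d : ℕ → ℕ), (∀ p, d p < 3) → ∃ i < 3 ^ n, ∀ p < n, dig p i = d p
  sound : ∀ n p q rel T j, p < n → p ≠ q → RelOK n q rel → (stp n p q rel T).testBit j = true →
    j < 3 ^ n ∧ ∃ e ∈ rel, ∃ i < 3 ^ n, T.testBit i = true ∧ dig p i = e.1 ∧ dig q i = e.2.1 ∧
      dig p j = e.2.2.1 ∧ dig q j = e.2.2.2 ∧ ∀ s, s ≠ p → s ≠ q → dig s j = dig s i
  compl : ∀ n p q rel T, p < n → p ≠ q → RelOK n q rel → ∀ e ∈ rel, ∀ i < 3 ^ n,
    T.testBit i = true → dig p i = e.1 → dig q i = e.2.1 →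
    ∃ j < 3 ^ n, (stp n p q rel T).testBit j = true ∧
      dig p j = e.2.2.1 ∧ dig q j = e.2.2.2 ∧ ∀ s, s ≠ p → s ≠ q → dig s j = dig s i

def StmtSG : Prop :=
  StmtSTP → ∀ A B l r, netOK l = true → sgChk A B l r = true →
    ∃ e : ℕ ≃ ℕ, (∀ T j, (net l T).testBit j = T.testBit (e j)) ∧
      ∀ j, (A.getD 0 0).testBit j = true → e j < 3 ^ (r - 2) →
        ∀ t, t + 1 < r → tr A B j t = ctr (e j) t

structure StmtTAB : Prop where
  ad : ∀ (C : Cfg) k a, (∀ l ∈ C.lk, ∀ b ∈ l, b < 32) → a < 32 →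
    (ad C k a = true ↔ C.In k ∧ a ∈ C.L k)
  eb : ∀ u w u' w', u < 32 → w < 32 → w' < 32 →
    ((eb u w).testBit (ix u' w') = true ↔ (u' = u ∧ w' = w) ∨ (u' = w ∧ w' = u))
  xa : ∀ (C : Cfg) u w, (∀ p ∈ C.X, p.1 < 32 ∧ p.2 < 32) → w < 32 →
    (xa C u w = true ↔ C.XA u w)
  lk : ∀ C : Cfg, C.WF → C.r + C.lk.length ≤ 32 →
    (∀ l ∈ C.lk, ∀ b ∈ l, b < 32) ∧ ∀ p ∈ C.X, p.1 < 32 ∧ p.2 < 32

def StmtWF : Prop := StmtTAB → ∀ C, wfB C = true → C.WF ∧ C.r + C.lk.length ≤ 32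

def StmtENGS : Prop :=
  StmtSTP → StmtTAB → ∀ (C : Cfg) prog, C.WF → C.r + C.lk.length ≤ 32 →
    ∀ i, (runS C prog).testBit i = true → i < 3 ^ (C.r - 2) ∧ C.Ext' (ctr i)

def StmtENGC : Prop :=
  StmtSTP → StmtTAB → ∀ (C : Cfg) prog, C.WF → C.r + C.lk.length ≤ 32 →
    ∀ x : ℕ → K4, (∀ t < C.r, x t ≠ 0) → x 0 = col 0 → C.ExtX x →
      ∃ i < 3 ^ (C.r - 2), (runC C prog).testBit i = true ∧ ∀ t, t + 1 < C.r → x t = ctr i t

def StmtKEM : Prop :=
  ∀ r X x k, Cons r X → x ∈ X → cnt x r = 2 * k →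
    ∃ m ∈ ms (k + 1) 0 (2 * k), ∀ J, compat m J = true → flipJ x J ∈ X

def StmtSEC : Prop :=
  StmtKEM → ∀ A B r s X T, Cons r X → secChk A B r s = true → covAll s.k s.tree = true →
    Good A B X T → Good A B X (clos s T)

/-- The data pass all checks. -/
def LayOK (L : Lay) : Prop :=
  ∃ A B, L.a0 = A.getD 0 0 ∧ sumChk A B L.r = true ∧ netOK L.pi = true ∧
    (∀ t < L.r, piChk A B L.pi L.r t = true) ∧ netOK L.sg = true ∧ sgChk A B L.sg L.r = true ∧
    ∀ s ∈ L.secs, secChk A B L.r s = true ∧ covAll s.k s.tree = true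

def StmtCHK : Prop :=
  StmtSUM → StmtPI → StmtSTP → StmtSG → StmtTAB → StmtWF → StmtENGS → StmtENGC → StmtKEM →
    StmtSEC → ∀ L c pS pC schs, LayOK L → chk L c pS pC schs = true →
      (mkCfg c).WF ∧ (mkCfg c).Red

end

end Pool.Agent.MP_31805c_co.H47
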