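import Pool.Agent.MP_31805c_co.H47.SpecB

/-!
The four colour theorem: discharging. The program that checks the certificate of unavoidability,
and the statements of the modules that prove it sound.
-/

namespace Pool.Agent.MP_31805c_co.H47

open Finset

noncomputable section

section Geometry

variable {V : Type}

/-- The class of a degree: `5, 6, 7, 8`, at least `9`. -/
def cls (g : ℕ) : ℕ := min g 9 - 5

/-- Exchange the first two vertices. -/
def psi (φ : Fl V) : Fl V := (φ.2.1, φ.1, φ.2.2)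

/-- The other flag with the same first two vertices. -/
def mir (G : SimpleGraph V) (φ : Fl V) : Fl V := (φ.1, φ.2.1, opp G φ.1 φ.2.1 φ.2.2)

def posB (G : SimpleGraph V) (χ : Fl V) (j : ℕ) : V :=
  if j = 0 then χ.2.1 else nb G (psi χ) (j + 1)

/-- The positions near the hub `φ.1`: `5 i` is the spoke number `i`, and `5 i + j` is its
neighbour number `j + 1`. -/
def pos (G : SimpleGraph V) (φ : Fl V) (p : ℕ) : V := posB G ((rot G)^[p / 5] φ) (p % 5)

/-- The bit `5 p + k` of `D` excludes the class `k` at the position `p`. -/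
def Fits (G : SimpleGraph V) (φ : Fl V) (D : ℕ) : Prop :=
  ∀ p, D.testBit (5 * p + cls (dg G (pos G φ p))) = false

/-- A condition of a rule. -/
structure Lit where
  u : Bool
  y : ℕ
  n : ℕ
  g : ℕ
  m : ℕ

def fy (φ : Fl V) (y : ℕ) : Fl V :=
  if y = 0 then φ else if y = 1 then psi φ else (φ.2.2, φ.1, φ.2.1)

def fz (G : SimpleGraph V) (φ : Fl V) (l : Lit) : Fl V := fy (cond l.u (mir G φ) φ) l.y

def LitH (G : SimpleGraph V) (φ : Fl V) (l : Lit) : Prop :=
  ((l.g = 0 ∧ l.n ≤ 2) ∨ (5 ≤ l.g ∧ l.g ≤ 8 ∧ l.n < l.g ∧ dg G (fz G φ l).1 = l.g)) ∧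
    l.m.testBit (cls (dg G (nb G (fz G φ l) l.n))) = true

abbrev Rule : Type := ℕ × List Lit

open Classical in
/-- The charge sent along the flag, from its first to its second vertex. -/
def sent (G : SimpleGraph V) (R : List Rule) (φ : Fl V) : ℕ :=
  (R.map fun r => if ∀ l ∈ r.2, LitH G φ l then r.1 else 0).sum

def eIn (G : SimpleGraph V) (R : List Rule) (φ : Fl V) : ℕ :=
  sent G R (psi φ) + sent G R (psi (mir G φ))

def eOut (G : SimpleGraph V) (R : List Rule) (φ : Fl V) : ℕ := sent G R φ + sent G R (mir G φ)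

open Classical in
def inV [Fintype V] (G : SimpleGraph V) (R : List Rule) (v : V) : ℕ :=
  ∑ a, ∑ b, if T G v a b then sent G R (a, v, b) else 0

open Classical in
def outV [Fintype V] (G : SimpleGraph V) (R : List Rule) (v : V) : ℕ :=
  ∑ a, ∑ b, if T G v a b then sent G R (v, a, b) else 0

/-- The final charge of `v` is positive. -/
def Chg [Fintype V] (G : SimpleGraph V) (R : List Rule) (K : ℕ) (v : V) : Prop :=
  outV G R v + 10 * K * dg G v < inV G R v + 60 * K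

/-- The hub has degree `d` and positive charge; `d = 0` stands for degree at least twelve. -/
def Hd [Fintype V] (G : SimpleGraph V) (R : List Rule) (K d : ℕ) (φ : Fl V) : Prop :=
  IsFl G φ ∧ (d = 0 → 12 ≤ dg G φ.1) ∧ (d ≠ 0 → dg G φ.1 = d ∧ Chg G R K φ.1)

open Classical in
/-- The weight of the masks that fit. -/
def wsum (G : SimpleGraph V) (φ : Fl V) (l : List (ℕ × ℕ)) : ℕ :=
  (l.map fun e => if Fits G φ e.1 then e.2 else 0).sum

/-- The vertex with a given label. -/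
def vlab (G : SimpleGraph V) (φ : Fl V) (a : ℕ) : V := if a = 0 then φ.1 else pos G φ (a - 1)

end Geometry

/-! ### Masks -/

def c0 (d : ℕ) : ℕ := cond (Nat.beq d 0) 5 0

def ne0 (d : ℕ) : ℕ := cond (Nat.beq d 0) 1 d

def dbl (d x : ℕ) : ℕ := Nat.lor x (Nat.shiftLeft x (Nat.mul 25 d))

def g5 (D p : ℕ) : ℕ := Nat.land (Nat.shiftRight D (Nat.mul 5 p)) 31

def exg2 (x : ℕ) : ℕ :=
  cond (sub 30 x) 5 (cond (sub 29 x) 6 (cond (sub 27 x) 7 (cond (sub 23 x) 8 0)))

/-- The exact degree at the position `p`, or zero. -/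
def exg (D p : ℕ) : ℕ := exg2 (Nat.shiftRight D (Nat.mul 5 p))

/-- Only the classes in `m` are allowed at the position `p`. -/
def only (m p : ℕ) : ℕ := Nat.shiftLeft (Nat.xor 31 (Nat.land m 31)) (Nat.mul 5 p)

/-- The neighbour number `j` of the spoke `i`, of degree `g`. -/
def cmpS (d i g j m : ℕ) : ℕ :=
  cond (Nat.beq j 0) (cond (tb m (cond (Nat.beq d 0) 4 (min d 9 - 5))) 0 31)
    (only m (cond (Nat.beq j 1) (5 * ((i + 1) % d))
      (cond (Nat.beq (j + 1) g) (5 * ((i + d - 1) % d))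
        (cond (Nat.beq (j + 2) g) (5 * ((i + d - 1) % d) + 1) (5 * i + j - 1)))))

def cmpT (d i j : ℕ) (l : Lit) : ℕ :=
  cond (Nat.beq l.g 0) (cmpS d i 8 ((j + 8) % 8) l.m)
    (Nat.lor (only (bt (l.g - 5)) (5 * i)) (cmpS d i l.g (j % l.g) l.m))

def gg (l : Lit) : ℕ := cond (Nat.beq l.g 0) 8 l.g

/-- The mask of a condition at one of the four flags of the edge number `c0 d`. -/
def cmpL (d : ℕ) (inn u0 : Bool) (l : Lit) : ℕ :=
  cond ((Nat.beq l.g 0 && Nat.ble l.n 2) || (Nat.ble 5 l.g && Nat.ble l.g 8 && Nat.blt l.n l.g))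
    (cond (Nat.beq l.y (cond inn 1 0))
      (cond (Nat.beq l.g 0 || Nat.beq l.g d)
        (only l.m (5 * cond (xor l.u u0) ((c0 d + d - l.n) % d) ((c0 d + l.n) % d))) 31)
      (cond (Nat.blt l.y 2) (cmpT d (c0 d) (cond (xor l.u u0) (gg l - l.n) l.n) l)
        (cond (xor l.u u0)
          (cmpT d ((c0 d + d - 1) % d) (cond inn (gg l + 1 - l.n) l.n) l)
          (cmpT d ((c0 d + 1) % d) (cond inn (gg l + l.n - 1) (gg l - l.n)) l)))) 31

def cmpR (d : ℕ) (inn u0 : Bool) (ls : List Lit) : ℕ :=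
  List.rec 0 (fun l _ ih => Nat.lor (cmpL d inn u0 l) ih) ls

def comp (d : ℕ) (inn u0 : Bool) (R : List Rule) : List (ℕ × ℕ) :=
  List.rec [] (fun r _ ih => (cmpR d inn u0 r.2, r.1) :: ih) R

/-! ### Tables -/

/-- Binary trees of numbers. -/
inductive BT : Type
  | leaf (x : ℕ) : BT
  | node (l r : BT) : BT

def BT.get (t : BT) : ℕ → ℕ :=
  BT.rec (fun x _ => x) (fun _ _ ihl ihr i =>
    Nat.rec (ihl (Nat.shiftRight i 1)) (fun _ _ => ihr (Nat.shiftRight i 1)) (Nat.land i 1)) t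

def BT.All (P : ℕ → Prop) (t : BT) : Prop := BT.rec P (fun _ _ ihl ihr => ihl ∧ ihr) t

/-- Apply `f` to the value of `x`. -/
def frcN {α : Type} (f : ℕ → α) (x : ℕ) : α := Nat.rec (f 0) (fun k _ => f (Nat.succ k)) x

/-- Decision trees for the charge sent along an edge. -/
inductive TT : Type
  | dead (i e : ℕ) : TT
  | val (v : ℕ) : TT
  | both (v i e : ℕ) : TT
  | node (hi q a b : ℕ) (l r : TT) : TT

/-- The data for one class of hubs. -/
structure Cx where
  d : ℕ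
  K : ℕ
  O : ℕ
  n0 : ℕ
  R : List Rule
  tab : BT
  cf : BT
  tA : TT
  tP : TT
  tM : TT

def wd (X : Cx) : ℕ := Nat.add 25 (Nat.mul 25 (cond (Nat.beq X.d 0) 12 X.d))

def item (X : Cx) (i : ℕ) : ℕ :=
  Nat.land (Nat.shiftRight (frcN X.tab.get (Nat.shiftRight i 6)) (Nat.mul (Nat.land i 63) (wd X)))
    (ones (wd X))

def inf : ℕ := 33554431

def ival (X : Cx) (i : ℕ) : ℕ := Nat.land (item X i) 33554431

def imask (X : Cx) (i : ℕ) : ℕ := Nat.shiftRight (item X i) 25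

/-- The meaning of the item number `i`: a bound for the charge sent along the edge number
`c0 d`; the value zero means that the mask never fits. -/
def Fact {V : Type} [Fintype V] (G : SimpleGraph V) (X : Cx) (i : ℕ) : Prop :=
  ∀ φ, Hd G X.R X.K X.d φ → Fits G φ (imask X i) →
    0 < ival X i ∧ eIn G X.R ((rot G)^[c0 X.d] φ) + 2 * X.O ≤
      ival X i + eOut G X.R ((rot G)^[c0 X.d] φ)

/-- The item `i` has the value zero and its mask is contained in `D`, turned by `e`. -/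
def isNg (X : Cx) (D e i : ℕ) : Bool :=
  Nat.beq (ival X i) 0 && sub (imask X i) (Nat.shiftRight D (Nat.mul 25 e))

/-! ### The trees for one edge -/

def flt (F P : ℕ) (l : List (ℕ × ℕ)) : List (ℕ × ℕ) :=
  List.rec [] (fun e _ ih => Bool.rec (e :: ih) ih (sub F (Nat.lor e.1 P))) l

def sumA (l : List (ℕ × ℕ)) : ℕ := List.rec 0 (fun e _ ih => Nat.add e.2 ih) l

def sumF (P : ℕ) (l : List (ℕ × ℕ)) : ℕ :=
  List.rec 0 (fun e _ ih => Bool.rec ih (Nat.add e.2 ih) (sub e.1 P)) l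

def valOK (O v P : ℕ) (i o : List (ℕ × ℕ)) : Bool :=
  Nat.blt 0 v && Nat.ble (Nat.add (sumA i) O) (Nat.add v (sumF P o))

def TT.hi (t : TT) : ℕ :=
  TT.rec (fun _ _ => 0) (fun v => v) (fun v _ _ => v) (fun hi _ _ _ _ _ _ _ => hi) t

def nodeOK (hi q a b P : ℕ) (l r : TT) : Bool :=
  Nat.beq (Nat.mod q 5) 0 && Nat.blt a 32 && Nat.blt b 32 && Nat.beq (Nat.land a b) 0 &&
  sub 31 (Nat.lor (Nat.shiftRight P q) (Nat.lor a b)) && Nat.ble l.hi hi && Nat.ble r.hi hi

def down (k : ℕ → List (ℕ × ℕ) → List (ℕ × ℕ) → Bool) (F P : ℕ) (i o : List (ℕ × ℕ)) : Bool :=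
  k P (flt F P i) (flt F P o)

def okT (X : Cx) (O : ℕ) (t : TT) : ℕ → List (ℕ × ℕ) → List (ℕ × ℕ) → Bool :=
  TT.rec (fun i e P _ _ => Nat.blt i X.n0 && isNg X (dbl X.d P) e i)
    (fun v P i o => valOK O v P i o)
    (fun v j e P i o => isNg X (dbl X.d P) e j && valOK O v P i o)
    (fun hi q a b l r ihl ihr P i o => nodeOK hi q a b P l r &&
      down ihl (Nat.shiftLeft 31 q) (Nat.lor P (Nat.shiftLeft b q)) i o &&
      down ihr (Nat.shiftLeft 31 q) (Nat.lor P (Nat.shiftLeft a q)) i o) t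

/-- All leaves that are compatible with `D` are dead or have value at most `v`. -/
def bd (n v D : ℕ) (t : TT) : Bool :=
  TT.rec (fun _ _ => true) (fun w => Nat.ble w v)
    (fun w i _ => Bool.rec (Nat.blt i n) true (Nat.ble w v))
    (fun hi q a b _ _ ihl ihr => Bool.rec
      (Bool.rec false (Bool.rec ihr true (sub b (Nat.shiftRight D q)))
        (Bool.rec ihl true (sub a (Nat.shiftRight D q)))) true (Nat.ble hi v)) t

def mA (d : ℕ) : ℕ := cond (Nat.ble 1 d && Nat.ble d 6) 31 3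

def rootT (X : Cx) (O : ℕ) (t : TT) (P : ℕ) (i o : List (ℕ × ℕ)) : Bool :=
  down (okT X O t) (Nat.shiftLeft 31 (25 * c0 X.d)) P (flt 31 P i) (flt 31 P o)

def okA (X : Cx) : Bool :=
  rootT X (2 * X.O) X.tA (only (mA X.d) (5 * c0 X.d))
    (comp X.d true false X.R ++ comp X.d true true X.R)
    (comp X.d false false X.R ++ comp X.d false true X.R)

def okP (X : Cx) : Bool :=
  Nat.beq (mA X.d) 31 || rootT X X.O X.tP (Nat.shiftLeft (mA X.d) (25 * c0 X.d))
    (comp X.d true false X.R) (comp X.d false false X.R)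

def okM (X : Cx) : Bool :=
  Nat.beq (mA X.d) 31 || rootT X X.O X.tM (Nat.shiftLeft (mA X.d) (25 * c0 X.d))
    (comp X.d true true X.R) (comp X.d false true X.R)

def entB (X : Cx) (n v D v1 v2 : ℕ) : Bool :=
  cond (Nat.beq v1 0) (bd n 0 D X.tP) (cond (Nat.beq v2 0) (bd n 0 D X.tM)
    (Nat.ble (Nat.add v1 v2) v && bd n v1 D X.tP && bd n v2 D X.tM))

def ent2 (X : Cx) (n v D x c : ℕ) : Bool :=
  sub 31 x || (Nat.ble X.n0 n && (sub (mA X.d) x || bd n v D X.tA) &&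
    (sub (Nat.xor 31 (mA X.d)) x ||
      entB X n v D (Nat.land c 33554431) (Nat.land (Nat.shiftRight c 25) 33554431)))

/-- The item `n` is read off the trees. -/
def entK (X : Cx) (n c : ℕ) : Bool :=
  ent2 X n (ival X n) (imask X n) (Nat.shiftRight (imask X n) (25 * c0 X.d)) c

/-! ### Case analysis -/

def dgt (U e : ℕ) : ℕ := Nat.land (Nat.shiftRight U (Nat.mul 25 e)) 33554431

def setd (U e v : ℕ) : ℕ := Nat.xor U (Nat.shiftLeft (Nat.xor (dgt U e) v) (Nat.mul 25 e))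

def repU (n u : ℕ) : ℕ := Nat.rec 0 (fun _ ih => Nat.lor u (Nat.shiftLeft ih 25)) n

def lim (X : Cx) : ℕ := Nat.mul (Nat.add (Nat.mul 2 X.O) (Nat.mul 10 X.K)) X.d

/-- The code `c` names an earlier item with value zero whose mask is contained in `D`. -/
def cite (X : Cx) (n D c : ℕ) : Bool :=
  frcN (fun i => Bool.rec false (isNg X D (Nat.land c 15) i) (Nat.blt i n))
    (Nat.land (Nat.shiftRight c 4) 262143)

def opU (X : Cx) (n : ℕ) (k : ℕ → ℕ → ℕ → ℕ → Bool) (D U S c e i : ℕ) : Bool :=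
  Bool.rec false (k D (setd U e (ival X i)) (Nat.sub (Nat.add S (ival X i)) (dgt U e))
      (Nat.shiftRight c 24))
    (Nat.blt i n && Nat.blt e (ne0 X.d) && sub (imask X i) (Nat.shiftRight D (Nat.mul 25 e)))

def excl (d D m q : ℕ) : ℕ := Nat.lor D (dbl d (Nat.shiftLeft m q))

def opP (X : Cx) (n : ℕ) (k : ℕ → ℕ → ℕ → ℕ → Bool) (D U S c q m : ℕ) : Bool :=
  Bool.rec false (k (excl X.d D m q) U S (Nat.shiftRight c 35))
    (cite X n (excl X.d D (Nat.xor 31 m) q) (Nat.shiftRight c 13))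

def opS2 (X : Cx) (k : ℕ → ℕ → ℕ → ℕ → Bool) (D U S c q m : ℕ) : Bool :=
  Bool.rec false (k (excl X.d D m q) U S
      (Nat.shiftRight c (Nat.add 29 (Nat.land (Nat.shiftRight c 13) 65535))))
    (k (excl X.d D (Nat.xor 31 m) q) U S (Nat.shiftRight c 29))

def opB (X : Cx) (lv S : ℕ) : Bool :=
  Nat.ble (Nat.add S (Nat.mul 60 X.K)) (lim X) || (Nat.ble S lv && Nat.blt lv inf)

/-- The state: the mask (doubled), the bounds of the edges, their sum, the code. -/
def chT (X : Cx) (n lv fuel : ℕ) : ℕ → ℕ → ℕ → ℕ → Bool :=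
  Nat.rec (fun _ _ _ _ => false) (fun _ ih D U S c =>
    Nat.rec
      (frcN (opU X n ih D U S c (Nat.land (Nat.shiftRight c 2) 15))
        (Nat.land (Nat.shiftRight c 6) 262143))
      (fun t _ => Nat.rec
        (opP X n ih D U S c (Nat.mul 5 (Nat.land (Nat.shiftRight c 2) 63))
          (Nat.land (Nat.shiftRight c 8) 31))
        (fun t _ => Nat.rec
          (opS2 X ih D U S c (Nat.mul 5 (Nat.land (Nat.shiftRight c 2) 63))
            (Nat.land (Nat.shiftRight c 8) 31))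
          (fun _ _ => Nat.rec (cite X n D (Nat.shiftRight c 3)) (fun _ _ => opB X lv S)
            (Nat.land (Nat.shiftRight c 2) 1)) t) t) (Nat.land c 3)) fuel

def tre2 (X : Cx) (n c u : ℕ) : Bool :=
  chT X n (ival X n) 1000 (dbl X.d (imask X n)) (repU (ne0 X.d) u) (Nat.mul u (ne0 X.d)) c

def tre1 (X : Cx) (n c h : ℕ) : Bool :=
  cond (Nat.beq h 0) (tre2 X n c inf)
    (Nat.blt h n && Nat.beq (imask X h) 0 && tre2 X n c (ival X h))

/-- The item `n` is proved by a case analysis. -/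
def treK (X : Cx) (n c : ℕ) : Bool := tre1 X n (Nat.shiftRight c 18) (Nat.land c 262143)

/-! ### Mirror images -/

def mirF (d A B i f : ℕ) : Bool :=
  Nat.beq (g5 A (5 * i + f - 1)) 0 ||
    (Nat.ble (f + 3) (exg B (5 * ((d - i) % d))) &&
      sub (g5 A (5 * i + f - 1)) (g5 B (5 * ((d - i) % d) + exg B (5 * ((d - i) % d)) - f - 1)))

def mirOK (d A B : ℕ) : Bool :=
  sub A (ones (25 * d)) && (List.range d).all fun i =>
    sub (g5 A (5 * i)) (g5 B (5 * ((d - i) % d))) &&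
    sub (g5 A (5 * i + 1)) (g5 B (5 * ((2 * d - i - 1) % d) + 1)) &&
    mirF d A B i 3 && mirF d A B i 4 && mirF d A B i 5

def mir1 (X : Cx) (n j : ℕ) : Bool :=
  Nat.blt j n && Nat.ble 1 X.d && Nat.beq (ival X j) (ival X n) &&
    mirOK X.d (imask X j) (imask X n)

/-- The item `n` is the mirror image of an earlier item. -/
def mirK (X : Cx) (n c : ℕ) : Bool := frcN (mir1 X n) (Nat.land c 262143)

/-! ### Appearance of configurations -/

def kl1 (a g sp sm : ℕ) : List ℕ :=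
  cond (Nat.beq g 0) [sm + 1, sm, 0, sp, a + 1]
    (sm :: 0 :: sp :: (List.range' (a + 1) (g - 4) ++ [sm + 1, sm, 0]))

/-- The known part of the link of a spoke, in labels. -/
def kl0 (d D a : ℕ) : List ℕ :=
  cond (Nat.blt a 55 && Nat.beq (a % 5) 1 && Nat.ble 1 (a / 5 + d))
    (kl1 a (exg D (a - 1)) (5 * ((a / 5 + 1) % d) + 1) (5 * ((a / 5 + d - 1) % d) + 1)) []

def awin (x : ℕ) (f : ℕ → ℕ → Bool) (l : List ℕ) : ℕ → ℕ → Bool :=
  List.rec (fun _ _ => false)
    (fun c _ ih a b => Bool.rec (ih b c) (Bool.rec (ih b c) true (f a c)) (Nat.beq b x)) l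

/-- Some three consecutive entries `a, x, c` satisfy `f a c`. -/
def hasW (x : ℕ) (f : ℕ → ℕ → Bool) (l : List ℕ) : Bool :=
  List.rec false (fun a t _ => List.rec false (fun b t' _ => awin x f t' a b) t) l

def tri3 (l : List ℕ) (y x z : ℕ) : Bool :=
  hasW x (fun a c => (Nat.beq a y && Nat.beq c z) || (Nat.beq a z && Nat.beq c y)) l

def side3 (l : List ℕ) (x y : ℕ) : Bool := hasW x (fun a c => Nat.beq a y || Nat.beq c y) l

def growL (KL : ℕ → List ℕ) (a : ℕ) (k : ℕ → Bool) (l : List ℕ) : ℕ → ℕ → ℕ → Bool :=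
  List.rec (fun _ _ U => k U) (fun z _ ih y x U => cond (tb U z)
    ((tri3 (KL a) y x z || tri3 (KL x) y a z) && ih x z U) (ih x z (Nat.lor U (bt z)))) l

def updL (KL : ℕ → List ℕ) (a : ℕ) (l : List ℕ) : ℕ → List ℕ :=
  fun s => cond (Nat.beq s a) l (KL s)

def degOK (d D a len : ℕ) : Bool :=
  cond (Nat.beq a 0) (Nat.beq len d) (Nat.blt a 64 && Nat.beq len (exg D (a - 1)))

def grow1 (d D : ℕ) (k : (ℕ → List ℕ) → ℕ → Bool) (KL : ℕ → List ℕ) (U a : ℕ) (l : List ℕ) :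
    Bool :=
  List.rec false (fun l0 t _ => List.rec false (fun l1 t' _ =>
    tb U a && tb U l0 && tb U l1 && degOK d D a l.length && side3 (KL l1) l0 a &&
      growL KL a (fun U' => k (updL KL a (l ++ [l0, l1])) U') t' l0 l1 U) t) l

def lab (labs a : ℕ) : ℕ := Nat.land (Nat.shiftRight labs (Nat.mul 7 a)) 127

def turn (l : List ℕ) (st dir : ℕ) : List ℕ := (cond (Nat.beq dir 0) l l.reverse).rotate st

def grow (d D : ℕ) (C : Cfg) (labs : ℕ) (steps : List ℕ) : ℕ → (ℕ → List ℕ) → ℕ → Bool :=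
  List.rec (fun Z _ _ => sub (Nat.shiftLeft (ones C.lk.length) C.r) Z)
    (fun s _ ih Z KL U => grow1 d D (ih (Nat.lor Z (bt (fld s 0 32)))) KL U
      (lab labs (fld s 0 32))
      ((turn (C.L (fld s 0 32)) (fld s 5 16) (fld s 9 2)).map (lab labs))) steps

def growOK (d D : ℕ) (C : Cfg) (labs : ℕ) (steps : List ℕ) : Bool :=
  Nat.ble d 11 && grow d D C labs steps 0 (kl0 d D) (ones 64)

/-- The mask of the item `n` forces the appearance of a reducible configuration. -/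
def cfgK (X : Cx) (n c : ℕ) : Bool :=
  growOK X.d (imask X n) (mkCfg (X.cf.get (fld c 0 4096))) (Nat.shiftRight c 17)
    (dec 10 (fld c 12 32) (Nat.shiftRight c 241))

/-! ### The sequence of items -/

def chkI (X : Cx) (n c : ℕ) : Bool :=
  Nat.rec (cfgK X n (Nat.shiftRight c 2)) (fun t _ => Nat.rec (entK X n (Nat.shiftRight c 2))
    (fun t _ => Nat.rec (treK X n (Nat.shiftRight c 2)) (fun _ _ => mirK X n (Nat.shiftRight c 2))
      t) t) (Nat.land c 3)

/-- The proofs of the items `n, …, n + m - 1`, each after its length. -/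
def chkS (X : Cx) (m : ℕ) : ℕ → ℕ → Bool :=
  Nat.rec (fun _ _ => true) (fun _ ih n c => Bool.rec false
    (frcN ih (Nat.succ n) (Nat.shiftRight c (Nat.add 16 (Nat.land c 65535))))
    (chkI X n (Nat.shiftRight c 16))) m

def chkL (X : Cx) (n' : ℕ) (cs : List ℕ) : ℕ → Bool :=
  List.rec (fun n => Nat.ble n' n) (fun c _ ih n => Bool.rec false
    (frcN ih (Nat.add n (Nat.land c 255))) (chkS X (Nat.land c 255) n (Nat.shiftRight c 8))) cs

/-! ### Statements -/

/-- Tools for flags, positions and masks. -/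
structure Geo {V : Type} [Fintype V] (G : SimpleGraph V) : Prop where
  d5 : ∀ v, 5 ≤ dg G v
  fl : ∀ {φ}, IsFl G φ → ∀ e, IsFl G ((rot G)^[e] φ)
  it : ∀ φ e, (rot G)^[e] φ = (φ.1, nb G φ e, nb G φ (e + 1))
  per : ∀ {φ}, IsFl G φ → ∀ i j, i ≡ j [MOD dg G φ.1] → (rot G)^[i] φ = (rot G)^[j] φ
  psiF : ∀ {φ}, IsFl G φ → IsFl G (psi φ)
  mirF : ∀ {φ}, IsFl G φ → IsFl G (mir G φ)
  mirmir : ∀ {φ}, IsFl G φ → mir G (mir G φ) = φ
  mirpsi : ∀ {φ}, IsFl G φ → mir G (psi φ) = psi (mir G φ)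
  nbmir : ∀ {φ}, IsFl G φ → ∀ i j, i + j ≡ 0 [MOD dg G φ.1] → nb G (mir G φ) i = nb G φ j
  rotmir : ∀ {φ}, IsFl G φ → ∀ i j, i + j ≡ 0 [MOD dg G φ.1] →
    (rot G)^[i] (mir G φ) = mir G ((rot G)^[j] φ)
  rev : ∀ {φ}, IsFl G φ → ∀ i j, i + j ≡ 1 [MOD dg G φ.1] →
    nb G (φ.1, φ.2.2, φ.2.1) i = nb G φ j
  back : ∀ {φ}, IsFl G φ → mir G (psi (rot G φ)) = (φ.2.2, φ.1, φ.2.1)
  hat : ∀ {φ}, IsFl G φ → nb G (φ.2.2, φ.1, φ.2.1) 2 = nb G (psi φ) 2
  pos_rot : ∀ φ e p, pos G ((rot G)^[e] φ) p = pos G φ (p + 5 * e)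
  pos_mk : ∀ φ i j, j < 5 → pos G φ (5 * i + j) = posB G ((rot G)^[i] φ) j
  fits0 : ∀ φ, Fits G φ 0
  fits31 : ∀ φ p, ¬ Fits G φ (Nat.shiftLeft 31 (5 * p))
  fits_or : ∀ φ a b, Fits G φ (Nat.lor a b) ↔ Fits G φ a ∧ Fits G φ b
  fits_sub : ∀ φ a b, sub a b = true → Fits G φ b → Fits G φ a
  fits_shr : ∀ φ D e, Fits G φ D → Fits G ((rot G)^[e] φ) (Nat.shiftRight D (25 * e))
  fits_dbl : ∀ {φ}, IsFl G φ → ∀ d x, (d ≠ 0 → dg G φ.1 = d) → Fits G φ x → Fits G φ (dbl d x)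
  fits_shl : ∀ φ m p, m < 32 →
    (Fits G φ (Nat.shiftLeft m (5 * p)) ↔ m.testBit (cls (dg G (pos G φ p))) = false)
  fits_only : ∀ φ m p, Fits G φ (only m p) ↔ m.testBit (cls (dg G (pos G φ p))) = true
  fits_at : ∀ φ D p, Fits G φ D →
    (Nat.shiftRight D (5 * p)).testBit (cls (dg G (pos G φ p))) = false
  exg : ∀ φ D p, Fits G φ D → exg D p ≠ 0 →
    dg G (pos G φ p) = exg D p ∧ 5 ≤ exg D p ∧ exg D p ≤ 8
  hd_rot : ∀ R K d φ e, Hd G R K d φ → Hd G R K d ((rot G)^[e] φ)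
  hd_mir : ∀ R K d φ, Hd G R K d φ → Hd G R K d (mir G φ)

def StmtGEO : Prop :=
  ∀ (V : Type) [Fintype V] [DecidableEq V] (G : SimpleGraph V), Min6 G → Geo G

/-- The charge of a vertex is a sum over its edges. -/
def Sums {V : Type} [Fintype V] (G : SimpleGraph V) : Prop :=
  ∀ R φ, IsFl G φ → inV G R φ.1 = ∑ e ∈ range (dg G φ.1), eIn G R ((rot G)^[e] φ) ∧
    outV G R φ.1 = ∑ e ∈ range (dg G φ.1), eOut G R ((rot G)^[e] φ)

def StmtDIS : Prop :=
  ∀ (V : Type) [Fintype V] [DecidableEq V] (G : SimpleGraph V), Min6 G → Geo G →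
    Sums G ∧ ∀ R K, 0 < K → ∃ v, Chg G R K v

/-- The four flags of an edge. -/
def fl4 {V : Type} (G : SimpleGraph V) (inn u0 : Bool) (χ : Fl V) : Fl V :=
  cond inn (psi (cond u0 (mir G χ) χ)) (cond u0 (mir G χ) χ)

def StmtCMP : Prop :=
  ∀ (V : Type) [Fintype V] (G : SimpleGraph V), Geo G → ∀ R K d φ inn u0, Hd G R K d φ →
    sent G R (fl4 G inn u0 ((rot G)^[c0 d] φ)) = wsum G φ (comp d inn u0 R)

def StmtTT : Prop :=
  ∀ (V : Type) [Fintype V] (G : SimpleGraph V), Geo G → ∀ (X : Cx) φ n v D O t P i o,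
    Hd G X.R X.K X.d φ → (∀ j < n, Fact G X j) → X.n0 ≤ n → Fits G φ P → Fits G φ D →
    rootT X O t P i o = true → bd n v D t = true → 0 < v ∧ wsum G φ i + O ≤ v + wsum G φ o

def StmtENT : Prop :=
  StmtCMP → StmtTT → ∀ (V : Type) [Fintype V] (G : SimpleGraph V), Geo G → ∀ (X : Cx) n c,
    okA X = true → okP X = true → okM X = true → (∀ j < n, Fact G X j) → entK X n c = true →
    Fact G X n

def StmtTRE : Prop :=
  ∀ (V : Type) [Fintype V] (G : SimpleGraph V), Geo G → Sums G → ∀ (X : Cx) n c, lim X < inf →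
    (∀ j < n, Fact G X j) → treK X n c = true → Fact G X n

def StmtMIR : Prop :=
  ∀ (V : Type) [Fintype V] (G : SimpleGraph V), Geo G → ∀ (X : Cx) n c,
    (∀ j < n, Fact G X j) → mirK X n c = true → Fact G X n

/-- Three consecutive entries of the list. -/
def Win (l : List ℕ) (a b c : ℕ) : Prop := ∃ s t, l = s ++ a :: b :: c :: t

def StmtKL0 : Prop :=
  ∀ (V : Type) [Fintype V] [DecidableEq V] (G : SimpleGraph V), Min6 G → Geo G →
    ∀ φ d D, IsFl G φ → d ≤ 11 → (d ≠ 0 → dg G φ.1 = d) → Fits G φ D → ∀ a y x z,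
      Win (kl0 d D a) y x z → a < 64 ∧ y < 64 ∧ x < 64 ∧ z < 64 ∧
        T3 G (vlab G φ a) (vlab G φ y) (vlab G φ x) (vlab G φ z)

def StmtGROW : Prop :=
  StmtKL0 → ∀ (V : Type) [Fintype V] [DecidableEq V] (G : SimpleGraph V), Min6 G → Geo G →
    ∀ φ d D C labs steps, IsFl G φ → (d ≠ 0 → dg G φ.1 = d) → Fits G φ D →
      growOK d D C labs steps = true → ∃ f, App G C f

/-- The data pass the global checks. -/
structure CxOK (X : Cx) : Prop where
  a : okA X = true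
  p : okP X = true
  m : okM X = true
  l : lim X < inf
  c : X.cf.All fun c => (mkCfg c).WF ∧ (mkCfg c).Red

def StmtSEQ : Prop :=
  StmtKEMPE → StmtEMB → StmtRED → StmtCMP → StmtTT → StmtENT → StmtTRE → StmtMIR → StmtKL0 →
    StmtGROW → ∀ (V : Type) [Fintype V] [DecidableEq V] (G : SimpleGraph V), Min6 G → Geo G →
    Sums G → ∀ (X : Cx) n n' cs, CxOK X → chkL X n' cs n = true → (∀ j < n, Fact G X j) →
      ∀ j < n', Fact G X j

def StmtEND : Prop :=
  ∀ (V : Type) [Fintype V] [DecidableEq V] (G : SimpleGraph V), Min6 G → Geo G → Sums G →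
    ∀ R K v, Chg G R K v → (∀ d φ, 5 ≤ d → d ≤ 11 → ¬ Hd G R K d φ) →
      (∀ φ, Hd G R K 0 φ → eIn G R ((rot G)^[5] φ) ≤ 5 * K + eOut G R ((rot G)^[5] φ)) → False

end

end Pool.Agent.MP_31805c_co.H47
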