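import Pool.Agent.MP_31805c_co.H47.SpecB

/-!
Digits in base three and the sets of cells that the program builds from them.
-/

namespace Pool.Agent.MP_31805c_co.H47

namespace Stp

theorem dig_lt (p i : ℕ) : dig p i < 3 := Nat.mod_lt _ (by norm_num)

theorem pow_pos' (p : ℕ) : 0 < 3 ^ p := by positivity

theorem div_self_add (p i a : ℕ) : (i + a * 3 ^ p) / 3 ^ p = i / 3 ^ p + a :=
  Nat.add_mul_div_right _ _ (pow_pos' p)

theorem dig_self_add (p i a : ℕ) : dig p (i + a * 3 ^ p) = (dig p i + a) % 3 := by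
  unfold dig
  rw [div_self_add]
  omega

theorem div_add {p i a s : ℕ} (h : dig p i + a < 3) (hs : p < s) :
    (i + a * 3 ^ p) / 3 ^ s = i / 3 ^ s := by
  obtain ⟨t, rfl⟩ : ∃ t, s = p + 1 + t := ⟨s - (p + 1), by omega⟩
  have h1 : ∀ x : ℕ, x / 3 ^ (p + 1 + t) = x / 3 ^ p / 3 / 3 ^ t := by
    intro x
    rw [Nat.div_div_eq_div_mul, Nat.div_div_eq_div_mul, pow_add, pow_succ, mul_assoc]
  rw [h1, h1, div_self_add]
  unfold dig at h
  have h2 : (i / 3 ^ p + a) / 3 = i / 3 ^ p / 3 := by omega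
  rw [h2]

theorem dig_add_low {p s : ℕ} (i a : ℕ) (hs : s < p) : dig s (i + a * 3 ^ p) = dig s i := by
  obtain ⟨t, rfl⟩ : ∃ t, p = s + (t + 1) := ⟨p - (s + 1), by omega⟩
  unfold dig
  have h1 : a * 3 ^ (s + (t + 1)) = a * 3 ^ t * 3 * 3 ^ s := by ring
  rw [h1, Nat.add_mul_div_right _ _ (pow_pos' s)]
  omega

theorem dig_add_ne {p i a s : ℕ} (h : dig p i + a < 3) (hs : s ≠ p) :
    dig s (i + a * 3 ^ p) = dig s i := by
  rcases lt_or_gt_of_ne hs with h1 | h1
  · exact dig_add_low i a h1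
  · unfold dig
    rw [div_add h h1]

theorem add_lt {p i a n : ℕ} (h : dig p i + a < 3) (hp : p < n) (hi : i < 3 ^ n) :
    i + a * 3 ^ p < 3 ^ n := by
  have h1 := div_add h hp
  rw [Nat.div_eq_of_lt hi] at h1
  exact (Nat.div_eq_zero_iff_lt (pow_pos' n)).1 h1

theorem dig_of_lt {p i : ℕ} (h : i < 3 ^ p) : dig p i = 0 := by
  unfold dig
  rw [Nat.div_eq_of_lt h]

/-- Remove the digit `p`. -/
theorem split (p i : ℕ) : ∃ k, i = k + dig p i * 3 ^ p ∧ dig p k = 0 := by
  have h1 : dig p i * 3 ^ p ≤ i :=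
    le_trans (Nat.mul_le_mul_right _ (Nat.mod_le _ _)) (Nat.div_mul_le_self i (3 ^ p))
  refine ⟨i - dig p i * 3 ^ p, by omega, ?_⟩
  have h2 := dig_self_add p (i - dig p i * 3 ^ p) (dig p i)
  rw [Nat.sub_add_cancel h1] at h2
  have h3 := dig_lt p (i - dig p i * 3 ^ p)
  have h4 := dig_lt p i
  omega

theorem sub_iff {p i a : ℕ} (ha : a < 3) :
    (a * 3 ^ p ≤ i ∧ dig p (i - a * 3 ^ p) = 0) ↔ dig p i = a := by
  constructor
  · rintro ⟨h1, h2⟩
    have h3 := dig_self_add p (i - a * 3 ^ p) a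
    rw [Nat.sub_add_cancel h1, h2] at h3
    omega
  · rintro rfl
    obtain ⟨k, hk, hk0⟩ := split p i
    have h1 : i - dig p i * 3 ^ p = k := by omega
    exact ⟨by omega, by rw [h1]; exact hk0⟩

theorem testBit_rep3 (s x i : ℕ) : (rep3 s x).testBit i = true ↔
    x.testBit i = true ∨ (s ≤ i ∧ x.testBit (i - s) = true) ∨
      (2 * s ≤ i ∧ x.testBit (i - 2 * s) = true) := by
  unfold rep3
  rw [testBit_lor, testBit_lor, testBit_shl, testBit_shl]
  simp

theorem dm_succ (p n : ℕ) :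
    dm p (n + 1) = cond (Nat.beq n p) (dm p n) (rep3 (3 ^ n) (dm p n)) := rfl

theorem dm_iff (p n i : ℕ) : (dm p n).testBit i = true ↔ i < 3 ^ n ∧ dig p i = 0 := by
  induction n generalizing i with
  | zero =>
    show (1 : ℕ).testBit i = true ↔ _
    rw [Nat.testBit_one_eq_true_iff_self_eq_zero]
    constructor
    · rintro rfl
      exact ⟨by norm_num, by simp [dig]⟩
    · rintro ⟨h, _⟩
      simpa using h
  | succ n ih =>
    rw [dm_succ]
    by_cases hnp : n = p
    · subst hnp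
      have h0 : Nat.beq n n = true := beq_true.2 rfl
      rw [h0, cond_true, ih]
      constructor
      · rintro ⟨h1, h2⟩
        exact ⟨by rw [pow_succ]; omega, h2⟩
      · rintro ⟨h1, h2⟩
        refine ⟨?_, h2⟩
        have h3 : i / 3 ^ n < 3 := by
          rw [Nat.div_lt_iff_lt_mul (pow_pos' n)]
          rw [pow_succ] at h1
          omega
        unfold dig at h2
        have h4 : i / 3 ^ n = 0 := by rwa [Nat.mod_eq_of_lt h3] at h2
        exact (Nat.div_eq_zero_iff_lt (pow_pos' n)).1 h4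
    · have h0 : Nat.beq n p = false := by
        cases h : Nat.beq n p
        · rfl
        · exact absurd (beq_true.1 h) hnp
      rw [h0, cond_false, testBit_rep3, ih, ih, ih]
      have key : ∀ k a, k < 3 ^ n → a < 3 → dig p (k + a * 3 ^ n) = dig p k := by
        intro k a hk ha
        exact dig_add_ne (by rw [dig_of_lt hk]; omega) (Ne.symm hnp)
      have hpw : 3 ^ (n + 1) = 3 * 3 ^ n := by ring
      constructor
      · rintro (⟨h1, h2⟩ | ⟨h1, h2, h3⟩ | ⟨h1, h2, h3⟩)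
        · exact ⟨by omega, h2⟩
        · refine ⟨by omega, ?_⟩
          have h4 := key _ 1 h2 (by norm_num)
          rw [one_mul, Nat.sub_add_cancel h1] at h4
          rw [h4, h3]
        · refine ⟨by omega, ?_⟩
          have h4 := key _ 2 h2 (by norm_num)
          rw [Nat.sub_add_cancel h1] at h4
          rw [h4, h3]
      · rintro ⟨h1, h2⟩
        by_cases c1 : i < 3 ^ n
        · exact Or.inl ⟨c1, h2⟩
        by_cases c2 : i < 2 * 3 ^ n
        · refine Or.inr (Or.inl ⟨by omega, by omega, ?_⟩)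
          have h4 := key (i - 3 ^ n) 1 (by omega) (by norm_num)
          rw [one_mul, Nat.sub_add_cancel (by omega)] at h4
          rw [← h4, h2]
        · refine Or.inr (Or.inr ⟨by omega, by omega, ?_⟩)
          have h4 := key (i - 2 * 3 ^ n) 2 (by omega) (by norm_num)
          rw [Nat.sub_add_cancel (by omega)] at h4
          rw [← h4, h2]

theorem cellA_iff {n p i : ℕ} (hi : i < 3 ^ n) :
    (cellA n p).testBit i = true ↔ dig p i = 0 ∨ dig p i = 1 := by
  unfold cellA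
  rw [testBit_lor, testBit_shl]
  simp only [Bool.or_eq_true, Bool.and_eq_true, decide_eq_true_eq, dm_iff]
  have h1 := sub_iff (p := p) (i := i) (a := 1) (by norm_num)
  rw [one_mul] at h1
  show (i < 3 ^ n ∧ dig p i = 0) ∨ (3 ^ p ≤ i ∧ i - 3 ^ p < 3 ^ n ∧ dig p (i - 3 ^ p) = 0) ↔ _
  constructor
  · rintro (⟨_, h⟩ | ⟨h2, _, h3⟩)
    · exact Or.inl h
    · exact Or.inr (h1.1 ⟨h2, h3⟩)
  · rintro (h | h)
    · exact Or.inl ⟨hi, h⟩
    · exact Or.inr ⟨(h1.2 h).1, lt_of_le_of_lt (Nat.sub_le _ _) hi, (h1.2 h).2⟩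

theorem cellB_iff {n p i : ℕ} (hi : i < 3 ^ n) :
    (cellB n p).testBit i = true ↔ dig p i = 1 ∨ dig p i = 2 := by
  unfold cellB
  rw [testBit_shl]
  simp only [Bool.and_eq_true, decide_eq_true_eq]
  show 3 ^ p ≤ i ∧ (cellA n p).testBit (i - 3 ^ p) = true ↔ _
  rw [cellA_iff (lt_of_le_of_lt (Nat.sub_le _ _) hi)]
  have h1 := dig_self_add p (i - 3 ^ p) 1
  rw [one_mul] at h1
  constructor
  · rintro ⟨h2, h3⟩
    rw [Nat.sub_add_cancel h2] at h1
    omega
  · intro h2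
    obtain ⟨k, hk, -⟩ := split p i
    have h3 : 3 ^ p ≤ i := by
      have h4 : 1 * 3 ^ p ≤ dig p i * 3 ^ p := Nat.mul_le_mul_right _ (by omega)
      omega
    rw [Nat.sub_add_cancel h3] at h1
    have h5 := dig_lt p (i - 3 ^ p)
    exact ⟨h3, by omega⟩

theorem ex_dig (n : ℕ) (d : ℕ → ℕ) (hd : ∀ p, d p < 3) :
    ∃ i < 3 ^ n, ∀ p < n, dig p i = d p := by
  induction n with
  | zero => exact ⟨0, by norm_num, fun p hp => absurd hp (Nat.not_lt_zero p)⟩
  | succ n ih =>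
    obtain ⟨i, hi, h⟩ := ih
    have h0 : dig n i + d n < 3 := by rw [dig_of_lt hi]; simpa using hd n
    refine ⟨i + d n * 3 ^ n, add_lt h0 (Nat.lt_succ_self n) (by rw [pow_succ]; omega), ?_⟩
    intro p hp
    by_cases hpn : p = n
    · subst hpn
      rw [dig_self_add, dig_of_lt hi]
      have := hd p
      omega
    · rw [dig_add_ne h0 hpn]
      exact h p (by omega)

/-- Write two digits into a cell where they vanish. -/
theorem two {n p q k a b : ℕ} (hp : p < n) (hpq : p ≠ q) (hk : k < 3 ^ n) (h1 : dig p k = 0)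
    (h2 : dig q k = 0) (ha : a < 3) (hb : b < 3) (hq : n ≤ q → b = 0) :
    k + (a * 3 ^ p + b * 3 ^ q) < 3 ^ n ∧ dig p (k + (a * 3 ^ p + b * 3 ^ q)) = a ∧
      dig q (k + (a * 3 ^ p + b * 3 ^ q)) = b ∧
      ∀ s, s ≠ p → s ≠ q → dig s (k + (a * 3 ^ p + b * 3 ^ q)) = dig s k := by
  rw [← add_assoc]
  have e1 : dig p k + a < 3 := by omega
  have e2 : dig q (k + a * 3 ^ p) = 0 := by rw [dig_add_ne e1 (Ne.symm hpq), h2]
  have e3 : dig q (k + a * 3 ^ p) + b < 3 := by omega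
  refine ⟨?_, ?_, ?_, ?_⟩
  · by_cases c : q < n
    · exact add_lt e3 c (add_lt e1 hp hk)
    · rw [hq (by omega), zero_mul, add_zero]
      exact add_lt e1 hp hk
  · rw [dig_add_ne e3 hpq, dig_self_add]
    omega
  · rw [dig_self_add]
    omega
  · intro s hs1 hs2
    rw [dig_add_ne e3 hs2, dig_add_ne e1 hs1]

theorem stp_iff (n p q : ℕ) (rel : List (ℕ × ℕ × ℕ × ℕ)) (T j : ℕ) :
    (stp n p q rel T).testBit j = true ↔ ∃ e ∈ rel, ∃ k,
      j = k + (e.2.2.1 * 3 ^ p + e.2.2.2 * 3 ^ q) ∧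
      T.testBit (k + (e.1 * 3 ^ p + e.2.1 * 3 ^ q)) = true ∧
      k < 3 ^ n ∧ dig p k = 0 ∧ dig q k = 0 := by
  induction rel with
  | nil =>
    show (0 : ℕ).testBit j = true ↔ _
    simp
  | cons e l ih =>
    have h0 : stp n p q (e :: l) T = Nat.lor (Nat.shiftLeft (Nat.land (Nat.shiftRight T
      (e.1 * 3 ^ p + e.2.1 * 3 ^ q)) (Nat.land (dm p n) (dm q n)))
      (e.2.2.1 * 3 ^ p + e.2.2.2 * 3 ^ q)) (stp n p q l T) := rfl
    rw [h0, testBit_lor, testBit_shl, testBit_land, testBit_land, testBit_shr]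
    simp only [Bool.or_eq_true, Bool.and_eq_true, decide_eq_true_eq, dm_iff, ih, List.mem_cons]
    constructor
    · rintro (⟨h1, h2, ⟨h3, h4⟩, -, h5⟩ | ⟨e', he', h⟩)
      · refine ⟨e, Or.inl rfl, _, (Nat.sub_add_cancel h1).symm, ?_, h3, h4, h5⟩
        rw [add_comm]
        exact h2
      · exact ⟨e', Or.inr he', h⟩
    · rintro ⟨e', rfl | he', k, h1, h2, h3, h4, h5⟩
      · left
        have h6 : j - (e'.2.2.1 * 3 ^ p + e'.2.2.2 * 3 ^ q) = k := by omega
        rw [h6, add_comm _ k]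
        exact ⟨by omega, h2, ⟨h3, h4⟩, h3, h5⟩
      · exact Or.inr ⟨e', he', k, h1, h2, h3, h4, h5⟩

end Stp

open Stp in
theorem stpP : StmtSTP where
  dm := dm_iff
  cellA := by
    intro n p i _ hi
    have h := cellA_iff (p := p) hi
    have h3 := dig_lt p i
    cases hb : (cellA n p).testBit i
    · have h4 : dig p i = 2 := by
        rw [hb] at h
        simp only [Bool.false_eq_true, false_iff, not_or] at h
        omega
      rw [h4]
      rfl
    · rcases h.1 hb with h4 | h4 <;> rw [h4] <;> rfl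
  cellB := by
    intro n p i _ hi
    have h := cellB_iff (p := p) hi
    have h3 := dig_lt p i
    cases hb : (cellB n p).testBit i
    · have h4 : dig p i = 0 := by
        rw [hb] at h
        simp only [Bool.false_eq_true, false_iff, not_or] at h
        omega
      rw [h4]
      rfl
    · rcases h.1 hb with h4 | h4 <;> rw [h4] <;> rfl
  ex := ex_dig
  sound := by
    intro n p q rel T j hp hpq hrel hj
    obtain ⟨e, he, k, rfl, h2, h3, h4, h5⟩ := (stp_iff n p q rel T j).1 hj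
    obtain ⟨r1, r2, r3, r4, r5⟩ := hrel e he
    obtain ⟨a1, a2, a3, a4⟩ := two hp hpq h3 h4 h5 r1 r2 (fun h => (r5 h).1)
    obtain ⟨b1, b2, b3, b4⟩ := two hp hpq h3 h4 h5 r3 r4 (fun h => (r5 h).2)
    exact ⟨b1, e, he, _, a1, h2, a2, a3, b2, b3, fun s hs1 hs2 => by
      rw [b4 s hs1 hs2, a4 s hs1 hs2]⟩
  compl := by
    intro n p q rel T hp hpq hrel e he i hi hT h1 h2
    obtain ⟨r1, r2, r3, r4, r5⟩ := hrel e he
    obtain ⟨i1, e1, e2⟩ := split q i
    have e3 : dig p i1 = e.1 := by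
      rw [← h1, e1, dig_add_ne (by rw [e2]; simpa using dig_lt q i) hpq]
    obtain ⟨k, f1, f2⟩ := split p i1
    have f3 : dig q k = 0 := by
      rw [← e2, f1, dig_add_ne (by rw [f2]; simpa using dig_lt p i1) (Ne.symm hpq)]
    rw [h2] at e1
    rw [e3] at f1
    have hik : i = k + (e.1 * 3 ^ p + e.2.1 * 3 ^ q) := by omega
    have hk : k < 3 ^ n := by omega
    obtain ⟨-, -, -, a4⟩ := two hp hpq hk f2 f3 r1 r2 (fun h => (r5 h).1)
    obtain ⟨b1, b2, b3, b4⟩ := two hp hpq hk f2 f3 r3 r4 (fun h => (r5 h).2)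
    refine ⟨_, b1, (stp_iff n p q rel T _).2 ⟨e, he, k, rfl, hik ▸ hT, hk, f2, f3⟩, b2, b3, ?_⟩
    intro s hs1 hs2
    rw [b4 s hs1 hs2, hik, a4 s hs1 hs2]

end Pool.Agent.MP_31805c_co.H47
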