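import Pool.Agent.MP_31805c_co.H47.Memo

namespace Pool.Agent.MP_31805c_co.H47

open FT

set_option maxRecDepth 10000

noncomputable def tree1 : FT :=
  leaf

theorem cov1 : covAll 1 tree1 = true := by decide +kernel

noncomputable def tree2 : FT :=
  (both (one 2 leaf) (one 1 leaf))

theorem cov2 : covAll 2 tree2 = true := by decide +kernel

noncomputable def tree3 : FT :=
  (both (one 2 (both (one 4 leaf) (node [1,3] leaf))) (both (one 3 (both (one 1 leaf) (node [2,4]
  leaf))) (one 4 (one 1 leaf))))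

theorem cov3 : covAll 3 tree3 = true := by decide +kernel

noncomputable def tree4 : FT :=
  (both (node [2,4,6] (both (node [3,5] (both (one 4 leaf) (one 3 leaf))) (both (one 2 (both (one
  4 leaf) (one 5 leaf))) (one 6 (one 3 leaf))))) (both (node [1,3] (both (one 1 (both (one 6 leaf)
  (one 5 leaf))) (one 2 (both (one 5 leaf) (one 6 leaf))))) (both (node [1,3,5] (both (node [2,4]
  (both (one 3 leaf) (one 2 leaf))) (one 1 (one 4 leaf)))) (node [4,6] (one 1 (both (one 5 leaf)
  (one 4 leaf)))))))

theorem cov4 : covAll 4 tree4 = true := by decide +kernel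

noncomputable def tree5 : FT :=
  (both (node [1,3,5,7] (both (node [2,4,6] (both (node [3,5] (both (one 3 leaf) (one 4 leaf)))
  (both (one 6 (both (one 3 leaf) (one 2 leaf))) (one 5 (one 2 leaf))))) (both (node [1,3] (both
  (one 2 (both (one 5 leaf) (one 6 leaf))) (one 1 (both (one 5 leaf) (one 6 leaf))))) (both (node
  [2,4,7] (one 7 (both (one 3 leaf) (one 2 leaf)))) (one 1 (both (node [4,6] (both (one 4 leaf)
  (one 5 leaf))) (node [4,7] (one 4 leaf)))))))) (both (node [2,4,6,8] (both (node [3,5,7] (both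
  (one 4 (both (one 6 leaf) (one 7 leaf))) (both (one 5 (both (one 3 leaf) (node [4,6] leaf)))
  (node [3,6] (one 3 leaf))))) (both (one 8 (both (one 2 (both (one 5 leaf) (one 4 leaf))) (both
  (node [3,5] (both (one 3 leaf) (one 4 leaf))) (node [3,6] (one 3 leaf))))) (both (node [2,4,7]
  (one 7 (both (one 3 leaf) (one 2 leaf)))) (node [2,5,7] (one 2 (both (one 6 leaf) (one 5
  leaf)))))))) (both (node [1,4,6,8] (one 1 (both (node [5,7] (both (one 5 leaf) (one 6 leaf)))
  (both (one 8 (both (one 5 leaf) (one 4 leaf))) (one 7 (one 4 leaf)))))) (both (node [1,3,5,8]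
  (one 8 (both (node [2,4] (both (one 2 leaf) (one 3 leaf))) (both (one 1 (both (one 3 leaf) (one
  4 leaf))) (one 2 (one 5 leaf)))))) (node [1,3] (node [6,8] (both (one 6 (both (one 2 leaf) (one
  1 leaf))) (one 7 (both (one 2 leaf) (one 1 leaf))))))))))

theorem cov5 : covAll 5 tree5 = true := by decide +kernel

noncomputable def tree6 : FT :=
  (both (node [1,3,5,7,9] (both (node [2,4,6,8] (both (node [3,5] (both (one 8 (both (one 3 leaf)
  (one 4 leaf))) (one 7 (both (one 3 leaf) (one 4 leaf))))) (both (node [2,4] (both (one 2 (both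
  (one 7 leaf) (one 6 leaf))) (one 3 (both (one 7 leaf) (one 6 leaf))))) (both (node [4,6] (both
  (node [1,9] (both (one 5 leaf) (one 4 leaf))) (node [2,5] (one 2 leaf)))) (node [5,7] (both (one
  6 (both (one 2 leaf) (one 3 leaf))) (node [2,5] (one 2 leaf)))))))) (both (node [1,3] (both
  (node [6,8] (both (one 7 (both (one 2 leaf) (one 1 leaf))) (one 6 (both (one 1 leaf) (one 2
  leaf))))) (both (one 9 (both (one 2 (both (one 5 leaf) (one 6 leaf))) (one 1 (both (one 5 leaf)
  (one 6 leaf))))) (node [5,8] (one 5 (both (one 1 leaf) (one 2 leaf))))))) (both (one 1 (both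
  (node [4,6,8] (both (node [5,7] (both (one 5 leaf) (one 6 leaf))) (both (one 4 (both (one 7
  leaf) (one 6 leaf))) (one 8 (one 5 leaf))))) (both (node [3,5] (one 4 (both (one 7 leaf) (one 8
  leaf)))) (node [4,6,9] (one 9 (both (one 5 leaf) (one 4 leaf))))))) (both (node [2,4,6,9] (one 9
  (both (node [3,5] (both (one 3 leaf) (one 4 leaf))) (both (one 2 (both (one 4 leaf) (one 5
  leaf))) (node [3,6] (one 3 leaf)))))) (node [2,4,7,9] (node [2,4] (both (one 8 (both (one 3
  leaf) (one 2 leaf))) (one 7 (both (one 2 leaf) (one 3 leaf))))))))))) (both (node [2,4,6,8,10]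
  (both (node [3,5,7,9] (both (node [2,10] (both (node [5,7] (both (one 6 leaf) (one 5 leaf)))
  (both (one 8 (both (one 5 leaf) (one 4 leaf))) (node [4,7] (one 4 leaf))))) (both (node [3,5]
  (both (one 7 (both (one 3 leaf) (one 4 leaf))) (one 8 (both (one 4 leaf) (one 3 leaf))))) (both
  (node [3,6,8] (one 3 (both (one 7 leaf) (one 6 leaf)))) (one 9 (both (node [4,6] (both (one 4
  leaf) (one 5 leaf))) (node [3,6] (one 3 leaf)))))))) (both (one 10 (both (node [3,5,7] (both
  (node [4,6] (both (one 4 leaf) (one 5 leaf))) (both (one 3 (both (one 5 leaf) (one 6 leaf)))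
  (node [4,7] (one 4 leaf))))) (both (node [2,4] (both (one 3 (both (one 6 leaf) (one 7 leaf)))
  (one 2 (both (one 6 leaf) (one 7 leaf))))) (both (one 8 (both (node [3,5] (both (one 4 leaf)
  (one 3 leaf))) (node [2,5] (one 2 leaf)))) (node [2,5,7] (one 2 (both (one 6 leaf) (one 5
  leaf)))))))) (both (node [2,5,7,9] (one 2 (both (node [6,8] (both (one 6 leaf) (one 7 leaf)))
  (both (one 5 (both (one 8 leaf) (one 7 leaf))) (node [6,9] (one 6 leaf)))))) (both (node
  [8,9,10] (one 9 (both (node [3,5] (both (one 4 leaf) (one 3 leaf))) (both (one 6 (both (one 2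
  leaf) (one 3 leaf))) (one 5 (one 2 leaf)))))) (node [2,4] (node [7,9] (both (one 3 (both (one 8
  leaf) (one 7 leaf))) (one 2 (both (one 8 leaf) (one 7 leaf))))))))))) (both (node [1,3,5,7,10]
  (one 10 (both (node [2,4,6] (both (node [3,5] (both (one 4 leaf) (one 3 leaf))) (both (one 2
  (both (one 4 leaf) (one 5 leaf))) (node [3,6] (one 3 leaf))))) (both (one 1 (both (node [4,6]
  (both (one 4 leaf) (one 5 leaf))) (both (one 3 (both (one 6 leaf) (one 5 leaf))) (node [4,7]
  (one 4 leaf))))) (both (node [2,4,7] (one 7 (both (one 2 leaf) (one 3 leaf)))) (node [1,2,3]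
  (one 2 (both (one 6 leaf) (one 5 leaf))))))))) (both (node [8,10] (both (node [1,3,5] (both (one
  8 (both (node [2,4] (both (one 3 leaf) (one 2 leaf))) (both (one 1 (both (one 4 leaf) (one 3
  leaf))) (node [2,5] (one 2 leaf))))) (one 9 (both (node [2,4] (both (one 2 leaf) (one 3 leaf)))
  (both (one 5 (both (one 1 leaf) (one 2 leaf))) (node [1,4] (one 1 leaf))))))) (both (node
  [1,3,6] (one 6 (both (one 1 (both (one 9 leaf) (one 8 leaf))) (one 2 (both (one 9 leaf) (one 8
  leaf)))))) (node [1,4,6] (one 1 (both (one 5 (both (one 9 leaf) (one 8 leaf))) (one 4 (both (one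
  9 leaf) (one 8 leaf))))))))) (both (node [1,4,6,8,10] (both (node [5,7,9] (one 1 (both (node
  [6,8] (both (one 6 leaf) (one 7 leaf))) (both (one 5 (both (one 8 leaf) (one 7 leaf))) (node
  [6,9] (one 6 leaf)))))) (one 1 (both (node [4,7,9] (one 4 (both (one 8 leaf) (one 7 leaf))))
  (both (node [5,7,10] (one 10 (both (one 6 leaf) (one 5 leaf)))) (node [6,7,8] (one 10 (one 4
  leaf)))))))) (node [1,3,6,8,10] (node [1,3] (both (node [7,9] (both (one 8 (both (one 1 leaf)
  (one 2 leaf))) (one 7 (both (one 1 leaf) (one 2 leaf))))) (node [7,10] (one 7 (both (one 2 leaf)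
  (one 1 leaf))))))))))))

theorem cov6 : covAll 6 tree6 = true := by decide +kernel

noncomputable def tree7 : FT :=
  (both (node [2,4,6,8,10,12] (both (node [3,5,7,9,11] (both (node [2,12] (both (node [7,9] (both
  (one 8 (both (one 4 leaf) (one 5 leaf))) (one 7 (both (one 4 leaf) (one 5 leaf))))) (both (node
  [4,6] (both (one 8 (both (one 4 leaf) (one 5 leaf))) (one 9 (both (one 5 leaf) (one 4 leaf)))))
  (both (node [6,8] (both (node [3,11] (both (one 7 leaf) (one 6 leaf))) (node [4,7] (one 4
  leaf)))) (node [5,7] (both (one 6 (both (one 9 leaf) (one 10 leaf))) (node [5,10] (one 5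
  leaf)))))))) (both (node [9,11] (both (one 10 (both (node [4,6] (both (one 5 leaf) (one 4
  leaf))) (both (one 7 (both (one 4 leaf) (one 3 leaf))) (node [3,6] (one 3 leaf))))) (one 9 (both
  (node [4,6] (both (one 5 leaf) (one 4 leaf))) (both (one 3 (both (one 6 leaf) (one 5 leaf)))
  (node [4,7] (one 4 leaf))))))) (both (one 11 (both (node [4,6,8] (both (one 6 (both (one 4 leaf)
  (node [5,7] leaf))) (both (one 5 (both (one 8 leaf) (one 7 leaf))) (node [4,7] (one 4 leaf)))))
  (both (one 3 (both (one 8 (both (one 6 leaf) (one 5 leaf))) (node [6,8] (one 7 leaf)))) (node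
  [3,4,5,8] (one 4 (one 8 leaf)))))) (both (node [3,6,8,10] (one 3 (both (node [7,9] (both (one 8
  leaf) (one 7 leaf))) (both (one 10 (both (one 7 leaf) (one 6 leaf))) (node [6,9] (one 6
  leaf)))))) (node [3,5,8,10] (node [3,5] (both (one 9 (both (one 4 leaf) (one 3 leaf))) (one 8
  (both (one 4 leaf) (one 3 leaf))))))))))) (both (node [2,4,6] (both (node [9,11] (both (node
  [3,5] (both (one 4 (both (one 9 leaf) (one 10 leaf))) (one 3 (both (one 9 leaf) (one 10
  leaf))))) (both (one 6 (both (one 9 (both (one 3 leaf) (one 2 leaf))) (one 10 (both (one 2 leaf)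
  (one 3 leaf))))) (node [2,5] (one 2 (both (one 9 leaf) (one 10 leaf))))))) (both (one 12 (both
  (one 8 (both (node [3,5] (both (one 4 leaf) (one 3 leaf))) (both (one 2 (both (one 4 leaf) (one
  5 leaf))) (node [3,6] (one 3 leaf))))) (one 9 (both (node [3,5] (both (one 3 leaf) (one 4
  leaf))) (both (one 6 (both (one 2 leaf) (one 3 leaf))) (node [2,5] (one 2 leaf))))))) (node
  [8,11] (one 8 (both (node [3,5] (both (one 3 leaf) (one 4 leaf))) (both (one 6 (both (one 3
  leaf) (one 2 leaf))) (node [2,5] (one 2 leaf))))))))) (both (one 2 (both (node [5,7,9,11] (both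
  (node [4,12] (both (node [7,9] (both (one 7 leaf) (one 8 leaf))) (both (one 10 (both (one 6
  leaf) (one 7 leaf))) (one 9 (one 6 leaf))))) (both (node [5,7] (both (one 5 (both (one 9 leaf)
  (one 10 leaf))) (one 6 (both (one 10 leaf) (one 9 leaf))))) (both (node [6,8,11] (one 11 (both
  (one 7 leaf) (one 6 leaf)))) (both (node [5,8,10] (one 5 (both (one 9 leaf) (one 8 leaf))))
  (node [7,9] (node [5,8] (one 5 leaf)))))))) (both (one 12 (both (node [5,7,9] (both (node [6,8]
  (both (one 7 leaf) (one 6 leaf))) (both (one 5 (both (one 8 leaf) (one 7 leaf))) (node [6,9]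
  (one 6 leaf))))) (both (one 10 (both (node [5,7] (both (one 6 leaf) (one 5 leaf))) (one 4 (one 7
  leaf)))) (node [7,9] (one 4 (both (one 7 leaf) (one 8 leaf))))))) (both (node [7,9,11] (one 4
  (both (node [8,10] (both (one 8 leaf) (one 9 leaf))) (both (one 7 (both (one 10 leaf) (one 9
  leaf))) (node [8,11] (one 8 leaf)))))) (node [10,12] (one 11 (both (node [5,7] (both (one 5
  leaf) (one 6 leaf))) (node [4,7] (one 4 leaf))))))))) (both (node [3,5,7,9] (one 12 (both (node
  [2,10] (both (node [5,7] (both (one 5 leaf) (one 6 leaf))) (both (one 4 (both (one 6 leaf) (one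
  7 leaf))) (one 8 (one 5 leaf))))) (both (node [3,5] (both (one 8 (both (one 4 leaf) (one 3
  leaf))) (one 7 (both (one 3 leaf) (one 4 leaf))))) (both (one 9 (both (node [4,6] (both (one 5
  leaf) (one 4 leaf))) (node [3,6] (one 3 leaf)))) (node [3,6,8] (one 3 (both (one 6 leaf) (one 7
  leaf))))))))) (both (node [2,3,4] (both (node [7,9,11] (one 3 (both (node [8,10] (both (one 8
  leaf) (one 9 leaf))) (both (one 11 (both (one 8 leaf) (one 7 leaf))) (node [7,10] (one 7
  leaf)))))) (both (node [3,12] (both (node [3,7] (one 3 (both (one 9 leaf) (one 10 leaf)))) (node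
  [3,7,8,9] (node [3,8] (one 3 leaf))))) (node [7,10,12] (node [3,7,11] (one 11 (one 3 leaf)))))))
  (node [3,5,7] (node [10,12] (both (node [4,6] (both (one 4 (both (one 10 leaf) (one 11 leaf)))
  (one 5 (both (one 11 leaf) (one 10 leaf))))) (both (one 3 (both (one 6 (both (one 11 leaf) (one
  10 leaf))) (one 5 (both (one 11 leaf) (one 10 leaf))))) (node [4,7] (one 4 (both (one 11 leaf)
  (one 10 leaf)))))))))))))) (both (node [1,3,5,7,9,11] (both (node [2,4,6,8,10] (both (node
  [3,5,7] (both (one 9 (both (node [4,6] (both (one 4 leaf) (one 5 leaf))) (both (one 7 (both (one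
  3 leaf) (one 4 leaf))) (node [3,6] (one 3 leaf))))) (one 10 (both (node [4,6] (both (one 4 leaf)
  (one 5 leaf))) (both (one 7 (both (one 3 leaf) (one 4 leaf))) (one 6 (one 3 leaf))))))) (both
  (one 2 (both (node [5,7,9] (both (node [6,8] (both (one 6 leaf) (one 7 leaf))) (both (one 9
  (both (one 6 leaf) (one 5 leaf))) (node [5,8] (one 5 leaf))))) (both (node [4,6] (both (one 8
  (both (one 4 leaf) (one 5 leaf))) (one 9 (both (one 4 leaf) (one 5 leaf))))) (both (one 7 (both
  (one 4 (both (one 10 leaf) (one 9 leaf))) (node [5,10] (one 5 leaf)))) (node [4,8] (both (node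
  [4,7,9] (one 4 leaf)) (node [5,6,7] (one 6 leaf)))))))) (both (node [1,11] (both (node [2,10]
  (both (node [5,7] (both (one 6 leaf) (one 5 leaf))) (both (one 4 (both (one 7 leaf) (one 6
  leaf))) (node [5,8] (one 5 leaf))))) (both (one 3 (both (node [6,8] (both (one 7 leaf) (one 6
  leaf))) (node [5,8] (one 5 leaf)))) (node [3,4,5,8] (one 8 (one 4 leaf)))))) (both (node
  [3,5,8,10] (node [3,5] (both (one 3 (both (one 8 leaf) (one 9 leaf))) (one 4 (both (one 9 leaf)
  (one 8 leaf)))))) (node [2,3,4] (one 3 (both (node [7,9] (both (one 8 leaf) (one 7 leaf))) (both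
  (one 10 (both (one 6 leaf) (one 7 leaf))) (node [6,9] (one 6 leaf))))))))))) (both (node [1,3,5]
  (both (node [2,4] (both (node [8,10] (both (one 2 (both (one 8 leaf) (one 9 leaf))) (one 3 (both
  (one 8 leaf) (one 9 leaf))))) (both (one 11 (both (one 7 (both (one 3 leaf) (one 2 leaf))) (one
  8 (both (one 2 leaf) (one 3 leaf))))) (node [7,10] (one 7 (both (one 2 leaf) (one 3 leaf)))))))
  (both (one 1 (both (node [8,10] (both (one 3 (both (one 8 leaf) (one 9 leaf))) (one 4 (both (one
  9 leaf) (one 8 leaf))))) (both (one 7 (both (one 3 (both (one 9 leaf) (one 10 leaf))) (one 4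
  (both (one 9 leaf) (one 10 leaf))))) (node [8,11] (one 8 (both (one 4 leaf) (one 3 leaf)))))))
  (node [2,5] (one 2 (both (node [8,10] (both (one 8 leaf) (one 9 leaf))) (both (one 7 (both (one
  9 leaf) (one 10 leaf))) (node [8,11] (one 8 leaf))))))))) (both (one 11 (both (node [2,4,6,8]
  (both (node [1,9] (both (node [4,6] (both (one 5 leaf) (one 4 leaf))) (both (one 3 (both (one 6
  leaf) (one 5 leaf))) (node [4,7] (one 4 leaf))))) (both (node [2,4] (both (one 7 (both (one 2
  leaf) (one 3 leaf))) (one 6 (both (one 2 leaf) (one 3 leaf))))) (both (one 5 (both (one 2 (both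
  (one 7 leaf) (one 8 leaf))) (node [3,8] (one 3 leaf)))) (node [2,6] (both (node [5,7] (one 2
  leaf)) (node [3,5] (one 4 leaf)))))))) (both (one 1 (both (node [4,6,8] (both (one 8 (both (one
  5 leaf) (one 4 leaf))) (both (one 7 (both (one 4 leaf) (one 5 leaf))) (node [5,6,7] (one 6
  leaf))))) (both (one 6 (both (one 3 (both (one 9 leaf) (one 8 leaf))) (node [4,9] (one 4
  leaf)))) (node [3,7] (both (node [6,8] (one 3 leaf)) (node [4,5,6] (one 5 leaf))))))) (both
  (node [2,4,6,9] (one 9 (both (one 5 (both (one 2 leaf) (one 3 leaf))) (both (one 6 (both (one 2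
  leaf) (one 3 leaf))) (node [3,5] (one 4 leaf)))))) (node [1,2,3] (one 2 (both (node [6,8] (both
  (one 7 leaf) (one 6 leaf))) (node [6,9] (one 6 leaf))))))))) (both (node [4,6,8,10] (one 1 (both
  (node [3,11] (both (node [6,8] (both (one 6 leaf) (one 7 leaf))) (both (one 5 (both (one 8 leaf)
  (one 7 leaf))) (node [6,9] (one 6 leaf))))) (both (node [4,8] (both (one 6 (both (one 4 leaf)
  (node [5,7] leaf))) (node [7,9] (one 4 leaf)))) (both (node [4,6] (both (one 5 (both (one 9
  leaf) (one 8 leaf))) (node [4,9] (one 4 leaf)))) (one 7 (both (one 10 (both (one 5 leaf) (one 4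
  leaf))) (node [4,9] (one 4 leaf))))))))) (both (node [6,8,10] (node [1,3] (both (one 1 (both
  (node [7,9] (both (one 7 leaf) (one 8 leaf))) (both (one 10 (both (one 6 leaf) (one 7 leaf)))
  (one 9 (one 6 leaf))))) (one 2 (both (node [7,9] (both (one 7 leaf) (one 8 leaf))) (both (one 10
  (both (one 7 leaf) (one 6 leaf))) (node [6,9] (one 6 leaf)))))))) (node [9,11] (one 10 (both
  (node [2,4,6] (both (node [3,5] (both (one 3 leaf) (one 4 leaf))) (both (one 2 (both (one 5
  leaf) (one 4 leaf))) (node [3,6] (one 3 leaf))))) (both (one 1 (both (node [4,6] (both (one 5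
  leaf) (one 4 leaf))) (node [3,6] (one 3 leaf)))) (node [1,2,3] (one 6 (one 2 leaf)))))))))))))
  (both (node [1,3,5,7,9] (one 12 (both (node [2,4,6,8] (both (node [1,9] (both (node [4,6] (both
  (one 5 leaf) (one 4 leaf))) (both (one 7 (both (one 4 leaf) (one 3 leaf))) (node [3,6] (one 3
  leaf))))) (both (node [2,4] (both (one 7 (both (one 2 leaf) (one 3 leaf))) (one 6 (both (one 3
  leaf) (one 2 leaf))))) (both (node [2,5,7] (one 2 (both (one 5 leaf) (one 6 leaf)))) (both (node
  [3,5,8] (one 8 (both (one 4 leaf) (one 3 leaf)))) (node [5,8] (node [2,5] (one 2 leaf))))))))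
  (both (node [1,3] (both (node [6,8] (both (one 7 (both (one 1 leaf) (one 2 leaf))) (one 6 (both
  (one 2 leaf) (one 1 leaf))))) (both (one 9 (both (one 2 (both (one 5 leaf) (one 6 leaf))) (one 1
  (both (one 6 leaf) (one 5 leaf))))) (node [5,8] (one 5 (both (one 1 leaf) (one 2 leaf)))))))
  (both (one 1 (both (node [4,6,8] (both (node [5,7] (both (one 6 leaf) (one 5 leaf))) (both (one
  8 (both (one 4 leaf) (one 5 leaf))) (node [4,7] (one 4 leaf))))) (both (node [3,4,5] (one 4
  (both (one 7 leaf) (one 8 leaf)))) (node [4,6,9] (one 9 (both (one 5 leaf) (one 4 leaf)))))))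
  (both (node [2,4,6,9] (one 9 (both (node [3,5] (both (one 3 leaf) (one 4 leaf))) (both (one 2
  (both (one 5 leaf) (one 4 leaf))) (node [3,6] (one 3 leaf)))))) (node [2,4,7,9] (node [2,4]
  (both (one 8 (both (one 3 leaf) (one 2 leaf))) (one 7 (both (one 3 leaf) (one 2 leaf))))))))))))
  (both (node [4,6,8,10,12] (one 1 (both (node [5,7,9,11] (both (node [4,12] (both (one 6 (both
  (one 9 leaf) (one 8 leaf))) (both (node [7,9] (both (one 8 leaf) (one 7 leaf))) (one 10 (one 7
  leaf))))) (both (node [5,7] (both (one 6 (both (one 9 leaf) (one 10 leaf))) (one 5 (both (one 10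
  leaf) (one 9 leaf))))) (both (one 8 (both (one 11 (both (one 5 leaf) (one 6 leaf))) (node [5,10]
  (one 5 leaf)))) (node [5,9] (both (node [6,7,8] (one 7 leaf)) (node [5,8,10] (one 5 leaf))))))))
  (both (node [4,6] (both (node [9,11] (both (one 9 (both (one 4 leaf) (one 5 leaf))) (one 10
  (both (one 5 leaf) (one 4 leaf))))) (both (one 8 (both (one 4 (both (one 10 leaf) (one 11
  leaf))) (one 5 (both (one 10 leaf) (one 11 leaf))))) (node [9,12] (one 9 (both (one 4 leaf) (one
  5 leaf))))))) (both (one 4 (both (node [7,9,11] (both (node [8,10] (both (one 8 leaf) (one 9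
  leaf))) (both (one 7 (both (one 10 leaf) (one 9 leaf))) (node [8,11] (one 8 leaf))))) (both
  (node [7,12] (one 7 (both (one 9 leaf) (one 10 leaf)))) (both (node [6,7,8,11] (one 11 (one 7
  leaf))) (node [6,7,9,10] (node [7,9] (one 8 leaf))))))) (both (node [5,7] (both (node [10,12]
  (both (one 5 (both (one 11 leaf) (one 10 leaf))) (one 6 (both (one 11 leaf) (one 10 leaf)))))
  (node [9,12] (one 9 (both (one 6 leaf) (one 5 leaf)))))) (node [5,7,9,12] (one 12 (both (node
  [6,8] (both (one 7 leaf) (one 6 leaf))) (node [5,8] (one 5 leaf))))))))))) (both (node [1,3]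
  (both (node [6,8,10,12] (both (node [7,9,11] (both (one 2 (both (one 7 (both (one 9 leaf) (one
  10 leaf))) (both (node [8,10] (both (one 8 leaf) (one 9 leaf))) (node [8,11] (one 8 leaf)))))
  (one 1 (both (node [8,10] (both (one 9 leaf) (one 8 leaf))) (both (one 11 (both (one 7 leaf)
  (one 8 leaf))) (node [7,10] (one 7 leaf))))))) (both (one 6 (both (node [9,11] (both (one 9
  (both (one 2 leaf) (one 1 leaf))) (one 10 (both (one 2 leaf) (one 1 leaf))))) (both (one 12
  (both (one 2 (both (one 9 leaf) (one 8 leaf))) (one 1 (both (one 9 leaf) (one 8 leaf))))) (node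
  [8,11] (one 8 (both (one 2 leaf) (one 1 leaf))))))) (both (one 7 (both (one 12 (both (one 2
  (both (one 10 leaf) (one 9 leaf))) (one 1 (both (one 9 leaf) (one 10 leaf))))) (node [6,8,11]
  (one 11 (both (one 2 leaf) (one 1 leaf)))))) (node [7,9,12] (node [6,10] (one 8 (both (one 1
  leaf) (one 2 leaf))))))))) (both (node [5,8,10,12] (one 5 (both (one 1 (both (node [9,11] (both
  (one 9 leaf) (one 10 leaf))) (both (one 8 (both (one 11 leaf) (one 10 leaf))) (node [9,12] (one
  9 leaf))))) (one 2 (both (one 8 (both (one 10 leaf) (one 11 leaf))) (both (node [9,11] (both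
  (one 10 leaf) (one 9 leaf))) (node [9,12] (one 9 leaf)))))))) (node [5,7,10,12] (node [5,7]
  (both (one 10 (both (one 1 (both (one 6 leaf) (one 5 leaf))) (one 2 (both (one 6 leaf) (one 5
  leaf))))) (one 11 (both (one 1 (both (one 5 leaf) (one 6 leaf))) (one 2 (both (one 5 leaf) (one
  6 leaf))))))))))) (both (node [10,12] (both (node [1,3,5,7] (both (node [2,4,6] (both (node
  [3,5] (both (one 11 (both (one 4 leaf) (one 3 leaf))) (one 10 (both (one 3 leaf) (one 4
  leaf))))) (both (one 2 (both (one 10 (both (one 5 leaf) (one 4 leaf))) (one 11 (both (one 5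
  leaf) (one 4 leaf))))) (one 6 (one 3 (both (one 11 leaf) (one 10 leaf))))))) (both (one 7 (both
  (node [2,4] (both (one 11 (both (one 3 leaf) (one 2 leaf))) (one 10 (both (one 3 leaf) (one 2
  leaf))))) (one 1 (one 4 (both (one 10 leaf) (one 11 leaf)))))) (node [4,6] (one 1 (both (one 4
  (both (one 11 leaf) (one 10 leaf))) (one 5 (both (one 11 leaf) (one 10 leaf))))))))) (node
  [1,3,5,8] (one 8 (both (node [2,4] (both (one 2 (both (one 11 leaf) (one 10 leaf))) (one 3 (both
  (one 10 leaf) (one 11 leaf))))) (node [1,4] (one 1 (both (one 10 leaf) (one 11 leaf)))))))))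
  (node [1,3,5,8,10,12] (node [1,3,5] (both (node [9,11] (both (node [2,4] (both (one 2 (both (one
  9 leaf) (one 10 leaf))) (one 3 (both (one 10 leaf) (one 9 leaf))))) (node [1,4] (one 1 (both
  (one 10 leaf) (one 9 leaf)))))) (node [9,12] (both (node [2,4,9] (one 9 (both (one 3 leaf) (one
  2 leaf)))) (node [1,4,9] (one 4 (one 1 leaf))))))))))))))

theorem cov7 : covAll 7 tree7 = true := by decide +kernel

end Pool.Agent.MP_31805c_co.H47
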