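import Pool.Agent.MP_31805c_co.H47.Rules
import Pool.Agent.MP_31805c_co.H47.CfTab
import Pool.Agent.MP_31805c_co.H47.Tab7
import Pool.Agent.MP_31805c_co.H47.Tr7_0
import Pool.Agent.MP_31805c_co.H47.Tr7_1
import Pool.Agent.MP_31805c_co.H47.Tr7_2
import Pool.Agent.MP_31805c_co.H47.Tr7_3
import Pool.Agent.MP_31805c_co.H47.Tr7_4
import Pool.Agent.MP_31805c_co.H47.Tr7_5
import Pool.Agent.MP_31805c_co.H47.Tr7_6
import Pool.Agent.MP_31805c_co.H47.Tr7_7
import Pool.Agent.MP_31805c_co.H47.Tr7_8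

namespace Pool.Agent.MP_31805c_co.H47

set_option maxRecDepth 100000
set_option maxHeartbeats 0

open TT

noncomputable def t7Aa : TT :=
  node 312144 150 1 30 t7Aaa t7Aab

noncomputable def t7Aba : TT :=
  node 312144 25 1 30 t7Abaa t7Abab

noncomputable def t7Abbba : TT :=
  node 292144 155 1 30 t7Abbbaa t7Abbbab

noncomputable def t7Abbb : TT :=
  node 292144 150 2 28 t7Abbba t7Abbbb

noncomputable def t7Abb : TT :=
  node 302144 25 1 30 t7Abba t7Abbb

noncomputable def t7Ab : TT :=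
  node 312144 150 1 30 t7Aba t7Abb

noncomputable def t7A : TT :=
  node 312144 0 1 2 t7Aa t7Ab

noncomputable def t7Paaaabab : TT :=
  node 114406 125 3 28 t7Paaaababa t7Paaaababb

noncomputable def t7Paaaaba : TT :=
  node 114714 10 1 30 t7Paaaabaa t7Paaaabab

noncomputable def t7Paaaabbbaab : TT :=
  node 117781 5 2 28 t7Paaaabbbaaba t7Paaaabbbaabb

noncomputable def t7Paaaabbbaa : TT :=
  node 118955 75 2 28 t7Paaaabbbaaa t7Paaaabbbaab

noncomputable def t7Paaaabbba : TT :=
  node 126663 155 30 1 t7Paaaabbbaa t7Paaaabbbab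

noncomputable def t7Paaaabbbb : TT :=
  node 125755 75 2 28 t7Paaaabbbba t7Paaaabbbbb

noncomputable def t7Paaaabbb : TT :=
  node 126663 125 3 28 t7Paaaabbba t7Paaaabbbb

noncomputable def t7Paaaabb : TT :=
  node 128431 10 1 30 t7Paaaabba t7Paaaabbb

noncomputable def t7Paaaab : TT :=
  node 128431 75 1 30 t7Paaaaba t7Paaaabb

noncomputable def t7Paaaa : TT :=
  node 133011 5 1 30 t7Paaaaa t7Paaaab

noncomputable def t7Paaabaab : TT :=
  node 157975 10 1 30 t7Paaabaaba t7Paaabaabb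

noncomputable def t7Paaabaa : TT :=
  node 157975 50 2 28 t7Paaabaaa t7Paaabaab

noncomputable def t7Paaababa : TT :=
  node 162481 155 3 28 t7Paaababaa t7Paaababab

noncomputable def t7Paaababbaab : TT :=
  node 154281 10 2 28 t7Paaababbaaba t7Paaababbaabb

noncomputable def t7Paaababbaa : TT :=
  node 154281 50 2 28 t7Paaababbaaa t7Paaababbaab

noncomputable def t7Paaababba : TT :=
  node 154281 125 30 1 t7Paaababbaa t7Paaababbab

noncomputable def t7Paaababbb : TT :=
  node 156677 50 2 28 t7Paaababbba t7Paaababbbb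

noncomputable def t7Paaababb : TT :=
  node 156677 155 3 28 t7Paaababba t7Paaababbb

noncomputable def t7Paaabab : TT :=
  node 162481 10 1 30 t7Paaababa t7Paaababb

noncomputable def t7Paaaba : TT :=
  node 162481 75 1 30 t7Paaabaa t7Paaabab

noncomputable def t7Paaabbaab : TT :=
  node 132727 125 3 28 t7Paaabbaaba t7Paaabbaabb

noncomputable def t7Paaabbaa : TT :=
  node 136671 10 1 30 t7Paaabbaaa t7Paaabbaab

noncomputable def t7Paaabbabb : TT :=
  node 145770 125 3 28 t7Paaabbabba t7Paaabbabbb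

noncomputable def t7Paaabbab : TT :=
  node 149929 10 1 30 t7Paaabbaba t7Paaabbabb

noncomputable def t7Paaabba : TT :=
  node 149929 50 2 28 t7Paaabbaa t7Paaabbab

noncomputable def t7Paaabbbaab : TT :=
  node 153929 155 3 28 t7Paaabbbaaba t7Paaabbbaabb

noncomputable def t7Paaabbbaa : TT :=
  node 153929 125 3 28 t7Paaabbbaaa t7Paaabbbaab

noncomputable def t7Paaabbbab : TT :=
  node 143282 125 3 28 t7Paaabbbaba t7Paaabbbabb

noncomputable def t7Paaabbba : TT :=
  node 153929 5 2 28 t7Paaabbbaa t7Paaabbbab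

noncomputable def t7Paaabbbbaaa : TT :=
  node 138464 125 2 1 t7Paaabbbbaaaa t7Paaabbbbaaab

noncomputable def t7Paaabbbbaaba : TT :=
  node 135589 75 2 28 t7Paaabbbbaabaa t7Paaabbbbaabab

noncomputable def t7Paaabbbbaab : TT :=
  node 135589 50 2 28 t7Paaabbbbaaba t7Paaabbbbaabb

noncomputable def t7Paaabbbbaa : TT :=
  node 138464 155 2 28 t7Paaabbbbaaa t7Paaabbbbaab

noncomputable def t7Paaabbbba : TT :=
  node 146270 155 30 1 t7Paaabbbbaa t7Paaabbbbab

noncomputable def t7Paaabbbbbaa : TT :=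
  node 148571 75 2 28 t7Paaabbbbbaaa t7Paaabbbbbaab

noncomputable def t7Paaabbbbba : TT :=
  node 148571 50 2 28 t7Paaabbbbbaa t7Paaabbbbbab

noncomputable def t7Paaabbbbbba : TT :=
  node 138626 75 2 28 t7Paaabbbbbbaa t7Paaabbbbbbab

noncomputable def t7Paaabbbbbb : TT :=
  node 138626 50 2 28 t7Paaabbbbbba t7Paaabbbbbbb

noncomputable def t7Paaabbbbb : TT :=
  node 148571 155 3 28 t7Paaabbbbba t7Paaabbbbbb

noncomputable def t7Paaabbbb : TT :=
  node 148571 125 3 28 t7Paaabbbba t7Paaabbbbb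

noncomputable def t7Paaabbb : TT :=
  node 153929 10 1 30 t7Paaabbba t7Paaabbbb

noncomputable def t7Paaabb : TT :=
  node 153929 75 1 30 t7Paaabba t7Paaabbb

noncomputable def t7Paaab : TT :=
  node 162481 5 1 30 t7Paaaba t7Paaabb

noncomputable def t7Paaa : TT :=
  node 162481 50 1 30 t7Paaaa t7Paaab

noncomputable def t7Paabaaab : TT :=
  node 133096 50 1 2 t7Paabaaaba t7Paabaaabb

noncomputable def t7Paabaaa : TT :=
  node 136634 5 3 28 t7Paabaaaa t7Paabaaab

noncomputable def t7Paabaabaa : TT :=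
  node 125397 100 1 30 t7Paabaabaaa t7Paabaabaab

noncomputable def t7Paabaababaab : TT :=
  node 121169 5 2 28 t7Paabaababaaba t7Paabaababaabb

noncomputable def t7Paabaababaa : TT :=
  node 121169 100 1 30 t7Paabaababaaa t7Paabaababaab

noncomputable def t7Paabaababa : TT :=
  node 125245 155 30 1 t7Paabaababaa t7Paabaababab

noncomputable def t7Paabaababbb : TT :=
  node 122455 5 2 28 t7Paabaababbba t7Paabaababbbb

noncomputable def t7Paabaababb : TT :=
  node 122455 100 1 30 t7Paabaababba t7Paabaababbb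

noncomputable def t7Paabaabab : TT :=
  node 125245 125 3 28 t7Paabaababa t7Paabaababb

noncomputable def t7Paabaaba : TT :=
  node 125397 5 1 30 t7Paabaabaa t7Paabaabab

noncomputable def t7Paabaabbaa : TT :=
  node 132650 125 30 1 t7Paabaabbaaa t7Paabaabbaab

noncomputable def t7Paabaabba : TT :=
  node 132759 155 3 28 t7Paabaabbaa t7Paabaabbab

noncomputable def t7Paabaabbbaa : TT :=
  node 132074 155 2 28 t7Paabaabbbaaa t7Paabaabbbaab

noncomputable def t7Paabaabbba : TT :=
  node 133071 155 30 1 t7Paabaabbbaa t7Paabaabbbab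

noncomputable def t7Paabaabbbb : TT :=
  node 134558 155 3 28 t7Paabaabbbba t7Paabaabbbbb

noncomputable def t7Paabaabbb : TT :=
  node 134558 125 3 28 t7Paabaabbba t7Paabaabbbb

noncomputable def t7Paabaabb : TT :=
  node 134558 5 1 30 t7Paabaabba t7Paabaabbb

noncomputable def t7Paabaab : TT :=
  node 134558 50 1 2 t7Paabaaba t7Paabaabb

noncomputable def t7Paabaa : TT :=
  node 136634 10 1 30 t7Paabaaa t7Paabaab

noncomputable def t7Paababaa : TT :=
  node 155967 5 1 2 t7Paababaaa t7Paababaab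

noncomputable def t7Paababa : TT :=
  node 155967 5 3 28 t7Paababaa t7Paababab

noncomputable def t7Paababba : TT :=
  node 148749 155 3 28 t7Paababbaa t7Paababbab

noncomputable def t7Paababbbaa : TT :=
  node 134443 155 2 28 t7Paababbbaaa t7Paababbbaab

noncomputable def t7Paababbba : TT :=
  node 138182 155 30 1 t7Paababbbaa t7Paababbbab

noncomputable def t7Paababbbb : TT :=
  node 139783 155 3 28 t7Paababbbba t7Paababbbbb

noncomputable def t7Paababbb : TT :=
  node 139783 125 3 28 t7Paababbba t7Paababbbb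

noncomputable def t7Paababb : TT :=
  node 148749 5 1 30 t7Paababba t7Paababbb

noncomputable def t7Paabab : TT :=
  node 155967 10 1 30 t7Paababa t7Paababb

noncomputable def t7Paaba : TT :=
  node 155967 50 3 28 t7Paabaa t7Paabab

noncomputable def t7Paabbaaaa : TT :=
  node 152260 75 2 28 t7Paabbaaaaa t7Paabbaaaab

noncomputable def t7Paabbaaaba : TT :=
  node 147540 155 30 1 t7Paabbaaabaa t7Paabbaaabab

noncomputable def t7Paabbaaab : TT :=
  node 147540 125 3 28 t7Paabbaaaba t7Paabbaaabb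

noncomputable def t7Paabbaaa : TT :=
  node 152260 5 1 2 t7Paabbaaaa t7Paabbaaab

noncomputable def t7Paabbaabaaa : TT :=
  node 159281 50 2 28 t7Paabbaabaaaa t7Paabbaabaaab

noncomputable def t7Paabbaabaa : TT :=
  node 159281 125 30 1 t7Paabbaabaaa t7Paabbaabaab

noncomputable def t7Paabbaabab : TT :=
  node 158480 50 2 28 t7Paabbaababa t7Paabbaababb

noncomputable def t7Paabbaaba : TT :=
  node 159281 155 3 28 t7Paabbaabaa t7Paabbaabab

noncomputable def t7Paabbaabbaa : TT :=
  node 148856 155 2 28 t7Paabbaabbaaa t7Paabbaabbaab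

noncomputable def t7Paabbaabba : TT :=
  node 151890 155 30 1 t7Paabbaabbaa t7Paabbaabbab

noncomputable def t7Paabbaabbb : TT :=
  node 152557 155 3 28 t7Paabbaabbba t7Paabbaabbbb

noncomputable def t7Paabbaabb : TT :=
  node 152557 125 3 28 t7Paabbaabba t7Paabbaabbb

noncomputable def t7Paabbaab : TT :=
  node 159281 5 1 2 t7Paabbaaba t7Paabbaabb

noncomputable def t7Paabbaa : TT :=
  node 159281 50 1 30 t7Paabbaaa t7Paabbaab

noncomputable def t7Paabbaba : TT :=
  node 130859 125 3 28 t7Paabbabaa t7Paabbabab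

noncomputable def t7Paabbabbaa : TT :=
  node 137315 155 2 28 t7Paabbabbaaa t7Paabbabbaab

noncomputable def t7Paabbabba : TT :=
  node 140458 155 30 1 t7Paabbabbaa t7Paabbabbab

noncomputable def t7Paabbabbb : TT :=
  node 141692 155 3 28 t7Paabbabbba t7Paabbabbbb

noncomputable def t7Paabbabb : TT :=
  node 141692 125 3 28 t7Paabbabba t7Paabbabbb

noncomputable def t7Paabbab : TT :=
  node 141692 50 1 30 t7Paabbaba t7Paabbabb

noncomputable def t7Paabba : TT :=
  node 159281 5 3 28 t7Paabbaa t7Paabbab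

noncomputable def t7Paabbbaaa : TT :=
  node 141699 100 1 30 t7Paabbbaaaa t7Paabbbaaab

noncomputable def t7Paabbbaab : TT :=
  node 141760 10 2 28 t7Paabbbaaba t7Paabbbaabb

noncomputable def t7Paabbbaa : TT :=
  node 141760 75 2 28 t7Paabbbaaa t7Paabbbaab

noncomputable def t7Paabbbabaaab : TT :=
  node 132756 5 2 28 t7Paabbbabaaaba t7Paabbbabaaabb

noncomputable def t7Paabbbabaaa : TT :=
  node 132756 100 1 30 t7Paabbbabaaaa t7Paabbbabaaab

noncomputable def t7Paabbbabaaba : TT :=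
  node 131679 10 2 28 t7Paabbbabaabaa t7Paabbbabaabab

noncomputable def t7Paabbbabaab : TT :=
  node 131679 5 2 28 t7Paabbbabaaba t7Paabbbabaabb

noncomputable def t7Paabbbabaa : TT :=
  node 132756 75 2 28 t7Paabbbabaaa t7Paabbbabaab

noncomputable def t7Paabbbaba : TT :=
  node 136159 155 30 1 t7Paabbbabaa t7Paabbbabab

noncomputable def t7Paabbbabba : TT :=
  node 134264 100 1 30 t7Paabbbabbaa t7Paabbbabbab

noncomputable def t7Paabbbabbb : TT :=
  node 133086 5 2 28 t7Paabbbabbba t7Paabbbabbbb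

noncomputable def t7Paabbbabb : TT :=
  node 134264 75 2 28 t7Paabbbabba t7Paabbbabbb

noncomputable def t7Paabbbab : TT :=
  node 136159 125 3 28 t7Paabbbaba t7Paabbbabb

noncomputable def t7Paabbba : TT :=
  node 141760 5 1 30 t7Paabbbaa t7Paabbbab

noncomputable def t7Paabbbbaaaa : TT :=
  node 151441 75 2 28 t7Paabbbbaaaaa t7Paabbbbaaaab

noncomputable def t7Paabbbbaaab : TT :=
  node 149109 10 2 28 t7Paabbbbaaaba t7Paabbbbaaabb

noncomputable def t7Paabbbbaaa : TT :=
  node 151441 50 2 28 t7Paabbbbaaaa t7Paabbbbaaab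

noncomputable def t7Paabbbbaa : TT :=
  node 151441 125 30 1 t7Paabbbbaaa t7Paabbbbaab

noncomputable def t7Paabbbbaba : TT :=
  node 150958 75 2 28 t7Paabbbbabaa t7Paabbbbabab

noncomputable def t7Paabbbbab : TT :=
  node 150958 50 2 28 t7Paabbbbaba t7Paabbbbabb

noncomputable def t7Paabbbba : TT :=
  node 151441 155 3 28 t7Paabbbbaa t7Paabbbbab

noncomputable def t7Paabbbbbaaa : TT :=
  node 140208 125 2 1 t7Paabbbbbaaaa t7Paabbbbbaaab

noncomputable def t7Paabbbbbaabaa : TT :=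
  node 137639 100 1 30 t7Paabbbbbaabaaa t7Paabbbbbaabaab

noncomputable def t7Paabbbbbaaba : TT :=
  node 137639 75 2 28 t7Paabbbbbaabaa t7Paabbbbbaabab

noncomputable def t7Paabbbbbaabb : TT :=
  node 132237 5 2 28 t7Paabbbbbaabba t7Paabbbbbaabbb

noncomputable def t7Paabbbbbaab : TT :=
  node 137639 50 2 28 t7Paabbbbbaaba t7Paabbbbbaabb

noncomputable def t7Paabbbbbaa : TT :=
  node 140208 155 2 28 t7Paabbbbbaaa t7Paabbbbbaab

noncomputable def t7Paabbbbbab : TT :=
  node 143928 125 2 1 t7Paabbbbbaba t7Paabbbbbabb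

noncomputable def t7Paabbbbba : TT :=
  node 143928 155 30 1 t7Paabbbbbaa t7Paabbbbbab

noncomputable def t7Paabbbbbbaaa : TT :=
  node 144323 100 1 30 t7Paabbbbbbaaaa t7Paabbbbbbaaab

noncomputable def t7Paabbbbbbaa : TT :=
  node 144323 75 2 28 t7Paabbbbbbaaa t7Paabbbbbbaab

noncomputable def t7Paabbbbbbab : TT :=
  node 139759 5 2 28 t7Paabbbbbbaba t7Paabbbbbbabb

noncomputable def t7Paabbbbbba : TT :=
  node 144323 50 2 28 t7Paabbbbbbaa t7Paabbbbbbab

noncomputable def t7Paabbbbbbba : TT :=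
  node 140639 75 2 28 t7Paabbbbbbbaa t7Paabbbbbbbab

noncomputable def t7Paabbbbbbb : TT :=
  node 140639 50 2 28 t7Paabbbbbbba t7Paabbbbbbbb

noncomputable def t7Paabbbbbb : TT :=
  node 144323 155 3 28 t7Paabbbbbba t7Paabbbbbbb

noncomputable def t7Paabbbbb : TT :=
  node 144323 125 3 28 t7Paabbbbba t7Paabbbbbb

noncomputable def t7Paabbbb : TT :=
  node 151441 5 1 30 t7Paabbbba t7Paabbbbb

noncomputable def t7Paabbb : TT :=
  node 151441 50 1 30 t7Paabbba t7Paabbbb

noncomputable def t7Paabb : TT :=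
  node 159281 10 1 30 t7Paabba t7Paabbb

noncomputable def t7Paab : TT :=
  node 159281 75 1 30 t7Paaba t7Paabb

noncomputable def t7Paa : TT :=
  node 162481 150 1 30 t7Paaa t7Paab

noncomputable def t7Pa : TT :=
  node 162481 25 3 28 t7Paa t7Pab

noncomputable def t7Pbaaababa : TT :=
  node 142689 155 3 28 t7Pbaaababaa t7Pbaaababab

noncomputable def t7Pbaaabab : TT :=
  node 142689 5 1 30 t7Pbaaababa t7Pbaaababb

noncomputable def t7Pbaaaba : TT :=
  node 143301 75 1 30 t7Pbaaabaa t7Pbaaabab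

noncomputable def t7Pbaaabbb : TT :=
  node 145018 5 1 30 t7Pbaaabbba t7Pbaaabbbb

noncomputable def t7Pbaaabb : TT :=
  node 145633 75 1 30 t7Pbaaabba t7Pbaaabbb

noncomputable def t7Pbaaab : TT :=
  node 145633 125 3 28 t7Pbaaaba t7Pbaaabb

noncomputable def t7Pbaaa : TT :=
  node 145633 50 1 30 t7Pbaaaa t7Pbaaab

noncomputable def t7Pbaabaaa : TT :=
  node 125249 50 1 2 t7Pbaabaaaa t7Pbaabaaab

noncomputable def t7Pbaabaa : TT :=
  node 135160 50 3 28 t7Pbaabaaa t7Pbaabaab

noncomputable def t7Pbaababb : TT :=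
  node 137499 5 1 30 t7Pbaababba t7Pbaababbb

noncomputable def t7Pbaabab : TT :=
  node 137499 50 1 30 t7Pbaababa t7Pbaababb

noncomputable def t7Pbaaba : TT :=
  node 137499 75 1 30 t7Pbaabaa t7Pbaabab

noncomputable def t7Pbaabbbb : TT :=
  node 140055 5 1 30 t7Pbaabbbba t7Pbaabbbbb

noncomputable def t7Pbaabbb : TT :=
  node 140055 50 1 30 t7Pbaabbba t7Pbaabbbb

noncomputable def t7Pbaabb : TT :=
  node 140055 75 1 30 t7Pbaabba t7Pbaabbb

noncomputable def t7Pbaab : TT :=
  node 140055 125 3 28 t7Pbaaba t7Pbaabb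

noncomputable def t7Pbaa : TT :=
  node 145633 150 1 30 t7Pbaaa t7Pbaab

noncomputable def t7Pba : TT :=
  node 145633 25 3 28 t7Pbaa t7Pbab

noncomputable def t7Pbbaab : TT :=
  node 131072 125 3 28 t7Pbbaaba t7Pbbaabb

noncomputable def t7Pbbaa : TT :=
  node 131072 50 1 30 t7Pbbaaa t7Pbbaab

noncomputable def t7Pbba : TT :=
  node 131072 150 1 30 t7Pbbaa t7Pbbab

noncomputable def t7Pbb : TT :=
  node 131072 25 3 28 t7Pbba t7Pbbb

noncomputable def t7Pb : TT :=
  node 145633 0 8 16 t7Pba t7Pbb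

noncomputable def t7P : TT :=
  node 162481 0 4 24 t7Pa t7Pb

noncomputable def t7Maaaabab : TT :=
  node 114406 50 3 28 t7Maaaababa t7Maaaababb

noncomputable def t7Maaaaba : TT :=
  node 114714 15 1 30 t7Maaaabaa t7Maaaabab

noncomputable def t7Maaaabbbaab : TT :=
  node 117781 155 2 28 t7Maaaabbbaaba t7Maaaabbbaabb

noncomputable def t7Maaaabbbaa : TT :=
  node 118955 100 2 28 t7Maaaabbbaaa t7Maaaabbbaab

noncomputable def t7Maaaabbba : TT :=
  node 126663 5 30 1 t7Maaaabbbaa t7Maaaabbbab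

noncomputable def t7Maaaabbbb : TT :=
  node 125755 100 2 28 t7Maaaabbbba t7Maaaabbbbb

noncomputable def t7Maaaabbb : TT :=
  node 126663 50 3 28 t7Maaaabbba t7Maaaabbbb

noncomputable def t7Maaaabb : TT :=
  node 128431 15 1 30 t7Maaaabba t7Maaaabbb

noncomputable def t7Maaaab : TT :=
  node 128431 100 1 30 t7Maaaaba t7Maaaabb

noncomputable def t7Maaaa : TT :=
  node 133011 155 1 30 t7Maaaaa t7Maaaab

noncomputable def t7Maaabaab : TT :=
  node 157975 15 1 30 t7Maaabaaba t7Maaabaabb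

noncomputable def t7Maaabaa : TT :=
  node 157975 125 2 28 t7Maaabaaa t7Maaabaab

noncomputable def t7Maaababa : TT :=
  node 162481 5 3 28 t7Maaababaa t7Maaababab

noncomputable def t7Maaababbaab : TT :=
  node 154281 15 2 28 t7Maaababbaaba t7Maaababbaabb

noncomputable def t7Maaababbaa : TT :=
  node 154281 125 2 28 t7Maaababbaaa t7Maaababbaab

noncomputable def t7Maaababba : TT :=
  node 154281 50 30 1 t7Maaababbaa t7Maaababbab

noncomputable def t7Maaababbb : TT :=
  node 156677 125 2 28 t7Maaababbba t7Maaababbbb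

noncomputable def t7Maaababb : TT :=
  node 156677 5 3 28 t7Maaababba t7Maaababbb

noncomputable def t7Maaabab : TT :=
  node 162481 15 1 30 t7Maaababa t7Maaababb

noncomputable def t7Maaaba : TT :=
  node 162481 100 1 30 t7Maaabaa t7Maaabab

noncomputable def t7Maaabbaab : TT :=
  node 132727 50 3 28 t7Maaabbaaba t7Maaabbaabb

noncomputable def t7Maaabbaa : TT :=
  node 136671 15 1 30 t7Maaabbaaa t7Maaabbaab

noncomputable def t7Maaabbabb : TT :=
  node 145770 50 3 28 t7Maaabbabba t7Maaabbabbb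

noncomputable def t7Maaabbab : TT :=
  node 149929 15 1 30 t7Maaabbaba t7Maaabbabb

noncomputable def t7Maaabba : TT :=
  node 149929 125 2 28 t7Maaabbaa t7Maaabbab

noncomputable def t7Maaabbbaab : TT :=
  node 153929 5 3 28 t7Maaabbbaaba t7Maaabbbaabb

noncomputable def t7Maaabbbaa : TT :=
  node 153929 50 3 28 t7Maaabbbaaa t7Maaabbbaab

noncomputable def t7Maaabbbab : TT :=
  node 143282 50 3 28 t7Maaabbbaba t7Maaabbbabb

noncomputable def t7Maaabbba : TT :=
  node 153929 155 2 28 t7Maaabbbaa t7Maaabbbab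

noncomputable def t7Maaabbbbaaa : TT :=
  node 138464 50 2 1 t7Maaabbbbaaaa t7Maaabbbbaaab

noncomputable def t7Maaabbbbaaba : TT :=
  node 135589 100 2 28 t7Maaabbbbaabaa t7Maaabbbbaabab

noncomputable def t7Maaabbbbaab : TT :=
  node 135589 125 2 28 t7Maaabbbbaaba t7Maaabbbbaabb

noncomputable def t7Maaabbbbaa : TT :=
  node 138464 5 2 28 t7Maaabbbbaaa t7Maaabbbbaab

noncomputable def t7Maaabbbba : TT :=
  node 146270 5 30 1 t7Maaabbbbaa t7Maaabbbbab

noncomputable def t7Maaabbbbbaa : TT :=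
  node 148571 100 2 28 t7Maaabbbbbaaa t7Maaabbbbbaab

noncomputable def t7Maaabbbbba : TT :=
  node 148571 125 2 28 t7Maaabbbbbaa t7Maaabbbbbab

noncomputable def t7Maaabbbbbba : TT :=
  node 138626 100 2 28 t7Maaabbbbbbaa t7Maaabbbbbbab

noncomputable def t7Maaabbbbbb : TT :=
  node 138626 125 2 28 t7Maaabbbbbba t7Maaabbbbbbb

noncomputable def t7Maaabbbbb : TT :=
  node 148571 5 3 28 t7Maaabbbbba t7Maaabbbbbb

noncomputable def t7Maaabbbb : TT :=
  node 148571 50 3 28 t7Maaabbbba t7Maaabbbbb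

noncomputable def t7Maaabbb : TT :=
  node 153929 15 1 30 t7Maaabbba t7Maaabbbb

noncomputable def t7Maaabb : TT :=
  node 153929 100 1 30 t7Maaabba t7Maaabbb

noncomputable def t7Maaab : TT :=
  node 162481 155 1 30 t7Maaaba t7Maaabb

noncomputable def t7Maaa : TT :=
  node 162481 125 1 30 t7Maaaa t7Maaab

noncomputable def t7Maabaaab : TT :=
  node 133096 125 1 2 t7Maabaaaba t7Maabaaabb

noncomputable def t7Maabaaa : TT :=
  node 136634 155 3 28 t7Maabaaaa t7Maabaaab

noncomputable def t7Maabaabaa : TT :=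
  node 125397 75 1 30 t7Maabaabaaa t7Maabaabaab

noncomputable def t7Maabaababaab : TT :=
  node 121169 155 2 28 t7Maabaababaaba t7Maabaababaabb

noncomputable def t7Maabaababaa : TT :=
  node 121169 75 1 30 t7Maabaababaaa t7Maabaababaab

noncomputable def t7Maabaababa : TT :=
  node 125245 5 30 1 t7Maabaababaa t7Maabaababab

noncomputable def t7Maabaababbb : TT :=
  node 122455 155 2 28 t7Maabaababbba t7Maabaababbbb

noncomputable def t7Maabaababb : TT :=
  node 122455 75 1 30 t7Maabaababba t7Maabaababbb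

noncomputable def t7Maabaabab : TT :=
  node 125245 50 3 28 t7Maabaababa t7Maabaababb

noncomputable def t7Maabaaba : TT :=
  node 125397 155 1 30 t7Maabaabaa t7Maabaabab

noncomputable def t7Maabaabbaa : TT :=
  node 132650 50 30 1 t7Maabaabbaaa t7Maabaabbaab

noncomputable def t7Maabaabba : TT :=
  node 132759 5 3 28 t7Maabaabbaa t7Maabaabbab

noncomputable def t7Maabaabbbaa : TT :=
  node 132074 5 2 28 t7Maabaabbbaaa t7Maabaabbbaab

noncomputable def t7Maabaabbba : TT :=
  node 133071 5 30 1 t7Maabaabbbaa t7Maabaabbbab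

noncomputable def t7Maabaabbbb : TT :=
  node 134558 5 3 28 t7Maabaabbbba t7Maabaabbbbb

noncomputable def t7Maabaabbb : TT :=
  node 134558 50 3 28 t7Maabaabbba t7Maabaabbbb

noncomputable def t7Maabaabb : TT :=
  node 134558 155 1 30 t7Maabaabba t7Maabaabbb

noncomputable def t7Maabaab : TT :=
  node 134558 125 1 2 t7Maabaaba t7Maabaabb

noncomputable def t7Maabaa : TT :=
  node 136634 15 1 30 t7Maabaaa t7Maabaab

noncomputable def t7Maababaa : TT :=
  node 155967 155 1 2 t7Maababaaa t7Maababaab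

noncomputable def t7Maababa : TT :=
  node 155967 155 3 28 t7Maababaa t7Maababab

noncomputable def t7Maababba : TT :=
  node 148749 5 3 28 t7Maababbaa t7Maababbab

noncomputable def t7Maababbbaa : TT :=
  node 134443 5 2 28 t7Maababbbaaa t7Maababbbaab

noncomputable def t7Maababbba : TT :=
  node 138182 5 30 1 t7Maababbbaa t7Maababbbab

noncomputable def t7Maababbbb : TT :=
  node 139783 5 3 28 t7Maababbbba t7Maababbbbb

noncomputable def t7Maababbb : TT :=
  node 139783 50 3 28 t7Maababbba t7Maababbbb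

noncomputable def t7Maababb : TT :=
  node 148749 155 1 30 t7Maababba t7Maababbb

noncomputable def t7Maabab : TT :=
  node 155967 15 1 30 t7Maababa t7Maababb

noncomputable def t7Maaba : TT :=
  node 155967 125 3 28 t7Maabaa t7Maabab

noncomputable def t7Maabbaaaa : TT :=
  node 152260 100 2 28 t7Maabbaaaaa t7Maabbaaaab

noncomputable def t7Maabbaaaba : TT :=
  node 147540 5 30 1 t7Maabbaaabaa t7Maabbaaabab

noncomputable def t7Maabbaaab : TT :=
  node 147540 50 3 28 t7Maabbaaaba t7Maabbaaabb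

noncomputable def t7Maabbaaa : TT :=
  node 152260 155 1 2 t7Maabbaaaa t7Maabbaaab

noncomputable def t7Maabbaabaaa : TT :=
  node 159281 125 2 28 t7Maabbaabaaaa t7Maabbaabaaab

noncomputable def t7Maabbaabaa : TT :=
  node 159281 50 30 1 t7Maabbaabaaa t7Maabbaabaab

noncomputable def t7Maabbaabab : TT :=
  node 158480 125 2 28 t7Maabbaababa t7Maabbaababb

noncomputable def t7Maabbaaba : TT :=
  node 159281 5 3 28 t7Maabbaabaa t7Maabbaabab

noncomputable def t7Maabbaabbaa : TT :=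
  node 148856 5 2 28 t7Maabbaabbaaa t7Maabbaabbaab

noncomputable def t7Maabbaabba : TT :=
  node 151890 5 30 1 t7Maabbaabbaa t7Maabbaabbab

noncomputable def t7Maabbaabbb : TT :=
  node 152557 5 3 28 t7Maabbaabbba t7Maabbaabbbb

noncomputable def t7Maabbaabb : TT :=
  node 152557 50 3 28 t7Maabbaabba t7Maabbaabbb

noncomputable def t7Maabbaab : TT :=
  node 159281 155 1 2 t7Maabbaaba t7Maabbaabb

noncomputable def t7Maabbaa : TT :=
  node 159281 125 1 30 t7Maabbaaa t7Maabbaab

noncomputable def t7Maabbaba : TT :=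
  node 130859 50 3 28 t7Maabbabaa t7Maabbabab

noncomputable def t7Maabbabbaa : TT :=
  node 137315 5 2 28 t7Maabbabbaaa t7Maabbabbaab

noncomputable def t7Maabbabba : TT :=
  node 140458 5 30 1 t7Maabbabbaa t7Maabbabbab

noncomputable def t7Maabbabbb : TT :=
  node 141692 5 3 28 t7Maabbabbba t7Maabbabbbb

noncomputable def t7Maabbabb : TT :=
  node 141692 50 3 28 t7Maabbabba t7Maabbabbb

noncomputable def t7Maabbab : TT :=
  node 141692 125 1 30 t7Maabbaba t7Maabbabb

noncomputable def t7Maabba : TT :=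
  node 159281 155 3 28 t7Maabbaa t7Maabbab

noncomputable def t7Maabbbaaa : TT :=
  node 141699 75 1 30 t7Maabbbaaaa t7Maabbbaaab

noncomputable def t7Maabbbaab : TT :=
  node 141760 15 2 28 t7Maabbbaaba t7Maabbbaabb

noncomputable def t7Maabbbaa : TT :=
  node 141760 100 2 28 t7Maabbbaaa t7Maabbbaab

noncomputable def t7Maabbbabaaab : TT :=
  node 132756 155 2 28 t7Maabbbabaaaba t7Maabbbabaaabb

noncomputable def t7Maabbbabaaa : TT :=
  node 132756 75 1 30 t7Maabbbabaaaa t7Maabbbabaaab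

noncomputable def t7Maabbbabaaba : TT :=
  node 131679 15 2 28 t7Maabbbabaabaa t7Maabbbabaabab

noncomputable def t7Maabbbabaab : TT :=
  node 131679 155 2 28 t7Maabbbabaaba t7Maabbbabaabb

noncomputable def t7Maabbbabaa : TT :=
  node 132756 100 2 28 t7Maabbbabaaa t7Maabbbabaab

noncomputable def t7Maabbbaba : TT :=
  node 136159 5 30 1 t7Maabbbabaa t7Maabbbabab

noncomputable def t7Maabbbabba : TT :=
  node 134264 75 1 30 t7Maabbbabbaa t7Maabbbabbab

noncomputable def t7Maabbbabbb : TT :=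
  node 133086 155 2 28 t7Maabbbabbba t7Maabbbabbbb

noncomputable def t7Maabbbabb : TT :=
  node 134264 100 2 28 t7Maabbbabba t7Maabbbabbb

noncomputable def t7Maabbbab : TT :=
  node 136159 50 3 28 t7Maabbbaba t7Maabbbabb

noncomputable def t7Maabbba : TT :=
  node 141760 155 1 30 t7Maabbbaa t7Maabbbab

noncomputable def t7Maabbbbaaaa : TT :=
  node 151441 100 2 28 t7Maabbbbaaaaa t7Maabbbbaaaab

noncomputable def t7Maabbbbaaab : TT :=
  node 149109 15 2 28 t7Maabbbbaaaba t7Maabbbbaaabb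

noncomputable def t7Maabbbbaaa : TT :=
  node 151441 125 2 28 t7Maabbbbaaaa t7Maabbbbaaab

noncomputable def t7Maabbbbaa : TT :=
  node 151441 50 30 1 t7Maabbbbaaa t7Maabbbbaab

noncomputable def t7Maabbbbaba : TT :=
  node 150958 100 2 28 t7Maabbbbabaa t7Maabbbbabab

noncomputable def t7Maabbbbab : TT :=
  node 150958 125 2 28 t7Maabbbbaba t7Maabbbbabb

noncomputable def t7Maabbbba : TT :=
  node 151441 5 3 28 t7Maabbbbaa t7Maabbbbab

noncomputable def t7Maabbbbbaaa : TT :=
  node 140208 50 2 1 t7Maabbbbbaaaa t7Maabbbbbaaab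

noncomputable def t7Maabbbbbaabaa : TT :=
  node 137639 75 1 30 t7Maabbbbbaabaaa t7Maabbbbbaabaab

noncomputable def t7Maabbbbbaaba : TT :=
  node 137639 100 2 28 t7Maabbbbbaabaa t7Maabbbbbaabab

noncomputable def t7Maabbbbbaabb : TT :=
  node 132237 155 2 28 t7Maabbbbbaabba t7Maabbbbbaabbb

noncomputable def t7Maabbbbbaab : TT :=
  node 137639 125 2 28 t7Maabbbbbaaba t7Maabbbbbaabb

noncomputable def t7Maabbbbbaa : TT :=
  node 140208 5 2 28 t7Maabbbbbaaa t7Maabbbbbaab

noncomputable def t7Maabbbbbab : TT :=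
  node 143928 50 2 1 t7Maabbbbbaba t7Maabbbbbabb

noncomputable def t7Maabbbbba : TT :=
  node 143928 5 30 1 t7Maabbbbbaa t7Maabbbbbab

noncomputable def t7Maabbbbbbaaa : TT :=
  node 144323 75 1 30 t7Maabbbbbbaaaa t7Maabbbbbbaaab

noncomputable def t7Maabbbbbbaa : TT :=
  node 144323 100 2 28 t7Maabbbbbbaaa t7Maabbbbbbaab

noncomputable def t7Maabbbbbbab : TT :=
  node 139759 155 2 28 t7Maabbbbbbaba t7Maabbbbbbabb

noncomputable def t7Maabbbbbba : TT :=
  node 144323 125 2 28 t7Maabbbbbbaa t7Maabbbbbbab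

noncomputable def t7Maabbbbbbba : TT :=
  node 140639 100 2 28 t7Maabbbbbbbaa t7Maabbbbbbbab

noncomputable def t7Maabbbbbbb : TT :=
  node 140639 125 2 28 t7Maabbbbbbba t7Maabbbbbbbb

noncomputable def t7Maabbbbbb : TT :=
  node 144323 5 3 28 t7Maabbbbbba t7Maabbbbbbb

noncomputable def t7Maabbbbb : TT :=
  node 144323 50 3 28 t7Maabbbbba t7Maabbbbbb

noncomputable def t7Maabbbb : TT :=
  node 151441 155 1 30 t7Maabbbba t7Maabbbbb

noncomputable def t7Maabbb : TT :=
  node 151441 125 1 30 t7Maabbba t7Maabbbb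

noncomputable def t7Maabb : TT :=
  node 159281 15 1 30 t7Maabba t7Maabbb

noncomputable def t7Maab : TT :=
  node 159281 100 1 30 t7Maaba t7Maabb

noncomputable def t7Maa : TT :=
  node 162481 25 1 30 t7Maaa t7Maab

noncomputable def t7Ma : TT :=
  node 162481 150 3 28 t7Maa t7Mab

noncomputable def t7Mbaaababa : TT :=
  node 142689 5 3 28 t7Mbaaababaa t7Mbaaababab

noncomputable def t7Mbaaabab : TT :=
  node 142689 155 1 30 t7Mbaaababa t7Mbaaababb

noncomputable def t7Mbaaaba : TT :=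
  node 143301 100 1 30 t7Mbaaabaa t7Mbaaabab

noncomputable def t7Mbaaabbb : TT :=
  node 145018 155 1 30 t7Mbaaabbba t7Mbaaabbbb

noncomputable def t7Mbaaabb : TT :=
  node 145633 100 1 30 t7Mbaaabba t7Mbaaabbb

noncomputable def t7Mbaaab : TT :=
  node 145633 50 3 28 t7Mbaaaba t7Mbaaabb

noncomputable def t7Mbaaa : TT :=
  node 145633 125 1 30 t7Mbaaaa t7Mbaaab

noncomputable def t7Mbaabaaa : TT :=
  node 125249 125 1 2 t7Mbaabaaaa t7Mbaabaaab

noncomputable def t7Mbaabaa : TT :=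
  node 135160 125 3 28 t7Mbaabaaa t7Mbaabaab

noncomputable def t7Mbaababb : TT :=
  node 137499 155 1 30 t7Mbaababba t7Mbaababbb

noncomputable def t7Mbaabab : TT :=
  node 137499 125 1 30 t7Mbaababa t7Mbaababb

noncomputable def t7Mbaaba : TT :=
  node 137499 100 1 30 t7Mbaabaa t7Mbaabab

noncomputable def t7Mbaabbbb : TT :=
  node 140055 155 1 30 t7Mbaabbbba t7Mbaabbbbb

noncomputable def t7Mbaabbb : TT :=
  node 140055 125 1 30 t7Mbaabbba t7Mbaabbbb

noncomputable def t7Mbaabb : TT :=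
  node 140055 100 1 30 t7Mbaabba t7Mbaabbb

noncomputable def t7Mbaab : TT :=
  node 140055 50 3 28 t7Mbaaba t7Mbaabb

noncomputable def t7Mbaa : TT :=
  node 145633 25 1 30 t7Mbaaa t7Mbaab

noncomputable def t7Mba : TT :=
  node 145633 150 3 28 t7Mbaa t7Mbab

noncomputable def t7Mbbaab : TT :=
  node 131072 50 3 28 t7Mbbaaba t7Mbbaabb

noncomputable def t7Mbbaa : TT :=
  node 131072 125 1 30 t7Mbbaaa t7Mbbaab

noncomputable def t7Mbba : TT :=
  node 131072 25 1 30 t7Mbbaa t7Mbbab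

noncomputable def t7Mbb : TT :=
  node 131072 150 3 28 t7Mbba t7Mbbb

noncomputable def t7Mb : TT :=
  node 145633 0 8 16 t7Mba t7Mbb

noncomputable def t7M : TT :=
  node 162481 0 4 24 t7Ma t7Mb

noncomputable def cx7 : Cx :=
  ⟨(nat_lit 7), (nat_lit 10000), (nat_lit 0x20000), (nat_lit 2227), rules, tab7, cfT, t7A, t7P, t7M⟩

end Pool.Agent.MP_31805c_co.H47
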