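import Pool.Agent.MP_31805c_co.H47.Rules
import Pool.Agent.MP_31805c_co.H47.CfTab
import Pool.Agent.MP_31805c_co.H47.Tab8
import Pool.Agent.MP_31805c_co.H47.Tr8_0
import Pool.Agent.MP_31805c_co.H47.Tr8_1

namespace Pool.Agent.MP_31805c_co.H47

set_option maxRecDepth 100000
set_option maxHeartbeats 0

open TT

noncomputable def t8Aa : TT :=
  node 312144 175 1 30 t8Aaa t8Aab

noncomputable def t8Aba : TT :=
  node 312144 25 1 30 t8Abaa t8Abab

noncomputable def t8Abbba : TT :=
  node 302144 180 1 30 t8Abbbaa t8Abbbab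

noncomputable def t8Abbb : TT :=
  node 302144 175 2 28 t8Abbba t8Abbbb

noncomputable def t8Abb : TT :=
  node 302144 25 1 30 t8Abba t8Abbb

noncomputable def t8Ab : TT :=
  node 312144 175 1 30 t8Aba t8Abb

noncomputable def t8A : TT :=
  node 312144 0 1 2 t8Aa t8Ab

noncomputable def t8Paaababa : TT :=
  node 142065 150 3 28 t8Paaababaa t8Paaababab

noncomputable def t8Paaabab : TT :=
  node 148132 50 1 30 t8Paaababa t8Paaababb

noncomputable def t8Paaaba : TT :=
  node 153198 10 1 30 t8Paaabaa t8Paaabab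

noncomputable def t8Paaabbb : TT :=
  node 138031 50 1 30 t8Paaabbba t8Paaabbbb

noncomputable def t8Paaabb : TT :=
  node 149622 10 1 30 t8Paaabba t8Paaabbb

noncomputable def t8Paaab : TT :=
  node 153198 180 3 28 t8Paaaba t8Paaabb

noncomputable def t8Paaa : TT :=
  node 163519 5 1 30 t8Paaaa t8Paaab

noncomputable def t8Paabaaa : TT :=
  node 156130 50 1 30 t8Paabaaaa t8Paabaaab

noncomputable def t8Paabaa : TT :=
  node 156130 5 3 28 t8Paabaaa t8Paabaab

noncomputable def t8Paababa : TT :=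
  node 146994 5 1 30 t8Paababaa t8Paababab

noncomputable def t8Paabab : TT :=
  node 149619 50 1 30 t8Paababa t8Paababb

noncomputable def t8Paaba : TT :=
  node 156130 10 1 30 t8Paabaa t8Paabab

noncomputable def t8Paabbb : TT :=
  node 148605 50 1 30 t8Paabbba t8Paabbbb

noncomputable def t8Paabb : TT :=
  node 155461 10 1 30 t8Paabba t8Paabbb

noncomputable def t8Paab : TT :=
  node 156130 180 3 28 t8Paaba t8Paabb

noncomputable def t8Paa : TT :=
  node 163519 175 1 30 t8Paaa t8Paab

noncomputable def t8Pa : TT :=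
  node 163519 25 3 28 t8Paa t8Pab

noncomputable def t8Pbaaaa : TT :=
  node 145808 50 1 30 t8Pbaaaaa t8Pbaaaab

noncomputable def t8Pbaaa : TT :=
  node 149084 180 3 28 t8Pbaaaa t8Pbaaab

noncomputable def t8Pbaa : TT :=
  node 150093 150 3 28 t8Pbaaa t8Pbaab

noncomputable def t8Pba : TT :=
  node 150093 25 3 28 t8Pbaa t8Pbab

noncomputable def t8Pb : TT :=
  node 150093 0 8 16 t8Pba t8Pbb

noncomputable def t8P : TT :=
  node 163519 0 4 24 t8Pa t8Pb

noncomputable def t8Maaababa : TT :=
  node 142065 50 3 28 t8Maaababaa t8Maaababab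

noncomputable def t8Maaabab : TT :=
  node 148132 150 1 30 t8Maaababa t8Maaababb

noncomputable def t8Maaaba : TT :=
  node 153198 15 1 30 t8Maaabaa t8Maaabab

noncomputable def t8Maaabbb : TT :=
  node 138031 150 1 30 t8Maaabbba t8Maaabbbb

noncomputable def t8Maaabb : TT :=
  node 149622 15 1 30 t8Maaabba t8Maaabbb

noncomputable def t8Maaab : TT :=
  node 153198 5 3 28 t8Maaaba t8Maaabb

noncomputable def t8Maaa : TT :=
  node 163519 180 1 30 t8Maaaa t8Maaab

noncomputable def t8Maabaaa : TT :=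
  node 156130 150 1 30 t8Maabaaaa t8Maabaaab

noncomputable def t8Maabaa : TT :=
  node 156130 180 3 28 t8Maabaaa t8Maabaab

noncomputable def t8Maababa : TT :=
  node 146994 180 1 30 t8Maababaa t8Maababab

noncomputable def t8Maabab : TT :=
  node 149619 150 1 30 t8Maababa t8Maababb

noncomputable def t8Maaba : TT :=
  node 156130 15 1 30 t8Maabaa t8Maabab

noncomputable def t8Maabbb : TT :=
  node 148605 150 1 30 t8Maabbba t8Maabbbb

noncomputable def t8Maabb : TT :=
  node 155461 15 1 30 t8Maabba t8Maabbb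

noncomputable def t8Maab : TT :=
  node 156130 5 3 28 t8Maaba t8Maabb

noncomputable def t8Maa : TT :=
  node 163519 25 1 30 t8Maaa t8Maab

noncomputable def t8Ma : TT :=
  node 163519 175 3 28 t8Maa t8Mab

noncomputable def t8Mbaaaa : TT :=
  node 145808 150 1 30 t8Mbaaaaa t8Mbaaaab

noncomputable def t8Mbaaa : TT :=
  node 149084 5 3 28 t8Mbaaaa t8Mbaaab

noncomputable def t8Mbaa : TT :=
  node 150093 50 3 28 t8Mbaaa t8Mbaab

noncomputable def t8Mba : TT :=
  node 150093 175 3 28 t8Mbaa t8Mbab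

noncomputable def t8Mb : TT :=
  node 150093 0 8 16 t8Mba t8Mbb

noncomputable def t8M : TT :=
  node 163519 0 4 24 t8Ma t8Mb

noncomputable def cx8 : Cx :=
  ⟨(nat_lit 8), (nat_lit 10000), (nat_lit 0x20000), (nat_lit 1693), rules, tab8, cfT, t8A, t8P, t8M⟩

end Pool.Agent.MP_31805c_co.H47
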