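import Pool.Agent.MP_31805c_co.H47.Rules
import Pool.Agent.MP_31805c_co.H47.CfTab
import Pool.Agent.MP_31805c_co.H47.Tab9
import Pool.Agent.MP_31805c_co.H47.Tr9_0

namespace Pool.Agent.MP_31805c_co.H47

set_option maxRecDepth 100000
set_option maxHeartbeats 0

open TT

noncomputable def t9Aa : TT :=
  node 312144 200 1 30 t9Aaa t9Aab

noncomputable def t9Aba : TT :=
  node 312144 25 1 30 t9Abaa t9Abab

noncomputable def t9Abbba : TT :=
  node 302144 205 1 30 t9Abbbaa t9Abbbab

noncomputable def t9Abbb : TT :=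
  node 302144 200 2 28 t9Abbba t9Abbbb

noncomputable def t9Abb : TT :=
  node 302144 25 1 30 t9Abba t9Abbb

noncomputable def t9Ab : TT :=
  node 312144 200 1 30 t9Aba t9Abb

noncomputable def t9A : TT :=
  node 312144 0 1 2 t9Aa t9Ab

noncomputable def t9Paaab : TT :=
  node 159577 205 3 28 t9Paaaba t9Paaabb

noncomputable def t9Paaa : TT :=
  node 163125 5 1 30 t9Paaaa t9Paaab

noncomputable def t9Paa : TT :=
  node 163125 200 1 30 t9Paaa t9Paab

noncomputable def t9Pa : TT :=
  node 163125 25 3 28 t9Paa t9Pab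

noncomputable def t9P : TT :=
  node 163125 0 4 24 t9Pa t9Pb

noncomputable def t9Maaab : TT :=
  node 159577 5 3 28 t9Maaaba t9Maaabb

noncomputable def t9Maaa : TT :=
  node 163125 205 1 30 t9Maaaa t9Maaab

noncomputable def t9Maa : TT :=
  node 163125 25 1 30 t9Maaa t9Maab

noncomputable def t9Ma : TT :=
  node 163125 200 3 28 t9Maa t9Mab

noncomputable def t9M : TT :=
  node 163125 0 4 24 t9Ma t9Mb

noncomputable def cx9 : Cx :=
  ⟨(nat_lit 9), (nat_lit 10000), (nat_lit 0x20000), (nat_lit 774), rules, tab9, cfT, t9A, t9P, t9M⟩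

end Pool.Agent.MP_31805c_co.H47
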